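import Pool.Agent.Y200.CY.Stm

/-! Dehomogenisation of a smooth multihomogeneous polynomial (helper445, project CY). -/

set_option autoImplicit false

namespace Pool.Agent.Y200.CY.Dh

open MvPolynomial Pool.Agent.Y200.CY

section general

variable {k : Type} [Field k] {a b N : ℕ} (e : {s : Sg a b // s ≠ o0 (bl s)} ≃ Fin N)

lemma bl_o0 (β : Bl a b) : bl (o0 β) = β := by
  rcases β with i | j <;> rfl

/-- the images of the coordinates -/
noncomputable def gg (k : Type) [Field k] {a b N : ℕ} (e : {s : Sg a b // s ≠ o0 (bl s)} ≃ Fin N)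
    (s : Sg a b) : MvPolynomial (Fin N) k :=
  if h : s ≠ o0 (bl s) then X (e ⟨s, h⟩) else 1

lemma deh_eq (F : MvPolynomial (Sg a b) k) : deh e F = aeval (gg k e) F := rfl

lemma deh_val {K : Type} [Field K] [Algebra k K] (F : MvPolynomial (Sg a b) k) (x : Fin N → K) :
    aeval x (deh e F) = aeval (hpt e x) F := by
  rw [deh_eq, ← AlgHom.comp_apply, comp_aeval]
  congr 2
  funext s
  unfold gg hpt
  split_ifs with h
  · rw [aeval_X]
  · rw [map_one]

lemma pderiv_gg (l : Fin N) (s : Sg a b) :
    pderiv l (gg k e s) = aeval (gg k e) (pderiv ((e.symm l).1) (X s : MvPolynomial (Sg a b) k)) := by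
  classical
  rw [pderiv_X]
  unfold gg
  by_cases h : s ≠ o0 (bl s)
  · rw [dif_pos h, pderiv_X]
    by_cases h2 : e ⟨s, h⟩ = l
    · have h3 : (e.symm l).1 = s := by
        rw [← h2, Equiv.symm_apply_apply]
      rw [h2, h3, Pi.single_eq_same, Pi.single_eq_same, map_one]
    · have h3 : s ≠ (e.symm l).1 := by
        intro h4
        apply h2
        rw [← Equiv.eq_symm_apply]
        exact Subtype.ext h4
      rw [Pi.single_eq_of_ne h2, Pi.single_eq_of_ne h3, map_zero]
  · have h3 : s ≠ (e.symm l).1 := by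
      intro h4
      apply h
      rw [h4]
      exact (e.symm l).2
    rw [dif_neg h, Pi.single_eq_of_ne h3, map_zero]
    exact pderiv_one

lemma pderiv_deh (F : MvPolynomial (Sg a b) k) (l : Fin N) :
    pderiv l (deh e F) = deh e (pderiv ((e.symm l).1) F) := by
  rw [deh_eq, deh_eq]
  induction F using MvPolynomial.induction_on with
  | C c => rw [aeval_C, pderiv_C, map_zero]; exact pderiv_C
  | add p q hp hq => rw [map_add, map_add, hp, hq, map_add, map_add]
  | mul_X p s hp =>
    rw [map_mul, aeval_X, Derivation.leibniz, hp, pderiv_gg, Derivation.leibniz, map_add,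
      smul_eq_mul, smul_eq_mul, smul_eq_mul, smul_eq_mul, map_mul, map_mul, aeval_X]

/-- the exponents of the affine coordinates -/
noncomputable def rst (d : Sg a b →₀ ℕ) : Fin N →₀ ℕ :=
  Finsupp.equivFunOnFinite.symm (fun l => d (e.symm l).1)

lemma rst_apply (d : Sg a b →₀ ℕ) (l : Fin N) : rst e d l = d (e.symm l).1 := rfl

lemma prod_gg (d : Sg a b →₀ ℕ) : ∏ s, gg k e s ^ d s = monomial (rst e d) 1 := by
  classical
  rw [← Fintype.prod_subtype_mul_prod_subtype (fun s : Sg a b => s ≠ o0 (bl s))]
  have h1 : ∏ s : {s : Sg a b // ¬ s ≠ o0 (bl s)}, gg k e s ^ d s = 1 := by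
    refine Finset.prod_eq_one fun s _ => ?_
    unfold gg
    rw [dif_neg s.2, one_pow]
  have h2 : ∏ s : {s : Sg a b // s ≠ o0 (bl s)}, gg k e s ^ d s =
      ∏ l : Fin N, (X l : MvPolynomial (Fin N) k) ^ rst e d l := by
    refine Fintype.prod_equiv e _ _ fun s => ?_
    rw [rst_apply, Equiv.symm_apply_apply]
    unfold gg
    rw [dif_pos s.2]
  rw [h1, h2, mul_one, monomial_eq, C_1, one_mul, Finsupp.prod_fintype _ _ (fun i => pow_zero _)]

lemma rst_inj {d d' : Sg a b →₀ ℕ}
    (hd : ∀ β : Bl a b, ∑ s with bl s = β, d s = ∑ s with bl s = β, d' s)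
    (h : rst e d = rst e d') : d = d' := by
  classical
  have h1 : ∀ s : Sg a b, s ≠ o0 (bl s) → d s = d' s := by
    intro s hs
    have := DFunLike.congr_fun h (e ⟨s, hs⟩)
    rw [rst_apply, rst_apply, Equiv.symm_apply_apply] at this
    exact this
  ext s
  by_cases hs : s ≠ o0 (bl s)
  · exact h1 s hs
  · rw [not_not] at hs
    have h2 := hd (bl s)
    have hm : s ∈ Finset.univ.filter (fun t : Sg a b => bl t = bl s) := by simp
    rw [← Finset.add_sum_erase _ _ hm, ← Finset.add_sum_erase _ _ hm] at h2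
    have h3 : ∑ t ∈ (Finset.univ.filter (fun t : Sg a b => bl t = bl s)).erase s, d t =
        ∑ t ∈ (Finset.univ.filter (fun t : Sg a b => bl t = bl s)).erase s, d' t := by
      refine Finset.sum_congr rfl fun t ht => h1 t ?_
      rw [Finset.mem_erase, Finset.mem_filter] at ht
      intro h4
      apply ht.1
      rw [h4, ht.2.2]
      exact hs.symm
    omega

lemma coeff_deh {F : MvPolynomial (Sg a b) k} (hF : MHom F) {d : Sg a b →₀ ℕ}
    (hd : d ∈ F.support) : coeff (rst e d) (deh e F) = coeff d F := by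
  classical
  have h1 : deh e F = ∑ d' ∈ F.support, monomial (rst e d') (coeff d' F) := by
    rw [deh_eq, aeval_def, eval₂_eq']
    refine Finset.sum_congr rfl fun d' _ => ?_
    rw [prod_gg, algebraMap_eq, C_mul_monomial, mul_one]
  rw [h1, coeff_sum, Finset.sum_eq_single d]
  · rw [coeff_monomial, if_pos rfl]
  · intro d' hd' hne
    rw [coeff_monomial, if_neg]
    intro h
    exact hne (rst_inj e (fun β => by rw [hF d' hd' β, hF d hd β]) h)
  · intro h
    exact absurd hd h

end general

lemma not_dvd_pderiv {k : Type*} [Field k] {N : ℕ} {F : MvPolynomial (Fin N) k} {l₀ : Fin N}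
    (hl : pderiv l₀ F ≠ 0) : ¬ F ∣ pderiv l₀ F := by
  rintro ⟨G, hG⟩
  have hF0 : F ≠ 0 := by rintro rfl; simp at hl
  have hG0 : G ≠ 0 := by rintro rfl; rw [mul_zero] at hG; exact hl hG
  have h1 := totalDegree_mul_of_isDomain hF0 hG0
  rw [← hG] at h1
  obtain ⟨m, hm⟩ : (pderiv l₀ F).support.Nonempty := by
    rw [Finset.nonempty_iff_ne_empty, Ne, support_eq_empty]; exact hl
  have h2 : (pderiv l₀ F).totalDegree < F.totalDegree := by
    have hb : ∀ m ∈ (pderiv l₀ F).support, (m.sum fun _ e => e) + 1 ≤ F.totalDegree := by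
      intro m hm
      rw [mem_support_iff, coeff_pderiv] at hm
      have h1 : coeff (m + Finsupp.single l₀ 1) F ≠ 0 := left_ne_zero_of_mul hm
      have h2 := (le_totalDegree (mem_support_iff.mpr h1))
      rw [Finsupp.sum_add_index' (by simp) (by intros; simp)] at h2
      rw [Finsupp.sum_single_index (by simp)] at h2
      exact h2
    have hpos : 0 < F.totalDegree := lt_of_lt_of_le (Nat.succ_pos _) (hb m hm)
    rw [totalDegree, Finset.sup_lt_iff (by simpa using hpos)]
    intro m hm
    exact hb m hm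
  omega

lemma pderiv_ne {k : Type*} [Field k] [CharZero k] {N : ℕ} {f : MvPolynomial (Fin N) k} {l : Fin N}
    (h : f.degreeOf l ≠ 0) : pderiv l f ≠ 0 := by
  intro h0
  apply h
  rw [← Nat.le_zero, degreeOf_le_iff]
  intro m hm
  by_contra hc
  have h1 : m = (m - Finsupp.single l 1) + Finsupp.single l 1 := by
    refine (tsub_add_cancel_of_le ?_).symm
    rw [Finsupp.single_le_iff]
    omega
  have h2 : coeff (m - Finsupp.single l 1) (pderiv l f) = 0 := by rw [h0, coeff_zero]
  rw [coeff_pderiv, ← h1] at h2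
  have h3 : coeff m f ≠ 0 := mem_support_iff.1 hm
  rcases mul_eq_zero.1 h2 with h4 | h4
  · exact h3 h4
  · exact absurd h4 (Nat.cast_add_one_ne_zero _)

/-- a polynomial without a coordinate is singular -/
lemma sing {k : Type} [Field k] {a b : ℕ} {F : MvPolynomial (Sg a b) k} (hF : MHom F) (s : Sg a b)
    (hs : ∀ d ∈ F.support, d s = 0) : ¬ Smo F k := by
  classical
  intro hsm
  obtain ⟨q, hq⟩ := hsm (fun t => if bl t = bl s then (if t = s then 1 else 0) else 1) (by
    intro β
    by_cases hβ : β = bl s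
    · exact ⟨s, hβ.symm, by simp⟩
    · refine ⟨o0 β, bl_o0 β, ?_⟩
      simp only
      rw [bl_o0, if_neg hβ]
      exact one_ne_zero)
  apply hq
  have h1 : F = ∑ d ∈ F.support, monomial d (coeff d F) := (support_sum_monomial_coeff F).symm
  rw [h1, map_sum, map_sum]
  refine Finset.sum_eq_zero fun d hd => ?_
  rw [pderiv_monomial, aeval_monomial]
  obtain ⟨t, ht, hts, htd⟩ : ∃ t, bl t = bl s ∧ t ≠ s ∧ (d - Finsupp.single q 1 : Sg a b →₀ ℕ) t ≠ 0 := by
    by_contra hc
    push Not at hc
    have h2 : ∀ t ∈ Finset.univ.filter (fun t : Sg a b => bl t = bl s),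
        d t ≤ Finsupp.single q 1 t := by
      intro t ht
      rw [Finset.mem_filter] at ht
      by_cases h3 : t = s
      · rw [h3, hs d hd]
        exact Nat.zero_le _
      · have := hc t ht.2 h3
        rw [Finsupp.tsub_apply] at this
        omega
    have h3 := Finset.sum_le_sum h2
    rw [hF d hd (bl s)] at h3
    have h4 : ∑ t ∈ Finset.univ.filter (fun t : Sg a b => bl t = bl s),
        Finsupp.single q 1 t ≤ 1 := by
      refine (Finset.sum_le_sum_of_subset (Finset.filter_subset _ _)).trans (le_of_eq ?_)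
      rw [Finset.sum_eq_single q]
      · simp
      · intro t _ ht
        exact Finsupp.single_eq_of_ne ht
      · intro h; exact absurd (Finset.mem_univ _) h
    have h5 : 2 ≤ dg (bl s) := by
      rcases bl s with i | j
      · exact le_rfl
      · exact Nat.le_succ 2
    omega
  have h2 : ((d - Finsupp.single q 1).prod fun i n =>
      (if bl i = bl s then (if i = s then (1 : k) else 0) else 1) ^ n) = 0 := by
    rw [Finsupp.prod]
    refine Finset.prod_eq_zero (Finsupp.mem_support_iff.2 htd) ?_
    rw [if_pos ht, if_neg hts, zero_pow htd]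
  rw [h2, mul_zero]

theorem ev : StmEV := by
  intro a b N k K _ _ _ e F x
  refine ⟨deh_val e F x, fun l => ?_⟩
  rw [pderiv_deh, deh_val]

theorem dh : StmDH := by
  intro a b N k _ _ e F hF hs l
  have h1 : (deh e F).degreeOf l ≠ 0 := by
    intro h0
    refine sing hF (e.symm l).1 ?_ hs
    intro d hd
    have h2 : rst e d ∈ (deh e F).support := by
      rw [mem_support_iff, coeff_deh e hF hd]
      exact mem_support_iff.1 hd
    have h3 := monomial_le_degreeOf l h2
    rw [h0, rst_apply] at h3
    omega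
  exact ⟨h1, not_dvd_pderiv (pderiv_ne h1)⟩

end Pool.Agent.Y200.CY.Dh
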