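import Pool.Agent.Y200.CY.Stm
import Pool.Agent.Y200.CB.Irr

/-! The cubics through a generic point of an irreducible plane cubic (helper604). -/

set_option autoImplicit false
set_option linter.unusedSectionVars false
set_option linter.unusedSimpArgs false

namespace Pool.Agent.Y200.CY.A

open MvPolynomial Pool.Agent.Y200.CB Pool.Agent.Y200.CY

section base

variable {E : Type} [Field E] [CharZero E]

/-- a polynomial of degree one or two is not a unit -/
theorem not_unit (P : MvPolynomial (Fin 2) E) (a0 a1 a2 a3 a4 a5 : E)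
    (hP : ∀ x : Fin 2 → E, eval x P = a0 + a1 * x 0 + a2 * x 1 + a3 * x 0 ^ 2 +
      a4 * x 0 * x 1 + a5 * x 1 ^ 2)
    (h : ¬ (a1 = 0 ∧ a2 = 0 ∧ a3 = 0 ∧ a4 = 0 ∧ a5 = 0)) : ¬ IsUnit P := by
  intro hu
  obtain ⟨r, -, hr⟩ := isUnit_iff_eq_C_of_isReduced.1 hu
  have hc : ∀ x : Fin 2 → E, a0 + a1 * x 0 + a2 * x 1 + a3 * x 0 ^ 2 +
      a4 * x 0 * x 1 + a5 * x 1 ^ 2 = r := by
    intro x
    rw [← hP x, hr, eval_C]
  have k0 := hc ![0, 0]
  have k1 := hc ![1, 0]
  have k2 := hc ![-1, 0]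
  have k3 := hc ![0, 1]
  have k4 := hc ![0, -1]
  have k5 := hc ![1, 1]
  simp only [Matrix.cons_val_zero, Matrix.cons_val_one, mul_zero, add_zero, mul_one, one_pow,
    ne_eq, OfNat.ofNat_ne_zero, not_false_eq_true, zero_pow, zero_mul, mul_neg, neg_mul,
    neg_neg] at k0 k1 k2 k3 k4 k5
  have two : (2 : E) ≠ 0 := two_ne_zero
  have e1 : a1 = 0 := by
    have : (2 : E) * a1 = 0 := by linear_combination k1 - k2
    exact (mul_eq_zero.1 this).resolve_left two
  have e2 : a2 = 0 := by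
    have : (2 : E) * a2 = 0 := by linear_combination k3 - k4
    exact (mul_eq_zero.1 this).resolve_left two
  have e3 : a3 = 0 := by linear_combination k1 - k0 - e1
  have e5 : a5 = 0 := by linear_combination k3 - k0 - e2
  have e4 : a4 = 0 := by linear_combination k5 - k0 - e1 - e2 - e3 - e5
  exact h ⟨e1, e2, e3, e4, e5⟩

/-- values of the affine equation -/
theorem eval_aff (c : Cub E) (x : Fin 2 → E) : eval x c.aff = c.ev 1 (x 0) (x 1) := by
  simp [Cub.aff, Cub.ev, Cub.map]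

theorem aeval_aff {Λ : Type} [Field Λ] [Algebra E Λ] (c : Cub E) (u v : Λ) :
    aeval ![u, v] c.aff = (c.map (algebraMap E Λ)).ev 1 u v := by
  simp [Cub.aff, Cub.ev, Cub.map]

/-- exponents -/
noncomputable def ex (i j : ℕ) : Fin 2 →₀ ℕ := Finsupp.single 0 i + Finsupp.single 1 j

theorem ex_zero (i j : ℕ) : ex i j 0 = i := by simp [ex]

theorem ex_one (i j : ℕ) : ex i j 1 = j := by simp [ex]

theorem ex_inj {i j i' j' : ℕ} : ex i j = ex i' j' ↔ i = i' ∧ j = j' := by
  constructor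
  · intro h
    have h0 := DFunLike.congr_fun h 0
    have h1 := DFunLike.congr_fun h 1
    rw [ex_zero, ex_zero] at h0
    rw [ex_one, ex_one] at h1
    exact ⟨h0, h1⟩
  · rintro ⟨rfl, rfl⟩
    rfl

theorem mon (i j : ℕ) (a : E) : monomial (ex i j) a = C a * X 0 ^ i * X 1 ^ j := by
  rw [C_mul_X_pow_eq_monomial, X_pow_eq_monomial, monomial_mul, mul_one, ex]

theorem aff_eq (c : Cub E) : c.aff = monomial (ex 0 0) c.c00 + monomial (ex 1 0) c.c10 +
    monomial (ex 0 1) c.c01 + monomial (ex 2 0) c.c20 + monomial (ex 1 1) c.c11 +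
    monomial (ex 0 2) c.c02 + monomial (ex 3 0) c.c30 + monomial (ex 2 1) c.c21 +
    monomial (ex 1 2) c.c12 + monomial (ex 0 3) c.c03 := by
  simp only [Cub.aff, Cub.ev, Cub.map, mon]
  ring

theorem co_aff (c : Cub E) : coeff (ex 0 0) c.aff = c.c00 ∧ coeff (ex 1 0) c.aff = c.c10 ∧
    coeff (ex 0 1) c.aff = c.c01 ∧ coeff (ex 2 0) c.aff = c.c20 ∧ coeff (ex 1 1) c.aff = c.c11 ∧
    coeff (ex 0 2) c.aff = c.c02 ∧ coeff (ex 3 0) c.aff = c.c30 ∧ coeff (ex 2 1) c.aff = c.c21 ∧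
    coeff (ex 1 2) c.aff = c.c12 ∧ coeff (ex 0 3) c.aff = c.c03 := by
  rw [aff_eq]
  simp [coeff_monomial, ex_inj]

theorem totalDegree_aff_le (c : Cub E) : c.aff.totalDegree ≤ 3 := by
  rw [aff_eq]
  have hadd : ∀ p q : MvPolynomial (Fin 2) E, p.totalDegree ≤ 3 → q.totalDegree ≤ 3 →
      (p + q).totalDegree ≤ 3 := fun p q hp hq => (totalDegree_add p q).trans (max_le hp hq)
  have hm : ∀ (i j : ℕ) (a : E), i + j ≤ 3 → (monomial (ex i j) a).totalDegree ≤ 3 := by
    intro i j a hij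
    refine (totalDegree_monomial_le _ _).trans ?_
    rw [ex, Finsupp.sum_add_index' (fun _ => rfl) (fun _ _ _ => rfl)]
    simpa using hij
  repeat' apply hadd
  all_goals
    apply hm
    norm_num

theorem totalDegree_aff (c : Cub E) (hc : c.Deg3) : c.aff.totalDegree = 3 := by
  refine le_antisymm (totalDegree_aff_le c) ?_
  obtain ⟨-, -, -, -, -, -, h30, h21, h12, h03⟩ := co_aff c
  have key : ∀ i j : ℕ, i + j = 3 → coeff (ex i j) c.aff ≠ 0 → 3 ≤ c.aff.totalDegree := by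
    intro i j hij hne
    have h1 := le_totalDegree (mem_support_iff.2 hne)
    refine le_trans ?_ h1
    rw [ex, Finsupp.sum_add_index' (fun _ => rfl) (fun _ _ _ => rfl)]
    simp [hij]
  by_contra hlt
  apply hc
  refine ⟨?_, ?_, ?_, ?_⟩
  · by_contra h
    exact hlt (key 3 0 (by norm_num) (by rwa [h30]))
  · by_contra h
    exact hlt (key 2 1 (by norm_num) (by rwa [h21]))
  · by_contra h
    exact hlt (key 1 2 (by norm_num) (by rwa [h12]))
  · by_contra h
    exact hlt (key 0 3 (by norm_num) (by rwa [h03]))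

variable {Λ : Type} [Field Λ] [Algebra E Λ]

theorem mem_range [IsAlgClosed E] {z : Λ} (hz : IsAlgebraic E z) : ∃ z₀ : E, z = algebraMap E Λ z₀ := by
  have hint : IsIntegral E z := hz.isIntegral
  have h1 := IsAlgClosed.degree_eq_one_of_irreducible E (minpoly.irreducible hint)
  obtain ⟨b, hb⟩ := minpoly.mem_range_of_degree_eq_one E z h1
  exact ⟨b, hb.symm⟩

/-- a cubic polynomial with a transcendental root is zero -/
theorem cub_zero {t : Λ} (ht : Transcendental E t) (c0 c1 c2 c3 : E)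
    (h : algebraMap E Λ c3 * t ^ 3 + algebraMap E Λ c2 * t ^ 2 + algebraMap E Λ c1 * t +
      algebraMap E Λ c0 = 0) : c0 = 0 ∧ c1 = 0 ∧ c2 = 0 ∧ c3 = 0 := by
  obtain ⟨p, hp⟩ : ∃ p : Polynomial E, p = Polynomial.C c3 * Polynomial.X ^ 3 +
    Polynomial.C c2 * Polynomial.X ^ 2 + Polynomial.C c1 * Polynomial.X + Polynomial.C c0 :=
    ⟨_, rfl⟩
  have hp0 : p = 0 := by
    apply transcendental_iff.1 ht
    rw [hp]
    simp only [map_add, map_mul, map_pow, Polynomial.aeval_X, Polynomial.aeval_C]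
    exact h
  have e0 : p.coeff 0 = c0 := by rw [hp]; simp [Polynomial.coeff_X, Polynomial.coeff_C]
  have e1 : p.coeff 1 = c1 := by rw [hp]; simp [Polynomial.coeff_X, Polynomial.coeff_C]
  have e2 : p.coeff 2 = c2 := by rw [hp]; simp [Polynomial.coeff_X, Polynomial.coeff_C]
  have e3 : p.coeff 3 = c3 := by rw [hp]; simp [Polynomial.coeff_X, Polynomial.coeff_C]
  rw [hp0, Polynomial.coeff_zero] at e0 e1 e2 e3
  exact ⟨e0.symm, e1.symm, e2.symm, e3.symm⟩

/-- the first coordinate of a generic point is transcendental -/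
theorem trans_u [IsAlgClosed E] (c : Cub E) (hirr : Irreducible c.aff) (hc : c.Deg3) (u v : Λ)
    (h : (c.map (algebraMap E Λ)).ev 1 u v = 0)
    (hne : ∀ u₀ v₀ : E, u = algebraMap E Λ u₀ → v = algebraMap E Λ v₀ → False) :
    Transcendental E u := by
  intro hu
  obtain ⟨u₀, hu₀⟩ := mem_range hu
  have hv : Transcendental E v := by
    intro hv
    obtain ⟨v₀, hv₀⟩ := mem_range hv
    exact hne u₀ v₀ hu₀ hv₀
  obtain ⟨e0, e1, e2, e3⟩ := cub_zero hv (c.c00 + c.c10 * u₀ + c.c20 * u₀ ^ 2 + c.c30 * u₀ ^ 3)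
    (c.c01 + c.c11 * u₀ + c.c21 * u₀ ^ 2) (c.c02 + c.c12 * u₀) c.c03 (by
      rw [hu₀] at h
      simp only [Cub.ev, Cub.map] at h
      simp only [map_add, map_mul, map_pow]
      linear_combination h)
  have hfac : c.aff = (X 0 - C u₀) * (C c.c10 + C c.c20 * (X 0 + C u₀) +
      C c.c30 * (X 0 ^ 2 + X 0 * C u₀ + C u₀ ^ 2) + C c.c11 * X 1 +
      C c.c21 * (X 0 + C u₀) * X 1 + C c.c12 * X 1 ^ 2) := by
    have f0 := congrArg (C : E → MvPolynomial (Fin 2) E) e0
    have f1 := congrArg (C : E → MvPolynomial (Fin 2) E) e1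
    have f2 := congrArg (C : E → MvPolynomial (Fin 2) E) e2
    have f3 := congrArg (C : E → MvPolynomial (Fin 2) E) e3
    simp only [map_add, map_mul, map_pow, map_zero] at f0 f1 f2 f3
    simp only [Cub.aff, Cub.ev, Cub.map]
    linear_combination f0 + X 1 * f1 + X 1 ^ 2 * f2 + X 1 ^ 3 * f3
  rcases hirr.isUnit_or_isUnit hfac with h1 | h1
  · refine not_unit _ (-u₀) 1 0 0 0 0 (fun x => ?_) (fun h2 => one_ne_zero h2.1) h1
    simp
    ring
  · refine not_unit _ (c.c10 + c.c20 * u₀ + c.c30 * u₀ ^ 2) (c.c20 + c.c30 * u₀)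
      (c.c11 + c.c21 * u₀) c.c30 c.c21 c.c12 (fun x => ?_) (fun h2 => ?_) h1
    · simp
      ring
    · exact hc ⟨h2.2.2.1, h2.2.2.2.1, h2.2.2.2.2, e3⟩

/-- the second coordinate of a generic point is transcendental -/
theorem trans_v [IsAlgClosed E] (c : Cub E) (hirr : Irreducible c.aff) (hc : c.Deg3) (u v : Λ)
    (h : (c.map (algebraMap E Λ)).ev 1 u v = 0)
    (hne : ∀ u₀ v₀ : E, u = algebraMap E Λ u₀ → v = algebraMap E Λ v₀ → False) :
    Transcendental E v := by
  intro hv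
  obtain ⟨v₀, hv₀⟩ := mem_range hv
  have hu : Transcendental E u := by
    intro hu
    obtain ⟨u₀, hu₀⟩ := mem_range hu
    exact hne u₀ v₀ hu₀ hv₀
  obtain ⟨e0, e1, e2, e3⟩ := cub_zero hu (c.c00 + c.c01 * v₀ + c.c02 * v₀ ^ 2 + c.c03 * v₀ ^ 3)
    (c.c10 + c.c11 * v₀ + c.c12 * v₀ ^ 2) (c.c20 + c.c21 * v₀) c.c30 (by
      rw [hv₀] at h
      simp only [Cub.ev, Cub.map] at h
      simp only [map_add, map_mul, map_pow]
      linear_combination h)
  have hfac : c.aff = (X 1 - C v₀) * (C c.c01 + C c.c02 * (X 1 + C v₀) +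
      C c.c03 * (X 1 ^ 2 + X 1 * C v₀ + C v₀ ^ 2) + C c.c11 * X 0 +
      C c.c12 * (X 1 + C v₀) * X 0 + C c.c21 * X 0 ^ 2) := by
    have f0 := congrArg (C : E → MvPolynomial (Fin 2) E) e0
    have f1 := congrArg (C : E → MvPolynomial (Fin 2) E) e1
    have f2 := congrArg (C : E → MvPolynomial (Fin 2) E) e2
    have f3 := congrArg (C : E → MvPolynomial (Fin 2) E) e3
    simp only [map_add, map_mul, map_pow, map_zero] at f0 f1 f2 f3
    simp only [Cub.aff, Cub.ev, Cub.map]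
    linear_combination f0 + X 0 * f1 + X 0 ^ 2 * f2 + X 0 ^ 3 * f3
  rcases hirr.isUnit_or_isUnit hfac with h1 | h1
  · refine not_unit _ (-v₀) 0 1 0 0 0 (fun x => ?_) (fun h2 => one_ne_zero h2.2.1) h1
    simp
    ring
  · refine not_unit _ (c.c01 + c.c02 * v₀ + c.c03 * v₀ ^ 2) (c.c11 + c.c12 * v₀)
      (c.c02 + c.c03 * v₀) c.c21 c.c12 c.c03 (fun x => ?_) (fun h2 => ?_) h1
    · simp
      ring
    · exact hc ⟨e3, h2.2.2.1, h2.2.2.2.1, h2.2.2.2.2⟩

end base

/-- reindexing -/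
def e2 : Fin 2 ≃ Option (Fin 1) where
  toFun i := if i = 0 then some 0 else none
  invFun o := o.elim 1 fun _ => 0
  left_inv i := by fin_cases i <;> rfl
  right_inv o := by
    rcases o with _ | i
    · rfl
    · fin_cases i
      rfl

theorem stmA : StmA := by
  intro E Λ _ _ _ _ _ c hirr hc u v h hne P hP
  have hu := trans_u c hirr hc u v h hne
  have hdvd : c.aff ∣ P.aff := by
    refine ker_eq (n := 1) e2 c.aff hirr ![u, v] (by rw [aeval_aff]; exact h) ?_ P.aff
      (by rw [aeval_aff]; exact hP)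
    have h1 : (fun i : Fin 1 => (![u, v] : Fin 2 → Λ) (e2.symm (some i))) = fun _ => u := by
      funext i
      rfl
    rw [h1]
    exact (algebraicIndependent_unique_type_iff).2 hu
  obtain ⟨q, hq⟩ := hdvd
  obtain ⟨l, hl⟩ : ∃ l : E, P.aff = c.aff * C l := by
    by_cases hq0 : q = 0
    · exact ⟨0, by rw [hq, hq0, map_zero]⟩
    · have h1 := totalDegree_mul_of_isDomain hirr.ne_zero hq0
      rw [← hq, totalDegree_aff c hc] at h1
      have h2 := totalDegree_aff_le P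
      have h3 : q.totalDegree = 0 := by omega
      exact ⟨coeff 0 q, by rw [hq]; congr 1; exact totalDegree_eq_zero_iff_eq_C.1 h3⟩
  refine ⟨l, ?_⟩
  have hco : ∀ d, coeff d P.aff = l * coeff d c.aff := by
    intro d
    rw [hl, mul_comm, coeff_C_mul]
  obtain ⟨p0, p1, p2, p3, p4, p5, p6, p7, p8, p9⟩ := co_aff P
  obtain ⟨q0, q1, q2, q3, q4, q5, q6, q7, q8, q9⟩ := co_aff c
  intro α
  fin_cases α
  · change P.c00 = l * c.c00
    rw [← p0, ← q0, hco]
  · change P.c10 = l * c.c10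
    rw [← p1, ← q1, hco]
  · change P.c01 = l * c.c01
    rw [← p2, ← q2, hco]
  · change P.c20 = l * c.c20
    rw [← p3, ← q3, hco]
  · change P.c11 = l * c.c11
    rw [← p4, ← q4, hco]
  · change P.c02 = l * c.c02
    rw [← p5, ← q5, hco]
  · change P.c30 = l * c.c30
    rw [← p6, ← q6, hco]
  · change P.c21 = l * c.c21
    rw [← p7, ← q7, hco]
  · change P.c12 = l * c.c12
    rw [← p8, ← q8, hco]
  · change P.c03 = l * c.c03
    rw [← p9, ← q9, hco]

end Pool.Agent.Y200.CY.A
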