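import Pool.Agent.Y200.CY.Stm
import Pool.Agent.H552R3.Tsen.Zero

/-! Project CY (helper200), job CY-BF (helper319): the coefficients have no common zero. -/

set_option autoImplicit false

namespace Pool.Agent.Y200.CY.Bf

open MvPolynomial

section

variable {a b : ℕ}

theorem euler {k E : Type} [Field k] [Field E] [Algebra k E] {F : MvPolynomial (Sg a b) k}
    (h : MHom F) (z : Sg a b → E) (β : Bl a b) :
    ∑ s with bl s = β, z s * aeval z (pderiv s F) = dg β * aeval z F := by
  have h1 : F.IsWeightedHomogeneous (fun s => if bl s = β then 1 else 0) (dg β) := by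
    intro d hd
    rw [Finsupp.weight_apply, Finsupp.sum_fintype _ _ (fun _ => by simp)]
    have h2 := h d (mem_support_iff.2 hd) β
    rw [← h2, Finset.sum_filter]
    refine Finset.sum_congr rfl fun s _ => ?_
    split_ifs <;> simp
  have h2 := congrArg (aeval z) h1.sum_weight_X_mul_pderiv
  simp only [map_sum, map_nsmul, map_mul, aeval_X] at h2
  rw [nsmul_eq_mul] at h2
  rw [← h2, Finset.sum_filter]
  refine Finset.sum_congr rfl fun s _ => ?_
  split_ifs <;> simp

theorem bl_o0 (β : Bl a b) : bl (o0 β) = β := by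
  cases β <;> rfl

/-- the point `w` with the coordinates of the plane `j` replaced by `Y` -/
def sb {E : Type} (j : Fin b) (w : Sg a b → E) (Y : Fin 3 → E) : Sg a b → E
  | .inl q => w (.inl q)
  | .inr q => if q.1 = j then Y q.2 else w (.inr q)

theorem sb_ne {E : Type} {j : Fin b} {w : Sg a b → E} {Y : Fin 3 → E} {q : Sg a b}
    (h : bl q ≠ .inr j) : sb j w Y q = w q := by
  rcases q with q | q
  · rfl
  · have h1 : q.1 ≠ j := fun h1 => h (by rw [← h1]; rfl)
    change (if q.1 = j then Y q.2 else w (.inr q)) = w (.inr q)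
    rw [if_neg h1]

theorem sb_j {E : Type} {j : Fin b} {w : Sg a b → E} {Y : Fin 3 → E} {c : Fin 3} :
    sb j w Y (.inr (j, c)) = Y c := by
  change (if j = j then Y c else w (.inr (j, c))) = Y c
  rw [if_pos rfl]

theorem aeval_supp {k E : Type} [Field k] [CommRing E] [Algebra k E] {S : Set (Sg a b)}
    {m : MvPolynomial (Sg a b) k} (hm : m ∈ supported k S) {f g : Sg a b → E}
    (h : ∀ s ∈ S, f s = g s) : aeval f m = aeval g m := by
  rw [mem_supported] at hm
  rw [aeval_eq_eval₂Hom, aeval_eq_eval₂Hom]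
  exact eval₂Hom_congr' rfl (fun i hi _ => h i (hm hi)) rfl

theorem fin3 : ∀ c d : Fin 3, d = c ∨ d = c + 1 ∨ d = c + 2 := by decide

theorem fin2 : ∀ c d : Fin 2, d = c ∨ d = c + 1 := by decide

/-- the derivatives as polynomials in the coordinates of the plane `j` -/
noncomputable def Pl {k κ : Type} [Field k] [Field κ] [Algebra k κ] (F : MvPolynomial (Sg a b) k)
    (j : Fin b) (w : Sg a b → κ) (q : Sg a b) : MvPolynomial (Fin 3) κ :=
  aeval (sb j (fun q => (C (w q) : MvPolynomial (Fin 3) κ)) X) (pderiv q F)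

theorem eval_Pl {k κ : Type} [Field k] [Field κ] [Algebra k κ] (F : MvPolynomial (Sg a b) k)
    (j : Fin b) (w : Sg a b → κ) (q : Sg a b) (Y : Fin 3 → κ) :
    eval Y (Pl F j w q) = aeval (sb j w Y) (pderiv q F) := by
  have h1 : ∀ P : MvPolynomial (Fin 3) κ, eval Y P =
      ((aeval Y : MvPolynomial (Fin 3) κ →ₐ[κ] κ).restrictScalars k) P := by
    intro P
    rfl
  unfold Pl
  rw [h1, ← AlgHom.comp_apply, comp_aeval]
  congr 2
  funext s
  rcases s with s | s
  · change ((aeval Y : MvPolynomial (Fin 3) κ →ₐ[κ] κ).restrictScalars k) (C (w (.inl s))) =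
      w (.inl s)
    simp
  · change ((aeval Y : MvPolynomial (Fin 3) κ →ₐ[κ] κ).restrictScalars k)
      (if s.1 = j then X s.2 else C (w (.inr s))) = if s.1 = j then Y s.2 else w (.inr s)
    split_ifs <;> simp

end

theorem bf : StmGS → StmBF := by
  intro hGS a b k κ _ _ _ _ _ F hF hS j M hM hev h0 h1 h2 p s hps hpj hsj w hw1 hw2 hind
  by_contra hcon
  push Not at hcon
  have hz : ∀ (Y : Fin 3 → κ) α, aeval (sb j w Y) (M.co α) = 0 := by
    intro Y α
    rw [← hcon α]
    exact aeval_supp (hM α) fun s hs => sb_ne hs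
  have e0 := fun Y => hz Y 0
  have e1 := fun Y => hz Y 1
  have e2 := fun Y => hz Y 2
  have e3 := fun Y => hz Y 3
  have e4 := fun Y => hz Y 4
  have e5 := fun Y => hz Y 5
  have e6 := fun Y => hz Y 6
  have e7 := fun Y => hz Y 7
  have e8 := fun Y => hz Y 8
  have e9 := fun Y => hz Y 9
  change ∀ Y, aeval (sb j w Y) M.c00 = 0 at e0
  change ∀ Y, aeval (sb j w Y) M.c10 = 0 at e1
  change ∀ Y, aeval (sb j w Y) M.c01 = 0 at e2
  change ∀ Y, aeval (sb j w Y) M.c20 = 0 at e3
  change ∀ Y, aeval (sb j w Y) M.c11 = 0 at e4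
  change ∀ Y, aeval (sb j w Y) M.c02 = 0 at e5
  change ∀ Y, aeval (sb j w Y) M.c30 = 0 at e6
  change ∀ Y, aeval (sb j w Y) M.c21 = 0 at e7
  change ∀ Y, aeval (sb j w Y) M.c12 = 0 at e8
  change ∀ Y, aeval (sb j w Y) M.c03 = 0 at e9
  have hF0 : ∀ Y, aeval (sb j w Y) F = 0 := by
    intro Y
    rw [hev]
    simp only [Cub.ev, map_add, map_mul, e0, e1, e2, e3, e4, e5, e6, e7, e8, e9, zero_mul, add_zero]
  have hD : ∀ Y c, aeval (sb j w Y) (pderiv (.inr (j, c)) F) = 0 := by
    intro Y c
    fin_cases c
    · change aeval (sb j w Y) (pderiv (.inr (j, 0)) F) = 0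
      rw [h0]
      simp only [Cub.d0, map_add, map_mul, e0, e1, e2, e3, e4, e5, zero_mul, mul_zero, add_zero]
    · change aeval (sb j w Y) (pderiv (.inr (j, 1)) F) = 0
      rw [h1]
      simp only [Cub.d1, map_add, map_mul, e1, e3, e4, e6, e7, e8, zero_mul, mul_zero, add_zero]
    · change aeval (sb j w Y) (pderiv (.inr (j, 2)) F) = 0
      rw [h2]
      simp only [Cub.d2, map_add, map_mul, e2, e4, e5, e7, e8, e9, zero_mul, mul_zero, add_zero]
  have hX : ∀ q, aeval (sb j w 0) (pderiv q F) = 0 := by
    intro q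
    have hx : ∀ c, sb j w 0 (.inr (j, c)) = 0 := fun c => sb_j
    rw [hev]
    simp [Cub.ev, Derivation.leibniz, Derivation.leibniz_pow, hx]
  have eul : ∀ (Y : Fin 3 → κ) (q0 : Sg a b), bl q0 ≠ .inr j → w q0 ≠ 0 →
      (∀ q, bl q = bl q0 → q ≠ q0 → aeval (sb j w Y) (pderiv q F) = 0) →
      aeval (sb j w Y) (pderiv q0 F) = 0 := by
    intro Y q0 hq0 hw0 hall
    have h3 := euler hF (sb j w Y) (bl q0)
    rw [hF0, mul_zero, Finset.sum_eq_single_of_mem q0 (by simp) (by
      intro q hq hne
      rw [hall q (Finset.mem_filter.1 hq).2 hne, mul_zero]), sb_ne hq0] at h3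
    exact (mul_eq_zero.1 h3).resolve_left hw0
  have core : ∀ q1 q2 : Sg a b,
      (∀ Y : Fin 3 → κ, aeval (sb j w Y) (pderiv q1 F) = 0 →
        aeval (sb j w Y) (pderiv q2 F) = 0 →
        ∀ q, (bl q = bl p ∨ bl q = bl s) → aeval (sb j w Y) (pderiv q F) = 0) → False := by
    intro q1 q2 hq
    obtain ⟨Y, hY, hYz⟩ := Pool.Agent.H552R3.Tsen.exists_common_zero
      (fun t : Fin 2 => Pl F j w (if t = 0 then q1 else q2)) (fun t => by
        rw [eval_Pl]
        exact hX _) (by simp)
    have y1 := hYz 0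
    have y2 := hYz 1
    rw [eval_Pl] at y1 y2
    simp only [if_true, one_ne_zero, if_false] at y1 y2
    have hall := hq Y y1 y2
    refine hGS a b k κ F hF hS (fun β => β = bl p ∨ β = bl s ∨ β = .inr j) (bl p) (Or.inl rfl)
      (sb j w Y) ?_ ?_ ?_ ?_
    · intro β
      by_cases hβ : β = .inr j
      · obtain ⟨c, hc⟩ := Function.ne_iff.1 hY
        subst hβ
        exact ⟨.inr (j, c), rfl, by rw [sb_j]; exact hc⟩
      · by_cases hβ2 : β = bl p ∨ β = bl s
        · obtain ⟨q, hq1, hq2⟩ := hw1 β hβ2
          exact ⟨q, hq1, by rw [sb_ne (by rw [hq1]; exact hβ)]; exact hq2⟩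
        · push Not at hβ2
          refine ⟨o0 β, bl_o0 β, ?_⟩
          rw [sb_ne (by rw [bl_o0]; exact hβ), hw2 β hβ2.1 hβ2.2 hβ]
          exact one_ne_zero
    · intro β hβ
      push Not at hβ
      rw [sb_ne (by rw [bl_o0]; exact hβ.2.2)]
      exact hw2 β hβ.1 hβ.2.1 hβ.2.2
    · let f : {s' : Sg a b // ¬ (bl s' = bl p ∨ bl s' = bl s ∨ bl s' = .inr j) ∧ s' ≠ o0 (bl s')} →
          {q : Sg a b // (bl q ≠ bl p ∧ bl q ≠ bl s ∧ bl q ≠ .inr j) ∧ q ≠ o0 (bl q)} :=
        fun q => ⟨q.1, ⟨fun h => q.2.1 (Or.inl h), fun h => q.2.1 (Or.inr (Or.inl h)),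
          fun h => q.2.1 (Or.inr (Or.inr h))⟩, q.2.2⟩
      have hf : Function.Injective f := by
        intro x y hxy
        exact Subtype.ext (congrArg (fun z => z.1) hxy)
      have h3 := hind.comp f hf
      have h4 : (fun s' : {s' : Sg a b // ¬ (bl s' = bl p ∨ bl s' = bl s ∨ bl s' = .inr j) ∧
          s' ≠ o0 (bl s')} => sb j w Y s') =
          (fun q : {q : Sg a b // (bl q ≠ bl p ∧ bl q ≠ bl s ∧ bl q ≠ .inr j) ∧
            q ≠ o0 (bl q)} => w q) ∘ f := by
        funext q
        exact sb_ne (f q).2.1.2.2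
      rw [h4]
      exact h3
    · intro q hq
      rcases hq with hq | hq | hq
      · exact hall q (Or.inl hq)
      · exact hall q (Or.inr hq)
      · rcases q with q | ⟨j', c⟩
        · exact absurd hq (by simp [bl])
        · have : j' = j := by
            simpa [bl] using hq
          subst this
          exact hD Y c
  rcases hps with ⟨j', rfl, rfl⟩ | ⟨i, i', hii, rfl, rfl⟩
  · obtain ⟨q, hq1, hq2⟩ := hw1 (.inr j') (Or.inl rfl)
    rcases q with q | ⟨j'', c⟩
    · exact absurd hq1 (by simp [bl])
    · have : j'' = j' := by simpa [bl] using hq1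
      subst this
      refine core (.inr (j'', c + 1)) (.inr (j'', c + 2)) ?_
      intro Y z1 z2
      have z0 : aeval (sb j w Y) (pderiv (.inr (j'', c)) F) = 0 := by
        refine eul Y _ hpj hq2 ?_
        intro q hbq hne
        rcases q with q | ⟨l, d⟩
        · exact absurd hbq (by simp [bl])
        · have : l = j'' := by simpa [bl] using hbq
          subst this
          rcases fin3 c d with rfl | rfl | rfl
          · exact absurd rfl hne
          · exact z1
          · exact z2
      intro q hq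
      have hq : bl q = .inr j'' := by
        rcases hq with hq | hq
        · exact hq
        · exact hq
      rcases q with q | ⟨l, d⟩
      · exact absurd hq (by simp [bl])
      · have : l = j'' := by simpa [bl] using hq
        subst this
        rcases fin3 c d with rfl | rfl | rfl
        · exact z0
        · exact z1
        · exact z2
  · obtain ⟨q, hq1, hq2⟩ := hw1 (.inl i) (Or.inl rfl)
    obtain ⟨q', hq1', hq2'⟩ := hw1 (.inl i') (Or.inr rfl)
    rcases q with ⟨l, c⟩ | q
    swap
    · exact absurd hq1 (by simp [bl])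
    rcases q' with ⟨l', c'⟩ | q'
    swap
    · exact absurd hq1' (by simp [bl])
    have t1 : l = i := by simpa [bl] using hq1
    have t2 : l' = i' := by simpa [bl] using hq1'
    subst t1 t2
    refine core (.inl (l, c + 1)) (.inl (l', c' + 1)) ?_
    intro Y z1 z2
    have z0 : aeval (sb j w Y) (pderiv (.inl (l, c)) F) = 0 := by
      refine eul Y _ hpj hq2 ?_
      intro q hbq hne
      rcases q with ⟨m, d⟩ | q
      · have : m = l := by simpa [bl] using hbq
        subst this
        rcases fin2 c d with rfl | rfl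
        · exact absurd rfl hne
        · exact z1
      · exact absurd hbq (by simp [bl])
    have z0' : aeval (sb j w Y) (pderiv (.inl (l', c')) F) = 0 := by
      refine eul Y _ hsj hq2' ?_
      intro q hbq hne
      rcases q with ⟨m, d⟩ | q
      · have : m = l' := by simpa [bl] using hbq
        subst this
        rcases fin2 c' d with rfl | rfl
        · exact absurd rfl hne
        · exact z2
      · exact absurd hbq (by simp [bl])
    intro q hq
    rcases q with ⟨m, d⟩ | q
    · rcases hq with hq | hq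
      · have : m = l := by simpa [bl] using hq
        subst this
        rcases fin2 c d with rfl | rfl
        · exact z0
        · exact z1
      · have : m = l' := by simpa [bl] using hq
        subst this
        rcases fin2 c' d with rfl | rfl
        · exact z0'
        · exact z2
    · exact absurd hq (by simp [bl])

end Pool.Agent.Y200.CY.Bf
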