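import Pool.Agent.Y200.CY.Stm

/-! Decomposition of a multihomogeneous polynomial relative to a plane or to two lines
(project CY). -/

set_option autoImplicit false

namespace Pool.Agent.Y200.CY.Dec

open MvPolynomial Pool.Agent.Y200.CY

section cub

variable {R : Type*} [CommRing R]

/-- the sum of a family of cubics -/
def csum {ι : Type*} (s : Finset ι) (g : ι → Cub R) : Cub R :=
  ⟨∑ i ∈ s, (g i).c00, ∑ i ∈ s, (g i).c10, ∑ i ∈ s, (g i).c01, ∑ i ∈ s, (g i).c20,
    ∑ i ∈ s, (g i).c11, ∑ i ∈ s, (g i).c02, ∑ i ∈ s, (g i).c30, ∑ i ∈ s, (g i).c21,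
    ∑ i ∈ s, (g i).c12, ∑ i ∈ s, (g i).c03⟩

theorem csum_ev {ι : Type*} (s : Finset ι) (g : ι → Cub R) (p q r : R) :
    (csum s g).ev p q r = ∑ i ∈ s, (g i).ev p q r := by
  simp only [csum, Cub.ev, add_mul, Finset.sum_mul, Finset.sum_add_distrib]

theorem csum_co {ι : Type*} (s : Finset ι) (g : ι → Cub R) (α : Fin 10) :
    (csum s g).co α = ∑ i ∈ s, (g i).co α := by
  fin_cases α <;> rfl

/-- the cubic with one coefficient -/
def cone (e1 e2 : ℕ) (m : R) : Cub R :=
  ⟨if e1 = 0 ∧ e2 = 0 then m else 0, if e1 = 1 ∧ e2 = 0 then m else 0,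
    if e1 = 0 ∧ e2 = 1 then m else 0, if e1 = 2 ∧ e2 = 0 then m else 0,
    if e1 = 1 ∧ e2 = 1 then m else 0, if e1 = 0 ∧ e2 = 2 then m else 0,
    if e1 = 3 ∧ e2 = 0 then m else 0, if e1 = 2 ∧ e2 = 1 then m else 0,
    if e1 = 1 ∧ e2 = 2 then m else 0, if e1 = 0 ∧ e2 = 3 then m else 0⟩

theorem cone_co (e1 e2 : ℕ) (m : R) (α : Fin 10) :
    (cone e1 e2 m).co α = m ∨ (cone e1 e2 m).co α = 0 := by
  have h : ∀ p : Prop, ∀ _ : Decidable p, (if p then m else 0) = m ∨ (if p then m else 0) = 0 := by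
    intro p _
    split_ifs
    · exact Or.inl rfl
    · exact Or.inr rfl
  fin_cases α <;> exact h _ _

theorem cone_ev (e0 e1 e2 : ℕ) (he : e0 + e1 + e2 = 3) (m p q r : R) :
    (cone e1 e2 m).ev p q r = m * (p ^ e0 * q ^ e1 * r ^ e2) := by
  have h0 : e0 = 3 - e1 - e2 := by omega
  have h1 : e1 ≤ 3 := by omega
  have h2 : e2 ≤ 3 := by omega
  subst h0
  interval_cases e1 <;> interval_cases e2 <;>
    first
      | (exfalso; omega)
      | (simp [cone, Cub.ev] <;> ring)

/-- the sum of a family of forms -/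
def bsum {ι : Type*} (s : Finset ι) (g : ι → Bq R) : Bq R :=
  ⟨∑ i ∈ s, (g i).m00, ∑ i ∈ s, (g i).m01, ∑ i ∈ s, (g i).m02, ∑ i ∈ s, (g i).m10,
    ∑ i ∈ s, (g i).m11, ∑ i ∈ s, (g i).m12, ∑ i ∈ s, (g i).m20, ∑ i ∈ s, (g i).m21,
    ∑ i ∈ s, (g i).m22⟩

theorem bsum_ev {ι : Type*} (s : Finset ι) (g : ι → Bq R) (p0 p1 q0 q1 : R) :
    (bsum s g).ev p0 p1 q0 q1 = ∑ i ∈ s, (g i).ev p0 p1 q0 q1 := by
  simp only [bsum, Bq.ev, mul_add, Finset.sum_mul, Finset.mul_sum,
    Finset.sum_add_distrib]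

theorem bsum_co {ι : Type*} (s : Finset ι) (g : ι → Bq R) (α : Fin 9) :
    (bsum s g).co α = ∑ i ∈ s, (g i).co α := by
  fin_cases α <;> rfl

/-- the form with one coefficient -/
def bone (e e' : ℕ) (m : R) : Bq R :=
  ⟨if e = 0 ∧ e' = 0 then m else 0, if e = 0 ∧ e' = 1 then m else 0,
    if e = 0 ∧ e' = 2 then m else 0, if e = 1 ∧ e' = 0 then m else 0,
    if e = 1 ∧ e' = 1 then m else 0, if e = 1 ∧ e' = 2 then m else 0,
    if e = 2 ∧ e' = 0 then m else 0, if e = 2 ∧ e' = 1 then m else 0,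
    if e = 2 ∧ e' = 2 then m else 0⟩

theorem bone_co (e1 e2 : ℕ) (m : R) (α : Fin 9) :
    (bone e1 e2 m).co α = m ∨ (bone e1 e2 m).co α = 0 := by
  have h : ∀ p : Prop, ∀ _ : Decidable p, (if p then m else 0) = m ∨ (if p then m else 0) = 0 := by
    intro p _
    split_ifs
    · exact Or.inl rfl
    · exact Or.inr rfl
  fin_cases α <;> exact h _ _

theorem bone_ev (e0 e1 f0 f1 : ℕ) (he : e0 + e1 = 2) (hf : f0 + f1 = 2) (m p0 p1 q0 q1 : R) :
    (bone e1 f1 m).ev p0 p1 q0 q1 = m * (p0 ^ e0 * p1 ^ e1 * (q0 ^ f0 * q1 ^ f1)) := by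
  have h0 : e0 = 2 - e1 := by omega
  have h1 : e1 ≤ 2 := by omega
  have h2 : f0 = 2 - f1 := by omega
  have h3 : f1 ≤ 2 := by omega
  subst h0
  subst h2
  interval_cases e1 <;> interval_cases f1 <;> simp [bone, Bq.ev] <;> ring

end cub

section

variable {a b : ℕ} {k : Type} [Field k]

theorem filter_supported (Q : Sg a b → Prop) [DecidablePred Q] (d : Sg a b →₀ ℕ) (c : k) :
    monomial (d.filter Q) c ∈ supported k {s : Sg a b | Q s} := by
  rw [mem_supported]
  intro s hs
  by_cases hc : c = 0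
  · rw [hc, monomial_zero, vars_0] at hs
    simp at hs
  · rw [vars_monomial hc] at hs
    have h1 := Finset.mem_coe.1 hs
    rw [Finsupp.support_filter, Finset.mem_filter] at h1
    exact h1.2

theorem dec : StmDEC := by
  intro a b k _ F hF j
  classical
  obtain ⟨a0, ha0⟩ : ∃ s : Sg a b, s = .inr (j, 0) := ⟨_, rfl⟩
  obtain ⟨a1, ha1⟩ : ∃ s : Sg a b, s = .inr (j, 1) := ⟨_, rfl⟩
  obtain ⟨a2, ha2⟩ : ∃ s : Sg a b, s = .inr (j, 2) := ⟨_, rfl⟩
  have h01 : a0 ≠ a1 := by rw [ha0, ha1]; simp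
  have h02 : a0 ≠ a2 := by rw [ha0, ha2]; simp
  have h12 : a1 ≠ a2 := by rw [ha1, ha2]; simp
  have hb0 : bl a0 = .inr j := by rw [ha0]; rfl
  have hb1 : bl a1 = .inr j := by rw [ha1]; rfl
  have hb2 : bl a2 = .inr j := by rw [ha2]; rfl
  have hall : ∀ s : Sg a b, bl s = .inr j → s = a0 ∨ s = a1 ∨ s = a2 := by
    rintro (s | ⟨j', c⟩) hs
    · exact absurd hs (by simp [bl])
    · have h1 : j' = j := by
        have h2 : (Sum.inr j' : Bl a b) = Sum.inr j := hs
        exact Sum.inr.inj h2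
      rw [h1, ha0, ha1, ha2]
      fin_cases c
      · exact Or.inl rfl
      · exact Or.inr (Or.inl rfl)
      · exact Or.inr (Or.inr rfl)
  obtain ⟨g, hg⟩ : ∃ g : (Sg a b →₀ ℕ) → Cub (MvPolynomial (Sg a b) k), ∀ d, g d =
    cone (d a1) (d a2) (monomial (d.filter (fun s => bl s ≠ .inr j)) (coeff d F)) :=
    ⟨_, fun _ => rfl⟩
  set M := csum F.support g with hM
  have hco : ∀ α, M.co α = ∑ d ∈ F.support, (g d).co α := fun α => csum_co _ _ α
  have hsup : ∀ α, M.co α ∈ supported k {s : Sg a b | bl s ≠ .inr j} := by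
    intro α
    rw [hco]
    refine Subalgebra.sum_mem _ fun d _ => ?_
    rcases cone_co (d a1) (d a2)
      (monomial (d.filter (fun s => bl s ≠ .inr j)) (coeff d F)) α with h | h
    · rw [hg, h]
      exact filter_supported _ d _
    · rw [hg, h]
      exact Subalgebra.zero_mem _
  have hF3 : ∀ d ∈ F.support, d a0 + d a1 + d a2 = 3 := by
    intro d hd
    have h1 := hF d hd (.inr j)
    have h2 : (Finset.univ.filter fun s : Sg a b => bl s = .inr j) = {a0, a1, a2} := by
      ext s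
      rw [Finset.mem_filter, Finset.mem_insert, Finset.mem_insert, Finset.mem_singleton]
      constructor
      · exact fun h => hall s h.2
      · rintro (h | h | h)
        · exact ⟨Finset.mem_univ _, by rw [h, hb0]⟩
        · exact ⟨Finset.mem_univ _, by rw [h, hb1]⟩
        · exact ⟨Finset.mem_univ _, by rw [h, hb2]⟩
    rw [h2, Finset.sum_insert (by simp [h01, h02]), Finset.sum_insert (by simp [h12]),
      Finset.sum_singleton] at h1
    rw [add_assoc]
    exact h1
  have hmon : ∀ d ∈ F.support, (g d).ev (X a0) (X a1) (X a2) = monomial d (coeff d F) := by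
    intro d hd
    rw [hg]
    rw [cone_ev (d a0) (d a1) (d a2) (hF3 d hd), X_pow_eq_monomial, X_pow_eq_monomial,
      X_pow_eq_monomial, monomial_mul, monomial_mul, monomial_mul, mul_one, mul_one, mul_one]
    suffices hdd : d.filter (fun s => bl s ≠ .inr j) + (Finsupp.single a0 (d a0) +
        Finsupp.single a1 (d a1) + Finsupp.single a2 (d a2)) = d by rw [hdd]
    ext s
    simp only [Finsupp.add_apply, Finsupp.single_apply, Finsupp.filter_apply]
    by_cases hs : bl s = .inr j
    · rcases hall s hs with h | h | h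
      · rw [h]
        simp [hb0, h01.symm, h02.symm]
      · rw [h]
        simp [hb1, h01, h12.symm]
      · rw [h]
        simp [hb2, h02, h12]
    · have n0 : a0 ≠ s := by rintro rfl; exact hs hb0
      have n1 : a1 ≠ s := by rintro rfl; exact hs hb1
      have n2 : a2 ≠ s := by rintro rfl; exact hs hb2
      simp [hs, n0, n1, n2]
  have hFM : F = M.ev (X a0) (X a1) (X a2) := by
    rw [hM, csum_ev, Finset.sum_congr rfl hmon]
    exact F.as_sum
  have hz : ∀ (s : Sg a b), bl s = .inr j → ∀ α, pderiv s (M.co α) = 0 := by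
    intro s hs α
    apply pderiv_eq_zero_of_notMem_vars
    intro h
    exact (mem_supported.1 (hsup α)) h hs
  rw [← ha0, ← ha1, ← ha2]
  refine ⟨M, hsup, ?_, hFM, ?_, ?_, ?_⟩
  · intro α d hd β hβ
    rw [hco] at hd
    obtain ⟨d', hd', hd2⟩ := Finset.mem_biUnion.1 (support_sum hd)
    rcases cone_co (d' a1) (d' a2)
      (monomial (d'.filter (fun s => bl s ≠ .inr j)) (coeff d' F)) α with h | h
    · rw [hg, h] at hd2
      have h1 := support_monomial_subset hd2
      rw [Finset.mem_singleton] at h1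
      rw [h1, ← hF d' hd' β]
      refine Finset.sum_congr rfl fun s hs => ?_
      rw [Finsupp.filter_apply_pos]
      rw [(Finset.mem_filter.1 hs).2]
      exact hβ
    · rw [hg, h] at hd2
      simp at hd2
  · have hz0 := hz a0 hb0
    have z0 := hz0 0; have z1 := hz0 1; have z2 := hz0 2; have z3 := hz0 3; have z4 := hz0 4
    have z5 := hz0 5; have z6 := hz0 6; have z7 := hz0 7; have z8 := hz0 8; have z9 := hz0 9
    change pderiv a0 M.c00 = 0 at z0
    change pderiv a0 M.c10 = 0 at z1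
    change pderiv a0 M.c01 = 0 at z2
    change pderiv a0 M.c20 = 0 at z3
    change pderiv a0 M.c11 = 0 at z4
    change pderiv a0 M.c02 = 0 at z5
    change pderiv a0 M.c30 = 0 at z6
    change pderiv a0 M.c21 = 0 at z7
    change pderiv a0 M.c12 = 0 at z8
    change pderiv a0 M.c03 = 0 at z9
    conv_lhs => rw [hFM]
    simp only [Cub.ev, Cub.d0, map_add, Derivation.leibniz, Derivation.leibniz_pow, pderiv_X_self,
      pderiv_X_of_ne h01.symm, pderiv_X_of_ne h02.symm, z0, z1, z2, z3, z4, z5, z6, z7, z8, z9,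
      smul_eq_mul, nsmul_eq_mul, mul_zero, add_zero]
    push_cast
    ring
  · have hz0 := hz a1 hb1
    have z0 := hz0 0; have z1 := hz0 1; have z2 := hz0 2; have z3 := hz0 3; have z4 := hz0 4
    have z5 := hz0 5; have z6 := hz0 6; have z7 := hz0 7; have z8 := hz0 8; have z9 := hz0 9
    change pderiv a1 M.c00 = 0 at z0
    change pderiv a1 M.c10 = 0 at z1
    change pderiv a1 M.c01 = 0 at z2
    change pderiv a1 M.c20 = 0 at z3
    change pderiv a1 M.c11 = 0 at z4
    change pderiv a1 M.c02 = 0 at z5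
    change pderiv a1 M.c30 = 0 at z6
    change pderiv a1 M.c21 = 0 at z7
    change pderiv a1 M.c12 = 0 at z8
    change pderiv a1 M.c03 = 0 at z9
    conv_lhs => rw [hFM]
    simp only [Cub.ev, Cub.d1, map_add, Derivation.leibniz, Derivation.leibniz_pow, pderiv_X_self,
      pderiv_X_of_ne h01, pderiv_X_of_ne h12.symm, z0, z1, z2, z3, z4, z5, z6, z7, z8, z9,
      smul_eq_mul, nsmul_eq_mul, mul_zero, add_zero, zero_add]
    push_cast
    ring
  · have hz0 := hz a2 hb2
    have z0 := hz0 0; have z1 := hz0 1; have z2 := hz0 2; have z3 := hz0 3; have z4 := hz0 4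
    have z5 := hz0 5; have z6 := hz0 6; have z7 := hz0 7; have z8 := hz0 8; have z9 := hz0 9
    change pderiv a2 M.c00 = 0 at z0
    change pderiv a2 M.c10 = 0 at z1
    change pderiv a2 M.c01 = 0 at z2
    change pderiv a2 M.c20 = 0 at z3
    change pderiv a2 M.c11 = 0 at z4
    change pderiv a2 M.c02 = 0 at z5
    change pderiv a2 M.c30 = 0 at z6
    change pderiv a2 M.c21 = 0 at z7
    change pderiv a2 M.c12 = 0 at z8
    change pderiv a2 M.c03 = 0 at z9
    conv_lhs => rw [hFM]
    simp only [Cub.ev, Cub.d2, map_add, Derivation.leibniz, Derivation.leibniz_pow, pderiv_X_self,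
      pderiv_X_of_ne h02, pderiv_X_of_ne h12, z0, z1, z2, z3, z4, z5, z6, z7, z8, z9,
      smul_eq_mul, nsmul_eq_mul, mul_zero, add_zero, zero_add]
    push_cast
    ring

theorem dec2 : StmDEC2 := by
  intro a b k _ F hF i i' hii
  classical
  obtain ⟨a0, ha0⟩ : ∃ s : Sg a b, s = .inl (i, 0) := ⟨_, rfl⟩
  obtain ⟨a1, ha1⟩ : ∃ s : Sg a b, s = .inl (i, 1) := ⟨_, rfl⟩
  obtain ⟨b0, hb0⟩ : ∃ s : Sg a b, s = .inl (i', 0) := ⟨_, rfl⟩
  obtain ⟨b1, hb1⟩ : ∃ s : Sg a b, s = .inl (i', 1) := ⟨_, rfl⟩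
  have h01 : a0 ≠ a1 := by rw [ha0, ha1]; simp
  have h00' : a0 ≠ b0 := by rw [ha0, hb0]; simp [hii]
  have h01' : a0 ≠ b1 := by rw [ha0, hb1]; simp
  have h10' : a1 ≠ b0 := by rw [ha1, hb0]; simp
  have h11' : a1 ≠ b1 := by rw [ha1, hb1]; simp [hii]
  have h0'1' : b0 ≠ b1 := by rw [hb0, hb1]; simp
  have c0 : bl a0 = .inl i := by rw [ha0]; rfl
  have c1 : bl a1 = .inl i := by rw [ha1]; rfl
  have d0 : bl b0 = .inl i' := by rw [hb0]; rfl
  have d1 : bl b1 = .inl i' := by rw [hb1]; rfl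
  have hall : ∀ (l : Fin a) (s : Sg a b), bl s = .inl l → s = .inl (l, 0) ∨ s = .inl (l, 1) := by
    rintro l (⟨j', c⟩ | s) hs
    · have h1 : j' = l := by
        have h2 : (Sum.inl j' : Bl a b) = Sum.inl l := hs
        exact Sum.inl.inj h2
      rw [h1]
      fin_cases c
      · exact Or.inl rfl
      · exact Or.inr rfl
    · exact absurd hs (by simp [bl])
  have halla : ∀ s : Sg a b, bl s = .inl i → s = a0 ∨ s = a1 := by
    rw [ha0, ha1]
    exact hall i
  have hallb : ∀ s : Sg a b, bl s = .inl i' → s = b0 ∨ s = b1 := by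
    rw [hb0, hb1]
    exact hall i'
  obtain ⟨g, hg⟩ : ∃ g : (Sg a b →₀ ℕ) → Bq (MvPolynomial (Sg a b) k), ∀ d, g d =
    bone (d a1) (d b1) (monomial (d.filter (fun s => bl s ≠ .inl i ∧ bl s ≠ .inl i'))
      (coeff d F)) := ⟨_, fun _ => rfl⟩
  set M := bsum F.support g with hM
  have hco : ∀ α, M.co α = ∑ d ∈ F.support, (g d).co α := fun α => bsum_co _ _ α
  have hsup : ∀ α, M.co α ∈ supported k {s : Sg a b | bl s ≠ .inl i ∧ bl s ≠ .inl i'} := by
    intro α
    rw [hco]
    refine Subalgebra.sum_mem _ fun d _ => ?_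
    rcases bone_co (d a1) (d b1) (monomial (d.filter (fun s => bl s ≠ .inl i ∧ bl s ≠ .inl i'))
      (coeff d F)) α with h | h
    · rw [hg, h]
      exact filter_supported _ d _
    · rw [hg, h]
      exact Subalgebra.zero_mem _
  have hfa : (Finset.univ.filter fun s : Sg a b => bl s = .inl i) = {a0, a1} := by
    ext s
    rw [Finset.mem_filter, Finset.mem_insert, Finset.mem_singleton]
    constructor
    · exact fun h => halla s h.2
    · rintro (h | h)
      · exact ⟨Finset.mem_univ _, by rw [h, c0]⟩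
      · exact ⟨Finset.mem_univ _, by rw [h, c1]⟩
  have hfb : (Finset.univ.filter fun s : Sg a b => bl s = .inl i') = {b0, b1} := by
    ext s
    rw [Finset.mem_filter, Finset.mem_insert, Finset.mem_singleton]
    constructor
    · exact fun h => hallb s h.2
    · rintro (h | h)
      · exact ⟨Finset.mem_univ _, by rw [h, d0]⟩
      · exact ⟨Finset.mem_univ _, by rw [h, d1]⟩
  have hFa : ∀ d ∈ F.support, d a0 + d a1 = 2 := by
    intro d hd
    have h1 := hF d hd (.inl i)
    rw [hfa, Finset.sum_insert (by simp [h01]), Finset.sum_singleton] at h1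
    exact h1
  have hFb : ∀ d ∈ F.support, d b0 + d b1 = 2 := by
    intro d hd
    have h1 := hF d hd (.inl i')
    rw [hfb, Finset.sum_insert (by simp [h0'1']), Finset.sum_singleton] at h1
    exact h1
  have hne : (Sum.inl i : Bl a b) ≠ Sum.inl i' := fun h => hii (Sum.inl.inj h)
  have hmon : ∀ d ∈ F.support, (g d).ev (X a0) (X a1) (X b0) (X b1) = monomial d (coeff d F) := by
    intro d hd
    rw [hg]
    rw [bone_ev (d a0) (d a1) (d b0) (d b1) (hFa d hd) (hFb d hd), X_pow_eq_monomial,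
      X_pow_eq_monomial, X_pow_eq_monomial, X_pow_eq_monomial, monomial_mul, monomial_mul,
      monomial_mul, monomial_mul, mul_one, mul_one, mul_one]
    suffices hdd : d.filter (fun s => bl s ≠ .inl i ∧ bl s ≠ .inl i') +
        (Finsupp.single a0 (d a0) + Finsupp.single a1 (d a1) +
        (Finsupp.single b0 (d b0) + Finsupp.single b1 (d b1))) = d by rw [hdd]
    ext s
    simp only [Finsupp.add_apply, Finsupp.single_apply, Finsupp.filter_apply]
    by_cases hs : bl s = .inl i
    · rcases halla s hs with h | h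
      · rw [h]
        simp [c0, h01.symm, h00'.symm, h01'.symm]
      · rw [h]
        simp [c1, h01, h10'.symm, h11'.symm]
    · by_cases hs' : bl s = .inl i'
      · rcases hallb s hs' with h | h
        · rw [h]
          simp [d0, h00', h10', h0'1'.symm]
        · rw [h]
          simp [d1, h01', h11', h0'1']
      · have n0 : a0 ≠ s := by rintro rfl; exact hs c0
        have n1 : a1 ≠ s := by rintro rfl; exact hs c1
        have n2 : b0 ≠ s := by rintro rfl; exact hs' d0
        have n3 : b1 ≠ s := by rintro rfl; exact hs' d1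
        simp [hs, hs', n0, n1, n2, n3]
  have hFM : F = M.ev (X a0) (X a1) (X b0) (X b1) := by
    rw [hM, bsum_ev, Finset.sum_congr rfl hmon]
    exact F.as_sum
  have hz : ∀ (s : Sg a b), (bl s = .inl i ∨ bl s = .inl i') → ∀ α, pderiv s (M.co α) = 0 := by
    intro s hs α
    apply pderiv_eq_zero_of_notMem_vars
    intro h
    have h1 := (mem_supported.1 (hsup α)) h
    rcases hs with hs | hs
    · exact h1.1 hs
    · exact h1.2 hs
  rw [← ha0, ← ha1, ← hb0, ← hb1]
  refine ⟨M, hsup, hFM, ?_, ?_, ?_, ?_⟩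
  · have hz0 := hz a0 (Or.inl c0)
    have z0 := hz0 0; have z1 := hz0 1; have z2 := hz0 2; have z3 := hz0 3; have z4 := hz0 4
    have z5 := hz0 5; have z6 := hz0 6; have z7 := hz0 7; have z8 := hz0 8
    change pderiv a0 M.m00 = 0 at z0
    change pderiv a0 M.m01 = 0 at z1
    change pderiv a0 M.m02 = 0 at z2
    change pderiv a0 M.m10 = 0 at z3
    change pderiv a0 M.m11 = 0 at z4
    change pderiv a0 M.m12 = 0 at z5
    change pderiv a0 M.m20 = 0 at z6
    change pderiv a0 M.m21 = 0 at z7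
    change pderiv a0 M.m22 = 0 at z8
    conv_lhs => rw [hFM]
    simp only [Bq.ev, Bq.dp0, map_add, Derivation.leibniz, Derivation.leibniz_pow, pderiv_X_self,
      pderiv_X_of_ne h01.symm, pderiv_X_of_ne h00'.symm, pderiv_X_of_ne h01'.symm,
      z0, z1, z2, z3, z4, z5, z6, z7, z8,
      smul_eq_mul, nsmul_eq_mul, mul_zero, add_zero]
    push_cast
    ring
  · have hz0 := hz a1 (Or.inl c1)
    have z0 := hz0 0; have z1 := hz0 1; have z2 := hz0 2; have z3 := hz0 3; have z4 := hz0 4
    have z5 := hz0 5; have z6 := hz0 6; have z7 := hz0 7; have z8 := hz0 8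
    change pderiv a1 M.m00 = 0 at z0
    change pderiv a1 M.m01 = 0 at z1
    change pderiv a1 M.m02 = 0 at z2
    change pderiv a1 M.m10 = 0 at z3
    change pderiv a1 M.m11 = 0 at z4
    change pderiv a1 M.m12 = 0 at z5
    change pderiv a1 M.m20 = 0 at z6
    change pderiv a1 M.m21 = 0 at z7
    change pderiv a1 M.m22 = 0 at z8
    conv_lhs => rw [hFM]
    simp only [Bq.ev, Bq.dp1, map_add, Derivation.leibniz, Derivation.leibniz_pow, pderiv_X_self,
      pderiv_X_of_ne h01, pderiv_X_of_ne h10'.symm, pderiv_X_of_ne h11'.symm,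
      z0, z1, z2, z3, z4, z5, z6, z7, z8,
      smul_eq_mul, nsmul_eq_mul, mul_zero, add_zero]
    push_cast
    ring
  · have hz0 := hz b0 (Or.inr d0)
    have z0 := hz0 0; have z1 := hz0 1; have z2 := hz0 2; have z3 := hz0 3; have z4 := hz0 4
    have z5 := hz0 5; have z6 := hz0 6; have z7 := hz0 7; have z8 := hz0 8
    change pderiv b0 M.m00 = 0 at z0
    change pderiv b0 M.m01 = 0 at z1
    change pderiv b0 M.m02 = 0 at z2
    change pderiv b0 M.m10 = 0 at z3
    change pderiv b0 M.m11 = 0 at z4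
    change pderiv b0 M.m12 = 0 at z5
    change pderiv b0 M.m20 = 0 at z6
    change pderiv b0 M.m21 = 0 at z7
    change pderiv b0 M.m22 = 0 at z8
    conv_lhs => rw [hFM]
    simp only [Bq.ev, Bq.dq0, map_add, Derivation.leibniz, Derivation.leibniz_pow, pderiv_X_self,
      pderiv_X_of_ne h00', pderiv_X_of_ne h10', pderiv_X_of_ne h0'1'.symm,
      z0, z1, z2, z3, z4, z5, z6, z7, z8,
      smul_eq_mul, nsmul_eq_mul, mul_zero, add_zero]
    push_cast
    ring
  · have hz0 := hz b1 (Or.inr d1)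
    have z0 := hz0 0; have z1 := hz0 1; have z2 := hz0 2; have z3 := hz0 3; have z4 := hz0 4
    have z5 := hz0 5; have z6 := hz0 6; have z7 := hz0 7; have z8 := hz0 8
    change pderiv b1 M.m00 = 0 at z0
    change pderiv b1 M.m01 = 0 at z1
    change pderiv b1 M.m02 = 0 at z2
    change pderiv b1 M.m10 = 0 at z3
    change pderiv b1 M.m11 = 0 at z4
    change pderiv b1 M.m12 = 0 at z5
    change pderiv b1 M.m20 = 0 at z6
    change pderiv b1 M.m21 = 0 at z7
    change pderiv b1 M.m22 = 0 at z8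
    conv_lhs => rw [hFM]
    simp only [Bq.ev, Bq.dq1, map_add, Derivation.leibniz, Derivation.leibniz_pow, pderiv_X_self,
      pderiv_X_of_ne h01', pderiv_X_of_ne h11', pderiv_X_of_ne h0'1',
      z0, z1, z2, z3, z4, z5, z6, z7, z8,
      smul_eq_mul, nsmul_eq_mul, mul_zero, add_zero]
    push_cast
    ring

end

end Pool.Agent.Y200.CY.Dec
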