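import Pool.Agent.Y200.CY.Stm
import Pool.Agent.Y200.V1.Place

/-! A finiteness lemma with valuations (helper337 for project CY of helper200). -/

set_option autoImplicit false

namespace Pool.Agent.Y200.CY.Fin

open MvPolynomial Pool.Agent.Y200.CB

/-- the largest element of a finite family relative to a valuation ring -/
theorem exists_max {E Λ : Type} [Field E] [Field Λ] [Algebra E Λ] (O : Subalgebra E Λ)
    (hV : ∀ x : Λ, x ∈ O ∨ x⁻¹ ∈ O) {ι : Type} (y : ι → Λ) (S : Finset ι) :
    (∃ r ∈ S, y r ≠ 0) → ∃ q ∈ S, y q ≠ 0 ∧ ∀ r ∈ S, y r / y q ∈ O := by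
  classical
  have self : ∀ c : Λ, c ≠ 0 → c / c ∈ O := fun c hc => by
    rw [div_self hc]
    exact O.one_mem
  induction S using Finset.induction_on with
  | empty => rintro ⟨r, hr, -⟩; exact absurd hr (Finset.notMem_empty _)
  | insert i S hi ih =>
    rintro ⟨r, hr, hr0⟩
    by_cases hS : ∃ r ∈ S, y r ≠ 0
    · obtain ⟨q, hq, hq0, hq1⟩ := ih hS
      rcases hV (y i / y q) with h | h
      · refine ⟨q, Finset.mem_insert_of_mem hq, hq0, fun r hr => ?_⟩
        rcases Finset.mem_insert.1 hr with rfl | h1
        · exact h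
        · exact hq1 r h1
      · by_cases hi0 : y i = 0
        · refine ⟨q, Finset.mem_insert_of_mem hq, hq0, fun r hr => ?_⟩
          rcases Finset.mem_insert.1 hr with rfl | h1
          · rw [hi0, zero_div]; exact O.zero_mem
          · exact hq1 r h1
        · refine ⟨i, Finset.mem_insert_self _ _, hi0, fun r hr => ?_⟩
          rcases Finset.mem_insert.1 hr with rfl | h1
          · exact self _ hi0
          · have h2 : y r / y i = y r / y q * (y i / y q)⁻¹ := by field_simp
            rw [h2]
            exact O.mul_mem (hq1 r h1) h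
    · push Not at hS
      have hri : r = i := by
        rcases Finset.mem_insert.1 hr with h | h
        · exact h
        · exact absurd (hS r h) hr0
      subst hri
      refine ⟨r, Finset.mem_insert_self _ _, hr0, fun t ht => ?_⟩
      rcases Finset.mem_insert.1 ht with rfl | h1
      · exact self _ hr0
      · rw [hS t h1, zero_div]; exact O.zero_mem

section

variable {a b : ℕ} {k Λ : Type} [Field k] [Field Λ] [Algebra k Λ]

open Classical in
/-- scaling of the factors -/
theorem scale (P : Bl a b → Prop) (p : MvPolynomial (Sg a b) k)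
    (hp : ∀ d ∈ p.support, ∀ β, P β → ∑ s with bl s = β, d s = dg β) (z : Sg a b → Λ)
    (l : Bl a b → Λ) (hl0 : ∀ β, l β ≠ 0) (hl1 : ∀ β, ¬ P β → l β = 1) :
    aeval (fun s => z s / l (bl s)) p * (∏ β, if P β then l β ^ dg β else 1) = aeval z p := by
  rw [aeval_def, aeval_def, eval₂_eq', eval₂_eq', Finset.sum_mul]
  refine Finset.sum_congr rfl fun d hd => ?_
  have h1 : (∏ s, l (bl s) ^ d s) = ∏ β, if P β then l β ^ dg β else 1 := by
    rw [← Finset.prod_fiberwise (Finset.univ : Finset (Sg a b)) bl]
    refine Finset.prod_congr rfl fun β _ => ?_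
    have h2 : (∏ s with bl s = β, l (bl s) ^ d s) = l β ^ (∑ s with bl s = β, d s) := by
      rw [← Finset.prod_pow_eq_pow_sum]
      refine Finset.prod_congr rfl fun s hs => ?_
      rw [(Finset.mem_filter.1 hs).2]
    rw [h2]
    split_ifs with h
    · rw [hp d hd β h]
    · rw [hl1 β h, one_pow]
  rw [← h1, mul_assoc, ← Finset.prod_mul_distrib]
  congr 1
  refine Finset.prod_congr rfl fun s _ => ?_
  rw [div_pow, div_mul_cancel₀]
  exact pow_ne_zero _ (hl0 _)

end

open Classical in
theorem fin : StmFIN := by
  intro a b k Λ _ _ _ _ D P A m hdeg z hz1 h0 μ hμ hbf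
  have hC : ∀ x : Λ, D x = 0 → x ∈ consts D := fun x hx => hx
  have hquot : ∀ b c : Λ, c ≠ 0 → D (b / c) * c ^ 2 = D b * c - b * D c := by
    intro b c hc
    have h1 : b = b / c * c := by field_simp
    have h2 : D b = D (b / c) * c + b / c * D c := by
      conv_lhs => rw [h1]
      rw [D.leibniz]
      simp only [smul_eq_mul]
      ring
    rw [h2]
    field_simp
    ring
  obtain ⟨α₀, hα₀⟩ := hbf Λ z (fun s hs => rfl) (fun β hβ => ⟨o0 β, by cases β <;> rfl, by
    rw [hz1 β hβ]; exact one_ne_zero⟩)
  have hev : ∀ α, eval₂ ((algebraMap (consts D) Λ).comp (algebraMap k (consts D))) z (m α) =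
      aeval z (m α) := fun α => rfl
  rw [hev] at hα₀
  obtain ⟨m₀, hm₀⟩ : ∃ m₀, m₀ = aeval z (m α₀) := ⟨_, rfl⟩
  rw [← hm₀] at hα₀
  have hDm₀ : D m₀ = μ * m₀ := by rw [hm₀]; exact hμ α₀
  have hr : ∀ α, D (aeval z (m α) / m₀) = 0 := by
    intro α
    have h1 := hquot (aeval z (m α)) m₀ hα₀
    rw [hμ, hDm₀] at h1
    have h2 : D (aeval z (m α) / m₀) * m₀ ^ 2 = 0 := by rw [h1]; ring
    exact (mul_eq_zero.1 h2).resolve_right (pow_ne_zero 2 hα₀)
  let N : (Bl a b → Sg a b) → Λ := fun q => ∏ β, if P β then z (q β) ^ dg β else 1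
  have hblo : ∀ β : Bl a b, bl (o0 β) = β := fun β => by cases β <;> rfl
  by_cases hcase : ∀ q : Bl a b → Sg a b, (∀ β, bl (q β) = β) →
      ¬ Transcendental (consts D) (N q / m₀)
  · have hcase' : ∀ q : Bl a b → Sg a b, (∀ β, bl (q β) = β) → D (N q / m₀) = 0 := fun q hq =>
      der_alg D _ (by
        by_contra h1
        exact hcase q hq h1)
    have hN0 : N o0 = 1 := by
      refine Finset.prod_eq_one fun β _ => ?_
      split_ifs with h
      · rw [hz1 β h, one_pow]
      · rfl
    have hDm : D m₀ = 0 := by
      have h1 := hcase' o0 hblo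
      have h2 := hquot (N o0) m₀ hα₀
      rw [h1, hN0, D.map_one_eq_zero] at h2
      linear_combination h2
    intro s
    by_cases hs : P (bl s)
    · have h1 := hcase' (Function.update o0 (bl s) s) (fun β => by
        by_cases h : β = bl s
        · subst h; rw [Function.update_self]
        · rw [Function.update_of_ne h]; exact hblo β)
      have hN : N (Function.update o0 (bl s) s) = z s ^ dg (bl s) := by
        simp only [N]
        rw [Finset.prod_eq_single (bl s)]
        · rw [if_pos hs, Function.update_self]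
        · intro β _ hβ
          rw [Function.update_of_ne hβ]
          split_ifs with h
          · rw [hz1 β h, one_pow]
          · rfl
        · intro h; exact absurd (Finset.mem_univ _) h
      have h2 := hquot (N (Function.update o0 (bl s) s)) m₀ hα₀
      rw [h1, hN, hDm] at h2
      have h3 : D (z s ^ dg (bl s)) * m₀ = 0 := by linear_combination -h2
      have h4 := (mul_eq_zero.1 h3).resolve_right hα₀
      rw [D.leibniz_pow] at h4
      simp only [smul_eq_mul, nsmul_eq_mul] at h4
      rcases mul_eq_zero.1 h4 with h5 | h5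
      · exfalso
        have : CharZero Λ := charZero_of_injective_algebraMap (algebraMap k Λ).injective
        have h6 : dg (bl s) = 0 := Nat.cast_eq_zero.1 h5
        rcases hbs : bl s with i | i <;> rw [hbs] at h6 <;> simp [dg] at h6
      · rcases mul_eq_zero.1 h5 with h6 | h6
        · rw [pow_eq_zero_iff'.1 h6 |>.1, map_zero]
        · exact h6
    · exact h0 s hs
  · exfalso
    push Not at hcase
    obtain ⟨q, hq, hqt⟩ := hcase
    have hN0 : N q ≠ 0 := by
      intro h
      apply hqt
      rw [h, zero_div]
      exact isAlgebraic_zero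
    have hzq : ∀ β, P β → z (q β) ≠ 0 := by
      intro β hβ h
      apply hN0
      refine Finset.prod_eq_zero (Finset.mem_univ β) ?_
      rw [if_pos hβ, h, zero_pow]
      cases β <;> simp [dg]
    obtain ⟨θ, hθ⟩ : ∃ θ, θ = m₀ / N q := ⟨_, rfl⟩
    have hθt : Transcendental (consts D) θ := by
      intro halg
      apply hqt
      have h1 : N q / m₀ = θ⁻¹ := by rw [hθ, inv_div]
      rw [h1]
      exact halg.inv
    obtain ⟨κ, _, _, O, π, hO, hV, hmem, hroot⟩ := V1.exists_place θ hθt Polynomial.X
      Polynomial.irreducible_X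
    rw [Polynomial.aeval_X] at hroot
    have hq' : ∀ β, ∃ r, P β → (bl r = β ∧ z r ≠ 0 ∧ ∀ s, bl s = β → z s / z r ∈ O) := by
      intro β
      by_cases hβ : P β
      · obtain ⟨r, hr, hr0, hr1⟩ := exists_max O hV z
          (Finset.univ.filter fun s : Sg a b => bl s = β)
          ⟨q β, Finset.mem_filter.2 ⟨Finset.mem_univ _, hq β⟩, hzq β hβ⟩
        exact ⟨r, fun _ => ⟨(Finset.mem_filter.1 hr).2, hr0, fun s hs =>
          hr1 s (Finset.mem_filter.2 ⟨Finset.mem_univ _, hs⟩)⟩⟩
      · exact ⟨o0 β, fun h => absurd h hβ⟩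
    choose q' hq' using hq'
    let l : Bl a b → Λ := fun β => if P β then z (q' β) else 1
    have hlP : ∀ β, P β → l β = z (q' β) := fun β h => if_pos h
    have hlN : ∀ β, ¬ P β → l β = 1 := fun β h => if_neg h
    have hl0 : ∀ β, l β ≠ 0 := by
      intro β
      by_cases hβ : P β
      · rw [hlP β hβ]; exact (hq' β hβ).2.1
      · rw [hlN β hβ]; exact one_ne_zero
    have hwmem : ∀ s, z s / l (bl s) ∈ O := by
      intro s
      by_cases hs : P (bl s)
      · rw [hlP _ hs]; exact (hq' _ hs).2.2 s rfl
      · rw [hlN _ hs, div_one]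
        exact O.algebraMap_mem ⟨z s, h0 s hs⟩
    let wO : Sg a b → O := fun s => ⟨z s / l (bl s), hwmem s⟩
    obtain ⟨α, hα⟩ := hbf κ (fun s => π (wO s)) (fun s hs => by
        have h1 : wO s = algebraMap (consts D) O ⟨z s, h0 s hs⟩ := by
          apply Subtype.ext
          change z s / l (bl s) = z s
          rw [hlN _ hs, div_one]
        rw [h1]
        exact π.commutes _) (fun β hβ => by
        refine ⟨q' β, (hq' β hβ).1, ?_⟩
        have h1 : wO (q' β) = 1 := by
          apply Subtype.ext
          change z (q' β) / l (bl (q' β)) = 1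
          rw [(hq' β hβ).1, hlP β hβ]
          exact div_self (hq' β hβ).2.1
        rw [h1, map_one]
        exact one_ne_zero)
    apply hα
    let fO : k →+* O := (algebraMap (consts D) O).comp (algebraMap k (consts D))
    have hcomp : (algebraMap (consts D) κ).comp (algebraMap k (consts D)) =
        (π : O →+* κ).comp fO := by
      ext c
      exact (π.commutes _).symm
    have h1 : eval₂ ((algebraMap (consts D) κ).comp (algebraMap k (consts D)))
        (fun s => π (wO s)) (m α) = π (eval₂ fO wO (m α)) := by
      rw [hcomp]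
      exact (eval₂_comp_left (π : O →+* κ) fO wO (m α)).symm
    rw [h1]
    have h2 : ((eval₂ fO wO (m α) : O) : Λ) = aeval (fun s => z s / l (bl s)) (m α) :=
      eval₂_comp_left (O.val : O →+* Λ) fO wO (m α)
    have h3 := scale P (m α) (hdeg α) z l hl0 hlN
    have hfac : eval₂ fO wO (m α) = algebraMap (consts D) O ⟨aeval z (m α) / m₀, hr α⟩ *
        ⟨θ, hmem⟩ * ∏ β, (if P β then wO (q β) ^ dg β else 1) := by
      apply Subtype.ext
      rw [h2]
      have h4 : (((∏ β, (if P β then wO (q β) ^ dg β else 1) : O)) : Λ) *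
          (∏ β, if P β then l β ^ dg β else 1) = N q := by
        have h5 : (((∏ β, (if P β then wO (q β) ^ dg β else 1) : O)) : Λ) =
            ∏ β, (if P β then (z (q β) / l β) ^ dg β else 1) := by
          have h6 := map_prod O.val (fun β => if P β then wO (q β) ^ dg β else 1) Finset.univ
          refine Eq.trans h6 (Finset.prod_congr rfl fun β _ => ?_)
          by_cases hβ : P β
          · rw [if_pos hβ, if_pos hβ, map_pow]
            change (z (q β) / l (bl (q β))) ^ dg β = _
            rw [hq β]
          · rw [if_neg hβ, if_neg hβ, map_one]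
        rw [h5, ← Finset.prod_mul_distrib]
        refine Finset.prod_congr rfl fun β _ => ?_
        by_cases hβ : P β
        · simp only [if_pos hβ]
          rw [div_pow, div_mul_cancel₀]
          exact pow_ne_zero _ (hl0 β)
        · simp only [if_neg hβ, mul_one]
      have h7 : (∏ β, if P β then l β ^ dg β else 1) ≠ 0 := by
        refine Finset.prod_ne_zero_iff.2 fun β _ => ?_
        split_ifs
        · exact pow_ne_zero _ (hl0 β)
        · exact one_ne_zero
      apply mul_right_cancel₀ h7
      rw [h3]
      change _ = aeval z (m α) / m₀ * θ *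
        (((∏ β, (if P β then wO (q β) ^ dg β else 1) : O)) : Λ) * _
      rw [mul_assoc, h4, hθ]
      field_simp
    rw [hfac, map_mul, map_mul, hroot]
    ring

end Pool.Agent.Y200.CY.Fin
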