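import Pool.Agent.Y200.CY.Stm
import Pool.Agent.Y200.CB.Conv

/-! Smoothness over extension fields, the relation of Euler, generic smoothness (project CY). -/

set_option autoImplicit false

namespace Pool.Agent.Y200.CY.Gs

open MvPolynomial Pool.Agent.Y200.CY

theorem ns : StmNS := by
  intro a b k _ _ F hF E _ _ z hz
  by_contra hcon
  push Not at hcon
  choose s hs1 hs2 using hz
  obtain ⟨z', hz'⟩ := Pool.Agent.Y200.CB.null (σ := Sg a b ⊕ Bl a b)
    (Set.range (fun s => rename Sum.inl (pderiv s F)) ∪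
      Set.range (fun β : Bl a b => X (Sum.inl (s β)) * X (Sum.inr β) - 1)) E
    (Sum.elim z (fun β => (z (s β))⁻¹)) (by
      rintro p (⟨s0, rfl⟩ | ⟨β, rfl⟩)
      · rw [aeval_rename]
        exact hcon s0
      · simp only [map_sub, map_mul, aeval_X, Sum.elim_inl, Sum.elim_inr, map_one]
        rw [mul_inv_cancel₀ (hs2 β), sub_self])
  obtain ⟨s0, hs0⟩ := hF (fun q => z' (Sum.inl q)) (fun β => ⟨s β, hs1 β, by
    have h1 := hz' _ (Or.inr ⟨β, rfl⟩)
    simp only [map_sub, map_mul, eval_X, map_one] at h1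
    intro h
    change z' (Sum.inl (s β)) = 0 at h
    rw [h, zero_mul, zero_sub] at h1
    exact neg_ne_zero.2 one_ne_zero h1⟩)
  apply hs0
  have h1 := hz' _ (Or.inl ⟨s0, rfl⟩)
  rw [eval_rename] at h1
  have h2 : aeval (fun q => z' (Sum.inl q)) (pderiv s0 F) =
      eval (z' ∘ Sum.inl) (pderiv s0 F) := by
    rw [← coe_aeval_eq_eval]
    rfl
  rw [h2]
  exact h1

theorem wh {a b : ℕ} {k : Type} [Field k] {F : MvPolynomial (Sg a b) k} (hF : MHom F)
    (β : Bl a b) : IsWeightedHomogeneous (fun s : Sg a b => if bl s = β then 1 else 0) F (dg β) := by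
  intro d hd
  rw [← hF d (mem_support_iff.2 hd) β, Finsupp.weight_apply,
    Finsupp.sum_fintype _ _ (fun _ => by simp), Finset.sum_filter]
  refine Finset.sum_congr rfl fun s _ => ?_
  split_ifs <;> simp

theorem euler {a b : ℕ} {k E : Type} [Field k] [Field E] [Algebra k E]
    {F : MvPolynomial (Sg a b) k} (hF : MHom F) (z : Sg a b → E) (β : Bl a b) :
    ∑ s with bl s = β, z s * aeval z (pderiv s F) = (dg β : E) * aeval z F := by
  have h1 := congrArg (aeval z) (wh hF β).sum_weight_X_mul_pderiv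
  rw [map_sum] at h1
  rw [Finset.sum_filter]
  refine Eq.trans (Finset.sum_congr rfl fun s _ => ?_) (h1.trans ?_)
  · split_ifs with h
    · rw [map_nsmul, map_mul, aeval_X, one_smul]
    · rw [map_nsmul, zero_smul]
  · rw [map_nsmul, nsmul_eq_mul]

theorem chain {σ : Type} [Fintype σ] {k E : Type} [Field k] [Field E] [Algebra k E]
    (D : Derivation k E E) (z : σ → E) (G : MvPolynomial σ k) :
    D (aeval z G) = ∑ s, aeval z (pderiv s G) * D (z s) := by
  classical
  induction G using MvPolynomial.induction_on with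
  | C c => simp
  | add p q hp hq => simp only [map_add, hp, hq, add_mul, Finset.sum_add_distrib]
  | mul_X p i hp =>
    rw [map_mul, D.leibniz, hp, aeval_X]
    have h1 : ∀ s, aeval z (pderiv s (p * X i)) * D (z s) =
        (if s = i then aeval z p * D (z i) else 0) + z i * (aeval z (pderiv s p) * D (z s)) := by
      intro s
      rw [Derivation.leibniz, map_add, smul_eq_mul, smul_eq_mul, map_mul, map_mul, aeval_X]
      by_cases h : s = i
      · rw [if_pos h, h, pderiv_X_self, map_one]
        ring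
      · rw [if_neg h, pderiv_X_of_ne (Ne.symm h), map_zero]
        ring
    simp only [h1, Finset.sum_add_distrib, ← Finset.mul_sum, smul_eq_mul]
    rw [Finset.sum_ite_eq' Finset.univ i, if_pos (Finset.mem_univ i)]

theorem bl_o0 {a b : ℕ} (β : Bl a b) : bl (o0 β) = β := by
  rcases β with i | j <;> rfl

theorem dg_ne {a b : ℕ} (β : Bl a b) : dg β ≠ 0 := by
  rcases β with i | j <;> simp [dg]

theorem gs : StmGS := by
  intro a b k E _ _ _ _ F hF hsmo P β₀ hP z hz h1 hind hd
  classical
  have hchar : CharZero E := charZero_of_injective_algebraMap (algebraMap k E).injective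
  have hF0 : aeval z F = 0 := by
    have h2 := euler hF z β₀
    rw [Finset.sum_eq_zero (fun s hs => by
      rw [hd s (by rw [(Finset.mem_filter.1 hs).2]; exact hP), mul_zero])] at h2
    exact (mul_eq_zero.1 h2.symm).resolve_left (Nat.cast_ne_zero.2 (dg_ne β₀))
  have hA : ∀ s, ¬ P (bl s) → s ≠ o0 (bl s) → aeval z (pderiv s F) = 0 := by
    intro s' hs' hs0
    have e := (Fintype.equivFin {s : Sg a b // ¬ P (bl s) ∧ s ≠ o0 (bl s)}).symm
    obtain ⟨D, hD⟩ := Pool.Agent.Y200.CB.exists_der
      (fun i => z (e i : {s : Sg a b // ¬ P (bl s) ∧ s ≠ o0 (bl s)}).1)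
      (hind.comp e e.injective) (fun i => if (e i).1 = s' then 1 else 0)
    have hD' : ∀ s, ¬ P (bl s) → s ≠ o0 (bl s) → D (z s) = if s = s' then 1 else 0 := by
      intro s h2 h3
      have h4 := hD (e.symm ⟨s, h2, h3⟩)
      simpa using h4
    have h2 := chain D z F
    rw [hF0, map_zero, Finset.sum_eq_single s'] at h2
    · rw [hD' s' hs' hs0, if_pos rfl, mul_one] at h2
      exact h2.symm
    · intro s _ hs
      by_cases h3 : P (bl s)
      · rw [hd s h3, zero_mul]
      · by_cases h4 : s = o0 (bl s)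
        · rw [h4, h1 _ h3, D.map_one_eq_zero, mul_zero]
        · rw [hD' s h3 h4, if_neg hs, mul_zero]
    · intro h3; exact absurd (Finset.mem_univ _) h3
  have hB : ∀ β, ¬ P β → aeval z (pderiv (o0 β) F) = 0 := by
    intro β hβ
    have h2 := euler hF z β
    rw [hF0, mul_zero, Finset.sum_eq_single (o0 β)] at h2
    · rw [h1 β hβ, one_mul] at h2
      exact h2
    · intro s hs hs2
      have h3 := (Finset.mem_filter.1 hs).2
      rw [hA s (by rw [h3]; exact hβ) (by rw [h3]; exact hs2), mul_zero]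
    · intro h3
      exact (h3 (Finset.mem_filter.2 ⟨Finset.mem_univ _, bl_o0 β⟩)).elim
  obtain ⟨s, hs⟩ := hsmo z hz
  apply hs
  by_cases h3 : P (bl s)
  · exact hd s h3
  · by_cases h4 : s = o0 (bl s)
    · rw [h4]
      exact hB _ h3
    · exact hA s h3 h4

end Pool.Agent.Y200.CY.Gs
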