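import Pool.Agent.Y200.CY.Stm

/-! The ideal of the generic point over the base of the fibration (project CY). -/

set_option autoImplicit false

namespace Pool.Agent.Y200.CY.Ker

open MvPolynomial Pool.Agent.Y200.CY

theorem ai : StmAI := by
  intro Ω K _ _ _ N f x hx s hs
  classical
  rw [algebraicIndependent_iff]
  intro P hP
  have hf0 : f ≠ 0 := ne_zero_of_degreeOf_ne_zero hs
  have h1 : aeval x (rename (Subtype.val : {l : Fin N // l ≠ s} → Fin N) P) = 0 := by
    rw [aeval_rename]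
    exact hP
  obtain ⟨g, hg⟩ := (hx.zero_iff _).1 h1
  have h2 : degreeOf s (rename (Subtype.val : {l : Fin N // l ≠ s} → Fin N) P) = 0 := by
    rw [← Nat.le_zero, degreeOf_le_iff]
    intro m hm
    by_contra hne
    have h3 : s ∈ (rename (Subtype.val : {l : Fin N // l ≠ s} → Fin N) P).vars := by
      rw [mem_vars_iff_mem_support]
      exact ⟨m, hm, Finsupp.mem_support_iff.2 (by omega)⟩
    have h4 := vars_rename _ P h3
    obtain ⟨l, -, hl⟩ := Finset.mem_image.1 h4
    exact l.2 hl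
  by_cases h0 : rename (Subtype.val : {l : Fin N // l ≠ s} → Fin N) P = 0
  · exact (map_eq_zero_iff _ (rename_injective _ Subtype.val_injective)).1 h0
  · exfalso
    have hg0 : g ≠ 0 := by
      rintro rfl
      rw [mul_zero] at hg
      exact h0 hg
    rw [hg, degreeOf_mul_eq hf0 hg0] at h2
    omega

theorem ker : StmKER := by
  intro Ω K _ _ _ N f x hx p s hps L hL hm P hP
  classical
  set θ : MvPolynomial (Fin N) Ω →ₐ[Ω] MvPolynomial (Fin 2) L :=
    aeval (fun l => if h1 : l = p then X 0 else if h2 : l = s then X 1 else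
      C ⟨x l, hm l h1 h2⟩) with hθ
  have hθp : θ (X p) = X 0 := by rw [hθ, aeval_X, dif_pos rfl]
  have hθs : θ (X s) = X 1 := by rw [hθ, aeval_X, dif_neg (Ne.symm hps), dif_pos rfl]
  have hθl : ∀ l (h1 : l ≠ p) (h2 : l ≠ s), θ (X l) = C ⟨x l, hm l h1 h2⟩ := by
    intro l h1 h2
    rw [hθ, aeval_X, dif_neg h1, dif_neg h2]
  have hθC : ∀ c : Ω, θ (C c) = C (algebraMap Ω L c) := by
    intro c
    rw [hθ, aeval_C]
    rfl
  have hev : ∀ Q : MvPolynomial (Fin N) Ω, aeval ![x p, x s] (θ Q) = aeval x Q := by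
    intro Q
    have h1 : ((aeval ![x p, x s] : MvPolynomial (Fin 2) L →ₐ[L] K).restrictScalars Ω).comp θ =
        (aeval x : MvPolynomial (Fin N) Ω →ₐ[Ω] K) := by
      apply MvPolynomial.algHom_ext
      intro l
      rw [AlgHom.comp_apply, AlgHom.restrictScalars_apply]
      by_cases h1 : l = p
      · rw [h1, hθp, aeval_X, aeval_X]
        rfl
      · by_cases h2 : l = s
        · rw [h2, hθs, aeval_X, aeval_X]
          rfl
        · rw [hθl l h1 h2, aeval_C, aeval_X]
          rfl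
    exact congrArg (fun g : MvPolynomial (Fin N) Ω →ₐ[Ω] K => g Q) h1
  -- the coefficients
  have hcoef : ∀ z : K, ∀ hz : z ∈ IntermediateField.adjoin Ω (x '' {l | l ≠ p ∧ l ≠ s}),
      ∃ (y : L) (A B : MvPolynomial (Fin N) Ω), y ≠ 0 ∧ θ A = C y ∧
        θ B = C (y * ⟨z, hL ▸ hz⟩) := by
    intro z hz
    induction hz using IntermediateField.adjoin_induction with
    | mem z hz =>
      obtain ⟨l, ⟨h1, h2⟩, rfl⟩ := hz
      refine ⟨1, 1, X l, one_ne_zero, by rw [map_one, C_1], ?_⟩
      rw [hθl l h1 h2, one_mul]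
    | algebraMap c =>
      refine ⟨1, 1, C c, one_ne_zero, by rw [map_one, C_1], ?_⟩
      rw [hθC, one_mul]
      rfl
    | add u v hu hv ihu ihv =>
      obtain ⟨y, A, B, hy, hA, hB⟩ := ihu
      obtain ⟨y', A', B', hy', hA', hB'⟩ := ihv
      refine ⟨y * y', A * A', B * A' + A * B', mul_ne_zero hy hy', by rw [map_mul, hA, hA', C_mul],
        ?_⟩
      rw [map_add, map_mul, map_mul, hA, hA', hB, hB', ← C_mul, ← C_mul, ← C_add]
      congr 1
      apply Subtype.ext
      change (y : K) * u * y' + y * (y' * v) = y * y' * (u + v)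
      ring
    | inv u hu ihu =>
      obtain ⟨y, A, B, hy, hA, hB⟩ := ihu
      by_cases hu0 : u = 0
      · refine ⟨1, 1, 0, one_ne_zero, by rw [map_one, C_1], ?_⟩
        rw [map_zero, ← C_0, one_mul]
        congr 1
        apply Subtype.ext
        change (0 : K) = u⁻¹
        rw [hu0, inv_zero]
      · refine ⟨y * ⟨u, hL ▸ hu⟩, B, A, mul_ne_zero hy ?_, hB, ?_⟩
        · intro h
          exact hu0 (congrArg Subtype.val h)
        · rw [hA]
          congr 1
          apply Subtype.ext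
          change (y : K) = y * u * u⁻¹
          rw [mul_assoc, mul_inv_cancel₀ hu0, mul_one]
    | mul u v hu hv ihu ihv =>
      obtain ⟨y, A, B, hy, hA, hB⟩ := ihu
      obtain ⟨y', A', B', hy', hA', hB'⟩ := ihv
      refine ⟨y * y', A * A', B * B', mul_ne_zero hy hy', by rw [map_mul, hA, hA', C_mul], ?_⟩
      rw [map_mul, hB, hB', ← C_mul]
      congr 1
      apply Subtype.ext
      change (y : K) * u * (y' * v) = y * y' * (u * v)
      ring
  -- common denominators
  have hden : ∀ Q : MvPolynomial (Fin 2) L, ∃ (y : L) (A B : MvPolynomial (Fin N) Ω), y ≠ 0 ∧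
      θ A = C y ∧ θ B = C y * Q := by
    intro Q
    induction Q using MvPolynomial.induction_on with
    | C z =>
      obtain ⟨y, A, B, hy, hA, hB⟩ := hcoef z (hL ▸ z.2)
      exact ⟨y, A, B, hy, hA, by rw [hB, C_mul]⟩
    | add Q Q' ih ih' =>
      obtain ⟨y, A, B, hy, hA, hB⟩ := ih
      obtain ⟨y', A', B', hy', hA', hB'⟩ := ih'
      refine ⟨y * y', A * A', B * A' + A * B', mul_ne_zero hy hy', by rw [map_mul, hA, hA', C_mul],
        ?_⟩
      rw [map_add, map_mul, map_mul, hA, hA', hB, hB', C_mul]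
      ring
    | mul_X Q i ih =>
      obtain ⟨y, A, B, hy, hA, hB⟩ := ih
      have hi : ∃ Z, θ Z = X i := by
        fin_cases i
        · exact ⟨X p, hθp⟩
        · exact ⟨X s, hθs⟩
      obtain ⟨Z, hZ⟩ := hi
      exact ⟨y, A, B * Z, hy, hA, by rw [map_mul, hB, hZ, mul_assoc]⟩
  obtain ⟨y, A, B, hy, -, hB⟩ := hden P
  have h1 : aeval x B = 0 := by
    rw [← hev, hB, map_mul, hP, mul_zero]
  obtain ⟨G, hG⟩ := (hx.zero_iff B).1 h1
  have h2 : θ f ∣ C y * P := by
    rw [← hB, hG, map_mul]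
    exact Dvd.intro _ rfl
  have hu : IsUnit (C y : MvPolynomial (Fin 2) L) := (IsUnit.mk0 y hy).map C
  exact hu.dvd_mul_left.1 h2

end Pool.Agent.Y200.CY.Ker
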