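import Pool.Agent.Y200.CY.Stm

/-! Mixed second derivatives at the generic point (helper188, job CY-MH). -/

set_option autoImplicit false

namespace Pool.Agent.Y200.CY.Mh

open MvPolynomial Pool.Agent.Y200.CB Pool.Agent.Y200

section gen

universe u v

variable {k : Type u} {Ω : Type v} [Field k] [Field Ω] [Algebra k Ω]

/-- a cubic polynomial over `cl S` with a root outside is zero -/
theorem cubic_zero {S : Set Ω} {t c0 c1 c2 c3 : Ω} (h0 : c0 ∈ cl k S) (h1 : c1 ∈ cl k S)
    (h2 : c2 ∈ cl k S) (h3 : c3 ∈ cl k S) (ht : t ∉ cl k S)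
    (h : c3 * t ^ 3 + c2 * t ^ 2 + c1 * t + c0 = 0) : c0 = 0 ∧ c1 = 0 ∧ c2 = 0 ∧ c3 = 0 := by
  let p : Polynomial (cl k S) := Polynomial.C ⟨c3, h3⟩ * Polynomial.X ^ 3 +
    Polynomial.C ⟨c2, h2⟩ * Polynomial.X ^ 2 + Polynomial.C ⟨c1, h1⟩ * Polynomial.X +
    Polynomial.C ⟨c0, h0⟩
  have hp : Polynomial.aeval t p = 0 := by
    simp only [p, map_add, map_mul, map_pow, Polynomial.aeval_X, Polynomial.aeval_C]
    exact h
  have hp0 : p = 0 := by
    by_contra hne
    exact ht (mem_cl_of_isAlgebraic ⟨p, hne, hp⟩)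
  have e0 : p.coeff 0 = ⟨c0, h0⟩ := by simp [p, Polynomial.coeff_X, Polynomial.coeff_C]
  have e1 : p.coeff 1 = ⟨c1, h1⟩ := by simp [p, Polynomial.coeff_X, Polynomial.coeff_C]
  have e2 : p.coeff 2 = ⟨c2, h2⟩ := by simp [p, Polynomial.coeff_X, Polynomial.coeff_C]
  have e3 : p.coeff 3 = ⟨c3, h3⟩ := by simp [p, Polynomial.coeff_X, Polynomial.coeff_C]
  rw [hp0, Polynomial.coeff_zero] at e0 e1 e2 e3
  exact ⟨(congrArg Subtype.val e0).symm, (congrArg Subtype.val e1).symm,
    (congrArg Subtype.val e2).symm, (congrArg Subtype.val e3).symm⟩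

theorem alg_mono {E F : IntermediateField k Ω} {T : Set Ω} (hE : E ≤ F) (hT : T ⊆ F) {x : Ω}
    (hx : IsAlgebraic (IntermediateField.adjoin E T) x) : IsAlgebraic F x := by
  have h1 : IntermediateField.adjoin E T ≤ IntermediateField.extendScalars hE := by
    rw [IntermediateField.adjoin_le_iff]
    intro y hy
    exact hT hy
  obtain ⟨p, hp0, hp⟩ := isAlgebraic_of_le h1 hx
  exact ⟨p, hp0, hp⟩

theorem alg_of_insert (S : Set Ω) {u r : Ω} (hr : r ∈ cl k (insert u S)) :
    IsAlgebraic (IntermediateField.adjoin (cl k S)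
      (Set.range (Fin.cons u Fin.elim0 : Fin 1 → Ω))) r := by
  have h6 : ∀ y : cl k S, (y : Ω) ∈ IntermediateField.adjoin (cl k S)
      (Set.range (Fin.cons u Fin.elim0 : Fin 1 → Ω)) := fun y =>
    (IntermediateField.adjoin (cl k S) _).algebraMap_mem y
  have h7 : u ∈ IntermediateField.adjoin (cl k S)
      (Set.range (Fin.cons u Fin.elim0 : Fin 1 → Ω)) :=
    IntermediateField.subset_adjoin _ _ ⟨0, rfl⟩
  have h5 : IntermediateField.adjoin k (insert u S) ≤ (IntermediateField.adjoin (cl k S)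
      (Set.range (Fin.cons u Fin.elim0 : Fin 1 → Ω))).restrictScalars k := by
    rw [IntermediateField.adjoin_le_iff]
    intro x hx
    rcases hx with h | h
    · rw [h]
      exact h7
    · exact h6 ⟨x, subset_cl _ h⟩
  have h8 := isAlgebraic_of_le h5 (mem_cl.1 hr)
  obtain ⟨p, hp0, hp⟩ := h8
  exact ⟨p, hp0, hp⟩

theorem exch (S : Set Ω) {u r : Ω} (hr : r ∈ cl k (insert u S)) (hr' : r ∉ cl k S) :
    u ∈ cl k (insert r S) := by
  by_contra hu
  set E := cl k S with hE
  have hSE : E ≤ cl k (insert r S) := cl_le_cl (fun x hx => subset_cl _ (Or.inr hx))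
  have h0 : AlgebraicIndependent E (Fin.elim0 : Fin 0 → Ω) := by
    rw [algebraicIndependent_empty_type_iff]
    exact (algebraMap E Ω).injective
  have h1 : AlgebraicIndependent E (Fin.cons r Fin.elim0 : Fin 1 → Ω) := by
    refine (V1.indep_cons_iff (k := E) Fin.elim0 r).2 ⟨h0, fun h => hr' ?_⟩
    refine mem_cl_of_isAlgebraic (alg_mono (T := Set.range Fin.elim0) le_rfl ?_ h)
    rintro _ ⟨i, rfl⟩
    exact i.elim0
  have h2 : AlgebraicIndependent E (Fin.cons u (Fin.cons r Fin.elim0) : Fin 2 → Ω) := by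
    refine (V1.indep_cons_iff (k := E) _ u).2 ⟨h1, fun h => hu ?_⟩
    refine mem_cl_of_isAlgebraic (alg_mono hSE ?_ h)
    rintro _ ⟨i, rfl⟩
    fin_cases i
    exact subset_cl _ (Or.inl rfl)
  have h3 : AlgebraicIndependent E (Fin.cons r (Fin.cons u Fin.elim0) : Fin 2 → Ω) := by
    have h := h2.comp (Equiv.swap (0 : Fin 2) 1) (Equiv.injective _)
    have he : (Fin.cons u (Fin.cons r Fin.elim0) : Fin 2 → Ω) ∘ (Equiv.swap (0 : Fin 2) 1) =
        (Fin.cons r (Fin.cons u Fin.elim0) : Fin 2 → Ω) := by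
      funext i
      fin_cases i
      · simp
      · simp
    rwa [he] at h
  have h4 := ((V1.indep_cons_iff (k := E) _ r).1 h3).2
  apply h4
  exact alg_of_insert S hr

end gen

section poly

variable {k A : Type} [Field k] [Field A] [Algebra k A] {σ : Type}

theorem aeval_mem {T : Set σ} {P : MvPolynomial σ k} (hP : P ∈ supported k T)
    (B : Subalgebra k A) {z : σ → A} (hz : ∀ q ∈ T, z q ∈ B) : aeval z P ∈ B := by
  have h : supported k T ≤ B.comap (aeval z) := by
    refine Algebra.adjoin_le ?_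
    rintro _ ⟨q, hq, rfl⟩
    change aeval z (X q) ∈ B
    rw [aeval_X]
    exact hz q hq
  exact h hP

theorem aeval_congr {T : Set σ} {P : MvPolynomial σ k} (hP : P ∈ supported k T)
    {z z' : σ → A} (hz : ∀ q ∈ T, z q = z' q) : aeval z P = aeval z' P := by
  have h : supported k T ≤ AlgHom.equalizer (aeval z) (aeval z') := by
    refine Algebra.adjoin_le ?_
    rintro _ ⟨q, hq, rfl⟩
    change aeval z (X q) = aeval z' (X q)
    rw [aeval_X, aeval_X]
    exact hz q hq
  exact h hP

theorem pderiv_supp {T : Set σ} {P : MvPolynomial σ k} (hP : P ∈ supported k T) (p : σ) :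
    pderiv p P ∈ supported k T := by
  classical
  unfold supported at hP
  induction hP using Algebra.adjoin_induction with
  | mem x hx =>
    obtain ⟨q, hq, rfl⟩ := hx
    by_cases h : q = p
    · subst h
      rw [pderiv_X_self]
      exact one_mem _
    · rw [pderiv_X_of_ne h]
      exact zero_mem _
  | algebraMap r =>
    rw [algebraMap_eq, pderiv_C]
    exact zero_mem _
  | add x y _ _ hx hy =>
    rw [map_add]
    exact add_mem hx hy
  | mul x y hx' hy' hx hy =>
    rw [Derivation.leibniz, smul_eq_mul, smul_eq_mul]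
    exact add_mem (mul_mem hx' hy) (mul_mem hy' hx)

theorem pderiv_zero {T : Set σ} {P : MvPolynomial σ k} (hP : P ∈ supported k T) {p : σ}
    (hp : p ∉ T) : pderiv p P = 0 := by
  classical
  unfold supported at hP
  induction hP using Algebra.adjoin_induction with
  | mem x hx =>
    obtain ⟨q, hq, rfl⟩ := hx
    refine pderiv_X_of_ne ?_
    rintro rfl
    exact hp hq
  | algebraMap r => rw [algebraMap_eq, pderiv_C]
  | add x y _ _ hx hy => rw [map_add, hx, hy, add_zero]
  | mul x y hx' hy' hx hy => rw [Derivation.leibniz, hx, hy, smul_zero, smul_zero, add_zero]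

theorem chain [Fintype σ] (D : Derivation k A A) (z : σ → A) (P : MvPolynomial σ k) :
    D (aeval z P) = ∑ q, aeval z (pderiv q P) * D (z q) := by
  classical
  induction P using MvPolynomial.induction_on with
  | C r => simp
  | add P Q hP hQ =>
    rw [map_add, map_add, hP, hQ, ← Finset.sum_add_distrib]
    refine Finset.sum_congr rfl fun q _ => ?_
    rw [map_add, map_add, add_mul]
  | mul_X P i hP =>
    rw [map_mul, aeval_X, D.leibniz, hP, smul_eq_mul, smul_eq_mul]
    have h1 : ∀ q, aeval z (pderiv q (P * X i)) * D (z q) =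
        z i * (aeval z (pderiv q P) * D (z q)) + (if q = i then aeval z P * D (z i) else 0) := by
      intro q
      rw [Derivation.leibniz, smul_eq_mul, smul_eq_mul, map_add, map_mul, map_mul, aeval_X]
      by_cases h : q = i
      · subst h
        rw [pderiv_X_self, map_one, if_pos rfl]
        ring
      · rw [pderiv_X_of_ne (Ne.symm h), map_zero, if_neg h]
        ring
    rw [Finset.sum_congr rfl fun q _ => h1 q, Finset.sum_add_distrib, ← Finset.mul_sum]
    simp
    ring

end poly

section cub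

variable {R S : Type*} [CommRing R] [CommRing S]

theorem map_ev (f : R →+* S) (M : Cub R) (p q r : R) :
    f (M.ev p q r) = (M.map f).ev (f p) (f q) (f r) := by
  simp [Cub.ev, Cub.map]

theorem map_d0 (f : R →+* S) (M : Cub R) (p q r : R) :
    f (M.d0 p q r) = (M.map f).d0 (f p) (f q) (f r) := by
  have h2 : f 2 = 2 := map_ofNat f 2
  have h3 : f 3 = 3 := map_ofNat f 3
  simp [Cub.d0, Cub.map, h2, h3]

theorem map_d1 (f : R →+* S) (M : Cub R) (p q r : R) :
    f (M.d1 p q r) = (M.map f).d1 (f p) (f q) (f r) := by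
  have h2 : f 2 = 2 := map_ofNat f 2
  have h3 : f 3 = 3 := map_ofNat f 3
  simp [Cub.d1, Cub.map, h2, h3]

theorem map_d2 (f : R →+* S) (M : Cub R) (p q r : R) :
    f (M.d2 p q r) = (M.map f).d2 (f p) (f q) (f r) := by
  have h2 : f 2 = 2 := map_ofNat f 2
  have h3 : f 3 = 3 := map_ofNat f 3
  simp [Cub.d2, Cub.map, h2, h3]

theorem map_congr {A B : Type*} (f g : A → B) (M : Cub A)
    (h : ∀ α, f (M.co α) = g (M.co α)) : M.map f = M.map g := by
  have h0 : f M.c00 = g M.c00 := h 0
  have h1 : f M.c10 = g M.c10 := h 1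
  have h2 : f M.c01 = g M.c01 := h 2
  have h3 : f M.c20 = g M.c20 := h 3
  have h4 : f M.c11 = g M.c11 := h 4
  have h5 : f M.c02 = g M.c02 := h 5
  have h6 : f M.c30 = g M.c30 := h 6
  have h7 : f M.c21 = g M.c21 := h 7
  have h8 : f M.c12 = g M.c12 := h 8
  have h9 : f M.c03 = g M.c03 := h 9
  simp only [Cub.map, h0, h1, h2, h3, h4, h5, h6, h7, h8, h9]

theorem pderiv_ev {k σ : Type*} [Field k] (p : σ) (M : Cub (MvPolynomial σ k))
    {x y w : MvPolynomial σ k} (hx : pderiv p x = 0) (hy : pderiv p y = 0) (hw : pderiv p w = 0) :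
    pderiv p (M.ev x y w) = (M.map (pderiv p)).ev x y w := by
  simp only [Cub.ev, Cub.map, map_add, Derivation.leibniz, Derivation.leibniz_pow, hx, hy, hw,
    smul_eq_mul, smul_zero, mul_zero, zero_mul, add_zero, zero_add]
  ring

end cub

theorem bl_o0 {a b : ℕ} (β : Bl a b) : bl (o0 β) = β := by cases β <;> rfl

/-- the coordinate in the plane -/
def pl {a b : ℕ} : Sg a b → Fin 3
  | .inl _ => 0
  | .inr t => t.2

theorem cell_ne {a b : ℕ} {p s : Sg a b} (h : Cell p s) :
    p ≠ o0 (bl p) ∧ s ≠ o0 (bl s) ∧ p ≠ s := by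
  rcases h with ⟨j, rfl, rfl⟩ | ⟨i, i', hi, rfl, rfl⟩
  · refine ⟨?_, ?_, ?_⟩ <;> simp [o0, bl]
  · refine ⟨?_, ?_, ?_⟩ <;> simp [o0, bl, hi]

theorem plane_cases {a b : ℕ} {j : Fin b} {t : Sg a b} (h : bl t = .inr j) :
    t = .inr (j, 0) ∨ t = .inr (j, 1) ∨ t = .inr (j, 2) := by
  rcases t with t | ⟨j', i⟩
  · simp [bl] at h
  · have : j' = j := by simpa [bl] using h
    subst this
    fin_cases i
    · exact Or.inl rfl
    · exact Or.inr (Or.inl rfl)
    · exact Or.inr (Or.inr rfl)

theorem mh : StmGS → StmDEC → StmBF → StmSM → StmA → StmFIN → StmMH := by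
  classical
  intro hGS hDEC hBF hSM hA hFIN a b k Λ _ _ _ _ _ F hF hsmo j z hz0 hzF hind D hD hDu hDv p s
    hcell hpj hsj hs0 hDρ
  obtain ⟨M, hsupp, hdeg, hFM, hF0, hF1, hF2⟩ := hDEC a b k F hF j
  obtain ⟨hp0, hs00, hps⟩ := cell_ne hcell
  set T : Set (Sg a b) := {s | bl s ≠ .inr j} with hT
  set S : Set Λ := z '' T with hS
  set u := z (.inr (j, 1)) with hu
  set v := z (.inr (j, 2)) with hv
  have hzj0 : z (.inr (j, 0)) = 1 := hz0 (.inr j)
  have hzS : ∀ q ∈ T, z q ∈ cl k S := fun q hq => subset_cl _ ⟨q, hq, rfl⟩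
  have hco : ∀ α, aeval z (M.co α) ∈ cl k S := fun α =>
    aeval_mem (hsupp α) (cl k S).toSubalgebra hzS
  have hDE : ∀ x ∈ cl k S, D x = 0 := fun x hx =>
    der_cl D (by rintro _ ⟨q, hq, rfl⟩; exact hD q hq) hx
  let c : Cub (cl k S) := ⟨⟨aeval z M.c00, hco 0⟩, ⟨aeval z M.c10, hco 1⟩, ⟨aeval z M.c01, hco 2⟩,
    ⟨aeval z M.c20, hco 3⟩, ⟨aeval z M.c11, hco 4⟩, ⟨aeval z M.c02, hco 5⟩, ⟨aeval z M.c30, hco 6⟩,
    ⟨aeval z M.c21, hco 7⟩, ⟨aeval z M.c12, hco 8⟩, ⟨aeval z M.c03, hco 9⟩⟩
  have hcmap : c.map (algebraMap (cl k S) Λ) = M.map (aeval z) := rfl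
  have hchar : CharZero (cl k S) :=
    charZero_of_injective_algebraMap (algebraMap k (cl k S)).injective
  -- smoothness
  have hsm : c.Smo := by
    intro p0 q0 r0 h0 h1 h2
    by_contra hne
    have hne' : ∃ i : Fin 3, ![(p0 : Λ), q0, r0] i ≠ 0 := by
      by_contra h
      push Not at h
      exact hne ⟨Subtype.ext (h 0), Subtype.ext (h 1), Subtype.ext (h 2)⟩
    let z' : Sg a b → Λ := fun t => if bl t = .inr j then ![(p0 : Λ), q0, r0] (pl t) else z t
    have hz'T : ∀ q ∈ T, z' q = z q := fun q hq => if_neg hq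
    have hz'i : ∀ i : Fin 3, z' (.inr (j, i)) = ![(p0 : Λ), q0, r0] i := fun i => if_pos rfl
    have hMM : M.map (aeval z') = M.map (aeval z) :=
      map_congr _ _ M fun α => aeval_congr (hsupp α) hz'T
    refine hGS a b k Λ F hF (hsmo Λ) (fun β => β = .inr j) (.inr j) rfl z' ?_ ?_ ?_ ?_
    · intro β
      by_cases hβ : β = .inr j
      · obtain ⟨i, hi⟩ := hne'
        exact ⟨.inr (j, i), hβ.symm, by rw [hz'i]; exact hi⟩
      · refine ⟨o0 β, bl_o0 β, ?_⟩
        rw [hz'T (o0 β) (by rw [hT, Set.mem_ofPred_eq, bl_o0]; exact hβ), hz0]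
        exact one_ne_zero
    · intro β hβ
      rw [hz'T (o0 β) (by rw [hT, Set.mem_ofPred_eq, bl_o0]; exact hβ), hz0]
    · have e : (fun s : {s : Sg a b // ¬ (fun β => β = Sum.inr j) (bl s) ∧ s ≠ o0 (bl s)} =>
          z' s.1) = fun s => z s.1 := funext fun s => hz'T s.1 s.2.1
      rw [e]
      exact hind
    · intro t ht
      have g0 := hz'i 0
      have g1 := hz'i 1
      have g2 := hz'i 2
      rcases plane_cases ht with rfl | rfl | rfl
      · rw [hF0]
        have h3 := map_d0 (aeval z' : MvPolynomial (Sg a b) k →ₐ[k] Λ).toRingHom M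
          (X (.inr (j, 0))) (X (.inr (j, 1))) (X (.inr (j, 2)))
        have h4 := congrArg (algebraMap (cl k S) Λ) h0
        rw [map_d0, map_zero, hcmap, ← hMM] at h4
        refine h3.trans (Eq.trans ?_ h4)
        change (M.map (aeval z')).d0 (aeval z' (X _)) (aeval z' (X _)) (aeval z' (X _)) = _
        rw [aeval_X, aeval_X, aeval_X, g0, g1, g2]
        rfl
      · rw [hF1]
        have h3 := map_d1 (aeval z' : MvPolynomial (Sg a b) k →ₐ[k] Λ).toRingHom M
          (X (.inr (j, 0))) (X (.inr (j, 1))) (X (.inr (j, 2)))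
        have h4 := congrArg (algebraMap (cl k S) Λ) h1
        rw [map_d1, map_zero, hcmap, ← hMM] at h4
        refine h3.trans (Eq.trans ?_ h4)
        change (M.map (aeval z')).d1 (aeval z' (X _)) (aeval z' (X _)) (aeval z' (X _)) = _
        rw [aeval_X, aeval_X, aeval_X, g0, g1, g2]
        rfl
      · rw [hF2]
        have h3 := map_d2 (aeval z' : MvPolynomial (Sg a b) k →ₐ[k] Λ).toRingHom M
          (X (.inr (j, 0))) (X (.inr (j, 1))) (X (.inr (j, 2)))
        have h4 := congrArg (algebraMap (cl k S) Λ) h2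
        rw [map_d2, map_zero, hcmap, ← hMM] at h4
        refine h3.trans (Eq.trans ?_ h4)
        change (M.map (aeval z')).d2 (aeval z' (X _)) (aeval z' (X _)) (aeval z' (X _)) = _
        rw [aeval_X, aeval_X, aeval_X, g0, g1, g2]
        rfl
  obtain ⟨hirr, hdeg3⟩ := hSM (cl k S) c hsm
  -- the generic point
  have hev : ∀ P : Cub (MvPolynomial (Sg a b) k),
      aeval z (P.ev (X (.inr (j, 0))) (X (.inr (j, 1))) (X (.inr (j, 2)))) =
        (P.map (aeval z)).ev 1 u v := by
    intro P
    have h3 := map_ev (aeval z : MvPolynomial (Sg a b) k →ₐ[k] Λ).toRingHom P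
      (X (.inr (j, 0))) (X (.inr (j, 1))) (X (.inr (j, 2)))
    refine h3.trans ?_
    change (P.map (aeval z)).ev (aeval z (X _)) (aeval z (X _)) (aeval z (X _)) = _
    rw [aeval_X, aeval_X, aeval_X, hzj0]
  have heq : (c.map (algebraMap (cl k S) Λ)).ev 1 u v = 0 := by
    rw [hcmap, ← hev, ← hFM]
    exact hzF
  have huE : u ∉ cl k S := fun h => hDu (hDE u h)
  have hle : cl k S ≤ cl k (insert u S) := cl_le_cl fun x hx => subset_cl _ (Or.inr hx)
  have huS : u ∈ cl k (insert u S) := subset_cl _ (Or.inl rfl)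
  have heq2 := heq
  rw [hcmap] at heq2
  simp only [Cub.ev, Cub.map] at heq2
  have hvS : v ∈ cl k (insert u S) := by
    by_contra hv'
    have k0 := hle (hco 0)
    have k1 := hle (hco 1)
    have k2 := hle (hco 2)
    have k3 := hle (hco 3)
    have k4 := hle (hco 4)
    have k5 := hle (hco 5)
    have k6 := hle (hco 6)
    have k7 := hle (hco 7)
    have k8 := hle (hco 8)
    have k9 := hle (hco 9)
    obtain ⟨e0, e1, e2, e3⟩ := cubic_zero (k := k) (S := insert u S) (t := v)
      (c0 := aeval z M.c00 + aeval z M.c10 * u + aeval z M.c20 * u ^ 2 + aeval z M.c30 * u ^ 3)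
      (c1 := aeval z M.c01 + aeval z M.c11 * u + aeval z M.c21 * u ^ 2)
      (c2 := aeval z M.c02 + aeval z M.c12 * u) (c3 := aeval z M.c03)
      (add_mem (add_mem (add_mem k0 (mul_mem k1 huS)) (mul_mem k3 (pow_mem huS 2)))
        (mul_mem k6 (pow_mem huS 3)))
      (add_mem (add_mem k2 (mul_mem k4 huS)) (mul_mem k7 (pow_mem huS 2)))
      (add_mem k5 (mul_mem k8 huS)) k9 hv' (by linear_combination heq2)
    obtain ⟨-, e4, -, -⟩ := cubic_zero (k := k) (S := S) (t := u) (c0 := aeval z M.c02)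
      (c1 := aeval z M.c12) (c2 := 0) (c3 := 0) (hco 5) (hco 8) (zero_mem _) (zero_mem _) huE
      (by linear_combination e2)
    obtain ⟨-, -, e5, -⟩ := cubic_zero (k := k) (S := S) (t := u) (c0 := aeval z M.c01)
      (c1 := aeval z M.c11) (c2 := aeval z M.c21) (c3 := 0) (hco 2) (hco 4) (hco 7) (zero_mem _)
      huE (by linear_combination e1)
    obtain ⟨-, -, -, e6⟩ := cubic_zero (k := k) (S := S) (t := u) (c0 := aeval z M.c00)
      (c1 := aeval z M.c10) (c2 := aeval z M.c20) (c3 := aeval z M.c30) (hco 0) (hco 1) (hco 3)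
      (hco 6) huE (by linear_combination e0)
    exact hdeg3 ⟨Subtype.ext e6, Subtype.ext e5, Subtype.ext e4, Subtype.ext e3⟩
  have hzall : ∀ q, z q ∈ cl k (insert u S) := by
    intro q
    by_cases hq : bl q = .inr j
    · rcases plane_cases hq with rfl | rfl | rfl
      · rw [hzj0]
        exact one_mem _
      · exact huS
      · exact hvS
    · exact hle (hzS q hq)
  have hall : ∀ P : MvPolynomial (Sg a b) k, aeval z P ∈ cl k (insert u S) := fun P =>
    aeval_mem (T := Set.univ) (by rw [supported_univ]; trivial) (cl k (insert u S)).toSubalgebra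
      fun q _ => hzall q
  set ρ := aeval z (pderiv p F) / aeval z (pderiv s F) with hρ
  have hρE : ρ ∈ cl k S := by
    by_contra hρ'
    have h1 : u ∈ cl k (insert ρ S) := exch S (div_mem (hall _) (hall _)) hρ'
    refine hDu (der_cl D ?_ h1)
    rintro x (h | ⟨q, hq, rfl⟩)
    · rw [h]
      exact hDρ
    · exact hD q hq
  -- the second cubic
  have hR : ∀ α, aeval z (pderiv p (M.co α)) - ρ * aeval z (pderiv s (M.co α)) ∈ cl k S := fun α =>
    sub_mem (aeval_mem (pderiv_supp (hsupp α) p) (cl k S).toSubalgebra hzS)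
      (mul_mem hρE (aeval_mem (pderiv_supp (hsupp α) s) (cl k S).toSubalgebra hzS))
  let R : Cub (cl k S) :=
    ⟨⟨_, hR 0⟩, ⟨_, hR 1⟩, ⟨_, hR 2⟩, ⟨_, hR 3⟩, ⟨_, hR 4⟩, ⟨_, hR 5⟩, ⟨_, hR 6⟩, ⟨_, hR 7⟩,
      ⟨_, hR 8⟩, ⟨_, hR 9⟩⟩
  have hXne : ∀ (q : Sg a b), bl q ≠ .inr j → ∀ i, pderiv q (X (.inr (j, i)) :
      MvPolynomial (Sg a b) k) = 0 := by
    intro q hq i
    refine pderiv_X_of_ne ?_
    rintro rfl
    exact hq rfl
  have hpev : ∀ q : Sg a b, bl q ≠ .inr j → aeval z (pderiv q F) =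
      (M.map fun P => aeval z (pderiv q P)).ev 1 u v := by
    intro q hq
    rw [hFM, pderiv_ev q M (hXne q hq 0) (hXne q hq 1) (hXne q hq 2), hev]
    rfl
  have hRev : (R.map (algebraMap (cl k S) Λ)).ev 1 u v = 0 := by
    have e1 := hpev p hpj
    have e2 := hpev s hsj
    have e3 : ρ * aeval z (pderiv s F) = aeval z (pderiv p F) := div_mul_cancel₀ _ hs0
    have e4 : (R.map (algebraMap (cl k S) Λ)).ev 1 u v =
        (M.map fun P => aeval z (pderiv p P)).ev 1 u v -
          ρ * (M.map fun P => aeval z (pderiv s P)).ev 1 u v := by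
      have e5 : R.map (algebraMap (cl k S) Λ) =
          M.map fun P => aeval z (pderiv p P) - ρ * aeval z (pderiv s P) := rfl
      rw [e5]
      simp only [Cub.map, Cub.ev]
      ring
    rw [e4, ← e1, ← e2, e3, sub_self]
  obtain ⟨l, hl⟩ := hA (cl k S) Λ c hirr hdeg3 u v heq
    (fun u₀ v₀ h1 _ => huE (by rw [h1]; exact u₀.2)) R hRev
  -- the derivation
  let I := {s : Sg a b // bl s ≠ .inr j ∧ s ≠ o0 (bl s)}
  let e : Fin (Fintype.card I) ≃ I := (Fintype.equivFin I).symm
  obtain ⟨D', hD'⟩ := exists_der (L := k) (K := Λ) (fun i => z (e i))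
    (hind.comp e e.injective)
    (fun i => if (e i : Sg a b) = p then 1 else if (e i : Sg a b) = s then -ρ else 0)
  have hD'2 : ∀ q, bl q ≠ .inr j → D' (z q) = if q = p then 1 else if q = s then -ρ else 0 := by
    intro q hq
    by_cases hq' : q = o0 (bl q)
    · have h1 : q ≠ p := by
        rintro rfl
        exact hp0 hq'
      have h2 : q ≠ s := by
        rintro rfl
        exact hs00 hq'
      rw [if_neg h1, if_neg h2, hq', hz0]
      exact D'.map_one_eq_zero
    · have h1 := hD' (e.symm ⟨q, hq, hq'⟩)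
      simpa using h1
  have hD'co : ∀ α, D' (aeval z (M.co α)) =
      aeval z (pderiv p (M.co α)) - ρ * aeval z (pderiv s (M.co α)) := by
    intro α
    rw [chain]
    have h1 : ∀ q, aeval z (pderiv q (M.co α)) * D' (z q) =
        (if q = p then aeval z (pderiv p (M.co α)) else 0) +
          (if q = s then -ρ * aeval z (pderiv s (M.co α)) else 0) := by
      intro q
      by_cases hq : bl q = .inr j
      · have g1 : q ≠ p := by
          rintro rfl
          exact hpj hq
        have g2 : q ≠ s := by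
          rintro rfl
          exact hsj hq
        rw [pderiv_zero (hsupp α) (p := q) (fun h => h hq), map_zero, zero_mul, if_neg g1,
          if_neg g2, add_zero]
      · rw [hD'2 q hq]
        by_cases g1 : q = p
        · subst g1
          rw [if_pos rfl, if_pos rfl, if_neg hps]
          ring
        · by_cases g2 : q = s
          · subst g2
            rw [if_neg g1, if_pos rfl, if_neg g1, if_pos rfl]
            ring
          · rw [if_neg g1, if_neg g2, if_neg g1, if_neg g2]
            ring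
    rw [Finset.sum_congr rfl fun q _ => h1 q, Finset.sum_add_distrib]
    simp
    ring
  have hl' : ∀ α, D' (aeval z (M.co α)) = (l : Λ) * aeval z (M.co α) := by
    intro α
    rw [hD'co]
    have h1 := congrArg (fun x : cl k S => (x : Λ)) (hl α)
    have h2 : ((R.co α : cl k S) : Λ) =
        aeval z (pderiv p (M.co α)) - ρ * aeval z (pderiv s (M.co α)) := by
      fin_cases α <;> rfl
    have h3 : ((c.co α : cl k S) : Λ) = aeval z (M.co α) := by
      fin_cases α <;> rfl
    rw [← h2, ← h3]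
    exact h1
  -- the plane is replaced by a constant point
  let z' : Sg a b → Λ := fun q => if bl q = .inr j then 1 else z q
  have hz'T : ∀ q ∈ T, z' q = z q := fun q hq => if_neg hq
  have hz'co : ∀ α, aeval z' (M.co α) = aeval z (M.co α) := fun α => aeval_congr (hsupp α) hz'T
  have hz'0 : ∀ β, z' (o0 β) = 1 := by
    intro β
    by_cases hβ : bl (o0 β) = .inr j
    · exact if_pos hβ
    · rw [hz'T _ hβ, hz0]
  have hcst : ∀ q, ¬ (bl q = bl p ∨ bl q = bl s) → D' (z' q) = 0 := by
    intro q hq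
    by_cases hqj : bl q = .inr j
    · have : z' q = 1 := if_pos hqj
      rw [this]
      exact D'.map_one_eq_zero
    · rw [hz'T q hqj, hD'2 q hqj, if_neg, if_neg]
      · rintro rfl
        exact hq (Or.inr rfl)
      · rintro rfl
        exact hq (Or.inl rfl)
  have hfin := hFIN a b k Λ D' (fun β => β = bl p ∨ β = bl s) (Fin 10) M.co
    (by
      intro α d hd β hβ
      refine hdeg α d hd β ?_
      rcases hβ with rfl | rfl
      · exact hpj
      · exact hsj) z' (fun β _ => hz'0 β) hcst l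
    (fun α => by rw [hz'co]; exact hl' α) ?_ p
  · rw [hz'T p hpj, hD'2 p hpj, if_pos rfl] at hfin
    exact one_ne_zero hfin
  · intro κ _ _ w hw hwnz
    set φ : k →+* κ := (algebraMap (consts D') κ).comp (algebraMap k (consts D')) with hφ
    let _ : Algebra k κ := φ.toAlgebra
    let κ' := AlgebraicClosure κ
    let ι : consts D' →ₐ[k] κ' :=
      { toRingHom := (algebraMap κ κ').comp (algebraMap (consts D') κ)
        commutes' := fun r => by
          rw [IsScalarTower.algebraMap_apply k κ κ']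
          rfl }
    let w' : Sg a b → κ' := fun q => algebraMap κ κ' (w q)
    obtain ⟨α, hα⟩ := hBF a b k κ' F hF (hsmo κ') j M hsupp hFM hF0 hF1 hF2 p s hcell hpj hsj w'
      (by
        intro β hβ
        obtain ⟨q, hq, hq'⟩ := hwnz β hβ
        exact ⟨q, hq, fun h => hq' ((map_eq_zero _).1 h)⟩)
      (by
        intro β h1 h2 h3
        have h4 : ¬ (bl (o0 β) = bl p ∨ bl (o0 β) = bl s) := by
          rw [bl_o0]
          push Not
          exact ⟨h1, h2⟩
        have h5 := hw (o0 β) h4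
        have h6 : (⟨z' (o0 β), hcst (o0 β) h4⟩ : consts D') = 1 := Subtype.ext (hz'0 β)
        change algebraMap κ κ' (w (o0 β)) = 1
        rw [h5, h6, map_one, map_one])
      (by
        have h1 : AlgebraicIndependent k (fun q : {q : Sg a b //
            (bl q ≠ bl p ∧ bl q ≠ bl s ∧ bl q ≠ .inr j) ∧ q ≠ o0 (bl q)} => z q) := by
          exact hind.comp (fun q : {q : Sg a b //
            (bl q ≠ bl p ∧ bl q ≠ bl s ∧ bl q ≠ .inr j) ∧ q ≠ o0 (bl q)} =>
            (⟨q, q.2.1.2.2, q.2.2⟩ : {s : Sg a b // bl s ≠ .inr j ∧ s ≠ o0 (bl s)}))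
            (fun x y h => Subtype.ext (congrArg (fun t : {s : Sg a b // bl s ≠ .inr j ∧
              s ≠ o0 (bl s)} => (t : Sg a b)) h))
        let y : {q : Sg a b // (bl q ≠ bl p ∧ bl q ≠ bl s ∧ bl q ≠ .inr j) ∧ q ≠ o0 (bl q)} →
            consts D' := fun q => ⟨z' q, hcst q (by
              push Not
              exact ⟨q.2.1.1, q.2.1.2.1⟩)⟩
        have h2 : AlgebraicIndependent k y := by
          refine AlgebraicIndependent.of_comp (consts D').val ?_
          have h3 : (consts D').val ∘ y = fun q => z q.1 := by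
            funext q
            exact hz'T q q.2.1.2.2
          rw [h3]
          exact h1
        have h3 := h2.map' (f := ι) ι.toRingHom.injective
        have h4 : (fun q : {q : Sg a b // (bl q ≠ bl p ∧ bl q ≠ bl s ∧ bl q ≠ .inr j) ∧
            q ≠ o0 (bl q)} => w' q) = ι ∘ y := by
          funext q
          change algebraMap κ κ' (w q) = algebraMap κ κ' (algebraMap (consts D') κ (y q))
          rw [hw q (by
            push Not
            exact ⟨q.2.1.1, q.2.1.2.1⟩)]
        rw [h4]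
        exact h3)
    refine ⟨α, fun h => hα ?_⟩
    have h1 : aeval w' (M.co α) = algebraMap κ κ' (aeval w (M.co α)) := by
      exact aeval_algebraMap_apply (B := κ') w (M.co α)
    rw [h1]
    have h2 : aeval w (M.co α) = eval₂ φ w (M.co α) := rfl
    rw [h2, h, map_zero]

end Pool.Agent.Y200.CY.Mh
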