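import Pool.Agent.Y200.CY.Stm
import Pool.Agent.H552R3.Tsen.Zero

/-! A smooth plane cubic over an algebraically closed field is irreducible of degree three. -/

set_option autoImplicit false

namespace Pool.Agent.Y200.CY.Sm

open MvPolynomial Pool.Agent.Y200.CY

section

variable {E : Type} [Field E]

/-- monomials in two variables -/
noncomputable def mm (i j : ℕ) (a : E) : MvPolynomial (Fin 2) E :=
  monomial (Finsupp.single 0 i + Finsupp.single 1 j) a

lemma coeff_mm (m : Fin 2 →₀ ℕ) (i j : ℕ) (a : E) :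
    coeff m (mm i j a) = if m 0 = i ∧ m 1 = j then a else 0 := by
  unfold mm
  rw [coeff_monomial]
  congr 1
  rw [Finsupp.ext_iff, Fin.forall_fin_two]
  simp [eq_comm]

lemma mm_eq (i j : ℕ) (a : E) : mm i j a = C a * X 0 ^ i * X 1 ^ j := by
  unfold mm
  rw [monomial_eq, Finsupp.prod_add_index' (by simp) (by intros; rw [pow_add])]
  simp [mul_assoc]

lemma deg2 (m : Fin 2 →₀ ℕ) : m.degree = m 0 + m 1 := by
  rw [Finsupp.degree_eq_sum]
  simp

lemma rep1 (f : MvPolynomial (Fin 2) E) (hf : f.totalDegree ≤ 1) : ∃ a00 a10 a01 : E,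
    f = C a00 + C a10 * X 0 + C a01 * X 1 := by
  refine ⟨coeff (Finsupp.single 0 0 + Finsupp.single 1 0) f,
    coeff (Finsupp.single 0 1 + Finsupp.single 1 0) f,
    coeff (Finsupp.single 0 0 + Finsupp.single 1 1) f, ?_⟩
  have e : ∀ a b c : E, (C a + C b * X 0 + C c * X 1 : MvPolynomial (Fin 2) E) =
      mm 0 0 a + mm 1 0 b + mm 0 1 c := by
    intro a b c
    simp [mm_eq]
  rw [e]
  ext m
  simp only [coeff_add, coeff_mm]
  by_cases h : m.degree ≤ 1
  · rw [deg2] at h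
    have hm : m = Finsupp.single 0 (m 0) + Finsupp.single 1 (m 1) := by
      rw [Finsupp.ext_iff, Fin.forall_fin_two]; simp
    have h3 : (m 0 = 0 ∧ m 1 = 0) ∨ (m 0 = 1 ∧ m 1 = 0) ∨ (m 0 = 0 ∧ m 1 = 1) := by omega
    rcases h3 with ⟨h1, h2⟩ | ⟨h1, h2⟩ | ⟨h1, h2⟩ <;>
    · rw [h1, h2] at hm
      rw [hm]
      simp
  · rw [coeff_eq_zero_of_totalDegree_lt (by
      have : ∑ i ∈ m.support, m i = m.degree := rfl
      rw [this]; omega)]
    rw [deg2] at h
    rw [if_neg (by omega), if_neg (by omega), if_neg (by omega)]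
    simp

lemma rep2 (f : MvPolynomial (Fin 2) E) (hf : f.totalDegree ≤ 2) :
    ∃ a00 a10 a01 a20 a11 a02 : E,
    f = C a00 + C a10 * X 0 + C a01 * X 1 + C a20 * X 0 ^ 2 + C a11 * X 0 * X 1
      + C a02 * X 1 ^ 2 := by
  refine ⟨coeff (Finsupp.single 0 0 + Finsupp.single 1 0) f,
    coeff (Finsupp.single 0 1 + Finsupp.single 1 0) f,
    coeff (Finsupp.single 0 0 + Finsupp.single 1 1) f,
    coeff (Finsupp.single 0 2 + Finsupp.single 1 0) f,
    coeff (Finsupp.single 0 1 + Finsupp.single 1 1) f,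
    coeff (Finsupp.single 0 0 + Finsupp.single 1 2) f, ?_⟩
  have e : ∀ a b c d e g : E, (C a + C b * X 0 + C c * X 1 + C d * X 0 ^ 2 + C e * X 0 * X 1
      + C g * X 1 ^ 2 : MvPolynomial (Fin 2) E) =
      mm 0 0 a + mm 1 0 b + mm 0 1 c + mm 2 0 d + mm 1 1 e + mm 0 2 g := by
    intro a b c d e g
    simp [mm_eq]
  rw [e]
  ext m
  simp only [coeff_add, coeff_mm]
  by_cases h : m.degree ≤ 2
  · rw [deg2] at h
    have hm : m = Finsupp.single 0 (m 0) + Finsupp.single 1 (m 1) := by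
      rw [Finsupp.ext_iff, Fin.forall_fin_two]; simp
    have h3 : (m 0 = 0 ∧ m 1 = 0) ∨ (m 0 = 1 ∧ m 1 = 0) ∨ (m 0 = 0 ∧ m 1 = 1) ∨
      (m 0 = 2 ∧ m 1 = 0) ∨ (m 0 = 1 ∧ m 1 = 1) ∨ (m 0 = 0 ∧ m 1 = 2) := by omega
    rcases h3 with ⟨h1, h2⟩ | ⟨h1, h2⟩ | ⟨h1, h2⟩ | ⟨h1, h2⟩ | ⟨h1, h2⟩ | ⟨h1, h2⟩ <;>
    · rw [h1, h2] at hm
      rw [hm]
      simp
  · rw [coeff_eq_zero_of_totalDegree_lt (by
      have : ∑ i ∈ m.support, m i = m.degree := rfl
      rw [this]; omega)]
    rw [deg2] at h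
    rw [if_neg (by omega), if_neg (by omega), if_neg (by omega), if_neg (by omega),
      if_neg (by omega), if_neg (by omega)]
    simp

/-- the affine equation as a sum of monomials -/
lemma aff_eq (c : Cub E) : c.aff = mm 0 0 c.c00 + mm 1 0 c.c10 + mm 0 1 c.c01 + mm 2 0 c.c20 +
    mm 1 1 c.c11 + mm 0 2 c.c02 + mm 3 0 c.c30 + mm 2 1 c.c21 + mm 1 2 c.c12 + mm 0 3 c.c03 := by
  simp only [mm_eq, Cub.aff, Cub.ev, Cub.map]
  ring

lemma aff_coeff (c : Cub E) (i j : ℕ) :
    coeff (Finsupp.single 0 i + Finsupp.single 1 j) c.aff =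
      (if i = 0 ∧ j = 0 then c.c00 else 0) + (if i = 1 ∧ j = 0 then c.c10 else 0) +
      (if i = 0 ∧ j = 1 then c.c01 else 0) + (if i = 2 ∧ j = 0 then c.c20 else 0) +
      (if i = 1 ∧ j = 1 then c.c11 else 0) + (if i = 0 ∧ j = 2 then c.c02 else 0) +
      (if i = 3 ∧ j = 0 then c.c30 else 0) + (if i = 2 ∧ j = 1 then c.c21 else 0) +
      (if i = 1 ∧ j = 2 then c.c12 else 0) + (if i = 0 ∧ j = 3 then c.c03 else 0) := by
  rw [aff_eq]
  simp only [coeff_add, coeff_mm]
  simp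

lemma aff_inj (c c' : Cub E) (h : c.aff = c'.aff) : c = c' := by
  have H : ∀ i j, coeff (Finsupp.single 0 i + Finsupp.single 1 j) c.aff =
      coeff (Finsupp.single 0 i + Finsupp.single 1 j) c'.aff := by
    intro i j; rw [h]
  have h00 := H 0 0
  have h10 := H 1 0
  have h01 := H 0 1
  have h20 := H 2 0
  have h11 := H 1 1
  have h02 := H 0 2
  have h30 := H 3 0
  have h21 := H 2 1
  have h12 := H 1 2
  have h03 := H 0 3
  rw [aff_coeff, aff_coeff] at h00 h10 h01 h20 h11 h02 h30 h21 h12 h03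
  norm_num at h00 h10 h01 h20 h11 h02 h30 h21 h12 h03
  cases c
  cases c'
  simp_all

lemma aff_zero_coeff (c : Cub E) (m : Fin 2 →₀ ℕ) (hm : 3 < m.degree) : coeff m c.aff = 0 := by
  rw [aff_eq]
  simp only [coeff_add, coeff_mm]
  rw [deg2] at hm
  rw [if_neg (by omega), if_neg (by omega), if_neg (by omega), if_neg (by omega),
      if_neg (by omega), if_neg (by omega), if_neg (by omega), if_neg (by omega),
      if_neg (by omega), if_neg (by omega)]
  simp

lemma aff_deg (c : Cub E) (h : c.Deg3) : c.aff.totalDegree = 3 := by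
  apply le_antisymm
  · unfold totalDegree
    refine Finset.sup_le fun m hm => ?_
    by_contra hlt
    push Not at hlt
    exact (mem_support_iff.mp hm) (aff_zero_coeff c m hlt)
  · by_contra hlt
    push Not at hlt
    apply h
    have H : ∀ i j, i + j = 3 → coeff (Finsupp.single 0 i + Finsupp.single 1 j) c.aff = 0 := by
      intro i j hij
      apply coeff_eq_zero_of_totalDegree_lt
      have : ∑ l ∈ (Finsupp.single 0 i + Finsupp.single 1 j : Fin 2 →₀ ℕ).support,
        (Finsupp.single 0 i + Finsupp.single 1 j : Fin 2 →₀ ℕ) l =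
          (Finsupp.single 0 i + Finsupp.single 1 j : Fin 2 →₀ ℕ).degree := rfl
      rw [this, deg2]
      simp
      omega
    have h30 := H 3 0 rfl
    have h21 := H 2 1 rfl
    have h12 := H 1 2 rfl
    have h03 := H 0 3 rfl
    rw [aff_coeff] at h30 h21 h12 h03
    norm_num at h30 h21 h12 h03
    exact ⟨h30, h21, h12, h03⟩

end

section

variable {E : Type} [Field E] [IsAlgClosed E]

/-- a binary quadratic form has a nontrivial zero -/
lemma bin (a b d : E) : ∃ q r : E, ¬ (q = 0 ∧ r = 0) ∧ a * q ^ 2 + b * q * r + d * r ^ 2 = 0 := by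
  obtain ⟨v, hv, h⟩ := H552R3.Tsen.exists_common_zero (k := E) (σ := Fin 2) (ι := Unit)
    (fun _ => C a * X 0 ^ 2 + C b * X 0 * X 1 + C d * X 1 ^ 2) (by intro i; simp) (by simp)
  refine ⟨v 0, v 1, ?_, ?_⟩
  · rintro ⟨h0, h1⟩
    apply hv
    funext i
    fin_cases i
    · exact h0
    · exact h1
  · have := h ()
    simpa using this

/-- a line and a conic meet -/
lemma ter (g0 g1 g2 h00 h10 h01 h20 h11 h02 : E) : ∃ p q r : E, ¬ (p = 0 ∧ q = 0 ∧ r = 0) ∧
    g0 * p + g1 * q + g2 * r = 0 ∧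
    h00 * p ^ 2 + (h10 * q + h01 * r) * p + (h20 * q ^ 2 + h11 * q * r + h02 * r ^ 2) = 0 := by
  obtain ⟨v, hv, h⟩ := H552R3.Tsen.exists_common_zero (k := E) (σ := Fin 3) (ι := Fin 2)
    (![C g0 * X 0 + C g1 * X 1 + C g2 * X 2,
      C h00 * X 0 ^ 2 + (C h10 * X 1 + C h01 * X 2) * X 0 +
      (C h20 * X 1 ^ 2 + C h11 * X 1 * X 2 + C h02 * X 2 ^ 2)])
    (by intro i; fin_cases i <;> simp) (by simp)
  refine ⟨v 0, v 1, v 2, ?_, ?_, ?_⟩
  · rintro ⟨h0, h1, h2⟩
    apply hv
    funext i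
    fin_cases i
    · exact h0
    · exact h1
    · exact h2
  · have := h 0
    simpa using this
  · have := h 1
    simpa using this

lemma deg3 (c : Cub E) (hc : c.Smo) : c.Deg3 := by
  rintro ⟨h1, h2, h3, h4⟩
  obtain ⟨q, r, hqr, h⟩ := bin c.c20 c.c11 c.c02
  have := hc 0 q r (by simp only [Cub.d0]; linear_combination h)
    (by simp only [Cub.d1, h1, h2, h3]; ring) (by simp only [Cub.d2, h2, h3, h4]; ring)
  exact hqr this.2

/-- no factorization into a line and a conic -/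
lemma noprod (c : Cub E) (hc : c.Smo) (g h : MvPolynomial (Fin 2) E) (hg : g.totalDegree ≤ 1)
    (hh : h.totalDegree ≤ 2) (e : c.aff = g * h) : False := by
  obtain ⟨g0, g1, g2, rfl⟩ := rep1 g hg
  obtain ⟨h00, h10, h01, h20, h11, h02, rfl⟩ := rep2 h hh
  have e2 : c = ⟨g0 * h00, g0 * h10 + g1 * h00, g0 * h01 + g2 * h00, g0 * h20 + g1 * h10,
      g0 * h11 + g1 * h01 + g2 * h10, g0 * h02 + g2 * h01, g1 * h20, g1 * h11 + g2 * h20,
      g1 * h02 + g2 * h11, g2 * h02⟩ := by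
    apply aff_inj
    rw [e]
    simp only [Cub.aff, Cub.ev, Cub.map, map_add, map_mul]
    ring
  obtain ⟨p, q, r, hne, h1, h2⟩ := ter g0 g1 g2 h00 h10 h01 h20 h11 h02
  apply hne
  apply hc p q r
  · rw [e2]
    simp only [Cub.d0]
    linear_combination g0 * h2 + (2 * h00 * p + h10 * q + h01 * r) * h1
  · rw [e2]
    simp only [Cub.d1]
    linear_combination g1 * h2 + (h10 * p + 2 * h20 * q + h11 * r) * h1
  · rw [e2]
    simp only [Cub.d2]
    linear_combination g2 * h2 + (h01 * p + h11 * q + 2 * h02 * r) * h1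

end

theorem sm : StmSM := by
  intro E _ _ _ c hc
  have h3 := deg3 c hc
  refine ⟨⟨?_, ?_⟩, h3⟩
  · intro hu
    have h0 := aff_deg c h3
    obtain ⟨a, _, ha⟩ := MvPolynomial.isUnit_iff_eq_C_of_isReduced.mp hu
    rw [ha, totalDegree_C] at h0
    omega
  · intro g h e
    have hd := aff_deg c h3
    have hne : c.aff ≠ 0 := by
      intro h0
      rw [h0] at hd
      simp at hd
    have hg : g ≠ 0 := by rintro rfl; simp at e; exact hne e
    have hh : h ≠ 0 := by rintro rfl; simp at e; exact hne e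
    have hs : g.totalDegree + h.totalDegree = 3 := by
      rw [← totalDegree_mul_of_isDomain hg hh, ← e, hd]
    have h4 : g.totalDegree = 0 ∨ h.totalDegree = 0 ∨ (g.totalDegree ≤ 1 ∧ h.totalDegree ≤ 2) ∨
      (g.totalDegree ≤ 2 ∧ h.totalDegree ≤ 1) := by omega
    rcases h4 with h4 | h4 | h4 | h4
    · left
      rw [totalDegree_eq_zero_iff_eq_C] at h4
      rw [h4] at hg ⊢
      have : coeff 0 g ≠ 0 := by
        intro h5
        apply hg
        rw [h5]
        simp
      exact (isUnit_iff_ne_zero.mpr this).map C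
    · right
      rw [totalDegree_eq_zero_iff_eq_C] at h4
      rw [h4] at hh ⊢
      have : coeff 0 h ≠ 0 := by
        intro h5
        apply hh
        rw [h5]
        simp
      exact (isUnit_iff_ne_zero.mpr this).map C
    · exact (noprod c hc g h h4.1 h4.2 e).elim
    · exact (noprod c hc h g h4.2 h4.1 (by rw [e, mul_comm])).elim

end Pool.Agent.Y200.CY.Sm
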