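import Pool.Agent.Y200.CY.Stm2
import Pool.Agent.Y200.CY.Mh
import Pool.Agent.Y200.CY.Gs
import Pool.Agent.Y200.CY.Dec
import Pool.Agent.Y200.CY.Bf
import Pool.Agent.Y200.CY.Sm
import Pool.Agent.Y200.CY.A
import Pool.Agent.Y200.CY.Fin
import Pool.Agent.Y200.CY.Ker
import Pool.Agent.Y200.CY.Dh

/-! Mixed second derivatives on the function field (helper454, job CY-HC). -/

set_option autoImplicit false

namespace Pool.Agent.Y200.CY.Hc

open MvPolynomial Pool.Agent.Y200.CB

theorem mhs : StmMH := Mh.mh Gs.gs Dec.dec (Bf.bf Gs.gs) Sm.sm A.stmA Fin.fin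

/-- two derivations which agree on generators agree -/
theorem der_agree {Ω K Λ : Type} [Field Ω] [Field K] [Field Λ] [Algebra Ω K] [Algebra Ω Λ]
    [Algebra K Λ] [IsScalarTower Ω K Λ] (D : Derivation Ω Λ Λ) (T : Derivation Ω K K) (S : Set K)
    (hS : ∀ y ∈ S, D (algebraMap K Λ y) = algebraMap K Λ (T y))
    (hgen : IntermediateField.adjoin Ω S = ⊤) (y : K) :
    D (algebraMap K Λ y) = algebraMap K Λ (T y) := by
  have hy : y ∈ IntermediateField.adjoin Ω S := by
    rw [hgen]
    exact IntermediateField.mem_top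
  induction hy using IntermediateField.adjoin_induction with
  | mem x hx => exact hS x hx
  | algebraMap r =>
    rw [← IsScalarTower.algebraMap_apply Ω K Λ, D.map_algebraMap, T.map_algebraMap, map_zero]
  | add x y _ _ h1 h2 => rw [map_add, map_add, map_add, map_add, h1, h2]
  | inv x _ h1 =>
    rw [map_inv₀, Derivation.leibniz_inv, Derivation.leibniz_inv, h1, smul_eq_mul, smul_eq_mul,
      map_mul, map_neg, map_pow, map_inv₀]
  | mul x y _ _ h1 h2 =>
    rw [map_mul, Derivation.leibniz, Derivation.leibniz, h1, h2, map_add]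
    simp only [smul_eq_mul, map_mul]

theorem hpt_o0 {K : Type} [Field K] {a b N : ℕ} (e : Af a b ≃ Fin N) (x : Fin N → K)
    (β : Bl a b) : hpt e x (o0 β) = 1 := by
  unfold hpt
  rw [dif_neg]
  rw [Mh.bl_o0]
  exact fun h => h rfl

theorem hpt_aff {K : Type} [Field K] {a b N : ℕ} (e : Af a b ≃ Fin N) (x : Fin N → K)
    (t : Af a b) : hpt e x t.1 = x (e t) := by
  unfold hpt
  rw [dif_pos t.2]

theorem hc : StmHC := by
  classical
  intro a b N Ω K _ _ _ _ F hF hsmo e x hx j p s q r hp hs hqr hqj hrj T hTp hTs hT0 h0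
  have hdh := Dh.dh a b N Ω e F hF (hsmo Ω)
  have hev := Dh.ev a b N Ω K e F x
  have hne : ∀ l, aeval x (pderiv l (deh e F)) ≠ 0 := fun l h =>
    (hdh l).2 ((hx.zero_iff _).1 h)
  have hf0 : aeval x (deh e F) = 0 := (hx.zero_iff _).2 dvd_rfl
  have hai : AlgebraicIndependent Ω (fun l : {l : Fin N // l ≠ e s} => x l) :=
    Ker.ai Ω K N (deh e F) x hx (e s) (hdh (e s)).1
  have hps : e p ≠ e s := by
    intro h
    have h1 := congrArg Subtype.val (e.injective h)
    rw [hp, hs] at h1
    simp at h1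
  let Λ := AlgebraicClosure K
  let i : K →ₐ[Ω] Λ := IsScalarTower.toAlgHom Ω K Λ
  have hi : ∀ y, i y = algebraMap K Λ y := fun y => rfl
  have hinj : Function.Injective i := (algebraMap K Λ).injective
  have haiΛ : AlgebraicIndependent Ω (fun l : {l : Fin N // l ≠ e s} => i (x l)) :=
    hai.map' (f := i) hinj
  -- the derivation of the algebraic closure
  obtain ⟨D, hD⟩ : ∃ D : Derivation Ω Λ Λ, ∀ l, l ≠ e s → D (i (x l)) = i (T (x l)) := by
    let I := {l : Fin N // l ≠ e s}
    let e' : Fin (Fintype.card I) ≃ I := (Fintype.equivFin I).symm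
    obtain ⟨D, hD⟩ := exists_der (L := Ω) (K := Λ) (fun m => i (x (e' m)))
      (haiΛ.comp e' e'.injective) (fun m => i (T (x (e' m))))
    refine ⟨D, fun l hl => ?_⟩
    have h1 := hD (e'.symm ⟨l, hl⟩)
    simpa using h1
  have hDs : D (i (x (e s))) = i (T (x (e s))) := by
    have h1 := Mh.chain D (fun l => i (x l)) (deh e F)
    have h2 := Mh.chain T x (deh e F)
    have h3 : ∀ G : MvPolynomial (Fin N) Ω, aeval (fun l => i (x l)) G = i (aeval x G) :=
      fun G => aeval_algebraMap_apply (B := Λ) x G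
    rw [h3, hf0, map_zero, map_zero] at h1
    rw [hf0, map_zero] at h2
    have h4 := congrArg i h2
    rw [map_zero, map_sum] at h4
    have h5 : ∑ l, (i (aeval x (pderiv l (deh e F))) * (D (i (x l)) - i (T (x l)))) = 0 := by
      have h6 : ∀ l, i (aeval x (pderiv l (deh e F))) * (D (i (x l)) - i (T (x l))) =
          aeval (fun l => i (x l)) (pderiv l (deh e F)) * D (i (x l)) -
            i (aeval x (pderiv l (deh e F)) * T (x l)) := by
        intro l
        rw [h3, map_mul]
        ring
      rw [Finset.sum_congr rfl fun l _ => h6 l, Finset.sum_sub_distrib, ← h1, ← h4, sub_zero]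
    rw [Finset.sum_eq_single (e s)] at h5
    · rcases mul_eq_zero.1 h5 with h6 | h6
      · exact absurd ((map_eq_zero i).1 h6) (hne _)
      · exact sub_eq_zero.1 h6
    · intro l _ hl
      rw [hD l hl, sub_self, mul_zero]
    · intro h
      exact absurd (Finset.mem_univ _) h
  have hDi : ∀ y : K, D (i y) = i (T y) := by
    refine der_agree D T (Set.range x) ?_ hx.generates
    rintro _ ⟨l, rfl⟩
    by_cases hl : l = e s
    · rw [hl]
      exact hDs
    · exact hD l hl
  let z : Sg a b → Λ := fun t => i (hpt e x t)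
  have hz : ∀ G : MvPolynomial (Sg a b) Ω, aeval z G = i (aeval (hpt e x) G) :=
    fun G => aeval_algebraMap_apply (B := Λ) (hpt e x) G
  have hzaff : ∀ t : Af a b, z t.1 = i (x (e t)) := fun t => congrArg i (hpt_aff e x t)
  have hz0 : ∀ β, z (o0 β) = 1 := fun β => by
    change i (hpt e x (o0 β)) = 1
    rw [hpt_o0, map_one]
  have hzp : ∀ t : Af a b, aeval z (pderiv t.1 F) = i (aeval x (pderiv (e t) (deh e F))) := by
    intro t
    rw [hz, hev.2 (e t), e.symm_apply_apply]
  have hzF : aeval z F = 0 := by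
    rw [hz, ← hev.1, hf0, map_zero]
  have hind : AlgebraicIndependent Ω
      (fun s : {s : Sg a b // bl s ≠ .inr j ∧ s ≠ o0 (bl s)} => z s) := by
    have hm : ∀ t : {s : Sg a b // bl s ≠ .inr j ∧ s ≠ o0 (bl s)},
        e ⟨t.1, t.2.2⟩ ≠ e s := by
      intro t h
      have h1 := congrArg Subtype.val (e.injective h)
      simp only at h1
      apply t.2.1
      rw [h1, hs]
      rfl
    have h1 := haiΛ.comp (fun t : {s : Sg a b // bl s ≠ .inr j ∧ s ≠ o0 (bl s)} =>
      (⟨e ⟨t.1, t.2.2⟩, hm t⟩ : {l : Fin N // l ≠ e s})) (by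
        intro t t' h
        have h2 := congrArg Subtype.val h
        simp only at h2
        have h3 := congrArg Subtype.val (e.injective h2)
        exact Subtype.ext h3)
    have h2 : (fun s : {s : Sg a b // bl s ≠ .inr j ∧ s ≠ o0 (bl s)} => z s) =
        (fun l : {l : Fin N // l ≠ e s} => i (x l)) ∘
          (fun t : {s : Sg a b // bl s ≠ .inr j ∧ s ≠ o0 (bl s)} =>
            (⟨e ⟨t.1, t.2.2⟩, hm t⟩ : {l : Fin N // l ≠ e s})) := by
      funext t
      exact hzaff ⟨t.1, t.2.2⟩
    rw [h2]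
    exact h1
  have hDz : ∀ t, bl t ≠ .inr j → D (z t) = 0 := by
    intro t ht
    by_cases h : t = o0 (bl t)
    · rw [h, hz0]
      exact D.map_one_eq_zero
    · have h1 := hzaff ⟨t, h⟩
      simp only at h1
      have hep : e ⟨t, h⟩ ≠ e p := by
        intro h2
        have h3 := congrArg Subtype.val (e.injective h2)
        simp only at h3
        apply ht
        rw [h3, hp]
        rfl
      have hes : e ⟨t, h⟩ ≠ e s := by
        intro h2
        have h3 := congrArg Subtype.val (e.injective h2)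
        simp only at h3
        apply ht
        rw [h3, hs]
        rfl
      rw [h1, hDi, hT0 _ hep hes, map_zero]
  have hDu : D (z (.inr (j, 1))) ≠ 0 := by
    rw [← hp, hzaff p, hDi, hTp]
    exact fun h => hne _ ((map_eq_zero i).1 h)
  have hDv : D (z (.inr (j, 2))) ≠ 0 := by
    rw [← hs, hzaff s, hDi, hTs]
    exact fun h => hne _ (neg_eq_zero.1 ((map_eq_zero i).1 h))
  have hfin := mhs a b Ω Λ F hF hsmo j z hz0 hzF hind D hDz hDu hDv q.1 r.1 hqr hqj hrj (by
    rw [hzp r]
    exact fun h => hne _ ((map_eq_zero i).1 h))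
  apply hfin
  rw [hzp q, hzp r, ← map_div₀, hDi, h0, map_zero]

end Pool.Agent.Y200.CY.Hc
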