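import Pool.Agent.Y200.CY.Stm

/-! Generation of the Lie algebra of vector fields (job CY-LIE, by helper564). -/

set_option autoImplicit false

namespace Pool.Agent.Y200.CY.Lie

open MvPolynomial
open Pool.Agent.Y200.CB

section

variable {Ω K : Type} [Field Ω] [Field K] [Algebra Ω K]

/-- the chain rule -/
theorem chain {N : ℕ} (x : Fin N → K) (D : Derivation Ω K K) (g : MvPolynomial (Fin N) Ω) :
    D (aeval x g) = ∑ l, aeval x (pderiv l g) * D (x l) := by
  induction g using MvPolynomial.induction_on with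
  | C a =>
    rw [MvPolynomial.algHom_C, D.map_algebraMap]
    symm
    refine Finset.sum_eq_zero fun l _ => ?_
    rw [pderiv_C, map_zero, zero_mul]
  | add p q hp hq =>
    rw [map_add, map_add, hp, hq, ← Finset.sum_add_distrib]
    refine Finset.sum_congr rfl fun l _ => ?_
    rw [map_add, map_add, add_mul]
  | mul_X p i hp =>
    rw [map_mul, aeval_X, D.leibniz, hp, smul_eq_mul, smul_eq_mul, Finset.mul_sum]
    have h1 : ∀ l, aeval x (pderiv l (p * X i)) * D (x l) =
        x i * (aeval x (pderiv l p) * D (x l)) +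
          (if l = i then aeval x p * D (x l) else 0) := by
      intro l
      rw [(pderiv l).leibniz, pderiv_X, map_add, smul_eq_mul, smul_eq_mul, map_mul, map_mul,
        aeval_X, Pi.single_apply]
      by_cases h : l = i
      · rw [if_pos h, if_pos h.symm, map_one]
        ring
      · rw [if_neg h, if_neg (Ne.symm h), map_zero]
        ring
    rw [Finset.sum_congr rfl fun l _ => h1 l, Finset.sum_add_distrib, Finset.sum_ite_eq',
      if_pos (Finset.mem_univ _)]
    ring

theorem pcomm {σ : Type} (i j : σ) (F : MvPolynomial σ Ω) :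
    pderiv i (pderiv j F) = pderiv j (pderiv i F) := by
  classical
  have h : ⁅(pderiv i : Derivation Ω (MvPolynomial σ Ω) (MvPolynomial σ Ω)),
      (pderiv j : Derivation Ω (MvPolynomial σ Ω) (MvPolynomial σ Ω))⁆ = 0 := by
    apply MvPolynomial.derivation_ext
    intro l
    rw [Derivation.commutator_apply, pderiv_X, pderiv_X, Pi.single_apply, Pi.single_apply]
    split_ifs <;> simp
  have h2 := congrArg (fun D : Derivation Ω (MvPolynomial σ Ω) (MvPolynomial σ Ω) => D F) h
  simp only [Derivation.commutator_apply, Derivation.coe_zero, Pi.zero_apply] at h2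
  exact sub_eq_zero.1 h2

/-- a derivation is determined by its values at the coordinates of a generic point -/
theorem der_zero {N : ℕ} {f : MvPolynomial (Fin N) Ω} {x : Fin N → K} (hx : GPt f x)
    (D : Derivation Ω K K) (h : ∀ l, D (x l) = 0) : D = 0 := by
  have h1 : IntermediateField.adjoin Ω (Set.range x) ≤ consts D := by
    rw [IntermediateField.adjoin_le_iff]
    rintro _ ⟨l, rfl⟩
    exact h l
  rw [hx.generates] at h1
  ext a
  exact h1 (IntermediateField.mem_top : a ∈ (⊤ : IntermediateField Ω K))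

/-- the values at the coordinates -/
noncomputable def iota {N : ℕ} (x : Fin N → K) : Derivation Ω K K →ₗ[K] (Fin N → K) where
  toFun D l := D (x l)
  map_add' D E := by funext l; rfl
  map_smul' a D := by funext l; rfl

/-- the sum over two indices -/
theorem sum_two {N : ℕ} {p s : Fin N} (h : p ≠ s) (v : Fin N → K)
    (hv : ∀ l, l ≠ p → l ≠ s → v l = 0) : ∑ l, v l = v p + v s := by
  classical
  rw [← Finset.sum_subset (Finset.subset_univ ({p, s} : Finset (Fin N)))]
  · exact Finset.sum_pair h
  · intro l _ hl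
    simp only [Finset.mem_insert, Finset.mem_singleton, not_or] at hl
    exact hv l hl.1 hl.2

/-- the sum over four indices -/
theorem sum_four {N : ℕ} {p s q t : Fin N} (h1 : p ≠ s) (h2 : q ≠ t) (h3 : p ≠ q) (h4 : p ≠ t)
    (h5 : s ≠ q) (h6 : s ≠ t) (v : Fin N → K)
    (hv : ∀ l, l ≠ p → l ≠ s → l ≠ q → l ≠ t → v l = 0) :
    ∑ l, v l = v p + v s + v q + v t := by
  classical
  rw [← Finset.sum_subset (Finset.subset_univ ({p, s, q, t} : Finset (Fin N)))]
  · rw [Finset.sum_insert, Finset.sum_insert, Finset.sum_pair h2]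
    · ring
    · simp [h5, h6]
    · simp [h1, h3, h4]
  · intro l _ hl
    simp only [Finset.mem_insert, Finset.mem_singleton, not_or] at hl
    exact hv l hl.1 hl.2.1 hl.2.2.1 hl.2.2.2

end

theorem lie : StmLIE := by
  intro Ω K _ _ _ _ N f x hx hf ι _ p s hps T hT1 hT2 hT3 hcov hconn
  classical
  obtain ⟨G, hG⟩ : ∃ G, G = LieSubalgebra.lieSpan Ω (Derivation Ω K K)
    {D | ∃ c, ∃ e : K, D = e • T c} := ⟨_, rfl⟩
  rw [← hG]
  have hTG : ∀ (c : ι) (e : K), e • T c ∈ G := by
    intro c e
    rw [hG]
    exact LieSubalgebra.subset_lieSpan ⟨c, e, rfl⟩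
  have hTG' : ∀ c, T c ∈ G := fun c => by simpa using hTG c 1
  obtain ⟨W, hW⟩ : ∃ W : Submodule K (Derivation Ω K K),
    W = Submodule.span K (Set.range T ∪ Set.range fun z : ι × ι => ⁅T z.1, T z.2⁆) := ⟨_, rfl⟩
  have hWG : ∀ D ∈ W, ∀ e : K, e • D ∈ G := by
    intro D hD
    rw [hW] at hD
    induction hD using Submodule.span_induction with
    | mem D hD =>
      intro e
      rcases hD with ⟨c, rfl⟩ | ⟨⟨c, d⟩, rfl⟩
      · exact hTG c e
      · have h1 : e • ⁅T c, T d⁆ = ⁅e • T c, T d⁆ + (T d e) • T c := by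
          ext a
          simp only [Derivation.commutator_apply, Derivation.smul_apply, Derivation.add_apply,
            smul_eq_mul, Derivation.leibniz]
          ring
        show e • ⁅T c, T d⁆ ∈ G
        rw [h1]
        exact G.add_mem (G.lie_mem (hTG c e) (hTG' d)) (hTG c _)
    | zero =>
      intro e
      rw [smul_zero]
      exact G.zero_mem
    | add D E _ _ hD hE =>
      intro e
      rw [smul_add]
      exact G.add_mem (hD e) (hE e)
    | smul a D _ hD =>
      intro e
      rw [smul_smul]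
      exact hD (e * a)
  suffices hWt : W = ⊤ by
    rw [eq_top_iff]
    intro D _
    have h1 : D ∈ W := by rw [hWt]; exact Submodule.mem_top
    simpa using hWG D h1 1
  by_contra hne
  obtain ⟨φ, hφ, hφW⟩ := Submodule.exists_le_ker_of_lt_top W (lt_top_iff_ne_top.2 hne)
  obtain ⟨g, hg⟩ := LinearMap.exists_leftInverse_of_injective (iota (Ω := Ω) x)
    (LinearMap.ker_eq_bot'.2 fun D hD => der_zero hx D fun l => congrFun hD l)
  obtain ⟨ξ, hξ⟩ : ∃ ξ : Fin N → K, ξ = fun l => φ (g (Pi.single l 1)) := ⟨_, rfl⟩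
  have hφe : ∀ D : Derivation Ω K K, φ D = ∑ l, D (x l) * ξ l := by
    intro D
    have h1 : g (iota x D) = D := congrArg (fun L => L D) hg
    have h2 : φ D = (φ ∘ₗ g) (iota x D) := by
      rw [LinearMap.comp_apply, h1]
    rw [h2, LinearMap.pi_apply_eq_sum_univ (φ ∘ₗ g) (iota x D), hξ]
    refine Finset.sum_congr rfl fun l _ => ?_
    rw [smul_eq_mul]
    congr 1
    show φ (g _) = φ (g _)
    congr 2
    funext j
    rw [Pi.single_apply]
    by_cases h : j = l
    · rw [if_pos h, if_pos h.symm]
    · rw [if_neg h, if_neg (Ne.symm h)]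
  -- the derivations `T c`
  have hT : ∀ (c : ι) (h : Fin N → K), ∑ l, T c (x l) * h l =
      aeval x (pderiv (s c) f) * h (p c) - aeval x (pderiv (p c) f) * h (s c) := by
    intro c h
    rw [sum_two (hps c) (fun l => T c (x l) * h l) (fun l h1 h2 => by rw [hT3 c l h1 h2, zero_mul]),
      hT1, hT2]
    ring
  have hTg : ∀ (c : ι) (g : MvPolynomial (Fin N) Ω), T c (aeval x g) =
      aeval x (pderiv (p c) g) * aeval x (pderiv (s c) f) -
        aeval x (pderiv (s c) g) * aeval x (pderiv (p c) f) := by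
    intro c g
    rw [chain]
    have := hT c (fun l => aeval x (pderiv l g))
    rw [show ∑ l, aeval x (pderiv l g) * T c (x l) = ∑ l, T c (x l) * aeval x (pderiv l g) from
      Finset.sum_congr rfl fun l _ => mul_comm _ _, this]
    ring
  obtain ⟨lam, hlam⟩ : ∃ lam : ι → K, lam = fun c => ξ (p c) / aeval x (pderiv (p c) f) :=
    ⟨_, rfl⟩
  have hl1 : ∀ c, ξ (p c) = lam c * aeval x (pderiv (p c) f) := by
    intro c
    rw [hlam]
    exact (div_mul_cancel₀ _ (hf _)).symm
  have hl2 : ∀ c, ξ (s c) = lam c * aeval x (pderiv (s c) f) := by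
    intro c
    have h1 : φ (T c) = 0 := hφW (by
      rw [hW]
      exact Submodule.subset_span (Or.inl ⟨c, rfl⟩))
    rw [hφe, hT c ξ, hl1 c] at h1
    have h2 : aeval x (pderiv (p c) f) * (ξ (s c) - lam c * aeval x (pderiv (s c) f)) = 0 := by
      linear_combination -h1
    rcases mul_eq_zero.1 h2 with h3 | h3
    · exact absurd h3 (hf _)
    · exact sub_eq_zero.1 h3
  have hl : ∀ c l, (l = p c ∨ l = s c) → ξ l = lam c * aeval x (pderiv l f) := by
    rintro c l (rfl | rfl)
    · exact hl1 c
    · exact hl2 c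
  have hshare : ∀ c d l, (l = p c ∨ l = s c) → (l = p d ∨ l = s d) → lam c = lam d := by
    intro c d l h1 h2
    have h3 := (hl c l h1).symm.trans (hl d l h2)
    exact mul_right_cancel₀ (hf l) h3
  have hstep : ∀ c d, ((p c = p d ∨ p c = s d ∨ s c = p d ∨ s c = s d) ∨
      T c (aeval x (pderiv (p d) f) / aeval x (pderiv (s d) f)) ≠ 0) → lam c = lam d := by
    intro c d hcd
    by_cases hsh : p c = p d ∨ p c = s d ∨ s c = p d ∨ s c = s d
    · rcases hsh with h | h | h | h
      · exact hshare c d (p c) (Or.inl rfl) (Or.inl h)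
      · exact hshare c d (p c) (Or.inl rfl) (Or.inr h)
      · exact hshare c d (s c) (Or.inr rfl) (Or.inl h)
      · exact hshare c d (s c) (Or.inr rfl) (Or.inr h)
    have hnz := hcd.resolve_left hsh
    push Not at hsh
    obtain ⟨k1, k2, k3, k4⟩ := hsh
    have h1 : φ ⁅T c, T d⁆ = 0 := hφW (by
      rw [hW]
      exact Submodule.subset_span (Or.inr ⟨(c, d), rfl⟩))
    rw [hφe] at h1
    simp only [Derivation.commutator_apply] at h1
    rw [sum_four (hps c) (hps d) k1 k2 k3 k4 _ (by
      intro l a1 a2 a3 a4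
      rw [hT3 d l a3 a4, hT3 c l a1 a2, map_zero, map_zero, sub_zero, zero_mul])] at h1
    rw [hT3 d (p c) k1 k2, hT3 d (s c) k3 k4, hT3 c (p d) k1.symm k3.symm,
      hT3 c (s d) k2.symm k4.symm, hT1, hT2, hT1, hT2, map_zero, map_zero, map_neg, map_neg,
      hTg, hTg, hTg, hTg, hl1 c, hl2 c, hl1 d, hl2 d] at h1
    rw [Derivation.leibniz_div, hTg, hTg] at hnz
    have c1 := pcomm (p c) (p d) f
    have c2 := pcomm (p c) (s d) f
    have c3 := pcomm (s c) (p d) f
    have c4 := pcomm (s c) (s d) f
    rw [c1, c2, c3, c4] at hnz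
    rw [c1, c2, c3, c4] at h1
    have h2 : (lam c - lam d) *
        (aeval x (pderiv (s d) f) *
          (aeval x (pderiv (p d) (pderiv (p c) f)) * aeval x (pderiv (s c) f) -
            aeval x (pderiv (p d) (pderiv (s c) f)) * aeval x (pderiv (p c) f)) -
        aeval x (pderiv (p d) f) *
          (aeval x (pderiv (s d) (pderiv (p c) f)) * aeval x (pderiv (s c) f) -
            aeval x (pderiv (s d) (pderiv (s c) f)) * aeval x (pderiv (p c) f))) = 0 := by
      linear_combination h1
    rcases mul_eq_zero.1 h2 with h3 | h3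
    · exact sub_eq_zero.1 h3
    · exfalso
      apply hnz
      simp only [smul_eq_mul]
      rw [h3, mul_zero]
  have hall : ∀ c d, lam c = lam d := by
    intro c d
    have h := hconn c d
    induction h with
    | refl => rfl
    | tail _ h1 ih => exact ih.trans (hstep _ _ h1)
  apply hφ
  ext D
  rw [hφe, LinearMap.zero_apply]
  rcases isEmpty_or_nonempty ι with h0 | ⟨⟨c0⟩⟩
  · refine Finset.sum_eq_zero fun l _ => ?_
    obtain ⟨c, -⟩ := hcov l
    exact (h0.false c).elim
  · have h1 : ∀ l, ξ l = lam c0 * aeval x (pderiv l f) := by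
      intro l
      obtain ⟨c, hc⟩ := hcov l
      rw [hl c l hc, hall c c0]
    have h2 : aeval x f = 0 := (hx.zero_iff f).2 dvd_rfl
    have h3 : ∑ l, aeval x (pderiv l f) * D (x l) = 0 := by
      rw [← chain, h2, map_zero]
    have h4 : ∑ l, D (x l) * ξ l = lam c0 * ∑ l, aeval x (pderiv l f) * D (x l) := by
      rw [Finset.mul_sum]
      refine Finset.sum_congr rfl fun l _ => ?_
      rw [h1]
      ring
    rw [h4, h3, mul_zero]

end Pool.Agent.Y200.CY.Lie
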