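import Pool.Agent.Y200.CY.Stm2
import Pool.Agent.Y200.CY.Lie
import Pool.Agent.Y200.CY.Dh

/-! The Lie algebra is generated by the derivations tangent to the fibrations (helper125, for
helper200, project CY). -/

set_option autoImplicit false

namespace Pool.Agent.Y200.CY.Lg

open MvPolynomial Pool.Agent.Y200.CB Pool.Agent.Y200.CY

section

variable {a b : ℕ}

/-- the affine coordinate of a line -/
def la (i : Fin a) : Af a b := ⟨.inl (i, 1), by simp [bl, o0]⟩

/-- the first affine coordinate of a plane -/
def pa (j : Fin b) : Af a b := ⟨.inr (j, 1), by simp [bl, o0]⟩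

/-- the second affine coordinate of a plane -/
def pb (j : Fin b) : Af a b := ⟨.inr (j, 2), by simp [bl, o0]⟩

theorem af_cases (q : Af a b) : (∃ i, q = la i) ∨ (∃ j, q = pa j) ∨ (∃ j, q = pb j) := by
  obtain ⟨q, hq⟩ := q
  rcases q with ⟨i, t⟩ | ⟨j, t⟩
  · left
    refine ⟨i, Subtype.ext ?_⟩
    have ht : t ≠ 0 := by
      rintro rfl
      exact hq rfl
    have : t = 1 := by
      fin_cases t
      · exact absurd rfl ht
      · rfl
    simp [la, this]
  · right
    have ht : t ≠ 0 := by
      rintro rfl
      exact hq rfl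
    have : t = 1 ∨ t = 2 := by
      fin_cases t
      · exact absurd rfl ht
      · exact Or.inl rfl
      · exact Or.inr rfl
    rcases this with rfl | rfl
    · exact Or.inl ⟨j, rfl⟩
    · exact Or.inr ⟨j, rfl⟩

theorem cell_pl (j : Fin b) : Cell (pa j : Af a b).1 (pb j : Af a b).1 := Or.inl ⟨j, rfl, rfl⟩

theorem cell_ln {i i' : Fin a} (h : i ≠ i') : Cell (la i : Af a b).1 (la i' : Af a b).1 :=
  Or.inr ⟨i, i', h, rfl, rfl⟩

theorem ne_pl (j : Fin b) : (pa j : Af a b) ≠ pb j := by
  intro h
  have := congrArg Subtype.val h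
  simp [pa, pb] at this

theorem ne_ln {i i' : Fin a} (h : i ≠ i') : (la i : Af a b) ≠ la i' := by
  intro h'
  have := congrArg Subtype.val h'
  simp [la] at this
  exact h this

theorem ne_a (i : Fin a) (j : Fin b) : (pa j : Af a b) ≠ la i := by
  intro h'
  have := congrArg Subtype.val h'
  simp [la, pa] at this

theorem ne_b (i : Fin a) (j : Fin b) : (pb j : Af a b) ≠ la i := by
  intro h'
  have := congrArg Subtype.val h'
  simp [la, pb] at this

/-- the cells -/
abbrev Cl (a b : ℕ) := Fin b ⊕ {c : Fin a × Fin a // c.1 ≠ c.2}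

/-- first coordinate of a cell -/
def P : Cl a b → Af a b
  | .inl j => pa j
  | .inr c => la c.1.1

/-- second coordinate of a cell -/
def S : Cl a b → Af a b
  | .inl j => pb j
  | .inr c => la c.1.2

theorem cell (c : Cl a b) : Cell (P c).1 (S c).1 := by
  rcases c with j | c
  · exact cell_pl j
  · exact cell_ln c.2

theorem ne (c : Cl a b) : P c ≠ S c := by
  rcases c with j | c
  · exact ne_pl j
  · exact ne_ln c.2

theorem cover (ha : a ≠ 1) (q : Af a b) : ∃ c : Cl a b, q = P c ∨ q = S c := by
  rcases af_cases q with ⟨i, rfl⟩ | ⟨j, rfl⟩ | ⟨j, rfl⟩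
  · have : ∃ i' : Fin a, i ≠ i' := by
      have h2 : 1 < a := by
        have := i.2
        omega
      by_cases h0 : i.1 = 0
      · exact ⟨⟨1, h2⟩, fun h => by
          have := congrArg Fin.val h
          simp at this
          omega⟩
      · exact ⟨⟨0, by omega⟩, fun h => by
          have := congrArg Fin.val h
          simp at this
          omega⟩
    obtain ⟨i', hi'⟩ := this
    exact ⟨.inr ⟨(i, i'), hi'⟩, Or.inl rfl⟩
  · exact ⟨.inl j, Or.inl rfl⟩
  · exact ⟨.inl j, Or.inr rfl⟩

end

theorem lg : StmHC → StmSYM → StmTV → StmLG := by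
  intro hHC hSYM hTV a b N Ω K _ _ _ _ F hF hSmo ha e x hx
  classical
  have hnz : ∀ l, aeval x (pderiv l (deh e F)) ≠ 0 := by
    intro l h0
    exact (Dh.dh a b N Ω e F hF (hSmo Ω) l).2 ((hx.zero_iff _).1 h0)
  have hne : ∀ c : Cl a b, e (P c) ≠ e (S c) := fun c h => ne c (e.injective h)
  have hT : ∀ c : Cl a b, ∃ T : Derivation Ω K K,
      T (x (e (P c))) = aeval x (pderiv (e (S c)) (deh e F)) ∧
      T (x (e (S c))) = - aeval x (pderiv (e (P c)) (deh e F)) ∧
      ∀ l, l ≠ e (P c) → l ≠ e (S c) → T (x l) = 0 :=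
    fun c => hTV Ω K N (deh e F) x hx _ _ (hne c)
  choose T hT1 hT2 hT3 using hT
  -- planes are joined to all other cells
  have hpl : ∀ (j : Fin b) (d : Cl a b), d ≠ .inl j →
      T (.inl j) (aeval x (pderiv (e (P d)) (deh e F)) /
        aeval x (pderiv (e (S d)) (deh e F))) ≠ 0 := by
    intro j d hd
    refine hHC a b N Ω K F hF hSmo e x hx j (pa j) (pb j) (P d) (S d) rfl rfl (cell d) ?_ ?_
      (T (.inl j)) (hT1 (.inl j)) (hT2 (.inl j)) (hT3 (.inl j))
    · rcases d with j' | c
      · intro h
        have : j' = j := by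
          have h' : (Sum.inr j' : Bl a b) = .inr j := h
          exact Sum.inr.inj h'
        exact hd (by rw [this])
      · intro h
        have h' : (Sum.inl c.1.1 : Bl a b) = .inr j := h
        cases h'
    · rcases d with j' | c
      · intro h
        have : j' = j := by
          have h' : (Sum.inr j' : Bl a b) = .inr j := h
          exact Sum.inr.inj h'
        exact hd (by rw [this])
      · intro h
        have h' : (Sum.inl c.1.2 : Bl a b) = .inr j := h
        cases h'
  have key := Lie.lie Ω K N (deh e F) x hx hnz (Cl a b) (fun c => e (P c)) (fun c => e (S c)) hne T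
    hT1 hT2 hT3 ?_ ?_
  · rw [eq_top_iff, ← key]
    apply LieSubalgebra.lieSpan_mono
    rintro D ⟨c, r, rfl⟩
    refine ⟨P c, S c, cell c, ?_⟩
    have hle : Lps Ω x (e (P c)) (e (S c)) ≤ consts (T c) := by
      unfold Lps
      rw [IntermediateField.adjoin_le_iff]
      rintro _ ⟨l, ⟨h1, h2⟩, rfl⟩
      exact hT3 c l h1 h2
    intro y hy
    have : T c y = 0 := hle hy
    rw [Derivation.smul_apply, this, smul_zero]
  · intro l
    obtain ⟨c, hc⟩ := cover ha (e.symm l)
    refine ⟨c, ?_⟩
    rcases hc with hc | hc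
    · left
      show l = e (P c)
      rw [← hc, Equiv.apply_symm_apply]
    · right
      show l = e (S c)
      rw [← hc, Equiv.apply_symm_apply]
  · intro c d
    rcases c with j | c
    · by_cases hd : d = .inl j
      · rw [hd]
      · exact Relation.ReflTransGen.single (Or.inr (hpl j d hd))
    · rcases d with j | d
      · apply Relation.ReflTransGen.single
        right
        have h := hpl j (.inr c) (by simp)
        refine hSYM Ω K N (deh e F) x (e (P (.inl j : Cl a b))) (e (S (.inl j : Cl a b)))
          (e (P (.inr c : Cl a b))) (e (S (.inr c : Cl a b))) (hne _) (hne _)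
          (fun h => ne_a c.1.1 j (e.injective h)) (fun h => ne_a c.1.2 j (e.injective h))
          (fun h => ne_b c.1.1 j (e.injective h)) (fun h => ne_b c.1.2 j (e.injective h))
          (hnz _) (hnz _) (T (.inl j)) (T (.inr c)) (hT1 _) (hT2 _) (hT3 _) (hT1 _) (hT2 _)
          (hT3 _) h
      · by_cases h : c.1.1 = d.1.1
        · apply Relation.ReflTransGen.single
          left; left
          show e (la c.1.1) = e (la d.1.1)
          rw [h]
        · have h1 : Relation.ReflTransGen (fun c d : Cl a b =>
              (e (P c) = e (P d) ∨ e (P c) = e (S d) ∨ e (S c) = e (P d) ∨ e (S c) = e (S d)) ∨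
              T c (aeval x (pderiv (e (P d)) (deh e F)) /
                aeval x (pderiv (e (S d)) (deh e F))) ≠ 0)
              (.inr c) (.inr ⟨(c.1.1, d.1.1), h⟩) :=
            Relation.ReflTransGen.single (Or.inl (Or.inl rfl))
          refine h1.tail ?_
          left; right; right; left
          rfl

end Pool.Agent.Y200.CY.Lg
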