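import Pool.Agent.Y200.CY.Stm2
import Pool.Agent.Y200.CY.Lie
import Pool.Agent.Y742.GF.Loc

/-! Symmetry of mixed derivatives, tangent vector fields and the generic point (helper978). -/

set_option autoImplicit false

namespace Pool.Agent.Y200.CY.Sym

open MvPolynomial Pool.Agent.Y200.CB Pool.Agent.Y742.GF

section

variable {Ω K : Type*} [Field Ω] [Field K] [Algebra Ω K] {N : ℕ} {x : Fin N → K}

/-- derivations of the function field from tangent vectors -/
theorem exists_der (hx : ∀ f : K, ∃ P Q : MvPolynomial (Fin N) Ω, aeval x Q ≠ 0 ∧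
    f * aeval x Q = aeval x P) (v : Fin N → K)
    (hv : ∀ P : MvPolynomial (Fin N) Ω, aeval x P = 0 → ∑ l, aeval x (pderiv l P) * v l = 0) :
    ∃ D : Derivation Ω K K, ∀ l, D (x l) = v l := by
  let T : MvPolynomial (Fin N) Ω →ₐ[Ω] TrivSqZeroExt K K :=
    aeval fun l => TrivSqZeroExt.inl (x l) + TrivSqZeroExt.inr (v l)
  have hT : ∀ P, (T P).fst = aeval x P ∧ (T P).snd = ∑ l, aeval x (pderiv l P) * v l := by
    intro P
    induction P using MvPolynomial.induction_on with
    | C a =>
      have : T (C a) = algebraMap Ω _ a := algHom_C T a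
      rw [this, algHom_C, TrivSqZeroExt.algebraMap_eq_inl']
      simp
    | add p q hp hq =>
      simp only [map_add, TrivSqZeroExt.fst_add, TrivSqZeroExt.snd_add, hp.1, hp.2, hq.1, hq.2,
        add_mul, Finset.sum_add_distrib, and_self]
    | mul_X p i hp =>
      have e : T (X i) = TrivSqZeroExt.inl (x i) + TrivSqZeroExt.inr (v i) := aeval_X _ _
      rw [map_mul, e]
      constructor
      · simp [hp.1]
      · classical
        simp only [TrivSqZeroExt.snd_mul, TrivSqZeroExt.fst_add, TrivSqZeroExt.snd_add,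
          TrivSqZeroExt.fst_inl, TrivSqZeroExt.fst_inr, TrivSqZeroExt.snd_inl,
          TrivSqZeroExt.snd_inr, hp.1, hp.2, add_zero, zero_add, smul_eq_mul,
          op_smul_eq_mul, Derivation.leibniz, pderiv_X, map_add, map_mul, aeval_X,
          add_mul, Finset.sum_add_distrib]
        congr 1
        · rw [Finset.sum_eq_single i]
          · simp
          · intro b _ hb
            simp [hb.symm]
          · intro h; exact absurd (Finset.mem_univ _) h
        · rw [Finset.sum_mul]
          exact Finset.sum_congr rfl fun l _ => by ring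
  have hk : ∀ P, (aeval x : MvPolynomial (Fin N) Ω →ₐ[Ω] K).toRingHom P = 0 →
      T.toRingHom P = 0 := by
    intro P hP
    have h0 : aeval x P = 0 := hP
    apply TrivSqZeroExt.ext
    · exact (hT P).1.trans h0
    · exact (hT P).2.trans (hv P h0)
  have hreg : ∀ f : K, f ∈ Oc (aeval x : MvPolynomial (Fin N) Ω →ₐ[Ω] K).toRingHom
      T.toRingHom := by
    intro f
    obtain ⟨P, Q, hQ, hf⟩ := hx f
    have hu : IsUnit (T.toRingHom Q) := by
      rw [TrivSqZeroExt.isUnit_iff_isUnit_fst]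
      have : (T.toRingHom Q).fst = aeval x Q := (hT Q).1
      rw [this]
      exact IsUnit.mk0 _ hQ
    obtain ⟨u, hu'⟩ := hu
    refine ⟨T.toRingHom P * ↑u⁻¹, P, Q, ⟨u, hu'⟩, hQ, hf, ?_⟩
    rw [← hu', mul_assoc, Units.inv_mul, mul_one]
  let ρ : K → TrivSqZeroExt K K := fun f => ev hk ⟨f, hreg f⟩
  have ρrg : ∀ f, Rg (aeval x : MvPolynomial (Fin N) Ω →ₐ[Ω] K).toRingHom T.toRingHom f (ρ f) :=
    fun f => ev_spec hk ⟨f, hreg f⟩
  have ρeq : ∀ f r, Rg (aeval x : MvPolynomial (Fin N) Ω →ₐ[Ω] K).toRingHom T.toRingHom f r →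
      ρ f = r := fun f r h => (ρrg f).unique hk h
  have ρadd : ∀ f g, ρ (f + g) = ρ f + ρ g := fun f g => ρeq _ _ ((ρrg f).add (ρrg g))
  have ρmul : ∀ f g, ρ (f * g) = ρ f * ρ g := fun f g => ρeq _ _ ((ρrg f).mul (ρrg g))
  have ρfst : ∀ f, (ρ f).fst = f := by
    intro f
    obtain ⟨P, Q, -, hQ, e1, e2⟩ := ρrg f
    have h1 := congrArg TrivSqZeroExt.fst e2
    rw [TrivSqZeroExt.fst_mul] at h1
    have h2 : (T.toRingHom Q).fst = aeval x Q := (hT Q).1
    have h3 : (T.toRingHom P).fst = aeval x P := (hT P).1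
    rw [h2, h3] at h1
    have e1' : f * aeval x Q = aeval x P := e1
    rw [← e1'] at h1
    exact mul_right_cancel₀ hQ h1
  have ρal : ∀ a : Ω, ρ (algebraMap Ω K a) = TrivSqZeroExt.inl (algebraMap Ω K a) := by
    intro a
    apply ρeq
    have h1 := Rg.of (φ := (aeval x : MvPolynomial (Fin N) Ω →ₐ[Ω] K).toRingHom)
      (τ := T.toRingHom) (C a)
    have e1 : (aeval x : MvPolynomial (Fin N) Ω →ₐ[Ω] K).toRingHom (C a) = algebraMap Ω K a :=
      algHom_C _ a
    have e2 : T.toRingHom (C a) = TrivSqZeroExt.inl (algebraMap Ω K a) := algHom_C T a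
    rw [e1, e2] at h1
    exact h1
  have ρx : ∀ l, ρ (x l) = TrivSqZeroExt.inl (x l) + TrivSqZeroExt.inr (v l) := by
    intro l
    apply ρeq
    have h1 := Rg.of (φ := (aeval x : MvPolynomial (Fin N) Ω →ₐ[Ω] K).toRingHom)
      (τ := T.toRingHom) (X l)
    have e1 : (aeval x : MvPolynomial (Fin N) Ω →ₐ[Ω] K).toRingHom (X l) = x l := aeval_X _ _
    have e2 : T.toRingHom (X l) = TrivSqZeroExt.inl (x l) + TrivSqZeroExt.inr (v l) :=
      aeval_X _ _
    rw [e1, e2] at h1
    exact h1
  refine ⟨Derivation.mk' (R := Ω) (A := K) (M := K)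
    { toFun := fun f => (ρ f).snd
      map_add' := fun f g => by rw [ρadd, TrivSqZeroExt.snd_add]
      map_smul' := fun c f => by
        rw [Algebra.smul_def, ρmul, ρal, TrivSqZeroExt.snd_mul]
        simp [Algebra.smul_def] } ?_, ?_⟩
  · intro f g
    show (ρ (f * g)).snd = f • (ρ g).snd + g • (ρ f).snd
    rw [ρmul, TrivSqZeroExt.snd_mul, ρfst, ρfst]
    simp [mul_comm]
  · intro l
    show (ρ (x l)).snd = v l
    rw [ρx]
    simp
theorem fractions {f : MvPolynomial (Fin N) Ω} (hx : GPt f x) (y : K) :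
    ∃ P Q : MvPolynomial (Fin N) Ω, aeval x Q ≠ 0 ∧ y * aeval x Q = aeval x P := by
  have hy : y ∈ IntermediateField.adjoin Ω (Set.range x) := by
    rw [hx.generates]
    exact IntermediateField.mem_top
  obtain ⟨P, Q, h⟩ := (IntermediateField.mem_adjoin_range_iff Ω x y).1 hy
  by_cases hQ : aeval x Q = 0
  · refine ⟨0, 1, ?_, ?_⟩
    · rw [map_one]
      exact one_ne_zero
    · rw [h, hQ, div_zero, zero_mul, map_zero]
  · exact ⟨P, Q, hQ, by rw [h, div_mul_cancel₀ _ hQ]⟩

end

/-- the tangent vector fields -/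
theorem tv : StmTV := by
  intro Ω K _ _ _ _ N f x hx p s hps
  classical
  obtain ⟨T, hT⟩ := exists_der (x := x) (fractions hx)
    (fun l => (if l = p then aeval x (pderiv s f) else 0) -
      if l = s then aeval x (pderiv p f) else 0) (by
      intro P hP
      obtain ⟨G, rfl⟩ := (hx.zero_iff P).1 hP
      have h0 : aeval x f = 0 := (hx.zero_iff f).2 dvd_rfl
      simp only [Derivation.leibniz, smul_eq_mul, map_add, map_mul, h0, zero_mul, zero_add,
        mul_sub, Finset.sum_sub_distrib, mul_ite, mul_zero, Finset.sum_ite_eq', Finset.mem_univ,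
        if_true]
      ring)
  refine ⟨T, ?_, ?_, fun l h1 h2 => ?_⟩
  · rw [hT]
    simp [hps]
  · rw [hT]
    simp [hps.symm]
  · rw [hT]
    simp [h1, h2]

/-- symmetry of the mixed second derivatives -/
theorem sym : StmSYM := by
  intro Ω K _ _ _ _ N f x p s q r hps hqr hpq hpr hsq hsr hs hr T T' h1 h2 h3 h1' h2' h3' hne
  have e1 : ∀ g : MvPolynomial (Fin N) Ω, T (aeval x g) =
      aeval x (pderiv p g) * aeval x (pderiv s f) - aeval x (pderiv s g) * aeval x (pderiv p f) := by
    intro g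
    rw [Lie.chain, Lie.sum_two hps _ (fun l a b => by rw [h3 l a b, mul_zero]), h1, h2]
    ring
  have e2 : ∀ g : MvPolynomial (Fin N) Ω, T' (aeval x g) =
      aeval x (pderiv q g) * aeval x (pderiv r f) - aeval x (pderiv r g) * aeval x (pderiv q f) := by
    intro g
    rw [Lie.chain, Lie.sum_two hqr _ (fun l a b => by rw [h3' l a b, mul_zero]), h1', h2']
    ring
  intro h0
  apply hne
  rw [Derivation.leibniz_div, e2, e2] at h0
  rw [Derivation.leibniz_div, e1, e1]
  rw [Lie.pcomm p q f, Lie.pcomm s q f, Lie.pcomm p r f, Lie.pcomm s r f]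
  simp only [smul_eq_mul] at h0 ⊢
  have hs2 : (aeval x (pderiv s f))⁻¹ ^ 2 ≠ 0 := pow_ne_zero 2 (inv_ne_zero hs)
  have h4 := (mul_eq_zero.1 h0).resolve_left hs2
  have h5 : aeval x (pderiv r f) *
        (aeval x (pderiv q (pderiv p f)) * aeval x (pderiv s f) -
          aeval x (pderiv q (pderiv s f)) * aeval x (pderiv p f)) -
      aeval x (pderiv q f) *
        (aeval x (pderiv r (pderiv p f)) * aeval x (pderiv s f) -
          aeval x (pderiv r (pderiv s f)) * aeval x (pderiv p f)) = 0 := by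
    linear_combination h4
  rw [h5, mul_zero]

/-- existence of the generic point -/
theorem gp : StmGP := by
  intro Ω _ N f hf
  have hp : (Ideal.span {f}).IsPrime :=
    (Ideal.span_singleton_prime hf.ne_zero).2 hf.prime
  let A := MvPolynomial (Fin N) Ω ⧸ Ideal.span {f}
  have hA : IsDomain A := Ideal.Quotient.isDomain _
  let K := FractionRing A
  let x : Fin N → K := fun l => algebraMap A K (Ideal.Quotient.mk _ (X l))
  have hx : ∀ P : MvPolynomial (Fin N) Ω, aeval x P = algebraMap A K (Ideal.Quotient.mk _ P) := by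
    intro P
    let φ : MvPolynomial (Fin N) Ω →ₐ[Ω] K :=
      (IsScalarTower.toAlgHom Ω A K).comp (Ideal.Quotient.mkₐ Ω (Ideal.span {f}))
    have h1 : (aeval x : MvPolynomial (Fin N) Ω →ₐ[Ω] K) = φ := by
      apply MvPolynomial.algHom_ext
      intro l
      rw [aeval_X]
      rfl
    rw [h1]
    rfl
  refine ⟨K, inferInstance, inferInstance, x, ⟨fun P => ?_, ?_⟩⟩
  · rw [hx, FaithfulSMul.algebraMap_eq_zero_iff, Ideal.Quotient.eq_zero_iff_mem,
      Ideal.mem_span_singleton]
  · rw [eq_top_iff]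
    intro y _
    rw [IntermediateField.mem_adjoin_range_iff]
    obtain ⟨a, b, hb, rfl⟩ := IsFractionRing.div_surjective (A := A) y
    obtain ⟨P, rfl⟩ := Ideal.Quotient.mk_surjective a
    obtain ⟨Q, rfl⟩ := Ideal.Quotient.mk_surjective b
    exact ⟨P, Q, by rw [hx, hx]⟩

end Pool.Agent.Y200.CY.Sym
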