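import Pool.Agent.Y200.CY.Stm6
import Pool.Agent.Y200.CY.Lie
import Pool.Agent.Y200.CY.Lg
import Pool.Agent.Y200.CY.Hc
import Pool.Agent.Y200.CY.Sym
import Pool.Agent.Y200.CY.Dh

/-! The vector fields tangent to the fibration over the line (helper200, project CY; adaptation of
`Lie.lean` by helper564 and `Lg.lean` by helper125). -/

set_option autoImplicit false

namespace Pool.Agent.Y200.CY.Lgx

open MvPolynomial Pool.Agent.Y200.CB Pool.Agent.Y200.CY

/-- generation of the Lie algebra, with one variable which is not covered -/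
theorem lie1 (Ω K : Type) [Field Ω] [CharZero Ω] [Field K] [Algebra Ω K] (N : ℕ)
    (f : MvPolynomial (Fin N) Ω) (x : Fin N → K) (hx : GPt f x)
    (hf : ∀ l, aeval x (pderiv l f) ≠ 0) (l₀ : Fin N) (ι : Type) [Finite ι] (p s : ι → Fin N)
    (hps : ∀ c, p c ≠ s c) (T : ι → Derivation Ω K K)
    (hT1 : ∀ c, T c (x (p c)) = aeval x (pderiv (s c) f))
    (hT2 : ∀ c, T c (x (s c)) = - aeval x (pderiv (p c) f))
    (hT3 : ∀ c l, l ≠ p c → l ≠ s c → T c (x l) = 0)
    (hcov : ∀ l, l ≠ l₀ → ∃ c, l = p c ∨ l = s c) (hne : Nonempty ι)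
    (hconn : ∀ c d, Relation.ReflTransGen (fun c d => (p c = p d ∨ p c = s d ∨ s c = p d ∨
      s c = s d) ∨ T c (aeval x (pderiv (p d) f) / aeval x (pderiv (s d) f)) ≠ 0) c d)
    (D : Derivation Ω K K) (hD : D (x l₀) = 0) :
    D ∈ LieSubalgebra.lieSpan Ω (Derivation Ω K K) {D | ∃ c, ∃ e : K, D = e • T c} := by
  classical
  obtain ⟨G, hG⟩ : ∃ G, G = LieSubalgebra.lieSpan Ω (Derivation Ω K K)
    {D | ∃ c, ∃ e : K, D = e • T c} := ⟨_, rfl⟩
  rw [← hG]
  have hTG : ∀ (c : ι) (e : K), e • T c ∈ G := by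
    intro c e
    rw [hG]
    exact LieSubalgebra.subset_lieSpan ⟨c, e, rfl⟩
  have hTG' : ∀ c, T c ∈ G := fun c => by simpa using hTG c 1
  obtain ⟨W, hW⟩ : ∃ W : Submodule K (Derivation Ω K K),
    W = Submodule.span K (Set.range T ∪ Set.range fun z : ι × ι => ⁅T z.1, T z.2⁆) := ⟨_, rfl⟩
  have hWG : ∀ D ∈ W, ∀ e : K, e • D ∈ G := by
    intro D hD
    rw [hW] at hD
    induction hD using Submodule.span_induction with
    | mem D hD =>
      intro e
      rcases hD with ⟨c, rfl⟩ | ⟨⟨c, d⟩, rfl⟩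
      · exact hTG c e
      · have h1 : e • ⁅T c, T d⁆ = ⁅e • T c, T d⁆ + (T d e) • T c := by
          ext a
          simp only [Derivation.commutator_apply, Derivation.smul_apply, Derivation.add_apply,
            smul_eq_mul, Derivation.leibniz]
          ring
        show e • ⁅T c, T d⁆ ∈ G
        rw [h1]
        exact G.add_mem (G.lie_mem (hTG c e) (hTG' d)) (hTG c _)
    | zero =>
      intro e
      rw [smul_zero]
      exact G.zero_mem
    | add D E _ _ hD hE =>
      intro e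
      rw [smul_add]
      exact G.add_mem (hD e) (hE e)
    | smul a D _ hD =>
      intro e
      rw [smul_smul]
      exact hD (e * a)
  suffices hWt : D ∈ W by
    simpa using hWG D hWt 1
  by_contra hnW
  obtain ⟨φ, hφ, hφW⟩ := Submodule.exists_le_ker_of_notMem hnW
  obtain ⟨g, hg⟩ := LinearMap.exists_leftInverse_of_injective (Lie.iota (Ω := Ω) x)
    (LinearMap.ker_eq_bot'.2 fun D hD => Lie.der_zero hx D fun l => congrFun hD l)
  obtain ⟨ξ, hξ⟩ : ∃ ξ : Fin N → K, ξ = fun l => φ (g (Pi.single l 1)) := ⟨_, rfl⟩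
  have hφe : ∀ D : Derivation Ω K K, φ D = ∑ l, D (x l) * ξ l := by
    intro D
    have h1 : g (Lie.iota x D) = D := congrArg (fun L => L D) hg
    have h2 : φ D = (φ ∘ₗ g) (Lie.iota x D) := by
      rw [LinearMap.comp_apply, h1]
    rw [h2, LinearMap.pi_apply_eq_sum_univ (φ ∘ₗ g) (Lie.iota x D), hξ]
    refine Finset.sum_congr rfl fun l _ => ?_
    rw [smul_eq_mul]
    congr 1
    show φ (g _) = φ (g _)
    congr 2
    funext j
    rw [Pi.single_apply]
    by_cases h : j = l
    · rw [if_pos h, if_pos h.symm]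
    · rw [if_neg h, if_neg (Ne.symm h)]
  -- the derivations `T c`
  have hT : ∀ (c : ι) (h : Fin N → K), ∑ l, T c (x l) * h l =
      aeval x (pderiv (s c) f) * h (p c) - aeval x (pderiv (p c) f) * h (s c) := by
    intro c h
    rw [Lie.sum_two (hps c) (fun l => T c (x l) * h l) (fun l h1 h2 => by rw [hT3 c l h1 h2, zero_mul]),
      hT1, hT2]
    ring
  have hTg : ∀ (c : ι) (g : MvPolynomial (Fin N) Ω), T c (aeval x g) =
      aeval x (pderiv (p c) g) * aeval x (pderiv (s c) f) -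
        aeval x (pderiv (s c) g) * aeval x (pderiv (p c) f) := by
    intro c g
    rw [Lie.chain]
    have := hT c (fun l => aeval x (pderiv l g))
    rw [show ∑ l, aeval x (pderiv l g) * T c (x l) = ∑ l, T c (x l) * aeval x (pderiv l g) from
      Finset.sum_congr rfl fun l _ => mul_comm _ _, this]
    ring
  obtain ⟨lam, hlam⟩ : ∃ lam : ι → K, lam = fun c => ξ (p c) / aeval x (pderiv (p c) f) :=
    ⟨_, rfl⟩
  have hl1 : ∀ c, ξ (p c) = lam c * aeval x (pderiv (p c) f) := by
    intro c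
    rw [hlam]
    exact (div_mul_cancel₀ _ (hf _)).symm
  have hl2 : ∀ c, ξ (s c) = lam c * aeval x (pderiv (s c) f) := by
    intro c
    have h1 : φ (T c) = 0 := hφW (by
      rw [hW]
      exact Submodule.subset_span (Or.inl ⟨c, rfl⟩))
    rw [hφe, hT c ξ, hl1 c] at h1
    have h2 : aeval x (pderiv (p c) f) * (ξ (s c) - lam c * aeval x (pderiv (s c) f)) = 0 := by
      linear_combination -h1
    rcases mul_eq_zero.1 h2 with h3 | h3
    · exact absurd h3 (hf _)
    · exact sub_eq_zero.1 h3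
  have hl : ∀ c l, (l = p c ∨ l = s c) → ξ l = lam c * aeval x (pderiv l f) := by
    rintro c l (rfl | rfl)
    · exact hl1 c
    · exact hl2 c
  have hshare : ∀ c d l, (l = p c ∨ l = s c) → (l = p d ∨ l = s d) → lam c = lam d := by
    intro c d l h1 h2
    have h3 := (hl c l h1).symm.trans (hl d l h2)
    exact mul_right_cancel₀ (hf l) h3
  have hstep : ∀ c d, ((p c = p d ∨ p c = s d ∨ s c = p d ∨ s c = s d) ∨
      T c (aeval x (pderiv (p d) f) / aeval x (pderiv (s d) f)) ≠ 0) → lam c = lam d := by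
    intro c d hcd
    by_cases hsh : p c = p d ∨ p c = s d ∨ s c = p d ∨ s c = s d
    · rcases hsh with h | h | h | h
      · exact hshare c d (p c) (Or.inl rfl) (Or.inl h)
      · exact hshare c d (p c) (Or.inl rfl) (Or.inr h)
      · exact hshare c d (s c) (Or.inr rfl) (Or.inl h)
      · exact hshare c d (s c) (Or.inr rfl) (Or.inr h)
    have hnz := hcd.resolve_left hsh
    push Not at hsh
    obtain ⟨k1, k2, k3, k4⟩ := hsh
    have h1 : φ ⁅T c, T d⁆ = 0 := hφW (by
      rw [hW]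
      exact Submodule.subset_span (Or.inr ⟨(c, d), rfl⟩))
    rw [hφe] at h1
    simp only [Derivation.commutator_apply] at h1
    rw [Lie.sum_four (hps c) (hps d) k1 k2 k3 k4 _ (by
      intro l a1 a2 a3 a4
      rw [hT3 d l a3 a4, hT3 c l a1 a2, map_zero, map_zero, sub_zero, zero_mul])] at h1
    rw [hT3 d (p c) k1 k2, hT3 d (s c) k3 k4, hT3 c (p d) k1.symm k3.symm,
      hT3 c (s d) k2.symm k4.symm, hT1, hT2, hT1, hT2, map_zero, map_zero, map_neg, map_neg,
      hTg, hTg, hTg, hTg, hl1 c, hl2 c, hl1 d, hl2 d] at h1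
    rw [Derivation.leibniz_div, hTg, hTg] at hnz
    have c1 := Lie.pcomm (p c) (p d) f
    have c2 := Lie.pcomm (p c) (s d) f
    have c3 := Lie.pcomm (s c) (p d) f
    have c4 := Lie.pcomm (s c) (s d) f
    rw [c1, c2, c3, c4] at hnz
    rw [c1, c2, c3, c4] at h1
    have h2 : (lam c - lam d) *
        (aeval x (pderiv (s d) f) *
          (aeval x (pderiv (p d) (pderiv (p c) f)) * aeval x (pderiv (s c) f) -
            aeval x (pderiv (p d) (pderiv (s c) f)) * aeval x (pderiv (p c) f)) -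
        aeval x (pderiv (p d) f) *
          (aeval x (pderiv (s d) (pderiv (p c) f)) * aeval x (pderiv (s c) f) -
            aeval x (pderiv (s d) (pderiv (s c) f)) * aeval x (pderiv (p c) f))) = 0 := by
      linear_combination h1
    rcases mul_eq_zero.1 h2 with h3 | h3
    · exact sub_eq_zero.1 h3
    · exfalso
      apply hnz
      simp only [smul_eq_mul]
      rw [h3, mul_zero]
  have hall : ∀ c d, lam c = lam d := by
    intro c d
    have h := hconn c d
    induction h with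
    | refl => rfl
    | tail _ h1 ih => exact ih.trans (hstep _ _ h1)
  apply hφ
  rw [hφe]
  obtain ⟨c0⟩ := hne
  have h1 : ∀ l, l ≠ l₀ → ξ l = lam c0 * aeval x (pderiv l f) := by
    intro l hl₀
    obtain ⟨c, hc⟩ := hcov l hl₀
    rw [hl c l hc, hall c c0]
  have h2 : aeval x f = 0 := (hx.zero_iff f).2 dvd_rfl
  have h3 : ∑ l, aeval x (pderiv l f) * D (x l) = 0 := by
    rw [← Lie.chain, h2, map_zero]
  have h4 : ∑ l, D (x l) * ξ l = lam c0 * ∑ l, aeval x (pderiv l f) * D (x l) := by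
    rw [Finset.mul_sum]
    refine Finset.sum_congr rfl fun l _ => ?_
    by_cases h5 : l = l₀
    · rw [h5, hD, zero_mul, mul_zero, mul_zero]
    · rw [h1 l h5]
      ring
  rw [h4, h3, mul_zero]

theorem lg1 : StmLG1 := by
  intro b N Ω K _ _ _ _ F hF hSmo e x hx D hD
  classical
  have hnz : ∀ l, aeval x (pderiv l (deh e F)) ≠ 0 := by
    intro l h0
    exact (Dh.dh 1 b N Ω e F hF (hSmo Ω) l).2 ((hx.zero_iff _).1 h0)
  by_cases hb : b = 0
  · have hD0 : D = 0 := by
      refine Lie.der_zero hx D fun l => ?_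
      obtain ⟨q, rfl⟩ := e.surjective l
      rcases Lg.af_cases q with ⟨i, rfl⟩ | ⟨j, rfl⟩ | ⟨j, rfl⟩
      · have h0 : (Lg.la i : Af 1 b) = tl b := by
          have hi : i = 0 := Subsingleton.elim _ _
          rw [hi]
          rfl
        rw [h0]
        exact hD
      · subst hb; exact Fin.elim0 j
      · subst hb; exact Fin.elim0 j
    rw [hD0]
    exact LieSubalgebra.zero_mem _
  have hne : ∀ j : Fin b, e (Lg.pa j) ≠ e (Lg.pb j) := fun j h => Lg.ne_pl j (e.injective h)
  have hT : ∀ j : Fin b, ∃ T : Derivation Ω K K,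
      T (x (e (Lg.pa j))) = aeval x (pderiv (e (Lg.pb j)) (deh e F)) ∧
      T (x (e (Lg.pb j))) = - aeval x (pderiv (e (Lg.pa j)) (deh e F)) ∧
      ∀ l, l ≠ e (Lg.pa j) → l ≠ e (Lg.pb j) → T (x l) = 0 :=
    fun j => Sym.tv Ω K N (deh e F) x hx _ _ (hne j)
  choose T hT1 hT2 hT3 using hT
  have hpl : ∀ j j' : Fin b, j' ≠ j →
      T j (aeval x (pderiv (e (Lg.pa j')) (deh e F)) /
        aeval x (pderiv (e (Lg.pb j')) (deh e F))) ≠ 0 := by
    intro j j' hd
    refine Hc.hc 1 b N Ω K F hF hSmo e x hx j (Lg.pa j) (Lg.pb j) (Lg.pa j') (Lg.pb j') rfl rfl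
      (Lg.cell_pl j') ?_ ?_ (T j) (hT1 j) (hT2 j) (hT3 j)
    · intro h
      have h' : (Sum.inr j' : Bl 1 b) = .inr j := h
      exact hd (Sum.inr.inj h')
    · intro h
      have h' : (Sum.inr j' : Bl 1 b) = .inr j := h
      exact hd (Sum.inr.inj h')
  have key := lie1 Ω K N (deh e F) x hx hnz (e (tl b)) (Fin b) (fun j => e (Lg.pa j))
    (fun j => e (Lg.pb j)) hne T hT1 hT2 hT3 ?_ ⟨⟨0, by omega⟩⟩ ?_ D hD
  · refine LieSubalgebra.lieSpan_mono ?_ key
    rintro D ⟨j, r, rfl⟩
    refine ⟨j, Lg.pa j, Lg.pb j, rfl, rfl, ?_⟩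
    have hle : Lps Ω x (e (Lg.pa j)) (e (Lg.pb j)) ≤ consts (T j) := by
      unfold Lps
      rw [IntermediateField.adjoin_le_iff]
      rintro _ ⟨l, ⟨h1, h2⟩, rfl⟩
      exact hT3 j l h1 h2
    intro y hy
    have : T j y = 0 := hle hy
    rw [Derivation.smul_apply, this, smul_zero]
  · intro l hl
    obtain ⟨q, rfl⟩ := e.surjective l
    rcases Lg.af_cases q with ⟨i, rfl⟩ | ⟨j, rfl⟩ | ⟨j, rfl⟩
    · exfalso
      apply hl
      have hi : i = 0 := Subsingleton.elim _ _
      rw [hi]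
      rfl
    · exact ⟨j, Or.inl rfl⟩
    · exact ⟨j, Or.inr rfl⟩
  · intro c d
    by_cases hd : d = c
    · rw [hd]
    · exact Relation.ReflTransGen.single (Or.inr (hpl c d hd))

end Pool.Agent.Y200.CY.Lgx
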