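import Pool.Agent.Y200.CY.Ttb

/-! The other root is transcendental (helper569, project CY). -/

set_option autoImplicit false

namespace Pool.Agent.Y200.CY.Tt

open MvPolynomial Pool.Agent.Y200.CY Pool.Agent.Y200.CB Pool.Agent.Y200.CY.Tta
  Pool.Agent.Y200.CY.Ttb

theorem lid : StmLID := Tta.lid

theorem gen {L : Type} [Field L] (d b c : L) (hd : d ≠ 0) (n i : ℕ) (hi : i < n + 1) :
    d ^ n * (c * (b / d) ^ i) = c * b ^ i * d ^ (n - i) := by
  have h3 : d ^ n = d ^ i * d ^ (n - i) := by
    rw [← pow_add]
    congr 1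
    omega
  have h4 : d ^ i * (b / d) ^ i = b ^ i := by
    rw [← mul_pow, mul_div_cancel₀ _ hd]
  rw [h3]
  linear_combination (c * d ^ (n - i)) * h4

/-- an algebraic quotient modulo a prime element is a constant -/
theorem quot {Ω : Type} [Field Ω] [IsAlgClosed Ω] {σ : Type} (g B D : MvPolynomial σ Ω)
    (hg : Prime g) (hD : ¬ g ∣ D) (p : Polynomial Ω) (hp : p ≠ 0)
    (h : g ∣ ∑ i ∈ Finset.range (p.natDegree + 1), C (p.coeff i) * B ^ i *
      D ^ (p.natDegree - i)) : ∃ r : Ω, g ∣ B - C r * D := by
  have hI : (Ideal.span {g}).IsPrime := (Ideal.span_singleton_prime hg.ne_zero).2 hg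
  let L := FractionRing (MvPolynomial σ Ω ⧸ Ideal.span {g})
  let π : MvPolynomial σ Ω →ₐ[Ω] L :=
    (IsScalarTower.toAlgHom Ω (MvPolynomial σ Ω ⧸ Ideal.span {g}) L).comp
      (Ideal.Quotient.mkₐ Ω (Ideal.span {g}))
  have hπ : ∀ Q, π Q = 0 ↔ g ∣ Q := by
    intro Q
    have h1 : π Q = algebraMap (MvPolynomial σ Ω ⧸ Ideal.span {g}) L
        (Ideal.Quotient.mk (Ideal.span {g}) Q) := rfl
    rw [h1, map_eq_zero_iff _ (IsFractionRing.injective _ _), Ideal.Quotient.eq_zero_iff_mem,
      Ideal.mem_span_singleton]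
  have hD' : π D ≠ 0 := fun h1 => hD ((hπ D).1 h1)
  have h1 := (hπ _).2 h
  have hC : ∀ c : Ω, π (C c) = algebraMap Ω L c := fun c => by
    have : (C c : MvPolynomial σ Ω) = algebraMap Ω _ c := rfl
    rw [this, AlgHom.commutes]
  have hz : Polynomial.aeval (π B / π D) p = 0 := by
    have h2 : π D ^ p.natDegree * Polynomial.aeval (π B / π D) p = 0 := by
      rw [← h1, map_sum, Polynomial.aeval_eq_sum_range, Finset.mul_sum]
      apply Finset.sum_congr rfl
      intro i hi
      rw [Finset.mem_range] at hi
      rw [map_mul, map_mul, map_pow, map_pow, hC, Algebra.smul_def]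
      exact gen _ _ _ hD' _ _ hi
    exact (mul_eq_zero.1 h2).resolve_left (pow_ne_zero _ hD')
  have hint : IsIntegral Ω (π B / π D) := by
    rw [← isAlgebraic_iff_isIntegral]
    exact ⟨p, hp, hz⟩
  obtain ⟨r, hr⟩ := minpoly.mem_range_of_degree_eq_one Ω (π B / π D)
    (IsAlgClosed.degree_eq_one_of_irreducible Ω (minpoly.irreducible hint))
  refine ⟨r, ?_⟩
  rw [← hπ, map_sub, map_mul, hC, hr, div_mul_cancel₀ _ hD', sub_self]

theorem tt : StmTT := by
  intro b N k K _ _ _ _ F hF hS hb hli e x hx
  classical
  have hchar : CharZero K := charZero_of_injective_algebraMap (algebraMap k K).injective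
  let Ω := AlgebraicClosure K
  have hcharΩ : CharZero Ω := charZero_of_injective_algebraMap (algebraMap K Ω).injective
  set t : K := x (e (tl b)) with htdef
  -- the coordinate of the line is transcendental
  have htr : Transcendental k t := by
    have h1 : (.inr (⟨0, Nat.pos_of_ne_zero hb⟩, 1) : Sg 1 b) ≠
        o0 (bl (.inr (⟨0, Nat.pos_of_ne_zero hb⟩, 1))) := by
      intro h
      have h1 : (1 : Fin 3) = 0 := congrArg Prod.snd (Sum.inr.inj h)
      exact absurd h1 (by decide)
    have hd := (Dh.dh 1 b N k e F hF (hS k) (e ⟨_, h1⟩)).1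
    have hai := Ker.ai k K N _ x hx _ hd
    have hne : e (tl b) ≠ e ⟨_, h1⟩ := by
      intro h
      have h2 := congrArg Subtype.val (e.injective h)
      exact absurd h2 Sum.inl_ne_inr
    exact hai.transcendental ⟨e (tl b), hne⟩
  have htr' : Transcendental k (algebraMap K Ω t) := by
    rw [transcendental_algebraMap_iff (algebraMap K Ω).injective]
    exact htr
  -- the affine coordinates of the planes
  obtain ⟨N', ⟨e'⟩⟩ : ∃ N', Nonempty (Af 0 b ≃ Fin N') :=
    ⟨_, ⟨Fintype.equivFin (Af 0 b)⟩⟩
  have hg : Irreducible (deh e' (fib (algebraMap K Ω t) F)) :=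
    Irp.irp 0 b N' Ω e' _ (mhom_fib _ F hF) (smo_fib _ F hF (hS Ω) hb htr') hb
  have hdv : ∀ P : MvPolynomial (Fin N) k, aeval x P = 0 →
      deh e' (fib (algebraMap K Ω t) F) ∣ th e e' (algebraMap K Ω t) P := by
    intro P hP
    obtain ⟨G, hG⟩ := (hx.zero_iff P).1 hP
    rw [hG, map_mul, th_F e e' _ F hF]
    exact Dvd.intro _ rfl
  -- the values
  set y : Sg 0 b → K := hpt e x ∘ em with hy
  have hval : ∀ Q : MvPolynomial (Sg 0 b) k, aeval x (deh e (rename em Q)) = aeval y Q := by
    intro Q
    rw [Dh.deh_val, aeval_rename]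
  have hthQ : ∀ Q : MvPolynomial (Sg 0 b) k, th e e' (algebraMap K Ω t) (deh e (rename em Q)) =
      deh e' (map (algebraMap k Ω) Q) := by
    intro Q
    rw [th_deh, hh_em]
  have hp0 : ∀ x' : Fin N → K, hpt e x' (.inl (0, 0)) = 1 := by
    intro x'
    unfold hpt
    rw [dif_neg]
    rw [not_not]
    rfl
  have hp1 : ∀ x' : Fin N → K, hpt e x' (.inl (0, 1)) = x' (e (tl b)) := by
    intro x'
    exact dif_pos (tl b).2
  have hFv : ∀ x' : Fin N → K, aeval x' (deh e F) = aeval (hpt e x' ∘ em) (qq F 0) +
      x' (e (tl b)) * aeval (hpt e x' ∘ em) (qq F 1) +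
      x' (e (tl b)) ^ 2 * aeval (hpt e x' ∘ em) (qq F 2) := by
    intro x'
    rw [Dh.deh_val]
    conv_lhs => rw [decomp F hF]
    simp only [map_add, map_mul, map_pow, aeval_X, aeval_rename, hp0, hp1]
    ring
  have h0 : aeval y (qq F 0) + t * aeval y (qq F 1) + t ^ 2 * aeval y (qq F 2) = 0 := by
    rw [htdef, ← hFv x]
    exact (hx.zero_iff _).2 (dvd_refl _)
  have hD : ¬ deh e' (fib (algebraMap K Ω t) F) ∣ deh e' (map (algebraMap k Ω) (qq F 2)) := by
    intro h
    have h1 := key e' (algebraMap K Ω t) F hF hli htr' 0 1 (by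
      rw [C_0, zero_mul, zero_add, C_1, one_mul]
      exact h)
    exact one_ne_zero h1.2
  have hc : aeval y (qq F 2) ≠ 0 := by
    intro h
    have h1 := hdv (deh e (rename em (qq F 2))) (by rw [hval, h])
    rw [hthQ] at h1
    exact hD h1
  set w : K := aeval y (qq F 1) / aeval y (qq F 2) with hw
  -- the quotient is transcendental over the line
  have htw : Transcendental (Algebra.adjoin k {t}) w := by
    rintro ⟨q, hq0, hq⟩
    have hex : ∀ i, ∃ Q : Polynomial k, Polynomial.aeval t Q = (q.coeff i : K) := by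
      intro i
      have h1 : (q.coeff i : K) ∈ (Polynomial.aeval t : Polynomial k →ₐ[k] K).range := by
        rw [← Algebra.adjoin_singleton_eq_range_aeval]
        exact (q.coeff i).2
      exact h1
    choose Q hQ using hex
    have hinj : Function.Injective (algebraMap (Algebra.adjoin k {t}) Ω) := by
      have h1 : algebraMap (Algebra.adjoin k {t}) Ω =
          (algebraMap K Ω).comp (algebraMap (Algebra.adjoin k {t}) K) :=
        IsScalarTower.algebraMap_eq _ _ _
      rw [h1]
      exact (algebraMap K Ω).injective.comp Subtype.val_injective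
    set p : Polynomial Ω := q.map (algebraMap (Algebra.adjoin k {t}) Ω) with hp
    have hp00 : p ≠ 0 := (Polynomial.map_ne_zero_iff hinj).2 hq0
    have hpd : p.natDegree = q.natDegree := Polynomial.natDegree_map_eq_of_injective hinj q
    obtain ⟨H, hH⟩ : ∃ H, H = ∑ i ∈ Finset.range (q.natDegree + 1),
        (Polynomial.aeval (X (e (tl b)) : MvPolynomial (Fin N) k) (Q i)) *
          (deh e (rename em (qq F 1))) ^ i *
          (deh e (rename em (qq F 2))) ^ (q.natDegree - i) := ⟨_, rfl⟩
    have hHx : aeval x H = 0 := by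
      have h1 : aeval x H = aeval y (qq F 2) ^ q.natDegree * Polynomial.aeval w q := by
        rw [hH, map_sum, Polynomial.aeval_eq_sum_range, Finset.mul_sum]
        apply Finset.sum_congr rfl
        intro i hi
        rw [Finset.mem_range] at hi
        rw [map_mul, map_mul, map_pow, map_pow, hval, hval, ← Polynomial.aeval_algHom_apply,
          aeval_X, hQ, Algebra.smul_def, hw]
        exact (gen _ _ _ hc _ _ hi).symm
      rw [h1, hq, mul_zero]
    have h1 := hdv H hHx
    have h2 : th e e' (algebraMap K Ω t) H = ∑ i ∈ Finset.range (p.natDegree + 1),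
        C (p.coeff i) * (deh e' (map (algebraMap k Ω) (qq F 1))) ^ i *
          (deh e' (map (algebraMap k Ω) (qq F 2))) ^ (p.natDegree - i) := by
      rw [hH, map_sum, hpd]
      apply Finset.sum_congr rfl
      intro i _
      rw [map_mul, map_mul, map_pow, map_pow, hthQ, hthQ, ← Polynomial.aeval_algHom_apply]
      congr 2
      have h3 : th e e' (algebraMap K Ω t) (X (e (tl b)) : MvPolynomial (Fin N) k) =
          C (algebraMap K Ω t) := by
        unfold th
        rw [aeval_X, Equiv.symm_apply_apply]
        simp [hh, tl]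
      rw [h3, hp, Polynomial.coeff_map]
      have h4 : algebraMap (Algebra.adjoin k {t}) Ω (q.coeff i) =
          algebraMap K Ω (Polynomial.aeval t (Q i)) := by
        rw [hQ]
        rfl
      rw [h4]
      have h5 : (C (algebraMap K Ω t) : MvPolynomial (Fin N') Ω) =
          ((IsScalarTower.toAlgHom k Ω (MvPolynomial (Fin N') Ω)).comp
            (IsScalarTower.toAlgHom k K Ω)) t := rfl
      rw [h5, Polynomial.aeval_algHom_apply]
      rfl
    rw [h2] at h1
    obtain ⟨r, hr⟩ := quot _ _ _ hg.prime hD p hp00 h1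
    have h3 := key e' (algebraMap K Ω t) F hF hli htr' 1 (-r) (by
      rw [C_1, one_mul, C_neg, neg_mul, ← sub_eq_add_neg]
      exact hr)
    exact one_ne_zero h3.1
  -- the derivation
  have hind : AlgebraicIndependent k ![t, w] := by
    have h1 : AlgebraicIndependent k (fun _ : Unit => t) := by
      rw [algebraicIndependent_unique_type_iff]
      exact htr
    have h2 := (h1.option_iff_transcendental w).2 (by
      rw [Set.range_const]
      exact htw)
    have h3 := h2.comp (![some (), none] : Fin 2 → Option Unit) (by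
      intro i j hij
      fin_cases i <;> fin_cases j <;> simp at hij ⊢)
    convert h3 using 1
    funext i
    fin_cases i <;> rfl
  obtain ⟨D, hDD⟩ := CB.exists_der ![t, w] hind ![0, 1]
  have hDt : D t = 0 := hDD 0
  have hDw : D w = 1 := hDD 1
  have hup : hpt e (Function.update x (e (tl b)) (-w - t)) ∘ em = y := by
    funext s
    rcases s with ⟨i, _⟩ | s
    · exact i.elim0
    · simp only [hy, Function.comp_apply, Tta.em]
      unfold hpt
      split_ifs with h
      · rw [Function.update_of_ne]
        intro h2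
        exact absurd (congrArg Subtype.val (e.injective h2)) Sum.inr_ne_inl
      · rfl
  refine ⟨-w - t, ?_, ?_, D, hDt, ?_⟩
  · rw [hFv, hup, Function.update_self]
    have h2 : aeval y (qq F 1) = w * aeval y (qq F 2) := by
      rw [hw, div_mul_cancel₀ _ hc]
    rw [h2] at h0 ⊢
    linear_combination h0
  · obtain ⟨S, hSd⟩ : ∃ S, S = IntermediateField.adjoin k
        (Set.range (Function.update x (e (tl b)) (-w - t))) := ⟨_, rfl⟩
    rw [← hSd, eq_top_iff, ← hx.generates, IntermediateField.adjoin_le_iff]
    have hmem : ∀ l, Function.update x (e (tl b)) (-w - t) l ∈ S := by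
      intro l
      rw [hSd]
      exact IntermediateField.subset_adjoin _ _ ⟨l, rfl⟩
    have hne : ∀ l, l ≠ e (tl b) → x l ∈ S := by
      intro l hl
      have h2 := hmem l
      rwa [Function.update_of_ne hl] at h2
    have hyS : ∀ s, y s ∈ S := by
      rintro (⟨i, _⟩ | s)
      · exact i.elim0
      · simp only [hy, Function.comp_apply, Tta.em]
        unfold hpt
        split_ifs with h
        · apply hne
          intro h2
          exact absurd (congrArg Subtype.val (e.injective h2)) Sum.inr_ne_inl
        · exact one_mem S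
    have hQS : ∀ Q : MvPolynomial (Sg 0 b) k, aeval y Q ∈ S := by
      intro Q
      induction Q using MvPolynomial.induction_on with
      | C c => rw [aeval_C]; exact S.algebraMap_mem c
      | add p q hp hq => rw [map_add]; exact add_mem hp hq
      | mul_X p s hp => rw [map_mul, aeval_X]; exact mul_mem hp (hyS s)
    have hwS : w ∈ S := div_mem (hQS _) (hQS _)
    rintro _ ⟨l, rfl⟩
    by_cases hl : l = e (tl b)
    · have h2 := hmem (e (tl b))
      rw [Function.update_self] at h2
      rw [hl, ← htdef]
      have h3 : t = -w - (-w - t) := by ring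
      rw [h3]
      exact sub_mem (neg_mem hwS) h2
    · exact hne l hl
  · rw [map_sub, map_neg, hDw, hDt, sub_zero]
    exact neg_ne_zero.2 one_ne_zero

end Pool.Agent.Y200.CY.Tt
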