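import Pool.Agent.Y200.CY.Stm6
import Pool.Agent.Y200.CY.Ker

/-! Another generic point; the combinatorial data for one line (project CY, by helper431). -/

set_option autoImplicit false

namespace Pool.Agent.Y200.CY.Upd

open MvPolynomial Pool.Agent.Y200.CY Pool.Agent.Y200.CB

theorem upd : StmUPD := by
  intro k K _ _ _ N f x hx s hs t' ht' hgen
  classical
  have hai := Pool.Agent.Y200.CY.Ker.ai k K N f x hx s hs
  obtain ⟨L, hL⟩ : ∃ L : IntermediateField k K,
    L = IntermediateField.adjoin k (x '' {l | l ≠ s}) := ⟨_, rfl⟩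
  have hm : ∀ l, l ≠ s → x l ∈ L := fun l hl => by
    rw [hL]
    exact IntermediateField.subset_adjoin _ _ ⟨l, hl, rfl⟩
  obtain ⟨θ, hθ⟩ : ∃ θ : MvPolynomial (Fin N) k →ₐ[k] Polynomial L,
      θ = aeval (fun l => if h : l = s then Polynomial.X else Polynomial.C ⟨x l, hm l h⟩) :=
    ⟨_, rfl⟩
  have hθs : θ (X s) = Polynomial.X := by rw [hθ, aeval_X, dif_pos rfl]
  have hθl : ∀ l (h : l ≠ s), θ (X l) = Polynomial.C ⟨x l, hm l h⟩ := by
    intro l h
    rw [hθ, aeval_X, dif_neg h]
  have hθC : ∀ c : k, θ (C c) = Polynomial.C (algebraMap k L c) := by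
    intro c
    rw [hθ, aeval_C]
    rfl
  -- evaluation
  have hev : ∀ (z : K) (Q : MvPolynomial (Fin N) k),
      Polynomial.aeval z (θ Q) = aeval (Function.update x s z) Q := by
    intro z Q
    have h1 : ((Polynomial.aeval z : Polynomial L →ₐ[L] K).restrictScalars k).comp θ =
        (aeval (Function.update x s z) : MvPolynomial (Fin N) k →ₐ[k] K) := by
      apply MvPolynomial.algHom_ext
      intro l
      rw [AlgHom.comp_apply, AlgHom.restrictScalars_apply]
      by_cases h1 : l = s
      · rw [h1, hθs, aeval_X, Polynomial.aeval_X, Function.update_self]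
      · rw [hθl l h1, aeval_X, Polynomial.aeval_C, Function.update_of_ne h1]
        rfl
    exact congrArg (fun g : MvPolynomial (Fin N) k →ₐ[k] K => g Q) h1
  -- injectivity
  have hinj : Function.Injective θ := by
    let ψ : MvPolynomial {l : Fin N // l ≠ s} k →ₐ[k] L :=
      aeval (fun l => (⟨x l, hm l l.2⟩ : L))
    have hψ : Function.Injective ψ := by
      rw [injective_iff_map_eq_zero]
      intro P hP
      have h1 : (aeval (fun l : {l : Fin N // l ≠ s} => x l) :
          MvPolynomial {l : Fin N // l ≠ s} k →ₐ[k] K) = L.val.comp ψ := by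
        apply MvPolynomial.algHom_ext
        intro l
        rw [AlgHom.comp_apply, aeval_X, aeval_X]
        rfl
      rw [algebraicIndependent_iff] at hai
      apply hai
      rw [h1, AlgHom.comp_apply, hP, map_zero]
    have h2 : θ = ((Polynomial.mapAlgHom ψ).comp
        (optionEquivLeft k {l : Fin N // l ≠ s} : _ →ₐ[k] _)).comp
        (rename (Equiv.optionSubtypeNe s).symm) := by
      apply MvPolynomial.algHom_ext
      intro l
      rw [AlgHom.comp_apply, AlgHom.comp_apply, rename_X]
      by_cases h1 : l = s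
      · subst h1
        rw [hθs, Equiv.optionSubtypeNe_symm_self]
        show _ = Polynomial.mapAlgHom ψ (optionEquivLeft k _ (X none))
        rw [optionEquivLeft_X_none]
        simp
      · rw [hθl l h1, Equiv.optionSubtypeNe_symm_of_ne h1]
        show _ = Polynomial.mapAlgHom ψ (optionEquivLeft k _ (X (some ⟨l, h1⟩)))
        rw [optionEquivLeft_X_some]
        simp [ψ]
    rw [h2]
    intro P Q hPQ
    have h3 : Polynomial.map ψ.toRingHom (optionEquivLeft k {l : Fin N // l ≠ s}
        (rename (Equiv.optionSubtypeNe s).symm P)) =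
        Polynomial.map ψ.toRingHom (optionEquivLeft k {l : Fin N // l ≠ s}
        (rename (Equiv.optionSubtypeNe s).symm Q)) := hPQ
    have h4 := Polynomial.map_injective ψ.toRingHom hψ h3
    exact rename_injective _ (Equiv.injective _) ((optionEquivLeft k _).injective h4)
  -- the coefficients
  have hcoef : ∀ z : K, ∀ hz : z ∈ IntermediateField.adjoin k (x '' {l | l ≠ s}),
      ∃ (y : L) (A B : MvPolynomial (Fin N) k), y ≠ 0 ∧ θ A = Polynomial.C y ∧
        θ B = Polynomial.C (y * ⟨z, hL ▸ hz⟩) := by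
    intro z hz
    induction hz using IntermediateField.adjoin_induction with
    | mem z hz =>
      obtain ⟨l, h1, rfl⟩ := hz
      refine ⟨1, 1, X l, one_ne_zero, by rw [map_one, Polynomial.C_1], ?_⟩
      rw [hθl l h1, one_mul]
    | algebraMap c =>
      refine ⟨1, 1, C c, one_ne_zero, by rw [map_one, Polynomial.C_1], ?_⟩
      rw [hθC, one_mul]
      rfl
    | add u v hu hv ihu ihv =>
      obtain ⟨y, A, B, hy, hA, hB⟩ := ihu
      obtain ⟨y', A', B', hy', hA', hB'⟩ := ihv
      refine ⟨y * y', A * A', B * A' + A * B', mul_ne_zero hy hy',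
        by rw [map_mul, hA, hA', Polynomial.C_mul], ?_⟩
      rw [map_add, map_mul, map_mul, hA, hA', hB, hB', ← Polynomial.C_mul, ← Polynomial.C_mul,
        ← Polynomial.C_add]
      congr 1
      apply Subtype.ext
      change (y : K) * u * y' + y * (y' * v) = y * y' * (u + v)
      ring
    | inv u hu ihu =>
      obtain ⟨y, A, B, hy, hA, hB⟩ := ihu
      by_cases hu0 : u = 0
      · refine ⟨1, 1, 0, one_ne_zero, by rw [map_one, Polynomial.C_1], ?_⟩
        rw [map_zero, ← Polynomial.C_0, one_mul]
        congr 1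
        apply Subtype.ext
        change (0 : K) = u⁻¹
        rw [hu0, inv_zero]
      · refine ⟨y * ⟨u, hL ▸ hu⟩, B, A, mul_ne_zero hy ?_, hB, ?_⟩
        · intro h
          exact hu0 (congrArg Subtype.val h)
        · rw [hA]
          congr 1
          apply Subtype.ext
          change (y : K) = y * u * u⁻¹
          rw [mul_assoc, mul_inv_cancel₀ hu0, mul_one]
    | mul u v hu hv ihu ihv =>
      obtain ⟨y, A, B, hy, hA, hB⟩ := ihu
      obtain ⟨y', A', B', hy', hA', hB'⟩ := ihv
      refine ⟨y * y', A * A', B * B', mul_ne_zero hy hy',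
        by rw [map_mul, hA, hA', Polynomial.C_mul], ?_⟩
      rw [map_mul, hB, hB', ← Polynomial.C_mul]
      congr 1
      apply Subtype.ext
      change (y : K) * u * (y' * v) = y * y' * (u * v)
      ring
  -- common denominators
  have hden : ∀ Q : Polynomial L, ∃ (y : L) (A B : MvPolynomial (Fin N) k), y ≠ 0 ∧
      θ A = Polynomial.C y ∧ θ B = Polynomial.C y * Q := by
    intro Q
    induction Q using Polynomial.induction_on' with
    | add Q Q' ih ih' =>
      obtain ⟨y, A, B, hy, hA, hB⟩ := ih
      obtain ⟨y', A', B', hy', hA', hB'⟩ := ih'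
      refine ⟨y * y', A * A', B * A' + A * B', mul_ne_zero hy hy',
        by rw [map_mul, hA, hA', Polynomial.C_mul], ?_⟩
      rw [map_add, map_mul, map_mul, hA, hA', hB, hB', Polynomial.C_mul]
      ring
    | monomial n z =>
      obtain ⟨y, A, B, hy, hA, hB⟩ := hcoef z (hL ▸ z.2)
      refine ⟨y, A, B * X s ^ n, hy, hA, ?_⟩
      rw [map_mul, map_pow, hB, hθs, ← Polynomial.C_mul_X_pow_eq_monomial, Polynomial.C_mul]
      ring
  -- the ideal of the point over L
  have hker : ∀ Q : Polynomial L, Polynomial.aeval (x s) Q = 0 → θ f ∣ Q := by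
    intro Q hQ
    obtain ⟨y, A, B, hy, -, hB⟩ := hden Q
    have h1 : aeval x B = 0 := by
      rw [← Function.update_eq_self s x, ← hev, hB, map_mul, hQ, mul_zero]
    obtain ⟨G, hG⟩ := (hx.zero_iff B).1 h1
    have h2 : θ f ∣ Polynomial.C y * Q := by
      rw [← hB, hG, map_mul]
      exact Dvd.intro _ rfl
    have hu : IsUnit (Polynomial.C y : Polynomial L) := (IsUnit.mk0 y hy).map Polynomial.C
    exact hu.dvd_mul_left.1 h2
  have hf0 : f ≠ 0 := ne_zero_of_degreeOf_ne_zero hs
  have hθf : θ f ≠ 0 := fun h => hf0 (hinj (by rw [h, map_zero]))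
  have hxf : Polynomial.aeval (x s) (θ f) = 0 := by
    rw [hev, Function.update_eq_self]
    exact (hx.zero_iff f).2 dvd_rfl
  have htf : Polynomial.aeval t' (θ f) = 0 := by
    rw [hev]
    exact ht'
  have hint : IsIntegral L (x s) := (isAlgebraic_iff_isIntegral).1 ⟨θ f, hθf, hxf⟩
  have hmin : minpoly L (x s) = minpoly L t' := by
    apply minpoly.eq_of_irreducible_of_monic (minpoly.irreducible hint)
    · obtain ⟨G, hG⟩ := hker _ (minpoly.aeval L (x s))
      rw [hG, map_mul, htf, zero_mul]
    · exact minpoly.monic hint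
  refine ⟨fun P => ⟨fun hP => ?_, ?_⟩, hgen⟩
  · rw [← hev] at hP
    have h1 := minpoly.dvd L t' hP
    rw [← hmin] at h1
    obtain ⟨G, hG⟩ := h1
    have h2 : Polynomial.aeval (x s) (θ P) = 0 := by
      rw [hG, map_mul, minpoly.aeval, zero_mul]
    rw [hev, Function.update_eq_self] at h2
    exact (hx.zero_iff P).1 h2
  · rintro ⟨G, rfl⟩
    rw [map_mul, ht', zero_mul]

theorem co1 : StmCO1 := by
  intro ι _ _ m d i₀ hm0 hd0 hd hm hex
  classical
  obtain ⟨b, hb⟩ : ∃ b : ℕ, b = Fintype.card {i : ι // i ≠ i₀} := ⟨_, rfl⟩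
  have e : Fin b ≃ {i : ι // i ≠ i₀} := by
    rw [hb]
    exact (Fintype.equivFin _).symm
  refine ⟨b, Sum.elim (fun _ => i₀) (fun j => (e j).1), fun _ => 1, ?_, fun i => one_ne_zero, ?_,
    ?_⟩
  · obtain ⟨i, hi⟩ := hex
    have : Nonempty {i : ι // i ≠ i₀} := ⟨⟨i, hi⟩⟩
    rw [hb]
    exact Fintype.card_ne_zero
  · rintro (j | j)
    · simp only [Sum.elim_inl, mul_one, dg]
      exact hd0
    · simp only [Sum.elim_inr, mul_one, dg]
      exact hd _ (e j).2
  · intro i
    rw [Finset.sum_filter, Fintype.sum_sum_type]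
    change (∑ _a : Fin 1, (if i₀ = i then 2 - 1 else 0)) +
      (∑ j : Fin b, (if (e j).1 = i then 3 - 1 else 0)) = m i
    have h1 : ∑ j : Fin b, (if (e j).1 = i then 3 - 1 else 0) =
        ∑ z : {i : ι // i ≠ i₀}, (if z.1 = i then 3 - 1 else 0) :=
      Equiv.sum_comp e (fun z : {i : ι // i ≠ i₀} => if z.1 = i then 3 - 1 else 0)
    rw [h1]
    by_cases hi : i = i₀
    · subst hi
      have h2 : ∑ z : {j : ι // j ≠ i}, (if z.1 = i then 3 - 1 else 0) = 0 :=
        Finset.sum_eq_zero fun z _ => if_neg z.2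
      rw [h2, hm0]
      simp
    · have h2 : ∑ z : {j : ι // j ≠ i₀}, (if z.1 = i then 3 - 1 else 0) = 2 := by
        rw [Finset.sum_eq_single (⟨i, hi⟩ : {j : ι // j ≠ i₀})]
        · simp
        · intro z _ hz
          rw [if_neg]
          intro h
          exact hz (Subtype.ext h)
        · intro h
          exact absurd (Finset.mem_univ _) h
      rw [h2, hm i hi]
      simp [Ne.symm hi]

end Pool.Agent.Y200.CY.Upd
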