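import Pool.Agent.Y200.CY.A
import Pool.Agent.Y200.CB.Flex

/-! The generic point of an irreducible plane cubic is smooth and not a flex (helper604). -/

set_option autoImplicit false
set_option linter.unusedSectionVars false
set_option linter.unusedSimpArgs false

namespace Pool.Agent.Y200.CY.B

open MvPolynomial Pool.Agent.Y200.CB Pool.Agent.Y200.CY Pool.Agent.Y200.CY.A

section base

variable {E : Type} [Field E] [CharZero E] {Λ : Type} [Field Λ] [Algebra E Λ]

/-- constants in the closure of one element -/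
theorem alg_of_der {u m : Λ} (hu : Transcendental E u) (D : Derivation E Λ Λ) (hDu : D u = 1)
    (hm : m ∈ cl E (Set.range ![u])) (hDm : D m = 0) : IsAlgebraic E m := by
  by_contra hcon
  have h1 : AlgebraicIndependent E ![m] := (algebraicIndependent_unique_type_iff).2 hcon
  by_cases h2 : u ∈ cl E (Set.range ![m])
  · have h3 : D u = 0 := by
      refine der_cl D ?_ h2
      rintro _ ⟨i, rfl⟩
      fin_cases i
      exact hDm
    rw [hDu] at h3
    exact one_ne_zero h3
  · have h3 : AlgebraicIndependent E ![u, m] := indep_of_notMem h1 h2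
    refine not_indep_of_rank (k := E) ![u, m] ![u, u] h3 ?_ (i := 0) (j := 1) (by decide) rfl
    have hle : cl E (Set.range ![u]) ≤ cl E (Set.range ![u, u]) := by
      apply cl_le_cl
      rintro _ ⟨i, rfl⟩
      fin_cases i
      exact subset_cl _ ⟨0, rfl⟩
    intro i
    fin_cases i
    · exact subset_cl _ ⟨0, rfl⟩
    · exact hle hm

end base

theorem stmB : StmA → StmB := by
  intro hA E Λ _ _ _ _ _ c hirr hc u v h hne
  have hu := trans_u c hirr hc u v h hne
  have hv := trans_v c hirr hc u v h hne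
  have two : (2 : E) ≠ 0 := two_ne_zero
  have three : (3 : E) ≠ 0 := three_ne_zero
  have hcharΛ : CharZero Λ := charZero_of_injective_algebraMap (algebraMap E Λ).injective
  have twoΛ : (2 : Λ) ≠ 0 := two_ne_zero
  have hl0 : ∀ l : E, l * c.c30 = 0 → l * c.c21 = 0 → l * c.c12 = 0 → l * c.c03 = 0 → l = 0 := by
    intro l h1 h2 h3 h4
    by_contra hl
    exact hc ⟨(mul_eq_zero.1 h1).resolve_left hl, (mul_eq_zero.1 h2).resolve_left hl,
      (mul_eq_zero.1 h3).resolve_left hl, (mul_eq_zero.1 h4).resolve_left hl⟩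
  have hd1 : (c.map (algebraMap E Λ)).d1 1 u v ≠ 0 := by
    intro h0
    obtain ⟨l, hl⟩ := hA E Λ c hirr hc u v h hne
      ⟨c.c10, 2 * c.c20, c.c11, 3 * c.c30, 2 * c.c21, c.c12, 0, 0, 0, 0⟩ (by
        simp only [Cub.d1, Cub.map] at h0
        simp only [Cub.ev, Cub.map, map_mul, map_ofNat, map_zero]
        linear_combination h0)
    have l3 : 3 * c.c30 = l * c.c20 := hl 3
    have l4 : 2 * c.c21 = l * c.c11 := hl 4
    have l5 : c.c12 = l * c.c02 := hl 5
    have l6 : (0 : E) = l * c.c30 := hl 6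
    have l7 : (0 : E) = l * c.c21 := hl 7
    have l8 : (0 : E) = l * c.c12 := hl 8
    have l9 : (0 : E) = l * c.c03 := hl 9
    have hl' := hl0 l l6.symm l7.symm l8.symm l9.symm
    rw [hl', zero_mul] at l3 l4 l5
    have l0 : c.c10 = l * c.c00 := hl 0
    have l1 : 2 * c.c20 = l * c.c10 := hl 1
    have l2 : c.c11 = l * c.c01 := hl 2
    rw [hl', zero_mul] at l0 l1 l2
    have e30 := (mul_eq_zero.1 l3).resolve_left three
    have e21 := (mul_eq_zero.1 l4).resolve_left two
    have e20 := (mul_eq_zero.1 l1).resolve_left two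
    have h1 := h
    simp only [Cub.ev, Cub.map, l0, l2, l5, e30, e21, e20, map_zero] at h1
    obtain ⟨-, -, -, e03⟩ := cub_zero hv c.c00 c.c01 c.c02 c.c03 (by linear_combination h1)
    exact hc ⟨e30, e21, l5, e03⟩
  have hd2 : (c.map (algebraMap E Λ)).d2 1 u v ≠ 0 := by
    intro h0
    obtain ⟨l, hl⟩ := hA E Λ c hirr hc u v h hne
      ⟨c.c01, c.c11, 2 * c.c02, c.c21, 2 * c.c12, 3 * c.c03, 0, 0, 0, 0⟩ (by
        simp only [Cub.d2, Cub.map] at h0
        simp only [Cub.ev, Cub.map, map_mul, map_ofNat, map_zero]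
        linear_combination h0)
    have l6 : (0 : E) = l * c.c30 := hl 6
    have l7 : (0 : E) = l * c.c21 := hl 7
    have l8 : (0 : E) = l * c.c12 := hl 8
    have l9 : (0 : E) = l * c.c03 := hl 9
    have hl' := hl0 l l6.symm l7.symm l8.symm l9.symm
    have l0 : c.c01 = l * c.c00 := hl 0
    have l1 : c.c11 = l * c.c10 := hl 1
    have l2 : 2 * c.c02 = l * c.c01 := hl 2
    have l3 : c.c21 = l * c.c20 := hl 3
    have l4 : 2 * c.c12 = l * c.c11 := hl 4
    have l5 : 3 * c.c03 = l * c.c02 := hl 5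
    rw [hl', zero_mul] at l0 l1 l2 l3 l4 l5
    have e03 := (mul_eq_zero.1 l5).resolve_left three
    have e12 := (mul_eq_zero.1 l4).resolve_left two
    have e02 := (mul_eq_zero.1 l2).resolve_left two
    have h1 := h
    simp only [Cub.ev, Cub.map, l0, l1, l3, e03, e12, e02, map_zero] at h1
    obtain ⟨-, -, -, e30⟩ := cub_zero hu c.c00 c.c10 c.c20 c.c30 (by linear_combination h1)
    exact hc ⟨e30, l3, e12, e03⟩
  refine ⟨hd1, hd2, fun hf => ?_⟩
  -- the derivation
  obtain ⟨D, hD⟩ := CB.exists_der (L := E) (K := Λ) ![u]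
    ((algebraicIndependent_unique_type_iff).2 hu) (fun _ => 1)
  have hDu : D u = 1 := hD 0
  have hDc : ∀ e : E, D (algebraMap E Λ e) = 0 := fun e => D.map_algebraMap e
  obtain ⟨m, hm⟩ : ∃ m, m = D v := ⟨_, rfl⟩
  have hD2 : ∀ z : Λ, D (z ^ 2) = 2 * z * D z := by
    intro z
    rw [pow_two, D.leibniz, smul_eq_mul]
    ring
  have hD3 : ∀ z : Λ, D (z ^ 3) = 3 * z ^ 2 * D z := by
    intro z
    rw [pow_succ, D.leibniz, hD2, smul_eq_mul, smul_eq_mul]
    ring
  have hD2' : D (2 : Λ) = 0 := by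
    have := D.map_natCast 2
    simpa using this
  have hD3' : D (3 : Λ) = 0 := by
    have := D.map_natCast 3
    simpa using this
  obtain ⟨a1, ha1⟩ : ∃ a1, a1 = (c.map (algebraMap E Λ)).d1 1 u v := ⟨_, rfl⟩
  obtain ⟨a2, ha2⟩ : ∃ a2, a2 = (c.map (algebraMap E Λ)).d2 1 u v := ⟨_, rfl⟩
  have r1 : a1 + a2 * m = 0 := by
    have h1 := congrArg D h
    simp only [Cub.ev, Cub.map, map_add, D.leibniz, hD2, hD3, hDc, hDu, ← hm, smul_eq_mul,
      map_zero, map_one, one_pow, mul_one, mul_zero, D.map_one_eq_zero] at h1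
    rw [ha1, ha2]
    simp only [Cub.d1, Cub.d2, Cub.map]
    linear_combination h1
  have r2 : D a1 = 2 * (c.map (algebraMap E Λ)).b11 u v +
      (c.map (algebraMap E Λ)).b12 u v * m := by
    rw [ha1]
    simp only [Cub.d1, Cub.map, Cub.b11, Cub.b12, map_add, D.leibniz, hD2, hDc, hDu, ← hm,
      smul_eq_mul, one_pow, mul_one, mul_zero, D.map_one_eq_zero, hD2', hD3']
    ring
  have r3 : D a2 = (c.map (algebraMap E Λ)).b12 u v +
      2 * (c.map (algebraMap E Λ)).b22 u v * m := by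
    rw [ha2]
    simp only [Cub.d2, Cub.map, Cub.b22, Cub.b12, map_add, D.leibniz, hD2, hDc, hDu, ← hm,
      smul_eq_mul, one_pow, mul_one, mul_zero, D.map_one_eq_zero, hD2', hD3']
    ring
  have r4 : a2 * D m = 0 := by
    have h1 := congrArg D r1
    rw [map_add, D.leibniz, smul_eq_mul, smul_eq_mul, r2, r3, map_zero] at h1
    have h2 : a2 ^ 2 * ((c.map (algebraMap E Λ)).b11 u v + m * (c.map (algebraMap E Λ)).b12 u v +
        m ^ 2 * (c.map (algebraMap E Λ)).b22 u v) = 0 := by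
      have h3 : (c.map (algebraMap E Λ)).flex u v = a2 ^ 2 * (c.map (algebraMap E Λ)).b11 u v -
          a1 * a2 * (c.map (algebraMap E Λ)).b12 u v +
          a1 ^ 2 * (c.map (algebraMap E Λ)).b22 u v := by
        rw [ha1, ha2, Cub.flex]
      rw [hf] at h3
      have h4 : a1 = -(a2 * m) := by linear_combination r1
      rw [h4] at h3
      linear_combination -h3
    have h3 := (mul_eq_zero.1 h2).resolve_left (pow_ne_zero 2 (ha2 ▸ hd2))
    linear_combination h1 - 2 * h3
  have hDm : D m = 0 := (mul_eq_zero.1 r4).resolve_left (ha2 ▸ hd2)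
  -- the slope and the intercept are constants
  have hu' : u ∈ cl E (Set.range ![u]) := subset_cl _ ⟨0, rfl⟩
  have hk : ∀ e : E, algebraMap E Λ e ∈ cl E (Set.range ![u]) := fun e =>
    (cl E (Set.range ![u])).algebraMap_mem e
  have hv' : v ∈ cl E (Set.range ![u]) := by
    by_contra hv'
    obtain ⟨e0, e1, e2, e3⟩ := cubic_zero (k := E) (S := Set.range ![u]) (t := v)
      (c0 := algebraMap E Λ c.c00 + algebraMap E Λ c.c10 * u + algebraMap E Λ c.c20 * u ^ 2 +
        algebraMap E Λ c.c30 * u ^ 3)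
      (c1 := algebraMap E Λ c.c01 + algebraMap E Λ c.c11 * u + algebraMap E Λ c.c21 * u ^ 2)
      (c2 := algebraMap E Λ c.c02 + algebraMap E Λ c.c12 * u)
      (c3 := algebraMap E Λ c.c03)
      (add_mem (add_mem (add_mem (hk _) (mul_mem (hk _) hu')) (mul_mem (hk _) (pow_mem hu' 2)))
        (mul_mem (hk _) (pow_mem hu' 3)))
      (add_mem (add_mem (hk _) (mul_mem (hk _) hu')) (mul_mem (hk _) (pow_mem hu' 2)))
      (add_mem (hk _) (mul_mem (hk _) hu')) (hk _) hv' (by
        simp only [Cub.ev, Cub.map] at h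
        linear_combination h)
    obtain ⟨-, -, -, e30⟩ := cub_zero hu c.c00 c.c10 c.c20 c.c30 (by linear_combination e0)
    obtain ⟨-, -, e21, -⟩ := cub_zero hu c.c01 c.c11 c.c21 0 (by
      rw [map_zero]
      linear_combination e1)
    obtain ⟨-, e12, -, -⟩ := cub_zero hu c.c02 c.c12 0 0 (by
      rw [map_zero]
      linear_combination e2)
    have e03 : c.c03 = 0 := (algebraMap E Λ).injective (by rw [e3, map_zero])
    exact hc ⟨e30, e21, e12, e03⟩
  have hmcl : m ∈ cl E (Set.range ![u]) := by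
    have hd1' : a1 ∈ cl E (Set.range ![u]) := by
      rw [ha1]
      simp only [Cub.d1, Cub.map]
      have h2 : (2 : Λ) ∈ cl E (Set.range ![u]) := ofNat_mem _ 2
      have h3 : (3 : Λ) ∈ cl E (Set.range ![u]) := ofNat_mem _ 3
      have h1 : (1 : Λ) ∈ cl E (Set.range ![u]) := one_mem _
      exact add_mem (add_mem (mul_mem (hk _) (pow_mem h1 2))
        (mul_mem (add_mem (mul_mem (mul_mem h2 (hk _)) hu') (mul_mem (hk _) hv')) h1))
        (add_mem (add_mem (mul_mem (mul_mem h3 (hk _)) (pow_mem hu' 2))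
          (mul_mem (mul_mem (mul_mem h2 (hk _)) hu') hv')) (mul_mem (hk _) (pow_mem hv' 2)))
    have hd2' : a2 ∈ cl E (Set.range ![u]) := by
      rw [ha2]
      simp only [Cub.d2, Cub.map]
      have h2 : (2 : Λ) ∈ cl E (Set.range ![u]) := ofNat_mem _ 2
      have h3 : (3 : Λ) ∈ cl E (Set.range ![u]) := ofNat_mem _ 3
      have h1 : (1 : Λ) ∈ cl E (Set.range ![u]) := one_mem _
      exact add_mem (add_mem (mul_mem (hk _) (pow_mem h1 2))
        (mul_mem (add_mem (mul_mem (hk _) hu') (mul_mem (mul_mem h2 (hk _)) hv')) h1))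
        (add_mem (add_mem (mul_mem (hk _) (pow_mem hu' 2))
          (mul_mem (mul_mem (mul_mem h2 (hk _)) hu') hv'))
          (mul_mem (mul_mem h3 (hk _)) (pow_mem hv' 2)))
    have hm' : m = -a1 / a2 := by
      rw [eq_div_iff (ha2 ▸ hd2)]
      linear_combination r1
    rw [hm']
    exact div_mem (neg_mem hd1') hd2'
  obtain ⟨m₀, hm₀⟩ := mem_range (alg_of_der hu D hDu hmcl hDm)
  obtain ⟨n₀, hn₀⟩ := mem_range (alg_of_der hu D hDu (sub_mem hv' (mul_mem hmcl hu'))
    (show D (v - m * u) = 0 by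
      rw [map_sub, D.leibniz, hDm, hDu, ← hm, smul_eq_mul, smul_eq_mul]
      ring))
  have hvv : v = algebraMap E Λ m₀ * u + algebraMap E Λ n₀ := by
    rw [← hm₀, ← hn₀]
    ring
  obtain ⟨e0, e1, e2, e3⟩ := cub_zero hu
    (c.c00 + c.c01 * n₀ + c.c02 * n₀ ^ 2 + c.c03 * n₀ ^ 3)
    (c.c10 + c.c01 * m₀ + c.c11 * n₀ + 2 * c.c02 * m₀ * n₀ + c.c12 * n₀ ^ 2 +
      3 * c.c03 * m₀ * n₀ ^ 2)
    (c.c20 + c.c11 * m₀ + c.c02 * m₀ ^ 2 + c.c21 * n₀ + 2 * c.c12 * m₀ * n₀ +
      3 * c.c03 * m₀ ^ 2 * n₀)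
    (c.c30 + c.c21 * m₀ + c.c12 * m₀ ^ 2 + c.c03 * m₀ ^ 3) (by
      rw [hvv] at h
      simp only [Cub.ev, Cub.map] at h
      simp only [map_add, map_mul, map_pow, map_ofNat]
      linear_combination h)
  have hfac : c.aff = (X 1 - (C m₀ * X 0 + C n₀)) * (C c.c01 + C c.c11 * X 0 +
      C c.c21 * X 0 ^ 2 + (C c.c02 + C c.c12 * X 0) * (X 1 + (C m₀ * X 0 + C n₀)) +
      C c.c03 * (X 1 ^ 2 + X 1 * (C m₀ * X 0 + C n₀) + (C m₀ * X 0 + C n₀) ^ 2)) := by
    have f0 := congrArg (C : E → MvPolynomial (Fin 2) E) e0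
    have f1 := congrArg (C : E → MvPolynomial (Fin 2) E) e1
    have f2 := congrArg (C : E → MvPolynomial (Fin 2) E) e2
    have f3 := congrArg (C : E → MvPolynomial (Fin 2) E) e3
    have c2 : (C (2 : E) : MvPolynomial (Fin 2) E) = 2 := map_ofNat C 2
    have c3 : (C (3 : E) : MvPolynomial (Fin 2) E) = 3 := map_ofNat C 3
    simp only [map_add, map_mul, map_pow, map_zero, c2, c3] at f0 f1 f2 f3
    simp only [Cub.aff, Cub.ev, Cub.map]
    linear_combination f0 + X 0 * f1 + X 0 ^ 2 * f2 + X 0 ^ 3 * f3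
  rcases hirr.isUnit_or_isUnit hfac with h1 | h1
  · refine not_unit _ (-n₀) (-m₀) 1 0 0 0 (fun x => ?_) (fun h2 => one_ne_zero h2.2.1) h1
    simp
    ring
  · refine not_unit _ (c.c01 + c.c02 * n₀ + c.c03 * n₀ ^ 2)
      (c.c11 + c.c02 * m₀ + c.c12 * n₀ + 2 * c.c03 * m₀ * n₀) (c.c02 + c.c03 * n₀)
      (c.c21 + c.c12 * m₀ + c.c03 * m₀ ^ 2) (c.c12 + c.c03 * m₀) c.c03
      (fun x => ?_) (fun h2 => ?_) h1
    · simp
      ring
    · obtain ⟨-, -, g3, g4, g5⟩ := h2
      rw [g5, zero_mul, add_zero] at g4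
      rw [g4, g5, zero_mul, zero_mul, add_zero, add_zero] at g3
      rw [g3, g4, g5, zero_mul, zero_mul, zero_mul, add_zero, add_zero, add_zero] at e3
      exact hc ⟨e3, g3, g4, g5⟩

end Pool.Agent.Y200.CY.B
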