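import Pool.Agent.Y200.CY.Stm3
import Pool.Agent.Y200.CY.Gs

/-! The composition with a generic linear map is smooth (project CY; written by helper960). -/

set_option autoImplicit false

namespace Pool.Agent.Y200.CY.Gn

open MvPolynomial Pool.Agent.Y200.CY

/-! ### Smoothness and extensions of fields -/

theorem pns : StmPNS := by
  intro ι _ n k _ _ F hF E _ _ z hz
  classical
  by_contra hcon
  push Not at hcon
  choose s hs2 using hz
  obtain ⟨z', hz'⟩ := Pool.Agent.Y200.CB.null (σ := Pc n ⊕ ι)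
    (Set.range (fun s => rename Sum.inl (pderiv s F)) ∪
      Set.range (fun i : ι => X (Sum.inl ⟨i, s i⟩) * X (Sum.inr i) - 1)) E
    (Sum.elim z (fun i => (z ⟨i, s i⟩)⁻¹)) (by
      rintro p (⟨s0, rfl⟩ | ⟨i, rfl⟩)
      · rw [aeval_rename]
        exact hcon s0
      · simp only [map_sub, map_mul, aeval_X, Sum.elim_inl, Sum.elim_inr, map_one]
        rw [mul_inv_cancel₀ (hs2 i), sub_self])
  obtain ⟨s0, hs0⟩ := hF (fun q => z' (Sum.inl q)) (fun i => ⟨s i, by
    have h1 := hz' _ (Or.inr ⟨i, rfl⟩)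
    simp only [map_sub, map_mul, eval_X, map_one] at h1
    intro h
    change z' (Sum.inl ⟨i, s i⟩) = 0 at h
    rw [h, zero_mul, zero_sub] at h1
    exact neg_ne_zero.2 one_ne_zero h1⟩)
  apply hs0
  have h1 := hz' _ (Or.inl ⟨s0, rfl⟩)
  rw [eval_rename] at h1
  have h2 : aeval (fun q => z' (Sum.inl q)) (pderiv s0 F) =
      eval (z' ∘ Sum.inl) (pderiv s0 F) := by
    rw [← coe_aeval_eq_eval]
    rfl
  rw [h2]
  exact h1

/-! ### The chain rule -/

theorem chain {σ : Type} [Fintype σ] {k A : Type} [CommRing k] [CommRing A] [Algebra k A]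
    (D : Derivation k A A) (z : σ → A) (G : MvPolynomial σ k) :
    D (aeval z G) = ∑ s, aeval z (pderiv s G) * D (z s) := by
  classical
  induction G using MvPolynomial.induction_on with
  | C c => simp
  | add p q hp hq => simp only [map_add, hp, hq, add_mul, Finset.sum_add_distrib]
  | mul_X p i hp =>
    rw [map_mul, D.leibniz, hp, aeval_X]
    have h1 : ∀ s, aeval z (pderiv s (p * X i)) * D (z s) =
        (if s = i then aeval z p * D (z i) else 0) + z i * (aeval z (pderiv s p) * D (z s)) := by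
      intro s
      rw [Derivation.leibniz, map_add, smul_eq_mul, smul_eq_mul, map_mul, map_mul, aeval_X]
      by_cases h : s = i
      · rw [if_pos h, h, pderiv_X_self, map_one]
        ring
      · rw [if_neg h, pderiv_X_of_ne (Ne.symm h), map_zero]
        ring
    simp only [h1, Finset.sum_add_distrib, ← Finset.mul_sum, smul_eq_mul]
    rw [Finset.sum_ite_eq' Finset.univ i, if_pos (Finset.mem_univ i)]

/-! ### Naturality of the map `tau` -/

section nat

variable {a b : ℕ} {R S : Type*} [CommRing R] [CommRing S]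

theorem fm_map (φ : R →+* S) (m : ℕ) (z : Sg a b → R) (β : Bl a b) :
    fm m (fun s => φ (z s)) β = (fm m z β).map φ := by
  unfold fm
  rw [Polynomial.map_sum]
  refine Finset.sum_congr rfl fun s _ => ?_
  rw [Polynomial.map_mul, Polynomial.map_pow, Polynomial.map_X, Polynomial.map_C, map_pow φ]

variable {ι : Type} [DecidableEq ι] {n : ι → ℕ}

theorem tau_map (φ : R →+* S) (ρ : Bl a b → ι) (ε : ι → ℕ) (z : Sg a b → R) (s : Pc n) :
    tau ρ ε (fun s => φ (z s)) s = φ (tau ρ ε z s) := by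
  unfold tau pf
  simp only [fm_map]
  rw [← Polynomial.map_prod, Polynomial.coeff_map]

end nat

/-! ### The map `tau` does not vanish -/

section ne

variable {a b : ℕ} {E : Type*} [Field E]

theorem ix_inj {s s' : Sg a b} (h1 : bl s = bl s') (h2 : ix s = ix s') : s = s' := by
  rcases s with ⟨i, r⟩ | ⟨i, r⟩ <;> rcases s' with ⟨i', r'⟩ | ⟨i', r'⟩ <;>
    simp only [bl, ix, Sum.inl.injEq, Sum.inr.injEq, reduceCtorEq] at h1 h2 ⊢
  · rw [h1, Fin.ext h2]
  · rw [h1, Fin.ext h2]

theorem ix_le (s : Sg a b) : ix s ≤ dg (bl s) - 1 := by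
  rcases s with ⟨i, r⟩ | ⟨i, r⟩
  · have := r.isLt
    simp only [ix, bl, dg]
    omega
  · have := r.isLt
    simp only [ix, bl, dg]
    omega

theorem fm_coeff (m : ℕ) (z : Sg a b → E) (s : Sg a b) :
    (fm m z (bl s)).coeff (ix s) = z s ^ m := by
  unfold fm
  rw [Polynomial.finsetSum_coeff, Finset.sum_eq_single s]
  · rw [Polynomial.coeff_C_mul_X_pow, if_pos rfl]
  · intro s' hs' hne
    rw [Polynomial.coeff_C_mul_X_pow, if_neg]
    intro h
    exact hne (ix_inj (Finset.mem_filter.1 hs').2 h.symm)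
  · intro h
    exact (h (Finset.mem_filter.2 ⟨Finset.mem_univ _, rfl⟩)).elim

theorem fm_ne (m : ℕ) {z : Sg a b → E} (hz : NZ z) (β : Bl a b) : fm m z β ≠ 0 := by
  obtain ⟨s, hs, hs0⟩ := hz β
  intro h
  have h1 := fm_coeff m z s
  rw [hs, h, Polynomial.coeff_zero] at h1
  exact pow_ne_zero _ hs0 h1.symm

theorem fm_deg (m : ℕ) (z : Sg a b → E) (β : Bl a b) : (fm m z β).natDegree ≤ dg β - 1 := by
  unfold fm
  refine Polynomial.natDegree_sum_le_of_forall_le _ _ fun s hs => ?_
  refine (Polynomial.natDegree_C_mul_X_pow_le _ _).trans ?_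
  rw [← (Finset.mem_filter.1 hs).2]
  exact ix_le s

variable {ι : Type} [DecidableEq ι] {n : ι → ℕ}

theorem tau_ne {ρ : Bl a b → ι} (hn : ∀ i, ∑ β with ρ β = i, (dg β - 1) = n i) (ε : ι → ℕ)
    {z : Sg a b → E} (hz : NZ z) (i : ι) : ∃ r : Fin (n i + 1), tau ρ ε z ⟨i, r⟩ ≠ 0 := by
  have h0 : pf ρ ε z i ≠ 0 := Finset.prod_ne_zero_iff.2 fun β _ => fm_ne _ hz β
  have h1 : (pf ρ ε z i).natDegree ≤ n i := by
    rw [← hn i]
    exact (Polynomial.natDegree_prod_le _ _).trans (Finset.sum_le_sum fun β _ => fm_deg _ z β)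
  refine ⟨⟨(pf ρ ε z i).natDegree, Nat.lt_succ_of_le h1⟩, ?_⟩
  change (pf ρ ε z i).coeff (pf ρ ε z i).natDegree ≠ 0
  exact Polynomial.leadingCoeff_ne_zero.2 h0

end ne

/-! ### Generic matrices -/

theorem det_ne {ι : Type} {n : ι → ℕ} {k Λ : Type} [Field k] [Field Λ] [Algebra k Λ]
    {γ : (i : ι) → Matrix (Fin (n i + 1)) (Fin (n i + 1)) Λ}
    (hγ : AlgebraicIndependent k (fun q : (i : ι) × (Fin (n i + 1) × Fin (n i + 1)) =>
      γ q.1 q.2.1 q.2.2)) (i : ι) : (γ i).det ≠ 0 := by
  have h1 : AlgebraicIndependent k (fun p : Fin (n i + 1) × Fin (n i + 1) => γ i p.1 p.2) :=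
    hγ.comp (fun p => ⟨i, p⟩) (fun p q h => by simpa using h)
  have h2 := Matrix.mvPolynomialX_mapMatrix_aeval k (γ i)
  intro h
  apply Matrix.det_mvPolynomialX_ne_zero (Fin (n i + 1)) k
  apply h1
  rw [map_zero, AlgHom.map_det]
  change (((aeval fun p : Fin (n i + 1) × Fin (n i + 1) => γ i p.1 p.2).mapMatrix
    (Matrix.mvPolynomialX (Fin (n i + 1)) (Fin (n i + 1)) k))).det = 0
  rw [h2, h]

/-! ### The theorem -/

theorem gn (hPH : StmPH) : StmGN := by
  intro a b ι _ _ n d ρ ε hd hd0 hn0 hn k Λ _ _ _ _ F hF hsm γ hγ z hz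
  classical
  have hchar : CharZero Λ := charZero_of_injective_algebraMap (algebraMap k Λ).injective
  by_contra hcon
  push Not at hcon
  set F' := pb γ ρ ε (map (algebraMap k Λ) F) with hF'
  -- the point
  set w : Pc n → Λ := tg γ ρ ε z with hw
  set T : Pc n → MvPolynomial (Sg a b) k := fun s => tau ρ ε X s with hT
  have htau : ∀ s : Pc n, tau ρ ε z s = aeval z (T s) := by
    intro s
    have h1 := tau_map ((aeval z : MvPolynomial (Sg a b) k →ₐ[k] Λ) :
      MvPolynomial (Sg a b) k →+* Λ) ρ ε X s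
    have h2 : (fun s => ((aeval z : MvPolynomial (Sg a b) k →ₐ[k] Λ) :
      MvPolynomial (Sg a b) k →+* Λ) (X s)) = z := by
      funext s
      exact aeval_X z s
    rw [h2] at h1
    exact h1
  have htX : ∀ s : Pc n, tau ρ ε (X : Sg a b → MvPolynomial (Sg a b) Λ) s =
      map (algebraMap k Λ) (T s) := by
    intro s
    have h1 := tau_map (map (algebraMap k Λ) : MvPolynomial (Sg a b) k →+*
      MvPolynomial (Sg a b) Λ) ρ ε X s
    have h2 : (fun s => (map (algebraMap k Λ) : MvPolynomial (Sg a b) k →+*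
      MvPolynomial (Sg a b) Λ) (X s)) = X := by
      funext s
      exact map_X _ s
    rw [h2] at h1
    exact h1
  set GX : Pc n → MvPolynomial (Sg a b) Λ := tg (fun i => (γ i).map C) ρ ε X with hGX
  have hGXs : ∀ s : Pc n, GX s = ∑ r, C (γ s.1 s.2 r) * map (algebraMap k Λ) (T ⟨s.1, r⟩) := by
    intro s
    rw [hGX]
    unfold tg
    refine Finset.sum_congr rfl fun r _ => ?_
    rw [htX]
    rfl
  have hF'2 : F' = aeval GX F := by
    rw [hF', pb, aeval_map_algebraMap]
  have hws : ∀ s : Pc n, w s = ∑ r, γ s.1 s.2 r * aeval z (T ⟨s.1, r⟩) := by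
    intro s
    rw [hw]
    unfold tg
    refine Finset.sum_congr rfl fun r _ => ?_
    rw [htau]
  have hzT : ∀ p : MvPolynomial (Sg a b) k, aeval z (map (algebraMap k Λ) p) = aeval z p :=
    fun p => aeval_map_algebraMap Λ z p
  have hGw : ∀ s : Pc n, aeval z (GX s) = w s := by
    intro s
    rw [hGXs, hws, map_sum]
    refine Finset.sum_congr rfl fun r _ => ?_
    rw [map_mul, hzT, aeval_C, Algebra.algebraMap_self, RingHom.id_apply]
  have hcomp : ∀ p : MvPolynomial (Pc n) k, aeval z (aeval GX p) = aeval w p := by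
    intro p
    have h1 := comp_aeval_apply (((aeval z : MvPolynomial (Sg a b) Λ →ₐ[Λ] Λ).restrictScalars k :
      MvPolynomial (Sg a b) Λ →ₐ[k] Λ)) (f := GX) p
    change aeval z (aeval GX p) = _ at h1
    rw [h1]
    congr 1
    congr 1
    funext s
    exact hGw s
  -- the derivatives of the composition
  have hder : ∀ s' : Sg a b, aeval z (pderiv s' F') =
      ∑ s, aeval w (pderiv s F) * ∑ r, γ s.1 s.2 r * aeval z (pderiv s' (T ⟨s.1, r⟩)) := by
    intro s'
    have h1 := chain ((pderiv s' : Derivation Λ (MvPolynomial (Sg a b) Λ)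
      (MvPolynomial (Sg a b) Λ)).restrictScalars k) GX F
    change pderiv s' (aeval GX F) = _ at h1
    rw [hF'2, h1, map_sum]
    refine Finset.sum_congr rfl fun s _ => ?_
    rw [map_mul, hcomp]
    congr 1
    change aeval z (pderiv s' (GX s)) = _
    rw [hGXs, map_sum, map_sum]
    refine Finset.sum_congr rfl fun r _ => ?_
    rw [Derivation.leibniz, pderiv_C, smul_zero, add_zero, smul_eq_mul, pderiv_map, map_mul, hzT,
      aeval_C, Algebra.algebraMap_self, RingHom.id_apply]
  -- the point is a point of the product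
  have hPNZ : PNZ w := by
    intro i
    obtain ⟨r, hr⟩ := tau_ne hn ε hz i
    by_contra h
    push Not at h
    apply hr
    have h1 : (γ i).mulVec (fun r => tau ρ ε z ⟨i, r⟩) = 0 := by
      funext r'
      exact h r'
    exact congrFun (Matrix.eq_zero_of_mulVec_eq_zero (det_ne hγ i) h1) r
  obtain ⟨⟨i0, r0⟩, hs0⟩ := hsm w hPNZ
  -- the relation of Euler
  have hex : ∃ β, ρ β = i0 := by
    by_contra h
    push Not at h
    apply hn0 i0
    rw [← hn i0]
    refine Finset.sum_eq_zero fun β hβ => ?_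
    exact absurd (Finset.mem_filter.1 hβ).2 (h β)
  obtain ⟨β, -⟩ := hex
  have hFh : PHom d (map (algebraMap k Λ) F) := fun m hm =>
    hF m (support_map_subset _ _ hm)
  have hMH : MHom F' := hPH a b ι n d ρ ε hd Λ γ _ hFh
  have hF0 : aeval w F = 0 := by
    have h1 := Pool.Agent.Y200.CY.Gs.euler hMH z β
    rw [Finset.sum_eq_zero (fun s _ => by rw [hcon s, mul_zero])] at h1
    have h2 := (mul_eq_zero.1 h1.symm).resolve_left (Nat.cast_ne_zero.2
      (Pool.Agent.Y200.CY.Gs.dg_ne β))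
    rw [hF'2, hcomp] at h2
    exact h2
  -- the derivation
  obtain ⟨r1, hr1⟩ := tau_ne hn ε hz i0
  obtain ⟨D, hD⟩ : ∃ D : Derivation k Λ Λ,
      ∀ q : (i : ι) × (Fin (n i + 1) × Fin (n i + 1)), D (γ q.1 q.2.1 q.2.2) =
        if q = ⟨i0, (r0, r1)⟩ then 1 else 0 := by
    have e := (Fintype.equivFin ((i : ι) × (Fin (n i + 1) × Fin (n i + 1)))).symm
    obtain ⟨D, hD⟩ := Pool.Agent.Y200.CB.exists_der
      (fun l => γ (e l).1 (e l).2.1 (e l).2.2) (hγ.comp e e.injective)
      (fun l => if e l = ⟨i0, (r0, r1)⟩ then 1 else 0)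
    refine ⟨D, fun q => ?_⟩
    have h4 : D (γ (e (e.symm q)).1 (e (e.symm q)).2.1 (e (e.symm q)).2.2) =
        if e (e.symm q) = ⟨i0, (r0, r1)⟩ then 1 else 0 := hD (e.symm q)
    rw [Equiv.apply_symm_apply] at h4
    exact h4
  have h1 := chain D w F
  rw [hF0, map_zero] at h1
  have h2 : ∀ s : Pc n, D (w s) = (if s = ⟨i0, r0⟩ then aeval z (T ⟨i0, r1⟩) else 0) +
      ∑ s', (∑ r, γ s.1 s.2 r * aeval z (pderiv s' (T ⟨s.1, r⟩))) * D (z s') := by
    intro s
    rw [hws, map_sum]
    have h3 : ∀ r, D (γ s.1 s.2 r * aeval z (T ⟨s.1, r⟩)) =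
        (if (⟨s.1, (s.2, r)⟩ : (i : ι) × (Fin (n i + 1) × Fin (n i + 1))) = ⟨i0, (r0, r1)⟩ then
          aeval z (T ⟨s.1, r⟩) else 0) +
        ∑ s', γ s.1 s.2 r * aeval z (pderiv s' (T ⟨s.1, r⟩)) * D (z s') := by
      intro r
      have h4 := hD ⟨s.1, (s.2, r)⟩
      rw [D.leibniz, h4, chain D z (T ⟨s.1, r⟩), smul_eq_mul, smul_eq_mul, Finset.mul_sum,
        add_comm]
      congr 1
      · split_ifs <;> simp
      · exact Finset.sum_congr rfl fun s' _ => by ring
    simp only [h3, Finset.sum_add_distrib]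
    congr 1
    · obtain ⟨i, r⟩ := s
      by_cases h : (⟨i, r⟩ : Pc n) = ⟨i0, r0⟩
      · obtain ⟨rfl, h5⟩ := Sigma.mk.inj_iff.1 h
        obtain rfl := eq_of_heq h5
        rw [if_pos rfl, Finset.sum_eq_single r1]
        · rw [if_pos rfl]
        · intro r' _ hr'
          rw [if_neg]
          intro h6
          apply hr'
          simpa using h6
        · intro h6
          exact absurd (Finset.mem_univ _) h6
      · rw [if_neg h]
        refine Finset.sum_eq_zero fun r' _ => ?_
        rw [if_neg]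
        intro h6
        apply h
        obtain ⟨rfl, h7⟩ := Sigma.mk.inj_iff.1 h6
        have h8 := eq_of_heq h7
        rw [Prod.mk.injEq] at h8
        exact Sigma.ext rfl (heq_of_eq h8.1)
    · rw [Finset.sum_comm]
      exact Finset.sum_congr rfl fun s' _ => by rw [Finset.sum_mul]
  have h3 : ∑ s, aeval w (pderiv s F) * D (w s) =
      aeval w (pderiv ⟨i0, r0⟩ F) * aeval z (T ⟨i0, r1⟩) +
      ∑ s', aeval z (pderiv s' F') * D (z s') := by
    simp only [h2, mul_add, Finset.sum_add_distrib]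
    congr 1
    · rw [Finset.sum_eq_single ⟨i0, r0⟩]
      · rw [if_pos rfl]
      · intro s _ hs
        rw [if_neg hs, mul_zero]
      · intro h
        exact absurd (Finset.mem_univ _) h
    · simp only [hder, Finset.mul_sum, Finset.sum_mul]
      rw [Finset.sum_comm]
      refine Finset.sum_congr rfl fun s' _ => ?_
      refine Finset.sum_congr rfl fun s _ => ?_
      refine Finset.sum_congr rfl fun r _ => ?_
      ring
  rw [h3, Finset.sum_eq_zero (f := fun s' => aeval z (pderiv s' F') * D (z s'))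
    (fun s _ => by rw [hcon s, zero_mul]), add_zero] at h1
  rcases mul_eq_zero.1 h1.symm with h4 | h4
  · exact hs0 h4
  · rw [← htau] at h4
    exact hr1 h4

end Pool.Agent.Y200.CY.Gn
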