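import Pool.Agent.Y200.CY.Stm3
import Pool.Agent.H552R3.Tsen.Zero

/-! The affine equation of a smooth hypersurface in a product of projective spaces is reduced and
prime to all linear forms of the factors (helper87, project CY). -/

set_option autoImplicit false

namespace Pool.Agent.Y200.CY.Nl

open MvPolynomial Pool.Agent.Y200.CY

section general

variable {k : Type} [Field k]

/-- restriction of a polynomial to a line -/
noncomputable def ln {σ : Type} (z w : σ → k) (F : MvPolynomial σ k) : Polynomial k :=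
  aeval (fun s => Polynomial.C (z s) + Polynomial.X * Polynomial.C (w s)) F

lemma eval_ln {σ : Type} (z w : σ → k) (F : MvPolynomial σ k) (t : k) :
    (ln z w F).eval t = eval (fun s => z s + t * w s) F := by
  unfold ln
  induction F using MvPolynomial.induction_on with
  | C c => simp
  | add p q hp hq => simp only [map_add, Polynomial.eval_add, hp, hq]
  | mul_X p i hp =>
    rw [map_mul, Polynomial.eval_mul, hp, aeval_X, map_mul, eval_X, Polynomial.eval_add,
      Polynomial.eval_mul, Polynomial.eval_X, Polynomial.eval_C, Polynomial.eval_C]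

lemma der_ln {σ : Type} [Fintype σ] (z w : σ → k) (F : MvPolynomial σ k) :
    Polynomial.derivative (ln z w F) = ∑ s, ln z w (pderiv s F) * Polynomial.C (w s) := by
  classical
  unfold ln
  induction F using MvPolynomial.induction_on with
  | C c => simp
  | add p q hp hq => simp only [map_add, hp, hq, add_mul, Finset.sum_add_distrib]
  | mul_X p i hp =>
    rw [map_mul, Polynomial.derivative_mul, hp, aeval_X]
    have h0 : Polynomial.derivative (Polynomial.C (z i) + Polynomial.X * Polynomial.C (w i)) =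
        Polynomial.C (w i) := by
      rw [Polynomial.derivative_add, Polynomial.derivative_C, zero_add,
        Polynomial.derivative_mul, Polynomial.derivative_X, Polynomial.derivative_C, one_mul,
        mul_zero, add_zero]
    rw [h0]
    obtain ⟨g, hg⟩ : ∃ g : σ → Polynomial k, g = fun s =>
      Polynomial.C (z s) + Polynomial.X * Polynomial.C (w s) := ⟨_, rfl⟩
    rw [← hg]
    have h1 : ∀ s, aeval g (pderiv s (p * X i)) * Polynomial.C (w s) =
        (if s = i then aeval g p * Polynomial.C (w i) else 0) +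
          g i * (aeval g (pderiv s p) * Polynomial.C (w s)) := by
      intro s
      rw [Derivation.leibniz, map_add, smul_eq_mul, smul_eq_mul, map_mul, map_mul, aeval_X]
      by_cases h : s = i
      · rw [if_pos h, h, pderiv_X_self, map_one]
        ring
      · rw [if_neg h, pderiv_X_of_ne (Ne.symm h), map_zero]
        ring
    have h2 : Polynomial.C (z i) + Polynomial.X * Polynomial.C (w i) = g i := by rw [hg]
    rw [h2]
    simp only [h1, Finset.sum_add_distrib, ← Finset.mul_sum]
    rw [Finset.sum_ite_eq' Finset.univ i, if_pos (Finset.mem_univ i)]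
    ring

/-- the derivative along a line on which the polynomial vanishes -/
lemma der_zero [Infinite k] {σ : Type} [Fintype σ] (z w : σ → k) (F : MvPolynomial σ k)
    (h : ∀ t : k, eval (fun s => z s + t * w s) F = 0) :
    ∑ s, eval z (pderiv s F) * w s = 0 := by
  have h1 : ln z w F = 0 := by
    apply Polynomial.funext
    intro t
    rw [eval_ln, h t, Polynomial.eval_zero]
  have h2 := congrArg (Polynomial.eval 0) (der_ln z w F)
  rw [h1, Polynomial.derivative_zero, Polynomial.eval_zero, Polynomial.eval_finsetSum] at h2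
  rw [h2]
  refine Finset.sum_congr rfl fun s _ => ?_
  rw [Polynomial.eval_mul, eval_ln, Polynomial.eval_C]
  congr 2
  congr 1
  funext s
  rw [zero_mul, add_zero]

/-- vanishing at all but finitely many points of a line -/
lemma line_zero [Infinite k] {σ ι : Type} [Fintype ι] (z w : σ → k) (F : MvPolynomial σ k)
    (o : ι → σ)
    (h : ∀ t : k, (∀ i, z (o i) + t ≠ 0) → eval (fun s => z s + t * w s) F = 0) :
    eval z F = 0 := by
  have h1 : ln z w F * ∏ i, (Polynomial.X + Polynomial.C (z (o i))) = 0 := by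
    apply Polynomial.funext
    intro t
    rw [Polynomial.eval_mul, eval_ln, Polynomial.eval_zero]
    by_cases ht : ∀ i, z (o i) + t ≠ 0
    · rw [h t ht, zero_mul]
    · push Not at ht
      obtain ⟨i, hi⟩ := ht
      rw [Polynomial.eval_prod, Finset.prod_eq_zero (Finset.mem_univ i), mul_zero]
      rw [Polynomial.eval_add, Polynomial.eval_X, Polynomial.eval_C, add_comm]
      exact hi
  have h2 : ln z w F = 0 := by
    refine (mul_eq_zero.1 h1).resolve_right ?_
    exact (Polynomial.monic_prod_of_monic _ _ fun i _ => Polynomial.monic_X_add_C _).ne_zero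
  have h3 := eval_ln z w F 0
  rw [h2, Polynomial.eval_zero] at h3
  rw [h3]
  congr 2
  funext s
  rw [zero_mul, add_zero]

/-- a zero of a polynomial which is not a unit -/
lemma exists_zero [IsAlgClosed k] {N : ℕ} (g : MvPolynomial (Fin N) k) (hg : ¬ IsUnit g) :
    ∃ y : Fin N → k, eval y g = 0 := by
  by_contra hcon
  push Not at hcon
  apply hg
  have h1 : zeroLocus k (Ideal.span {g}) = ∅ := by
    ext y
    simp only [Set.mem_empty_iff_false, iff_false]
    intro hy
    exact hcon y (hy g (Ideal.subset_span rfl))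
  have h2 := vanishingIdeal_zeroLocus_eq_radical (K := k) (Ideal.span {g})
  rw [h1] at h2
  have h3 : (1 : MvPolynomial (Fin N) k) ∈ (Ideal.span {g}).radical := by
    rw [← h2]
    intro y hy
    exact absurd hy (Set.notMem_empty y)
  have h4 : Ideal.span {g} = ⊤ := by
    rw [← Ideal.radical_eq_top]
    exact (Ideal.eq_top_iff_one _).2 h3
  exact Ideal.span_singleton_eq_top.1 h4

end general

section prod

variable {ι : Type} [Fintype ι] {n d : ι → ℕ} {k : Type} [Field k]

/-- multihomogeneity -/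
lemma scale {F : MvPolynomial (Pc n) k} (hF : PHom d F) (l : ι → k) (z : Pc n → k) :
    eval (fun s => l s.1 * z s) F = (∏ i, l i ^ d i) * eval z F := by
  rw [eval_eq', eval_eq', Finset.mul_sum]
  refine Finset.sum_congr rfl fun m hm => ?_
  have h1 : ∏ s : Pc n, (l s.1 * z s) ^ m s = (∏ i, l i ^ d i) * ∏ s : Pc n, z s ^ m s := by
    simp only [mul_pow, Finset.prod_mul_distrib]
    congr 1
    rw [Fintype.prod_sigma]
    refine Finset.prod_congr rfl fun i _ => ?_
    rw [← hF m hm i]
    exact Finset.prod_pow_eq_pow_sum Finset.univ (fun r => m ⟨i, r⟩) (l i)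
  rw [h1]
  ring

/-- a polynomial of positive degree in a block vanishes if the coordinates of the block vanish -/
lemma block_zero {P : MvPolynomial (Pc n) k} {j : ι} {D : ℕ} (hD : D ≠ 0)
    (hP : ∀ m ∈ P.support, ∑ r, m ⟨j, r⟩ = D) (z : Pc n → k) (hz : ∀ r, z ⟨j, r⟩ = 0) :
    eval z P = 0 := by
  rw [eval_eq']
  refine Finset.sum_eq_zero fun m hm => ?_
  obtain ⟨r, hr⟩ : ∃ r, m ⟨j, r⟩ ≠ 0 := by
    by_contra hcon
    push Not at hcon
    apply hD
    rw [← hP m hm]
    exact Finset.sum_eq_zero fun r _ => hcon r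
  rw [Finset.prod_eq_zero (Finset.mem_univ (⟨j, r⟩ : Pc n)) (by rw [hz r, zero_pow hr]), mul_zero]

lemma pderiv_block {F : MvPolynomial (Pc n) k} (hF : PHom d F) {i j : ι} (hij : j ≠ i)
    (r : Fin (n i + 1)) : ∀ m ∈ (pderiv (⟨i, r⟩ : Pc n) F).support, ∑ r', m ⟨j, r'⟩ = d j := by
  intro m hm
  rw [mem_support_iff, coeff_pderiv] at hm
  rw [← hF _ (mem_support_iff.2 (left_ne_zero_of_mul hm)) j]
  refine Finset.sum_congr rfl fun r' _ => ?_
  rw [Finsupp.add_apply, Finsupp.single_eq_of_ne, add_zero]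
  intro h
  exact hij (congrArg Sigma.fst h)

lemma euler {F : MvPolynomial (Pc n) k} (hF : PHom d F) (z : Pc n → k) (i : ι) :
    ∑ r, z ⟨i, r⟩ * eval z (pderiv ⟨i, r⟩ F) = (d i : k) * eval z F := by
  classical
  have hw : IsWeightedHomogeneous (fun s : Pc n => if s.1 = i then 1 else 0) F (d i) := by
    intro m hm
    rw [← hF m (mem_support_iff.2 hm) i, Finsupp.weight_apply,
      Finsupp.sum_fintype _ _ (fun _ => by simp), Fintype.sum_sigma, Finset.sum_eq_single i]
    · refine Finset.sum_congr rfl fun r _ => ?_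
      simp
    · intro j _ hj
      refine Finset.sum_eq_zero fun r _ => ?_
      simp [hj]
    · intro h
      exact absurd (Finset.mem_univ _) h
  have h1 := congrArg (eval z) hw.sum_weight_X_mul_pderiv
  rw [map_sum, Fintype.sum_sigma, Finset.sum_eq_single i] at h1
  · refine Eq.trans (Finset.sum_congr rfl fun r _ => ?_) (h1.trans ?_)
    · rw [map_nsmul, map_mul, eval_X, if_pos rfl, one_smul]
    · rw [map_nsmul, nsmul_eq_mul]
  · intro j _ hj
    refine Finset.sum_eq_zero fun r _ => ?_
    rw [if_neg hj, map_nsmul, zero_smul]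
  · intro h
    exact absurd (Finset.mem_univ _) h

variable {N : ℕ} (e : PAf n ≃ Fin N)

/-- the images of the coordinates -/
noncomputable def gg (k : Type) [Field k] {ι : Type} {n : ι → ℕ} {N : ℕ} (e : PAf n ≃ Fin N)
    (s : Pc n) : MvPolynomial (Fin N) k :=
  if h : s.2 ≠ 0 then X (e ⟨s, h⟩) else 1

lemma pdeh_eq (F : MvPolynomial (Pc n) k) : pdeh e F = aeval (gg k e) F := rfl

lemma pdeh_val (F : MvPolynomial (Pc n) k) (x : Fin N → k) :
    eval x (pdeh e F) = eval (phpt e x) F := by
  rw [← coe_aeval_eq_eval, ← coe_aeval_eq_eval, RingHom.coe_coe, RingHom.coe_coe, pdeh_eq,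
    ← AlgHom.comp_apply, comp_aeval]
  congr 2
  funext s
  unfold gg phpt
  split_ifs with h
  · rw [aeval_X]
  · rw [map_one]

lemma pderiv_gg (l : Fin N) (s : Pc n) :
    pderiv l (gg k e s) = aeval (gg k e) (pderiv ((e.symm l).1) (X s : MvPolynomial (Pc n) k)) := by
  classical
  rw [pderiv_X]
  unfold gg
  by_cases h : s.2 ≠ 0
  · rw [dif_pos h, pderiv_X]
    by_cases h2 : e ⟨s, h⟩ = l
    · have h3 : (e.symm l).1 = s := by
        rw [← h2, Equiv.symm_apply_apply]
      rw [h2, h3, Pi.single_eq_same, Pi.single_eq_same, map_one]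
    · have h3 : s ≠ (e.symm l).1 := by
        intro h4
        apply h2
        rw [← Equiv.eq_symm_apply]
        exact Subtype.ext h4
      rw [Pi.single_eq_of_ne h2, Pi.single_eq_of_ne h3, map_zero]
  · have h3 : s ≠ (e.symm l).1 := by
      intro h4
      apply h
      rw [h4]
      exact (e.symm l).2
    rw [dif_neg h, Pi.single_eq_of_ne h3, map_zero]
    exact pderiv_one

lemma pderiv_pdeh (F : MvPolynomial (Pc n) k) (l : Fin N) :
    pderiv l (pdeh e F) = pdeh e (pderiv ((e.symm l).1) F) := by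
  rw [pdeh_eq, pdeh_eq]
  induction F using MvPolynomial.induction_on with
  | C c => rw [aeval_C, pderiv_C, map_zero]; exact pderiv_C
  | add p q hp hq => rw [map_add, map_add, hp, hq, map_add, map_add]
  | mul_X p s hp =>
    rw [map_mul, aeval_X, Derivation.leibniz, hp, pderiv_gg, Derivation.leibniz, map_add,
      smul_eq_mul, smul_eq_mul, smul_eq_mul, smul_eq_mul, map_mul, map_mul, aeval_X]

lemma phpt_zero (x : Fin N → k) (i : ι) : phpt e x (⟨i, 0⟩ : Pc n) = 1 := by
  unfold phpt
  rw [dif_neg]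
  simp

/-- the affine equation is reduced -/
lemma sqf [IsAlgClosed k] {F : MvPolynomial (Pc n) k} (hF : PHom d F) (hs : PSm F k) :
    Squarefree (pdeh e F) := by
  intro q hq
  by_contra hu
  obtain ⟨y, hy⟩ := exists_zero q hu
  obtain ⟨p, hp⟩ := hq
  obtain ⟨s, hs'⟩ := hs (phpt e y) (fun i => ⟨0, by rw [phpt_zero]; exact one_ne_zero⟩)
  apply hs'
  rw [← coe_aeval_eq_eval, RingHom.coe_coe] at hy
  have h0 : eval (phpt e y) F = 0 := by
    rw [← pdeh_val, hp, ← coe_aeval_eq_eval, RingHom.coe_coe, map_mul, map_mul, hy]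
    ring
  have h1 : ∀ s : Pc n, s.2 ≠ 0 → eval (phpt e y) (pderiv s F) = 0 := by
    intro s hs
    have h2 := pderiv_pdeh e F (e ⟨s, hs⟩)
    rw [Equiv.symm_apply_apply] at h2
    rw [← pdeh_val, ← h2, hp, ← coe_aeval_eq_eval, RingHom.coe_coe, Derivation.leibniz,
      Derivation.leibniz]
    simp only [smul_eq_mul, map_add, map_mul, hy]
    ring
  rw [← coe_aeval_eq_eval, RingHom.coe_coe] at h0
  obtain ⟨i, r⟩ := s
  by_cases hr : r = 0
  · subst hr
    have h2 := euler hF (phpt e y) i
    rw [← coe_aeval_eq_eval, RingHom.coe_coe, h0, mul_zero, Finset.sum_eq_single 0, phpt_zero,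
      one_mul] at h2
    · exact h2
    · intro r _ hr
      rw [← coe_aeval_eq_eval, RingHom.coe_coe] at h1
      rw [h1 ⟨i, r⟩ hr, mul_zero]
    · intro h
      exact absurd (Finset.mem_univ _) h
  · have h3 := h1 ⟨i, r⟩ hr
    rw [← coe_aeval_eq_eval, RingHom.coe_coe] at h3
    exact h3

/-- the linear form of a factor -/
noncomputable def lf (i : ι) (c : Fin (n i + 1) → k) : MvPolynomial (Fin N) k :=
  ∑ r, C (c r) * gg k e ⟨i, r⟩

lemma eval_gg (x : Fin N → k) (s : Pc n) : eval x (gg k e s) = phpt e x s := by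
  unfold gg phpt
  split_ifs with h
  · rw [eval_X]
  · rw [map_one]

lemma eval_lf (i : ι) (c : Fin (n i + 1) → k) (x : Fin N → k) :
    eval x (lf e i c) = ∑ r, c r * phpt e x ⟨i, r⟩ := by
  unfold lf
  rw [map_sum]
  refine Finset.sum_congr rfl fun r _ => ?_
  rw [map_mul, eval_C, eval_gg]

lemma deg_lf (i : ι) (c : Fin (n i + 1) → k) : (lf e i c).totalDegree ≤ 1 := by
  unfold lf
  refine totalDegree_finsetSum_le fun r _ => ?_
  refine (totalDegree_mul _ _).trans ?_
  rw [totalDegree_C, zero_add]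
  unfold gg
  split_ifs with h
  · exact (totalDegree_X _).le
  · rw [totalDegree_one]
    exact Nat.zero_le _

lemma lf_const (i : ι) (c : Fin (n i + 1) → k) (h : ∀ r, r ≠ 0 → c r = 0) :
    lf e i c = C (c 0) := by
  unfold lf
  rw [Finset.sum_eq_single 0]
  · unfold gg
    rw [dif_neg (by simp), mul_one]
  · intro r _ hr
    rw [h r hr, C_0, zero_mul]
  · intro h
    exact absurd (Finset.mem_univ _) h

lemma lf_ne (i : ι) (c : Fin (n i + 1) → k) (hc : c ≠ 0) : lf e i c ≠ 0 := by
  intro h0
  by_cases h : ∀ r, r ≠ 0 → c r = 0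
  · rw [lf_const e i c h] at h0
    apply hc
    funext r
    by_cases hr : r = 0
    · rw [hr]
      exact (C_eq_zero).1 h0
    · exact h r hr
  · push Not at h
    obtain ⟨r, hr, hcr⟩ := h
    have h1 := eval_lf e i c (0 : Fin N → k)
    have h2 := eval_lf e i c (Pi.single (e ⟨⟨i, r⟩, hr⟩) 1)
    rw [h0, map_zero] at h1 h2
    have h3 : ∑ r', c r' * phpt e (Pi.single (e ⟨⟨i, r⟩, hr⟩) 1) ⟨i, r'⟩ =
        ∑ r', c r' * phpt e (0 : Fin N → k) ⟨i, r'⟩ + c r := by
      rw [← sub_eq_iff_eq_add', ← Finset.sum_sub_distrib, Finset.sum_eq_single r]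
      · unfold phpt
        rw [dif_pos hr, dif_pos hr, Pi.single_eq_same, Pi.zero_apply]
        ring
      · intro r' _ hr'
        unfold phpt
        by_cases h4 : r' = 0
        · rw [dif_neg (by simpa using h4), dif_neg (by simpa using h4), sub_self]
        · rw [dif_pos h4, dif_pos h4, Pi.single_eq_of_ne, Pi.zero_apply, sub_self]
          intro h5
          apply hr'
          have h6 := congrArg Subtype.val (e.injective h5)
          simpa using h6
      · intro h
        exact absurd (Finset.mem_univ _) h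
    rw [← h2, ← h1, zero_add] at h3
    exact hcr h3.symm

/-- a common factor of a polynomial and the linear form is the linear form -/
lemma common (f : MvPolynomial (Fin N) k) (i : ι) (c : Fin (n i + 1) → k) (hc : c ≠ 0)
    (q : MvPolynomial (Fin N) k) (hqf : q ∣ f) (hq : q ∣ lf e i c) (hu : ¬ IsUnit q) :
    lf e i c ∣ f ∧ ∃ r, r ≠ 0 ∧ c r ≠ 0 := by
  have h0 := lf_ne e i c hc
  obtain ⟨p, hp⟩ := hq
  have hq0 : q ≠ 0 := by
    rintro rfl
    exact h0 (by rw [hp, zero_mul])
  have hp0 : p ≠ 0 := by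
    rintro rfl
    exact h0 (by rw [hp, mul_zero])
  have h1 := totalDegree_mul_of_isDomain hq0 hp0
  rw [← hp] at h1
  have h2 := deg_lf e i c
  have h3 : q.totalDegree ≠ 0 := by
    intro h
    rw [totalDegree_eq_zero_iff_eq_C] at h
    apply hu
    rw [h]
    refine (isUnit_iff_ne_zero.2 ?_).map C
    intro h4
    rw [h4, C_0] at h
    exact hq0 h
  have h4 : p.totalDegree = 0 := by omega
  rw [totalDegree_eq_zero_iff_eq_C] at h4
  constructor
  · refine dvd_trans ?_ hqf
    have h5 : IsUnit p := by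
      rw [h4]
      refine (isUnit_iff_ne_zero.2 ?_).map C
      intro h6
      rw [h6, C_0] at h4
      exact hp0 h4
    rw [hp]
    exact (h5.mul_right_dvd).2 dvd_rfl
  · by_contra hcon
    push Not at hcon
    rw [lf_const e i c hcon, totalDegree_C] at h1
    omega

/-- a smooth hypersurface does not contain a hyperplane of a factor -/
lemma key [DecidableEq ι] [IsAlgClosed k] (hn : ∀ i, n i ≠ 0) (hd : ∀ i, d i ≠ 0)
    {F : MvPolynomial (Pc n) k} (hF : PHom d F) (hs : PSm F k) {i j : ι} (hij : j ≠ i)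
    (c : Fin (n i + 1) → k) {r₁ : Fin (n i + 1)} (hr1 : r₁ ≠ 0) (hc : c r₁ ≠ 0)
    (h : ∀ x : Fin N → k, ∑ r, c r * phpt e x ⟨i, r⟩ = 0 → eval x (pdeh e F) = 0) : False := by
  -- the homogeneous form of the hypothesis
  have a1 : ∀ z : Pc n → k, (∀ l, z ⟨l, 0⟩ ≠ 0) → ∑ r, c r * z ⟨i, r⟩ = 0 → eval z F = 0 := by
    intro z hz hL
    obtain ⟨x, hx⟩ : ∃ x : Fin N → k, x = fun m => z (e.symm m).1 / z ⟨(e.symm m).1.1, 0⟩ :=
      ⟨_, rfl⟩
    have h1 : ∀ s, phpt e x s = z s / z ⟨s.1, 0⟩ := by
      intro s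
      unfold phpt
      split_ifs with h
      · rw [hx]
        have h3 := Equiv.symm_apply_apply e ⟨s, h⟩
        change z (e.symm (e ⟨s, h⟩)).1 / z ⟨(e.symm (e ⟨s, h⟩)).1.1, 0⟩ = _
        rw [h3]
      · obtain ⟨l, r⟩ := s
        have h2 : r = 0 := by simpa using h
        rw [h2, div_self (hz l)]
    have h2 : (fun s => z ⟨s.1, 0⟩ * phpt e x s) = z := by
      funext s
      rw [h1, mul_div_cancel₀ _ (hz s.1)]
    have h3 := scale hF (fun l => z ⟨l, 0⟩) (phpt e x)
    rw [h2] at h3
    rw [h3, ← pdeh_val, h x, mul_zero]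
    simp only [h1]
    have h4 : ∑ r, c r * (z ⟨i, r⟩ / z ⟨i, 0⟩) = (∑ r, c r * z ⟨i, r⟩) / z ⟨i, 0⟩ := by
      rw [Finset.sum_div]
      refine Finset.sum_congr rfl fun r _ => ?_
      rw [mul_div_assoc]
    rw [h4, hL, zero_div]
  obtain ⟨w, hw⟩ : ∃ w : Pc n → k, w = fun s => if s.2 = 0 then 1 else
    if s = ⟨i, r₁⟩ then - c 0 / c r₁ else 0 := ⟨_, rfl⟩
  have hw0 : ∀ l, w ⟨l, 0⟩ = 1 := by
    intro l
    rw [hw]
    exact if_pos rfl
  have hwL : ∑ r, c r * w ⟨i, r⟩ = 0 := by
    have h1 : ∀ r, c r * w ⟨i, r⟩ = (if r = 0 then c 0 else 0) + (if r = r₁ then - c 0 else 0) := by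
      intro r
      by_cases h2 : r = 0
      · rw [h2, hw0, if_pos rfl, if_neg (Ne.symm hr1)]
        ring
      · rw [hw]
        simp only
        rw [if_neg h2, if_neg h2]
        by_cases h3 : r = r₁
        · rw [h3, if_pos rfl, if_pos rfl]
          field_simp
          ring
        · rw [if_neg h3, if_neg]
          · ring
          · intro h4
            apply h3
            simpa using h4
    simp only [h1, Finset.sum_add_distrib]
    rw [Finset.sum_ite_eq' Finset.univ (0 : Fin (n i + 1)), Finset.sum_ite_eq' Finset.univ r₁,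
      if_pos (Finset.mem_univ _), if_pos (Finset.mem_univ _)]
    ring
  have a2 : ∀ z : Pc n → k, ∑ r, c r * z ⟨i, r⟩ = 0 → eval z F = 0 := by
    intro z hL
    refine line_zero z w F (fun l => ⟨l, 0⟩) fun t ht => a1 _ (fun l => ?_) ?_
    · rw [hw0, mul_one]
      exact ht l
    · have h1 : ∑ r, c r * (z ⟨i, r⟩ + t * w ⟨i, r⟩) =
          ∑ r, c r * z ⟨i, r⟩ + t * ∑ r, c r * w ⟨i, r⟩ := by
        rw [Finset.mul_sum, ← Finset.sum_add_distrib]
        refine Finset.sum_congr rfl fun r _ => ?_
        ring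
      rw [h1, hL, hwL, mul_zero, add_zero]
  -- the point
  obtain ⟨P, hP⟩ : ∃ P, P = pderiv (⟨i, r₁⟩ : Pc n) F := ⟨_, rfl⟩
  obtain ⟨zz, hzz⟩ : ∃ zz : (Fin (n j + 1) → k) → Pc n → k, zz = fun y s =>
    if h : s.1 = j then y (Fin.cast (congrArg (fun a => n a + 1) h) s.2) else w s := ⟨_, rfl⟩
  have hzj : ∀ y r, zz y ⟨j, r⟩ = y r := by
    intro y r
    rw [hzz]
    exact dif_pos rfl
  have hzn : ∀ y s, s.1 ≠ j → zz y s = w s := by
    intro y s h
    rw [hzz]
    exact dif_neg h
  obtain ⟨G, hG⟩ : ∃ G : MvPolynomial (Fin (n j + 1)) k, ∀ y, eval y G = eval (zz y) P := by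
    refine ⟨aeval (fun s : Pc n => if h : s.1 = j then
      X (Fin.cast (congrArg (fun a => n a + 1) h) s.2) else C (w s)) P, fun y => ?_⟩
    rw [← coe_aeval_eq_eval, ← coe_aeval_eq_eval, RingHom.coe_coe, RingHom.coe_coe,
      ← AlgHom.comp_apply, comp_aeval]
    congr 2
    funext s
    rw [hzz]
    simp only
    split_ifs with h
    · rw [aeval_X]
    · rw [aeval_C]
      rfl
  obtain ⟨y, hy, hy'⟩ := Pool.Agent.H552R3.Tsen.exists_common_zero (k := k) (ι := Fin 1)
    (fun _ => G) (fun _ => by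
      rw [hG]
      refine block_zero (hd j) ?_ _ (fun r => by rw [hzj, Pi.zero_apply])
      rw [hP]
      exact pderiv_block hF hij r₁) (by
      rw [Fintype.card_fin, Fintype.card_fin]
      have := hn j
      omega)
  have hy2 : eval (zz y) P = 0 := by
    rw [← hG]
    exact hy' 0
  have hzi : ∀ r, zz y ⟨i, r⟩ = w ⟨i, r⟩ := fun r => hzn y ⟨i, r⟩ (Ne.symm hij)
  obtain ⟨s, hs1⟩ := hs (zz y) (fun l => by
    by_cases hl : l = j
    · subst hl
      obtain ⟨r, hr⟩ := Function.ne_iff.1 hy
      exact ⟨r, by rw [hzj]; exact hr⟩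
    · exact ⟨0, by rw [hzn y ⟨l, 0⟩ hl, hw0]; exact one_ne_zero⟩)
  have e1 : aeval (zz y) (pderiv s F) = eval (zz y) (pderiv s F) := by
    rw [← coe_aeval_eq_eval]
    rfl
  rw [e1] at hs1
  apply hs1
  have a3 : ∀ u : Pc n → k, ∑ r, c r * u ⟨i, r⟩ = 0 →
      ∑ s, eval (zz y) (pderiv s F) * u s = 0 := by
    intro u hu
    refine der_zero (zz y) u F fun t => a2 _ ?_
    have h1 : ∑ r, c r * (zz y ⟨i, r⟩ + t * u ⟨i, r⟩) =
        ∑ r, c r * w ⟨i, r⟩ + t * ∑ r, c r * u ⟨i, r⟩ := by
      rw [Finset.mul_sum, ← Finset.sum_add_distrib]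
      refine Finset.sum_congr rfl fun r _ => ?_
      rw [hzi]
      ring
    rw [h1, hu, hwL, mul_zero, add_zero]
  by_cases hsi : s.1 = i
  · obtain ⟨l, r⟩ := s
    simp only at hsi
    subst hsi
    have h1 := a3 (fun s' => (if s' = ⟨l, r⟩ then c r₁ else 0) - (if s' = ⟨l, r₁⟩ then c r else 0))
      (by
        have h2 : ∀ r', c r' * ((if (⟨l, r'⟩ : Pc n) = ⟨l, r⟩ then c r₁ else 0) -
            (if (⟨l, r'⟩ : Pc n) = ⟨l, r₁⟩ then c r else 0)) =
            (if r' = r then c r * c r₁ else 0) - (if r' = r₁ then c r₁ * c r else 0) := by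
          intro r'
          have e1 : ∀ r'', ((⟨l, r'⟩ : Pc n) = ⟨l, r''⟩) ↔ r' = r'' := by
            intro r''
            constructor
            · intro h; simpa using h
            · intro h; rw [h]
          simp only [e1]
          by_cases h3 : r' = r
          · by_cases h4 : r' = r₁
            · rw [if_pos h3, if_pos h4, if_pos h3, if_pos h4, ← h3, ← h4]
              ring
            · rw [if_pos h3, if_neg h4, if_pos h3, if_neg h4, ← h3]
              ring
          · by_cases h4 : r' = r₁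
            · rw [if_neg h3, if_pos h4, if_neg h3, if_pos h4, ← h4]
              ring
            · rw [if_neg h3, if_neg h4, if_neg h3, if_neg h4]
              ring
        simp only [h2, Finset.sum_sub_distrib]
        rw [Finset.sum_ite_eq' Finset.univ r, Finset.sum_ite_eq' Finset.univ r₁,
          if_pos (Finset.mem_univ _), if_pos (Finset.mem_univ _)]
        ring)
    simp only [mul_sub, mul_ite, mul_zero, Finset.sum_sub_distrib] at h1
    rw [Finset.sum_ite_eq' Finset.univ (⟨l, r⟩ : Pc n),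
      Finset.sum_ite_eq' Finset.univ (⟨l, r₁⟩ : Pc n), if_pos (Finset.mem_univ _),
      if_pos (Finset.mem_univ _), ← hP, hy2, zero_mul, sub_zero] at h1
    exact (mul_eq_zero.1 h1).resolve_right hc
  · have h1 := a3 (fun s' => if s' = s then 1 else 0) (by
      refine Finset.sum_eq_zero fun r _ => ?_
      rw [if_neg, mul_zero]
      intro h2
      apply hsi
      rw [← h2])
    simp only [mul_ite, mul_zero, mul_one] at h1
    rw [Finset.sum_ite_eq' Finset.univ s, if_pos (Finset.mem_univ _)] at h1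
    exact h1

end prod

theorem nl : StmNL := by
  intro ι _ _ n d N e k _ _ _ F hn hd hι hF hs c hc G hG
  have hsq := sqf e hF hs
  have hf0 : pdeh e F ≠ 0 := hsq.ne_zero
  have hrel : ∀ i, IsRelPrime (pdeh e F) (lf e i (c i)) := by
    intro i q hq1 hq2
    by_contra hu
    obtain ⟨h1, r, hr, hcr⟩ := common e (pdeh e F) i (c i) (hc i) q hq1 hq2 hu
    obtain ⟨j, hj⟩ := hι i
    refine key e hn hd hF hs hj (c i) hr hcr fun x hx => ?_
    obtain ⟨p, hp⟩ := h1
    rw [hp, map_mul, eval_lf, hx, zero_mul]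
  have hprod : IsRelPrime (pdeh e F) (∏ i, lf e i (c i)) :=
    IsRelPrime.prod_right fun i _ => hrel i
  refine hprod.dvd_of_dvd_mul_right ?_
  have hrad : (Ideal.span {pdeh e F} : Ideal (MvPolynomial (Fin N) k)).IsRadical :=
    (isRadical_iff_span_singleton).1 (hsq.isRadical)
  have h1 : G * ∏ i, lf e i (c i) ∈ (Ideal.span {pdeh e F}).radical := by
    rw [← vanishingIdeal_zeroLocus_eq_radical (K := k)]
    intro x hx
    have hx0 : eval x (pdeh e F) = 0 := hx _ (Ideal.subset_span rfl)
    change eval x (G * ∏ i, lf e i (c i)) = 0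
    rw [map_mul]
    by_cases h2 : ∀ i, ∑ r, c i r * phpt e x ⟨i, r⟩ ≠ 0
    · rw [hG x hx0 h2, zero_mul]
    · push Not at h2
      obtain ⟨i, hi⟩ := h2
      rw [map_prod, Finset.prod_eq_zero (Finset.mem_univ i), mul_zero]
      rw [eval_lf, hi]
  rw [hrad.radical] at h1
  exact Ideal.mem_span_singleton.1 h1

end Pool.Agent.Y200.CY.Nl
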