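import Pool.Agent.Y200.CY.Stm5
import Pool.Agent.Y200.CY.Gn
import Pool.Agent.Y200.CY.Nl
import Mathlib.RingTheory.MvPolynomial.WeightedHomogeneous

/-! Generic linear sections (project CY; written by helper864). -/

set_option autoImplicit false

namespace Pool.Agent.Y200.CY.Ber

open MvPolynomial Pool.Agent.Y200.CY

/-- the degrees of a linear section -/
theorem cph : StmCPH := by
  intro ι _ _ n m d k _ h F hF
  have key : ∀ i : ι, IsWeightedHomogeneous (fun s : Pc m => if s.1 = i then 1 else 0)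
      (cut h F) (d i) := by
    intro i
    set w : Pc m → ℕ := fun s => if s.1 = i then 1 else 0 with hw
    have h9 : ∀ s : Pc n, IsWeightedHomogeneous w
        (lam (fun q => C (h q)) (X : Pc m → MvPolynomial (Pc m) k) s)
        (if s.1 = i then 1 else 0) := by
      intro s
      by_cases hs : (s.2 : ℕ) < m s.1 + 1
      · rw [lam, dif_pos hs]
        exact isWeightedHomogeneous_X k w ⟨s.1, ⟨s.2, hs⟩⟩
      · rw [lam, dif_neg hs]
        refine IsWeightedHomogeneous.sum _ _ _ fun r _ => ?_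
        have h10 := (isWeightedHomogeneous_C w (h ⟨s.1, (⟨(s.2 : ℕ) - (m s.1 + 1), by
          have := s.2.isLt; omega⟩, r)⟩)).mul (isWeightedHomogeneous_X k w ⟨s.1, r⟩)
        rw [zero_add] at h10
        exact h10
    unfold cut
    rw [aeval_def, eval₂_eq']
    refine IsWeightedHomogeneous.sum _ _ _ fun u hu => ?_
    have h11 := IsWeightedHomogeneous.prod (w := w) (Finset.univ : Finset (Pc n))
      (fun s => (lam (fun q => C (h q)) (X : Pc m → MvPolynomial (Pc m) k) s) ^ u s)
      (fun s => u s • (if s.1 = i then 1 else 0)) (fun s _ => (h9 s).pow (u s))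
    have h12 : ∑ s : Pc n, u s • (if s.1 = i then 1 else 0) = d i := by
      rw [Fintype.sum_sigma, Finset.sum_eq_single i]
      · rw [← hF u hu i]
        refine Finset.sum_congr rfl fun r _ => ?_
        simp
      · intro j _ hj
        refine Finset.sum_eq_zero fun r _ => ?_
        simp [hj]
      · intro h
        exact absurd (Finset.mem_univ _) h
    rw [h12] at h11
    have h14 := (isWeightedHomogeneous_C w (F.coeff u)).mul h11
    rw [zero_add] at h14
    exact h14
  intro u hu i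
  have h1 := key i (mem_support_iff.1 hu)
  rw [Finsupp.weight_apply, Finsupp.sum_fintype _ _ (fun _ => by simp), Fintype.sum_sigma,
    Finset.sum_eq_single i] at h1
  · rw [← h1]
    refine Finset.sum_congr rfl fun r _ => ?_
    simp
  · intro j _ hj
    refine Finset.sum_eq_zero fun r _ => ?_
    simp [hj]
  · intro h
    exact absurd (Finset.mem_univ _) h

/-- generic linear sections are smooth -/
theorem ber : StmBER := by
  intro ι _ _ n m d hmn hd k Λ _ _ _ _ F hF hsm h hh z hz
  classical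
  have hchar : CharZero Λ := charZero_of_injective_algebraMap (algebraMap k Λ).injective
  by_contra hcon
  push Not at hcon
  obtain ⟨F', hF'⟩ : ∃ F', F' = cut h (map (algebraMap k Λ) F) := ⟨_, rfl⟩
  rw [← hF'] at hcon
  obtain ⟨w, hw⟩ : ∃ w : Pc n → Λ, w = lam h z := ⟨_, rfl⟩
  obtain ⟨GX, hGX⟩ : ∃ GX : Pc n → MvPolynomial (Pc m) Λ, GX = lam (fun q => C (h q)) X := ⟨_, rfl⟩
  have hc : ∀ s : Pc n, ¬ (s.2 : ℕ) < m s.1 + 1 → (s.2 : ℕ) - (m s.1 + 1) < n s.1 - m s.1 := by
    intro s hs
    have := s.2.isLt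
    omega
  have hw1 : ∀ (s : Pc n) (hs : (s.2 : ℕ) < m s.1 + 1), w s = z ⟨s.1, ⟨s.2, hs⟩⟩ := by
    intro s hs
    rw [hw, lam, dif_pos hs]
  have hw2 : ∀ (s : Pc n) (hs : ¬ (s.2 : ℕ) < m s.1 + 1),
      w s = ∑ r, h ⟨s.1, (⟨(s.2 : ℕ) - (m s.1 + 1), hc s hs⟩, r)⟩ * z ⟨s.1, r⟩ := by
    intro s hs
    rw [hw, lam, dif_neg hs]
  have hG1 : ∀ (s : Pc n) (hs : (s.2 : ℕ) < m s.1 + 1), GX s = X ⟨s.1, ⟨s.2, hs⟩⟩ := by
    intro s hs
    rw [hGX, lam, dif_pos hs]
  have hG2 : ∀ (s : Pc n) (hs : ¬ (s.2 : ℕ) < m s.1 + 1),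
      GX s = ∑ r, C (h ⟨s.1, (⟨(s.2 : ℕ) - (m s.1 + 1), hc s hs⟩, r)⟩) * X ⟨s.1, r⟩ := by
    intro s hs
    rw [hGX, lam, dif_neg hs]
  have hF'2 : F' = aeval GX F := by
    rw [hF', cut, aeval_map_algebraMap, hGX]
  have hGw : ∀ s : Pc n, aeval z (GX s) = w s := by
    intro s
    by_cases hs : (s.2 : ℕ) < m s.1 + 1
    · rw [hG1 s hs, hw1 s hs, aeval_X]
    · rw [hG2 s hs, hw2 s hs, map_sum]
      refine Finset.sum_congr rfl fun r _ => ?_
      rw [map_mul, aeval_X, aeval_C, Algebra.algebraMap_self, RingHom.id_apply]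
  have hcomp : ∀ p : MvPolynomial (Pc n) k, aeval z (aeval GX p) = aeval w p := by
    intro p
    have h1 := comp_aeval_apply (((aeval z : MvPolynomial (Pc m) Λ →ₐ[Λ] Λ).restrictScalars k :
      MvPolynomial (Pc m) Λ →ₐ[k] Λ)) (f := GX) p
    change aeval z (aeval GX p) = _ at h1
    rw [h1]
    congr 1
    congr 1
    funext s
    exact hGw s
  -- the derivatives of the composition
  obtain ⟨M, hM⟩ : ∃ M : Pc n → Pc m → Λ, M = fun s s' => aeval z (pderiv s' (GX s)) := ⟨_, rfl⟩
  have hder : ∀ s' : Pc m, aeval z (pderiv s' F') = ∑ s, aeval w (pderiv s F) * M s s' := by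
    intro s'
    have h1 := Gn.chain ((pderiv s' : Derivation Λ (MvPolynomial (Pc m) Λ)
      (MvPolynomial (Pc m) Λ)).restrictScalars k) GX F
    change pderiv s' (aeval GX F) = _ at h1
    rw [hF'2, h1, map_sum]
    refine Finset.sum_congr rfl fun s _ => ?_
    rw [map_mul, hcomp, hM]
    rfl
  have hM1 : ∀ (s : Pc n) (hs : (s.2 : ℕ) < m s.1 + 1) (s' : Pc m),
      M s s' = if s' = ⟨s.1, ⟨s.2, hs⟩⟩ then 1 else 0 := by
    intro s hs s'
    rw [hM]
    simp only
    rw [hG1 s hs]
    by_cases h1 : s' = ⟨s.1, ⟨s.2, hs⟩⟩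
    · rw [if_pos h1, h1, pderiv_X_self, map_one]
    · rw [if_neg h1, pderiv_X_of_ne (Ne.symm h1), map_zero]
  have hM2 : ∀ (s : Pc n) (hs : ¬ (s.2 : ℕ) < m s.1 + 1) (s' : Pc m),
      M s s' = ∑ r, h ⟨s.1, (⟨(s.2 : ℕ) - (m s.1 + 1), hc s hs⟩, r)⟩ *
        (if s' = ⟨s.1, r⟩ then 1 else 0) := by
    intro s hs s'
    rw [hM]
    simp only
    rw [hG2 s hs, map_sum, map_sum]
    refine Finset.sum_congr rfl fun r _ => ?_
    rw [Derivation.leibniz, pderiv_C, smul_zero, add_zero, smul_eq_mul, map_mul, aeval_C,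
      Algebra.algebraMap_self, RingHom.id_apply]
    congr 1
    by_cases h1 : s' = ⟨s.1, r⟩
    · rw [if_pos h1, h1, pderiv_X_self, map_one]
    · rw [if_neg h1, pderiv_X_of_ne (Ne.symm h1), map_zero]
  -- the point is a point of the product
  have hPNZ : PNZ w := by
    intro i
    obtain ⟨r, hr⟩ := hz i
    have h1 := hmn i
    have h2 := r.isLt
    refine ⟨⟨r, by omega⟩, ?_⟩
    rw [hw1 ⟨i, ⟨r, by omega⟩⟩ h2]
    exact hr
  obtain ⟨s1, hs1⟩ := hsm w hPNZ
  -- the relation of Euler
  have hFh : PHom d (map (algebraMap k Λ) F) := fun u hu =>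
    hF u (support_map_subset _ _ hu)
  have hMH : PHom d F' := by
    rw [hF']
    exact cph ι n m d Λ h _ hFh
  have hev : ∀ p : MvPolynomial (Pc m) Λ, aeval z p = eval z p := by
    intro p
    rw [← coe_aeval_eq_eval]
    rfl
  have hF0 : aeval w F = 0 := by
    have h1 := Nl.euler hMH z s1.1
    rw [Finset.sum_eq_zero (fun r _ => by rw [← hev, hcon, mul_zero])] at h1
    have h2 := (mul_eq_zero.1 h1.symm).resolve_left (Nat.cast_ne_zero.2 (hd s1.1))
    rw [← hev, hF'2, hcomp] at h2
    exact h2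
  -- the derivatives in the last coordinates
  have hA : ∀ s0 : Pc n, ¬ (s0.2 : ℕ) < m s0.1 + 1 → aeval w (pderiv s0 F) = 0 := by
    intro s0 hs0
    obtain ⟨r1, hr1⟩ := hz s0.1
    obtain ⟨D, hD⟩ : ∃ D : Derivation k Λ Λ, ∀ q : Hv n m, D (h q) =
        if q = ⟨s0.1, (⟨(s0.2 : ℕ) - (m s0.1 + 1), hc s0 hs0⟩, r1)⟩ then 1 else 0 := by
      have e := (Fintype.equivFin (Hv n m)).symm
      obtain ⟨D, hD⟩ := Pool.Agent.Y200.CB.exists_der
        (fun l => h (e l)) (hh.comp e e.injective)
        (fun l => if e l = ⟨s0.1, (⟨(s0.2 : ℕ) - (m s0.1 + 1), hc s0 hs0⟩, r1)⟩ then 1 else 0)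
      refine ⟨D, fun q => ?_⟩
      have h4 : D (h (e (e.symm q))) = if e (e.symm q) =
          ⟨s0.1, (⟨(s0.2 : ℕ) - (m s0.1 + 1), hc s0 hs0⟩, r1)⟩ then 1 else 0 := hD (e.symm q)
      rw [Equiv.apply_symm_apply] at h4
      exact h4
    have h2 : ∀ s : Pc n, D (w s) = (if s = s0 then z ⟨s0.1, r1⟩ else 0) +
        ∑ s', M s s' * D (z s') := by
      intro s
      by_cases hs : (s.2 : ℕ) < m s.1 + 1
      · rw [hw1 s hs, if_neg (by
          intro h5
          rw [h5] at hs
          exact hs0 hs), zero_add]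
        simp only [hM1 s hs, ite_mul, one_mul, zero_mul]
        rw [Finset.sum_ite_eq' Finset.univ, if_pos (Finset.mem_univ _)]
      · rw [hw2 s hs, map_sum]
        have h3 : ∀ r, D (h ⟨s.1, (⟨(s.2 : ℕ) - (m s.1 + 1), hc s hs⟩, r)⟩ * z ⟨s.1, r⟩) =
            (if (⟨s.1, (⟨(s.2 : ℕ) - (m s.1 + 1), hc s hs⟩, r)⟩ : Hv n m) =
              ⟨s0.1, (⟨(s0.2 : ℕ) - (m s0.1 + 1), hc s0 hs0⟩, r1)⟩ then z ⟨s.1, r⟩ else 0) +
            h ⟨s.1, (⟨(s.2 : ℕ) - (m s.1 + 1), hc s hs⟩, r)⟩ * D (z ⟨s.1, r⟩) := by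
          intro r
          rw [D.leibniz, hD, smul_eq_mul, smul_eq_mul, add_comm]
          congr 1
          split_ifs <;> simp
        simp only [h3, Finset.sum_add_distrib]
        congr 1
        · by_cases h5 : s = s0
          · subst h5
            rw [if_pos rfl, Finset.sum_eq_single r1]
            · rw [if_pos rfl]
            · intro r' _ hr'
              rw [if_neg]
              intro h6
              apply hr'
              simpa using h6
            · intro h6
              exact absurd (Finset.mem_univ _) h6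
          · rw [if_neg h5]
            refine Finset.sum_eq_zero fun r' _ => ?_
            rw [if_neg]
            intro h6
            apply h5
            obtain ⟨i, r⟩ := s
            obtain ⟨i0, r0⟩ := s0
            obtain ⟨h7, h8⟩ := Sigma.mk.inj_iff.1 h6
            simp only at h7
            subst h7
            have h9 := congrArg (fun x => (x.1 : ℕ)) (eq_of_heq h8)
            simp only at h9 hs hs0
            congr 1
            apply Fin.ext
            omega
        · simp only [hM2 s hs, Finset.sum_mul]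
          rw [Finset.sum_comm]
          refine Finset.sum_congr rfl fun r _ => ?_
          simp only [mul_ite, mul_one, mul_zero, ite_mul, zero_mul]
          rw [Finset.sum_ite_eq' Finset.univ, if_pos (Finset.mem_univ _)]
    have h1 := Gn.chain D w F
    rw [hF0, map_zero] at h1
    have h3 : ∑ s, aeval w (pderiv s F) * D (w s) =
        aeval w (pderiv s0 F) * z ⟨s0.1, r1⟩ +
        ∑ s', aeval z (pderiv s' F') * D (z s') := by
      simp only [h2, mul_add, Finset.sum_add_distrib]
      congr 1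
      · rw [Finset.sum_eq_single s0]
        · rw [if_pos rfl]
        · intro s _ hs
          rw [if_neg hs, mul_zero]
        · intro h
          exact absurd (Finset.mem_univ _) h
      · simp only [hder, Finset.mul_sum, Finset.sum_mul]
        rw [Finset.sum_comm]
        refine Finset.sum_congr rfl fun s' _ => ?_
        refine Finset.sum_congr rfl fun s _ => ?_
        ring
    rw [h3, Finset.sum_eq_zero (f := fun s' => aeval z (pderiv s' F') * D (z s'))
      (fun s _ => by rw [hcon s, zero_mul]), add_zero] at h1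
    exact (mul_eq_zero.1 h1.symm).resolve_right hr1
  apply hs1
  by_cases hs : (s1.2 : ℕ) < m s1.1 + 1
  · have h1 := hder ⟨s1.1, ⟨s1.2, hs⟩⟩
    rw [hcon, Finset.sum_eq_single s1] at h1
    · rw [hM1 s1 hs, if_pos rfl, mul_one] at h1
      exact h1.symm
    · intro s _ hss
      by_cases hs2 : (s.2 : ℕ) < m s.1 + 1
      · rw [hM1 s hs2, if_neg, mul_zero]
        intro h6
        apply hss
        obtain ⟨i, r⟩ := s
        obtain ⟨i0, r0⟩ := s1
        obtain ⟨h7, h8⟩ := Sigma.mk.inj_iff.1 h6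
        simp only at h7
        subst h7
        have h9 : (⟨(r0 : ℕ), hs⟩ : Fin (m i0 + 1)) = ⟨(r : ℕ), hs2⟩ := eq_of_heq h8
        congr 1
        apply Fin.ext
        exact (Fin.mk.inj h9).symm
      · rw [hA s hs2, zero_mul]
    · intro h
      exact absurd (Finset.mem_univ _) h
  · exact hA s1 hs

end Pool.Agent.Y200.CY.Ber
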