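import Pool.Agent.Y200.CY.Defs

/-!
# Derivatives of the Taylor coefficients of a cubic along the tangent direction
-/

set_option autoImplicit false
set_option linter.unusedSectionVars false

namespace Pool.Agent.Y200.CY

variable {K : Type*} [Field K] [CharZero K] {R : Type*} [CommRing R] [Algebra R K]

/-- the slope of the tangent line and the Taylor coefficients in its direction -/
structure TC (c : Cub K) (u v α m w b1 b2 g0 g1 g2 g3 : K) : Prop where
  ha : c.d2 1 u v = α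
  hm : c.d1 1 u v = -(α * m)
  hw : w = c.b11 u v + c.b12 u v * m + c.b22 u v * m ^ 2
  hb1 : b1 = c.b12 u v + 2 * c.b22 u v * m
  hb2 : b2 = c.b22 u v
  hg0 : g0 = c.c30 + c.c21 * m + c.c12 * m ^ 2 + c.c03 * m ^ 3
  hg1 : g1 = c.c21 + 2 * c.c12 * m + 3 * c.c03 * m ^ 2
  hg2 : g2 = c.c12 + 3 * c.c03 * m
  hg3 : g3 = c.c03

lemma exists_tc (c : Cub K) (u v : K) (h2 : c.d2 1 u v ≠ 0) :
    ∃ α m w b1 b2 g0 g1 g2 g3 : K, TC c u v α m w b1 b2 g0 g1 g2 g3 :=
  ⟨c.d2 1 u v, -(c.d1 1 u v / c.d2 1 u v), _, _, _, _, _, _, _,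
    ⟨rfl, by field_simp, rfl, rfl, rfl, rfl, rfl, rfl, rfl⟩⟩

lemma TC.flex {c : Cub K} {u v α m w b1 b2 g0 g1 g2 g3 : K}
    (h : TC c u v α m w b1 b2 g0 g1 g2 g3) : c.flex u v = α ^ 2 * w := by
  rw [Cub.flex, h.ha, h.hm, h.hw]
  ring

/-- the derivatives -/
theorem TC.der {c : Cub K} {u v α m w b1 b2 g0 g1 g2 g3 : K}
    (h : TC c u v α m w b1 b2 g0 g1 g2 g3) (hα : α ≠ 0) (D : Derivation R K K)
    (hc : ∀ i, D (c.co i) = 0) (hu : D u = α) (hv : D v = α * m) :
    D α = α * b1 ∧ D m = -2 * w ∧ D w = 3 * α * g0 - 2 * w * b1 ∧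
    D b1 = 2 * α * g1 - 4 * w * b2 ∧ D b2 = α * g2 ∧ D g0 = -2 * w * g1 ∧
    D g1 = -4 * w * g2 ∧ D g2 = -6 * w * g3 ∧ D g3 = 0 := by
  obtain ⟨ha, hm, hw, hb1, hb2, hg0, hg1, hg2, hg3⟩ := h
  have e00 : D c.c00 = 0 := hc 0
  have e10 : D c.c10 = 0 := hc 1
  have e01 : D c.c01 = 0 := hc 2
  have e20 : D c.c20 = 0 := hc 3
  have e11 : D c.c11 = 0 := hc 4
  have e02 : D c.c02 = 0 := hc 5
  have e30 : D c.c30 = 0 := hc 6
  have e21 : D c.c21 = 0 := hc 7
  have e12 : D c.c12 = 0 := hc 8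
  have e03 : D c.c03 = 0 := hc 9
  have n2 : D (2 : K) = 0 := by exact_mod_cast D.map_natCast 2
  have n3 : D (3 : K) = 0 := by exact_mod_cast D.map_natCast 3
  have ha' : α = c.c01 + (c.c11 * u + 2 * c.c02 * v) +
      (c.c21 * (u * u) + 2 * c.c12 * u * v + 3 * c.c03 * (v * v)) := by
    rw [← ha, Cub.d2]; ring
  have hm' : α * m = -(c.c10 + (2 * c.c20 * u + c.c11 * v) +
      (3 * c.c30 * (u * u) + 2 * c.c21 * u * v + c.c12 * (v * v))) := by
    have : α * m = - c.d1 1 u v := by rw [hm]; ring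
    rw [this, Cub.d1]; ring
  simp only [Cub.b11, Cub.b12, Cub.b22] at hw hb1 hb2
  have dα : D α = α * b1 := by
    have h5 : D α = D (c.c01 + (c.c11 * u + 2 * c.c02 * v) +
      (c.c21 * (u * u) + 2 * c.c12 * u * v + 3 * c.c03 * (v * v))) := congrArg D ha'
    rw [h5, hb1]
    simp only [map_add, Derivation.leibniz, smul_eq_mul, e01, e11, e02, e21, e12, e03, n2, n3, hu,
      hv]
    ring
  have dm : D m = -2 * w := by
    have h5 := congrArg D hm'
    simp only [map_add, map_neg, Derivation.leibniz, smul_eq_mul, e10, e20, e11, e30, e21, e12, n2,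
      n3, hu, hv, dα] at h5
    apply mul_left_cancel₀ hα
    rw [hb1] at h5
    rw [hw]
    linear_combination h5
  have hw' : w = (c.c20 + 3 * c.c30 * u + c.c21 * v) + (c.c11 + 2 * c.c21 * u + 2 * c.c12 * v) * m +
      (c.c02 + c.c12 * u + 3 * c.c03 * v) * (m * m) := by rw [hw]; ring
  have hg0' : g0 = c.c30 + c.c21 * m + c.c12 * (m * m) + c.c03 * (m * m * m) := by rw [hg0]; ring
  have hg1' : g1 = c.c21 + 2 * c.c12 * m + 3 * c.c03 * (m * m) := by rw [hg1]; ring
  refine ⟨dα, dm, ?_, ?_, ?_, ?_, ?_, ?_, ?_⟩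
  · have : D w = D ((c.c20 + 3 * c.c30 * u + c.c21 * v) +
        (c.c11 + 2 * c.c21 * u + 2 * c.c12 * v) * m +
        (c.c02 + c.c12 * u + 3 * c.c03 * v) * (m * m)) := congrArg D hw'
    rw [this]
    simp only [map_add, Derivation.leibniz, smul_eq_mul, e20, e11, e02, e30, e21, e12, e03, n2, n3,
      hu, hv, dm]
    rw [hb1, hg0]
    ring
  · rw [hb1]
    simp only [map_add, Derivation.leibniz, smul_eq_mul, e11, e02, e21, e12, e03, n2, n3, hu, hv,
      dm]
    rw [hg1, hb2]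
    ring
  · rw [hb2]
    simp only [map_add, Derivation.leibniz, smul_eq_mul, e02, e12, e03, n3, hu, hv]
    rw [hg2]
    ring
  · rw [hg0']
    simp only [map_add, Derivation.leibniz, smul_eq_mul, e30, e21, e12, e03, dm]
    rw [hg1]
    ring
  · rw [hg1']
    simp only [map_add, Derivation.leibniz, smul_eq_mul, e21, e12, e03, n2, n3, dm]
    rw [hg2]
    ring
  · rw [hg2]
    simp only [map_add, Derivation.leibniz, smul_eq_mul, e12, e03, n3, dm]
    rw [hg3]
    ring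
  · rw [hg3, e03]

/-- the tangent line is not an asymptote -/
theorem TC.g0_ne {c : Cub K} {u v α m w b1 b2 g0 g1 g2 g3 : K}
    (h : TC c u v α m w b1 b2 g0 g1 g2 g3) (hα : α ≠ 0) (hw : w ≠ 0) (D : Derivation R K K)
    (hc : ∀ i, D (c.co i) = 0) (hu : D u = α) (hv : D v = α * m) (h3 : c.Deg3) : g0 ≠ 0 := by
  intro h0
  obtain ⟨-, -, -, -, -, d0, d1, d2, -⟩ := h.der hα D hc hu hv
  have hn : ∀ n : K, n ≠ 0 → ∀ y, n * w * y = 0 → y = 0 := fun n hn y hy =>
    (mul_eq_zero.1 hy).resolve_left (mul_ne_zero hn hw)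
  have k1 : g1 = 0 := by
    rw [h0, map_zero] at d0
    exact hn (-2) (by norm_num) _ d0.symm
  have k2 : g2 = 0 := by
    rw [k1, map_zero] at d1
    exact hn (-4) (by norm_num) _ d1.symm
  have k3 : g3 = 0 := by
    rw [k2, map_zero] at d2
    exact hn (-6) (by norm_num) _ d2.symm
  have l3 : c.c03 = 0 := by rw [← h.hg3, k3]
  have l2 : c.c12 = 0 := by
    have := h.hg2
    rw [k2, l3] at this
    linear_combination -this
  have l1 : c.c21 = 0 := by
    have := h.hg1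
    rw [k1, l2, l3] at this
    linear_combination -this
  have l0 : c.c30 = 0 := by
    have := h.hg0
    rw [h0, l1, l2, l3] at this
    linear_combination -this
  exact h3 ⟨l0, l1, l2, l3⟩

end Pool.Agent.Y200.CY
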