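import Pool.Agent.Y200.CY.Stm4
import Pool.Agent.Y200.CY.Ders
import Pool.Agent.Y200.CY.A
import Pool.Agent.Y200.CB.Irr

/-! Plane cubics, possibly reducible (helper381, project CY). -/

set_option autoImplicit false
set_option linter.unusedSectionVars false

namespace Pool.Agent.Y200.CY.Ct

open MvPolynomial Pool.Agent.Y200.CB Pool.Agent.Y200.CY Pool.Agent.Y200.CY.A

section pol

variable {E : Type} [Field E]

theorem tdeg_le (g : MvPolynomial (Fin 2) E) (n : ℕ) (h : ∀ m ∈ g.support, m 0 + m 1 ≤ n) :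
    g.totalDegree ≤ n := by
  rw [totalDegree]
  apply Finset.sup_le
  intro m hm
  rw [Finsupp.sum_fintype _ _ (fun _ => rfl), Fin.sum_univ_two]
  exact h m hm

theorem of_tdeg_le (g : MvPolynomial (Fin 2) E) (n : ℕ) (h : g.totalDegree ≤ n) :
    ∀ m ∈ g.support, m 0 + m 1 ≤ n := by
  intro m hm
  have h1 := le_totalDegree hm
  rw [Finsupp.sum_fintype _ _ (fun _ => rfl), Fin.sum_univ_two] at h1
  exact h1.trans h

theorem eq_ex (m : Fin 2 →₀ ℕ) : m = ex (m 0) (m 1) := by
  ext i
  fin_cases i
  · exact (ex_zero _ _).symm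
  · exact (ex_one _ _).symm

/-- the coefficients of a polynomial of degree at most three -/
noncomputable def cubOf (g : MvPolynomial (Fin 2) E) : Cub E :=
  ⟨coeff (ex 0 0) g, coeff (ex 1 0) g, coeff (ex 0 1) g, coeff (ex 2 0) g, coeff (ex 1 1) g,
    coeff (ex 0 2) g, coeff (ex 3 0) g, coeff (ex 2 1) g, coeff (ex 1 2) g, coeff (ex 0 3) g⟩

theorem aff_cubOf [CharZero E] (g : MvPolynomial (Fin 2) E) (h : ∀ m ∈ g.support, m 0 + m 1 ≤ 3) :
    (cubOf g).aff = g := by
  classical
  rw [aff_eq]
  ext m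
  rw [eq_ex m]
  obtain ⟨i, hi⟩ : ∃ i, i = m 0 := ⟨_, rfl⟩
  obtain ⟨j, hj⟩ : ∃ j, j = m 1 := ⟨_, rfl⟩
  have h0 : 3 < i + j → coeff (ex i j) g = 0 := by
    intro hlt
    by_contra hne
    have := h _ (mem_support_iff.2 hne)
    rw [ex_zero, ex_one] at this
    omega
  rw [← hi, ← hj]
  simp only [coeff_add, coeff_monomial, ex_inj, cubOf]
  by_cases hij : i + j ≤ 3
  · have hi3 : i ≤ 3 := by omega
    have hj3 : j ≤ 3 := by omega
    interval_cases i <;> interval_cases j <;> simp at hij ⊢
  · rw [h0 (by omega)]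
    have hn : ∀ a b : ℕ, a + b ≤ 3 → ¬ (a = i ∧ b = j) := by
      intro a b hab hc
      omega
    rw [if_neg (hn 0 0 (by norm_num)), if_neg (hn 1 0 (by norm_num)), if_neg (hn 0 1 (by norm_num)),
      if_neg (hn 2 0 (by norm_num)), if_neg (hn 1 1 (by norm_num)), if_neg (hn 0 2 (by norm_num)),
      if_neg (hn 3 0 (by norm_num)), if_neg (hn 2 1 (by norm_num)), if_neg (hn 1 2 (by norm_num)),
      if_neg (hn 0 3 (by norm_num))]
    simp

theorem tdeg_quad (a0 a1 a2 a3 a4 a5 : E) : (monomial (ex 0 0) a0 + monomial (ex 1 0) a1 +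
    monomial (ex 0 1) a2 + monomial (ex 2 0) a3 + monomial (ex 1 1) a4 +
    monomial (ex 0 2) a5).totalDegree ≤ 2 := by
  have hadd : ∀ p q : MvPolynomial (Fin 2) E, p.totalDegree ≤ 2 → q.totalDegree ≤ 2 →
      (p + q).totalDegree ≤ 2 := fun p q hp hq => (totalDegree_add p q).trans (max_le hp hq)
  have hm : ∀ (i j : ℕ) (a : E), i + j ≤ 2 → (monomial (ex i j) a).totalDegree ≤ 2 := by
    intro i j a hij
    refine (totalDegree_monomial_le _ _).trans ?_
    rw [ex, Finsupp.sum_add_index' (fun _ => rfl) (fun _ _ _ => rfl)]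
    simpa using hij
  repeat' apply hadd
  all_goals
    apply hm
    norm_num

end pol

section gen

variable {L K : Type} [Field L] [CharZero L] [Field K] [Algebra L K]

theorem ai_one {t : K} (ht : Transcendental L t) : AlgebraicIndependent L ![t] := by
  rw [algebraicIndependent_unique_type_iff]
  exact ht

theorem swap_ai {a b : K} (h : AlgebraicIndependent L (Fin.cons a ![b] : Fin 2 → K)) :
    AlgebraicIndependent L (Fin.cons b ![a] : Fin 2 → K) := by
  have h1 := h.comp (Equiv.swap (0 : Fin 2) 1) (Equiv.injective _)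
  convert h1 using 1
  funext i
  fin_cases i
  · simp
  · simp

/-- elements killed by a derivation of the function field of a curve are algebraic -/
theorem der_zero {u v : K} (hgen : IntermediateField.adjoin L {u, v} = ⊤)
    (hu : Transcendental L u) (hnot : ¬ AlgebraicIndependent L (Fin.cons u ![v] : Fin 2 → K))
    (D : Derivation L K K) (hD : D u ≠ 0) {y : K} (hy : D y = 0) : IsAlgebraic L y := by
  by_contra hyt
  have hvcl : v ∈ cl L (Set.range (![u] : Fin 1 → K)) := by
    by_contra hv
    apply hnot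
    apply swap_ai
    exact (indep_cons_cl ![u] v).2 ⟨ai_one hu, hv⟩
  have hucl : u ∈ cl L (Set.range (![u] : Fin 1 → K)) := subset_cl _ ⟨0, rfl⟩
  have htop : y ∈ cl L (Set.range (![u] : Fin 1 → K)) := by
    have h1 : IntermediateField.adjoin L {u, v} ≤ cl L (Set.range (![u] : Fin 1 → K)) := by
      rw [IntermediateField.adjoin_le_iff]
      rintro z (rfl | rfl)
      · exact hucl
      · exact hvcl
    rw [hgen] at h1
    exact h1 IntermediateField.mem_top
  have h2 : ¬ AlgebraicIndependent L (Fin.cons u ![y] : Fin 2 → K) := by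
    intro h
    exact ((indep_cons_cl ![u] y).1 (swap_ai h)).2 htop
  have h3 : u ∈ cl L (Set.range (![y] : Fin 1 → K)) := by
    by_contra h
    exact h2 ((indep_cons_cl ![y] u).2 ⟨ai_one hyt, h⟩)
  apply hD
  apply der_cl D _ h3
  rintro s ⟨i, rfl⟩
  fin_cases i
  exact hy

end gen

theorem ct : StmQD → StmCT := by
  intro hQD Ω K _ _ _ _ L hL u v hgen huv g0 hg0 hg0z hg0s
  classical
  have c1 : CharZero L := charZero_of_injective_algebraMap (algebraMap Ω L).injective
  have c2 : CharZero K := charZero_of_injective_algebraMap (algebraMap Ω K).injective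
  -- coordinates in the base field
  by_cases huL : u ∈ L
  · left
    refine hQD Ω K L hL u v hgen huv (X 0 - C ⟨u, huL⟩) ?_ ?_ (Or.inl ?_)
    · intro h
      have := congrArg (eval (fun _ => (⟨u, huL⟩ : L) + 1)) h
      simp at this
    · simp
    · intro m hm
      have h1 : (X 0 - C ⟨u, huL⟩ : MvPolynomial (Fin 2) L).totalDegree ≤ 1 := by
        refine (totalDegree_sub _ _).trans (max_le ?_ ?_)
        · rw [totalDegree_X]
        · rw [totalDegree_C]; exact Nat.zero_le _
      have := of_tdeg_le _ _ h1 m hm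
      omega
  by_cases hvL : v ∈ L
  · left
    refine hQD Ω K L hL u v hgen huv (X 1 - C ⟨v, hvL⟩) ?_ ?_ (Or.inl ?_)
    · intro h
      have := congrArg (eval (fun _ => (⟨v, hvL⟩ : L) + 1)) h
      simp at this
    · simp
    · intro m hm
      have h1 : (X 1 - C ⟨v, hvL⟩ : MvPolynomial (Fin 2) L).totalDegree ≤ 1 := by
        refine (totalDegree_sub _ _).trans (max_le ?_ ?_)
        · rw [totalDegree_X]
        · rw [totalDegree_C]; exact Nat.zero_le _
      have := of_tdeg_le _ _ h1 m hm
      omega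
  have hut : Transcendental L u := fun h => huL (hL u h)
  have hvt : Transcendental L v := fun h => hvL (hL v h)
  -- an irreducible equation
  obtain ⟨g, hg, hgz, hgd, hirr⟩ : ∃ g : MvPolynomial (Fin 2) L, g ≠ 0 ∧ aeval ![u, v] g = 0 ∧
      g.totalDegree ≤ 3 ∧ Irreducible g := by
    have hex : ∃ n, ∃ g : MvPolynomial (Fin 2) L, g ≠ 0 ∧ aeval ![u, v] g = 0 ∧
        g.totalDegree = n := ⟨_, g0, hg0, hg0z, rfl⟩
    obtain ⟨g, hg, hgz, hgn⟩ := Nat.find_spec hex
    have hmin : ∀ h : MvPolynomial (Fin 2) L, h ≠ 0 → aeval ![u, v] h = 0 →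
        g.totalDegree ≤ h.totalDegree := by
      intro h hh hhz
      rw [hgn]
      exact Nat.find_min' hex ⟨h, hh, hhz, rfl⟩
    refine ⟨g, hg, hgz, (hmin g0 hg0 hg0z).trans (tdeg_le _ _ hg0s), ?_, ?_⟩
    · intro hun
      have h1 := hun.map (aeval ![u, v] : MvPolynomial (Fin 2) L →ₐ[L] K)
      rw [hgz] at h1
      exact not_isUnit_zero h1
    · intro a b hab
      have ha : a ≠ 0 := by rintro rfl; exact hg (by rw [hab, zero_mul])
      have hb : b ≠ 0 := by rintro rfl; exact hg (by rw [hab, mul_zero])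
      have hdeg : g.totalDegree = a.totalDegree + b.totalDegree := by
        rw [hab, totalDegree_mul_of_isDomain ha hb]
      have hun : ∀ p : MvPolynomial (Fin 2) L, p ≠ 0 → p.totalDegree = 0 → IsUnit p := by
        intro p hp hp0
        rw [totalDegree_eq_zero_iff_eq_C] at hp0
        rw [hp0]
        apply IsUnit.map C
        rw [isUnit_iff_ne_zero]
        intro h0
        apply hp
        rw [hp0, h0, C_0]
      have hz := hgz
      rw [hab, map_mul] at hz
      rcases mul_eq_zero.1 hz with h1 | h1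
      · right
        have := hmin a ha h1
        exact hun b hb (by omega)
      · left
        have := hmin b hb h1
        exact hun a ha (by omega)
  have hgs := of_tdeg_le g 3 hgd
  by_cases h02 : ∀ m ∈ g.support, m 0 ≤ 2
  · left
    exact hQD Ω K L hL u v hgen huv g hg hgz (Or.inr (Or.inr fun m hm => ⟨hgs m hm, h02 m hm⟩))
  right
  push Not at h02
  obtain ⟨m, hm, hm3⟩ := h02
  have hm0 := hgs m hm
  have hcoef : coeff (ex 3 0) g ≠ 0 := by
    have : m = ex 3 0 := by
      rw [eq_ex m, ex_inj]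
      omega
    rw [← this]
    exact mem_support_iff.1 hm
  obtain ⟨c, hc⟩ : ∃ c : Cub L, c = cubOf g := ⟨_, rfl⟩
  have hca : c.aff = g := by rw [hc]; exact aff_cubOf g hgs
  have hc30 : c.c30 ≠ 0 := by rw [hc]; exact hcoef
  have hdeg3 : c.Deg3 := fun h => hc30 h.1
  have htd : g.totalDegree = 3 := by rw [← hca]; exact totalDegree_aff c hdeg3
  -- the kernel
  have hker : ∀ P : MvPolynomial (Fin 2) L, aeval ![u, v] P = 0 → g ∣ P := by
    intro P hP
    refine ker_eq (finSuccEquiv 1) g hirr ![u, v] hgz ?_ P hP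
    rw [algebraicIndependent_unique_type_iff]
    have e1 : (![u, v] : Fin 2 → K) ((finSuccEquiv 1).symm (some default)) = v := by
      rw [finSuccEquiv_symm_some]
      rfl
    rw [e1]
    exact hvt
  have hsmall : ∀ P : MvPolynomial (Fin 2) L, aeval ![u, v] P = 0 → P.totalDegree ≤ 2 → P = 0 := by
    intro P hP hd
    by_contra hne
    have := totalDegree_le_of_dvd_of_isDomain (hker P hP) hne
    omega
  have hev : (c.map (algebraMap L K)).ev 1 u v = 0 := by
    rw [← aeval_aff, hca, hgz]
  -- the second derivative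
  have hd2 : (c.map (algebraMap L K)).d2 1 u v ≠ 0 := by
    intro h
    obtain ⟨G, hG⟩ : ∃ G : MvPolynomial (Fin 2) L, G = monomial (ex 0 0) c.c01 +
      monomial (ex 1 0) c.c11 + monomial (ex 0 1) (2 * c.c02) + monomial (ex 2 0) c.c21 +
      monomial (ex 1 1) (2 * c.c12) + monomial (ex 0 2) (3 * c.c03) := ⟨_, rfl⟩
    have hG0 : G = 0 := by
      apply hsmall
      · have t2 : algebraMap L K 2 = 2 := map_ofNat _ 2
        have t3 : algebraMap L K 3 = 3 := map_ofNat _ 3
        have x0 : (![u, v] : Fin 2 → K) 0 = u := rfl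
        have x1 : (![u, v] : Fin 2 → K) 1 = v := rfl
        rw [hG, ← h]
        simp only [mon, map_add, map_mul, map_pow, aeval_X, aeval_C, Cub.d2, Cub.map, t2, t3, x0,
          x1]
        ring
      · rw [hG]
        exact tdeg_quad _ _ _ _ _ _
    have hev2 : ∀ x : Fin 2 → L, eval x (1 + G) = (1 + c.c01) + c.c11 * x 0 +
        (2 * c.c02) * x 1 + c.c21 * x 0 ^ 2 + (2 * c.c12) * x 0 * x 1 + (3 * c.c03) * x 1 ^ 2 := by
      intro x
      rw [hG]
      simp only [mon, map_add, map_mul, map_pow, eval_X, eval_C, map_one]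
      ring
    have hall : c.c11 = 0 ∧ 2 * c.c02 = 0 ∧ c.c21 = 0 ∧ 2 * c.c12 = 0 ∧ 3 * c.c03 = 0 := by
      by_contra hne
      apply not_unit (1 + G) _ _ _ _ _ _ hev2 hne
      rw [hG0, add_zero]
      exact isUnit_one
    obtain ⟨k1, k2, k3, k4, k5⟩ := hall
    have k0 : c.c01 = 0 := by
      have := hev2 (fun _ => 0)
      rw [hG0] at this
      simp at this
      exact this
    have two : (2 : L) ≠ 0 := two_ne_zero
    have three : (3 : L) ≠ 0 := three_ne_zero
    have k2' := (mul_eq_zero.1 k2).resolve_left two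
    have k4' := (mul_eq_zero.1 k4).resolve_left two
    have k5' := (mul_eq_zero.1 k5).resolve_left three
    obtain ⟨-, -, -, e3⟩ := cub_zero hut c.c00 c.c10 c.c20 c.c30 (by
      have h5 := hev
      simp only [Cub.ev, Cub.map, k0, k1, k2', k3, k4', k5', map_zero] at h5
      linear_combination h5)
    exact hc30 e3
  -- not a flex
  have hflex : (c.map (algebraMap L K)).flex u v ≠ 0 := by
    intro hfl
    obtain ⟨C', hC'⟩ : ∃ C' : Cub K, C' = c.map (algebraMap L K) := ⟨_, rfl⟩
    rw [← hC'] at hd2 hfl hev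
    obtain ⟨D, hD⟩ := exists_der ![u] (ai_one hut) ![C'.d2 1 u v]
    have hDu : D u = C'.d2 1 u v := hD 0
    have z : ∀ a : L, D (algebraMap L K a) = 0 := fun a => D.map_algebraMap a
    have e00 : D C'.c00 = 0 := by rw [hC']; exact z _
    have e10 : D C'.c10 = 0 := by rw [hC']; exact z _
    have e01 : D C'.c01 = 0 := by rw [hC']; exact z _
    have e20 : D C'.c20 = 0 := by rw [hC']; exact z _
    have e11 : D C'.c11 = 0 := by rw [hC']; exact z _
    have e02 : D C'.c02 = 0 := by rw [hC']; exact z _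
    have e30 : D C'.c30 = 0 := by rw [hC']; exact z _
    have e21 : D C'.c21 = 0 := by rw [hC']; exact z _
    have e12 : D C'.c12 = 0 := by rw [hC']; exact z _
    have e03 : D C'.c03 = 0 := by rw [hC']; exact z _
    have hco : ∀ i, D (C'.co i) = 0 := by
      intro i
      fin_cases i
      · exact e00
      · exact e10
      · exact e01
      · exact e20
      · exact e11
      · exact e02
      · exact e30
      · exact e21
      · exact e12
      · exact e03
    have hDev : C'.d1 1 u v * D u + C'.d2 1 u v * D v = 0 := by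
      have h1 : D (C'.ev 1 u v) = 0 := by rw [hev, map_zero]
      rw [← h1]
      have e : C'.ev 1 u v = C'.c00 + (C'.c10 * u + C'.c01 * v) +
          (C'.c20 * (u * u) + C'.c11 * u * v + C'.c02 * (v * v)) +
          (C'.c30 * (u * u * u) + C'.c21 * (u * u) * v + C'.c12 * u * (v * v) +
            C'.c03 * (v * v * v)) := by
        rw [Cub.ev]; ring
      rw [e, Cub.d1, Cub.d2]
      simp only [map_add, Derivation.leibniz, smul_eq_mul, e00, e10, e01, e20, e11, e02, e30, e21,
        e12, e03]
      ring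
    obtain ⟨α, m', w, b1, b2, g0', g1, g2, g3, hT⟩ := exists_tc C' u v hd2
    have hα : α ≠ 0 := by rw [← hT.ha]; exact hd2
    have hDu' : D u = α := by rw [hDu, hT.ha]
    have hDv : D v = α * m' := by
      rw [hDu', hT.ha, hT.hm] at hDev
      have : α * (D v - α * m') = 0 := by linear_combination hDev
      rcases mul_eq_zero.1 this with h1 | h1
      · exact absurd h1 hα
      · linear_combination h1
    obtain ⟨-, dm, -⟩ := hT.der hα D hco hDu' hDv
    have hw : w = 0 := by
      rw [hT.flex] at hfl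
      exact (mul_eq_zero.1 hfl).resolve_left (pow_ne_zero 2 hα)
    rw [hw, mul_zero] at dm
    have hDu0 : D u ≠ 0 := by rw [hDu']; exact hα
    have hnot : ¬ AlgebraicIndependent L (Fin.cons u ![v] : Fin 2 → K) := by
      intro hai
      have h1 : (Fin.cons u ![v] : Fin 2 → K) = ![u, v] := rfl
      rw [h1] at hai
      exact hg ((algebraicIndependent_iff.1 hai) g hgz)
    have hm1 : m' ∈ L := hL _ (der_zero hgen hut hnot D hDu0 dm)
    have hm2 : v - m' * u ∈ L := by
      apply hL _ (der_zero hgen hut hnot D hDu0 _)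
      rw [map_sub, D.leibniz, dm, hDu', hDv, smul_eq_mul, smul_zero]
      ring
    obtain ⟨H, hH⟩ : ∃ H : MvPolynomial (Fin 2) L, H = monomial (ex 0 0) (-(⟨_, hm2⟩ : L)) +
      monomial (ex 1 0) (-(⟨_, hm1⟩ : L)) + monomial (ex 0 1) 1 + monomial (ex 2 0) 0 +
      monomial (ex 1 1) 0 + monomial (ex 0 2) 0 := ⟨_, rfl⟩
    have hH0 : H = 0 := by
      apply hsmall
      · have a1 : algebraMap L K ⟨_, hm2⟩ = v - m' * u := rfl
        have a2 : algebraMap L K ⟨_, hm1⟩ = m' := rfl
        rw [hH]
        simp only [mon, map_add, map_mul, map_pow, aeval_X, aeval_C, map_neg, a1, a2, map_zero,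
          map_one]
        simp
        ring
      · rw [hH]
        exact tdeg_quad _ _ _ _ _ _
    have h1 := congrArg (eval (![0, (⟨_, hm2⟩ : L) + 1])) hH0
    rw [hH] at h1
    simp [mon] at h1
  refine ⟨c, u, v, ?_, hev, hd2, hflex, hdeg3, hgen⟩
  intro P hP
  rw [hca]
  exact hker P hP

end Pool.Agent.Y200.CY.Ct
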