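import Pool.Agent.Y200.CY.Stm4
import Pool.Agent.Y200.CY.Ker

/-! The fibres in the planes of two variables joined by an edge (helper76, project CY). -/

set_option autoImplicit false

namespace Pool.Agent.Y200.CY.Ed

open MvPolynomial Pool.Agent.Y200.CB Pool.Agent.Y200.CY

theorem ed : StmQD → StmCT → StmED := by
  intro hQD hCT Ω K _ _ _ _ N f x hx p q hpq hfp hfq hE
  classical
  set S : Set K := x '' {l | l ≠ p ∧ l ≠ q} with hS
  set L : IntermediateField Ω K := cl Ω S with hL
  have hLx : ∀ l, l ≠ p → l ≠ q → x l ∈ L := fun l h1 h2 => subset_cl S ⟨l, ⟨h1, h2⟩, rfl⟩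
  have hLalg : ∀ a : K, IsAlgebraic L a → a ∈ L := fun a ha => mem_cl_of_isAlgebraic ha
  refine ⟨L, ?_, ?_⟩
  · intro D hD a ha
    refine der_cl D ?_ ha
    rintro _ ⟨l, ⟨h1, h2⟩, rfl⟩
    exact hD l h1 h2
  have hf0 : f ≠ 0 := ne_zero_of_degreeOf_ne_zero hfp
  -- generation
  have hgen : IntermediateField.adjoin L {x p, x q} = ⊤ := by
    rw [eq_top_iff]
    intro y _
    have h1 : IntermediateField.adjoin Ω (Set.range x) ≤
        (IntermediateField.adjoin L {x p, x q}).restrictScalars Ω := by
      rw [IntermediateField.adjoin_le_iff]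
      rintro _ ⟨l, rfl⟩
      change x l ∈ IntermediateField.adjoin L {x p, x q}
      by_cases h1 : l = p
      · rw [h1]
        exact IntermediateField.subset_adjoin _ _ (by simp)
      · by_cases h2 : l = q
        · rw [h2]
          exact IntermediateField.subset_adjoin _ _ (by simp)
        · exact IntermediateField.algebraMap_mem _ (⟨x l, hLx l h1 h2⟩ : L)
    have h2 : y ∈ IntermediateField.adjoin Ω (Set.range x) := by
      rw [hx.generates]
      trivial
    exact h1 h2
  -- not both coordinates are in `L`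
  have hnot : ¬ (x p ∈ L ∧ x q ∈ L) := by
    rintro ⟨hp, -⟩
    have hAI : AlgebraicIndependent Ω (fun l : {l : Fin N // l ≠ q} => x l) :=
      Ker.ai Ω K N f x hx q hfq
    have htr : Transcendental (IntermediateField.adjoin Ω S) (x p) := by
      have h1 := hAI.transcendental_adjoin (s := {l | l.1 ≠ p}) (i := ⟨p, hpq⟩)
        (by simp)
      have h2 : (fun l : {l : Fin N // l ≠ q} => x l) '' {l | l.1 ≠ p} =
          x '' {l | l ≠ p ∧ l ≠ q} := by
        ext y
        constructor
        · rintro ⟨l, hl, rfl⟩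
          exact ⟨l.1, ⟨hl, l.2⟩, rfl⟩
        · rintro ⟨l, ⟨h1, h2⟩, rfl⟩
          exact ⟨⟨l, h2⟩, h1, rfl⟩
      rw [h2] at h1
      exact IntermediateField.transcendental_adjoin_iff.2 h1
    exact htr (mem_cl.1 hp)
  -- the equation
  let xL : Fin N → L := fun l => if h : l ≠ p ∧ l ≠ q then ⟨x l, hLx l h.1 h.2⟩ else 1
  have hxL : ∀ l, l ≠ p → l ≠ q → ((xL l : L) : K) = x l := by
    intro l h1 h2
    change (((if h : l ≠ p ∧ l ≠ q then ⟨x l, hLx l h.1 h.2⟩ else 1 : L)) : K) = x l
    rw [dif_pos ⟨h1, h2⟩]
  have hxLp : xL p = 1 := dif_neg (by simp)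
  have hxLq : xL q = 1 := dif_neg (by simp)
  let v : (Fin N →₀ ℕ) → L := fun m => algebraMap Ω L (coeff m f) * ∏ l, xL l ^ m l
  let e : (Fin N →₀ ℕ) → (Fin 2 →₀ ℕ) := fun m =>
    Finsupp.single 0 (m p) + Finsupp.single 1 (m q)
  have he0 : ∀ m, e m 0 = m p := by
    intro m
    simp [e]
  have he1 : ∀ m, e m 1 = m q := by
    intro m
    simp [e]
  let g : MvPolynomial (Fin 2) L := ∑ m ∈ f.support, monomial (e m) (v m)
  -- the value of `g`
  have hprod : ∀ m : Fin N →₀ ℕ, (∏ l, x l ^ m l) =
      x p ^ m p * x q ^ m q * ∏ l, ((xL l : L) : K) ^ m l := by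
    intro m
    have h1 : x p ^ m p = ∏ l, (if l = p then x p ^ m p else 1) := by
      rw [Finset.prod_ite_eq' Finset.univ p (fun _ => x p ^ m p)]
      simp
    have h2 : x q ^ m q = ∏ l, (if l = q then x q ^ m q else 1) := by
      rw [Finset.prod_ite_eq' Finset.univ q (fun _ => x q ^ m q)]
      simp
    rw [h1, h2, ← Finset.prod_mul_distrib, ← Finset.prod_mul_distrib]
    refine Finset.prod_congr rfl fun l _ => ?_
    by_cases hl : l = p
    · subst hl
      rw [if_pos rfl, if_neg hpq, hxLp]
      simp
    · by_cases hl' : l = q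
      · subst hl'
        rw [if_neg hl, if_pos rfl, hxLq]
        simp
      · rw [if_neg hl, if_neg hl', hxL l hl hl']
        simp
  have hval : aeval ![x p, x q] g = 0 := by
    have h1 : aeval ![x p, x q] g = aeval x f := by
      have h2 : aeval x f = ∑ m ∈ f.support, algebraMap Ω K (coeff m f) * ∏ l, x l ^ m l := by
        rw [aeval_def, eval₂_eq']
      rw [h2]
      change aeval ![x p, x q] (∑ m ∈ f.support, monomial (e m) (v m)) = _
      rw [map_sum]
      refine Finset.sum_congr rfl fun m _ => ?_
      rw [aeval_monomial, hprod m]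
      have h3 : ((e m).prod fun i k => (![x p, x q] : Fin 2 → K) i ^ k) =
          x p ^ m p * x q ^ m q := by
        rw [Finsupp.prod_fintype _ _ (fun i => pow_zero _), Fin.prod_univ_two, he0, he1]
        rfl
      rw [h3]
      have h4 : algebraMap L K (v m) =
          algebraMap Ω K (coeff m f) * ∏ l, ((xL l : L) : K) ^ m l := by
        change algebraMap L K (algebraMap Ω L (coeff m f) * ∏ l, xL l ^ m l) = _
        rw [map_mul, map_prod]
        simp only [map_pow]
        rfl
      rw [h4]
      ring
    rw [h1]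
    exact (hx.zero_iff f).2 dvd_rfl
  have hcoeff : ∀ n, coeff n g = ∑ m ∈ f.support, if e m = n then v m else 0 := by
    intro n
    change coeff n (∑ m ∈ f.support, monomial (e m) (v m)) = _
    rw [coeff_sum]
    refine Finset.sum_congr rfl fun m _ => ?_
    rw [coeff_monomial]
  have hsupp : ∀ n ∈ g.support, ∃ m ∈ f.support, m p = n 0 ∧ m q = n 1 := by
    intro n hn
    rw [mem_support_iff, hcoeff n] at hn
    obtain ⟨m, hm, hm'⟩ := Finset.exists_ne_zero_of_sum_ne_zero hn
    have h1 : e m = n := by
      by_contra h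
      exact hm' (if_neg h)
    exact ⟨m, hm, by rw [← h1, he0], by rw [← h1, he1]⟩
  have hg0 : g ≠ 0 := by
    intro hg
    obtain ⟨m₀, hm₀⟩ := (MvPolynomial.ne_zero_iff.1 hf0)
    have hm₀s : m₀ ∈ f.support := mem_support_iff.2 hm₀
    set T : Finset (Fin N →₀ ℕ) := f.support.filter (fun m => e m = e m₀) with hT
    let r : (Fin N →₀ ℕ) → (Fin N →₀ ℕ) := fun m => (m.erase p).erase q
    have hrp : ∀ m, r m p = 0 := by
      intro m
      change ((m.erase p).erase q) p = 0
      rw [Finsupp.erase_ne hpq, Finsupp.erase_same]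
    have hrq : ∀ m, r m q = 0 := by
      intro m
      change ((m.erase p).erase q) q = 0
      rw [Finsupp.erase_same]
    have hrl : ∀ m l, l ≠ p → l ≠ q → r m l = m l := by
      intro m l h1 h2
      change ((m.erase p).erase q) l = m l
      rw [Finsupp.erase_ne h2, Finsupp.erase_ne h1]
    let P : MvPolynomial (Fin N) Ω := ∑ m ∈ T, monomial (r m) (coeff m f)
    have hP : aeval x P = 0 := by
      have h1 : coeff (e m₀) g = ∑ m ∈ T, v m := by
        rw [hcoeff, hT, Finset.sum_filter]
      rw [hg, coeff_zero] at h1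
      have h2 : aeval x P = ((∑ m ∈ T, v m : L) : K) := by
        change aeval x (∑ m ∈ T, monomial (r m) (coeff m f)) = algebraMap L K (∑ m ∈ T, v m)
        rw [map_sum, map_sum]
        refine Finset.sum_congr rfl fun m _ => ?_
        rw [aeval_monomial, Finsupp.prod_fintype _ _ (fun i => pow_zero _)]
        change _ = algebraMap L K (algebraMap Ω L (coeff m f) * ∏ l, xL l ^ m l)
        rw [map_mul, map_prod]
        congr 1
        refine Finset.prod_congr rfl fun l _ => ?_
        rw [map_pow]
        by_cases hl : l = p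
        · rw [hl, hrp, hxLp, map_one, one_pow, pow_zero]
        · by_cases hl' : l = q
          · rw [hl', hrq, hxLq, map_one, one_pow, pow_zero]
          · rw [hrl m l hl hl']
            congr 1
            exact (hxL l hl hl').symm
      rw [h2, ← h1]
      rfl
    have hP0 : P ≠ 0 := by
      intro h0
      have h1 : coeff (r m₀) P = coeff m₀ f := by
        change coeff (r m₀) (∑ m ∈ T, monomial (r m) (coeff m f)) = _
        rw [coeff_sum, Finset.sum_eq_single m₀]
        · rw [coeff_monomial, if_pos rfl]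
        · intro m hm hne
          rw [coeff_monomial, if_neg]
          intro hr
          apply hne
          have hem : e m = e m₀ := (Finset.mem_filter.1 hm).2
          ext l
          by_cases hl : l = p
          · rw [hl, ← he0 m, ← he0 m₀, hem]
          · by_cases hl' : l = q
            · rw [hl', ← he1 m, ← he1 m₀, hem]
            · rw [← hrl m l hl hl', ← hrl m₀ l hl hl', hr]
        · intro hn
          have hmT : m₀ ∈ T := by
            rw [hT, Finset.mem_filter]
            exact ⟨hm₀s, rfl⟩
          exact absurd hmT hn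
      rw [h0, coeff_zero] at h1
      exact hm₀ h1.symm
    obtain ⟨G, hG⟩ := (hx.zero_iff P).1 hP
    have hG0 : G ≠ 0 := by
      rintro rfl
      rw [mul_zero] at hG
      exact hP0 hG
    have hdeg : degreeOf q P = 0 := by
      rw [← Nat.le_zero, degreeOf_le_iff]
      intro m hm
      rw [mem_support_iff] at hm
      change coeff m (∑ m' ∈ T, monomial (r m') (coeff m' f)) ≠ 0 at hm
      rw [coeff_sum] at hm
      obtain ⟨m', -, hm'⟩ := Finset.exists_ne_zero_of_sum_ne_zero hm
      rw [coeff_monomial] at hm'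
      have h1 : r m' = m := by
        by_contra h
        exact hm' (if_neg h)
      rw [← h1, hrq]
    rw [hG, degreeOf_mul_eq hf0 hG0] at hdeg
    omega
  rcases hE with h | h | h
  · left
    refine hQD Ω K L hLalg (x p) (x q) hgen hnot g hg0 hval (Or.inl ?_)
    intro n hn
    obtain ⟨m, hm, h1, h2⟩ := hsupp n hn
    rw [← h1, ← h2]
    exact h m hm
  · refine hCT Ω K L hLalg (x p) (x q) hgen hnot g hg0 hval ?_
    intro n hn
    obtain ⟨m, hm, h1, h2⟩ := hsupp n hn
    rw [← h1, ← h2]
    exact h m hm
  · left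
    refine hQD Ω K L hLalg (x p) (x q) hgen hnot g hg0 hval (Or.inr (Or.inl ?_))
    intro n hn
    obtain ⟨m, hm, h1, h2⟩ := hsupp n hn
    rw [← h1, ← h2]
    exact h m hm

end Pool.Agent.Y200.CY.Ed
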