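import Pool.Agent.Y200.CY.Stm5
import Pool.Agent.Y200.CY.Lie
import Pool.Agent.Y200.CY.Sym

/-! Generation of the Lie algebra of vector fields, relative version (helper200, project CY). -/

set_option autoImplicit false

namespace Pool.Agent.Y200.CY.Gen

open MvPolynomial Pool.Agent.Y200.CB

section

variable {k K : Type} [Field k] [Field K] [Algebra k K]

/-- the Lie algebra generated by a set of vector fields which is stable under the multiplication
by functions is stable under it, too -/
theorem smul_mem {s : Set (Derivation k K K)} (hs : ∀ D ∈ s, ∀ c : K, c • D ∈ s)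
    {D : Derivation k K K} (hD : D ∈ LieSubalgebra.lieSpan k (Derivation k K K) s) (c : K) :
    c • D ∈ LieSubalgebra.lieSpan k (Derivation k K K) s := by
  revert c
  induction hD using LieSubalgebra.lieSpan_induction with
  | mem D h => exact fun c => LieSubalgebra.subset_lieSpan (hs D h c)
  | zero => intro c; rw [smul_zero]; exact LieSubalgebra.zero_mem _
  | add D E _ _ hD hE => intro c; rw [smul_add]; exact LieSubalgebra.add_mem _ (hD c) (hE c)
  | smul t D _ hD =>
    intro c
    rw [smul_comm]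
    exact LieSubalgebra.smul_mem _ t (hD c)
  | lie D E hD' hE' hD hE =>
    intro c
    have h1 : c • ⁅D, E⁆ = ⁅c • D, E⁆ + (E c) • D := by
      ext a
      simp only [Derivation.commutator_apply, Derivation.smul_apply, Derivation.add_apply,
        smul_eq_mul, Derivation.leibniz]
      ring
    rw [h1]
    exact LieSubalgebra.add_mem _ (LieSubalgebra.lie_mem _ (hD c) hE') (hD _)

/-- a derivation over `k` which kills `L` is a derivation over `L` -/
noncomputable def up (L : IntermediateField k K) (D : Derivation k K K) (h : ∀ a ∈ L, D a = 0) :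
    Derivation L K K where
  toFun := D
  map_add' := D.map_add
  map_smul' := by
    intro a y
    have h1 : a • y = (a : K) * y := rfl
    rw [h1, D.leibniz, h _ a.2, smul_zero, add_zero]
    rfl
  map_one_eq_zero' := D.map_one_eq_zero
  leibniz' := D.leibniz

end

theorem genR (k K : Type) [Field k] [CharZero k] [Field K] [Algebra k K] (M : ℕ)
    (f : MvPolynomial (Fin M) k) (x : Fin M → K) (hx : GPt f x)
    (hf : ∀ l, aeval x (pderiv l f) ≠ 0) (A : Set (Fin M)) (L : IntermediateField k K)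
    (hL : L = IntermediateField.adjoin k (x '' A)) (R : Fin M → Fin M → Prop)
    (S : Set (IntermediateField L K))
    (hS : LieSubalgebra.lieSpan L (Derivation L K K) {D | ∃ E ∈ S, ∀ a ∈ E, D a = 0} = ⊤)
    (hA : ∀ q ∈ A, ∃ q' ∈ A, R q q' ∧ q ≠ q' ∧ ∃ D : Derivation L K K,
      D (aeval x (pderiv q f) / aeval x (pderiv q' f)) ≠ 0) :
    LieSubalgebra.lieSpan k (Derivation k K K)
      {D | (∃ E ∈ S, ∀ a ∈ E, D a = 0) ∨ ∃ q ∈ A, ∃ q' ∈ A, R q q' ∧ q ≠ q' ∧
        ∀ l, l ≠ q → l ≠ q' → D (x l) = 0} = ⊤ := by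
  classical
  obtain ⟨G, hG⟩ : ∃ G, G = {D : Derivation k K K | (∃ E ∈ S, ∀ a ∈ E, D a = 0) ∨
    ∃ q ∈ A, ∃ q' ∈ A, R q q' ∧ q ≠ q' ∧ ∀ l, l ≠ q → l ≠ q' → D (x l) = 0} := ⟨_, rfl⟩
  rw [← hG]
  have hGs : ∀ D ∈ G, ∀ c : K, c • D ∈ G := by
    intro D hD c
    rw [hG] at hD ⊢
    rcases hD with ⟨E, hE, h⟩ | ⟨q, hq, q', hq', hR, hne, h⟩
    · exact Or.inl ⟨E, hE, fun a ha => by rw [Derivation.smul_apply, h a ha, smul_zero]⟩
    · exact Or.inr ⟨q, hq, q', hq', hR, hne, fun l h1 h2 => by
        rw [Derivation.smul_apply, h l h1 h2, smul_zero]⟩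
  have hK : ∀ D ∈ LieSubalgebra.lieSpan k (Derivation k K K) G, ∀ c : K,
      c • D ∈ LieSubalgebra.lieSpan k (Derivation k K K) G := fun D hD c => smul_mem hGs hD c
  -- derivations over `L`
  have h1 : ∀ D : Derivation L K K,
      D.restrictScalars k ∈ LieSubalgebra.lieSpan k (Derivation k K K) G := by
    intro D
    have hD : D ∈ LieSubalgebra.lieSpan L (Derivation L K K)
        {D | ∃ E ∈ S, ∀ a ∈ E, D a = 0} := by rw [hS]; exact LieSubalgebra.mem_top _
    induction hD using LieSubalgebra.lieSpan_induction with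
    | mem D h =>
      apply LieSubalgebra.subset_lieSpan
      rw [hG]
      exact Or.inl h
    | zero => exact LieSubalgebra.zero_mem _
    | add D E _ _ hD hE => exact LieSubalgebra.add_mem _ hD hE
    | smul t D _ hD => exact hK _ hD (t : K)
    | lie D E _ _ hD hE => exact LieSubalgebra.lie_mem _ hD hE
  have hxL : ∀ l ∈ A, x l ∈ L := by
    intro l hl
    rw [hL]
    exact IntermediateField.subset_adjoin _ _ ⟨l, hl, rfl⟩
  have hkill : ∀ (D : Derivation L K K), ∀ l ∈ A, D (x l) = 0 := by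
    intro D l hl
    exact D.map_algebraMap ⟨x l, hxL l hl⟩
  -- the dual basis
  have h2 : ∀ q : Fin M, q ∈ A → ∃ Y ∈ LieSubalgebra.lieSpan k (Derivation k K K) G,
      Y (x q) = 1 ∧ ∀ l ∈ A, l ≠ q → Y (x l) = 0 := by
    intro q hq
    obtain ⟨q', hq', hR, hne, D, hD⟩ := hA q hq
    obtain ⟨T, hT1, hT2, hT3⟩ := Sym.tv k K M f x hx q q' hne
    obtain ⟨ρ, hρ⟩ : ∃ ρ, ρ = aeval x (pderiv q f) / aeval x (pderiv q' f) := ⟨_, rfl⟩
    rw [← hρ] at hD
    obtain ⟨U, hU⟩ : ∃ U, U = (aeval x (pderiv q' f))⁻¹ • T := ⟨_, rfl⟩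
    have hU1 : U (x q) = 1 := by
      rw [hU, Derivation.smul_apply, hT1, smul_eq_mul, inv_mul_cancel₀ (hf q')]
    have hU2 : U (x q') = -ρ := by
      rw [hU, Derivation.smul_apply, hT2, smul_eq_mul, hρ, mul_neg, div_eq_inv_mul]
    have hU3 : ∀ l, l ≠ q → l ≠ q' → U (x l) = 0 := by
      intro l h h'
      rw [hU, Derivation.smul_apply, hT3 l h h', smul_zero]
    have hUG : U ∈ LieSubalgebra.lieSpan k (Derivation k K K) G := by
      apply LieSubalgebra.subset_lieSpan
      rw [hG]
      exact Or.inr ⟨q, hq, q', hq', hR, hne, hU3⟩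
    obtain ⟨W, hW⟩ : ∃ W, W = ⁅D.restrictScalars k, U⁆ := ⟨_, rfl⟩
    have hWG : W ∈ LieSubalgebra.lieSpan k (Derivation k K K) G := by
      rw [hW]
      exact LieSubalgebra.lie_mem _ (h1 D) hUG
    have hWv : ∀ l ∈ A, W (x l) = D (U (x l)) := by
      intro l hl
      rw [hW, Derivation.commutator_apply, Derivation.restrictScalars_apply,
        Derivation.restrictScalars_apply, hkill D l hl, map_zero, sub_zero]
    refine ⟨U - (ρ / D ρ) • W, sub_mem hUG (hK _ hWG _), ?_, ?_⟩
    · rw [Derivation.sub_apply, Derivation.smul_apply, hWv q hq, hU1, D.map_one_eq_zero,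
        smul_zero, sub_zero]
    · intro l hl hlq
      rw [Derivation.sub_apply, Derivation.smul_apply, hWv l hl]
      by_cases h : l = q'
      · rw [h, hU2, map_neg, smul_eq_mul, mul_neg, div_mul_cancel₀ _ hD, sub_neg_eq_add,
          neg_add_cancel]
      · rw [hU3 l hlq h, map_zero, smul_zero, sub_zero]
  choose Y hY1 hY2 hY3 using h2
  rw [eq_top_iff]
  intro D _
  obtain ⟨E, hE⟩ : ∃ E : Derivation k K K,
    E = ∑ q : A, D (x q) • Y q q.2 := ⟨_, rfl⟩
  have hEG : E ∈ LieSubalgebra.lieSpan k (Derivation k K K) G := by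
    rw [hE]
    exact sum_mem fun q _ => hK _ (hY1 _ _) _
  have hEv : ∀ l ∈ A, E (x l) = D (x l) := by
    intro l hl
    rw [hE]
    have h3 : (∑ q : A, D (x q) • Y q q.2) (x l) = ∑ q : A, (D (x q) • Y q q.2) (x l) := by
      have h4 := congrFun (map_sum (Derivation.coeFnAddMonoidHom (R := k) (A := K) (M := K))
        (fun q : A => D (x q) • Y q q.2) Finset.univ) (x l)
      rw [Finset.sum_apply] at h4
      exact h4
    rw [h3, Finset.sum_eq_single (⟨l, hl⟩ : A)]
    · rw [Derivation.smul_apply, hY2, smul_eq_mul, mul_one]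
    · intro q _ hq
      rw [Derivation.smul_apply, hY3 q q.2 l hl (fun h => hq (Subtype.ext h.symm)), smul_zero]
    · intro h; exact absurd (Finset.mem_univ _) h
  have h0 : ∀ a ∈ L, (D - E) a = 0 := by
    have h4 : L ≤ consts (D - E) := by
      rw [hL, IntermediateField.adjoin_le_iff]
      rintro _ ⟨l, hl, rfl⟩
      show (D - E) (x l) = 0
      rw [Derivation.sub_apply, hEv l hl, sub_self]
    exact fun a ha => h4 ha
  have h5 : (up L (D - E) h0).restrictScalars k = D - E := by
    ext a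
    rfl
  have h6 := h1 (up L (D - E) h0)
  rw [h5] at h6
  have h7 := add_mem h6 hEG
  rwa [sub_add_cancel] at h7

end Pool.Agent.Y200.CY.Gen
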