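import Pool.Agent.Y200.CY.Stm4

/-!
# Curves which are quadratic in one variable are double covers of the line
-/

set_option autoImplicit false

namespace Pool.Agent.Y200.CY.Qd

open Pool.Agent.Y200.CY Polynomial

section

variable {Ω K : Type} [Field Ω] [Field K] [Algebra Ω K] (L : IntermediateField Ω K)

lemma aeval_mem (M : IntermediateField L K) {t : K} (ht : t ∈ M) (q : Polynomial L) :
    aeval t q ∈ M := by
  rw [aeval_eq_sum_range]
  exact M.sum_mem fun i _ => M.smul_mem (pow_mem ht i)

/-- the function field of the line -/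
theorem line (t : K) (ht : Transcendental L t) (htop : IntermediateField.adjoin L {t} = ⊤) :
    DCL L := by
  refine ⟨t ^ 2, t, X, ht.pow (by norm_num), by rw [aeval_X], by rw [natDegree_X]; norm_num, ?_, ?_⟩
  · rintro ⟨c, R, h⟩
    have hc : c ≠ 0 := by
      rintro rfl
      rw [map_zero, zero_mul] at h
      exact X_ne_zero h
    have h1 := congrArg natDegree h
    rw [natDegree_X, natDegree_C_mul hc, natDegree_pow] at h1
    omega
  · rw [← top_le_iff, ← htop]
    exact IntermediateField.adjoin.mono L _ _ (by simp)

variable [CharZero Ω]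

/-- quadratic equations over the field of the line -/
theorem quad (hL : ∀ a : K, IsAlgebraic L a → a ∈ L) (u t : K)
    (htop : IntermediateField.adjoin L {u, t} = ⊤) (ht : Transcendental L t) (A B G : Polynomial L)
    (hne : ¬ (A = 0 ∧ B = 0 ∧ G = 0))
    (hrel : aeval t A * u ^ 2 + aeval t B * u + aeval t G = 0)
    (hdeg : (B ^ 2 - 4 * A * G).natDegree ≤ 4) : DCL L := by
  have hcK : CharZero K := charZero_of_injective_algebraMap (algebraMap Ω K).injective
  have hz : ∀ q : Polynomial L, q ≠ 0 → aeval t q ≠ 0 := fun q hq h => ht ⟨q, hq, h⟩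
  set M := IntermediateField.adjoin L {t} with hM
  have htM : t ∈ M := IntermediateField.subset_adjoin _ _ (Set.mem_singleton t)
  have hpol : ∀ q : Polynomial L, aeval t q ∈ M := aeval_mem L M htM
  have key : u ∈ M → DCL L := by
    intro hu
    refine line L t ht ?_
    rw [← top_le_iff, ← htop, IntermediateField.adjoin_le_iff]
    intro x hx
    rcases hx with rfl | hx
    · exact hu
    · rw [Set.mem_singleton_iff.1 hx]
      exact htM
  by_cases hA : A = 0
  · subst hA
    rw [map_zero, zero_mul, zero_add] at hrel
    have hB : B ≠ 0 := by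
      rintro rfl
      rw [map_zero, zero_mul, zero_add] at hrel
      exact hne ⟨rfl, rfl, by
        by_contra hG
        exact hz G hG hrel⟩
    apply key
    have h1 : u = - aeval t G / aeval t B := by
      have := hz B hB
      field_simp
      linear_combination hrel
    rw [h1]
    exact M.div_mem (M.neg_mem (hpol G)) (hpol B)
  · have hAt := hz A hA
    have h2 : (2 : K) ≠ 0 := two_ne_zero
    set w := 2 * aeval t A * u + aeval t B with hw
    have hw2 : w ^ 2 = aeval t (B ^ 2 - 4 * A * G) := by
      rw [map_sub, map_pow, map_mul, map_mul, map_ofNat, hw]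
      linear_combination 4 * aeval t A * hrel
    have hu : u = (w - aeval t B) / (2 * aeval t A) := by
      rw [hw]
      field_simp
      ring
    have hmem : ∀ N : IntermediateField L K, t ∈ N → w ∈ N → u ∈ N := by
      intro N h1 h3
      rw [hu]
      refine N.div_mem (N.sub_mem h3 (aeval_mem L N h1 B)) (N.mul_mem ?_ (aeval_mem L N h1 A))
      exact ofNat_mem N 2
    by_cases hsq : ∃ (c : L) (R : Polynomial L), B ^ 2 - 4 * A * G = .C c * R ^ 2
    · obtain ⟨c, R, hR⟩ := hsq
      apply key
      apply hmem M htM
      rw [hR, map_mul, aeval_C, map_pow] at hw2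
      by_cases hR0 : aeval t R = 0
      · rw [hR0] at hw2
        have : w = 0 := by
          have h3 : w ^ 2 = 0 := by rw [hw2]; ring
          exact pow_eq_zero_iff (two_ne_zero) |>.1 h3
        rw [this]
        exact M.zero_mem
      · have h3 : (w / aeval t R) ^ 2 = algebraMap L K c := by
          rw [div_pow, hw2]
          field_simp
        have h4 : IsAlgebraic L (w / aeval t R) := by
          refine IsAlgebraic.of_pow (n := 2) (by norm_num) ?_
          rw [h3]
          exact isAlgebraic_algebraMap c
        have h5 := hL _ h4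
        have h6 : w = algebraMap L K ⟨_, h5⟩ * aeval t R := by
          change w = (w / aeval t R) * aeval t R
          field_simp
        rw [h6]
        exact M.mul_mem (M.algebraMap_mem _) (hpol R)
    · refine ⟨t, w, B ^ 2 - 4 * A * G, ht, hw2, hdeg, hsq, ?_⟩
      rw [← top_le_iff, ← htop, IntermediateField.adjoin_le_iff]
      have ht' : t ∈ IntermediateField.adjoin L {t, w} :=
        IntermediateField.subset_adjoin _ _ (by simp)
      have hw' : w ∈ IntermediateField.adjoin L {t, w} :=
        IntermediateField.subset_adjoin _ _ (by simp)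
      intro x hx
      rcases hx with rfl | hx
      · exact hmem _ ht' hw'
      · rw [Set.mem_singleton_iff.1 hx]
        exact ht'

end

section

variable {F : Type*} [Field F]

/-- the coefficient of `X₀ ^ j` -/
noncomputable def cf (g : MvPolynomial (Fin 2) F) (j : ℕ) : Polynomial F :=
  ∑ m ∈ g.support with m 0 = j, Polynomial.monomial (m 1) (MvPolynomial.coeff m g)

lemma cf_coeff (g : MvPolynomial (Fin 2) F) (m : Fin 2 →₀ ℕ) (hm : m ∈ g.support) :
    (cf g (m 0)).coeff (m 1) = MvPolynomial.coeff m g := by
  unfold cf
  rw [Polynomial.finsetSum_coeff, Finset.sum_eq_single m]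
  · rw [Polynomial.coeff_monomial, if_pos rfl]
  · intro b hb hbm
    rw [Polynomial.coeff_monomial, if_neg]
    intro h
    apply hbm
    rw [Finset.mem_filter] at hb
    ext i
    fin_cases i
    · exact hb.2
    · exact h
  · intro h
    exact absurd (by rw [Finset.mem_filter]; exact ⟨hm, rfl⟩) h

lemma cf_deg (g : MvPolynomial (Fin 2) F) (j d : ℕ) (h : ∀ m ∈ g.support, m 0 = j → m 1 ≤ d) :
    (cf g j).natDegree ≤ d := by
  unfold cf
  refine Polynomial.natDegree_sum_le_of_forall_le _ _ ?_
  intro m hm
  rw [Finset.mem_filter] at hm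
  exact (Polynomial.natDegree_monomial_le _).trans (h m hm.1 hm.2)

lemma cf_eval {K : Type*} [Field K] [Algebra F K] (g : MvPolynomial (Fin 2) F)
    (h : ∀ m ∈ g.support, m 0 ≤ 2) (u v : K) :
    MvPolynomial.aeval ![u, v] g =
      aeval v (cf g 2) * u ^ 2 + aeval v (cf g 1) * u + aeval v (cf g 0) := by
  have h1 : MvPolynomial.aeval ![u, v] g =
      ∑ m ∈ g.support, algebraMap F K (MvPolynomial.coeff m g) * v ^ (m 1) * u ^ (m 0) := by
    rw [MvPolynomial.aeval_def, MvPolynomial.eval₂_eq']
    refine Finset.sum_congr rfl fun m _ => ?_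
    rw [Fin.prod_univ_two]
    simp only [Matrix.cons_val_zero, Matrix.cons_val_one]
    ring
  have h2 : ∀ j, ∑ m ∈ g.support with m 0 = j,
      algebraMap F K (MvPolynomial.coeff m g) * v ^ (m 1) * u ^ (m 0) = aeval v (cf g j) * u ^ j := by
    intro j
    unfold cf
    rw [map_sum, Finset.sum_mul]
    refine Finset.sum_congr rfl fun m hm => ?_
    rw [Finset.mem_filter] at hm
    rw [Polynomial.aeval_monomial, hm.2]
  rw [h1, ← Finset.sum_fiberwise_of_maps_to (s := g.support) (t := Finset.range 3)
    (g := fun m => m 0) (fun m hm => Finset.mem_range.2 (by have := h m hm; omega))]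
  simp only [h2]
  rw [Finset.sum_range_succ, Finset.sum_range_succ, Finset.sum_range_one]
  ring

end

theorem qd : StmQD := by
  intro Ω K _ _ _ _ L hL u v htop huv g hg h0 hcase
  by_cases hv : v ∈ L
  · have hu : u ∉ L := fun h => huv ⟨h, hv⟩
    have hut : Transcendental L u := fun h => hu (hL u h)
    refine line L u hut ?_
    rw [← top_le_iff, ← htop, IntermediateField.adjoin_le_iff]
    intro x hx
    rcases hx with rfl | hx
    · exact IntermediateField.subset_adjoin _ _ (Set.mem_singleton x)
    · rw [Set.mem_singleton_iff.1 hx]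
      exact (IntermediateField.adjoin L {u}).algebraMap_mem (⟨v, hv⟩ : L)
  · have hvt : Transcendental L v := fun h => hv (hL v h)
    have hle : ∀ m ∈ g.support, m 0 ≤ 2 := by
      intro m hm
      rcases hcase with h | h | h
      · exact (h m hm).1
      · have := h m hm
        omega
      · exact (h m hm).2
    refine quad L hL u v htop hvt (cf g 2) (cf g 1) (cf g 0) ?_ ?_ ?_
    · rintro ⟨h2, h1, h3⟩
      obtain ⟨m, hm⟩ := MvPolynomial.support_nonempty.2 hg
      have hc := cf_coeff g m hm
      have hm0 := hle m hm
      have : MvPolynomial.coeff m g ≠ 0 := MvPolynomial.mem_support_iff.1 hm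
      apply this
      rw [← hc]
      have : m 0 = 0 ∨ m 0 = 1 ∨ m 0 = 2 := by omega
      rcases this with h | h | h <;> rw [h]
      · rw [h3, Polynomial.coeff_zero]
      · rw [h1, Polynomial.coeff_zero]
      · rw [h2, Polynomial.coeff_zero]
    · rw [← cf_eval g hle, h0]
    · have hdeg : ∀ a b c : ℕ, (cf g 2).natDegree ≤ a → (cf g 1).natDegree ≤ b →
          (cf g 0).natDegree ≤ c → a + c ≤ 4 → b ≤ 2 →
          (cf g 1 ^ 2 - 4 * cf g 2 * cf g 0).natDegree ≤ 4 := by
        intro a b c ha hb hc hac hb2
        refine (Polynomial.natDegree_sub_le _ _).trans (max_le ?_ ?_)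
        · refine Polynomial.natDegree_pow_le.trans ?_
          omega
        · have h4 : (4 : Polynomial L) * cf g 2 * cf g 0 = Polynomial.C 4 * (cf g 2 * cf g 0) := by
            rw [map_ofNat]
            ring
          rw [h4]
          refine (Polynomial.natDegree_C_mul_le _ _).trans (Polynomial.natDegree_mul_le.trans ?_)
          omega
      rcases hcase with h | h | h
      · exact hdeg 2 2 2 (cf_deg g 2 2 fun m hm _ => (h m hm).2)
          (cf_deg g 1 2 fun m hm _ => (h m hm).2) (cf_deg g 0 2 fun m hm _ => (h m hm).2)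
          (by norm_num) le_rfl
      · exact hdeg 0 2 4 (cf_deg g 2 0 fun m hm hj => by have := h m hm; omega)
          (cf_deg g 1 2 fun m hm hj => by have := h m hm; omega)
          (cf_deg g 0 4 fun m hm hj => by have := h m hm; omega) (by norm_num) le_rfl
      · exact hdeg 1 2 3 (cf_deg g 2 1 fun m hm hj => by have := h m hm; omega)
          (cf_deg g 1 2 fun m hm hj => by have := h m hm; omega)
          (cf_deg g 0 3 fun m hm hj => by have := h m hm; omega) (by norm_num) le_rfl

end Pool.Agent.Y200.CY.Qd
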