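import Pool.Agent.Y200.CY.Stm5
import Pool.Agent.Y200.CY.Ker
import Pool.Agent.Y200.CY.Dh

/-! Generic points over intermediate fields and linear fractional functions of the coordinates of a
plane (helper484, project CY). -/

set_option autoImplicit false

namespace Pool.Agent.Y200.CY.Rel

open MvPolynomial Pool.Agent.Y200.CY

/-- generic points over the field generated by some of the coordinates -/
theorem rel : StmREL := by
  intro k K _ _ _ σ _ N M eI f x hx L hL hLe
  classical
  set θ : MvPolynomial (Fin M) k →ₐ[k] MvPolynomial (Fin N) L :=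
    aeval (fun l => Sum.elim (fun q => C (⟨x (eI (.inl q)), hL q⟩ : L)) X (eI.symm l)) with hθ
  have hθl : ∀ q, θ (X (eI (.inl q))) = C (⟨x (eI (.inl q)), hL q⟩ : L) := by
    intro q
    rw [hθ, aeval_X, Equiv.symm_apply_apply]
    rfl
  have hθr : ∀ j, θ (X (eI (.inr j))) = X j := by
    intro j
    rw [hθ, aeval_X, Equiv.symm_apply_apply]
    rfl
  have hθC : ∀ c : k, θ (C c) = C (algebraMap k L c) := by
    intro c
    rw [hθ, aeval_C]
    rfl
  have hev : ∀ Q : MvPolynomial (Fin M) k,
      aeval (fun j => x (eI (.inr j))) (θ Q) = aeval x Q := by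
    intro Q
    have h1 : ((aeval (fun j => x (eI (.inr j))) :
        MvPolynomial (Fin N) L →ₐ[L] K).restrictScalars k).comp θ =
        (aeval x : MvPolynomial (Fin M) k →ₐ[k] K) := by
      apply MvPolynomial.algHom_ext
      intro l
      rw [AlgHom.comp_apply, AlgHom.restrictScalars_apply]
      obtain ⟨l, rfl⟩ := eI.surjective l
      rcases l with q | j
      · rw [hθl, aeval_C, aeval_X]
        rfl
      · rw [hθr, aeval_X, aeval_X]
    exact congrArg (fun g : MvPolynomial (Fin M) k →ₐ[k] K => g Q) h1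
  -- the coefficients
  have hcoef : ∀ z : K, ∀ hz : z ∈ IntermediateField.adjoin k (Set.range fun q => x (eI (.inl q))),
      ∃ (y : L) (A B : MvPolynomial (Fin M) k), y ≠ 0 ∧ θ A = C y ∧
        θ B = C (y * ⟨z, hLe ▸ hz⟩) := by
    intro z hz
    induction hz using IntermediateField.adjoin_induction with
    | mem z hz =>
      obtain ⟨q, rfl⟩ := hz
      refine ⟨1, 1, X (eI (.inl q)), one_ne_zero, by rw [map_one, C_1], ?_⟩
      rw [hθl, one_mul]
    | algebraMap c =>
      refine ⟨1, 1, C c, one_ne_zero, by rw [map_one, C_1], ?_⟩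
      rw [hθC, one_mul]
      rfl
    | add u v hu hv ihu ihv =>
      obtain ⟨y, A, B, hy, hA, hB⟩ := ihu
      obtain ⟨y', A', B', hy', hA', hB'⟩ := ihv
      refine ⟨y * y', A * A', B * A' + A * B', mul_ne_zero hy hy', by rw [map_mul, hA, hA', C_mul],
        ?_⟩
      rw [map_add, map_mul, map_mul, hA, hA', hB, hB', ← C_mul, ← C_mul, ← C_add]
      congr 1
      apply Subtype.ext
      change (y : K) * u * y' + y * (y' * v) = y * y' * (u + v)
      ring
    | inv u hu ihu =>
      obtain ⟨y, A, B, hy, hA, hB⟩ := ihu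
      by_cases hu0 : u = 0
      · refine ⟨1, 1, 0, one_ne_zero, by rw [map_one, C_1], ?_⟩
        rw [map_zero, ← C_0, one_mul]
        congr 1
        apply Subtype.ext
        change (0 : K) = u⁻¹
        rw [hu0, inv_zero]
      · refine ⟨y * ⟨u, hLe ▸ hu⟩, B, A, mul_ne_zero hy ?_, hB, ?_⟩
        · intro h
          exact hu0 (congrArg Subtype.val h)
        · rw [hA]
          congr 1
          apply Subtype.ext
          change (y : K) = y * u * u⁻¹
          rw [mul_assoc, mul_inv_cancel₀ hu0, mul_one]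
    | mul u v hu hv ihu ihv =>
      obtain ⟨y, A, B, hy, hA, hB⟩ := ihu
      obtain ⟨y', A', B', hy', hA', hB'⟩ := ihv
      refine ⟨y * y', A * A', B * B', mul_ne_zero hy hy', by rw [map_mul, hA, hA', C_mul], ?_⟩
      rw [map_mul, hB, hB', ← C_mul]
      congr 1
      apply Subtype.ext
      change (y : K) * u * (y' * v) = y * y' * (u * v)
      ring
  -- common denominators
  have hden : ∀ Q : MvPolynomial (Fin N) L, ∃ (y : L) (A B : MvPolynomial (Fin M) k), y ≠ 0 ∧
      θ A = C y ∧ θ B = C y * Q := by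
    intro Q
    induction Q using MvPolynomial.induction_on with
    | C z =>
      obtain ⟨y, A, B, hy, hA, hB⟩ := hcoef z (hLe ▸ z.2)
      exact ⟨y, A, B, hy, hA, by rw [hB, C_mul]⟩
    | add Q Q' ih ih' =>
      obtain ⟨y, A, B, hy, hA, hB⟩ := ih
      obtain ⟨y', A', B', hy', hA', hB'⟩ := ih'
      refine ⟨y * y', A * A', B * A' + A * B', mul_ne_zero hy hy', by rw [map_mul, hA, hA', C_mul],
        ?_⟩
      rw [map_add, map_mul, map_mul, hA, hA', hB, hB', C_mul]
      ring
    | mul_X Q i ih =>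
      obtain ⟨y, A, B, hy, hA, hB⟩ := ih
      exact ⟨y, A, B * X (eI (.inr i)), hy, hA, by rw [map_mul, hB, hθr, mul_assoc]⟩
  refine ⟨fun P => ⟨fun hP => ?_, ?_⟩, ?_⟩
  · obtain ⟨y, A, B, hy, -, hB⟩ := hden P
    have h1 : aeval x B = 0 := by
      rw [← hev, hB, map_mul, hP, mul_zero]
    obtain ⟨G, hG⟩ := (hx.zero_iff B).1 h1
    have h2 : θ f ∣ C y * P := by
      rw [← hB, hG, map_mul]
      exact Dvd.intro _ rfl
    have hu : IsUnit (C y : MvPolynomial (Fin N) L) := (IsUnit.mk0 y hy).map C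
    exact hu.dvd_mul_left.1 h2
  · rintro ⟨G, rfl⟩
    rw [map_mul, hev, (hx.zero_iff f).2 (dvd_refl f), zero_mul]
  · have h1 : (⊤ : IntermediateField k K) ≤ (IntermediateField.adjoin L
        (Set.range fun j => x (eI (.inr j)))).restrictScalars k := by
      rw [← hx.generates, IntermediateField.adjoin_le_iff]
      rintro _ ⟨l, rfl⟩
      obtain ⟨l, rfl⟩ := eI.surjective l
      rcases l with q | j
      · exact (IntermediateField.adjoin L (Set.range fun j => x (eI (.inr j)))).algebraMap_mem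
          ⟨x (eI (.inl q)), hL q⟩
      · exact IntermediateField.subset_adjoin L (Set.range fun j => x (eI (.inr j))) ⟨j, rfl⟩
    rw [eq_top_iff]
    intro z _
    exact h1 (IntermediateField.mem_top)

/-- a nonconstant linear fractional function of the coordinates of a plane is not killed by all
derivations -/
theorem rat : StmRAT := by
  intro a b N Ω K _ _ _ _ F hF hS hab e x hx j u v hv huv
  classical
  -- a coordinate outside the plane
  obtain ⟨s, hs, hsj⟩ : ∃ s : Sg a b, s ≠ o0 (bl s) ∧ bl s ≠ .inr j := by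
    by_cases ha : a = 0
    · have hb : 2 ≤ b := by omega
      obtain ⟨j', hj'⟩ : ∃ j' : Fin b, j' ≠ j := by
        have : Nontrivial (Fin b) := Fin.nontrivial_iff_two_le.2 hb
        exact exists_ne j
      refine ⟨.inr (j', 1), ?_, ?_⟩
      · intro h
        have h1 : (1 : Fin 3) = 0 := congrArg Prod.snd (Sum.inr.inj h)
        exact absurd h1 (by decide)
      · intro h
        exact hj' (Sum.inr.inj h)
    · refine ⟨.inl (⟨0, Nat.pos_of_ne_zero ha⟩, 1), ?_, ?_⟩
      · intro h
        have h1 : (1 : Fin 2) = 0 := congrArg Prod.snd (Sum.inl.inj h)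
        exact absurd h1 (by decide)
      · intro h
        exact absurd h Sum.inl_ne_inr
  have hd : (deh e F).degreeOf (e ⟨s, hs⟩) ≠ 0 := (Dh.dh a b N Ω e F hF (hS Ω) _).1
  have hai := Ker.ai Ω K N _ x hx _ hd
  have h1 : (.inr (j, 1) : Sg a b) ≠ o0 (bl (.inr (j, 1))) := by
    intro h
    have h1 : (1 : Fin 3) = 0 := congrArg Prod.snd (Sum.inr.inj h)
    exact absurd h1 (by decide)
  have h2 : (.inr (j, 2) : Sg a b) ≠ o0 (bl (.inr (j, 2))) := by
    intro h
    have h1 : (2 : Fin 3) = 0 := congrArg Prod.snd (Sum.inr.inj h)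
    exact absurd h1 (by decide)
  have hl1 : e ⟨.inr (j, 1), h1⟩ ≠ e ⟨s, hs⟩ := by
    intro h
    have h3 : (.inr (j, 1) : Sg a b) = s := congrArg Subtype.val (e.injective h)
    apply hsj
    rw [← h3]
    rfl
  have hl2 : e ⟨.inr (j, 2), h2⟩ ≠ e ⟨s, hs⟩ := by
    intro h
    have h3 : (.inr (j, 2) : Sg a b) = s := congrArg Subtype.val (e.injective h)
    apply hsj
    rw [← h3]
    rfl
  have hl12 : e ⟨.inr (j, 1), h1⟩ ≠ e ⟨.inr (j, 2), h2⟩ := by
    intro h
    have h3 : (1 : Fin 3) = 2 :=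
      congrArg Prod.snd (Sum.inr.inj (congrArg Subtype.val (e.injective h)))
    exact absurd h3 (by decide)
  obtain ⟨y1, hy1⟩ : ∃ y, y = x (e ⟨.inr (j, 1), h1⟩) := ⟨_, rfl⟩
  obtain ⟨y2, hy2⟩ : ∃ y, y = x (e ⟨.inr (j, 2), h2⟩) := ⟨_, rfl⟩
  have hp0 : hpt e x (.inr (j, 0)) = 1 := by
    unfold hpt
    rw [dif_neg]
    rw [not_not]
    rfl
  have hp1 : hpt e x (.inr (j, 1)) = y1 := by
    rw [hy1]
    unfold hpt
    rw [dif_pos h1]
  have hp2 : hpt e x (.inr (j, 2)) = y2 := by
    rw [hy2]
    unfold hpt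
    rw [dif_pos h2]
  have hy : AlgebraicIndependent Ω ![y1, y2] := by
    have h3 := hai.comp (![⟨e ⟨.inr (j, 1), h1⟩, hl1⟩, ⟨e ⟨.inr (j, 2), h2⟩, hl2⟩] :
      Fin 2 → {l : Fin N // l ≠ e ⟨s, hs⟩}) (by
        intro p q hpq
        fin_cases p <;> fin_cases q
        · rfl
        · exact absurd (congrArg Subtype.val hpq) hl12
        · exact absurd (congrArg Subtype.val hpq) hl12.symm
        · rfl)
    have h4 : (![y1, y2] : Fin 2 → K) = (fun l : {l : Fin N // l ≠ e ⟨s, hs⟩} => x l) ∘
        (![⟨e ⟨.inr (j, 1), h1⟩, hl1⟩, ⟨e ⟨.inr (j, 2), h2⟩, hl2⟩] :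
          Fin 2 → {l : Fin N // l ≠ e ⟨s, hs⟩}) := by
      funext p
      fin_cases p
      · exact hy1
      · exact hy2
    rw [h4]
    exact h3
  have hD : ∀ c₁ c₂ : K, ∃ D : Derivation Ω K K, D y1 = c₁ ∧ D y2 = c₂ := by
    intro c₁ c₂
    obtain ⟨D, hD⟩ := CB.exists_der ![y1, y2] hy ![c₁, c₂]
    exact ⟨D, hD 0, hD 1⟩
  obtain ⟨D₁, hD11, hD12⟩ := hD 1 0
  obtain ⟨D₂, hD21, hD22⟩ := hD 0 1
  -- the value of derivations at linear functions
  have hlin : ∀ (D : Derivation Ω K K) (w : Fin 3 → Ω),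
      D (∑ r, algebraMap Ω K (w r) * hpt e x (.inr (j, r))) =
        algebraMap Ω K (w 1) * D y1 + algebraMap Ω K (w 2) * D y2 := by
    intro D w
    rw [Fin.sum_univ_three, hp0, hp1, hp2, mul_one, map_add, map_add, Derivation.map_algebraMap,
      zero_add, Derivation.leibniz, Derivation.leibniz, Derivation.map_algebraMap,
      Derivation.map_algebraMap, smul_zero, smul_zero, add_zero, add_zero, smul_eq_mul,
      smul_eq_mul]
  have hzero : ∀ w : Fin 3 → Ω, ∑ r, algebraMap Ω K (w r) * hpt e x (.inr (j, r)) = 0 →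
      w = 0 := by
    intro w hw
    have h3 := hlin D₁ w
    rw [hw, map_zero, hD11, hD12, mul_one, mul_zero, add_zero] at h3
    have h4 := hlin D₂ w
    rw [hw, map_zero, hD21, hD22, mul_one, mul_zero, zero_add] at h4
    have h5 : w 1 = 0 := (map_eq_zero _).1 h3.symm
    have h6 : w 2 = 0 := (map_eq_zero _).1 h4.symm
    rw [Fin.sum_univ_three, hp0, h5, h6, map_zero, zero_mul, zero_mul, add_zero, add_zero,
      mul_one] at hw
    have h7 : w 0 = 0 := (map_eq_zero _).1 hw
    funext r
    fin_cases r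
    · exact h7
    · exact h5
    · exact h6
  by_contra hc
  push Not at hc
  obtain ⟨P, hP⟩ : ∃ P, P = ∑ r, algebraMap Ω K (u r) * hpt e x (.inr (j, r)) := ⟨_, rfl⟩
  obtain ⟨Q, hQ⟩ : ∃ Q, Q = ∑ r, algebraMap Ω K (v r) * hpt e x (.inr (j, r)) := ⟨_, rfl⟩
  have hQ0 : Q ≠ 0 := by
    intro h
    apply hv
    apply hzero
    rw [← hQ, h]
  have hPQ : ∀ D : Derivation Ω K K, Q * D P = P * D Q := by
    intro D
    have h3 := hc D
    rw [← hP, ← hQ] at h3
    have h4 : P = (P / Q) * Q := by
      rw [div_mul_cancel₀ _ hQ0]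
    have h5 : D P = (P / Q) * D Q := by
      have h6 : D ((P / Q) * Q) = (P / Q) * D Q := by
        rw [Derivation.leibniz, h3, smul_zero, add_zero, smul_eq_mul]
      rw [← h4] at h6
      exact h6
    rw [h5, ← mul_assoc, mul_div_cancel₀ _ hQ0]
  -- proportionality of the coefficients
  have hprop : ∀ α β : Ω, Q * algebraMap Ω K α = P * algebraMap Ω K β →
      ∀ r, α * v r = β * u r := by
    intro α β h r
    have h3 : (fun r => α * v r - β * u r) = (0 : Fin 3 → Ω) := by
      apply hzero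
      have h4 : ∑ r, algebraMap Ω K (α * v r - β * u r) * hpt e x (.inr (j, r)) =
          Q * algebraMap Ω K α - P * algebraMap Ω K β := by
        rw [hP, hQ, Finset.sum_mul, Finset.sum_mul, ← Finset.sum_sub_distrib]
        refine Finset.sum_congr rfl fun r _ => ?_
        rw [map_sub, map_mul, map_mul]
        ring
      rw [h4, h, sub_self]
    exact sub_eq_zero.1 (congrFun h3 r)
  have hu1 : ∀ r, u 1 * v r = v 1 * u r := by
    apply hprop
    have h3 := hPQ D₁
    have h4 := hlin D₁ u
    have h5 := hlin D₁ v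
    rw [← hP, hD11, hD12, mul_one, mul_zero, add_zero] at h4
    rw [← hQ, hD11, hD12, mul_one, mul_zero, add_zero] at h5
    rw [h4, h5] at h3
    exact h3
  have hu2 : ∀ r, u 2 * v r = v 2 * u r := by
    apply hprop
    have h3 := hPQ D₂
    have h4 := hlin D₂ u
    have h5 := hlin D₂ v
    rw [← hP, hD21, hD22, mul_one, mul_zero, zero_add] at h4
    rw [← hQ, hD21, hD22, mul_one, mul_zero, zero_add] at h5
    rw [h4, h5] at h3
    exact h3
  by_cases hv1 : v 1 = 0
  · by_cases hv2 : v 2 = 0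
    · have hv0 : v 0 ≠ 0 := by
        intro h
        apply hv
        funext r
        fin_cases r
        · exact h
        · exact hv1
        · exact hv2
      apply huv (u 0 / v 0)
      have h3 : u 1 = 0 := by
        have := hu1 0
        rw [hv1, zero_mul] at this
        exact (mul_eq_zero.1 this).resolve_right hv0
      have h4 : u 2 = 0 := by
        have := hu2 0
        rw [hv2, zero_mul] at this
        exact (mul_eq_zero.1 this).resolve_right hv0
      funext r
      rw [Pi.smul_apply, smul_eq_mul]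
      fin_cases r
      · change u 0 = u 0 / v 0 * v 0
        rw [div_mul_cancel₀ _ hv0]
      · change u 1 = u 0 / v 0 * v 1
        rw [h3, hv1, mul_zero]
      · change u 2 = u 0 / v 0 * v 2
        rw [h4, hv2, mul_zero]
    · apply huv (u 2 / v 2)
      funext r
      rw [Pi.smul_apply, smul_eq_mul, div_mul_eq_mul_div, hu2 r, mul_div_cancel_left₀ _ hv2]
  · apply huv (u 1 / v 1)
    funext r
    rw [Pi.smul_apply, smul_eq_mul, div_mul_eq_mul_div, hu1 r, mul_div_cancel_left₀ _ hv1]

end Pool.Agent.Y200.CY.Rel
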