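import Pool.Agent.Y200.CY.Stm

/-!
# Curves of bidegree `(2, 2)` are double covers of the line
-/

set_option autoImplicit false

namespace Pool.Agent.Y200.CY.Dc

open Pool.Agent.Y200.CY Polynomial

section

variable {E : Type*} [Field E] [IsAlgClosed E] [CharZero E]

/-- a binary quadratic form has a nonzero zero -/
theorem exists_zero_quad (α β γ : E) :
    ∃ x y : E, (x ≠ 0 ∨ y ≠ 0) ∧ α * x ^ 2 + β * x * y + γ * y ^ 2 = 0 := by
  by_cases hα : α = 0
  · exact ⟨1, 0, Or.inl one_ne_zero, by rw [hα]; ring⟩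
  · obtain ⟨s, hs⟩ := IsAlgClosed.exists_pow_nat_eq (β ^ 2 - 4 * α * γ) (show 0 < 2 by norm_num)
    refine ⟨(-β + s) / (2 * α), 1, Or.inr one_ne_zero, ?_⟩
    have h2 : (2 : E) ≠ 0 := two_ne_zero
    field_simp
    linear_combination hs

/-- the discriminant of a smooth form has no double zero -/
theorem no_double (m : Bq E) (hm : m.Smo) (p0 p1 : E) (hp : p0 ≠ 0 ∨ p1 ≠ 0)
    (h0 : (m.m01 * p0 ^ 2 + m.m11 * p0 * p1 + m.m21 * p1 ^ 2) ^ 2 -
      4 * (m.m02 * p0 ^ 2 + m.m12 * p0 * p1 + m.m22 * p1 ^ 2) *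
        (m.m00 * p0 ^ 2 + m.m10 * p0 * p1 + m.m20 * p1 ^ 2) = 0)
    (h1 : 2 * (m.m01 * p0 ^ 2 + m.m11 * p0 * p1 + m.m21 * p1 ^ 2) * (2 * m.m01 * p0 + m.m11 * p1) -
      4 * (2 * m.m02 * p0 + m.m12 * p1) * (m.m00 * p0 ^ 2 + m.m10 * p0 * p1 + m.m20 * p1 ^ 2) -
      4 * (m.m02 * p0 ^ 2 + m.m12 * p0 * p1 + m.m22 * p1 ^ 2) * (2 * m.m00 * p0 + m.m10 * p1) = 0)
    (h2 : 2 * (m.m01 * p0 ^ 2 + m.m11 * p0 * p1 + m.m21 * p1 ^ 2) * (m.m11 * p0 + 2 * m.m21 * p1) -
      4 * (m.m12 * p0 + 2 * m.m22 * p1) * (m.m00 * p0 ^ 2 + m.m10 * p0 * p1 + m.m20 * p1 ^ 2) -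
      4 * (m.m02 * p0 ^ 2 + m.m12 * p0 * p1 + m.m22 * p1 ^ 2) * (m.m10 * p0 + 2 * m.m20 * p1) = 0) :
    False := by
  set a := m.m02 * p0 ^ 2 + m.m12 * p0 * p1 + m.m22 * p1 ^ 2 with ha
  set b := m.m01 * p0 ^ 2 + m.m11 * p0 * p1 + m.m21 * p1 ^ 2 with hb
  set g := m.m00 * p0 ^ 2 + m.m10 * p0 * p1 + m.m20 * p1 ^ 2 with hg
  have e1 : ∀ x y : E, m.dp0 p0 p1 x y = (2 * m.m00 * p0 + m.m10 * p1) * x ^ 2 +
      (2 * m.m01 * p0 + m.m11 * p1) * x * y + (2 * m.m02 * p0 + m.m12 * p1) * y ^ 2 := by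
    intro x y
    unfold Bq.dp0
    ring
  have e2 : ∀ x y : E, m.dp1 p0 p1 x y = (m.m10 * p0 + 2 * m.m20 * p1) * x ^ 2 +
      (m.m11 * p0 + 2 * m.m21 * p1) * x * y + (m.m12 * p0 + 2 * m.m22 * p1) * y ^ 2 := by
    intro x y
    unfold Bq.dp1
    ring
  have e3 : ∀ x y : E, m.dq0 p0 p1 x y = 2 * g * x + b * y := by
    intro x y
    unfold Bq.dq0
    rw [hg, hb]
    ring
  have e4 : ∀ x y : E, m.dq1 p0 p1 x y = b * x + 2 * a * y := by
    intro x y
    unfold Bq.dq1
    rw [ha, hb]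
    ring
  have h20 : (2 : E) ≠ 0 := two_ne_zero
  by_cases ha0 : a = 0
  · by_cases hg0 : g = 0
    · have hb0 : b = 0 := by
        have : b ^ 2 = 0 := by
          rw [ha0] at h0
          linear_combination h0
        exact pow_eq_zero_iff (two_ne_zero) |>.1 this
      have heul : ∀ x y : E, p0 * m.dp0 p0 p1 x y + p1 * m.dp1 p0 p1 x y =
          2 * (g * x ^ 2 + b * x * y + a * y ^ 2) := by
        intro x y
        rw [e1, e2, ha, hb, hg]
        ring
      rcases hp with hp | hp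
      · obtain ⟨x, y, hxy, hz⟩ := exists_zero_quad (m.m10 * p0 + 2 * m.m20 * p1)
          (m.m11 * p0 + 2 * m.m21 * p1) (m.m12 * p0 + 2 * m.m22 * p1)
        have z1 : m.dp1 p0 p1 x y = 0 := by rw [e2, hz]
        have z2 : m.dp0 p0 p1 x y = 0 := by
          have h5 := heul x y
          rw [z1, ha0, hb0, hg0] at h5
          have h6 : p0 * m.dp0 p0 p1 x y = 0 := by linear_combination h5
          exact (mul_eq_zero.1 h6).resolve_left hp
        exact hm p0 p1 x y (Or.inl hp) hxy z2 z1 (by rw [e3, hg0, hb0]; ring) (by rw [e4, ha0, hb0]; ring)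
      · obtain ⟨x, y, hxy, hz⟩ := exists_zero_quad (2 * m.m00 * p0 + m.m10 * p1)
          (2 * m.m01 * p0 + m.m11 * p1) (2 * m.m02 * p0 + m.m12 * p1)
        have z1 : m.dp0 p0 p1 x y = 0 := by rw [e1, hz]
        have z2 : m.dp1 p0 p1 x y = 0 := by
          have h5 := heul x y
          rw [z1, ha0, hb0, hg0] at h5
          have h6 : p1 * m.dp1 p0 p1 x y = 0 := by linear_combination h5
          exact (mul_eq_zero.1 h6).resolve_left hp
        exact hm p0 p1 x y (Or.inr hp) hxy z1 z2 (by rw [e3, hg0, hb0]; ring) (by rw [e4, ha0, hb0]; ring)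
    · refine hm p0 p1 (-b) (2 * g) hp (Or.inr (mul_ne_zero h20 hg0)) ?_ ?_ ?_ ?_
      · rw [e1]
        linear_combination (2 * m.m00 * p0 + m.m10 * p1) * h0 - g * h1
      · rw [e2]
        linear_combination (m.m10 * p0 + 2 * m.m20 * p1) * h0 - g * h2
      · rw [e3]
        ring
      · rw [e4]
        linear_combination -h0
  · refine hm p0 p1 (2 * a) (-b) hp (Or.inl (mul_ne_zero h20 ha0)) ?_ ?_ ?_ ?_
    · rw [e1]
      linear_combination (2 * m.m02 * p0 + m.m12 * p1) * h0 - a * h1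
    · rw [e2]
      linear_combination (m.m12 * p0 + 2 * m.m22 * p1) * h0 - a * h2
    · rw [e3]
      linear_combination -h0
    · rw [e4]
      ring

/-- the form has degree two in `q1` -/
theorem lead_ne (m : Bq E) (hm : m.Smo) : ¬ (m.m02 = 0 ∧ m.m12 = 0 ∧ m.m22 = 0) := by
  rintro ⟨h1, h2, h3⟩
  obtain ⟨x, y, hxy, hz⟩ := exists_zero_quad m.m01 m.m11 m.m21
  refine hm x y 0 1 hxy (Or.inr one_ne_zero) ?_ ?_ ?_ ?_
  · unfold Bq.dp0
    rw [h1, h2]
    ring
  · unfold Bq.dp1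
    rw [h2, h3]
    ring
  · unfold Bq.dq0
    linear_combination hz
  · unfold Bq.dq1
    rw [h1, h2, h3]
    ring

end

section

variable {F : Type*} [Field F]

/-- the quadratic polynomials -/
noncomputable def qd (x y z : F) : F[X] := C x + C y * X + C z * X ^ 2

lemma qd_deg (x y z : F) : (qd x y z).natDegree ≤ 2 := by
  unfold qd
  compute_degree

/-- the discriminant -/
noncomputable def dsc (m : Bq F) : F[X] :=
  qd m.m01 m.m11 m.m21 ^ 2 - 4 * qd m.m02 m.m12 m.m22 * qd m.m00 m.m10 m.m20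

/-- polynomials of degree at most four -/
noncomputable def qr (k0 k1 k2 k3 k4 : F) : F[X] := C k0 + C k1 * X + C k2 * X ^ 2 + C k3 * X ^ 3 + C k4 * X ^ 4

lemma qr_deg (k0 k1 k2 k3 k4 : F) : (qr k0 k1 k2 k3 k4).natDegree ≤ 4 := by
  unfold qr
  compute_degree

lemma qr_coeff3 (k0 k1 k2 k3 k4 : F) : (qr k0 k1 k2 k3 k4).coeff 3 = k3 := by
  unfold qr
  simp [coeff_X_pow]

lemma qr_coeff4 (k0 k1 k2 k3 k4 : F) : (qr k0 k1 k2 k3 k4).coeff 4 = k4 := by
  unfold qr
  simp [coeff_X_pow]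

lemma qr_map {E : Type*} [Field E] (φ : F →+* E) (k0 k1 k2 k3 k4 : F) :
    (qr k0 k1 k2 k3 k4).map φ = qr (φ k0) (φ k1) (φ k2) (φ k3) (φ k4) := by
  unfold qr
  simp

lemma qr_eval (k0 k1 k2 k3 k4 s : F) :
    (qr k0 k1 k2 k3 k4).eval s = k0 + k1 * s + k2 * s ^ 2 + k3 * s ^ 3 + k4 * s ^ 4 := by
  unfold qr
  simp

lemma qr_der (k0 k1 k2 k3 k4 s : F) :
    (derivative (qr k0 k1 k2 k3 k4)).eval s = k1 + 2 * k2 * s + 3 * k3 * s ^ 2 + 4 * k4 * s ^ 3 := by
  unfold qr
  simp only [derivative_add, derivative_C_mul, derivative_C, derivative_X, derivative_X_pow, eval_add, eval_mul,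
    eval_C, eval_X, eval_pow, eval_one, eval_zero]
  norm_num
  ring

lemma dsc_eq (m : Bq F) : dsc m = qr (m.m01 ^ 2 - 4 * m.m02 * m.m00)
    (2 * m.m01 * m.m11 - 4 * (m.m02 * m.m10 + m.m12 * m.m00))
    (m.m11 ^ 2 + 2 * m.m01 * m.m21 - 4 * (m.m02 * m.m20 + m.m12 * m.m10 + m.m22 * m.m00))
    (2 * m.m11 * m.m21 - 4 * (m.m12 * m.m20 + m.m22 * m.m10))
    (m.m21 ^ 2 - 4 * m.m22 * m.m20) := by
  unfold dsc qd qr
  simp only [C_sub, C_add, C_mul, C_pow, map_ofNat]
  ring

lemma dsc_deg (m : Bq F) : (dsc m).natDegree ≤ 4 := by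
  rw [dsc_eq]
  exact qr_deg _ _ _ _ _

lemma dsc_coeff3 (m : Bq F) : (dsc m).coeff 3 = 2 * m.m11 * m.m21 - 4 * (m.m12 * m.m20 + m.m22 * m.m10) := by
  rw [dsc_eq, qr_coeff3]

lemma dsc_coeff4 (m : Bq F) : (dsc m).coeff 4 = m.m21 ^ 2 - 4 * m.m22 * m.m20 := by
  rw [dsc_eq, qr_coeff4]

end

/-- the discriminant of a smooth form is not a constant times a square -/
theorem dsc_not_sq {F : Type*} [Field F] [CharZero F]
    (m : Bq F) (hm : (m.map (algebraMap F (AlgebraicClosure F))).Smo) :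
    ¬ ∃ (c : F) (R : F[X]), dsc m = C c * R ^ 2 := by
  rintro ⟨c, R, hR⟩
  have hc : CharZero (AlgebraicClosure F) := charZero_of_injective_algebraMap
    (algebraMap F (AlgebraicClosure F)).injective
  set φ := algebraMap F (AlgebraicClosure F) with hφ
  by_cases hd : R.natDegree = 0
  · obtain ⟨r, rfl⟩ := natDegree_eq_zero.1 hd
    have h3 := dsc_coeff3 m
    have h4 := dsc_coeff4 m
    rw [hR, ← C_pow, ← C_mul, coeff_C] at h3 h4
    norm_num at h3 h4
    have h3' := congrArg φ h3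
    have h4' := congrArg φ h4
    simp only [map_sub, map_mul, map_pow, map_add, map_zero, map_ofNat] at h3' h4'
    refine no_double _ hm 0 1 (Or.inr one_ne_zero) ?_ ?_ ?_
    · simp only [Bq.map]
      linear_combination -h4'
    · simp only [Bq.map]
      linear_combination -h3'
    · simp only [Bq.map]
      linear_combination -4 * h4'
  · have hdeg : (R.map φ).degree ≠ 0 := by
      rw [degree_map]
      intro h
      exact hd (natDegree_eq_of_degree_eq_some h)
    obtain ⟨s, hs⟩ := IsAlgClosed.exists_root (R.map φ) hdeg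
    have hs' : (R.map φ).eval s = 0 := hs
    have h0 : ((dsc m).map φ).eval s = 0 := by
      rw [hR, Polynomial.map_mul, Polynomial.map_pow, eval_mul, eval_pow, hs']
      ring
    have h1 : (derivative ((dsc m).map φ)).eval s = 0 := by
      rw [hR, Polynomial.map_mul, Polynomial.map_pow, map_C, derivative_C_mul, derivative_pow, eval_mul, eval_mul,
        eval_mul, eval_pow, hs']
      simp
    rw [dsc_eq, qr_map, qr_eval] at h0
    rw [dsc_eq, qr_map, qr_der] at h1
    simp only [map_sub, map_mul, map_pow, map_add, map_ofNat] at h0 h1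
    refine no_double _ hm 1 s (Or.inl one_ne_zero) ?_ ?_ ?_
    · simp only [Bq.map]
      linear_combination h0
    · simp only [Bq.map]
      linear_combination 4 * h0 - s * h1
    · simp only [Bq.map]
      linear_combination h1

theorem dc : StmDC := by
  intro Ω K _ _ _ _ L m hm t y ht hy htop
  have hcK : CharZero K := charZero_of_injective_algebraMap (algebraMap Ω K).injective
  have hcL : CharZero L := charZero_of_injective_algebraMap (algebraMap Ω L).injective
  have hcE : CharZero (AlgebraicClosure L) := charZero_of_injective_algebraMap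
    (algebraMap L (AlgebraicClosure L)).injective
  have hA0 : qd m.m02 m.m12 m.m22 ≠ 0 := by
    intro h
    have c0 := congrArg (fun q => coeff q 0) h
    have c1 := congrArg (fun q => coeff q 1) h
    have c2 := congrArg (fun q => coeff q 2) h
    unfold qd at c0 c1 c2
    simp [coeff_X, coeff_C, coeff_X_pow] at c0 c1 c2
    refine lead_ne _ hm ⟨?_, ?_, ?_⟩
    · simp [Bq.map, c0]
    · simp [Bq.map, c1]
    · simp [Bq.map, c2]
  have hAt : aeval t (qd m.m02 m.m12 m.m22) ≠ 0 := fun h => hA0 (by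
    by_contra hne
    exact ht ⟨_, hne, h⟩)
  have hqd : ∀ x y z : L, aeval t (qd x y z) = algebraMap L K x + algebraMap L K y * t + algebraMap L K z * t ^ 2 := by
    intro x y z
    unfold qd
    simp
  set At := aeval t (qd m.m02 m.m12 m.m22) with hAtd
  set Bt := aeval t (qd m.m01 m.m11 m.m21) with hBtd
  set Gt := aeval t (qd m.m00 m.m10 m.m20) with hGtd
  have hrel : At * y ^ 2 + Bt * y + Gt = 0 := by
    rw [hAtd, hBtd, hGtd, hqd, hqd, hqd]
    unfold Bq.ev Bq.map at hy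
    simp only at hy
    linear_combination hy
  refine ⟨t, 2 * At * y + Bt, dsc m, ht, ?_, dsc_deg m, dsc_not_sq m hm, ?_⟩
  · unfold dsc
    rw [map_sub, map_pow, map_mul, map_mul, ← hAtd, ← hBtd, ← hGtd, map_ofNat]
    linear_combination 4 * At * hrel
  · rw [← top_le_iff, ← htop, IntermediateField.adjoin_le_iff]
    set M := IntermediateField.adjoin L {t, 2 * At * y + Bt} with hM
    have ht' : t ∈ M := IntermediateField.subset_adjoin _ _ (by simp)
    have hw' : 2 * At * y + Bt ∈ M := IntermediateField.subset_adjoin _ _ (by simp)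
    have hpol : ∀ q : Polynomial L, aeval t q ∈ M := fun q => by
      rw [aeval_eq_sum_range]
      exact M.sum_mem fun i _ => M.smul_mem (pow_mem ht' i)
    have hy' : y ∈ M := by
      have h1 : y = (2 * At * y + Bt - Bt) / (2 * At) := by
        field_simp
        ring
      rw [h1]
      refine M.div_mem (M.sub_mem hw' (hpol _)) (M.mul_mem ?_ (hpol _))
      exact ofNat_mem M 2
    intro x hx
    rcases hx with rfl | hx
    · exact ht'
    · rw [Set.mem_singleton_iff.1 hx]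
      exact hy'

end Pool.Agent.Y200.CY.Dc
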