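import Pool.Agent.Y200.CY.Stm2
import Pool.Agent.Y200.CY.Gs
import Pool.Agent.Y200.CY.Dec
import Pool.Agent.Y200.CY.Dc

/-! Smooth hypersurfaces of multidegree `(2, …, 2, 3, …, 3)` are irreducible if there are two
lines (project CY). -/

set_option autoImplicit false

namespace Pool.Agent.Y200.CY.Irl

open Pool.Agent.Y200.CY

section bq

variable {R S T : Type*} [CommRing R] [CommRing S] [CommRing T]

theorem map_ev (φ : R →+* S) (m : Bq R) (p0 p1 q0 q1 : R) :
    φ (m.ev p0 p1 q0 q1) = (m.map φ).ev (φ p0) (φ p1) (φ q0) (φ q1) := by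
  simp only [Bq.ev, Bq.map, map_add, map_mul, map_pow]

theorem map_dp0 (φ : R →+* S) (m : Bq R) (p0 p1 q0 q1 : R) :
    φ (m.dp0 p0 p1 q0 q1) = (m.map φ).dp0 (φ p0) (φ p1) (φ q0) (φ q1) := by
  simp only [Bq.dp0, Bq.map, map_add, map_mul, map_pow, map_ofNat]

theorem map_dp1 (φ : R →+* S) (m : Bq R) (p0 p1 q0 q1 : R) :
    φ (m.dp1 p0 p1 q0 q1) = (m.map φ).dp1 (φ p0) (φ p1) (φ q0) (φ q1) := by
  simp only [Bq.dp1, Bq.map, map_add, map_mul, map_pow, map_ofNat]

theorem map_dq0 (φ : R →+* S) (m : Bq R) (p0 p1 q0 q1 : R) :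
    φ (m.dq0 p0 p1 q0 q1) = (m.map φ).dq0 (φ p0) (φ p1) (φ q0) (φ q1) := by
  simp only [Bq.dq0, Bq.map, map_add, map_mul, map_pow, map_ofNat]

theorem map_dq1 (φ : R →+* S) (m : Bq R) (p0 p1 q0 q1 : R) :
    φ (m.dq1 p0 p1 q0 q1) = (m.map φ).dq1 (φ p0) (φ p1) (φ q0) (φ q1) := by
  simp only [Bq.dq1, Bq.map, map_add, map_mul, map_pow, map_ofNat]

theorem map_congr {R S : Type*} (f g : R → S) (m : Bq R) (h : ∀ α, f (m.co α) = g (m.co α)) :
    m.map f = m.map g := by
  have h0 := h 0; have h1 := h 1; have h2 := h 2; have h3 := h 3; have h4 := h 4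
  have h5 := h 5; have h6 := h 6; have h7 := h 7; have h8 := h 8
  change f m.m00 = g m.m00 at h0
  change f m.m01 = g m.m01 at h1
  change f m.m02 = g m.m02 at h2
  change f m.m10 = g m.m10 at h3
  change f m.m11 = g m.m11 at h4
  change f m.m12 = g m.m12 at h5
  change f m.m20 = g m.m20 at h6
  change f m.m21 = g m.m21 at h7
  change f m.m22 = g m.m22 at h8
  simp only [Bq.map, h0, h1, h2, h3, h4, h5, h6, h7, h8]

end bq

section step1

open Polynomial

/-- the form as a polynomial in two variables -/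
noncomputable def pf {R : Type*} [CommRing R] (m : Bq R) : R[X][X] :=
  (m.map fun r => C (C r)).ev 1 (C X) 1 X

theorem pf_eq {R : Type*} [CommRing R] (m : Bq R) : pf m =
    C (C m.m02 + C m.m12 * X + C m.m22 * X ^ 2) * X ^ 2 +
      C (C m.m01 + C m.m11 * X + C m.m21 * X ^ 2) * X +
      C (C m.m00 + C m.m10 * X + C m.m20 * X ^ 2) := by
  simp only [pf, Bq.ev, Bq.map, C_add, C_mul, C_pow]
  ring

theorem pf_map {R S : Type*} [CommRing R] [CommRing S] (φ : R →+* S) (m : Bq R) :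
    (pf m).map (mapRingHom φ) = pf (m.map φ) := by
  simp [pf_eq, Bq.map]

theorem quad_coeff {R : Type*} [CommRing R] (A B G : R) :
    (C A * X ^ 2 + C B * X + C G).coeff 0 = G ∧ (C A * X ^ 2 + C B * X + C G).coeff 1 = B ∧
    (C A * X ^ 2 + C B * X + C G).coeff 2 = A := by
  simp [coeff_X, coeff_C, coeff_X_pow]

theorem quad_coeff2 {R : Type*} [CommRing R] (x y z : R) :
    (C x + C y * X + C z * X ^ 2).coeff 0 = x ∧ (C x + C y * X + C z * X ^ 2).coeff 1 = y ∧
    (C x + C y * X + C z * X ^ 2).coeff 2 = z := by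
  simp [coeff_X, coeff_C, coeff_X_pow]

theorem pf_coeff {R : Type*} [CommRing R] (m : Bq R) :
    ((pf m).coeff 0).coeff 0 = m.m00 ∧ ((pf m).coeff 1).coeff 0 = m.m01 ∧
    ((pf m).coeff 2).coeff 0 = m.m02 ∧ ((pf m).coeff 0).coeff 1 = m.m10 ∧
    ((pf m).coeff 1).coeff 1 = m.m11 ∧ ((pf m).coeff 2).coeff 1 = m.m12 ∧
    ((pf m).coeff 0).coeff 2 = m.m20 ∧ ((pf m).coeff 1).coeff 2 = m.m21 ∧
    ((pf m).coeff 2).coeff 2 = m.m22 := by
  rw [pf_eq]
  obtain ⟨h0, h1, h2⟩ := quad_coeff (C m.m02 + C m.m12 * X + C m.m22 * X ^ 2)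
    (C m.m01 + C m.m11 * X + C m.m21 * X ^ 2) (C m.m00 + C m.m10 * X + C m.m20 * X ^ 2)
  rw [h0, h1, h2]
  obtain ⟨a0, a1, a2⟩ := quad_coeff2 m.m02 m.m12 m.m22
  obtain ⟨b0, b1, b2⟩ := quad_coeff2 m.m01 m.m11 m.m21
  obtain ⟨c0, c1, c2⟩ := quad_coeff2 m.m00 m.m10 m.m20
  exact ⟨c0, b0, a0, c1, b1, a1, c2, b2, a2⟩

theorem pf_irr {F : Type*} [Field F] [CharZero F] (m : Bq F)
    (hm : (m.map (algebraMap F (AlgebraicClosure F))).Smo) : Irreducible (pf m) := by
  have hcE : CharZero (AlgebraicClosure F) := charZero_of_injective_algebraMap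
    (algebraMap F (AlgebraicClosure F)).injective
  set A := Dc.qd m.m02 m.m12 m.m22 with hA
  set B := Dc.qd m.m01 m.m11 m.m21 with hB
  set G := Dc.qd m.m00 m.m10 m.m20 with hG
  have hpf : pf m = C A * X ^ 2 + C B * X + C G := pf_eq m
  have hA0 : A ≠ 0 := by
    intro h
    have c0 := congrArg (fun q => coeff q 0) h
    have c1 := congrArg (fun q => coeff q 1) h
    have c2 := congrArg (fun q => coeff q 2) h
    rw [hA] at c0 c1 c2
    unfold Dc.qd at c0 c1 c2
    simp [coeff_X, coeff_C, coeff_X_pow] at c0 c1 c2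
    refine Dc.lead_ne _ hm ⟨?_, ?_, ?_⟩
    · simp [Bq.map, c0]
    · simp [Bq.map, c1]
    · simp [Bq.map, c2]
  have hdeg : (pf m).natDegree = 2 := by
    rw [hpf]
    exact natDegree_quadratic hA0
  have hpf0 : pf m ≠ 0 := by
    intro h
    rw [h, natDegree_zero] at hdeg
    exact absurd hdeg (by norm_num)
  have hc : (pf m).coeff 0 = G ∧ (pf m).coeff 1 = B ∧ (pf m).coeff 2 = A := by
    rw [hpf]
    simp [coeff_X, coeff_C, coeff_X_pow]
  set φ := algebraMap F (AlgebraicClosure F) with hφ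
  have hev : ∀ (x y z : F) (s : AlgebraicClosure F), ((Dc.qd x y z).map φ).eval s =
      φ x + φ y * s + φ z * s ^ 2 := by
    intro x y z s
    unfold Dc.qd
    simp
  have hunit : ∀ d g : F[X][X], pf m = g * d → d.natDegree = 0 → IsUnit d := by
    intro d g hgd hd
    obtain ⟨d', rfl⟩ := natDegree_eq_zero.1 hd
    by_contra hnu
    have hdd : d'.natDegree ≠ 0 := by
      intro h
      obtain ⟨r, rfl⟩ := natDegree_eq_zero.1 h
      apply hnu
      refine isUnit_C.2 (isUnit_C.2 (isUnit_iff_ne_zero.2 ?_))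
      rintro rfl
      rw [C_0, C_0, mul_zero] at hgd
      exact hpf0 hgd
    have hdeg' : (d'.map φ).degree ≠ 0 := by
      rw [degree_map]
      intro h
      exact hdd (natDegree_eq_of_degree_eq_some h)
    obtain ⟨s, hs⟩ := IsAlgClosed.exists_root (d'.map φ) hdeg'
    have hs' : (d'.map φ).eval s = 0 := hs
    have hz : ∀ n, ((pf m).coeff n |>.map φ).eval s = 0 := by
      intro n
      rw [hgd, coeff_mul_C, Polynomial.map_mul, eval_mul, hs', mul_zero]
    have z0 := hz 0
    have z1 := hz 1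
    have z2 := hz 2
    rw [hc.1, hG, hev] at z0
    rw [hc.2.1, hB, hev] at z1
    rw [hc.2.2, hA, hev] at z2
    refine Dc.no_double _ hm 1 s (Or.inl one_ne_zero) ?_ ?_ ?_
    · simp only [Bq.map]
      have e0 : φ m.m00 * 1 ^ 2 + φ m.m10 * 1 * s + φ m.m20 * s ^ 2 = 0 := by
        linear_combination z0
      have e1 : φ m.m01 * 1 ^ 2 + φ m.m11 * 1 * s + φ m.m21 * s ^ 2 = 0 := by
        linear_combination z1
      rw [e0, e1]
      ring
    · simp only [Bq.map]
      have e0 : φ m.m00 * 1 ^ 2 + φ m.m10 * 1 * s + φ m.m20 * s ^ 2 = 0 := by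
        linear_combination z0
      have e1 : φ m.m01 * 1 ^ 2 + φ m.m11 * 1 * s + φ m.m21 * s ^ 2 = 0 := by
        linear_combination z1
      have e2 : φ m.m02 * 1 ^ 2 + φ m.m12 * 1 * s + φ m.m22 * s ^ 2 = 0 := by
        linear_combination z2
      rw [e0, e1, e2]
      ring
    · simp only [Bq.map]
      have e0 : φ m.m00 * 1 ^ 2 + φ m.m10 * 1 * s + φ m.m20 * s ^ 2 = 0 := by
        linear_combination z0
      have e1 : φ m.m01 * 1 ^ 2 + φ m.m11 * 1 * s + φ m.m21 * s ^ 2 = 0 := by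
        linear_combination z1
      have e2 : φ m.m02 * 1 ^ 2 + φ m.m12 * 1 * s + φ m.m22 * s ^ 2 = 0 := by
        linear_combination z2
      rw [e0, e1, e2]
      ring
  rw [irreducible_iff]
  refine ⟨?_, ?_⟩
  · intro h
    have h1 := natDegree_eq_zero_of_isUnit h
    rw [hdeg] at h1
    exact absurd h1 (by norm_num)
  · intro g h hgh
    have hg0 : g ≠ 0 := by
      rintro rfl
      rw [zero_mul] at hgh
      exact hpf0 hgh
    have hh0 : h ≠ 0 := by
      rintro rfl
      rw [mul_zero] at hgh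
      exact hpf0 hgh
    have hsum : g.natDegree + h.natDegree = 2 := by
      rw [← natDegree_mul hg0 hh0, ← hgh, hdeg]
    have hcases : g.natDegree = 0 ∨ h.natDegree = 0 ∨ (g.natDegree ≤ 1 ∧ h.natDegree ≤ 1) := by
      omega
    rcases hcases with h0 | h0 | ⟨hg1, hh1⟩
    · left
      exact hunit g h (by rw [hgh, mul_comm]) h0
    · right
      exact hunit h g hgh h0
    · exfalso
      have eg := eq_X_add_C_of_natDegree_le_one hg1
      have eh := eq_X_add_C_of_natDegree_le_one hh1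
      set a1 := g.coeff 1
      set b1 := g.coeff 0
      set a2 := h.coeff 1
      set b2 := h.coeff 0
      have hprod : pf m = C (a1 * a2) * X ^ 2 + C (a1 * b2 + a2 * b1) * X + C (b1 * b2) := by
        rw [hgh, eg, eh]
        simp only [C_add, C_mul]
        ring
      have hc' : (pf m).coeff 0 = b1 * b2 ∧ (pf m).coeff 1 = a1 * b2 + a2 * b1 ∧
          (pf m).coeff 2 = a1 * a2 := by
        rw [hprod]
        exact quad_coeff _ _ _
      apply Dc.dsc_not_sq m hm
      refine ⟨1, a1 * b2 - a2 * b1, ?_⟩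
      unfold Dc.dsc
      rw [← hA, ← hB, ← hG, ← hc.1, ← hc.2.1, ← hc.2.2, hc'.1, hc'.2.1, hc'.2.2, C_1]
      ring

end step1

section step2

open MvPolynomial

theorem aeval_congr {σ k A : Type*} [CommSemiring k] [CommSemiring A] [Algebra k A] {T : Set σ}
    {P : MvPolynomial σ k} (hP : P ∈ supported k T) {z z' : σ → A} (hz : ∀ q ∈ T, z q = z' q) :
    aeval z P = aeval z' P := by
  have h : supported k T ≤ AlgHom.equalizer (aeval z) (aeval z') := by
    refine Algebra.adjoin_le ?_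
    rintro _ ⟨q, hq, rfl⟩
    change aeval z (X q) = aeval z' (X q)
    rw [aeval_X, aeval_X]
    exact hz q hq
  exact h hP

theorem pderiv_supp {σ k : Type*} [CommSemiring k] {T : Set σ} {P : MvPolynomial σ k}
    (hP : P ∈ supported k T) (p : σ) : pderiv p P ∈ supported k T := by
  classical
  unfold supported at hP
  induction hP using Algebra.adjoin_induction with
  | mem x hx =>
    obtain ⟨q, hq, rfl⟩ := hx
    by_cases h : q = p
    · subst h
      rw [pderiv_X_self]
      exact one_mem _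
    · rw [pderiv_X_of_ne h]
      exact zero_mem _
  | algebraMap r =>
    rw [algebraMap_eq, pderiv_C]
    exact zero_mem _
  | add x y _ _ hx hy =>
    rw [map_add]
    exact add_mem hx hy
  | mul x y hx' hy' hx hy =>
    rw [Derivation.leibniz, smul_eq_mul, smul_eq_mul]
    exact add_mem (mul_mem hx' hy) (mul_mem hy' hx)

theorem comm_pderiv {σ k B : Type*} [DecidableEq σ] [CommRing k] [CommRing B] [Algebra k B]
    (D : Derivation k B B) (t : σ → B) (s0 : σ) (hD : ∀ i, D (t i) = if i = s0 then 1 else 0)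
    (G : MvPolynomial σ k) : D (aeval t G) = aeval t (pderiv s0 G) := by
  induction G using MvPolynomial.induction_on with
  | C c => simp
  | add p q hp hq => simp only [map_add, hp, hq]
  | mul_X p i hp =>
    rw [map_mul, D.leibniz, hp, aeval_X, Derivation.leibniz, map_add, smul_eq_mul, smul_eq_mul,
      smul_eq_mul, smul_eq_mul, map_mul, map_mul, aeval_X, hD]
    by_cases h : i = s0
    · rw [if_pos h, h, pderiv_X_self, map_one]
    · rw [if_neg h, pderiv_X_of_ne h, map_zero]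

variable {a : ℕ}

/-- the two factors -/
def Pb (b : ℕ) (i i' : Fin a) (β : Bl a b) : Prop := β = .inl i ∨ β = .inl i'

/-- the affine coordinates of the other factors -/
abbrev Sig (b : ℕ) (i i' : Fin a) := {s : Sg a b // ¬ Pb b i i' (bl s) ∧ s ≠ o0 (bl s)}

open Classical in
/-- the generic point of the product of the other factors -/
noncomputable def tt (k : Type) [Field k] (b : ℕ) (i i' : Fin a) (s : Sg a b) :
    MvPolynomial (Sig b i i') k :=
  if h : ¬ Pb b i i' (bl s) ∧ s ≠ o0 (bl s) then X ⟨s, h⟩ else 1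

open Classical in
/-- a point with given coordinates in two factors -/
noncomputable def zz {k E : Type} [Field k] [Field E] [Algebra k E] {b : ℕ} {i i' : Fin a}
    (ψ : MvPolynomial (Sig b i i') k →ₐ[k] E) (p0 p1 q0 q1 : E) (s : Sg a b) : E :=
  if s = .inl (i, 0) then p0 else if s = .inl (i, 1) then p1 else
    if s = .inl (i', 0) then q0 else if s = .inl (i', 1) then q1 else ψ (tt k b i i' s)

section

variable {k E : Type} [Field k] [Field E] [Algebra k E] {b : ℕ} {i i' : Fin a}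
    (ψ : MvPolynomial (Sig b i i') k →ₐ[k] E) (p0 p1 q0 q1 : E)

theorem zz1 : zz ψ p0 p1 q0 q1 (.inl (i, 0)) = p0 := by
  unfold zz
  rw [if_pos rfl]

theorem zz2 : zz ψ p0 p1 q0 q1 (.inl (i, 1)) = p1 := by
  unfold zz
  rw [if_neg (by simp), if_pos rfl]

theorem zz3 (h : i ≠ i') : zz ψ p0 p1 q0 q1 (.inl (i', 0)) = q0 := by
  unfold zz
  rw [if_neg (by simp [h.symm]), if_neg (by simp), if_pos rfl]

theorem zz4 (h : i ≠ i') : zz ψ p0 p1 q0 q1 (.inl (i', 1)) = q1 := by
  unfold zz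
  rw [if_neg (by simp), if_neg (by simp [h.symm]), if_neg (by simp), if_pos rfl]

theorem zz5 (s : Sg a b) (hs : ¬ Pb b i i' (bl s)) :
    zz ψ p0 p1 q0 q1 s = ψ (tt k b i i' s) := by
  unfold zz
  rw [if_neg, if_neg, if_neg, if_neg]
  · rintro rfl
    exact hs (Or.inr rfl)
  · rintro rfl
    exact hs (Or.inr rfl)
  · rintro rfl
    exact hs (Or.inl rfl)
  · rintro rfl
    exact hs (Or.inl rfl)

theorem tt_o0 (β : Bl a b) : tt k b i i' (o0 β) = 1 := by
  unfold tt
  rw [dif_neg]
  rintro ⟨_, h⟩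
  apply h
  rw [Gs.bl_o0]

theorem tt_X (s : Sig b i i') : tt k b i i' s.1 = X s := by
  unfold tt
  rw [dif_pos s.2]

theorem cases_bl (l : Fin a) (s : Sg a b) (hs : bl s = .inl l) :
    s = .inl (l, 0) ∨ s = .inl (l, 1) := by
  rcases s with ⟨j, c⟩ | s
  · have h1 : j = l := Sum.inl.inj (show (Sum.inl j : Bl a b) = Sum.inl l from hs)
    rw [h1]
    fin_cases c
    · exact Or.inl rfl
    · exact Or.inr rfl
  · exact absurd hs (by simp [bl])

theorem zz_nz (h : i ≠ i') (hp : p0 ≠ 0 ∨ p1 ≠ 0) (hq : q0 ≠ 0 ∨ q1 ≠ 0) :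
    NZ (zz ψ p0 p1 q0 q1) := by
  intro β
  by_cases h1 : β = .inl i
  · rcases hp with hp | hp
    · exact ⟨.inl (i, 0), by rw [h1]; rfl, by rw [zz1]; exact hp⟩
    · exact ⟨.inl (i, 1), by rw [h1]; rfl, by rw [zz2]; exact hp⟩
  by_cases h2 : β = .inl i'
  · rcases hq with hq | hq
    · exact ⟨.inl (i', 0), by rw [h2]; rfl, by rw [zz3 _ _ _ _ _ h]; exact hq⟩
    · exact ⟨.inl (i', 1), by rw [h2]; rfl, by rw [zz4 _ _ _ _ _ h]; exact hq⟩
  refine ⟨o0 β, Gs.bl_o0 β, ?_⟩
  rw [zz5, tt_o0, map_one]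
  · exact one_ne_zero
  · rw [Gs.bl_o0]
    rintro (h3 | h3)
    · exact h1 h3
    · exact h2 h3

theorem zz_co {P : MvPolynomial (Sg a b) k}
    (hP : P ∈ supported k {s : Sg a b | bl s ≠ .inl i ∧ bl s ≠ .inl i'}) :
    aeval (zz ψ p0 p1 q0 q1) P = ψ (aeval (tt k b i i') P) := by
  rw [comp_aeval_apply]
  refine aeval_congr hP fun s hs => zz5 ψ _ _ _ _ s ?_
  rintro (h | h)
  · exact hs.1 h
  · exact hs.2 h

end

/-- generic smoothness -/
theorem smoE {k E : Type} [Field k] [IsAlgClosed k] [CharZero k] [Field E] [Algebra k E] {b : ℕ}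
    {i i' : Fin a} (hii : i ≠ i') (F : MvPolynomial (Sg a b) k) (hF : MHom F) (hsmo : Smo F k)
    (M : Bq (MvPolynomial (Sg a b) k))
    (hsup : ∀ α, M.co α ∈ supported k {s : Sg a b | bl s ≠ .inl i ∧ bl s ≠ .inl i'})
    (hd0 : pderiv (.inl (i, 0)) F =
      M.dp0 (X (.inl (i, 0))) (X (.inl (i, 1))) (X (.inl (i', 0))) (X (.inl (i', 1))))
    (hd1 : pderiv (.inl (i, 1)) F =
      M.dp1 (X (.inl (i, 0))) (X (.inl (i, 1))) (X (.inl (i', 0))) (X (.inl (i', 1))))
    (he0 : pderiv (.inl (i', 0)) F =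
      M.dq0 (X (.inl (i, 0))) (X (.inl (i, 1))) (X (.inl (i', 0))) (X (.inl (i', 1))))
    (he1 : pderiv (.inl (i', 1)) F =
      M.dq1 (X (.inl (i, 0))) (X (.inl (i, 1))) (X (.inl (i', 0))) (X (.inl (i', 1))))
    (ψ : MvPolynomial (Sig b i i') k →ₐ[k] E) (hψ : Function.Injective ψ) :
    ((M.map (aeval (tt k b i i'))).map ψ).Smo := by
  intro p0 p1 q0 q1 hp hq z1 z2 z3 z4
  have hmap : (M.map (aeval (tt k b i i'))).map ψ = M.map (aeval (zz ψ p0 p1 q0 q1)) :=
    map_congr (fun P => ψ (aeval (tt k b i i') P)) _ M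
      fun α => (zz_co ψ p0 p1 q0 q1 (hsup α)).symm
  rw [hmap] at z1 z2 z3 z4
  refine Gs.gs a b k E F hF (Gs.ns a b k F hsmo E) (Pb b i i') (.inl i) (Or.inl rfl)
    (zz ψ p0 p1 q0 q1) (zz_nz ψ _ _ _ _ hii hp hq) ?_ ?_ ?_
  · intro β hβ
    rw [zz5, tt_o0, map_one]
    rw [Gs.bl_o0]
    exact hβ
  · have h1 : (fun s : {s : Sg a b // ¬ Pb b i i' (bl s) ∧ s ≠ o0 (bl s)} =>
        zz ψ p0 p1 q0 q1 s) = ψ ∘ X := by
      funext s
      rw [zz5 ψ _ _ _ _ s.1 s.2.1, tt_X]
      rfl
    rw [h1]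
    exact (algebraicIndependent_X _ k).map' hψ
  · intro s hs
    rcases hs with hs | hs
    · rcases cases_bl i s hs with rfl | rfl
      · rw [hd0]
        refine Eq.trans (map_dp0 (aeval (zz ψ p0 p1 q0 q1)).toRingHom M _ _ _ _) ?_
        change (M.map (aeval (zz ψ p0 p1 q0 q1))).dp0 (aeval _ (X _)) (aeval _ (X _))
          (aeval _ (X _)) (aeval _ (X _)) = 0
        rw [aeval_X, aeval_X, aeval_X, aeval_X, zz1, zz2, zz3 _ _ _ _ _ hii, zz4 _ _ _ _ _ hii]
        exact z1
      · rw [hd1]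
        refine Eq.trans (map_dp1 (aeval (zz ψ p0 p1 q0 q1)).toRingHom M _ _ _ _) ?_
        change (M.map (aeval (zz ψ p0 p1 q0 q1))).dp1 (aeval _ (X _)) (aeval _ (X _))
          (aeval _ (X _)) (aeval _ (X _)) = 0
        rw [aeval_X, aeval_X, aeval_X, aeval_X, zz1, zz2, zz3 _ _ _ _ _ hii, zz4 _ _ _ _ _ hii]
        exact z2
    · rcases cases_bl i' s hs with rfl | rfl
      · rw [he0]
        refine Eq.trans (map_dq0 (aeval (zz ψ p0 p1 q0 q1)).toRingHom M _ _ _ _) ?_
        change (M.map (aeval (zz ψ p0 p1 q0 q1))).dq0 (aeval _ (X _)) (aeval _ (X _))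
          (aeval _ (X _)) (aeval _ (X _)) = 0
        rw [aeval_X, aeval_X, aeval_X, aeval_X, zz1, zz2, zz3 _ _ _ _ _ hii, zz4 _ _ _ _ _ hii]
        exact z3
      · rw [he1]
        refine Eq.trans (map_dq1 (aeval (zz ψ p0 p1 q0 q1)).toRingHom M _ _ _ _) ?_
        change (M.map (aeval (zz ψ p0 p1 q0 q1))).dq1 (aeval _ (X _)) (aeval _ (X _))
          (aeval _ (X _)) (aeval _ (X _)) = 0
        rw [aeval_X, aeval_X, aeval_X, aeval_X, zz1, zz2, zz3 _ _ _ _ _ hii, zz4 _ _ _ _ _ hii]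
        exact z4

theorem exists_zero {k : Type} [Field k] [IsAlgClosed k] {σ : Type} [Finite σ]
    (h : MvPolynomial σ k) (hu : ¬ IsUnit h) : ∃ w : σ → k, aeval w h = 0 := by
  obtain ⟨I, hI, hle⟩ := Ideal.exists_le_maximal (Ideal.span {h})
    (fun h1 => hu (Ideal.span_singleton_eq_top.1 h1))
  obtain ⟨w, hw⟩ := isMaximal_iff_eq_vanishingIdeal_singleton.1 hI
  refine ⟨w, ?_⟩
  have h2 : h ∈ I := hle (Ideal.mem_span_singleton_self h)
  rw [hw, mem_vanishingIdeal_singleton_iff] at h2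
  exact h2

/-- common factors of the coefficients are constant -/
theorem content {k : Type} [Field k] [IsAlgClosed k] [CharZero k] {b : ℕ}
    {i i' : Fin a} (hii : i ≠ i') (F : MvPolynomial (Sg a b) k) (hF : MHom F) (hsmo : Smo F k)
    (M : Bq (MvPolynomial (Sg a b) k))
    (hsup : ∀ α, M.co α ∈ supported k {s : Sg a b | bl s ≠ .inl i ∧ bl s ≠ .inl i'})
    (hFM : F = M.ev (X (.inl (i, 0))) (X (.inl (i, 1))) (X (.inl (i', 0))) (X (.inl (i', 1))))
    (hd0 : pderiv (.inl (i, 0)) F =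
      M.dp0 (X (.inl (i, 0))) (X (.inl (i, 1))) (X (.inl (i', 0))) (X (.inl (i', 1))))
    (hd1 : pderiv (.inl (i, 1)) F =
      M.dp1 (X (.inl (i, 0))) (X (.inl (i, 1))) (X (.inl (i', 0))) (X (.inl (i', 1))))
    (he0 : pderiv (.inl (i', 0)) F =
      M.dq0 (X (.inl (i, 0))) (X (.inl (i, 1))) (X (.inl (i', 0))) (X (.inl (i', 1))))
    (he1 : pderiv (.inl (i', 1)) F =
      M.dq1 (X (.inl (i, 0))) (X (.inl (i, 1))) (X (.inl (i', 0))) (X (.inl (i', 1))))
    (h : MvPolynomial (Sig b i i') k) (g : Fin 9 → MvPolynomial (Sig b i i') k)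
    (hg : ∀ α, aeval (tt k b i i') (M.co α) = g α * h) : IsUnit h := by
  classical
  by_contra hu
  obtain ⟨w0, hw0⟩ := exists_zero h hu
  obtain ⟨q0, q1, hq, hz⟩ := Dc.exists_zero_quad (aeval w0 (g 0)) (aeval w0 (g 1)) (aeval w0 (g 2))
  obtain ⟨ψ, hψ⟩ : ∃ ψ : MvPolynomial (Sig b i i') k →ₐ[k] k, ψ = aeval w0 := ⟨_, rfl⟩
  rw [← hψ] at hw0 hz
  obtain ⟨w, hw⟩ : ∃ w, w = zz ψ 1 0 q0 q1 := ⟨_, rfl⟩
  have hwz : ∀ α, aeval w (M.co α) = 0 := by
    intro α
    rw [hw, zz_co ψ 1 0 q0 q1 (hsup α), hg, map_mul, hw0, mul_zero]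
  have w1 : w (.inl (i, 0)) = 1 := by rw [hw, zz1]
  have w2 : w (.inl (i, 1)) = 0 := by rw [hw, zz2]
  have w3 : w (.inl (i', 0)) = q0 := by rw [hw, zz3 _ _ _ _ _ hii]
  have w4 : w (.inl (i', 1)) = q1 := by rw [hw, zz4 _ _ _ _ _ hii]
  have c0 : aeval w M.m00 = 0 := hwz 0
  have c1 : aeval w M.m01 = 0 := hwz 1
  have c2 : aeval w M.m02 = 0 := hwz 2
  have c3 : aeval w M.m10 = 0 := hwz 3
  have c4 : aeval w M.m11 = 0 := hwz 4
  have c5 : aeval w M.m12 = 0 := hwz 5
  have c6 : aeval w M.m20 = 0 := hwz 6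
  have c7 : aeval w M.m21 = 0 := hwz 7
  have c8 : aeval w M.m22 = 0 := hwz 8
  have hwF : aeval w F = 0 := by
    rw [hFM]
    simp only [Bq.ev, map_add, map_mul, map_pow, c0, c1, c2, c3, c4, c5, c6, c7, c8]
    ring
  have hA : ∀ s, Pb b i i' (bl s) → aeval w (pderiv s F) = 0 := by
    intro s hs
    rcases hs with hs | hs
    · rcases cases_bl i s hs with rfl | rfl
      · rw [hd0]
        simp only [Bq.dp0, map_add, map_mul, map_pow, c0, c1, c2, c3, c4, c5, c6, c7, c8]
        ring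
      · rw [hd1]
        simp only [Bq.dp1, map_add, map_mul, map_pow, c0, c1, c2, c3, c4, c5, c6, c7, c8]
        ring
    · rcases cases_bl i' s hs with rfl | rfl
      · rw [he0]
        simp only [Bq.dq0, map_add, map_mul, map_pow, c0, c1, c2, c3, c4, c5, c6, c7, c8]
        ring
      · rw [he1]
        simp only [Bq.dq1, map_add, map_mul, map_pow, c0, c1, c2, c3, c4, c5, c6, c7, c8]
        ring
  have hB : ∀ s, ¬ Pb b i i' (bl s) → s ≠ o0 (bl s) → aeval w (pderiv s F) = 0 := by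
    intro s hs hs0
    have hne : ∀ l c, (l = i ∨ l = i') → (Sum.inl (l, c) : Sg a b) ≠ s := by
      rintro l c hl rfl
      apply hs
      rcases hl with rfl | rfl
      · exact Or.inl rfl
      · exact Or.inr rfl
    have key : ∀ α, aeval w (pderiv s (M.co α)) = ψ (g α) * ψ (pderiv ⟨s, hs, hs0⟩ h) := by
      intro α
      rw [hw, zz_co ψ 1 0 q0 q1 (pderiv_supp (hsup α) s)]
      rw [← comm_pderiv (pderiv (⟨s, hs, hs0⟩ : Sig b i i')) (tt k b i i') s, hg,
        Derivation.leibniz, map_add, smul_eq_mul, smul_eq_mul, map_mul, map_mul, hw0, zero_mul,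
        add_zero]
      intro l
      unfold tt
      by_cases hl : l = s
      · subst hl
        rw [dif_pos ⟨hs, hs0⟩, if_pos rfl, pderiv_X_self]
      · rw [if_neg hl]
        split_ifs with h1
        · refine pderiv_X_of_ne ?_
          intro h2
          exact hl (congrArg Subtype.val h2)
        · exact Derivation.map_one_eq_zero _
    have k0 : aeval w (pderiv s M.m00) = ψ (g 0) * ψ (pderiv ⟨s, hs, hs0⟩ h) := key 0
    have k1 : aeval w (pderiv s M.m01) = ψ (g 1) * ψ (pderiv ⟨s, hs, hs0⟩ h) := key 1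
    have k2 : aeval w (pderiv s M.m02) = ψ (g 2) * ψ (pderiv ⟨s, hs, hs0⟩ h) := key 2
    conv_lhs => rw [hFM]
    simp only [Bq.ev, map_add, Derivation.leibniz, Derivation.leibniz_pow,
      pderiv_X_of_ne (hne i 0 (Or.inl rfl)), pderiv_X_of_ne (hne i 1 (Or.inl rfl)),
      pderiv_X_of_ne (hne i' 0 (Or.inr rfl)), pderiv_X_of_ne (hne i' 1 (Or.inr rfl)),
      smul_eq_mul, nsmul_eq_mul, mul_zero, add_zero, zero_add, map_mul, map_pow, aeval_X,
      w1, w2, w3, w4, k0, k1, k2]
    linear_combination ψ (pderiv ⟨s, hs, hs0⟩ h) * hz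
  obtain ⟨s, hs⟩ := hsmo w (by
    rw [hw]
    exact zz_nz ψ _ _ _ _ hii (Or.inl one_ne_zero) hq)
  apply hs
  by_cases h1 : Pb b i i' (bl s)
  · exact hA s h1
  by_cases h2 : s = o0 (bl s)
  · have h3 := Gs.euler hF w (bl s)
    rw [hwF, mul_zero, Finset.sum_eq_single s] at h3
    · have h4 : w s = 1 := by
        rw [hw, zz5 ψ _ _ _ _ s h1, h2, tt_o0, map_one]
      rw [h4, one_mul] at h3
      exact h3
    · intro s' hs' hne
      have h5 := (Finset.mem_filter.1 hs').2
      rw [hB s' (by rw [h5]; exact h1) (by rw [h5, ← h2]; exact hne), mul_zero]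
    · intro h6
      exact (h6 (Finset.mem_filter.2 ⟨Finset.mem_univ _, rfl⟩)).elim
  · exact hB s h1 h2

end step2

section final

open Polynomial in
theorem map_unit {R Q : Type*} [CommRing R] [IsDomain R] [Field Q] (ι : R →+* Q)
    (hι : Function.Injective ι) (H : R[X][X]) (hH : IsUnit (H.map (mapRingHom ι))) :
    ∃ h : R, H = C (C h) := by
  have h1 := natDegree_eq_zero_of_isUnit hH
  have hinj : Function.Injective (mapRingHom ι) := map_injective ι hι
  rw [natDegree_map_eq_of_injective hinj] at h1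
  obtain ⟨H', rfl⟩ := natDegree_eq_zero.1 h1
  rw [map_C] at hH
  have h2 := natDegree_eq_zero_of_isUnit (isUnit_C.1 hH)
  rw [coe_mapRingHom, natDegree_map_eq_of_injective hι] at h2
  obtain ⟨h, rfl⟩ := natDegree_eq_zero.1 h2
  exact ⟨h, rfl⟩

open MvPolynomial

variable {a : ℕ}

theorem irrR {k : Type} [Field k] [IsAlgClosed k] [CharZero k] {b : ℕ}
    {i i' : Fin a} (hii : i ≠ i') (F : MvPolynomial (Sg a b) k) (hF : MHom F) (hsmo : Smo F k)
    (M : Bq (MvPolynomial (Sg a b) k))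
    (hsup : ∀ α, M.co α ∈ supported k {s : Sg a b | bl s ≠ .inl i ∧ bl s ≠ .inl i'})
    (hFM : F = M.ev (X (.inl (i, 0))) (X (.inl (i, 1))) (X (.inl (i', 0))) (X (.inl (i', 1))))
    (hd0 : pderiv (.inl (i, 0)) F =
      M.dp0 (X (.inl (i, 0))) (X (.inl (i, 1))) (X (.inl (i', 0))) (X (.inl (i', 1))))
    (hd1 : pderiv (.inl (i, 1)) F =
      M.dp1 (X (.inl (i, 0))) (X (.inl (i, 1))) (X (.inl (i', 0))) (X (.inl (i', 1))))
    (he0 : pderiv (.inl (i', 0)) F =
      M.dq0 (X (.inl (i, 0))) (X (.inl (i, 1))) (X (.inl (i', 0))) (X (.inl (i', 1))))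
    (he1 : pderiv (.inl (i', 1)) F =
      M.dq1 (X (.inl (i, 0))) (X (.inl (i, 1))) (X (.inl (i', 0))) (X (.inl (i', 1)))) :
    Irreducible (pf (M.map (aeval (tt k b i i')))) := by
  have hcQ : CharZero (FractionRing (MvPolynomial (Sig b i i') k)) :=
    charZero_of_injective_algebraMap
      (IsFractionRing.injective (MvPolynomial (Sig b i i') k)
        (FractionRing (MvPolynomial (Sig b i i') k)))
  have hinj := IsFractionRing.injective (MvPolynomial (Sig b i i') k)
        (FractionRing (MvPolynomial (Sig b i i') k))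
  obtain ⟨mR, hmR⟩ : ∃ mR, mR = M.map (aeval (tt k b i i')) := ⟨_, rfl⟩
  have hm : ((mR.map (algebraMap (MvPolynomial (Sig b i i') k)
      (FractionRing (MvPolynomial (Sig b i i') k)))).map
      (algebraMap (FractionRing (MvPolynomial (Sig b i i') k))
        (AlgebraicClosure (FractionRing (MvPolynomial (Sig b i i') k))))).Smo := by
    have h1 := smoE (E := AlgebraicClosure (FractionRing (MvPolynomial (Sig b i i') k)))
      hii F hF hsmo M hsup hd0 hd1 he0 he1
      ((IsScalarTower.toAlgHom k (FractionRing (MvPolynomial (Sig b i i') k))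
        (AlgebraicClosure (FractionRing (MvPolynomial (Sig b i i') k)))).comp
        (IsScalarTower.toAlgHom k (MvPolynomial (Sig b i i') k)
          (FractionRing (MvPolynomial (Sig b i i') k))))
      ((algebraMap (FractionRing (MvPolynomial (Sig b i i') k))
        (AlgebraicClosure (FractionRing (MvPolynomial (Sig b i i') k)))).injective.comp hinj)
    rw [← hmR] at h1
    exact h1
  have hirr := pf_irr _ hm
  rw [← pf_map] at hirr
  have hcon := content hii F hF hsmo M hsup hFM hd0 hd1 he0 he1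
  have hfac : ∀ G H : Polynomial (Polynomial (MvPolynomial (Sig b i i') k)), pf mR = G * H →
      IsUnit (H.map (Polynomial.mapRingHom (algebraMap (MvPolynomial (Sig b i i') k)
        (FractionRing (MvPolynomial (Sig b i i') k))))) → IsUnit H := by
    intro G H hGH hH
    obtain ⟨h, rfl⟩ := map_unit _ hinj H hH
    have hc := pf_coeff mR
    rw [hGH] at hc
    simp only [Polynomial.coeff_mul_C] at hc
    obtain ⟨e0, e1, e2, e3, e4, e5, e6, e7, e8⟩ := hc
    rw [hmR] at e0 e1 e2 e3 e4 e5 e6 e7 e8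
    have hu : IsUnit h := hcon h ![(G.coeff 0).coeff 0, (G.coeff 1).coeff 0, (G.coeff 2).coeff 0,
      (G.coeff 0).coeff 1, (G.coeff 1).coeff 1, (G.coeff 2).coeff 1,
      (G.coeff 0).coeff 2, (G.coeff 1).coeff 2, (G.coeff 2).coeff 2] (by
        intro α
        fin_cases α
        · exact e0.symm
        · exact e1.symm
        · exact e2.symm
        · exact e3.symm
        · exact e4.symm
        · exact e5.symm
        · exact e6.symm
        · exact e7.symm
        · exact e8.symm)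
    exact Polynomial.isUnit_C.2 (Polynomial.isUnit_C.2 hu)
  rw [← hmR, irreducible_iff]
  refine ⟨?_, ?_⟩
  · intro hu
    exact hirr.not_isUnit (hu.map (Polynomial.mapRingHom (Polynomial.mapRingHom
      (algebraMap (MvPolynomial (Sig b i i') k) (FractionRing (MvPolynomial (Sig b i i') k))))))
  · intro G H hGH
    rw [hGH, Polynomial.map_mul] at hirr
    rcases hirr.isUnit_or_isUnit rfl with h | h
    · left
      exact hfac H G (by rw [hGH, mul_comm]) h
    · right
      exact hfac G H hGH h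

/-- the affine coordinates -/
def EE (b : ℕ) (i i' : Fin a) : Option (Option (Sig b i i')) → Af a b
  | none => ⟨.inl (i', 1), by simp [bl, o0]⟩
  | some none => ⟨.inl (i, 1), by simp [bl, o0]⟩
  | some (some s) => ⟨s.1, s.2.2⟩

theorem EE_bij (b : ℕ) {i i' : Fin a} (hii : i ≠ i') : Function.Bijective (EE b i i') := by
  constructor
  · rintro (_ | _ | s) (_ | _ | s') h
    · rfl
    · exact absurd (congrArg Subtype.val h) (by simp [EE, hii.symm])
    · exfalso
      have h1 : (Sum.inl (i', 1) : Sg a b) = s'.1 := congrArg Subtype.val h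
      exact s'.2.1 (by rw [← h1]; exact Or.inr rfl)
    · exact absurd (congrArg Subtype.val h) (by simp [EE, hii])
    · rfl
    · exfalso
      have h1 : (Sum.inl (i, 1) : Sg a b) = s'.1 := congrArg Subtype.val h
      exact s'.2.1 (by rw [← h1]; exact Or.inl rfl)
    · exfalso
      have h1 : s.1 = (Sum.inl (i', 1) : Sg a b) := congrArg Subtype.val h
      exact s.2.1 (by rw [h1]; exact Or.inr rfl)
    · exfalso
      have h1 : s.1 = (Sum.inl (i, 1) : Sg a b) := congrArg Subtype.val h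
      exact s.2.1 (by rw [h1]; exact Or.inl rfl)
    · have h1 : (EE b i i' (some (some s))).1 = (EE b i i' (some (some s'))).1 :=
        congrArg Subtype.val h
      have h2 : s = s' := Subtype.ext h1
      rw [h2]
  · rintro ⟨s, hs⟩
    by_cases h1 : bl s = .inl i
    · rcases cases_bl i s h1 with rfl | rfl
      · exact absurd rfl hs
      · exact ⟨some none, rfl⟩
    by_cases h2 : bl s = .inl i'
    · rcases cases_bl i' s h2 with rfl | rfl
      · exact absurd rfl hs
      · exact ⟨none, rfl⟩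
    · refine ⟨some (some ⟨s, ?_, hs⟩), rfl⟩
      rintro (h3 | h3)
      · exact h1 h3
      · exact h2 h3

/-- change of variables -/
noncomputable def Phi (k : Type) [Field k] {b N : ℕ} {i i' : Fin a} (hii : i ≠ i')
    (e : Af a b ≃ Fin N) : MvPolynomial (Fin N) k ≃ₐ[k]
      Polynomial (Polynomial (MvPolynomial (Sig b i i') k)) :=
  (renameEquiv k (e.symm.trans (Equiv.ofBijective _ (EE_bij b hii)).symm)).trans
    ((optionEquivLeft k (Option (Sig b i i'))).trans
      (Polynomial.mapAlgEquiv (optionEquivLeft k (Sig b i i'))))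

theorem Phi_X (k : Type) [Field k] {b N : ℕ} {i i' : Fin a} (hii : i ≠ i')
    (e : Af a b ≃ Fin N) (o : Option (Option (Sig b i i'))) :
    Phi k hii e (X (e (EE b i i' o))) =
      (optionEquivLeft k (Option (Sig b i i')) (X o)).map
        (optionEquivLeft k (Sig b i i') : _ →+* _) := by
  have h1 : (Equiv.ofBijective _ (EE_bij b hii)).symm (EE b i i' o) = o := by
    rw [Equiv.symm_apply_eq]
    rfl
  unfold Phi
  rw [AlgEquiv.trans_apply, AlgEquiv.trans_apply, renameEquiv_apply, rename_X,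
    Equiv.trans_apply, Equiv.symm_apply_apply, h1]
  rfl

theorem irl : StmIRL := by
  intro a b N k _ _ _ e F hF hsmo ha
  classical
  obtain ⟨i, i', hii⟩ : ∃ i i' : Fin a, i ≠ i' :=
    ⟨⟨0, by omega⟩, ⟨1, by omega⟩, by simp⟩
  obtain ⟨M, hsup, hFM, hd0, hd1, he0, he1⟩ := Dec.dec2 a b k F hF i i' hii
  have hirr := irrR hii F hF hsmo M hsup hFM hd0 hd1 he0 he1
  rw [← MulEquiv.irreducible_iff (Phi k hii e)]
  suffices hP : Phi k hii e (deh e F) = pf (M.map (aeval (tt k b i i'))) by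
    rw [hP]
    exact hirr
  obtain ⟨TT, hTT⟩ : ∃ TT : Sg a b → Polynomial (Polynomial (MvPolynomial (Sig b i i') k)),
    TT = fun s => Phi k hii e (if h : s ≠ o0 (bl s) then X (e ⟨s, h⟩) else 1) := ⟨_, rfl⟩
  have hTo : ∀ o, TT (EE b i i' o).1 = (optionEquivLeft k (Option (Sig b i i')) (X o)).map
        (optionEquivLeft k (Sig b i i') : _ →+* _) := by
    intro o
    rw [hTT, ← Phi_X k hii e o]
    exact congrArg (Phi k hii e) (dif_pos (EE b i i' o).2)
  have hT0 : ∀ β, TT (o0 β) = 1 := by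
    intro β
    rw [hTT]
    refine Eq.trans (congrArg (Phi k hii e) (dif_neg ?_)) (map_one _)
    rw [Gs.bl_o0]
    exact fun h => h rfl
  have t1 : TT (.inl (i, 0)) = 1 := hT0 (.inl i)
  have t3 : TT (.inl (i', 0)) = 1 := hT0 (.inl i')
  have t2 : TT (.inl (i, 1)) = Polynomial.C Polynomial.X := by
    have h1 := hTo (some none)
    rw [optionEquivLeft_X_some, Polynomial.map_C] at h1
    refine Eq.trans h1 ?_
    exact congrArg Polynomial.C (optionEquivLeft_X_none k _)
  have t4 : TT (.inl (i', 1)) = Polynomial.X := by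
    have h1 := hTo none
    rw [optionEquivLeft_X_none, Polynomial.map_X] at h1
    exact h1
  have t5 : ∀ s, ¬ Pb b i i' (bl s) → TT s = Polynomial.C (Polynomial.C (tt k b i i' s)) := by
    intro s hs
    by_cases h2 : s = o0 (bl s)
    · rw [h2, hT0, tt_o0, Polynomial.C_1, Polynomial.C_1]
    · have h1 := hTo (some (some ⟨s, hs, h2⟩))
      rw [optionEquivLeft_X_some, Polynomial.map_C] at h1
      rw [tt_X ⟨s, hs, h2⟩]
      refine Eq.trans h1 ?_
      exact congrArg Polynomial.C (optionEquivLeft_X_some k _ _)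
  have hco : ∀ α, aeval TT (M.co α) =
      Polynomial.C (Polynomial.C (aeval (tt k b i i') (M.co α))) := by
    intro α
    have h1 := comp_aeval_apply (B := Polynomial (Polynomial (MvPolynomial (Sig b i i') k)))
      (tt k b i i') ((Polynomial.CAlgHom (R := k) (A := Polynomial (MvPolynomial (Sig b i i') k))).comp
        (Polynomial.CAlgHom (R := k) (A := MvPolynomial (Sig b i i') k))) (M.co α)
    refine Eq.trans ?_ h1.symm
    refine aeval_congr (hsup α) fun s hs => t5 s ?_
    rintro (h | h)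
    · exact hs.1 h
    · exact hs.2 h
  have h1 : Phi k hii e (deh e F) = aeval TT F := by
    unfold deh
    rw [hTT]
    exact comp_aeval_apply (B := Polynomial (Polynomial (MvPolynomial (Sig b i i') k)))
      _ (Phi k hii e).toAlgHom F
  have h2 : M.map (aeval TT) = (M.map (aeval (tt k b i i'))).map
      fun r => Polynomial.C (Polynomial.C r) :=
    map_congr _ (fun P => Polynomial.C (Polynomial.C (aeval (tt k b i i') P))) M hco
  rw [h1]
  conv_lhs => rw [hFM]
  refine Eq.trans (map_ev (S := Polynomial (Polynomial (MvPolynomial (Sig b i i') k)))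
    (aeval TT).toRingHom M _ _ _ _) ?_
  change (M.map (aeval TT)).ev (aeval _ (X _)) (aeval _ (X _)) (aeval _ (X _)) (aeval _ (X _)) = _
  rw [aeval_X, aeval_X, aeval_X, aeval_X, t1, t2, t3, t4, h2]
  rfl

end final

end Pool.Agent.Y200.CY.Irl
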