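import Pool.Agent.Y200.CY.Stm2
import Pool.Agent.Y200.CY.Gs
import Pool.Agent.Y200.CY.Dec
import Pool.Agent.Y200.CY.Sm
import Pool.Agent.Y200.CY.Mh

/-! Smooth hypersurfaces are irreducible, if there is a plane (helper188, job CY-IRP). -/

set_option autoImplicit false

namespace Pool.Agent.Y200.CY.Irp

open MvPolynomial Pool.Agent.Y200.CB Pool.Agent.Y200.CY.Mh

/-- the affine coordinates outside the plane `j` -/
abbrev Oc (a b : ℕ) (j : Fin b) := {s : Sg a b // bl s ≠ .inr j ∧ s ≠ o0 (bl s)}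

theorem supp_eq {k A : Type} [CommRing k] [CommRing A] [Algebra k A] {σ : Type}
    (f g : MvPolynomial σ k →ₐ[k] A) {T : Set σ} (h : ∀ q ∈ T, f (X q) = g (X q))
    {P : MvPolynomial σ k} (hP : P ∈ supported k T) : f P = g P := by
  have h1 : supported k T ≤ AlgHom.equalizer f g := by
    refine Algebra.adjoin_le ?_
    rintro _ ⟨q, hq, rfl⟩
    exact h q hq
  exact h1 hP

theorem exists_zero {k : Type} [Field k] [IsAlgClosed k] {σ : Type} [Finite σ]
    (g : MvPolynomial σ k) (hg : ¬ IsUnit g) : ∃ y : σ → k, eval y g = 0 := by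
  by_contra hcon
  push Not at hcon
  apply hg
  have h1 : zeroLocus k (Ideal.span {g}) = ∅ := by
    ext y
    simp only [Set.mem_empty_iff_false, iff_false]
    intro hy
    exact hcon y (hy g (Ideal.subset_span rfl))
  have h2 := vanishingIdeal_zeroLocus_eq_radical (K := k) (Ideal.span {g})
  rw [h1] at h2
  have h3 : (1 : MvPolynomial σ k) ∈ (Ideal.span {g}).radical := by
    rw [← h2]
    intro y hy
    exact absurd hy (Set.notMem_empty y)
  have h4 : Ideal.span {g} = ⊤ := by
    rw [← Ideal.radical_eq_top]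
    exact (Ideal.eq_top_iff_one _).2 h3
  exact Ideal.span_singleton_eq_top.1 h4

theorem cubic_root {k : Type} [Field k] [IsAlgClosed k] (c : Cub k) :
    ∃ Y : Fin 3 → k, (∃ i, Y i ≠ 0) ∧ c.ev (Y 0) (Y 1) (Y 2) = 0 := by
  by_cases h : c.c00 = 0
  · exact ⟨![1, 0, 0], ⟨0, one_ne_zero⟩, by simp [Cub.ev, h]⟩
  · let q : Polynomial k := Polynomial.C c.c00 * Polynomial.X ^ 3 +
      Polynomial.C c.c10 * Polynomial.X ^ 2 + Polynomial.C c.c20 * Polynomial.X +
      Polynomial.C c.c30
    have hq : q.degree = 3 := Polynomial.degree_cubic h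
    obtain ⟨t, ht⟩ := IsAlgClosed.exists_root q (by rw [hq]; decide)
    refine ⟨![t, 1, 0], ⟨1, one_ne_zero⟩, ?_⟩
    have h1 : c.c00 * t ^ 3 + c.c10 * t ^ 2 + c.c20 * t + c.c30 = 0 := by
      simpa [q] using ht
    simp only [Cub.ev, Matrix.cons_val_zero, Matrix.cons_val_one, Matrix.cons_val]
    linear_combination h1

section

variable {a b N : ℕ} (k : Type) [Field k] (j : Fin b) (e : Af a b ≃ Fin N)

/-- dehomogenisation outside the plane -/
noncomputable def dO : MvPolynomial (Sg a b) k →ₐ[k] MvPolynomial (Oc a b j) k :=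
  aeval (fun s => if h : bl s ≠ .inr j ∧ s ≠ o0 (bl s) then X ⟨s, h⟩ else 1)

theorem dO_X (s : Sg a b) : dO k j (X s) =
    if h : bl s ≠ .inr j ∧ s ≠ o0 (bl s) then X ⟨s, h⟩ else 1 := aeval_X _ _

theorem dO_pderiv (t : Oc a b j) (P : MvPolynomial (Sg a b) k) :
    pderiv t (dO k j P) = dO k j (pderiv t.1 P) := by
  classical
  induction P using MvPolynomial.induction_on with
  | C c =>
    rw [pderiv_C, map_zero]
    change pderiv t (dO k j (algebraMap k _ c)) = 0
    rw [AlgHom.commutes]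
    exact pderiv_C
  | add p q hp hq => rw [map_add, map_add, hp, hq, map_add, map_add]
  | mul_X p s hp =>
    have h1 : pderiv t (dO k j (X s)) = dO k j (pderiv t.1 (X s)) := by
      rw [dO_X]
      by_cases h : bl s ≠ .inr j ∧ s ≠ o0 (bl s)
      · rw [dif_pos h]
        by_cases h2 : s = t.1
        · have h3 : (⟨s, h⟩ : Oc a b j) = t := Subtype.ext h2
          rw [h3, h2, pderiv_X_self, pderiv_X_self, map_one]
        · have h3 : (⟨s, h⟩ : Oc a b j) ≠ t := fun h4 => h2 (congrArg Subtype.val h4)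
          rw [pderiv_X_of_ne h3, pderiv_X_of_ne h2, map_zero]
      · have h2 : s ≠ t.1 := by
          rintro rfl
          exact h t.2
        rw [dif_neg h, pderiv_X_of_ne h2, map_zero, pderiv_one]
    rw [map_mul, Derivation.leibniz, hp, h1, Derivation.leibniz, map_add, smul_eq_mul,
      smul_eq_mul, smul_eq_mul, smul_eq_mul, map_mul, map_mul]

/-- polynomials in the two coordinates of the plane -/
noncomputable def psi :
    MvPolynomial (Fin N) k →ₐ[k] MvPolynomial (Fin 2) (MvPolynomial (Oc a b j) k) :=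
  aeval (fun l => if h : bl (e.symm l).1 ≠ .inr j then C (X ⟨(e.symm l).1, h, (e.symm l).2⟩)
    else if (e.symm l).1 = .inr (j, 1) then X 0 else X 1)

theorem ne1 : (Sum.inr (j, 1) : Sg a b) ≠ o0 (bl (Sum.inr (j, 1) : Sg a b)) := by
  simp [o0, bl]

theorem ne2 : (Sum.inr (j, 2) : Sg a b) ≠ o0 (bl (Sum.inr (j, 2) : Sg a b)) := by
  simp [o0, bl]

/-- the inverse of `psi` -/
noncomputable def theta :
    MvPolynomial (Fin 2) (MvPolynomial (Oc a b j) k) →+* MvPolynomial (Fin N) k :=
  eval₂Hom (rename (fun o : Oc a b j => e ⟨o.1, o.2.2⟩) : _ →ₐ[k] _).toRingHom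
    ![X (e ⟨_, ne1 j⟩), X (e ⟨_, ne2 j⟩)]

theorem theta_psi (P : MvPolynomial (Fin N) k) : theta k j e (psi k j e P) = P := by
  have h : (theta k j e).comp (psi k j e : _ →+* _) = RingHom.id _ := by
    apply MvPolynomial.ringHom_ext
    · intro c
      change theta k j e (psi k j e (algebraMap k _ c)) = C c
      rw [AlgHom.commutes]
      change theta k j e (C (C c)) = C c
      unfold theta
      rw [coe_eval₂Hom, eval₂_C]
      exact rename_C _ _
    · intro l
      change theta k j e (psi k j e (X l)) = X l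
      unfold psi
      rw [aeval_X]
      by_cases h : bl (e.symm l).1 ≠ .inr j
      · rw [dif_pos h]
        unfold theta
        rw [coe_eval₂Hom, eval₂_C]
        change rename _ (X _) = _
        rw [rename_X]
        congr 1
        exact e.apply_symm_apply l
      · rw [dif_neg h]
        push Not at h
        rcases plane_cases h with h2 | h2 | h2
        · exact absurd (h2.trans (by rw [h2]; rfl)) (e.symm l).2
        · rw [if_pos h2]
          unfold theta
          rw [coe_eval₂Hom, eval₂_X]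
          change X (e ⟨_, ne1 j⟩) = X l
          congr 1
          rw [← Equiv.eq_symm_apply]
          exact Subtype.ext h2.symm
        · rw [if_neg (by rw [h2]; simp)]
          unfold theta
          rw [coe_eval₂Hom, eval₂_X]
          change X (e ⟨_, ne2 j⟩) = X l
          congr 1
          rw [← Equiv.eq_symm_apply]
          exact Subtype.ext h2.symm
  exact congrArg (fun φ => φ P) h

theorem deh_X (s : Sg a b) : deh e (X s : MvPolynomial (Sg a b) k) =
    if h : s ≠ o0 (bl s) then X (e ⟨s, h⟩) else 1 := aeval_X _ _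

/-- `psi` and the dehomogenisation -/
noncomputable def pd :
    MvPolynomial (Sg a b) k →ₐ[k] MvPolynomial (Fin 2) (MvPolynomial (Oc a b j) k) :=
  (psi k j e).comp (aeval (fun s => if h : s ≠ o0 (bl s) then X (e ⟨s, h⟩) else 1))

theorem pd_apply (P : MvPolynomial (Sg a b) k) : pd k j e P = psi k j e (deh e P) := rfl

theorem pd_supp {P : MvPolynomial (Sg a b) k} (hP : P ∈ supported k {s : Sg a b | bl s ≠ .inr j}) :
    pd k j e P = C (dO k j P) := by
  refine supp_eq (pd k j e) ((IsScalarTower.toAlgHom k (MvPolynomial (Oc a b j) k)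
    (MvPolynomial (Fin 2) (MvPolynomial (Oc a b j) k))).comp (dO k j)) ?_ hP
  intro s hs
  have hs' : bl s ≠ .inr j := hs
  change psi k j e (deh e (X s)) = C (dO k j (X s))
  rw [deh_X, dO_X]
  by_cases h : s ≠ o0 (bl s)
  · rw [dif_pos h, dif_pos ⟨hs', h⟩]
    unfold psi
    have h3 : bl (e.symm (e ⟨s, h⟩)).1 ≠ .inr j := by
      rw [Equiv.symm_apply_apply]
      exact hs'
    rw [aeval_X, dif_pos h3]
    congr 2
    apply Subtype.ext
    change (e.symm (e ⟨s, h⟩)).1 = s
    rw [Equiv.symm_apply_apply]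
  · rw [dif_neg h, dif_neg (fun h2 => h h2.2), map_one, map_one]

theorem pd_0 : pd k j e (X (.inr (j, 0))) = 1 := by
  rw [pd_apply, deh_X, dif_neg (by rw [not_not]; rfl), map_one]

theorem pd_1 : pd k j e (X (.inr (j, 1))) = X 0 := by
  rw [pd_apply, deh_X, dif_pos (ne1 j)]
  unfold psi
  rw [aeval_X, dif_neg, if_pos]
  · rw [Equiv.symm_apply_apply]
  · rw [Equiv.symm_apply_apply, not_not]
    rfl

theorem pd_2 : pd k j e (X (.inr (j, 2))) = X 1 := by
  rw [pd_apply, deh_X, dif_pos (ne2 j)]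
  unfold psi
  rw [aeval_X, dif_neg, if_neg]
  · rw [Equiv.symm_apply_apply]
    simp
  · rw [Equiv.symm_apply_apply, not_not]
    rfl

theorem psi_deh (F : MvPolynomial (Sg a b) k) (M : Cub (MvPolynomial (Sg a b) k))
    (hsupp : ∀ α, M.co α ∈ supported k {s : Sg a b | bl s ≠ .inr j})
    (hFM : F = M.ev (X (.inr (j, 0))) (X (.inr (j, 1))) (X (.inr (j, 2)))) :
    psi k j e (deh e F) = (M.map (dO k j)).aff := by
  rw [← pd_apply, hFM]
  have h1 := map_ev (pd k j e).toRingHom M (X (.inr (j, 0))) (X (.inr (j, 1)))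
    (X (.inr (j, 2)))
  refine h1.trans ?_
  change (M.map (pd k j e)).ev (pd k j e (X _)) (pd k j e (X _)) (pd k j e (X _)) = _
  rw [pd_0, pd_1, pd_2, map_congr (pd k j e) (fun P => C (dO k j P)) M
    fun α => pd_supp k j e (hsupp α)]
  rfl

end

theorem map_aff {R S : Type} [CommRing R] [CommRing S] (ι : R →+* S) (c : Cub R) :
    MvPolynomial.map ι c.aff = (c.map ι).aff := by
  unfold Cub.aff
  rw [map_ev]
  simp only [map_one, MvPolynomial.map_X]
  congr 1
  simp [Cub.map, MvPolynomial.map_C]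

theorem smo_gen {a b : ℕ} {k E : Type} [Field k] [CharZero k] [Field E] [Algebra k E]
    (F : MvPolynomial (Sg a b) k) (hF : MHom F) (hsmo : Smo F E) (j : Fin b)
    (M : Cub (MvPolynomial (Sg a b) k))
    (hsupp : ∀ α, M.co α ∈ supported k {s : Sg a b | bl s ≠ .inr j})
    (hF0 : pderiv (.inr (j, 0)) F = M.d0 (X (.inr (j, 0))) (X (.inr (j, 1))) (X (.inr (j, 2))))
    (hF1 : pderiv (.inr (j, 1)) F = M.d1 (X (.inr (j, 0))) (X (.inr (j, 1))) (X (.inr (j, 2))))
    (hF2 : pderiv (.inr (j, 2)) F = M.d2 (X (.inr (j, 0))) (X (.inr (j, 1))) (X (.inr (j, 2))))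
    (z : Sg a b → E) (hz0 : ∀ β, z (o0 β) = 1)
    (hind : AlgebraicIndependent k (fun s : Oc a b j => z s.1)) :
    (M.map (aeval z)).Smo := by
  classical
  intro p0 q0 r0 h0 h1 h2
  by_contra hne
  have hne' : ∃ i : Fin 3, ![p0, q0, r0] i ≠ 0 := by
    by_contra h
    push Not at h
    exact hne ⟨h 0, h 1, h 2⟩
  let z' : Sg a b → E := fun t => if bl t = .inr j then ![p0, q0, r0] (pl t) else z t
  have hz'T : ∀ q ∈ {s : Sg a b | bl s ≠ .inr j}, z' q = z q := fun q hq => if_neg hq
  have hz'i : ∀ i : Fin 3, z' (.inr (j, i)) = ![p0, q0, r0] i := fun i => if_pos rfl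
  have hMM : M.map (aeval z') = M.map (aeval z) :=
    map_congr _ _ M fun α => aeval_congr (hsupp α) hz'T
  refine Gs.gs a b k E F hF hsmo (fun β => β = .inr j) (.inr j) rfl z' ?_ ?_ ?_ ?_
  · intro β
    by_cases hβ : β = .inr j
    · obtain ⟨i, hi⟩ := hne'
      exact ⟨.inr (j, i), hβ.symm, by rw [hz'i]; exact hi⟩
    · refine ⟨o0 β, Mh.bl_o0 β, ?_⟩
      rw [hz'T (o0 β) (by rw [Set.mem_ofPred_eq, Mh.bl_o0]; exact hβ), hz0]
      exact one_ne_zero
  · intro β hβ
    rw [hz'T (o0 β) (by rw [Set.mem_ofPred_eq, Mh.bl_o0]; exact hβ), hz0]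
  · have e : (fun s : {s : Sg a b // ¬ (fun β => β = Sum.inr j) (bl s) ∧ s ≠ o0 (bl s)} =>
        z' s.1) = fun s => z s.1 := funext fun s => hz'T s.1 s.2.1
    rw [e]
    exact hind
  · intro t ht
    have g0 := hz'i 0
    have g1 := hz'i 1
    have g2 := hz'i 2
    rw [← hMM] at h0 h1 h2
    rcases plane_cases ht with rfl | rfl | rfl
    · rw [hF0]
      have h3 := map_d0 (aeval z' : MvPolynomial (Sg a b) k →ₐ[k] E).toRingHom M
        (X (.inr (j, 0))) (X (.inr (j, 1))) (X (.inr (j, 2)))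
      refine h3.trans (Eq.trans ?_ h0)
      change (M.map (aeval z')).d0 (aeval z' (X _)) (aeval z' (X _)) (aeval z' (X _)) = _
      rw [aeval_X, aeval_X, aeval_X, g0, g1, g2]
      rfl
    · rw [hF1]
      have h3 := map_d1 (aeval z' : MvPolynomial (Sg a b) k →ₐ[k] E).toRingHom M
        (X (.inr (j, 0))) (X (.inr (j, 1))) (X (.inr (j, 2)))
      refine h3.trans (Eq.trans ?_ h1)
      change (M.map (aeval z')).d1 (aeval z' (X _)) (aeval z' (X _)) (aeval z' (X _)) = _
      rw [aeval_X, aeval_X, aeval_X, g0, g1, g2]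
      rfl
    · rw [hF2]
      have h3 := map_d2 (aeval z' : MvPolynomial (Sg a b) k →ₐ[k] E).toRingHom M
        (X (.inr (j, 0))) (X (.inr (j, 1))) (X (.inr (j, 2)))
      refine h3.trans (Eq.trans ?_ h2)
      change (M.map (aeval z')).d2 (aeval z' (X _)) (aeval z' (X _)) (aeval z' (X _)) = _
      rw [aeval_X, aeval_X, aeval_X, g0, g1, g2]
      rfl

/-- exponents of the monomials in two variables -/
noncomputable def ex (i j : ℕ) : Fin 2 →₀ ℕ := Finsupp.single 0 i + Finsupp.single 1 j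

theorem ex_zero (i j : ℕ) : ex i j 0 = i := by simp [ex]

theorem ex_one (i j : ℕ) : ex i j 1 = j := by simp [ex]

theorem ex_inj {i j i' j' : ℕ} : ex i j = ex i' j' ↔ i = i' ∧ j = j' := by
  constructor
  · intro h
    have h0 := DFunLike.congr_fun h 0
    have h1 := DFunLike.congr_fun h 1
    rw [ex_zero, ex_zero] at h0
    rw [ex_one, ex_one] at h1
    exact ⟨h0, h1⟩
  · rintro ⟨rfl, rfl⟩
    rfl

theorem mon {R : Type} [CommRing R] (i j : ℕ) (a : R) :
    monomial (ex i j) a = C a * X 0 ^ i * X 1 ^ j := by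
  rw [C_mul_X_pow_eq_monomial, X_pow_eq_monomial, monomial_mul, mul_one, ex]

theorem co_aff {R : Type} [CommRing R] (c : Cub R) (α : Fin 10) :
    ∃ m, coeff m c.aff = c.co α := by
  have h : c.aff = monomial (ex 0 0) c.c00 + monomial (ex 1 0) c.c10 +
      monomial (ex 0 1) c.c01 + monomial (ex 2 0) c.c20 + monomial (ex 1 1) c.c11 +
      monomial (ex 0 2) c.c02 + monomial (ex 3 0) c.c30 + monomial (ex 2 1) c.c21 +
      monomial (ex 1 2) c.c12 + monomial (ex 0 3) c.c03 := by
    simp only [Cub.aff, Cub.ev, Cub.map, mon]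
    ring
  rw [h]
  fin_cases α
  · exact ⟨ex 0 0, by simp [coeff_monomial, ex_inj, Cub.co]⟩
  · exact ⟨ex 1 0, by simp [coeff_monomial, ex_inj, Cub.co]⟩
  · exact ⟨ex 0 1, by simp [coeff_monomial, ex_inj, Cub.co]⟩
  · exact ⟨ex 2 0, by simp [coeff_monomial, ex_inj, Cub.co]⟩
  · exact ⟨ex 1 1, by simp [coeff_monomial, ex_inj, Cub.co]⟩
  · exact ⟨ex 0 2, by simp [coeff_monomial, ex_inj, Cub.co]⟩
  · exact ⟨ex 3 0, by simp [coeff_monomial, ex_inj, Cub.co]⟩
  · exact ⟨ex 2 1, by simp [coeff_monomial, ex_inj, Cub.co]⟩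
  · exact ⟨ex 1 2, by simp [coeff_monomial, ex_inj, Cub.co]⟩
  · exact ⟨ex 0 3, by simp [coeff_monomial, ex_inj, Cub.co]⟩

theorem sing {a b : ℕ} {k : Type} [Field k] [IsAlgClosed k]
    (F : MvPolynomial (Sg a b) k) (hF : MHom F) (hsmo : Smo F k) (j : Fin b)
    (M : Cub (MvPolynomial (Sg a b) k))
    (hsupp : ∀ α, M.co α ∈ supported k {s : Sg a b | bl s ≠ .inr j})
    (hFM : F = M.ev (X (.inr (j, 0))) (X (.inr (j, 1))) (X (.inr (j, 2))))
    (hF0 : pderiv (.inr (j, 0)) F = M.d0 (X (.inr (j, 0))) (X (.inr (j, 1))) (X (.inr (j, 2))))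
    (hF1 : pderiv (.inr (j, 1)) F = M.d1 (X (.inr (j, 0))) (X (.inr (j, 1))) (X (.inr (j, 2))))
    (hF2 : pderiv (.inr (j, 2)) F = M.d2 (X (.inr (j, 0))) (X (.inr (j, 1))) (X (.inr (j, 2))))
    (h : MvPolynomial (Oc a b j) k) (g : Fin 10 → MvPolynomial (Oc a b j) k)
    (hg : ∀ α, dO k j (M.co α) = h * g α) (w0 : Oc a b j → k) (hw0 : eval w0 h = 0) : False := by
  classical
  obtain ⟨Y, hY, hcY⟩ := cubic_root (⟨eval w0 (g 0), eval w0 (g 1), eval w0 (g 2), eval w0 (g 3),
    eval w0 (g 4), eval w0 (g 5), eval w0 (g 6), eval w0 (g 7), eval w0 (g 8), eval w0 (g 9)⟩ :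
    Cub k)
  let w : Sg a b → k := fun s => if hs : bl s ≠ .inr j ∧ s ≠ o0 (bl s) then w0 ⟨s, hs⟩
    else if bl s = .inr j then Y (pl s) else 1
  have hwj : ∀ i : Fin 3, w (.inr (j, i)) = Y i := by
    intro i
    have h1 : ¬ (bl (.inr (j, i) : Sg a b) ≠ .inr j ∧
      (.inr (j, i) : Sg a b) ≠ o0 (bl (.inr (j, i) : Sg a b))) := fun h => h.1 rfl
    simp only [w]
    rw [dif_neg h1]
    exact if_pos rfl
  have hw1 : ∀ s : Sg a b, bl s ≠ .inr j → s = o0 (bl s) → w s = 1 := by
    intro s h1 h2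
    simp only [w]
    rw [dif_neg (fun h => h.2 h2), if_neg h1]
  have hsup : ∀ {P : MvPolynomial (Sg a b) k}, P ∈ supported k {s : Sg a b | bl s ≠ .inr j} →
      aeval w P = eval w0 (dO k j P) := by
    intro P hP
    have h1 := supp_eq (aeval w : MvPolynomial (Sg a b) k →ₐ[k] k)
      ((aeval w0 : MvPolynomial (Oc a b j) k →ₐ[k] k).comp (dO k j)) (by
        intro s hs
        have hs' : bl s ≠ .inr j := hs
        change aeval w (X s) = aeval w0 (dO k j (X s))
        rw [aeval_X, dO_X]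
        by_cases h2 : s ≠ o0 (bl s)
        · rw [dif_pos ⟨hs', h2⟩, aeval_X]
          exact dif_pos (⟨hs', h2⟩ : bl s ≠ .inr j ∧ s ≠ o0 (bl s))
        · rw [dif_neg (fun h3 => h2 h3.2), map_one]
          exact hw1 s hs' (not_not.1 h2)) hP
    rw [h1]
    change aeval w0 _ = _
    rw [aeval_eq_eval]
    rfl
  have hco : ∀ α, aeval w (M.co α) = 0 := by
    intro α
    rw [hsup (hsupp α), hg, map_mul, hw0, zero_mul]
  have m0 : aeval w M.c00 = 0 := hco 0
  have m1 : aeval w M.c10 = 0 := hco 1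
  have m2 : aeval w M.c01 = 0 := hco 2
  have m3 : aeval w M.c20 = 0 := hco 3
  have m4 : aeval w M.c11 = 0 := hco 4
  have m5 : aeval w M.c02 = 0 := hco 5
  have m6 : aeval w M.c30 = 0 := hco 6
  have m7 : aeval w M.c21 = 0 := hco 7
  have m8 : aeval w M.c12 = 0 := hco 8
  have m9 : aeval w M.c03 = 0 := hco 9
  have hwF : aeval w F = 0 := by
    rw [hFM]
    simp only [Cub.ev, map_add, map_mul, map_pow, m0, m1, m2, m3, m4, m5, m6, m7, m8, m9]
    ring
  have hO : ∀ s : Sg a b, bl s ≠ .inr j → s ≠ o0 (bl s) → aeval w (pderiv s F) = 0 := by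
    intro s h1 h2
    have hX : ∀ i, pderiv s (X (.inr (j, i)) : MvPolynomial (Sg a b) k) = 0 := by
      intro i
      refine pderiv_X_of_ne ?_
      rintro rfl
      exact h1 rfl
    have hval : ∀ α, aeval w (pderiv s (M.co α)) =
        eval w0 (pderiv (⟨s, h1, h2⟩ : Oc a b j) h) * eval w0 (g α) := by
      intro α
      rw [hsup (pderiv_supp (hsupp α) s)]
      have h3 := dO_pderiv k j (⟨s, h1, h2⟩ : Oc a b j) (M.co α)
      rw [← h3, hg, Derivation.leibniz, smul_eq_mul, smul_eq_mul, map_add, map_mul, map_mul, hw0]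
      ring
    have n0 := hval 0
    have n1 := hval 1
    have n2 := hval 2
    have n3 := hval 3
    have n4 := hval 4
    have n5 := hval 5
    have n6 := hval 6
    have n7 := hval 7
    have n8 := hval 8
    have n9 := hval 9
    change aeval w (pderiv s M.c00) = _ at n0
    change aeval w (pderiv s M.c10) = _ at n1
    change aeval w (pderiv s M.c01) = _ at n2
    change aeval w (pderiv s M.c20) = _ at n3
    change aeval w (pderiv s M.c11) = _ at n4
    change aeval w (pderiv s M.c02) = _ at n5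
    change aeval w (pderiv s M.c30) = _ at n6
    change aeval w (pderiv s M.c21) = _ at n7
    change aeval w (pderiv s M.c12) = _ at n8
    change aeval w (pderiv s M.c03) = _ at n9
    rw [hFM, pderiv_ev s M (hX 0) (hX 1) (hX 2)]
    simp only [Cub.ev, Cub.map, map_add, map_mul, map_pow, aeval_X, hwj, n0, n1, n2, n3, n4, n5,
      n6, n7, n8, n9]
    simp only [Cub.ev] at hcY
    linear_combination eval w0 (pderiv (⟨s, h1, h2⟩ : Oc a b j) h) * hcY
  obtain ⟨s, hs⟩ := hsmo w (by
    intro β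
    by_cases hβ : β = .inr j
    · obtain ⟨i, hi⟩ := hY
      exact ⟨.inr (j, i), hβ.symm, by rw [hwj]; exact hi⟩
    · refine ⟨o0 β, Mh.bl_o0 β, ?_⟩
      rw [hw1 (o0 β) (by rw [Mh.bl_o0]; exact hβ) (by rw [Mh.bl_o0])]
      exact one_ne_zero)
  apply hs
  by_cases h1 : bl s = .inr j
  · rcases plane_cases h1 with rfl | rfl | rfl
    · rw [hF0]
      simp only [Cub.d0, map_add, map_mul, map_pow, m0, m1, m2, m3, m4, m5, m6, m7, m8, m9]
      ring
    · rw [hF1]
      simp only [Cub.d1, map_add, map_mul, map_pow, m0, m1, m2, m3, m4, m5, m6, m7, m8, m9]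
      ring
    · rw [hF2]
      simp only [Cub.d2, map_add, map_mul, map_pow, m0, m1, m2, m3, m4, m5, m6, m7, m8, m9]
      ring
  · by_cases h2 : s = o0 (bl s)
    · have h3 := Gs.euler hF w (bl s)
      rw [hwF, mul_zero, Finset.sum_eq_single s] at h3
      · rwa [hw1 s h1 h2, one_mul] at h3
      · intro t ht hts
        have ht' : bl t = bl s := (Finset.mem_filter.1 ht).2
        rw [hO t (by rw [ht']; exact h1) (by
          rw [ht']
          intro h4
          exact hts (h4.trans h2.symm)), mul_zero]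
      · intro h4
        exact absurd (by rw [Finset.mem_filter]; exact ⟨Finset.mem_univ s, rfl⟩) h4
    · exact hO s h1 h2

theorem unit_of_map {σ R Λ : Type} [CommRing R] [Field Λ] (ι : R →+* Λ)
    (hι : Function.Injective ι) {P : MvPolynomial σ R} (h : IsUnit (MvPolynomial.map ι P)) :
    ∃ r : R, r ≠ 0 ∧ P = C r := by
  classical
  obtain ⟨c, hc, h1⟩ := isUnit_iff_eq_C_of_isReduced.1 h
  refine ⟨coeff 0 P, ?_, ?_⟩
  · intro h0
    have h2 := congrArg (coeff 0) h1
    rw [coeff_map, h0, map_zero, coeff_C, if_pos rfl] at h2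
    exact hc.ne_zero h2.symm
  · ext m
    rw [coeff_C]
    by_cases hm : 0 = m
    · rw [if_pos hm, hm]
    · rw [if_neg hm]
      have h2 := congrArg (coeff m) h1
      rw [coeff_map, coeff_C, if_neg hm] at h2
      exact hι (by rw [h2, map_zero])

theorem aux {a b N : ℕ} {k : Type} [Field k] [IsAlgClosed k] (e : Af a b ≃ Fin N)
    (F : MvPolynomial (Sg a b) k) (hF : MHom F) (hsmo : Smo F k) (j : Fin b)
    (M : Cub (MvPolynomial (Sg a b) k))
    (hsupp : ∀ α, M.co α ∈ supported k {s : Sg a b | bl s ≠ .inr j})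
    (hFM : F = M.ev (X (.inr (j, 0))) (X (.inr (j, 1))) (X (.inr (j, 2))))
    (hF0 : pderiv (.inr (j, 0)) F = M.d0 (X (.inr (j, 0))) (X (.inr (j, 1))) (X (.inr (j, 2))))
    (hF1 : pderiv (.inr (j, 1)) F = M.d1 (X (.inr (j, 0))) (X (.inr (j, 1))) (X (.inr (j, 2))))
    (hF2 : pderiv (.inr (j, 2)) F = M.d2 (X (.inr (j, 0))) (X (.inr (j, 1))) (X (.inr (j, 2))))
    {Λ : Type} [Field Λ] (ι : MvPolynomial (Oc a b j) k →+* Λ) (hι : Function.Injective ι)
    (G H : MvPolynomial (Fin N) k) (hGH : deh e F = G * H)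
    (hu : IsUnit (MvPolynomial.map ι (psi k j e H))) : IsUnit H := by
  obtain ⟨h, -, hh⟩ := unit_of_map ι hι hu
  by_cases hhu : IsUnit h
  · rw [← theta_psi k j e H, hh]
    exact (hhu.map C).map (theta k j e)
  · exfalso
    obtain ⟨w0, hw0⟩ := exists_zero h hhu
    have h1 := psi_deh k j e F M hsupp hFM
    rw [hGH, map_mul, hh] at h1
    have h2 : ∀ α, ∃ g, dO k j (M.co α) = h * g := by
      intro α
      obtain ⟨m, hm⟩ := co_aff (M.map (dO k j)) α
      have h3 : C h ∣ (M.map (dO k j)).aff := ⟨psi k j e G, by rw [← h1, mul_comm]⟩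
      obtain ⟨g, hg⟩ := (C_dvd_iff_dvd_coeff h _).1 h3 m
      refine ⟨g, ?_⟩
      rw [← hg, hm]
      fin_cases α <;> rfl
    choose g hg using h2
    exact sing F hF hsmo j M hsupp hFM hF0 hF1 hF2 h g hg w0 hw0

theorem irp : StmIRP := by
  classical
  intro a b N k _ _ _ e F hF hsmo hb
  obtain ⟨j⟩ : Nonempty (Fin b) := ⟨⟨0, Nat.pos_of_ne_zero hb⟩⟩
  obtain ⟨M, hsupp, hdeg, hFM, hF0, hF1, hF2⟩ := Dec.dec a b k F hF j
  let ι : MvPolynomial (Oc a b j) k →+*
      AlgebraicClosure (FractionRing (MvPolynomial (Oc a b j) k)) :=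
    algebraMap (MvPolynomial (Oc a b j) k)
      (AlgebraicClosure (FractionRing (MvPolynomial (Oc a b j) k)))
  have hι : Function.Injective ι := by
    have h1 : ι = (algebraMap (FractionRing (MvPolynomial (Oc a b j) k))
        (AlgebraicClosure (FractionRing (MvPolynomial (Oc a b j) k)))).comp
          (algebraMap (MvPolynomial (Oc a b j) k)
            (FractionRing (MvPolynomial (Oc a b j) k))) :=
      IsScalarTower.algebraMap_eq _ _ _
    rw [h1]
    exact (algebraMap (FractionRing (MvPolynomial (Oc a b j) k)) _).injective.comp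
      (IsFractionRing.injective _ _)
  let ιa : MvPolynomial (Oc a b j) k →ₐ[k]
      AlgebraicClosure (FractionRing (MvPolynomial (Oc a b j) k)) :=
    IsScalarTower.toAlgHom k (MvPolynomial (Oc a b j) k) _
  let z : Sg a b → AlgebraicClosure (FractionRing (MvPolynomial (Oc a b j) k)) := fun s =>
    ι (dO k j (X s))
  have hz : ∀ P, aeval z P = ι (dO k j P) := by
    intro P
    have h1 : (aeval z : MvPolynomial (Sg a b) k →ₐ[k] _) = ιa.comp (dO k j) := by
      apply MvPolynomial.algHom_ext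
      intro s
      rw [aeval_X]
      rfl
    rw [h1]
    rfl
  have hz0 : ∀ β, z (o0 β) = 1 := by
    intro β
    change ι (dO k j (X (o0 β))) = 1
    rw [dO_X, dif_neg (fun h => h.2 (by rw [Mh.bl_o0])), map_one]
  have hind : AlgebraicIndependent k (fun s : Oc a b j => z s.1) := by
    have h1 := (MvPolynomial.algebraicIndependent_X (Oc a b j) k).map' (f := ιa) hι
    have h2 : (fun s : Oc a b j => z s.1) = ιa ∘ X := by
      funext s
      change ι (dO k j (X s.1)) = ι (X s)
      rw [dO_X, dif_pos s.2]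
    rw [h2]
    exact h1
  have hsmΛ := Gs.ns a b k F hsmo (AlgebraicClosure (FractionRing (MvPolynomial (Oc a b j) k)))
  have hcE := smo_gen F hF hsmΛ j M hsupp hF0 hF1 hF2 z hz0 hind
  have hch : CharZero (AlgebraicClosure (FractionRing (MvPolynomial (Oc a b j) k))) :=
    charZero_of_injective_algebraMap (algebraMap k _).injective
  obtain ⟨hirr, -⟩ := Sm.sm _ _ hcE
  have haff : (M.map (aeval z)).aff = MvPolynomial.map ι (psi k j e (deh e F)) := by
    rw [psi_deh k j e F M hsupp hFM, map_aff]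
    congr 1
    exact map_congr (aeval z) (fun P => ι (dO k j P)) M fun α => hz _
  rw [haff] at hirr
  refine ⟨fun hu => hirr.not_isUnit ?_, fun {G H} hGH => ?_⟩
  · exact (hu.map (psi k j e)).map (MvPolynomial.map ι)
  · have h1 := hirr
    rw [hGH, map_mul, map_mul] at h1
    rcases h1.isUnit_or_isUnit rfl with h | h
    · exact Or.inl (aux e F hF hsmo j M hsupp hFM hF0 hF1 hF2 ι hι H G
        (by rw [hGH, mul_comm]) h)
    · exact Or.inr (aux e F hF hsmo j M hsupp hFM hF0 hF1 hF2 ι hι G H hGH h)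

end Pool.Agent.Y200.CY.Irp
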