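import Pool.Agent.Y200.CY.Stm2
import Pool.Agent.Y200.CY.Gs
import Pool.Agent.Y200.CY.Dec
import Pool.Agent.Y200.CY.Dc
import Pool.Agent.Y200.CY.Ker
import Pool.Agent.Y200.CY.Dh
import Pool.Agent.Y200.CY.Mh

/-! The fibres in the products of two lines are double covers of the line (helper290, project CY). -/

set_option autoImplicit false

namespace Pool.Agent.Y200.CY.Lc

open MvPolynomial Pool.Agent.Y200.CB Pool.Agent.Y200.CY
open Pool.Agent.Y200.CY.Mh (aeval_mem aeval_congr bl_o0)

section bq

variable {R S : Type*} [CommRing R] [CommRing S]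

theorem map_ev (f : R →+* S) (M : Bq R) (p q r s : R) :
    f (M.ev p q r s) = (M.map f).ev (f p) (f q) (f r) (f s) := by
  simp [Bq.ev, Bq.map]

theorem map_dp0 (f : R →+* S) (M : Bq R) (p q r s : R) :
    f (M.dp0 p q r s) = (M.map f).dp0 (f p) (f q) (f r) (f s) := by
  have h2 : f 2 = 2 := map_ofNat f 2
  simp [Bq.dp0, Bq.map, h2]

theorem map_dp1 (f : R →+* S) (M : Bq R) (p q r s : R) :
    f (M.dp1 p q r s) = (M.map f).dp1 (f p) (f q) (f r) (f s) := by
  have h2 : f 2 = 2 := map_ofNat f 2
  simp [Bq.dp1, Bq.map, h2]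

theorem map_dq0 (f : R →+* S) (M : Bq R) (p q r s : R) :
    f (M.dq0 p q r s) = (M.map f).dq0 (f p) (f q) (f r) (f s) := by
  have h2 : f 2 = 2 := map_ofNat f 2
  simp [Bq.dq0, Bq.map, h2]

theorem map_dq1 (f : R →+* S) (M : Bq R) (p q r s : R) :
    f (M.dq1 p q r s) = (M.map f).dq1 (f p) (f q) (f r) (f s) := by
  have h2 : f 2 = 2 := map_ofNat f 2
  simp [Bq.dq1, Bq.map, h2]

theorem map_congr {A B : Type*} (f g : A → B) (M : Bq A)
    (h : ∀ α, f (M.co α) = g (M.co α)) : M.map f = M.map g := by
  have h0 : f M.m00 = g M.m00 := h 0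
  have h1 : f M.m01 = g M.m01 := h 1
  have h2 : f M.m02 = g M.m02 := h 2
  have h3 : f M.m10 = g M.m10 := h 3
  have h4 : f M.m11 = g M.m11 := h 4
  have h5 : f M.m12 = g M.m12 := h 5
  have h6 : f M.m20 = g M.m20 := h 6
  have h7 : f M.m21 = g M.m21 := h 7
  have h8 : f M.m22 = g M.m22 := h 8
  simp only [Bq.map, h0, h1, h2, h3, h4, h5, h6, h7, h8]

end bq

/-- the coordinate in the line -/
def ln {a b : ℕ} : Sg a b → Fin 2
  | .inl t => t.2
  | .inr _ => 0

theorem line_cases {a b : ℕ} {i : Fin a} {t : Sg a b} (h : bl t = .inl i) :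
    t = .inl (i, 0) ∨ t = .inl (i, 1) := by
  rcases t with ⟨j', l⟩ | t
  · have : j' = i := by simpa [bl] using h
    subst this
    fin_cases l
    · exact Or.inl rfl
    · exact Or.inr rfl
  · simp [bl] at h

theorem lc : StmLC := by
  classical
  intro a b N Ω K _ _ _ _ F hF hsmo e x hx i i' p s hii hp hs
  set z : Sg a b → K := hpt e x with hz
  have hz0 : ∀ β, z (o0 β) = 1 := by
    intro β
    rw [hz]
    unfold hpt
    rw [dif_neg]
    rw [bl_o0]
    simp
  have hz1 : ∀ q (h : q ≠ o0 (bl q)), z q = x (e ⟨q, h⟩) := by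
    intro q h
    rw [hz]
    unfold hpt
    rw [dif_pos h]
  have hzF : aeval z F = 0 := by
    rw [hz, ← (Dh.ev a b N Ω K e F x).1]
    exact (hx.zero_iff _).2 dvd_rfl
  have hxp : x (e p) = z (.inl (i, 1)) := by
    rw [hz1 _ (by simp [o0, bl])]
    congr 2
    exact Subtype.ext hp
  have hxs : x (e s) = z (.inl (i', 1)) := by
    rw [hz1 _ (by simp [o0, bl])]
    congr 2
    exact Subtype.ext hs
  set L : IntermediateField Ω K := Lps Ω x (e p) (e s) with hL
  have hLx : ∀ l, l ≠ e p → l ≠ e s → x l ∈ L := fun l h1 h2 =>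
    IntermediateField.subset_adjoin _ _ ⟨l, ⟨h1, h2⟩, rfl⟩
  set T : Set (Sg a b) := {q | bl q ≠ .inl i ∧ bl q ≠ .inl i'} with hT
  have hzT : ∀ q ∈ T, z q ∈ L := by
    intro q hq
    by_cases h : q = o0 (bl q)
    · rw [h, hz0]
      exact one_mem _
    · rw [hz1 q h]
      refine hLx _ ?_ ?_
      · intro h1
        have h2 := congrArg Subtype.val (e.injective h1)
        simp only at h2
        rw [hp] at h2
        exact hq.1 (by rw [h2]; rfl)
      · intro h1
        have h2 := congrArg Subtype.val (e.injective h1)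
        simp only at h2
        rw [hs] at h2
        exact hq.2 (by rw [h2]; rfl)
  obtain ⟨M, hsupp, hFM, hF0, hF1, hF2, hF3⟩ := Dec.dec2 a b Ω F hF i i' hii
  let zL : Sg a b → L := fun q => if h : q ∈ T then ⟨z q, hzT q h⟩ else 0
  have hzL : ∀ q (h : q ∈ T), zL q = ⟨z q, hzT q h⟩ := fun q h => dif_pos h
  let m : Bq L := M.map (aeval zL)
  -- over `K`
  have hmK : m.map (algebraMap L K) = M.map (aeval z) := by
    change (M.map (fun P => algebraMap L K (aeval zL P))) = _
    refine map_congr _ _ M fun α => ?_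
    rw [← aeval_algebraMap_apply (B := K) zL (M.co α)]
    refine aeval_congr (hsupp α) fun q hq => ?_
    change algebraMap L K (zL q) = z q
    rw [hzL q hq]
    rfl
  -- the family of all coordinates but `e s` is independent
  have hAI : AlgebraicIndependent Ω (fun l : {l : Fin N // l ≠ e s} => x l) :=
    Ker.ai Ω K N (deh e F) x hx (e s) (Dh.dh a b N Ω e F hF (hsmo Ω) (e s)).1
  have hps : e p ≠ e s := by
    intro h
    have h2 := congrArg Subtype.val (e.injective h)
    rw [hp, hs] at h2
    simp only [Sum.inl.injEq, Prod.mk.injEq, and_true] at h2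
    exact hii h2
  have htr : Transcendental L (x (e p)) := by
    have h1 := hAI.transcendental_adjoin (s := {l | l.1 ≠ e p}) (i := ⟨e p, hps⟩)
      (by simp)
    have h2 : (fun l : {l : Fin N // l ≠ e s} => x l) '' {l | l.1 ≠ e p} =
        x '' {l | l ≠ e p ∧ l ≠ e s} := by
      ext y
      constructor
      · rintro ⟨l, hl, rfl⟩
        exact ⟨l.1, ⟨hl, l.2⟩, rfl⟩
      · rintro ⟨l, ⟨h1, h2⟩, rfl⟩
        exact ⟨⟨l, h2⟩, h1, rfl⟩
    rw [h2] at h1
    exact IntermediateField.transcendental_adjoin_iff.2 h1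
  refine Dc.dc Ω K L m ?_ (x (e p)) (x (e s)) htr ?_ ?_
  · -- smoothness
    intro p0 p1 q0 q1 hp0 hq0 e0 e1 e2 e3
    let z' : Sg a b → AlgebraicClosure L := fun q => if bl q = .inl i then ![p0, p1] (ln q)
      else if bl q = .inl i' then ![q0, q1] (ln q) else algebraMap L (AlgebraicClosure L) (zL q)
    have hz'T : ∀ q ∈ T, z' q = algebraMap L (AlgebraicClosure L) (zL q) := by
      intro q hq
      change (if bl q = .inl i then _ else _) = _
      rw [if_neg hq.1, if_neg hq.2]
    have hz'i : ∀ l, z' (.inl (i, l)) = ![p0, p1] l := fun l => if_pos rfl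
    have hz'i' : ∀ l, z' (.inl (i', l)) = ![q0, q1] l := by
      intro l
      change (if bl (Sum.inl (i', l) : Sg a b) = .inl i then _ else _) = _
      rw [if_neg (by simpa [bl] using hii.symm)]
      exact if_pos rfl
    have hmM : m.map (algebraMap L (AlgebraicClosure L)) = M.map (aeval z') := by
      change (M.map (fun P => algebraMap L (AlgebraicClosure L) (aeval zL P))) = _
      refine map_congr _ _ M fun α => ?_
      rw [← aeval_algebraMap_apply (B := AlgebraicClosure L) zL (M.co α)]
      refine aeval_congr (hsupp α) fun q hq => ?_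
      rw [hz'T q hq]
      rfl
    have hz'0 : ∀ β : Bl a b, ¬ (β = .inl i ∨ β = .inl i') → z' (o0 β) = 1 := by
      intro β hβ
      push Not at hβ
      have h1 : o0 β ∈ T := by
        rw [hT, Set.mem_ofPred_eq, bl_o0]
        exact hβ
      rw [hz'T _ h1, hzL _ h1]
      have h2 : (⟨z (o0 β), hzT _ h1⟩ : L) = 1 := Subtype.ext (hz0 β)
      rw [h2, map_one]
    refine Gs.gs a b Ω (AlgebraicClosure L) F hF (hsmo _)
      (fun β => β = .inl i ∨ β = .inl i') (.inl i) (Or.inl rfl) z' ?_ hz'0 ?_ ?_
    · intro β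
      by_cases hβ : β = .inl i
      · subst hβ
        rcases hp0 with h | h
        · exact ⟨.inl (i, 0), rfl, by rw [hz'i]; exact h⟩
        · exact ⟨.inl (i, 1), rfl, by rw [hz'i]; exact h⟩
      · by_cases hβ' : β = .inl i'
        · subst hβ'
          rcases hq0 with h | h
          · exact ⟨.inl (i', 0), rfl, by rw [hz'i']; exact h⟩
          · exact ⟨.inl (i', 1), rfl, by rw [hz'i']; exact h⟩
        · refine ⟨o0 β, bl_o0 β, ?_⟩
          rw [hz'0 β (by push Not; exact ⟨hβ, hβ'⟩)]
          exact one_ne_zero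
    · -- independence
      have hmem : ∀ q : {q : Sg a b // ¬ (bl q = .inl i ∨ bl q = .inl i') ∧ q ≠ o0 (bl q)},
          q.1 ∈ T := fun q => by
        have := q.2.1
        push Not at this
        exact this
      have hinK : AlgebraicIndependent Ω
          (fun q : {q : Sg a b // ¬ (bl q = .inl i ∨ bl q = .inl i') ∧ q ≠ o0 (bl q)} => z q) := by
        have h1 := hAI.comp
          (fun q : {q : Sg a b // ¬ (bl q = .inl i ∨ bl q = .inl i') ∧ q ≠ o0 (bl q)} =>
            (⟨e ⟨q.1, q.2.2⟩, fun h => by
              have h2 := congrArg Subtype.val (e.injective h)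
              simp only at h2
              rw [hs] at h2
              exact (hmem q).2 (by rw [h2]; rfl)⟩ : {l : Fin N // l ≠ e s}))
          (fun q q' h => by
            have h2 := congrArg Subtype.val (e.injective (congrArg Subtype.val h))
            exact Subtype.ext h2)
        have h2 : (fun q : {q : Sg a b // ¬ (bl q = .inl i ∨ bl q = .inl i') ∧
            q ≠ o0 (bl q)} => z q) = (fun l : {l : Fin N // l ≠ e s} => x l) ∘
            (fun q : {q : Sg a b // ¬ (bl q = .inl i ∨ bl q = .inl i') ∧ q ≠ o0 (bl q)} =>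
            (⟨e ⟨q.1, q.2.2⟩, fun h => by
              have h2 := congrArg Subtype.val (e.injective h)
              simp only at h2
              rw [hs] at h2
              exact (hmem q).2 (by rw [h2]; rfl)⟩ : {l : Fin N // l ≠ e s})) := by
          funext q
          exact hz1 q.1 q.2.2
        rw [h2]
        exact h1
      have hinL : AlgebraicIndependent Ω
          (fun q : {q : Sg a b // ¬ (bl q = .inl i ∨ bl q = .inl i') ∧ q ≠ o0 (bl q)} =>
            zL q.1) := by
        refine AlgebraicIndependent.of_comp L.val ?_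
        have h3 : L.val ∘ (fun q : {q : Sg a b // ¬ (bl q = .inl i ∨ bl q = .inl i') ∧
            q ≠ o0 (bl q)} => zL q.1) = fun q => z q.1 := by
          funext q
          change ((zL q.1 : L) : K) = z q.1
          rw [hzL q.1 (hmem q)]
        rw [h3]
        exact hinK
      have h3 := hinL.map' (f := IsScalarTower.toAlgHom Ω L (AlgebraicClosure L))
        (algebraMap L (AlgebraicClosure L)).injective
      have h4 : (fun q : {q : Sg a b // ¬ (bl q = .inl i ∨ bl q = .inl i') ∧
          q ≠ o0 (bl q)} => z' q) = (IsScalarTower.toAlgHom Ω L (AlgebraicClosure L)) ∘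
          (fun q : {q : Sg a b // ¬ (bl q = .inl i ∨ bl q = .inl i') ∧ q ≠ o0 (bl q)} =>
            zL q.1) := by
        funext q
        exact hz'T q.1 (hmem q)
      rw [← h4] at h3
      exact h3
    · have g0 := hz'i 0
      have g1 := hz'i 1
      have g2 := hz'i' 0
      have g3 := hz'i' 1
      intro t ht
      rcases ht with ht | ht
      · rcases line_cases ht with rfl | rfl
        · rw [hF0]
          have h3 := map_dp0 (aeval z' : MvPolynomial (Sg a b) Ω →ₐ[Ω] _).toRingHom M
            (X (.inl (i, 0))) (X (.inl (i, 1))) (X (.inl (i', 0))) (X (.inl (i', 1)))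
          rw [hmM] at e0
          refine h3.trans (Eq.trans ?_ e0)
          change (M.map (aeval z')).dp0 (aeval z' (X _)) (aeval z' (X _)) (aeval z' (X _))
            (aeval z' (X _)) = _
          rw [aeval_X, aeval_X, aeval_X, aeval_X, g0, g1, g2, g3]
          rfl
        · rw [hF1]
          have h3 := map_dp1 (aeval z' : MvPolynomial (Sg a b) Ω →ₐ[Ω] _).toRingHom M
            (X (.inl (i, 0))) (X (.inl (i, 1))) (X (.inl (i', 0))) (X (.inl (i', 1)))
          rw [hmM] at e1
          refine h3.trans (Eq.trans ?_ e1)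
          change (M.map (aeval z')).dp1 (aeval z' (X _)) (aeval z' (X _)) (aeval z' (X _))
            (aeval z' (X _)) = _
          rw [aeval_X, aeval_X, aeval_X, aeval_X, g0, g1, g2, g3]
          rfl
      · rcases line_cases ht with rfl | rfl
        · rw [hF2]
          have h3 := map_dq0 (aeval z' : MvPolynomial (Sg a b) Ω →ₐ[Ω] _).toRingHom M
            (X (.inl (i, 0))) (X (.inl (i, 1))) (X (.inl (i', 0))) (X (.inl (i', 1)))
          rw [hmM] at e2
          refine h3.trans (Eq.trans ?_ e2)
          change (M.map (aeval z')).dq0 (aeval z' (X _)) (aeval z' (X _)) (aeval z' (X _))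
            (aeval z' (X _)) = _
          rw [aeval_X, aeval_X, aeval_X, aeval_X, g0, g1, g2, g3]
          rfl
        · rw [hF3]
          have h3 := map_dq1 (aeval z' : MvPolynomial (Sg a b) Ω →ₐ[Ω] _).toRingHom M
            (X (.inl (i, 0))) (X (.inl (i, 1))) (X (.inl (i', 0))) (X (.inl (i', 1)))
          rw [hmM] at e3
          refine h3.trans (Eq.trans ?_ e3)
          change (M.map (aeval z')).dq1 (aeval z' (X _)) (aeval z' (X _)) (aeval z' (X _))
            (aeval z' (X _)) = _
          rw [aeval_X, aeval_X, aeval_X, aeval_X, g0, g1, g2, g3]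
          rfl
  · -- the equation
    rw [hmK, hxp, hxs]
    have h3 := map_ev (aeval z : MvPolynomial (Sg a b) Ω →ₐ[Ω] K).toRingHom M
      (X (.inl (i, 0))) (X (.inl (i, 1))) (X (.inl (i', 0))) (X (.inl (i', 1)))
    rw [← hFM] at h3
    have h4 : (aeval z : MvPolynomial (Sg a b) Ω →ₐ[Ω] K).toRingHom F = 0 := hzF
    rw [h4] at h3
    refine Eq.trans ?_ h3.symm
    change _ = (M.map (aeval z)).ev (aeval z (X _)) (aeval z (X _)) (aeval z (X _))
      (aeval z (X _))
    have g0 : z (.inl (i, 0)) = 1 := hz0 (.inl i)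
    have g2 : z (.inl (i', 0)) = 1 := hz0 (.inl i')
    rw [aeval_X, aeval_X, aeval_X, aeval_X, g0, g2]
  · -- generation
    rw [eq_top_iff]
    intro w _
    have hw : w ∈ IntermediateField.adjoin Ω (Set.range x) := by
      rw [hx.generates]
      trivial
    have hle : IntermediateField.adjoin Ω (Set.range x) ≤
        (IntermediateField.adjoin L {x (e p), x (e s)}).restrictScalars Ω := by
      rw [IntermediateField.adjoin_le_iff]
      rintro _ ⟨l, rfl⟩
      by_cases h1 : l = e p
      · rw [h1]
        exact IntermediateField.subset_adjoin L _ (Or.inl rfl)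
      · by_cases h2 : l = e s
        · rw [h2]
          exact IntermediateField.subset_adjoin L _ (Or.inr rfl)
        · exact (IntermediateField.adjoin L {x (e p), x (e s)}).algebraMap_mem ⟨x l, hLx l h1 h2⟩
    exact hle hw

end Pool.Agent.Y200.CY.Lc
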