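import Pool.Agent.Y200.CY.Stm2
import Pool.Agent.Y200.CY.Gs
import Pool.Agent.Y200.CY.Dec
import Pool.Agent.Y200.CY.Sm
import Pool.Agent.Y200.CY.A
import Pool.Agent.Y200.CY.B
import Pool.Agent.Y200.CY.Ker
import Pool.Agent.Y200.CY.Dh
import Pool.Agent.Y200.CY.Mh

/-! The fibres in the planes are plane cubics (helper455, job CY-PC). -/

set_option autoImplicit false

namespace Pool.Agent.Y200.CY.Pc

open MvPolynomial Pool.Agent.Y200.CB Pool.Agent.Y200

theorem map_flex {R S : Type*} [CommRing R] [CommRing S] (f : R →+* S) (M : Cub R) (u v : R) :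
    f (M.flex u v) = (M.map f).flex (f u) (f v) := by
  have h2 : f 2 = 2 := map_ofNat f 2
  have h3 : f 3 = 3 := map_ofNat f 3
  simp [Cub.flex, Cub.b11, Cub.b12, Cub.b22, Cub.d1, Cub.d2, Cub.map, h2, h3]

theorem aeval_congr' {k A : Type} [Field k] [CommRing A] [Algebra k A] {σ : Type} {T : Set σ}
    {P : MvPolynomial σ k} (hP : P ∈ supported k T) {z z' : σ → A} (hz : ∀ q ∈ T, z q = z' q) :
    aeval z P = aeval z' P := by
  have h : supported k T ≤ AlgHom.equalizer (aeval z) (aeval z') := by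
    refine Algebra.adjoin_le ?_
    rintro _ ⟨q, hq, rfl⟩
    change aeval z (X q) = aeval z' (X q)
    rw [aeval_X, aeval_X]
    exact hz q hq
  exact h hP

section

variable {a b N : ℕ} {Ω K : Type} [Field Ω] [Field K] [Algebra Ω K]

theorem hpt_o0 (e : Af a b ≃ Fin N) (x : Fin N → K) (β : Bl a b) : hpt e x (o0 β) = 1 := by
  unfold hpt
  rw [dif_neg]
  rw [Mh.bl_o0]
  exact fun h => h rfl

theorem hpt_af (e : Af a b ≃ Fin N) (x : Fin N → K) (q : Af a b) : hpt e x q.1 = x (e q) := by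
  unfold hpt
  rw [dif_pos q.2]

theorem o0_cases (q : Sg a b) : (∃ t : Af a b, t.1 = q) ∨ q = o0 (bl q) := by
  by_cases h : q ≠ o0 (bl q)
  · exact Or.inl ⟨⟨q, h⟩, rfl⟩
  · exact Or.inr (not_not.1 h)

/-- the coordinates outside the plane lie in the base field -/
theorem hpt_mem (e : Af a b ≃ Fin N) (x : Fin N → K) {j : Fin b} {p s : Af a b}
    (hp : p.1 = .inr (j, 1)) (hs : s.1 = .inr (j, 2)) (q : Sg a b) (hq : bl q ≠ .inr j) :
    hpt e x q ∈ Lps Ω x (e p) (e s) := by
  rcases o0_cases q with ⟨t, rfl⟩ | h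
  · rw [hpt_af]
    refine IntermediateField.subset_adjoin _ _ ⟨e t, ⟨?_, ?_⟩, rfl⟩
    · intro h
      apply hq
      rw [e.injective h, hp]
      rfl
    · intro h
      apply hq
      rw [e.injective h, hs]
      rfl
  · rw [h, hpt_o0]
    exact one_mem _

/-- the smoothness of the generic fibre -/
theorem smooth {Λ : Type} [Field Λ] [IsAlgClosed Λ] [Algebra Ω Λ] [CharZero Ω]
    {F : MvPolynomial (Sg a b) Ω} (hF : MHom F) (hsmo : Smo F Λ) (j : Fin b)
    {M : Cub (MvPolynomial (Sg a b) Ω)}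
    (hsupp : ∀ α, M.co α ∈ supported Ω {s : Sg a b | bl s ≠ .inr j})
    (hF0 : pderiv (.inr (j, 0)) F = M.d0 (X (.inr (j, 0))) (X (.inr (j, 1))) (X (.inr (j, 2))))
    (hF1 : pderiv (.inr (j, 1)) F = M.d1 (X (.inr (j, 0))) (X (.inr (j, 1))) (X (.inr (j, 2))))
    (hF2 : pderiv (.inr (j, 2)) F = M.d2 (X (.inr (j, 0))) (X (.inr (j, 1))) (X (.inr (j, 2))))
    (z : Sg a b → Λ) (hz0 : ∀ β, z (o0 β) = 1)
    (hind : AlgebraicIndependent Ω (fun s : {s : Sg a b // bl s ≠ .inr j ∧ s ≠ o0 (bl s)} => z s))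
    (E : IntermediateField Ω Λ) (c : Cub E) (hcmap : c.map (algebraMap E Λ) = M.map (aeval z)) :
    c.Smo := by
  classical
  set T : Set (Sg a b) := {s | bl s ≠ .inr j} with hT
  intro p0 q0 r0 h0 h1 h2
  by_contra hne
  have hne' : ∃ i : Fin 3, ![(p0 : Λ), q0, r0] i ≠ 0 := by
    by_contra h
    push Not at h
    exact hne ⟨Subtype.ext (h 0), Subtype.ext (h 1), Subtype.ext (h 2)⟩
  let z' : Sg a b → Λ := fun t => if bl t = .inr j then ![(p0 : Λ), q0, r0] (Mh.pl t) else z t
  have hz'T : ∀ q ∈ T, z' q = z q := fun q hq => if_neg hq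
  have hz'i : ∀ i : Fin 3, z' (.inr (j, i)) = ![(p0 : Λ), q0, r0] i := fun i => if_pos rfl
  have hMM : M.map (aeval z') = M.map (aeval z) :=
    Mh.map_congr _ _ M fun α => Mh.aeval_congr (hsupp α) hz'T
  refine Gs.gs a b Ω Λ F hF hsmo (fun β => β = .inr j) (.inr j) rfl z' ?_ ?_ ?_ ?_
  · intro β
    by_cases hβ : β = .inr j
    · obtain ⟨i, hi⟩ := hne'
      exact ⟨.inr (j, i), hβ.symm, by rw [hz'i]; exact hi⟩
    · refine ⟨o0 β, Mh.bl_o0 β, ?_⟩
      rw [hz'T (o0 β) (by rw [hT, Set.mem_ofPred_eq, Mh.bl_o0]; exact hβ), hz0]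
      exact one_ne_zero
  · intro β hβ
    rw [hz'T (o0 β) (by rw [hT, Set.mem_ofPred_eq, Mh.bl_o0]; exact hβ), hz0]
  · have e : (fun s : {s : Sg a b // ¬ (fun β => β = Sum.inr j) (bl s) ∧ s ≠ o0 (bl s)} =>
        z' s.1) = fun s => z s.1 := funext fun s => hz'T s.1 s.2.1
    rw [e]
    exact hind
  · intro t ht
    have g0 := hz'i 0
    have g1 := hz'i 1
    have g2 := hz'i 2
    rcases Mh.plane_cases ht with rfl | rfl | rfl
    · rw [hF0]
      have h3 := Mh.map_d0 (aeval z' : MvPolynomial (Sg a b) Ω →ₐ[Ω] Λ).toRingHom M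
        (X (.inr (j, 0))) (X (.inr (j, 1))) (X (.inr (j, 2)))
      have h4 := congrArg (algebraMap E Λ) h0
      rw [Mh.map_d0, map_zero, hcmap, ← hMM] at h4
      refine h3.trans (Eq.trans ?_ h4)
      change (M.map (aeval z')).d0 (aeval z' (X _)) (aeval z' (X _)) (aeval z' (X _)) = _
      rw [aeval_X, aeval_X, aeval_X, g0, g1, g2]
      rfl
    · rw [hF1]
      have h3 := Mh.map_d1 (aeval z' : MvPolynomial (Sg a b) Ω →ₐ[Ω] Λ).toRingHom M
        (X (.inr (j, 0))) (X (.inr (j, 1))) (X (.inr (j, 2)))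
      have h4 := congrArg (algebraMap E Λ) h1
      rw [Mh.map_d1, map_zero, hcmap, ← hMM] at h4
      refine h3.trans (Eq.trans ?_ h4)
      change (M.map (aeval z')).d1 (aeval z' (X _)) (aeval z' (X _)) (aeval z' (X _)) = _
      rw [aeval_X, aeval_X, aeval_X, g0, g1, g2]
      rfl
    · rw [hF2]
      have h3 := Mh.map_d2 (aeval z' : MvPolynomial (Sg a b) Ω →ₐ[Ω] Λ).toRingHom M
        (X (.inr (j, 0))) (X (.inr (j, 1))) (X (.inr (j, 2)))
      have h4 := congrArg (algebraMap E Λ) h2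
      rw [Mh.map_d2, map_zero, hcmap, ← hMM] at h4
      refine h3.trans (Eq.trans ?_ h4)
      change (M.map (aeval z')).d2 (aeval z' (X _)) (aeval z' (X _)) (aeval z' (X _)) = _
      rw [aeval_X, aeval_X, aeval_X, g0, g1, g2]
      rfl

end

theorem pc : StmPC := by
  classical
  intro a b N Ω K _ _ _ _ F hF hsmo e x hx j p s hp hs
  obtain ⟨M, hsupp, -, hFM, hF0, hF1, hF2⟩ := Dec.dec a b Ω F hF j
  obtain ⟨hzF', hzd⟩ := Dh.ev a b N Ω K e F x
  have hps : e p ≠ e s := by
    intro h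
    have h1 := congrArg Subtype.val (e.injective h)
    rw [hp, hs] at h1
    simp at h1
  set L := Lps Ω x (e p) (e s) with hL
  set z := hpt e x with hz
  have hz0 : ∀ β, z (o0 β) = 1 := hpt_o0 e x
  have hzu : z (.inr (j, 1)) = x (e p) := by rw [← hp]; exact hpt_af e x p
  have hzv : z (.inr (j, 2)) = x (e s) := by rw [← hs]; exact hpt_af e x s
  have hzw : z (.inr (j, 0)) = 1 := hz0 (.inr j)
  have hzL : ∀ q, bl q ≠ .inr j → z q ∈ L := hpt_mem e x hp hs
  have hzF : aeval z F = 0 := by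
    rw [← hzF']
    exact (hx.zero_iff _).2 dvd_rfl
  -- the point over `L`
  let zL : Sg a b → L := fun q => if h : bl q ≠ .inr j then ⟨z q, hzL q h⟩ else 1
  have hzLq : ∀ q (h : bl q ≠ .inr j), zL q = ⟨z q, hzL q h⟩ := fun q h => dif_pos h
  set c : Cub L := M.map (aeval zL) with hc
  have hcK : ∀ α, algebraMap L K (aeval zL (M.co α)) = aeval z (M.co α) := by
    intro α
    rw [← aeval_algebraMap_apply]
    refine Mh.aeval_congr (hsupp α) fun q hq => ?_
    change algebraMap L K (zL q) = z q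
    rw [hzLq q hq]
    rfl
  have hcmap : c.map (algebraMap L K) = M.map (aeval z) := by
    have h1 : c.map (algebraMap L K) = M.map (fun P => algebraMap L K (aeval zL P)) := rfl
    rw [h1]
    exact Mh.map_congr _ _ M hcK
  have hev : ∀ P : Cub (MvPolynomial (Sg a b) Ω),
      aeval z (P.ev (X (.inr (j, 0))) (X (.inr (j, 1))) (X (.inr (j, 2)))) =
        (P.map (aeval z)).ev 1 (x (e p)) (x (e s)) := by
    intro P
    have h3 := Mh.map_ev (aeval z : MvPolynomial (Sg a b) Ω →ₐ[Ω] K).toRingHom P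
      (X (.inr (j, 0))) (X (.inr (j, 1))) (X (.inr (j, 2)))
    refine h3.trans ?_
    change (P.map (aeval z)).ev (aeval z (X _)) (aeval z (X _)) (aeval z (X _)) = _
    rw [aeval_X, aeval_X, aeval_X, hzw, hzu, hzv]
  have heq : (c.map (algebraMap L K)).ev 1 (x (e p)) (x (e s)) = 0 := by
    rw [hcmap, ← hev, ← hFM]
    exact hzF
  have hd2 : (c.map (algebraMap L K)).d2 1 (x (e p)) (x (e s)) ≠ 0 := by
    have h1 := (Dh.dh a b N Ω e F hF (hsmo Ω) (e s)).2
    have h2 : aeval x (pderiv (e s) (deh e F)) ≠ 0 := fun h => h1 ((hx.zero_iff _).1 h)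
    rw [hzd, Equiv.symm_apply_apply, hs, hF2] at h2
    have h3 := Mh.map_d2 (aeval z : MvPolynomial (Sg a b) Ω →ₐ[Ω] K).toRingHom M
      (X (.inr (j, 0))) (X (.inr (j, 1))) (X (.inr (j, 2)))
    intro h4
    apply h2
    refine h3.trans (Eq.trans ?_ h4)
    change (M.map (aeval z)).d2 (aeval z (X _)) (aeval z (X _)) (aeval z (X _)) = _
    rw [aeval_X, aeval_X, aeval_X, hzw, hzu, hzv, hcmap]
  -- the kernel
  have hker : ∀ P : MvPolynomial (Fin 2) L, aeval ![x (e p), x (e s)] P = 0 → c.aff ∣ P := by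
    intro P hP
    have hm : ∀ l, l ≠ e p → l ≠ e s → x l ∈ L := fun l h1 h2 =>
      IntermediateField.subset_adjoin _ _ ⟨l, ⟨h1, h2⟩, rfl⟩
    have h1 := Ker.ker Ω K N (deh e F) x hx (e p) (e s) hps L rfl hm P hP
    set θ : Fin N → MvPolynomial (Fin 2) L := fun l => if h1 : l = e p then X 0 else
      if h2 : l = e s then X 1 else C ⟨x l, hm l h1 h2⟩ with hθ
    have h2 : aeval θ (deh e F) = c.aff := by
      set w : Sg a b → MvPolynomial (Fin 2) L := fun q => aeval θ (Dh.gg Ω e q) with hw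
      have h3 : aeval θ (deh e F) = aeval w F := by
        rw [Dh.deh_eq, ← AlgHom.comp_apply, comp_aeval]
      have hw0 : w (.inr (j, 0)) = 1 := by
        have h4 : Dh.gg Ω e (.inr (j, 0)) = 1 := dif_neg (fun h => h rfl)
        rw [hw]
        simp only [h4, map_one]
      have hwa : ∀ q : Af a b, w q.1 = θ (e q) := by
        intro q
        have h4 : Dh.gg Ω e q.1 = X (e q) := dif_pos q.2
        rw [hw]
        simp only [h4, aeval_X]
      have hw1 : w (.inr (j, 1)) = X 0 := by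
        rw [← hp, hwa, hθ]
        exact dif_pos rfl
      have hw2 : w (.inr (j, 2)) = X 1 := by
        rw [← hs, hwa]
        exact (dif_neg (Ne.symm hps)).trans (dif_pos rfl)
      have hwq : ∀ q, bl q ≠ .inr j → w q = algebraMap L (MvPolynomial (Fin 2) L) (zL q) := by
        intro q hq
        rw [hzLq q hq]
        rcases o0_cases q with ⟨t, rfl⟩ | h
        · have g1 : e t ≠ e p := by
            intro h
            apply hq
            rw [e.injective h, hp]
            rfl
          have g2 : e t ≠ e s := by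
            intro h
            apply hq
            rw [e.injective h, hs]
            rfl
          rw [hwa, hθ]
          simp only
          rw [dif_neg g1, dif_neg g2, algebraMap_eq]
          congr 1
          exact Subtype.ext (hpt_af e x t).symm
        · have h4 : Dh.gg Ω e q = 1 := dif_neg (fun h' => h' h)
          have h5 : (⟨z q, hzL q hq⟩ : L) = 1 := by
            apply Subtype.ext
            change z q = 1
            rw [h, hz0]
          rw [h5, map_one, hw]
          simp only [h4, map_one]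
      have hwM : M.map (aeval w) = c.map C := by
        have h4 : c.map C = M.map (fun P => algebraMap L (MvPolynomial (Fin 2) L) (aeval zL P)) :=
          rfl
        rw [h4]
        refine Mh.map_congr _ _ M fun α => ?_
        rw [← aeval_algebraMap_apply]
        exact aeval_congr' (hsupp α) hwq
      rw [h3, Cub.aff, ← hwM]
      have h5 := Mh.map_ev (aeval w : MvPolynomial (Sg a b) Ω →ₐ[Ω] MvPolynomial (Fin 2) L).toRingHom M
        (X (.inr (j, 0))) (X (.inr (j, 1))) (X (.inr (j, 2)))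
      rw [hFM]
      refine h5.trans ?_
      change (M.map (aeval w)).ev (aeval w (X _)) (aeval w (X _)) (aeval w (X _)) = _
      rw [aeval_X, aeval_X, aeval_X, hw0, hw1, hw2]
    rw [← h2]
    exact h1
  -- the algebraic closure
  set Λ := AlgebraicClosure K with hΛ
  set zΛ : Sg a b → Λ := fun q => algebraMap K Λ (z q) with hzΛ
  set S : Set Λ := zΛ '' {q | bl q ≠ .inr j} with hS
  have hzS : ∀ q, bl q ≠ .inr j → zΛ q ∈ cl Ω S := fun q hq => subset_cl _ ⟨q, hq, rfl⟩
  have hco : ∀ α, aeval zΛ (M.co α) ∈ cl Ω S := fun α =>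
    Mh.aeval_mem (hsupp α) (cl Ω S).toSubalgebra hzS
  have hchar : CharZero (cl Ω S) :=
    charZero_of_injective_algebraMap (algebraMap Ω (cl Ω S)).injective
  let cE : Cub (cl Ω S) := ⟨⟨aeval zΛ M.c00, hco 0⟩, ⟨aeval zΛ M.c10, hco 1⟩,
    ⟨aeval zΛ M.c01, hco 2⟩, ⟨aeval zΛ M.c20, hco 3⟩, ⟨aeval zΛ M.c11, hco 4⟩,
    ⟨aeval zΛ M.c02, hco 5⟩, ⟨aeval zΛ M.c30, hco 6⟩, ⟨aeval zΛ M.c21, hco 7⟩,
    ⟨aeval zΛ M.c12, hco 8⟩, ⟨aeval zΛ M.c03, hco 9⟩⟩
  have hcEmap : cE.map (algebraMap (cl Ω S) Λ) = M.map (aeval zΛ) := rfl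
  have hΛz : ∀ P : MvPolynomial (Sg a b) Ω, aeval zΛ P = algebraMap K Λ (aeval z P) := fun P =>
    aeval_algebraMap_apply (B := Λ) z P
  -- independence
  have hAI := Ker.ai Ω K N (deh e F) x hx (e s) (Dh.dh a b N Ω e F hF (hsmo Ω) (e s)).1
  have hAIΛ : AlgebraicIndependent Ω (fun l : {l : Fin N // l ≠ e s} =>
      algebraMap K Λ (x l)) := by
    have h1 := hAI.map' (f := IsScalarTower.toAlgHom Ω K Λ) (algebraMap K Λ).injective
    exact h1
  have hind : AlgebraicIndependent Ω (fun q : {q : Sg a b // bl q ≠ .inr j ∧ q ≠ o0 (bl q)} =>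
      zΛ q) := by
    have h1 : ∀ q : {q : Sg a b // bl q ≠ .inr j ∧ q ≠ o0 (bl q)},
        e ⟨q.1, q.2.2⟩ ≠ e s := by
      intro q h
      have h2 := congrArg Subtype.val (e.injective h)
      apply q.2.1
      rw [show q.1 = s.1 from h2, hs]
      rfl
    have h3 := hAIΛ.comp (fun q : {q : Sg a b // bl q ≠ .inr j ∧ q ≠ o0 (bl q)} =>
      (⟨e ⟨q.1, q.2.2⟩, h1 q⟩ : {l : Fin N // l ≠ e s})) (by
        intro q q' h
        have h4 := e.injective (congrArg Subtype.val h)
        exact Subtype.ext (congrArg (fun t : Af a b => t.1) h4))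
    have h4 : (fun q : {q : Sg a b // bl q ≠ .inr j ∧ q ≠ o0 (bl q)} => zΛ q) =
        (fun l : {l : Fin N // l ≠ e s} => algebraMap K Λ (x l)) ∘
        (fun q => (⟨e ⟨q.1, q.2.2⟩, h1 q⟩ : {l : Fin N // l ≠ e s})) := by
      funext q
      change algebraMap K Λ (z q.1) = algebraMap K Λ (x (e ⟨q.1, q.2.2⟩))
      rw [← hpt_af e x ⟨q.1, q.2.2⟩]
    rw [h4]
    exact h3
  have hsm := smooth hF (hsmo Λ) j hsupp hF0 hF1 hF2 zΛ (fun β => by
    rw [hzΛ]
    simp only [hz0, map_one]) hind (cl Ω S) cE hcEmap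
  obtain ⟨hirr, hdeg3⟩ := Sm.sm (cl Ω S) cE hsm
  have hcdeg : c.Deg3 := by
    rintro ⟨g1, g2, g3, g4⟩
    have key : ∀ α, aeval zL (M.co α) = 0 → aeval zΛ (M.co α) = 0 := by
      intro α h
      rw [hΛz, ← hcK, h, map_zero, map_zero]
    exact hdeg3 ⟨Subtype.ext (key 6 g1), Subtype.ext (key 7 g2), Subtype.ext (key 8 g3),
      Subtype.ext (key 9 g4)⟩
  -- the coordinate `u` is transcendental over the base
  have huE : algebraMap K Λ (x (e p)) ∉ cl Ω S := by
    intro hmem
    let I := {l : Fin N // l ≠ e s}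
    let ee : Fin (Fintype.card I) ≃ I := (Fintype.equivFin I).symm
    obtain ⟨D, hD⟩ := exists_der (L := Ω) (K := Λ) (fun i => algebraMap K Λ (x (ee i)))
      (hAIΛ.comp ee ee.injective) (fun i => if (ee i : Fin N) = e p then 1 else 0)
    have hD2 : ∀ l, l ≠ e s → D (algebraMap K Λ (x l)) = if l = e p then 1 else 0 := by
      intro l hl
      have h1 := hD (ee.symm ⟨l, hl⟩)
      simpa using h1
    have h1 : D (algebraMap K Λ (x (e p))) = 0 := by
      refine der_cl D ?_ hmem
      rintro _ ⟨q, hq, rfl⟩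
      rcases o0_cases q with ⟨t, rfl⟩ | h
      · have g1 : e t ≠ e p := by
          intro h
          apply hq
          rw [e.injective h, hp]
          rfl
        have g2 : e t ≠ e s := by
          intro h
          apply hq
          rw [e.injective h, hs]
          rfl
        have h5 : zΛ t.1 = algebraMap K Λ (x (e t)) := by
          rw [← hpt_af e x t]
        rw [h5, hD2 _ g2, if_neg g1]
      · have h5 : zΛ q = 1 := by
          rw [hzΛ]
          simp only
          rw [h, hz0, map_one]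
        rw [h5]
        exact D.map_one_eq_zero
    rw [hD2 _ hps, if_pos rfl] at h1
    exact one_ne_zero h1
  have hMΛ : (M.map (aeval z)).map (algebraMap K Λ) = M.map (aeval zΛ) := by
    have h4 : (M.map (aeval z)).map (algebraMap K Λ) =
      M.map (fun P => algebraMap K Λ (aeval z P)) := rfl
    rw [h4]
    exact Mh.map_congr _ _ M fun α => (hΛz _).symm
  have hflex : (c.map (algebraMap L K)).flex (x (e p)) (x (e s)) ≠ 0 := by
    have hE0 : (cE.map (algebraMap (cl Ω S) Λ)).ev 1 (algebraMap K Λ (x (e p)))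
        (algebraMap K Λ (x (e s))) = 0 := by
      have h1 := congrArg (algebraMap K Λ) heq
      rw [Mh.map_ev, hcmap, hMΛ, map_one, map_zero] at h1
      rw [hcEmap]
      exact h1
    have h2 := (B.stmB A.stmA (cl Ω S) Λ cE hirr hdeg3 _ _ hE0
      (fun u₀ v₀ h _ => huE (by rw [h]; exact u₀.2))).2.2
    intro h3
    apply h2
    have h4 := congrArg (algebraMap K Λ) h3
    rw [map_flex, hcmap, hMΛ, map_zero] at h4
    rw [hcEmap]
    exact h4
  -- generation
  have hgen : IntermediateField.adjoin L {x (e p), x (e s)} = ⊤ := by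
    rw [eq_top_iff]
    intro y _
    have h1 : IntermediateField.adjoin Ω (Set.range x) ≤
        (IntermediateField.adjoin L {x (e p), x (e s)}).restrictScalars Ω := by
      rw [IntermediateField.adjoin_le_iff]
      rintro _ ⟨l, rfl⟩
      change x l ∈ IntermediateField.adjoin L {x (e p), x (e s)}
      by_cases h1 : l = e p
      · rw [h1]
        exact IntermediateField.subset_adjoin _ _ (Or.inl rfl)
      · by_cases h2 : l = e s
        · rw [h2]
          exact IntermediateField.subset_adjoin _ _ (Or.inr rfl)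
        · exact (IntermediateField.adjoin L {x (e p), x (e s)}).algebraMap_mem
            ⟨x l, IntermediateField.subset_adjoin _ _ ⟨l, ⟨h1, h2⟩, rfl⟩⟩
    rw [hx.generates] at h1
    exact h1 (IntermediateField.mem_top (x := y))
  exact ⟨c, x (e p), x (e s), hker, heq, hd2, hflex, hcdeg, hgen⟩

end Pool.Agent.Y200.CY.Pc
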