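import Pool.Agent.Y200.CY.Main3
import Pool.Agent.Y200.CY.Gs
import Pool.Agent.Y200.CY.Lg
import Pool.Agent.Y200.CY.Sym
import Pool.Agent.Y200.CY.Pc
import Pool.Agent.Y200.CY.Lc
import Pool.Agent.Y200.CY.Hc
import Pool.Agent.Y200.CY.Irp
import Pool.Agent.Y200.CY.Irl

/-!
# Smooth Calabi-Yau hypersurfaces in products of lines and planes
-/

set_option autoImplicit false

open MvPolynomial AlgebraicGeometry CategoryTheory

namespace Pool.Agent.Y200.CY

open Pool.Agent.W572 Pool.Agent.W572.G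

section

variable {a b : ℕ}

lemma MHom.map {k E : Type} [Field k] [Field E] {F : MvPolynomial (Sg a b) k} (hF : MHom F)
    (f : k →+* E) : MHom (MvPolynomial.map f F) :=
  fun d hd β => hF d (support_map_subset f F hd) β

/-- Euler's formula: a singular point is a point of the hypersurface -/
lemma smo_of {k : Type} [Field k] [CharZero k] {F : MvPolynomial (Sg a b) k} (hF : MHom F)
    (hab : a + b ≠ 0) (h : ∀ z : Sg a b → AlgebraicClosure k, NZ z → aeval z F = 0 →
      ∃ s, aeval z (pderiv s F) ≠ 0) :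
    Smo (MvPolynomial.map (algebraMap k (AlgebraicClosure k)) F) (AlgebraicClosure k) := by
  intro z hz
  have e : ∀ G : MvPolynomial (Sg a b) k,
      aeval z (MvPolynomial.map (algebraMap k (AlgebraicClosure k)) G) = aeval z G := by
    intro G
    rw [aeval_map_algebraMap]
  have key : ∃ s, aeval z (pderiv s F) ≠ 0 := by
    by_cases h0 : aeval z F = 0
    · exact h z hz h0
    · by_contra hcon
      push Not at hcon
      obtain ⟨β⟩ : Nonempty (Bl a b) := by
        rcases Nat.eq_zero_or_pos a with h1 | h1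
        · exact ⟨.inr ⟨0, by omega⟩⟩
        · exact ⟨.inl ⟨0, h1⟩⟩
      have h1 := Gs.euler hF z β
      rw [Finset.sum_eq_zero (fun s _ => by rw [hcon s, mul_zero])] at h1
      exact mul_ne_zero (Nat.cast_ne_zero.2 (Gs.dg_ne β)) h0 h1.symm
  obtain ⟨s, hs⟩ := key
  exact ⟨s, by rw [pderiv_map, e]; exact hs⟩

lemma deh_map {k E : Type} [Field k] [Field E] {N : ℕ} (e : Af a b ≃ Fin N)
    (F : MvPolynomial (Sg a b) k) (f : k →+* E) :
    deh e (MvPolynomial.map f F) = MvPolynomial.map f (deh e F) := by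
  unfold deh
  induction F using MvPolynomial.induction_on with
  | C c => simp
  | add p q hp hq => simp only [map_add, hp, hq]
  | mul_X p i hp =>
    simp only [map_mul, hp, map_X, aeval_X]
    congr 1
    split_ifs with h
    · rw [map_X]
    · rw [map_one]

end

/-- **Smooth Calabi-Yau hypersurfaces in products of lines and planes**: the points over some
finite extension are dense -/
theorem final_pts (k₀ : Type) [Field k₀] [CharZero k₀] (hk₀ : Y742.GG.FG k₀) {a b N : ℕ} (ha : a ≠ 1)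
    (hab : a + b ≠ 0) (e : Af a b ≃ Fin N) (F : MvPolynomial (Sg a b) k₀) (hF : MHom F)
    (hsm : ∀ z : Sg a b → AlgebraicClosure k₀, NZ z → aeval z F = 0 →
      ∃ s, aeval z (pderiv s F) ≠ 0) : Pts k₀ (deh e F) := by
  classical
  set Ω := AlgebraicClosure k₀ with hΩ
  have hchar : CharZero Ω := charZero_of_injective_algebraMap (algebraMap k₀ Ω).injective
  set F' := MvPolynomial.map (algebraMap k₀ Ω) F with hF'
  have hM : MHom F' := hF.map _
  have hS : Smo F' Ω := smo_of hF hab hsm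
  have hE : ∀ (E : Type) [Field E] [Algebra Ω E], Smo F' E := fun E _ _ => Gs.ns a b Ω F' hS E
  have hirr : Irreducible (deh e F') := by
    by_cases hb : b = 0
    · exact Irl.irl a b N Ω e F' hM hS (by omega)
    · exact Irp.irp a b N Ω e F' hM hS hb
  obtain ⟨K, _, _, x, hx⟩ := Sym.gp Ω N (deh e F') hirr
  -- the fibrations
  let J : Type := {c : Af a b × Af a b // Cell c.1.1 c.2.1}
  have hJ : Finite J := Subtype.finite
  let g := Finite.equivFin J
  have hd : deh e F' = MvPolynomial.map (algebraMap k₀ Ω) (deh e F) := deh_map e F _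
  have hx' : GPt (MvPolynomial.map (algebraMap k₀ Ω) (deh e F)) x := by rw [← hd]; exact hx
  refine pts3 k₀ hk₀ (deh e F) (by rw [← hd]; exact hirr) hx'
    (fun i => Lps Ω x (e (g.symm i).1.1) (e (g.symm i).1.2)) ?_ ?_
  · intro i
    obtain ⟨⟨p, s⟩, hc⟩ := g.symm i
    rcases hc with ⟨j, hp, hs⟩ | ⟨i, i', hi, hp, hs⟩
    · exact Or.inr (Pc.pc a b N Ω K F' hM hE e x hx j p s hp hs)
    · exact Or.inl (Lc.lc a b N Ω K F' hM hE e x hx i i' p s hi hp hs)
  · rw [eq_top_iff, ← Lg.lg Hc.hc Sym.sym Sym.tv a b N Ω K F' hM hE ha e x hx]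
    refine LieSubalgebra.lieSpan_mono ?_
    rintro D ⟨p, s, hc, hD⟩
    refine ⟨g ⟨(p, s), hc⟩, ?_⟩
    rw [Equiv.symm_apply_apply]
    exact hD

theorem final (k₀ : Type) [Field k₀] [CharZero k₀] (hk₀ : Y742.GG.FG k₀) {a b N : ℕ} (ha : a ≠ 1)
    (hab : a + b ≠ 0) (e : Af a b ≃ Fin N) (F : MvPolynomial (Sg a b) k₀) (hF : MHom F)
    (hsm : ∀ z : Sg a b → AlgebraicClosure k₀, NZ z → aeval z F = 0 →
      ∃ s, aeval z (pderiv s F) ≠ 0)
    {X : Scheme.{0}} (sX : X ⟶ Spec (.of k₀))
    (f : (hypersurface (deh e F)).PartialMap X) (hf : IsDominant f.hom)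
    (hfk : f.hom ≫ sX = f.domain.ι ≫ hypersurfaceStr (deh e F)) : PotentiallyDense sX :=
  dens_of_pts k₀ (deh e F) (final_pts k₀ hk₀ ha hab e F hF hsm) sX f hf hfk

end Pool.Agent.Y200.CY
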