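import Pool.Agent.Y200.CY.Stm6
import Pool.Agent.Y200.CY.Final
import Pool.Agent.Y200.CY.Gen

/-! The fibrations of the Calabi-Yau hypersurfaces (helper200, project CY). -/

set_option autoImplicit false

open MvPolynomial

namespace Pool.Agent.Y200.CY.Cyc

/-- fibrations in curves of genus at most one which generate all vector fields -/
def Cells (k K : Type) [Field k] [Field K] [Algebra k K] : Prop :=
  ∃ (J : Type) (_ : Finite J) (L : J → IntermediateField k K),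
    (∀ i, DCL (L i) ∨ CubAt (L i)) ∧
    LieSubalgebra.lieSpan k (Derivation k K K) {D | ∃ i, ∀ a ∈ L i, D a = 0} = ⊤

/-- the case of no line or at least two lines -/
theorem cyc {a b N : ℕ} {k K : Type} [Field k] [CharZero k] [Field K] [Algebra k K] (ha : a ≠ 1)
    (F : MvPolynomial (Sg a b) k) (hM : MHom F)
    (hE : ∀ (E : Type) [Field E] [Algebra k E], Smo F E) (e : Af a b ≃ Fin N) (x : Fin N → K)
    (hx : GPt (deh e F) x) : Cells k K := by
  refine ⟨{c : Af a b × Af a b // Cell c.1.1 c.2.1}, inferInstance,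
    fun c => Lps k x (e c.1.1) (e c.1.2), ?_, ?_⟩
  · rintro ⟨⟨p, s⟩, hc⟩
    rcases hc with ⟨j, hp, hs⟩ | ⟨i, i', hi, hp, hs⟩
    · exact Or.inr (Pc.pc a b N k K F hM hE e x hx j p s hp hs)
    · exact Or.inl (Lc.lc a b N k K F hM hE e x hx i i' p s hi hp hs)
  · rw [eq_top_iff, ← Lg.lg Hc.hc Sym.sym Sym.tv a b N k K F hM hE ha e x hx]
    refine LieSubalgebra.lieSpan_mono ?_
    rintro D ⟨p, s, hc, hD⟩
    exact ⟨⟨(p, s), hc⟩, hD⟩

/-- two fibrations over a line -/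
theorem two {k K : Type} [Field k] [Field K] [Algebra k K]
    {s : Set (Derivation k K K)} (hs : ∀ D ∈ s, ∀ c : K, c • D ∈ s) {t t' : K}
    (ht : ∀ D : Derivation k K K, D t = 0 → D ∈ LieSubalgebra.lieSpan k (Derivation k K K) s)
    (ht' : ∀ D : Derivation k K K, D t' = 0 → D ∈ LieSubalgebra.lieSpan k (Derivation k K K) s)
    (h : ∃ D : Derivation k K K, D t = 0 ∧ D t' ≠ 0) :
    LieSubalgebra.lieSpan k (Derivation k K K) s = ⊤ := by
  obtain ⟨D₀, h0, h1⟩ := h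
  rw [eq_top_iff]
  intro D _
  have h2 : D = (D - (D t' / D₀ t') • D₀) + (D t' / D₀ t') • D₀ := by
    rw [sub_add_cancel]
  rw [h2]
  refine add_mem (ht' _ ?_) (Gen.smul_mem hs (ht _ h0) _)
  rw [Derivation.sub_apply, Derivation.smul_apply, smul_eq_mul, div_mul_cancel₀ _ h1, sub_self]

/-- the case of one line -/
theorem cyc1 (hUPD : StmUPD) (hTT : StmTT) (hLG : StmLG1) {b N : ℕ} {k K : Type} [Field k]
    [CharZero k] [Field K] [Algebra k K] (F : MvPolynomial (Sg 1 b) k) (hM : MHom F)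
    (hE : ∀ (E : Type) [Field E] [Algebra k E], Smo F E) (hb : b ≠ 0)
    (hF : LinearIndependent k (dd (.inl (0, 0)) (.inl (0, 1)) F)) (e : Af 1 b ≃ Fin N)
    (x : Fin N → K) (hx : GPt (deh e F) x) : Cells k K := by
  classical
  obtain ⟨t', h1, h2, h3⟩ := hTT b N k K F hM hE hb hF e x hx
  have hx' := hUPD k K N (deh e F) x hx (e (tl b)) (Dh.dh 1 b N k e F hM (hE k) _).1 t' h1 h2
  obtain ⟨x', hxx⟩ : ∃ x', x' = Function.update x (e (tl b)) t' := ⟨_, rfl⟩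
  rw [← hxx] at hx'
  have ht' : x' (e (tl b)) = t' := by rw [hxx, Function.update_self]
  refine ⟨{c : Af 1 b × Af 1 b // ∃ j : Fin b, c.1.1 = .inr (j, 1) ∧ c.2.1 = .inr (j, 2)} ⊕
    {c : Af 1 b × Af 1 b // ∃ j : Fin b, c.1.1 = .inr (j, 1) ∧ c.2.1 = .inr (j, 2)}, inferInstance,
    Sum.elim (fun c => Lps k x (e c.1.1) (e c.1.2)) (fun c => Lps k x' (e c.1.1) (e c.1.2)), ?_, ?_⟩
  · rintro (⟨⟨p, s⟩, ⟨j, hp, hs⟩⟩ | ⟨⟨p, s⟩, ⟨j, hp, hs⟩⟩)
    · exact Or.inr (Pc.pc 1 b N k K F hM hE e x hx j p s hp hs)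
    · exact Or.inr (Pc.pc 1 b N k K F hM hE e x' hx' j p s hp hs)
  · refine two (t := x (e (tl b))) (t' := t') ?_ (fun D hD => ?_) (fun D hD => ?_) h3
    · rintro D ⟨i, hi⟩ c
      exact ⟨i, fun a ha => by rw [Derivation.smul_apply, hi a ha, smul_zero]⟩
    · refine LieSubalgebra.lieSpan_mono ?_ (hLG b N k K F hM hE e x hx D hD)
      rintro D ⟨j, p, s, hp, hs, hD⟩
      exact ⟨Sum.inl ⟨(p, s), ⟨j, hp, hs⟩⟩, hD⟩
    · refine LieSubalgebra.lieSpan_mono ?_ (hLG b N k K F hM hE e x' hx' D (by rw [ht']; exact hD))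
      rintro D ⟨j, p, s, hp, hs, hD⟩
      exact ⟨Sum.inr ⟨(p, s), ⟨j, hp, hs⟩⟩, hD⟩

end Pool.Agent.Y200.CY.Cyc
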