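import Pool.Agent.Y200.CY.Dl
import Pool.Agent.Y200.CY.Gen
import Pool.Agent.Y200.CY.Ber
import Pool.Agent.Y200.CY.Rel
import Pool.Agent.Y200.CY.Ed
import Pool.Agent.Y200.CY.Qd
import Pool.Agent.Y200.CY.Ct
import Pool.Agent.Y200.CY.Cyc

/-! The fibrations on the linear sections with parameters, version with given fibrations on the
linear sections (helper200, project CY). -/

set_option autoImplicit false

open MvPolynomial

namespace Pool.Agent.Y200.CY.Co2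

theorem co {Ω K : Type} [Field Ω] [CharZero Ω] [Field K] [Algebra Ω K] {ι : Type} [Fintype ι]
    [DecidableEq ι] {n m d : ι → ℕ} {a b : ℕ} {ρ : Bl a b → ι} {ε : ι → ℕ}
    (hab2 : 2 ≤ a + b) (hdε : ∀ β, d (ρ β) * ε (ρ β) = dg β)
    (hsum : ∀ i, ∑ β with ρ β = i, (dg β - 1) = m i) (hm3 : ∀ i, d i = 3 → m i = 2)
    (hmd : ∀ i, m i < n i → d i = 3) {N M : ℕ} (e' : Af a b ≃ Fin N)
    (eI : Hv n m ⊕ Fin N ≃ Fin M) (F' : MvPolynomial (Pc n) Ω) (hM : PHom d F')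
    (g : (i : ι) → Matrix (Fin (m i + 1)) (Fin (m i + 1)) Ω) (hg : ∀ i, (g i).det ≠ 0)
    (x : Fin M → K) (hx : GPt (big e' eI g ρ ε F') x)
    (hdeg : ∀ l, (big e' eI g ρ ε F').degreeOf l ≠ 0)
    (hD2 : ∀ (i : ι) (c : Fin (n i - m i)) (r r' : Fin (m i + 1)),
      pderiv (eI (.inl ⟨i, (c, r)⟩)) (big e' eI g ρ ε F') *
          tg (fun i => (g i).map C) ρ ε (zz Ω e' eI) ⟨i, r'⟩ =
        pderiv (eI (.inl ⟨i, (c, r')⟩)) (big e' eI g ρ ε F') *
          tg (fun i => (g i).map C) ρ ε (zz Ω e' eI) ⟨i, r⟩)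
    (hD3 : ∀ (i : ι) (c : Fin (n i - m i)) (r r' : Fin (m i + 1)), r ≠ r' →
      ∀ u ∈ (big e' eI g ρ ε F').support,
        u (eI (.inl ⟨i, (c, r)⟩)) + u (eI (.inl ⟨i, (c, r')⟩)) ≤ d i)
    (k₁ : IntermediateField Ω K) (hmem : ∀ q, x (eI (.inl q)) ∈ k₁)
    (hk₁ : k₁ = IntermediateField.adjoin Ω (Set.range fun q => x (eI (.inl q))))
    (hE : ∀ (E : Type) [Field E] [Algebra k₁ E], Smo (pb (fun i => (g i).map (algebraMap Ω k₁)) ρ ε
      (cut (fun q => (⟨x (eI (.inl q)), hmem q⟩ : k₁)) (MvPolynomial.map (algebraMap Ω k₁) F'))) E)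
    (hcells : ∀ x' : Fin N → K, GPt (deh e' (pb (fun i => (g i).map (algebraMap Ω k₁)) ρ ε
      (cut (fun q => (⟨x (eI (.inl q)), hmem q⟩ : k₁))
        (MvPolynomial.map (algebraMap Ω k₁) F')))) x' → Cyc.Cells k₁ K) :
    Cyc.Cells Ω K := by
  classical
  have hne : ∀ l, aeval x (pderiv l (big e' eI g ρ ε F')) ≠ 0 := by
    intro l h
    rw [hx.zero_iff] at h
    exact Dh.not_dvd_pderiv (Dh.pderiv_ne (hdeg l)) h
  -- the Calabi-Yau hypersurface over the field of the parameters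
  obtain ⟨F₁, hF₁⟩ : ∃ F₁, F₁ = pb (fun i => (g i).map (algebraMap Ω k₁)) ρ ε
      (cut (fun q => (⟨x (eI (.inl q)), hmem q⟩ : k₁)) (MvPolynomial.map (algebraMap Ω k₁) F')) :=
    ⟨_, rfl⟩
  have hM₁ : MHom F₁ := by
    rw [hF₁]
    exact Ph.ph a b ι m d ρ ε hdε k₁ _ _ (Ber.cph ι n m d k₁ _ _ (hM.map _))
  have hE₁ : ∀ (E : Type) [Field E] [Algebra k₁ E], Smo F₁ E := by
    intro E _ _
    rw [hF₁]
    exact hE E
  obtain ⟨x', hx'⟩ : ∃ x' : Fin N → K, x' = fun j => x (eI (.inr j)) := ⟨_, rfl⟩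
  have hG₁ : GPt (deh e' F₁) x' := by
    have h1 := Rel.rel Ω K (Hv n m) N M eI _ x hx k₁ hmem hk₁
    rw [Dl.big_spec e' eI g ρ ε F' (fun q => (⟨x (eI (.inl q)), hmem q⟩ : k₁)), ← hF₁, ← hx'] at h1
    exact h1
  obtain ⟨J₁, hJ₁, L₁, hL₁, hlg⟩ := hcells x' (by rw [← hF₁]; exact hG₁)
  -- pairs of parameters
  let R : Fin M → Fin M → Prop := fun q q' => ∃ (i : ι) (c : Fin (n i - m i))
    (r r' : Fin (m i + 1)), r ≠ r' ∧ q = eI (.inl ⟨i, (c, r)⟩) ∧ q' = eI (.inl ⟨i, (c, r')⟩)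
  have hratio : ∀ (i : ι) (c : Fin (n i - m i)) (r r' : Fin (m i + 1)), r ≠ r' →
      ∃ D : Derivation k₁ K K, D (aeval x (pderiv (eI (.inl ⟨i, (c, r)⟩)) (big e' eI g ρ ε F')) /
        aeval x (pderiv (eI (.inl ⟨i, (c, r')⟩)) (big e' eI g ρ ε F'))) ≠ 0 := by
    intro i c r r' hr
    have h3 : d i = 3 := hmd i (by have := c.isLt; omega)
    obtain ⟨hε1, j, hj⟩ := Dl.uniq hdε hsum h3 (hm3 i h3)
    have hval : ∀ r'' : Fin (m i + 1), aeval x (tg (fun i => (g i).map C) ρ ε (zz Ω e' eI)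
        (⟨i, r''⟩ : Pc m)) = ∑ t : Fin 3, algebraMap k₁ K
          (algebraMap Ω k₁ (g i r'' (Fin.cast (by rw [hm3 i h3]) t))) *
            hpt e' x' (.inr (j, t)) := by
      intro r''
      have h4 := Tr.tg_map (aeval x : MvPolynomial (Fin M) Ω →ₐ[Ω] K).toRingHom ρ ε
        (zz Ω e' eI) (fun i => (g i).map C) (⟨i, r''⟩ : Pc m)
      refine h4.trans ?_
      rw [Dl.tg_three (hm3 i h3) hε1 hj]
      refine Finset.sum_congr rfl fun t _ => ?_
      congr 1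
      · simp only [AlgHom.toRingHom_eq_coe, Matrix.map_apply, RingHom.coe_coe, algHom_C]
        rfl
      · unfold zz hpt
        split_ifs with h5
        · show aeval x _ = _
          rw [aeval_X, hx']
        · show aeval x _ = _
          rw [map_one]
    have hrow := Dl.rows ((g i).map (algebraMap Ω k₁)) (by
      rw [← RingHom.mapMatrix_apply, ← RingHom.map_det]
      exact fun h => hg i ((algebraMap Ω k₁).injective (h.trans (map_zero _).symm))) hr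
    have hcast : ∀ r'' : Fin (m i + 1), ∃ t : Fin 3,
        r'' = Fin.cast (by rw [hm3 i h3]) t := fun r'' =>
      ⟨Fin.cast (by rw [hm3 i h3]) r'', rfl⟩
    obtain ⟨D, hD⟩ := Rel.rat a b N k₁ K F₁ hM₁ hE₁ hab2 e' x' hG₁ j
      (fun t => algebraMap Ω k₁ (g i r (Fin.cast (by rw [hm3 i h3]) t)))
      (fun t => algebraMap Ω k₁ (g i r' (Fin.cast (by rw [hm3 i h3]) t)))
      (fun h => hrow.1 (by
        funext r''
        obtain ⟨t, ht⟩ := hcast r''
        rw [ht]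
        exact congrFun h t))
      (fun c' h => hrow.2 c' (by
        funext r''
        obtain ⟨t, ht⟩ := hcast r''
        rw [ht]
        exact congrFun h t))
    refine ⟨D, fun h0 => hD ?_⟩
    rw [← hval, ← hval]
    have h6 := congrArg (aeval x) (hD2 i c r r')
    rw [map_mul, map_mul] at h6
    have h7 : aeval x (tg (fun i => (g i).map C) ρ ε (zz Ω e' eI) (⟨i, r⟩ : Pc m)) /
        aeval x (tg (fun i => (g i).map C) ρ ε (zz Ω e' eI) (⟨i, r'⟩ : Pc m)) =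
        aeval x (pderiv (eI (.inl ⟨i, (c, r)⟩)) (big e' eI g ρ ε F')) /
          aeval x (pderiv (eI (.inl ⟨i, (c, r')⟩)) (big e' eI g ρ ε F')) := by
      have h8 : aeval x (tg (fun i => (g i).map C) ρ ε (zz Ω e' eI) (⟨i, r'⟩ : Pc m)) ≠ 0 := by
        intro h9
        apply hD
        rw [← hval, ← hval, h9, div_zero, map_zero]
      rw [div_eq_div_iff h8 (hne _)]
      linear_combination -h6
    rw [h7]
    exact h0
  have hgen := Gen.genR Ω K M _ x hx hne (Set.range fun q => eI (.inl q)) k₁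
    (by rw [hk₁, ← Set.range_comp]; rfl) R
    (Set.range L₁)
    (by
      rw [eq_top_iff, ← hlg]
      refine LieSubalgebra.lieSpan_mono ?_
      rintro D ⟨i, hD⟩
      exact ⟨_, ⟨i, rfl⟩, hD⟩)
    (by
      rintro _ ⟨⟨i, c, r⟩, rfl⟩
      have h3 : d i = 3 := hmd i (by have := c.isLt; omega)
      have : Nontrivial (Fin (m i + 1)) := Fin.nontrivial_iff_two_le.2 (by rw [hm3 i h3]; norm_num)
      obtain ⟨r', hr'⟩ := exists_ne r
      refine ⟨_, ⟨⟨i, c, r'⟩, rfl⟩, ⟨i, c, r, r', hr'.symm, rfl, rfl⟩, ?_,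
        hratio i c r r' hr'.symm⟩
      intro h
      have h4 := eI.injective h
      rw [Sum.inl.injEq, Sigma.mk.injEq] at h4
      have h5 := eq_of_heq h4.2
      rw [Prod.mk.injEq] at h5
      exact hr' h5.2.symm)
  -- the fibrations of pairs of parameters
  have hed : ∀ q q' : Fin M, R q q' → ∃ L : IntermediateField Ω K,
      (∀ D : Derivation Ω K K, (∀ l, l ≠ q → l ≠ q' → D (x l) = 0) → ∀ a ∈ L, D a = 0) ∧
      (DCL L ∨ CubAt L) := by
    rintro q q' ⟨i, c, r, r', hr, hq, hq'⟩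
    have h3 : d i = 3 := hmd i (by have := c.isLt; omega)
    refine Ed.ed Qd.qd (Ct.ct Qd.qd) Ω K M _ x hx q q' ?_ (hdeg _) (hdeg _)
      (Or.inr (Or.inl fun u hu => ?_))
    · rw [hq, hq']
      intro h
      have h4 := eI.injective h
      rw [Sum.inl.injEq, Sigma.mk.injEq] at h4
      have h5 := eq_of_heq h4.2
      rw [Prod.mk.injEq] at h5
      exact hr h5.2
    · rw [hq, hq', ← h3]
      exact hD3 i c r r' hr u hu
  choose L hL1 hL2 using hed
  refine ⟨J₁ ⊕ {c : Fin M × Fin M // R c.1 c.2}, inferInstance,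
    Sum.elim (fun i => (L₁ i).restrictScalars Ω) (fun c => L c.1.1 c.1.2 c.2), ?_, ?_⟩
  · rintro (i | ⟨⟨q, q'⟩, hq⟩)
    · exact hL₁ i
    · exact hL2 q q' hq
  · rw [eq_top_iff, ← hgen]
    refine LieSubalgebra.lieSpan_mono ?_
    rintro D (⟨E, ⟨i, rfl⟩, hD⟩ | ⟨q, hq, q', hq', hR, hqq, hD⟩)
    · exact ⟨Sum.inl i, hD⟩
    · exact ⟨Sum.inr ⟨(q, q'), hR⟩, hL1 q q' hR D hD⟩

end Pool.Agent.Y200.CY.Co2
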