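import Pool.Agent.Y200.CB.Der

/-! Multihomogeneous polynomials on products of lines and planes; plane cubics. -/

set_option autoImplicit false

namespace Pool.Agent.Y200.CY

open MvPolynomial

/-- the homogeneous coordinates of a product of `a` lines and `b` planes -/
abbrev Sg (a b : ℕ) := (Fin a × Fin 2) ⊕ (Fin b × Fin 3)

/-- the factors -/
abbrev Bl (a b : ℕ) := Fin a ⊕ Fin b

section

variable {a b : ℕ}

/-- the factor of a coordinate -/
def bl : Sg a b → Bl a b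
  | .inl s => .inl s.1
  | .inr s => .inr s.1

/-- the first coordinate of a factor -/
def o0 : Bl a b → Sg a b
  | .inl i => .inl (i, 0)
  | .inr j => .inr (j, 0)

/-- the degree in a factor: two for the lines, three for the planes -/
def dg : Bl a b → ℕ
  | .inl _ => 2
  | .inr _ => 3

/-- polynomials of multidegree `(2, …, 2, 3, …, 3)` -/
def MHom {k : Type*} [CommSemiring k] (F : MvPolynomial (Sg a b) k) : Prop :=
  ∀ d ∈ F.support, ∀ β : Bl a b, ∑ s with bl s = β, d s = dg β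

/-- homogeneous coordinates of a point of the product -/
def NZ {E : Type*} [Zero E] (z : Sg a b → E) : Prop := ∀ β : Bl a b, ∃ s, bl s = β ∧ z s ≠ 0

/-- no singular points over `E` -/
def Smo {k : Type*} [Field k] (F : MvPolynomial (Sg a b) k) (E : Type*) [Field E] [Algebra k E] :
    Prop := ∀ z : Sg a b → E, NZ z → ∃ s, aeval z (pderiv s F) ≠ 0

/-- the pairs of affine coordinates of a plane, or of two lines -/
def Cell (p s : Sg a b) : Prop :=
  (∃ j, p = .inr (j, 1) ∧ s = .inr (j, 2)) ∨ (∃ i i', i ≠ i' ∧ p = .inl (i, 1) ∧ s = .inl (i', 1))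

end

/-- the coefficients of a plane cubic -/
structure Cub (R : Type*) where
  (c00 c10 c01 c20 c11 c02 c30 c21 c12 c03 : R)

namespace Cub

variable {R S : Type*}

/-- change of coefficients -/
def map (f : R → S) (c : Cub R) : Cub S :=
  ⟨f c.c00, f c.c10, f c.c01, f c.c20, f c.c11, f c.c02, f c.c30, f c.c21, f c.c12, f c.c03⟩

/-- the coefficients -/
def co (c : Cub R) : Fin 10 → R :=
  ![c.c00, c.c10, c.c01, c.c20, c.c11, c.c02, c.c30, c.c21, c.c12, c.c03]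

variable [CommRing R] (c : Cub R)

/-- the ternary cubic form -/
def ev (p q r : R) : R :=
  c.c00 * p ^ 3 + (c.c10 * q + c.c01 * r) * p ^ 2 +
    (c.c20 * q ^ 2 + c.c11 * q * r + c.c02 * r ^ 2) * p +
    (c.c30 * q ^ 3 + c.c21 * q ^ 2 * r + c.c12 * q * r ^ 2 + c.c03 * r ^ 3)

/-- the derivative in the first variable -/
def d0 (p q r : R) : R :=
  3 * c.c00 * p ^ 2 + 2 * (c.c10 * q + c.c01 * r) * p +
    (c.c20 * q ^ 2 + c.c11 * q * r + c.c02 * r ^ 2)

/-- the derivative in the second variable -/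
def d1 (p q r : R) : R :=
  c.c10 * p ^ 2 + (2 * c.c20 * q + c.c11 * r) * p +
    (3 * c.c30 * q ^ 2 + 2 * c.c21 * q * r + c.c12 * r ^ 2)

/-- the derivative in the third variable -/
def d2 (p q r : R) : R :=
  c.c01 * p ^ 2 + (c.c11 * q + 2 * c.c02 * r) * p +
    (c.c21 * q ^ 2 + 2 * c.c12 * q * r + 3 * c.c03 * r ^ 2)

/-- quadratic Taylor coefficient at the point `(1, u, v)` -/
def b11 (u v : R) : R := c.c20 + 3 * c.c30 * u + c.c21 * v

/-- quadratic Taylor coefficient at the point `(1, u, v)` -/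
def b12 (u v : R) : R := c.c11 + 2 * c.c21 * u + 2 * c.c12 * v

/-- quadratic Taylor coefficient at the point `(1, u, v)` -/
def b22 (u v : R) : R := c.c02 + c.c12 * u + 3 * c.c03 * v

/-- the point `(1, u, v)` is a flex if this is zero -/
def flex (u v : R) : R :=
  c.d2 1 u v ^ 2 * c.b11 u v - c.d1 1 u v * c.d2 1 u v * c.b12 u v + c.d1 1 u v ^ 2 * c.b22 u v

/-- smooth plane cubics -/
def Smo : Prop := ∀ p q r : R, c.d0 p q r = 0 → c.d1 p q r = 0 → c.d2 p q r = 0 →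
  p = 0 ∧ q = 0 ∧ r = 0

/-- the affine equation has degree three -/
def Deg3 : Prop := ¬ (c.c30 = 0 ∧ c.c21 = 0 ∧ c.c12 = 0 ∧ c.c03 = 0)

/-- the affine equation -/
noncomputable def aff : MvPolynomial (Fin 2) R := (c.map C).ev 1 (X 0) (X 1)

end Cub

/-- the coefficients of a form of bidegree `(2, 2)` -/
structure Bq (R : Type*) where
  (m00 m01 m02 m10 m11 m12 m20 m21 m22 : R)

namespace Bq

variable {R S : Type*}

/-- change of coefficients -/
def map (f : R → S) (m : Bq R) : Bq S :=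
  ⟨f m.m00, f m.m01, f m.m02, f m.m10, f m.m11, f m.m12, f m.m20, f m.m21, f m.m22⟩

/-- the coefficients -/
def co (m : Bq R) : Fin 9 → R :=
  ![m.m00, m.m01, m.m02, m.m10, m.m11, m.m12, m.m20, m.m21, m.m22]

variable [CommRing R] (m : Bq R)

/-- the form -/
def ev (p0 p1 q0 q1 : R) : R :=
  p0 ^ 2 * (m.m00 * q0 ^ 2 + m.m01 * q0 * q1 + m.m02 * q1 ^ 2) +
    p0 * p1 * (m.m10 * q0 ^ 2 + m.m11 * q0 * q1 + m.m12 * q1 ^ 2) +
    p1 ^ 2 * (m.m20 * q0 ^ 2 + m.m21 * q0 * q1 + m.m22 * q1 ^ 2)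

/-- the derivative in `p0` -/
def dp0 (p0 p1 q0 q1 : R) : R :=
  2 * p0 * (m.m00 * q0 ^ 2 + m.m01 * q0 * q1 + m.m02 * q1 ^ 2) +
    p1 * (m.m10 * q0 ^ 2 + m.m11 * q0 * q1 + m.m12 * q1 ^ 2)

/-- the derivative in `p1` -/
def dp1 (p0 p1 q0 q1 : R) : R :=
  p0 * (m.m10 * q0 ^ 2 + m.m11 * q0 * q1 + m.m12 * q1 ^ 2) +
    2 * p1 * (m.m20 * q0 ^ 2 + m.m21 * q0 * q1 + m.m22 * q1 ^ 2)

/-- the derivative in `q0` -/
def dq0 (p0 p1 q0 q1 : R) : R :=
  p0 ^ 2 * (2 * m.m00 * q0 + m.m01 * q1) + p0 * p1 * (2 * m.m10 * q0 + m.m11 * q1) +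
    p1 ^ 2 * (2 * m.m20 * q0 + m.m21 * q1)

/-- the derivative in `q1` -/
def dq1 (p0 p1 q0 q1 : R) : R :=
  p0 ^ 2 * (m.m01 * q0 + 2 * m.m02 * q1) + p0 * p1 * (m.m11 * q0 + 2 * m.m12 * q1) +
    p1 ^ 2 * (m.m21 * q0 + 2 * m.m22 * q1)

/-- smooth curves of bidegree `(2, 2)` -/
def Smo : Prop := ∀ p0 p1 q0 q1 : R, (p0 ≠ 0 ∨ p1 ≠ 0) → (q0 ≠ 0 ∨ q1 ≠ 0) →
  m.dp0 p0 p1 q0 q1 = 0 → m.dp1 p0 p1 q0 q1 = 0 → m.dq0 p0 p1 q0 q1 = 0 →
    m.dq1 p0 p1 q0 q1 = 0 → False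

end Bq

/-- `x` is a generic point of the hypersurface `f = 0` (same as
`Pool.Agent.Y742.GF.IsGenericPoint`) -/
structure GPt {Ω K : Type*} [Field Ω] [Field K] [Algebra Ω K] {N : ℕ}
    (f : MvPolynomial (Fin N) Ω) (x : Fin N → K) : Prop where
  zero_iff : ∀ P : MvPolynomial (Fin N) Ω, aeval x P = 0 ↔ f ∣ P
  generates : IntermediateField.adjoin Ω (Set.range x) = ⊤

/-- the function field of a curve `w² = Q(t)` of degree at most four (same as
`Pool.Agent.Y742.GF.IsDoubleCoverOfLine`) -/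
def DCL {Ω K : Type*} [Field Ω] [Field K] [Algebra Ω K] (L : IntermediateField Ω K) : Prop :=
  ∃ (t w : K) (Q : Polynomial L), Transcendental L t ∧ w ^ 2 = Polynomial.aeval t Q ∧
    Q.natDegree ≤ 4 ∧ (¬ ∃ (c : L) (R : Polynomial L), Q = .C c * R ^ 2) ∧
    IntermediateField.adjoin L {t, w} = ⊤

end Pool.Agent.Y200.CY
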