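import Pool.Agent.Y200.CY.Stm5
import Pool.Agent.Y200.CY.Gn
import Pool.Agent.Y200.CY.Nl

/-! The derivatives in the parameters (project CY; written by helper864). -/

set_option autoImplicit false

namespace Pool.Agent.Y200.CY.Dhv

open MvPolynomial Pool.Agent.Y200.CY

section bound

variable {σ : Type} {k : Type} [Field k] (A B : σ)

/-- all monomials have degree at most `e` in two variables -/
def DB (e : ℕ) (p : MvPolynomial σ k) : Prop := ∀ u ∈ p.support, u A + u B ≤ e

variable {A B}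

lemma DB.mono {e e' : ℕ} {p : MvPolynomial σ k} (h : DB A B e p) (h' : e ≤ e') : DB A B e' p :=
  fun u hu => (h u hu).trans h'

lemma DB.mul {e e' : ℕ} {p q : MvPolynomial σ k} (hp : DB A B e p) (hq : DB A B e' q) :
    DB A B (e + e') (p * q) := by
  classical
  intro u hu
  obtain ⟨u1, h1, u2, h2, rfl⟩ := Finset.mem_add.1 (support_mul p q hu)
  have h3 := hp u1 h1
  have h4 := hq u2 h2
  simp only [Finsupp.add_apply]
  omega

lemma DB.const (c : k) : DB A B 0 (C c : MvPolynomial σ k) := by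
  classical
  intro u hu
  rw [mem_support_iff, coeff_C] at hu
  have h : u = 0 := by
    by_contra h
    exact hu (if_neg (Ne.symm h))
  rw [h]
  simp

lemma DB.pow {e : ℕ} {p : MvPolynomial σ k} (hp : DB A B e p) (t : ℕ) :
    DB A B (t * e) (p ^ t) := by
  induction t with
  | zero =>
    rw [zero_mul, pow_zero, ← C_1]
    exact DB.const 1
  | succ t ih =>
    rw [pow_succ, Nat.succ_mul]
    exact ih.mul hp

lemma DB.prod {τ : Type} (S : Finset τ) (e : τ → ℕ) (p : τ → MvPolynomial σ k)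
    (h : ∀ s ∈ S, DB A B (e s) (p s)) : DB A B (∑ s ∈ S, e s) (∏ s ∈ S, p s) := by
  classical
  induction S using Finset.induction_on with
  | empty =>
    rw [Finset.sum_empty, Finset.prod_empty, ← C_1]
    exact DB.const 1
  | insert s S hs ih =>
    rw [Finset.sum_insert hs, Finset.prod_insert hs]
    exact (h s (Finset.mem_insert_self _ _)).mul
      (ih fun t ht => h t (Finset.mem_insert_of_mem ht))

lemma DB.sum {τ : Type} (S : Finset τ) (e : ℕ) (p : τ → MvPolynomial σ k)
    (h : ∀ s ∈ S, DB A B e (p s)) : DB A B e (∑ s ∈ S, p s) := by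
  classical
  induction S using Finset.induction_on with
  | empty =>
    rw [Finset.sum_empty]
    intro u hu
    simp at hu
  | insert s S hs ih =>
    rw [Finset.sum_insert hs]
    intro u hu
    rcases Finset.mem_union.1 (support_add hu) with h1 | h1
    · exact h s (Finset.mem_insert_self _ _) u h1
    · exact ih (fun t ht => h t (Finset.mem_insert_of_mem ht)) u h1

lemma supp_zero [CharZero k] (l : σ) (p : MvPolynomial σ k) (h : pderiv l p = 0) :
    ∀ u ∈ p.support, u l = 0 := by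
  classical
  intro u hu
  by_contra h0
  have h1 := congrArg (coeff (u - Finsupp.single l 1)) h
  rw [coeff_pderiv, coeff_zero] at h1
  have h2 : u - Finsupp.single l 1 + Finsupp.single l 1 = u := by
    refine tsub_add_cancel_of_le ?_
    rw [Finsupp.single_le_iff]
    omega
  rw [h2] at h1
  rcases mul_eq_zero.1 h1 with h3 | h3
  · exact mem_support_iff.1 hu h3
  · exact (Nat.cast_add_one_ne_zero _) h3

end bound

section main

variable {a b : ℕ} {ι : Type} [Fintype ι] [DecidableEq ι] {n m d : ι → ℕ}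

omit [Fintype ι] in
/-- the multidegree of a derivative -/
lemma pderiv_hom {k : Type} [Field k] {F : MvPolynomial (Pc n) k} (hF : PHom d F) (s : Pc n) :
    PHom (fun j => d j - if j = s.1 then 1 else 0) (pderiv s F) := by
  intro u hu j
  rw [mem_support_iff, coeff_pderiv] at hu
  have h1 := hF _ (mem_support_iff.2 (left_ne_zero_of_mul hu)) j
  simp only [Finsupp.add_apply, Finset.sum_add_distrib] at h1
  have h2 : ∑ r, (Finsupp.single s 1 : Pc n →₀ ℕ) ⟨j, r⟩ = if j = s.1 then 1 else 0 := by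
    obtain ⟨i, r0⟩ := s
    by_cases h : j = i
    · subst h
      rw [if_pos rfl, Finset.sum_eq_single r0]
      · rw [Finsupp.single_eq_same]
      · intro r _ hr
        rw [Finsupp.single_eq_of_ne]
        intro h3
        apply hr
        simpa using h3
      · intro h3
        exact absurd (Finset.mem_univ _) h3
    · rw [if_neg h]
      refine Finset.sum_eq_zero fun r _ => ?_
      rw [Finsupp.single_eq_of_ne]
      intro h3
      exact h (congrArg Sigma.fst h3)
  rw [h2] at h1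
  change ∑ r, u ⟨j, r⟩ = d j - if j = s.1 then 1 else 0
  rw [← h1, Nat.add_sub_cancel]

/-- a variable of a smooth form occurs in it -/
lemma smooth_var {k : Type} [Field k] [CharZero k] {F : MvPolynomial (Pc n) k} (hF : PHom d F)
    (hs : PSm F k) (s : Pc n) (hd : 2 ≤ d s.1) : pderiv s F ≠ 0 := by
  classical
  intro h0
  have h1 := supp_zero s F h0
  obtain ⟨t, ht⟩ := hs (fun q => if q = s then 1 else if q.1 = s.1 then 0 else 1) (by
    intro j
    by_cases hj : j = s.1
    · subst hj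
      refine ⟨s.2, ?_⟩
      change (if s = s then (1 : k) else _) ≠ 0
      rw [if_pos rfl]
      exact one_ne_zero
    · refine ⟨0, ?_⟩
      simp only
      rw [if_neg, if_neg hj]
      · exact one_ne_zero
      · intro h
        exact hj (congrArg Sigma.fst h))
  apply ht
  rw [aeval_def, eval₂_eq']
  refine Finset.sum_eq_zero fun u hu => ?_
  rw [mem_support_iff, coeff_pderiv] at hu
  have h2 := mem_support_iff.2 (left_ne_zero_of_mul hu)
  have h3 := hF _ h2 s.1
  have h4 := h1 _ h2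
  obtain ⟨r, hr, hr2⟩ : ∃ r, (⟨s.1, r⟩ : Pc n) ≠ s ∧ u ⟨s.1, r⟩ ≠ 0 := by
    by_contra hcon
    push Not at hcon
    have h5 : ∀ r, u ⟨s.1, r⟩ = 0 := by
      intro r
      by_cases h6 : (⟨s.1, r⟩ : Pc n) = s
      · rw [h6]
        rw [Finsupp.add_apply] at h4
        omega
      · exact hcon r h6
    have h6 : ∑ r, (u + Finsupp.single t 1 : Pc n →₀ ℕ) ⟨s.1, r⟩ ≤ 1 := by
      simp only [Finsupp.add_apply, h5, zero_add]
      by_cases h7 : ∃ r, t = ⟨s.1, r⟩
      · obtain ⟨r, rfl⟩ := h7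
        rw [Finset.sum_eq_single r]
        · rw [Finsupp.single_eq_same]
        · intro r' _ hr'
          rw [Finsupp.single_eq_of_ne]
          intro h8
          apply hr'
          simpa using h8
        · intro h8
          exact absurd (Finset.mem_univ _) h8
      · rw [Finset.sum_eq_zero]
        · exact Nat.zero_le _
        · intro r _
          rw [Finsupp.single_eq_of_ne]
          intro h8
          exact h7 ⟨r, h8.symm⟩
    omega
  rw [Finset.prod_eq_zero (Finset.mem_univ (⟨s.1, r⟩ : Pc n)) (by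
    rw [if_neg hr, if_pos rfl, zero_pow hr2]), mul_zero]

variable {N M : ℕ} {k : Type} [Field k] (e : Af a b ≃ Fin N) (eI : Hv n m ⊕ Fin N ≃ Fin M)
  (g : (i : ι) → Matrix (Fin (m i + 1)) (Fin (m i + 1)) k) (ρ : Bl a b → ι) (ε : ι → ℕ)

/-- the first coordinates as polynomials -/
noncomputable def TT (s : Pc m) : MvPolynomial (Fin M) k :=
  tg (fun i => (g i).map C) ρ ε (zz k e eI) s

/-- the coordinates as polynomials -/
noncomputable def ww (s : Pc n) : MvPolynomial (Fin M) k :=
  lam (fun q => X (eI (.inl q))) (TT e eI g ρ ε) s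

omit [Fintype ι] in
lemma big_eq (F : MvPolynomial (Pc n) k) : big e eI g ρ ε F = aeval (ww e eI g ρ ε) F := rfl

omit [Fintype ι] in
lemma TT_eq (s : Pc m) : TT e eI g ρ ε s =
    ∑ r, C (g s.1 s.2 r) * tau ρ ε (zz k e eI) ⟨s.1, r⟩ := rfl

omit [Fintype ι] in
lemma pderiv_TT (q : Hv n m) (s : Pc m) : pderiv (eI (.inl q)) (TT e eI g ρ ε s) = 0 := by
  classical
  have h1 : ∀ s : Pc m, pderiv (eI (.inl q)) (tau ρ ε (zz k e eI) s) = 0 := by
    intro s
    have h2 := Gn.tau_map ((aeval (zz k e eI) : MvPolynomial (Sg a b) k →ₐ[k]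
      MvPolynomial (Fin M) k) : MvPolynomial (Sg a b) k →+* MvPolynomial (Fin M) k) ρ ε X s
    have h3 : (fun s => ((aeval (zz k e eI) : MvPolynomial (Sg a b) k →ₐ[k]
      MvPolynomial (Fin M) k) : MvPolynomial (Sg a b) k →+* MvPolynomial (Fin M) k) (X s)) =
        zz k e eI := by
      funext s
      exact aeval_X (zz k e eI) s
    rw [h3] at h2
    rw [h2]
    have h4 := Gn.chain (pderiv (eI (.inl q)) : Derivation k (MvPolynomial (Fin M) k)
      (MvPolynomial (Fin M) k)) (zz k e eI) (tau ρ ε X s : MvPolynomial (Sg a b) k)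
    refine h4.trans (Finset.sum_eq_zero fun s' _ => ?_)
    unfold zz
    split_ifs with h5
    · rw [pderiv_X_of_ne, mul_zero]
      intro h6
      simpa using eI.injective h6
    · rw [pderiv_one, mul_zero]
  rw [TT_eq, map_sum]
  refine Finset.sum_eq_zero fun r _ => ?_
  rw [Derivation.leibniz, pderiv_C, smul_zero, add_zero, h1, smul_zero]

/-- the derivative in a parameter -/
lemma pderiv_big (F : MvPolynomial (Pc n) k) (i : ι) (c : Fin (n i - m i)) (r : Fin (m i + 1))
    (hc : m i + 1 + (c : ℕ) < n i + 1) :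
    pderiv (eI (.inl ⟨i, (c, r)⟩)) (big e eI g ρ ε F) =
      aeval (ww e eI g ρ ε) (pderiv ⟨i, ⟨m i + 1 + c, hc⟩⟩ F) * TT e eI g ρ ε ⟨i, r⟩ := by
  classical
  rw [big_eq]
  have h1 := Gn.chain (pderiv (eI (.inl ⟨i, (c, r)⟩)) : Derivation k (MvPolynomial (Fin M) k)
      (MvPolynomial (Fin M) k)) (ww e eI g ρ ε) F
  refine h1.trans ?_
  rw [Finset.sum_eq_single ⟨i, ⟨m i + 1 + c, hc⟩⟩]
  · congr 1
    unfold ww lam
    rw [dif_neg (by simp only; omega), map_sum, Finset.sum_eq_single r]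
    · rw [Derivation.leibniz, pderiv_TT, smul_zero, zero_add, smul_eq_mul]
      have h2 : (⟨i, (⟨m i + 1 + (c : ℕ) - (m i + 1), by have := c.isLt; omega⟩, r)⟩ : Hv n m) =
          ⟨i, (c, r)⟩ := by
        congr 2
        apply Fin.ext
        simp
      simp only
      rw [h2, pderiv_X_self, mul_one]
    · intro r' _ hr'
      rw [Derivation.leibniz, pderiv_TT, smul_zero, zero_add, smul_eq_mul, pderiv_X_of_ne,
        mul_zero]
      intro h3
      apply hr'
      have h4 := eI.injective h3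
      simp only [Sum.inl.injEq] at h4
      have h5 := eq_of_heq (Sigma.mk.inj_iff.1 h4).2
      exact congrArg Prod.snd h5
    · intro h3
      exact absurd (Finset.mem_univ _) h3
  · intro s _ hs
    have h2 : pderiv (eI (.inl ⟨i, (c, r)⟩)) (ww e eI g ρ ε s) = 0 := by
      unfold ww lam
      split_ifs with h3
      · exact pderiv_TT e eI g ρ ε _ _
      · rw [map_sum]
        refine Finset.sum_eq_zero fun r' _ => ?_
        rw [Derivation.leibniz, pderiv_TT, smul_zero, zero_add, smul_eq_mul, pderiv_X_of_ne,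
          mul_zero]
        intro h4
        apply hs
        have h5 := eI.injective h4
        simp only [Sum.inl.injEq] at h5
        obtain ⟨j, r0⟩ := s
        obtain ⟨h6, h7⟩ := Sigma.mk.inj_iff.1 h5
        simp only at h6
        subst h6
        have h8 := congrArg (fun x => (x.1 : ℕ)) (eq_of_heq h7)
        simp only at h8 h3
        congr 1
        apply Fin.ext
        simp only
        omega
    exact (congrArg _ h2).trans (mul_zero _)
  · intro h3
    exact absurd (Finset.mem_univ _) h3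

/-- the degree in two parameters of the same form -/
lemma deg_big [CharZero k] {F : MvPolynomial (Pc n) k} (hF : PHom d F) (i : ι)
    (c : Fin (n i - m i)) (r r' : Fin (m i + 1)) (hr : r ≠ r') :
    DB (eI (.inl ⟨i, (c, r)⟩)) (eI (.inl ⟨i, (c, r')⟩)) (d i) (big e eI g ρ ε F) := by
  classical
  have hT : ∀ s, DB (eI (.inl ⟨i, (c, r)⟩)) (eI (.inl ⟨i, (c, r')⟩)) 0 (TT e eI g ρ ε s) := by
    intro s u hu
    rw [supp_zero _ _ (pderiv_TT e eI g ρ ε ⟨i, (c, r)⟩ s) u hu,
      supp_zero _ _ (pderiv_TT e eI g ρ ε ⟨i, (c, r')⟩ s) u hu]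
  have hne : (⟨i, (c, r)⟩ : Hv n m) ≠ ⟨i, (c, r')⟩ := by
    intro h
    exact hr (congrArg Prod.snd (eq_of_heq (Sigma.mk.inj_iff.1 h).2))
  have hX : ∀ q : Hv n m, DB (eI (.inl ⟨i, (c, r)⟩)) (eI (.inl ⟨i, (c, r')⟩))
      (if q.1 = i then 1 else 0) (X (eI (.inl q)) : MvPolynomial (Fin M) k) := by
    intro q u hu
    rw [support_X, Finset.mem_singleton] at hu
    rw [hu]
    by_cases hq : q.1 = i
    · rw [if_pos hq]
      by_cases h1 : q = ⟨i, (c, r)⟩
      · have h2 : (eI (.inl ⟨i, (c, r')⟩) : Fin M) ≠ eI (.inl q) := by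
          intro h3
          apply hne
          rw [← h1]
          simpa using (eI.injective h3).symm
        rw [h1, Finsupp.single_eq_same, Finsupp.single_eq_of_ne (by rw [← h1]; exact h2)]
        exact Nat.le_refl _
      · have h2 : (eI (.inl ⟨i, (c, r)⟩) : Fin M) ≠ eI (.inl q) := by
          intro h3
          apply h1
          simpa using (eI.injective h3).symm
        rw [Finsupp.single_eq_of_ne h2, zero_add, Finsupp.single_apply]
        split_ifs <;> omega
    · rw [if_neg hq]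
      have h2 : ∀ r0, (eI (.inl ⟨i, (c, r0)⟩) : Fin M) ≠ eI (.inl q) := by
        intro r0 h3
        apply hq
        have h4 : (⟨i, (c, r0)⟩ : Hv n m) = q := by simpa using eI.injective h3
        rw [← h4]
      rw [Finsupp.single_eq_of_ne (h2 r), Finsupp.single_eq_of_ne (h2 r')]
      exact Nat.le_refl _
  have hw : ∀ s : Pc n, DB (eI (.inl ⟨i, (c, r)⟩)) (eI (.inl ⟨i, (c, r')⟩))
      (if s.1 = i then 1 else 0) (ww e eI g ρ ε s) := by
    intro s
    by_cases h1 : (s.2 : ℕ) < m s.1 + 1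
    · rw [ww, lam, dif_pos h1]
      exact (hT _).mono (Nat.zero_le _)
    · rw [ww, lam, dif_neg h1]
      refine DB.sum _ _ _ fun r0 _ => ?_
      exact (hX ⟨s.1, (⟨(s.2 : ℕ) - (m s.1 + 1), by have := s.2.isLt; omega⟩, r0)⟩).mul
        (hT ⟨s.1, r0⟩)
  rw [big_eq, aeval_def, eval₂_eq']
  refine DB.sum _ _ _ fun u hu => ?_
  have h1 := (DB.const (A := eI (.inl ⟨i, (c, r)⟩)) (B := eI (.inl ⟨i, (c, r')⟩))
    (F.coeff u)).mul (DB.prod (Finset.univ : Finset (Pc n))
      (fun s => u s * (if s.1 = i then 1 else 0)) (fun s => ww e eI g ρ ε s ^ u s)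
      fun s _ => (hw s).pow (u s))
  have h2 : 0 + ∑ s : Pc n, u s * (if s.1 = i then 1 else 0) = d i := by
    rw [zero_add, Fintype.sum_sigma, Finset.sum_eq_single i]
    · rw [← hF u hu i]
      refine Finset.sum_congr rfl fun r _ => ?_
      simp
    · intro j _ hj
      refine Finset.sum_eq_zero fun r _ => ?_
      simp [hj]
    · intro h
      exact absurd (Finset.mem_univ _) h
  rw [h2] at h1
  exact h1

/-- the linear form of a factor which has to be nonzero -/
noncomputable def Lc (hmn : ∀ i, m i ≤ n i) (j : ι) : MvPolynomial (Pc n) k :=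
  ∑ r : Fin (m j + 1), C ((g j)⁻¹ 0 r) *
    X ⟨j, Fin.castLE (Nat.succ_le_succ (hmn j)) r⟩

omit [Fintype ι] [DecidableEq ι] in
lemma Lc_val (hmn : ∀ i, m i ≤ n i) (j : ι) (z : Pc n → k) :
    eval z (Lc g hmn j) = ∑ r : Fin (m j + 1), (g j)⁻¹ 0 r *
      z ⟨j, Fin.castLE (Nat.succ_le_succ (hmn j)) r⟩ := by
  unfold Lc
  rw [map_sum]
  refine Finset.sum_congr rfl fun r _ => ?_
  rw [map_mul, eval_C, eval_X]

omit [Fintype ι] [DecidableEq ι] in
lemma Lc_ne (hmn : ∀ i, m i ≤ n i) (hg : ∀ i, (g i).det ≠ 0) (j : ι) :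
    (Lc g hmn j : MvPolynomial (Pc n) k) ≠ 0 := by
  intro h
  have h1 := Lc_val g hmn j
    (fun s => if hs : (s.2 : ℕ) < m s.1 + 1 then g s.1 ⟨s.2, hs⟩ 0 else 0)
  rw [h, map_zero] at h1
  have h2 : ((g j)⁻¹ * g j) 0 0 = 0 := by
    rw [Matrix.mul_apply, h1]
    refine Finset.sum_congr rfl fun r _ => ?_
    simp only
    rw [dif_pos (by simp only [Fin.val_castLE]; exact r.isLt)]
    rfl
  rw [Matrix.nonsing_inv_mul _ (isUnit_iff_ne_zero.2 (hg j)), Matrix.one_apply_eq] at h2
  exact one_ne_zero h2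

/-- the points which are values of the family -/
lemma hit (hLF : StmLF) [IsAlgClosed k] (hε : ∀ i, ε i ≠ 0)
    (hn : ∀ i, ∑ β with ρ β = i, (dg β - 1) = m i) (hmn : ∀ i, m i ≤ n i)
    (hg : ∀ i, (g i).det ≠ 0) (z : Pc n → k) (hz : ∀ j, eval z (Lc g hmn j) ≠ 0) :
    ∃ (y : Fin M → k), ∀ s : Pc n,
      eval y (ww e eI g ρ ε s) = (eval z (Lc g hmn s.1))⁻¹ * z s := by
  classical
  obtain ⟨l, hl⟩ : ∃ l : ι → k, l = fun j => (eval z (Lc g hmn j))⁻¹ := ⟨_, rfl⟩
  obtain ⟨z', hz'⟩ : ∃ z' : Pc m → k, z' = fun s => l s.1 *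
    z ⟨s.1, Fin.castLE (Nat.succ_le_succ (hmn s.1)) s.2⟩ := ⟨_, rfl⟩
  obtain ⟨v, hv⟩ : ∃ v : Pc m → k, v = fun s => ∑ r, (g s.1)⁻¹ s.2 r * z' ⟨s.1, r⟩ := ⟨_, rfl⟩
  have hv0 : ∀ j, v ⟨j, 0⟩ = 1 := by
    intro j
    rw [hv]
    simp only
    rw [hz']
    simp only
    have h1 : ∑ r, (g j)⁻¹ 0 r * (l j * z ⟨j, Fin.castLE (Nat.succ_le_succ (hmn j)) r⟩) =
        l j * eval z (Lc g hmn j) := by
      rw [Lc_val, Finset.mul_sum]
      refine Finset.sum_congr rfl fun r _ => ?_
      ring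
    rw [h1, hl]
    exact inv_mul_cancel₀ (hz j)
  obtain ⟨x, hx, hx2⟩ := hLF a b ι m ρ ε hε hn k v hv0
  have hgv : ∀ s : Pc m, ∑ r, g s.1 s.2 r * v ⟨s.1, r⟩ = z' s := by
    intro s
    have h1 : (g s.1).mulVec ((g s.1)⁻¹.mulVec fun r => z' ⟨s.1, r⟩) = fun r => z' ⟨s.1, r⟩ := by
      rw [Matrix.mulVec_mulVec, Matrix.mul_nonsing_inv _ (isUnit_iff_ne_zero.2 (hg s.1)),
        Matrix.one_mulVec]
    have h2 := congrFun h1 s.2
    rw [hv]
    exact h2
  -- a nonzero coordinate
  have hr : ∀ j, ∃ r : Fin (m j + 1), z' ⟨j, r⟩ ≠ 0 := by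
    intro j
    by_contra hcon
    push Not at hcon
    have h1 := hv0 j
    rw [hv] at h1
    simp only [hcon, mul_zero, Finset.sum_const_zero] at h1
    exact one_ne_zero h1.symm
  choose r1 hr1 using hr
  obtain ⟨h, hh⟩ : ∃ h : Hv n m → k, h = fun q => if q.2.2 = r1 q.1 then
    l q.1 * z ⟨q.1, ⟨m q.1 + 1 + q.2.1, by have := q.2.1.isLt; omega⟩⟩ /
      z' ⟨q.1, r1 q.1⟩ else 0 := ⟨_, rfl⟩
  obtain ⟨y, hy⟩ : ∃ y : Fin M → k, y = fun t =>
    Sum.elim h (fun j => x (e.symm j).1) (eI.symm t) := ⟨_, rfl⟩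
  have hy1 : ∀ q, y (eI (.inl q)) = h q := by
    intro q
    rw [hy]
    simp only
    rw [Equiv.symm_apply_apply, Sum.elim_inl]
  have hy2 : ∀ j, y (eI (.inr j)) = x (e.symm j).1 := by
    intro j
    rw [hy]
    simp only
    rw [Equiv.symm_apply_apply, Sum.elim_inr]
  have hzz : ∀ s, eval y (zz k e eI s) = x s := by
    intro s
    unfold zz
    split_ifs with h1
    · rw [eval_X, hy2, Equiv.symm_apply_apply]
    · rw [map_one]
      rw [not_not] at h1
      rw [h1, hx]
  have hTT : ∀ s : Pc m, eval y (TT e eI g ρ ε s) = z' s := by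
    intro s
    rw [TT_eq, map_sum, ← hgv s]
    refine Finset.sum_congr rfl fun r _ => ?_
    rw [map_mul, eval_C, ← hx2, ← Gn.tau_map]
    simp only [hzz]
  refine ⟨y, fun s => ?_⟩
  have hl2 : (eval z (Lc g hmn s.1))⁻¹ = l s.1 := by rw [hl]
  rw [hl2]
  unfold ww lam
  split_ifs with h1
  · rw [hTT, hz']
    rfl
  · rw [map_sum, Finset.sum_eq_single (r1 s.1)]
    · rw [map_mul, eval_X, hTT, hy1, hh]
      simp only
      rw [if_pos True.intro, div_mul_cancel₀ _ (hr1 s.1)]
      congr 2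
      obtain ⟨j, r⟩ := s
      congr 1
      apply Fin.ext
      simp only at h1 ⊢
      omega
    · intro r _ hr
      rw [map_mul, eval_X, hy1, hh]
      simp only
      rw [if_neg hr, zero_mul]
    · intro h2
      exact absurd (Finset.mem_univ _) h2

end main

/-- the derivatives in the parameters -/
theorem dhv (hLF : StmLF) : StmDHV := by
  intro a b ι _ _ n m d ρ ε hε hm0 hmn hn N M e eI k _ _ _ F hF hs hd g hg
  classical
  refine ⟨?_, ?_, ?_⟩
  · rintro ⟨i, c, r⟩ h0
    have hc : m i + 1 + (c : ℕ) < n i + 1 := by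
      have := c.isLt
      omega
    have h1 : pderiv (eI (.inl ⟨i, (c, r)⟩)) (big e eI g ρ ε F) = 0 := by
      apply pderiv_eq_zero_of_notMem_vars
      intro h2
      exact mem_vars_iff_degreeOf_ne_zero.1 h2 h0
    rw [pderiv_big e eI g ρ ε F i c r hc] at h1
    have hP : pderiv (⟨i, ⟨m i + 1 + c, hc⟩⟩ : Pc n) F ≠ 0 :=
      smooth_var hF hs _ (hd i (by omega))
    obtain ⟨P, hP1⟩ : ∃ P, P = pderiv (⟨i, ⟨m i + 1 + c, hc⟩⟩ : Pc n) F := ⟨_, rfl⟩
    have hPh := pderiv_hom hF (⟨i, ⟨m i + 1 + c, hc⟩⟩ : Pc n)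
    rw [← hP1] at hP h1 hPh
    have h2 : P * (X ⟨i, Fin.castLE (Nat.succ_le_succ (hmn i)) r⟩ *
        ∏ j, Lc g hmn j) = 0 := by
      apply MvPolynomial.funext
      intro z
      rw [map_mul, map_mul, map_prod, eval_X, map_zero]
      by_cases hz : ∀ j, eval z (Lc g hmn j) ≠ 0
      · obtain ⟨y, hy⟩ := hit e eI g ρ ε hLF hε hn hmn hg z hz
        have h3 := congrArg (eval y) h1
        rw [map_mul, map_zero] at h3
        have h4 : eval y (TT e eI g ρ ε ⟨i, r⟩) = (eval z (Lc g hmn i))⁻¹ *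
            z ⟨i, Fin.castLE (Nat.succ_le_succ (hmn i)) r⟩ := by
          rw [← hy ⟨i, Fin.castLE (Nat.succ_le_succ (hmn i)) r⟩]
          unfold ww lam
          rw [dif_pos (by simp only [Fin.val_castLE]; exact r.isLt)]
          rfl
        have h5 : eval y (aeval (ww e eI g ρ ε) P) =
            eval (fun s : Pc n => (eval z (Lc g hmn s.1))⁻¹ * z s) P := by
          rw [← coe_aeval_eq_eval, ← coe_aeval_eq_eval, RingHom.coe_coe, RingHom.coe_coe,
            ← AlgHom.comp_apply, comp_aeval]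
          congr 2
          funext s
          rw [← hy s, ← coe_aeval_eq_eval, RingHom.coe_coe]
        rw [h4, h5, Nl.scale hPh (fun j => (eval z (Lc g hmn j))⁻¹) z] at h3
        have h6 : eval z P * z ⟨i, Fin.castLE (Nat.succ_le_succ (hmn i)) r⟩ = 0 := by
          rcases mul_eq_zero.1 h3 with h7 | h7
          · rcases mul_eq_zero.1 h7 with h8 | h8
            · obtain ⟨j, -, hj⟩ := Finset.prod_eq_zero_iff.1 h8
              exact absurd (eq_zero_of_pow_eq_zero hj) (inv_ne_zero (hz j))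
            · rw [h8, zero_mul]
          · rcases mul_eq_zero.1 h7 with h8 | h8
            · exact absurd h8 (inv_ne_zero (hz i))
            · rw [h8, mul_zero]
        rw [← mul_assoc, h6, zero_mul]
      · push Not at hz
        obtain ⟨j, hj⟩ := hz
        rw [Finset.prod_eq_zero (Finset.mem_univ j) hj, mul_zero, mul_zero]
    refine (mul_ne_zero hP (mul_ne_zero (X_ne_zero _) ?_)) h2
    exact Finset.prod_ne_zero_iff.2 fun j _ => Lc_ne g hmn hg j
  · intro i c r r'
    have hc : m i + 1 + (c : ℕ) < n i + 1 := by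
      have := c.isLt
      omega
    rw [pderiv_big e eI g ρ ε F i c r hc, pderiv_big e eI g ρ ε F i c r' hc]
    change _ * TT e eI g ρ ε ⟨i, r⟩ * TT e eI g ρ ε ⟨i, r'⟩ =
      _ * TT e eI g ρ ε ⟨i, r'⟩ * TT e eI g ρ ε ⟨i, r⟩
    ring
  · intro i c r r' hr u hu
    exact deg_big e eI g ρ ε hF i c r r' hr u hu

end Pool.Agent.Y200.CY.Dhv
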