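import Pool.Agent.Y200.CY.Stm3

/-! Statements, fifth part (helper200, project CY): linear sections. -/

set_option autoImplicit false

namespace Pool.Agent.Y200.CY

open MvPolynomial Pool.Agent.Y200.CB

/-- the parameters of the linear subspaces of dimension `m i` of the spaces of dimension `n i` -/
abbrev Hv {ι : Type} (n m : ι → ℕ) := (i : ι) × (Fin (n i - m i) × Fin (m i + 1))

section

variable {ι : Type} {n m : ι → ℕ} {R : Type*} [CommRing R]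

/-- the linear embedding with the parameters `h`: the last coordinates are linear combinations of
the first ones -/
noncomputable def lam (h : Hv n m → R) (w : Pc m → R) (s : Pc n) : R :=
  if hs : (s.2 : ℕ) < m s.1 + 1 then w ⟨s.1, ⟨s.2, hs⟩⟩
  else ∑ r, h ⟨s.1, (⟨(s.2 : ℕ) - (m s.1 + 1), by have := s.2.isLt; omega⟩, r)⟩ * w ⟨s.1, r⟩

/-- the linear section with the parameters `h` -/
noncomputable def cut (h : Hv n m → R) (F : MvPolynomial (Pc n) R) : MvPolynomial (Pc m) R :=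
  aeval (lam (fun q => C (h q)) X) F

variable [DecidableEq ι]

/-- the affine coordinates of the cover, as elements of a polynomial ring -/
noncomputable def zz (k : Type) [Field k] {σ : Type} {a b N M : ℕ} (e : Af a b ≃ Fin N)
    (eI : σ ⊕ Fin N ≃ Fin M) (s : Sg a b) : MvPolynomial (Fin M) k :=
  if hs : s ≠ o0 (bl s) then X (eI (.inr (e ⟨s, hs⟩))) else 1

/-- the equation with the parameters `h` as variables -/
noncomputable def big {k : Type} [Field k] {a b N M : ℕ} (e : Af a b ≃ Fin N)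
    (eI : Hv n m ⊕ Fin N ≃ Fin M) (g : (i : ι) → Matrix (Fin (m i + 1)) (Fin (m i + 1)) k)
    (ρ : Bl a b → ι) (ε : ι → ℕ) (F : MvPolynomial (Pc n) k) : MvPolynomial (Fin M) k :=
  aeval (lam (fun q => X (eI (.inl q))) (tg (fun i => (g i).map C) ρ ε (zz k e eI))) F

end

/-- the degrees of a linear section -/
def StmCPH : Prop := ∀ (ι : Type) [Fintype ι] [DecidableEq ι] (n m d : ι → ℕ) (k : Type) [Field k]
  (h : Hv n m → k) (F : MvPolynomial (Pc n) k), PHom d F → PHom d (cut h F)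

/-- generic linear sections are smooth -/
def StmBER : Prop := ∀ (ι : Type) [Fintype ι] [DecidableEq ι] (n m d : ι → ℕ),
  (∀ i, m i ≤ n i) → (∀ i, d i ≠ 0) → ∀ (k Λ : Type) [Field k] [CharZero k] [Field Λ] [Algebra k Λ]
  (F : MvPolynomial (Pc n) k), PHom d F → PSm F Λ → ∀ h : Hv n m → Λ, AlgebraicIndependent k h →
  PSm (cut h (map (algebraMap k Λ) F)) Λ

/-- irreducibility of the equation with parameters -/
def StmIRI : Prop := ∀ (a b : ℕ) (ι : Type) [Fintype ι] [DecidableEq ι] (n m d : ι → ℕ)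
  (ρ : Bl a b → ι) (ε : ι → ℕ), (∀ i, ε i ≠ 0) → (∀ i, m i ≠ 0) → (∀ i, m i ≤ n i) →
  (∀ i, ∑ β with ρ β = i, (dg β - 1) = m i) →
  ∀ (N M : ℕ) (e : Af a b ≃ Fin N) (eI : Hv n m ⊕ Fin N ≃ Fin M) (k : Type) [Field k] [CharZero k]
  [IsAlgClosed k] (F : MvPolynomial (Pc n) k), PHom d F →
  ∀ g : (i : ι) → Matrix (Fin (m i + 1)) (Fin (m i + 1)) k, (∀ i, (g i).det ≠ 0) →
  ∀ (Λ : Type) [Field Λ] [Algebra k Λ] (h : Hv n m → Λ), AlgebraicIndependent k h →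
  Irreducible (deh e (pb (fun i => (g i).map (algebraMap k Λ)) ρ ε
    (cut h (map (algebraMap k Λ) F)))) → Irreducible (big e eI g ρ ε F)

/-- generic points over the field generated by some of the coordinates -/
def StmREL : Prop := ∀ (k K : Type) [Field k] [Field K] [Algebra k K] (σ : Type) [Fintype σ]
  (N M : ℕ) (eI : σ ⊕ Fin N ≃ Fin M) (f : MvPolynomial (Fin M) k) (x : Fin M → K), GPt f x →
  ∀ (L : IntermediateField k K) (hL : ∀ q, x (eI (.inl q)) ∈ L),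
  L = IntermediateField.adjoin k (Set.range fun q => x (eI (.inl q))) →
  GPt (aeval (fun l => Sum.elim (fun q => C (⟨x (eI (.inl q)), hL q⟩ : L)) X (eI.symm l)) f :
    MvPolynomial (Fin N) L) (fun j => x (eI (.inr j)))

/-- generation of the Lie algebra, relative version -/
def StmGEN : Prop := ∀ (k K : Type) [Field k] [CharZero k] [Field K] [Algebra k K] (M : ℕ)
  (f : MvPolynomial (Fin M) k) (x : Fin M → K), GPt f x → (∀ l, aeval x (pderiv l f) ≠ 0) →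
  ∀ (A : Set (Fin M)) (L : IntermediateField k K), L = IntermediateField.adjoin k (x '' A) →
  ∀ S : Set (IntermediateField L K),
  LieSubalgebra.lieSpan L (Derivation L K K) {D | ∃ E ∈ S, ∀ a ∈ E, D a = 0} = ⊤ →
  (∀ q ∈ A, ∃ q' ∈ A, q ≠ q' ∧ ∃ D : Derivation L K K,
    D (aeval x (pderiv q f) / aeval x (pderiv q' f)) ≠ 0) →
  LieSubalgebra.lieSpan k (Derivation k K K)
    {D | (∃ E ∈ S, ∀ a ∈ E, D a = 0) ∨ ∃ q ∈ A, ∃ q' ∈ A, q ≠ q' ∧
      (∃ D' : Derivation L K K, D' (aeval x (pderiv q f) / aeval x (pderiv q' f)) ≠ 0) ∧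
      ∀ l, l ≠ q → l ≠ q' → D (x l) = 0} = ⊤

/-- the derivatives in the parameters -/
def StmDHV : Prop := ∀ (a b : ℕ) (ι : Type) [Fintype ι] [DecidableEq ι] (n m d : ι → ℕ)
  (ρ : Bl a b → ι) (ε : ι → ℕ), (∀ i, ε i ≠ 0) → (∀ i, m i ≠ 0) → (∀ i, m i ≤ n i) →
  (∀ i, ∑ β with ρ β = i, (dg β - 1) = m i) →
  ∀ (N M : ℕ) (e : Af a b ≃ Fin N) (eI : Hv n m ⊕ Fin N ≃ Fin M) (k : Type) [Field k] [CharZero k]
  [IsAlgClosed k] (F : MvPolynomial (Pc n) k), PHom d F → PSm F k → (∀ i, m i < n i → 2 ≤ d i) →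
  ∀ g : (i : ι) → Matrix (Fin (m i + 1)) (Fin (m i + 1)) k, (∀ i, (g i).det ≠ 0) →
  (∀ q, (big e eI g ρ ε F).degreeOf (eI (.inl q)) ≠ 0) ∧
  (∀ (i : ι) (c : Fin (n i - m i)) (r r' : Fin (m i + 1)),
    pderiv (eI (.inl ⟨i, (c, r)⟩)) (big e eI g ρ ε F) *
        tg (fun i => (g i).map C) ρ ε (zz k e eI) ⟨i, r'⟩ =
      pderiv (eI (.inl ⟨i, (c, r')⟩)) (big e eI g ρ ε F) *
        tg (fun i => (g i).map C) ρ ε (zz k e eI) ⟨i, r⟩) ∧
  ∀ (i : ι) (c : Fin (n i - m i)) (r r' : Fin (m i + 1)), r ≠ r' →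
    ∀ u ∈ (big e eI g ρ ε F).support, u (eI (.inl ⟨i, (c, r)⟩)) + u (eI (.inl ⟨i, (c, r')⟩)) ≤ d i

/-- a nonconstant linear fractional function of the coordinates of a plane is not killed by all
derivations -/
def StmRAT : Prop := ∀ (a b N : ℕ) (Ω K : Type) [Field Ω] [CharZero Ω] [Field K] [Algebra Ω K]
  (F : MvPolynomial (Sg a b) Ω), MHom F → (∀ (E : Type) [Field E] [Algebra Ω E], Smo F E) →
  2 ≤ a + b → ∀ (e : Af a b ≃ Fin N) (x : Fin N → K), GPt (deh e F) x →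
  ∀ (j : Fin b) (u v : Fin 3 → Ω), v ≠ 0 → (∀ c : Ω, u ≠ c • v) →
  ∃ D : Derivation Ω K K, D ((∑ r, algebraMap Ω K (u r) * hpt e x (.inr (j, r))) /
    (∑ r, algebraMap Ω K (v r) * hpt e x (.inr (j, r)))) ≠ 0

/-- transfer of density of points, with parameters -/
def StmTRI : Prop := ∀ (a b : ℕ) (ι : Type) [Fintype ι] [DecidableEq ι] (n m d : ι → ℕ)
  (ρ : Bl a b → ι) (ε : ι → ℕ), (∀ i, ε i ≠ 0) → (∀ i, m i ≠ 0) → (∀ i, m i ≤ n i) →
  (∀ i, ∑ β with ρ β = i, (dg β - 1) = m i) →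
  ∀ (N N' M : ℕ) (e₀ : PAf n ≃ Fin N') (e : Af a b ≃ Fin N) (eI : Hv n m ⊕ Fin N ≃ Fin M)
  (k Ω : Type) [Field k] [Field Ω] [Algebra k Ω] [IsAlgClosed Ω] (F : MvPolynomial (Pc n) k),
  PHom d F → ∀ g : (i : ι) → Matrix (Fin (m i + 1)) (Fin (m i + 1)) k, (∀ i, (g i).det ≠ 0) →
  ∀ L : Subfield Ω, (∀ c : k, algebraMap k Ω c ∈ L) →
  (∀ G : MvPolynomial (Fin M) k, ¬ big e eI g ρ ε F ∣ G →
    ∃ y : Fin M → Ω, (∀ l, y l ∈ L) ∧ aeval y (big e eI g ρ ε F) = 0 ∧ aeval y G ≠ 0) →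
  ∀ G : MvPolynomial (Fin N') k, ¬ pdeh e₀ F ∣ G →
  -- the conclusion of `StmNL`
  (∀ c : (i : ι) → Fin (n i + 1) → Ω, (∀ i, c i ≠ 0) →
    ∃ z : Fin N' → Ω, aeval z (pdeh e₀ F) = 0 ∧ (∀ i, ∑ r, c i r * phpt e₀ z ⟨i, r⟩ ≠ 0) ∧
      aeval z G ≠ 0) →
  ∃ y : Fin N' → Ω, (∀ l, y l ∈ L) ∧ aeval y (pdeh e₀ F) = 0 ∧ aeval y G ≠ 0

end Pool.Agent.Y200.CY
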