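import Pool.Agent.Y200.CY.FinalC
import Pool.Agent.Y200.CY.Stm5

/-! Lemmas on linear sections with parameters (helper200, project CY). -/

set_option autoImplicit false

open MvPolynomial

namespace Pool.Agent.Y200.CY.Dl

section exg

/-- a linear map over a small field such that the composition with it is smooth -/
theorem exists_g {a b : ℕ} {ι : Type} [Fintype ι] [DecidableEq ι] {n d : ι → ℕ} (ρ : Bl a b → ι)
    (ε : ι → ℕ) (hdε : ∀ β, d (ρ β) * ε (ρ β) = dg β) (hd : ∀ i, d i ≠ 0) (hn : ∀ i, n i ≠ 0)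
    (hsum : ∀ i, ∑ β with ρ β = i, (dg β - 1) = n i)
    (k₀ Ω : Type) [Field k₀] [Infinite k₀] [Field Ω] [CharZero Ω] [IsAlgClosed Ω] [Algebra k₀ Ω]
    (F' : MvPolynomial (Pc n) Ω) (hM : PHom d F') (hS : PSm F' Ω) :
    ∃ g : (i : ι) → Matrix (Fin (n i + 1)) (Fin (n i + 1)) k₀, (∀ i, (g i).det ≠ 0) ∧
      Smo (pb (fun i => (g i).map (algebraMap k₀ Ω)) ρ ε F') Ω := by
  classical
  let T : Type := (i : ι) × (Fin (n i + 1) × Fin (n i + 1))
  let Q := FractionRing (MvPolynomial T Ω)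
  let Λ := AlgebraicClosure Q
  let γ₀ : T → Λ := fun q => algebraMap Q Λ (algebraMap (MvPolynomial T Ω) Q (X q))
  have hγ₀ : AlgebraicIndependent Ω γ₀ := by
    have h1 := (algebraicIndependent_X (σ := T) (R := Ω)).map'
      (f := (IsScalarTower.toAlgHom Ω Q Λ).comp (IsScalarTower.toAlgHom Ω (MvPolynomial T Ω) Q))
      (by
        rw [AlgHom.coe_comp]
        exact (algebraMap Q Λ).injective.comp (IsFractionRing.injective (MvPolynomial T Ω) Q))
    exact h1
  let γ : (i : ι) → Matrix (Fin (n i + 1)) (Fin (n i + 1)) Λ :=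
    fun i => Matrix.of fun r r' => γ₀ ⟨i, (r, r')⟩
  let gX : (i : ι) → Matrix (Fin (n i + 1)) (Fin (n i + 1)) (MvPolynomial T Ω) :=
    fun i => Matrix.of fun r r' => X ⟨i, (r, r')⟩
  have hγ : AlgebraicIndependent Ω (fun q : (i : ι) × (Fin (n i + 1) × Fin (n i + 1)) =>
      γ q.1 q.2.1 q.2.2) := hγ₀
  have hsmγ : Smo (pb γ ρ ε (MvPolynomial.map (algebraMap Ω Λ) F')) Λ :=
    Gn.gn Ph.ph a b ι n d ρ ε hdε hd hn hsum Ω Λ F' hM (Gn.pns ι n Ω F' hS Λ) γ hγ
  let G : MvPolynomial (Sg a b) (MvPolynomial T Ω) := pb gX ρ ε (MvPolynomial.map C F')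
  have hGγ : MvPolynomial.map (aeval γ₀ : MvPolynomial T Ω →ₐ[Ω] Λ).toRingHom G =
      pb γ ρ ε (MvPolynomial.map (algebraMap Ω Λ) F') := by
    rw [pb_map, map_map]
    have h1 : (aeval γ₀ : MvPolynomial T Ω →ₐ[Ω] Λ).toRingHom.comp C = algebraMap Ω Λ := by
      ext c
      simp
    rw [h1]
    congr 1
    funext i
    ext r r'
    simp [gX, γ]
  obtain ⟨q, hq0, hq⟩ := Sp.sp a b T Ω G Λ γ₀ hγ₀ (by rw [hGγ]; exact hsmγ)
  -- a linear map over the base field
  have hdet : ∀ i, (gX i).det ≠ 0 := by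
    intro i h
    apply Gn.det_ne hγ i
    have h1 : γ i = (gX i).map (aeval γ₀ : MvPolynomial T Ω →ₐ[Ω] Λ).toRingHom := by
      ext r r'
      simp [gX, γ]
    rw [h1, ← RingHom.mapMatrix_apply, ← RingHom.map_det, h, map_zero]
  obtain ⟨t, ht⟩ := exists_rational (k := k₀)
    (mul_ne_zero hq0 (Finset.prod_ne_zero_iff.2 fun i (_ : i ∈ Finset.univ) => hdet i))
  rw [map_mul, map_prod] at ht
  have ht1 := left_ne_zero_of_mul ht
  have ht2 := right_ne_zero_of_mul ht
  rw [Finset.prod_ne_zero_iff] at ht2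
  let g : (i : ι) → Matrix (Fin (n i + 1)) (Fin (n i + 1)) k₀ :=
    fun i => Matrix.of fun r r' => t ⟨i, (r, r')⟩
  have hgev : ∀ i, (g i).map (algebraMap k₀ Ω) =
      (gX i).map (eval fun j => algebraMap k₀ Ω (t j)) := by
    intro i
    ext r r'
    simp [gX, g]
  have hgdet : ∀ i, (g i).det ≠ 0 := by
    intro i h
    apply ht2 i (Finset.mem_univ i)
    rw [RingHom.map_det, RingHom.mapMatrix_apply, ← hgev, ← RingHom.mapMatrix_apply,
      ← RingHom.map_det, h, map_zero]
  have hmap : pb (fun i => (g i).map (algebraMap k₀ Ω)) ρ ε F' =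
      MvPolynomial.map (eval fun j => algebraMap k₀ Ω (t j)) G := by
    rw [pb_map, map_map]
    congr 1
    · funext i
      exact hgev i
    · have h1 : (eval fun j => algebraMap k₀ Ω (t j)).comp C = RingHom.id Ω := by
        ext c
        simp
      rw [h1, MvPolynomial.map_id]
  refine ⟨g, hgdet, ?_⟩
  rw [hmap]
  exact hq _ ht1

end exg

section maps

variable {a b : ℕ} {ι : Type} {n m : ι → ℕ} {R R' : Type*} [CommRing R] [CommRing R']

lemma lam_map (φ : R →+* R') (h : Hv n m → R) (w : Pc m → R) (s : Pc n) :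
    φ (lam h w s) = lam (fun q => φ (h q)) (fun s => φ (w s)) s := by
  unfold lam
  split_ifs with hs
  · rfl
  · rw [map_sum]
    exact Finset.sum_congr rfl fun r _ => map_mul _ _ _

lemma cut_map (φ : R →+* R') (h : Hv n m → R) (F : MvPolynomial (Pc n) R) :
    MvPolynomial.map φ (cut h F) = cut (fun q => φ (h q)) (MvPolynomial.map φ F) := by
  unfold cut
  induction F using MvPolynomial.induction_on with
  | C c => simp
  | add p q hp hq => simp only [map_add, hp, hq]
  | mul_X p s hp =>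
    simp only [map_mul, hp, map_X, aeval_X]
    congr 1
    rw [lam_map]
    congr 1
    · funext q
      rw [map_C]
    · funext s
      rw [map_X]

variable [DecidableEq ι]

lemma zz_map {k E : Type} [Field k] [Field E] (φ : k →+* E) {σ : Type} {N M : ℕ}
    (e : Af a b ≃ Fin N) (eI : σ ⊕ Fin N ≃ Fin M) (s : Sg a b) :
    MvPolynomial.map φ (zz k e eI s) = zz E e eI s := by
  unfold zz
  split_ifs with h
  · rw [map_X]
  · rw [map_one]

lemma big_map {k E : Type} [Field k] [Field E] (φ : k →+* E) {N M : ℕ} (e : Af a b ≃ Fin N)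
    (eI : Hv n m ⊕ Fin N ≃ Fin M) (g : (i : ι) → Matrix (Fin (m i + 1)) (Fin (m i + 1)) k)
    (ρ : Bl a b → ι) (ε : ι → ℕ) (F : MvPolynomial (Pc n) k) :
    MvPolynomial.map φ (big e eI g ρ ε F) =
      big e eI (fun i => (g i).map φ) ρ ε (MvPolynomial.map φ F) := by
  unfold big
  induction F using MvPolynomial.induction_on with
  | C c => simp
  | add p q hp hq => simp only [map_add, hp, hq]
  | mul_X p s hp =>
    simp only [map_mul, hp, map_X, aeval_X]
    congr 1
    rw [lam_map]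
    congr 1
    · funext q
      rw [map_X]
    · funext s
      rw [Tr.tg_map]
      congr 1
      · funext i
        ext r r'
        simp
      · funext s
        exact zz_map φ e eI s

/-- the parameters of `big` as constants -/
lemma big_spec {k E : Type} [Field k] [Field E] [Algebra k E] {N M : ℕ} (e : Af a b ≃ Fin N)
    (eI : Hv n m ⊕ Fin N ≃ Fin M) (g : (i : ι) → Matrix (Fin (m i + 1)) (Fin (m i + 1)) k)
    (ρ : Bl a b → ι) (ε : ι → ℕ) (F : MvPolynomial (Pc n) k) (h : Hv n m → E) :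
    (aeval (fun l => Sum.elim (fun q => C (h q)) X (eI.symm l)) (big e eI g ρ ε F) :
      MvPolynomial (Fin N) E) =
    deh e (pb (fun i => (g i).map (algebraMap k E)) ρ ε
      (cut h (MvPolynomial.map (algebraMap k E) F))) := by
  unfold big pb cut deh
  induction F using MvPolynomial.induction_on with
  | C c => simp [MvPolynomial.algebraMap_eq, IsScalarTower.algebraMap_apply k E (MvPolynomial (Fin N) E)]
  | add p q hp hq => simp only [map_add, hp, hq]
  | mul_X p s hp =>
    simp only [map_mul, hp, map_X, aeval_X]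
    congr 1
    rw [← AlgHom.coe_toRingHom, lam_map, ← AlgHom.coe_toRingHom, ← AlgHom.coe_toRingHom, lam_map,
      lam_map]
    congr 1
    · funext q
      simp
    · funext s
      have h1 : (↑(aeval (R := E) (tg (fun i => ((g i).map ⇑(algebraMap k E)).map ⇑C) ρ ε X)) :
          MvPolynomial (Pc m) E →+* MvPolynomial (Sg a b) E) (X s) =
          tg (fun i => ((g i).map ⇑(algebraMap k E)).map ⇑C) ρ ε X s := by
        rw [AlgHom.coe_toRingHom, aeval_X]
      rw [h1, Tr.tg_map, Tr.tg_map]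
      congr 1
      · funext i
        ext1 r r'
        simp [MvPolynomial.algebraMap_eq,
          IsScalarTower.algebraMap_apply k E (MvPolynomial (Fin N) E)]
      · funext s
        rw [AlgHom.coe_toRingHom, AlgHom.coe_toRingHom, aeval_X]
        unfold zz
        split_ifs with h2
        · rw [aeval_X, Equiv.symm_apply_apply, Sum.elim_inr]
        · rw [map_one]

end maps

section ext

open scoped TensorProduct

/-- smoothness at one generic point of the space of parameters implies smoothness at all of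
them -/
theorem smo_ext {a b : ℕ} {A : Type} [CommRing A] [IsDomain A] (G : MvPolynomial (Sg a b) A)
    {Λ k₁ E : Type} [Field Λ] [IsAlgClosed Λ] [Field k₁] [Field E] [Algebra k₁ E] (φ : A →+* Λ)
    (ψ : A →+* k₁) (hφ : Function.Injective φ) (hψ : Function.Injective ψ)
    (hS : Smo (MvPolynomial.map φ G) Λ) : Smo (MvPolynomial.map ψ G) E := by
  classical
  let Q := FractionRing A
  have hψE : Function.Injective ((algebraMap k₁ E).comp ψ) :=
    (algebraMap k₁ E).injective.comp hψ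
  let φ' : Q →+* Λ := IsFractionRing.lift hφ
  let ψ' : Q →+* E := IsFractionRing.lift hψE
  let _ : Algebra Q Λ := φ'.toAlgebra
  let _ : Algebra Q E := ψ'.toAlgebra
  obtain ⟨P, hP⟩ := Ideal.exists_maximal (Λ ⊗[Q] E)
  let _ : Field ((Λ ⊗[Q] E) ⧸ P) := Ideal.Quotient.field P
  let i₁ : Λ →+* (Λ ⊗[Q] E) ⧸ P :=
    (Ideal.Quotient.mk P).comp Algebra.TensorProduct.includeLeftRingHom
  let i₂ : E →+* (Λ ⊗[Q] E) ⧸ P :=
    (Ideal.Quotient.mk P).comp (Algebra.TensorProduct.includeRight : E →ₐ[Q] Λ ⊗[Q] E).toRingHom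
  have hcomp : i₁.comp φ = i₂.comp ((algebraMap k₁ E).comp ψ) := by
    refine RingHom.ext fun c => ?_
    have h1 : φ c = algebraMap Q Λ (algebraMap A Q c) :=
      (IsFractionRing.lift_algebraMap hφ c).symm
    have h2 : (algebraMap k₁ E).comp ψ c = algebraMap Q E (algebraMap A Q c) :=
      (IsFractionRing.lift_algebraMap hψE c).symm
    rw [RingHom.comp_apply, RingHom.comp_apply i₂, h1, h2]
    show Ideal.Quotient.mk P _ = Ideal.Quotient.mk P _
    congr 1
    exact (Algebra.TensorProduct.includeRight : E →ₐ[Q] Λ ⊗[Q] E).commutes (algebraMap A Q c) |>.symm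
  let _ : Algebra Λ ((Λ ⊗[Q] E) ⧸ P) := i₁.toAlgebra
  intro z hz
  obtain ⟨s, hs⟩ := Gs.ns a b Λ (MvPolynomial.map φ G) hS ((Λ ⊗[Q] E) ⧸ P)
    (fun s => i₂ (z s)) (fun β => by
      obtain ⟨s, h1, h2⟩ := hz β
      exact ⟨s, h1, fun h => h2 (i₂.injective (h.trans (map_zero i₂).symm))⟩)
  refine ⟨s, fun h0 => hs ?_⟩
  rw [pderiv_map, aeval_def, eval₂_map] at h0 ⊢
  have h3 : (algebraMap Λ ((Λ ⊗[Q] E) ⧸ P)).comp φ = i₂.comp ((algebraMap k₁ E).comp ψ) := hcomp
  rw [h3, ← hom_eval₂, h0, map_zero]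

end ext

section three

variable {a b : ℕ} {ι : Type} [DecidableEq ι] {m d : ι → ℕ}

/-- a factor `ℙ²` is covered by itself -/
lemma uniq {ρ : Bl a b → ι} {ε : ι → ℕ} (hdε : ∀ β, d (ρ β) * ε (ρ β) = dg β)
    (hsum : ∀ i, ∑ β with ρ β = i, (dg β - 1) = m i) {i : ι} (hd : d i = 3) (hm : m i = 2) :
    ε i = 1 ∧ ∃ j : Fin b, (Finset.univ.filter fun β => ρ β = i) = {Sum.inr j} := by
  have h1 : ∀ β, ρ β = i → (∃ j, β = Sum.inr j) ∧ ε i = 1 := by
    intro β hβ
    have h := hdε β
    rw [hβ, hd] at h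
    rcases β with i' | j
    · simp only [dg] at h
      omega
    · simp only [dg] at h
      exact ⟨⟨j, rfl⟩, by omega⟩
  have h2 : ∑ β with ρ β = i, (dg β - 1) = (Finset.univ.filter fun β => ρ β = i).card * 2 := by
    rw [Finset.sum_congr rfl (g := fun _ => 2), Finset.sum_const, smul_eq_mul]
    intro β hβ
    obtain ⟨⟨j, rfl⟩, -⟩ := h1 β (Finset.mem_filter.1 hβ).2
    rfl
  have h3 := hsum i
  rw [h2, hm] at h3
  obtain ⟨β, hβ⟩ := Finset.card_eq_one.1 (show (Finset.univ.filter fun β => ρ β = i).card = 1 by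
    omega)
  have h4 : ρ β = i := by
    have : β ∈ Finset.univ.filter fun β => ρ β = i := by rw [hβ]; exact Finset.mem_singleton_self _
    exact (Finset.mem_filter.1 this).2
  obtain ⟨⟨j, rfl⟩, h5⟩ := h1 β h4
  exact ⟨h5, j, hβ⟩

/-- the map to the factor -/
lemma tg_three {E : Type} [Field E] {ρ : Bl a b → ι} {ε : ι → ℕ} {i : ι} (hm : m i = 2)
    (hε : ε i = 1) {j : Fin b} (hj : (Finset.univ.filter fun β => ρ β = i) = {Sum.inr j})
    (g : (i : ι) → Matrix (Fin (m i + 1)) (Fin (m i + 1)) E) (z : Sg a b → E)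
    (r : Fin (m i + 1)) :
    tg g ρ ε z ⟨i, r⟩ =
      ∑ t : Fin 3, g i r (Fin.cast (by rw [hm]) t) * z (.inr (j, t)) := by
  unfold tg
  symm
  refine Fintype.sum_equiv (finCongr (by rw [hm])) _ _ fun t => ?_
  congr 1
  unfold tau pf
  simp only [hj, Finset.prod_singleton]
  have h1 := Gn.fm_coeff (E := E) (ε i) z (.inr (j, t))
  rw [hε, pow_one] at h1
  rw [hε]
  exact h1.symm

lemma rows {E : Type} [Field E] {l : ℕ} (g : Matrix (Fin l) (Fin l) E) (hg : g.det ≠ 0)
    {r r' : Fin l} (hr : r ≠ r') : g r' ≠ 0 ∧ ∀ c : E, g r ≠ c • g r' := by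
  have h1 := Matrix.linearIndependent_rows_of_det_ne_zero hg
  refine ⟨h1.ne_zero r', fun c h => ?_⟩
  have h2 : LinearIndependent E ![g r, g r'] := by
    have h3 := h1.comp ![r, r'] (by
      intro x y h
      fin_cases x <;> fin_cases y <;> simp_all)
    have h4 : ![g r, g r'] = (fun i => g i) ∘ ![r, r'] := by
      funext x
      fin_cases x <;> rfl
    rw [h4]
    exact h3
  have h4 := LinearIndependent.pair_iff.1 h2 1 (-c) (by rw [h, one_smul, neg_smul, add_neg_cancel])
  exact one_ne_zero h4.1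

end three

end Pool.Agent.Y200.CY.Dl
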