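import Pool.Agent.Y200.CY.Stm3

/-! Surjectivity of the map `tau` on affine charts (job CY-LF, helper638). -/

set_option autoImplicit false

namespace Pool.Agent.Y200.CY.Lf

open Polynomial

section

variable {k : Type} [Field k] [IsAlgClosed k]

/-- a polynomial with constant coefficient one splits into two with prescribed degrees -/
theorem split2 (m m' : ℕ) : ∀ V : k[X], V.coeff 0 = 1 → V.natDegree ≤ m + m' →
    ∃ V1 V2 : k[X], V = V1 * V2 ∧ V1.coeff 0 = 1 ∧ V2.coeff 0 = 1 ∧ V1.natDegree ≤ m ∧
      V2.natDegree ≤ m' := by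
  induction m with
  | zero =>
    intro V h0 hd
    exact ⟨1, V, by simp, by simp, h0, by simp, by simpa using hd⟩
  | succ m ih =>
    intro V h0 hd
    by_cases h1 : V.natDegree = 0
    · exact ⟨1, V, by simp, by simp, h0, by simp, by rw [h1]; exact Nat.zero_le _⟩
    have hV : V ≠ 0 := by
      intro h
      rw [h] at h0
      simp at h0
    have hdeg : V.degree ≠ 0 := by
      intro h
      exact h1 (natDegree_eq_of_degree_eq_some h)
    obtain ⟨x, hx⟩ := IsAlgClosed.exists_root V hdeg
    have hx0 : x ≠ 0 := by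
      intro h
      rw [h, IsRoot.def, ← coeff_zero_eq_eval_zero, h0] at hx
      exact one_ne_zero hx
    obtain ⟨W, hW⟩ := dvd_iff_isRoot.2 hx
    have hW0 : W ≠ 0 := by
      intro h
      rw [h, mul_zero] at hW
      exact hV hW
    have hVd : V.natDegree = 1 + W.natDegree := by
      rw [hW, natDegree_mul (X_sub_C_ne_zero x) hW0, natDegree_X_sub_C]
    have hfac : V = (1 - C x⁻¹ * X) * (-C x * W) := by
      rw [hW]
      have h2 : C x⁻¹ * C x = (1 : k[X]) := by
        rw [← C_mul, inv_mul_cancel₀ hx0, C_1]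
      linear_combination (- X * W) * h2
    have hc : (-C x * W).coeff 0 = 1 := by
      have h2 : V.coeff 0 = (1 - C x⁻¹ * X : k[X]).coeff 0 * (-C x * W).coeff 0 := by
        rw [← mul_coeff_zero, ← hfac]
      rw [h0] at h2
      have h3 : (1 - C x⁻¹ * X : k[X]).coeff 0 = 1 := by simp
      rw [h3, one_mul] at h2
      exact h2.symm
    have hd' : (-C x * W).natDegree ≤ m + m' := by
      refine le_trans natDegree_mul_le ?_
      rw [natDegree_neg, natDegree_C]
      omega
    obtain ⟨V1, V2, h2, h3, h4, h5, h6⟩ := ih _ hc hd'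
    refine ⟨(1 - C x⁻¹ * X) * V1, V2, ?_, ?_, h4, ?_, h6⟩
    · rw [mul_assoc, ← h2, ← hfac]
    · rw [mul_coeff_zero, h3]
      simp
    · refine le_trans natDegree_mul_le ?_
      have h7 : (1 - C x⁻¹ * X : k[X]).natDegree ≤ 1 := by
        refine le_trans (natDegree_sub_le _ _) ?_
        rw [natDegree_one]
        exact max_le (Nat.zero_le _) (natDegree_C_mul_le _ _ |>.trans natDegree_X_le)
      omega

/-- a polynomial with constant coefficient one is a product of such polynomials of prescribed
degrees -/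
theorem splitS {B : Type} [DecidableEq B] (w : B → ℕ) (S : Finset B) : ∀ V : k[X],
    V.coeff 0 = 1 → V.natDegree ≤ ∑ β ∈ S, w β →
    ∃ q : B → k[X], (∀ β, (q β).coeff 0 = 1) ∧ (∀ β, (q β).natDegree ≤ w β) ∧
      ∏ β ∈ S, q β = V := by
  induction S using Finset.induction_on with
  | empty =>
    intro V h0 hd
    refine ⟨fun _ => 1, fun _ => by simp, fun _ => by simp, ?_⟩
    rw [Finset.sum_empty] at hd
    rw [Finset.prod_empty, eq_C_of_natDegree_le_zero hd, h0, C_1]
  | insert β S hβ ih =>
    intro V h0 hd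
    rw [Finset.sum_insert hβ] at hd
    obtain ⟨V1, V2, h1, h2, h3, h4, h5⟩ := split2 _ _ V h0 hd
    obtain ⟨q, hq1, hq2, hq3⟩ := ih V2 h3 h5
    refine ⟨Function.update q β V1, ?_, ?_, ?_⟩
    · intro γ
      by_cases h : γ = β
      · rw [h, Function.update_self, h2]
      · rw [Function.update_of_ne h, hq1]
    · intro γ
      by_cases h : γ = β
      · rw [h, Function.update_self]
        exact h4
      · rw [Function.update_of_ne h]
        exact hq2 γ
    · have h6 : ∀ γ ∈ S, Function.update q β V1 γ = q γ := by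
        intro γ hγ
        refine Function.update_of_ne ?_ _ _
        rintro rfl
        exact hβ hγ
      rw [Finset.prod_insert hβ, Function.update_self, Finset.prod_congr rfl h6, hq3, h1]

end

/-- the polynomial of a block -/
theorem sum_block {k : Type} [Field k] {a b : ℕ} (β : Bl a b) (p : k[X])
    (hp : p.natDegree ≤ dg β - 1) :
    ∑ s : Sg a b with bl s = β, C (p.coeff (ix s)) * X ^ ix s = p := by
  rw [Finset.sum_filter, Fintype.sum_sum_type, Fintype.sum_prod_type, Fintype.sum_prod_type]
  rcases β with i | j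
  · have h2 : p = C (p.coeff 0) + C (p.coeff 1) * X := by
      conv_lhs => rw [p.as_sum_range' 2 (by simp [dg] at hp; omega)]
      simp [Finset.sum_range_succ, ← C_mul_X_pow_eq_monomial]
    conv_rhs => rw [h2]
    simp [bl, ix, Fin.sum_univ_two]
  · have h2 : p = C (p.coeff 0) + C (p.coeff 1) * X + C (p.coeff 2) * X ^ 2 := by
      conv_lhs => rw [p.as_sum_range' 3 (by simp [dg] at hp; omega)]
      simp [Finset.sum_range_succ, ← C_mul_X_pow_eq_monomial]
    conv_rhs => rw [h2]
    simp [bl, ix, Fin.sum_univ_three]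

theorem lf : StmLF := by
  intro a b ι _ _ n ρ ε hε hn k _ _ v hv
  classical
  -- the polynomials to be factored
  have hV : ∀ i, ∃ q : Bl a b → k[X], (∀ β, (q β).coeff 0 = 1) ∧
      (∀ β, (q β).natDegree ≤ dg β - 1) ∧
      ∏ β with ρ β = i, q β = ∑ r : Fin (n i + 1), C (v ⟨i, r⟩) * X ^ (r : ℕ) := by
    intro i
    refine splitS (fun β => dg β - 1) _ _ ?_ ?_
    · rw [finsetSum_coeff, Finset.sum_eq_single (0 : Fin (n i + 1))]
      · simp [hv i]
      · intro r _ hr
        have h2 : (0 : ℕ) ≠ (r : ℕ) := fun h => hr (Fin.ext h.symm)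
        rw [coeff_C_mul, coeff_X_pow, if_neg h2, mul_zero]
      · intro h
        exact (h (Finset.mem_univ _)).elim
    · rw [hn i]
      refine natDegree_sum_le_of_forall_le _ _ fun r _ => ?_
      refine le_trans (natDegree_C_mul_X_pow_le _ _) ?_
      have := r.2
      omega
  choose q hq0 hqd hqp using hV
  have hz : ∀ s : Sg a b, ∃ z : k, z ^ ε (ρ (bl s)) = (q (ρ (bl s)) (bl s)).coeff (ix s) ∧
      (ix s = 0 → z = 1) := by
    intro s
    by_cases h : ix s = 0
    · refine ⟨1, ?_, fun _ => rfl⟩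
      rw [h, hq0, one_pow]
    · obtain ⟨z, hz⟩ := IsAlgClosed.exists_pow_nat_eq
        ((q (ρ (bl s)) (bl s)).coeff (ix s)) (Nat.pos_of_ne_zero (hε (ρ (bl s))))
      exact ⟨z, hz, fun h' => (h h').elim⟩
  choose z hz1 hz2 using hz
  refine ⟨z, ?_, ?_⟩
  · intro β
    apply hz2
    rcases β with i | j <;> rfl
  · rintro ⟨i, r⟩
    have hfm : ∀ β, ρ β = i → fm (ε i) z β = q i β := by
      intro β hβ
      rw [fm]
      conv_rhs => rw [← sum_block β (q i β) (hqd i β)]
      refine Finset.sum_congr rfl fun s hs => ?_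
      have h2 : bl s = β := (Finset.mem_filter.1 hs).2
      have h3 := hz1 s
      rw [h2, hβ] at h3
      rw [h3]
    rw [tau, pf, Finset.prod_congr rfl (fun β hβ => hfm β (Finset.mem_filter.1 hβ).2), hqp i,
      finsetSum_coeff, Finset.sum_eq_single r]
    · simp
    · intro r' _ hr'
      have h2 : (r : ℕ) ≠ (r' : ℕ) := fun h => hr' (Fin.ext h.symm)
      rw [coeff_C_mul, coeff_X_pow, if_neg h2, mul_zero]
    · intro h
      exact (h (Finset.mem_univ _)).elim

end Pool.Agent.Y200.CY.Lf
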