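import Pool.Agent.Y200.CY.Stm3
import Mathlib.RingTheory.MvPolynomial.WeightedHomogeneous

/-! The degrees of the composition, and the combinatorial data (helper350, project CY). -/

set_option autoImplicit false

namespace Pool.Agent.Y200.CY.Ph

open MvPolynomial Pool.Agent.Y200.CY

section

variable {σ : Type} {k : Type} [Field k]

/-- all coefficients are weighted homogeneous of degree `e` -/
def WP (w : σ → ℕ) (e : ℕ) (p : Polynomial (MvPolynomial σ k)) : Prop :=
  ∀ t, IsWeightedHomogeneous w (p.coeff t) e

lemma WP.mul {w : σ → ℕ} {e e' : ℕ} {p q : Polynomial (MvPolynomial σ k)} (hp : WP w e p)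
    (hq : WP w e' q) : WP w (e + e') (p * q) := by
  intro t
  rw [Polynomial.coeff_mul]
  exact IsWeightedHomogeneous.sum _ _ _ fun x _ => (hp x.1).mul (hq x.2)

lemma WP.one (w : σ → ℕ) : WP w 0 (1 : Polynomial (MvPolynomial σ k)) := by
  intro t
  rw [Polynomial.coeff_one]
  split_ifs
  · exact isWeightedHomogeneous_one k w
  · exact isWeightedHomogeneous_zero k w 0

lemma WP.prod {w : σ → ℕ} {B : Type} (S : Finset B) (e : B → ℕ)
    (p : B → Polynomial (MvPolynomial σ k)) (h : ∀ β ∈ S, WP w (e β) (p β)) :
    WP w (∑ β ∈ S, e β) (∏ β ∈ S, p β) := by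
  classical
  induction S using Finset.induction_on with
  | empty => simpa using WP.one w
  | insert β S hβ ih =>
    rw [Finset.sum_insert hβ, Finset.prod_insert hβ]
    exact (h β (Finset.mem_insert_self _ _)).mul
      (ih fun β' hβ' => h β' (Finset.mem_insert_of_mem hβ'))

end

theorem ph : StmPH := by
  intro a b ι _ _ n d ρ ε hdε k _ g F hF
  have key : ∀ β : Bl a b, IsWeightedHomogeneous (fun s : Sg a b => if bl s = β then 1 else 0)
      (pb g ρ ε F) (dg β) := by
    intro β
    set w : Sg a b → ℕ := fun s => if bl s = β then 1 else 0 with hw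
    -- the polynomials of the factors
    have h1 : ∀ (m : ℕ) (β' : Bl a b), WP w (if β' = β then m else 0)
        (fm m (X : Sg a b → MvPolynomial (Sg a b) k) β') := by
      intro m β' t
      unfold fm
      rw [Polynomial.finsetSum_coeff]
      refine IsWeightedHomogeneous.sum _ _ _ fun s hs => ?_
      rw [Polynomial.coeff_C_mul_X_pow]
      split_ifs with ht hβ hβ
      · have h3 : bl s = β := (Finset.mem_filter.1 hs).2.trans hβ
        have h4 := (isWeightedHomogeneous_X k w s).pow m
        have h5 : m • w s = m := by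
          simp [hw, h3]
        rwa [h5] at h4
      · have h3 : bl s ≠ β := fun h => hβ ((Finset.mem_filter.1 hs).2.symm.trans h)
        have h4 := (isWeightedHomogeneous_X k w s).pow m
        have h5 : m • w s = 0 := by
          simp [hw, h3]
        rwa [h5] at h4
      · exact isWeightedHomogeneous_zero k w _
      · exact isWeightedHomogeneous_zero k w _
    have h6 : ∀ i : ι, WP w (if ρ β = i then ε i else 0)
        (pf ρ ε (X : Sg a b → MvPolynomial (Sg a b) k) i) := by
      intro i
      have h7 := WP.prod (w := w) (Finset.univ.filter fun β' : Bl a b => ρ β' = i)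
        (fun β' => if β' = β then ε i else 0)
        (fun β' => fm (ε i) (X : Sg a b → MvPolynomial (Sg a b) k) β')
        (fun β' _ => h1 (ε i) β')
      have h8 : ∑ β' ∈ Finset.univ.filter (fun β' : Bl a b => ρ β' = i),
          (if β' = β then ε i else 0) = if ρ β = i then ε i else 0 := by
        rw [Finset.sum_ite_eq']
        simp
      rw [h8] at h7
      exact h7
    have h9 : ∀ s : Pc n, IsWeightedHomogeneous w
        (tg (fun i => (g i).map C) ρ ε (X : Sg a b → MvPolynomial (Sg a b) k) s)
        (if ρ β = s.1 then ε s.1 else 0) := by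
      intro s
      unfold tg
      refine IsWeightedHomogeneous.sum _ _ _ fun r _ => ?_
      have h10 := (isWeightedHomogeneous_C w (g s.1 s.2 r)).mul (h6 s.1 r)
      rw [zero_add] at h10
      exact h10
    unfold pb
    rw [aeval_def, eval₂_eq']
    refine IsWeightedHomogeneous.sum _ _ _ fun m hm => ?_
    have h11 := IsWeightedHomogeneous.prod (w := w) (Finset.univ : Finset (Pc n))
      (fun s => (tg (fun i => (g i).map C) ρ ε (X : Sg a b → MvPolynomial (Sg a b) k) s) ^ m s)
      (fun s => m s • (if ρ β = s.1 then ε s.1 else 0)) (fun s _ => (h9 s).pow (m s))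
    have h12 : ∑ s : Pc n, m s • (if ρ β = s.1 then ε s.1 else 0) = dg β := by
      rw [Fintype.sum_sigma]
      have h13 : ∀ i, ∑ r : Fin (n i + 1), m ⟨i, r⟩ • (if ρ β = i then ε i else 0) =
          if ρ β = i then d i * ε i else 0 := by
        intro i
        rw [← hF m hm i, Finset.sum_mul]
        split_ifs
        · rfl
        · simp
      calc ∑ i, ∑ r : Fin (n i + 1), m ⟨i, r⟩ • (if ρ β = i then ε i else 0) =
            ∑ i, (if ρ β = i then d i * ε i else 0) := Finset.sum_congr rfl fun i _ => h13 i
        _ = d (ρ β) * ε (ρ β) := by rw [Finset.sum_ite_eq]; simp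
        _ = dg β := hdε β
    rw [h12] at h11
    have h14 := (isWeightedHomogeneous_C w (F.coeff m)).mul h11
    rw [zero_add] at h14
    exact h14
  intro m hm β
  have h := key β (mem_support_iff.1 hm)
  rw [Finsupp.weight_apply, Finsupp.sum_fintype _ _ (fun _ => by simp)] at h
  rw [Finset.sum_filter, ← h]
  refine Finset.sum_congr rfl fun s _ => ?_
  split_ifs <;> simp

/-- sums over a subtype with one term -/
lemma sum_sub {ι : Type} [Fintype ι] [DecidableEq ι] (Q : ι → Prop) [DecidablePred Q]
    (f : ι → ℕ) (i : ι) :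
    ∑ j : {j // Q j}, (if j.1 = i then f j.1 else 0) = if Q i then f i else 0 := by
  split_ifs with h
  · rw [Finset.sum_eq_single ⟨i, h⟩]
    · simp
    · intro j _ hj
      rw [if_neg]
      intro hji
      exact hj (Subtype.ext hji)
    · intro hn
      exact absurd (Finset.mem_univ _) hn
  · refine Finset.sum_eq_zero fun j _ => ?_
    rw [if_neg]
    intro hji
    exact h (hji ▸ j.2)

theorem co : StmCO := by
  intro ι _ _ n d hn hd hd3 hev hex hne
  classical
  set A := (i : {i : ι // d i ≠ 3}) × Fin (n i.1) with hA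
  set B := (i : {i : ι // d i = 3}) × Fin (n i.1 / 2) with hB
  set eA : A ≃ Fin (Fintype.card A) := Fintype.equivFin A
  set eB : B ≃ Fin (Fintype.card B) := Fintype.equivFin B
  refine ⟨Fintype.card A, Fintype.card B,
    Sum.elim (fun l => (eA.symm l).1.1) (fun p => (eB.symm p).1.1),
    fun i => if d i = 1 then 2 else 1, ?_, ?_, ?_, ?_, ?_⟩
  · intro h1
    obtain ⟨x, hx⟩ := Fintype.card_eq_one_iff.1 h1
    apply hex
    refine ⟨x.1.1, ?_, ?_, ?_⟩
    · have := hd3 x.1.1
      have := x.1.2
      omega
    · have h2 := hn x.1.1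
      by_contra h3
      have h4 : 0 < n x.1.1 := by omega
      have h5 : 1 < n x.1.1 := by omega
      have h6 := (hx ⟨x.1, ⟨0, h4⟩⟩).trans (hx ⟨x.1, ⟨1, h5⟩⟩).symm
      have h7 := eq_of_heq (Sigma.mk.inj h6).2
      have h8 := congrArg Fin.val h7
      simp at h8
    · intro j hj
      by_contra h3
      have h4 : 0 < n j := Nat.pos_of_ne_zero (hn j)
      have h5 := hx ⟨⟨j, h3⟩, ⟨0, h4⟩⟩
      apply hj
      rw [← h5]
  · intro h0
    obtain ⟨i⟩ := hne
    have hA0 : Fintype.card A = 0 := by omega
    have hB0 : Fintype.card B = 0 := by omega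
    rw [Fintype.card_eq_zero_iff] at hA0 hB0
    by_cases h3 : d i = 3
    · have h4 := hev i h3
      have h5 := hn i
      obtain ⟨r, hr⟩ := h4
      exact hB0.elim ⟨⟨i, h3⟩, ⟨0, by show 0 < n i / 2; omega⟩⟩
    · exact hA0.elim ⟨⟨i, h3⟩, ⟨0, Nat.pos_of_ne_zero (hn i)⟩⟩
  · intro i
    show (if d i = 1 then 2 else 1) ≠ 0
    split_ifs <;> norm_num
  · rintro (l | p)
    · show d (eA.symm l).1.1 * (if d (eA.symm l).1.1 = 1 then 2 else 1) = 2
      have h1 := (eA.symm l).1.2
      have h2 := hd (eA.symm l).1.1
      have h3 := hd3 (eA.symm l).1.1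
      split_ifs with h4
      · rw [h4]
      · omega
    · show d (eB.symm p).1.1 * (if d (eB.symm p).1.1 = 1 then 2 else 1) = 3
      have h1 := (eB.symm p).1.2
      rw [h1]
      norm_num
  · intro i
    rw [Finset.sum_filter, Fintype.sum_sum_type]
    have h1 : ∑ l : Fin (Fintype.card A), (if (Sum.elim (fun l => (eA.symm l).1.1)
        (fun p => (eB.symm p).1.1) (Sum.inl l : Fin (Fintype.card A) ⊕ Fin (Fintype.card B))) = i
        then dg (Sum.inl l : Bl (Fintype.card A) (Fintype.card B)) - 1 else 0) =
        if d i ≠ 3 then n i else 0 := by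
      calc _ = ∑ l : Fin (Fintype.card A), (if (eA.symm l).1.1 = i then 1 else 0) := rfl
        _ = ∑ x : A, (if x.1.1 = i then 1 else 0) :=
            Equiv.sum_comp eA.symm (fun x : A => if x.1.1 = i then 1 else 0)
        _ = ∑ j : {j : ι // d j ≠ 3}, ∑ _r : Fin (n j.1), (if j.1 = i then 1 else 0) :=
            Fintype.sum_sigma _
        _ = ∑ j : {j : ι // d j ≠ 3}, (if j.1 = i then n j.1 else 0) := by
            refine Finset.sum_congr rfl fun j _ => ?_
            rw [Finset.sum_const, Finset.card_univ, Fintype.card_fin]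
            split_ifs <;> simp
        _ = _ := sum_sub (fun j => d j ≠ 3) n i
    have h2 : ∑ p : Fin (Fintype.card B), (if (Sum.elim (fun l => (eA.symm l).1.1)
        (fun p => (eB.symm p).1.1) (Sum.inr p : Fin (Fintype.card A) ⊕ Fin (Fintype.card B))) = i
        then dg (Sum.inr p : Bl (Fintype.card A) (Fintype.card B)) - 1 else 0) =
        if d i = 3 then n i / 2 * 2 else 0 := by
      calc _ = ∑ p : Fin (Fintype.card B), (if (eB.symm p).1.1 = i then 2 else 0) := rfl
        _ = ∑ x : B, (if x.1.1 = i then 2 else 0) :=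
            Equiv.sum_comp eB.symm (fun x : B => if x.1.1 = i then 2 else 0)
        _ = ∑ j : {j : ι // d j = 3}, ∑ _r : Fin (n j.1 / 2), (if j.1 = i then 2 else 0) :=
            Fintype.sum_sigma _
        _ = ∑ j : {j : ι // d j = 3}, (if j.1 = i then n j.1 / 2 * 2 else 0) := by
            refine Finset.sum_congr rfl fun j _ => ?_
            rw [Finset.sum_const, Finset.card_univ, Fintype.card_fin]
            split_ifs <;> simp
        _ = _ := sum_sub (fun j => d j = 3) (fun j => n j / 2 * 2) i
    rw [h1, h2]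
    by_cases h3 : d i = 3
    · rw [if_neg (not_not.2 h3), if_pos h3, zero_add]
      obtain ⟨r, hr⟩ := hev i h3
      omega
    · rw [if_pos h3, if_neg h3, add_zero]

end Pool.Agent.Y200.CY.Ph
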