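import Pool.Agent.Y200.CY.Stm3

/-!
Smoothness at the generic point of the space of parameters implies smoothness for general
parameters.
-/

set_option autoImplicit false

namespace Pool.Agent.Y200.CY.Sp

open MvPolynomial Pool.Agent.Y200.CB Pool.Agent.Y200.CY

section

attribute [local instance] algebraMvPolynomial

/-- the theorem of zeros over the fraction field of a domain, without denominators -/
theorem zeros {σ : Type} [Finite σ] {R Q Λ : Type} [CommRing R] [IsDomain R] [Field Q]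
    [Algebra R Q] [IsFractionRing R Q] [Field Λ] [IsAlgClosed Λ] [Algebra Q Λ]
    (P : σ → MvPolynomial σ R) (m : MvPolynomial σ R)
    (h : ∀ z : σ → Λ, (∀ s, eval₂ ((algebraMap Q Λ).comp (algebraMap R Q)) z (P s) = 0) →
      eval₂ ((algebraMap Q Λ).comp (algebraMap R Q)) z m = 0) :
    ∃ q : R, q ≠ 0 ∧ ∃ j : ℕ, C q * m ^ j ∈ Ideal.span (Set.range P) := by
  have hmem : map (algebraMap R Q) m ∈ vanishingIdeal Q (zeroLocus Λ
      (Ideal.map (algebraMap (MvPolynomial σ R) (MvPolynomial σ Q))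
        (Ideal.span (Set.range P)))) := by
    intro z hz
    change eval₂ (algebraMap Q Λ) z _ = 0
    rw [eval₂_map]
    apply h
    intro s
    have h1 := hz _ (Ideal.mem_map_of_mem (algebraMap (MvPolynomial σ R) (MvPolynomial σ Q))
      (Ideal.subset_span ⟨s, rfl⟩))
    rw [algebraMap_def] at h1
    change eval₂ (algebraMap Q Λ) z _ = 0 at h1
    rw [eval₂_map] at h1
    exact h1
  rw [vanishingIdeal_zeroLocus_eq_radical] at hmem
  obtain ⟨j, hj⟩ := hmem
  rw [IsLocalization.mem_map_algebraMap_iff ((nonZeroDivisors R).map (C (σ := σ)))] at hj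
  obtain ⟨⟨⟨x, hx⟩, ⟨_, q, hq, rfl⟩⟩, hxy⟩ := hj
  refine ⟨q, nonZeroDivisors.ne_zero hq, j, ?_⟩
  have h2 : C q * m ^ j = x := by
    apply map_injective (algebraMap R Q) (IsFractionRing.injective R Q)
    rw [mul_comm, map_mul, map_pow]
    exact hxy
  rw [h2]
  exact hx

/-- the theorem of zeros over the fraction field of a domain, for a homomorphism -/
theorem zeros2 {σ : Type} [Finite σ] {R Λ : Type} (Q : Type) [CommRing R] [IsDomain R] [Field Q]
    [Algebra R Q] [IsFractionRing R Q] [Field Λ] [IsAlgClosed Λ] (φ : R →+* Λ)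
    (hφ : Function.Injective φ) (P : σ → MvPolynomial σ R) (m : MvPolynomial σ R)
    (h : ∀ z : σ → Λ, (∀ s, eval₂ φ z (P s) = 0) → eval₂ φ z m = 0) :
    ∃ q : R, q ≠ 0 ∧ ∃ j : ℕ, C q * m ^ j ∈ Ideal.span (Set.range P) := by
  let _ : Algebra Q Λ := (IsFractionRing.lift hφ : Q →+* Λ).toAlgebra
  have hψ : (algebraMap Q Λ).comp (algebraMap R Q) = φ :=
    RingHom.ext fun p => IsFractionRing.lift_algebraMap hφ p
  refine zeros (Q := Q) (Λ := Λ) P m ?_
  rw [hψ]
  exact h

end

/-- the product of the variables of a choice -/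
noncomputable def mc {a b : ℕ} {R : Type} [CommRing R] (c : Bl a b → Sg a b) :
    MvPolynomial (Sg a b) R := ∏ β, X (c β)

theorem eval_mc {a b : ℕ} {R Λ : Type} [CommRing R] [CommRing Λ] (φ : R →+* Λ)
    (c : Bl a b → Sg a b) (z : Sg a b → Λ) : eval₂ φ z (mc c) = ∏ β, z (c β) := by
  unfold mc
  rw [eval₂_prod]
  simp only [eval₂_X]

theorem one_choice {a b : ℕ} {R Λ : Type} [CommRing R] [IsDomain R] [Field Λ] [IsAlgClosed Λ]
    (φ : R →+* Λ) (hφ : Function.Injective φ) (G : MvPolynomial (Sg a b) R)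
    (hG : Smo (map φ G) Λ) (c : Bl a b → Sg a b) (hc : ∀ β, bl (c β) = β) :
    ∃ q : R, q ≠ 0 ∧ ∃ j : ℕ, C q * mc c ^ j ∈ Ideal.span (Set.range fun s => pderiv s G) := by
  refine zeros2 (FractionRing R) φ hφ (fun s => pderiv s G) (mc c) ?_
  intro z hz
  by_contra hne
  rw [eval_mc, ← Ne, Finset.prod_ne_zero_iff] at hne
  obtain ⟨s, hs⟩ := hG z fun β => ⟨c β, hc β, hne β (Finset.mem_univ β)⟩
  apply hs
  rw [pderiv_map]
  change eval₂ (algebraMap Λ Λ) z _ = 0
  rw [eval₂_map]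
  exact hz s

theorem sp : StmSP := by
  classical
  intro a b T _ k _ _ _ G Λ _ _ _ γ hγ hG
  have h : ∀ c : Bl a b → Sg a b, ∃ q : MvPolynomial T k, q ≠ 0 ∧ ((∀ β, bl (c β) = β) →
      ∃ j : ℕ, C q * mc c ^ j ∈ Ideal.span (Set.range fun s => pderiv s G)) := by
    intro c
    by_cases hc : ∀ β, bl (c β) = β
    · obtain ⟨q, hq, h⟩ := one_choice (aeval γ : MvPolynomial T k →ₐ[k] Λ).toRingHom hγ G hG c hc
      exact ⟨q, hq, fun _ => h⟩
    · exact ⟨1, one_ne_zero, fun h => absurd h hc⟩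
  choose q hq hqj using h
  refine ⟨∏ c, q c, Finset.prod_ne_zero_iff.2 fun c _ => hq c, ?_⟩
  intro t ht z hz
  rw [map_prod, Finset.prod_ne_zero_iff] at ht
  choose c hc hzc using hz
  obtain ⟨j, hj⟩ := hqj c hc
  by_contra hcon
  push Not at hcon
  have h1 : Ideal.span (Set.range fun s => pderiv s G) ≤
      RingHom.ker (eval₂Hom (eval t) z : MvPolynomial (Sg a b) (MvPolynomial T k) →+* k) := by
    rw [Ideal.span_le]
    rintro _ ⟨s, rfl⟩
    have h2 := hcon s
    rw [pderiv_map] at h2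
    change eval₂ (algebraMap k k) z _ = 0 at h2
    rw [eval₂_map] at h2
    exact h2
  have h3 : eval₂ (eval t) z (C (q c) * mc c ^ j) = 0 := h1 hj
  rw [eval₂_mul, eval₂_C, eval₂_pow, eval_mc] at h3
  rcases mul_eq_zero.1 h3 with h6 | h6
  · exact ht c (Finset.mem_univ c) h6
  · have h7 := eq_zero_of_pow_eq_zero h6
    rw [Finset.prod_eq_zero_iff] at h7
    obtain ⟨β, -, h8⟩ := h7
    exact hzc β h8

end Pool.Agent.Y200.CY.Sp
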