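import Pool.Agent.Y200.CY.Stm3
import Pool.Agent.Y200.CY.Dh

/-! Transfer of density of points (helper48, project CY). -/

set_option autoImplicit false

namespace Pool.Agent.Y200.CY.Tr

open MvPolynomial Pool.Agent.Y200.CY

section nat

variable {a b : ℕ} {R S : Type*} [CommRing R] [CommRing S] (φ : R →+* S)
variable {ι : Type} [DecidableEq ι] {n : ι → ℕ} (ρ : Bl a b → ι) (ε : ι → ℕ) (z : Sg a b → R)

lemma fm_map (m : ℕ) (β : Bl a b) : (fm m z β).map φ = fm m (fun q => φ (z q)) β := by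
  unfold fm
  rw [Polynomial.map_sum]
  refine Finset.sum_congr rfl fun s _ => ?_
  rw [Polynomial.map_mul, Polynomial.map_C, Polynomial.map_pow, Polynomial.map_X, map_pow]

lemma pf_map (i : ι) : (pf ρ ε z i).map φ = pf ρ ε (fun q => φ (z q)) i := by
  unfold pf
  rw [Polynomial.map_prod]
  exact Finset.prod_congr rfl fun β _ => fm_map φ z _ β

lemma tau_map (s : Pc n) : φ (tau ρ ε z s) = tau ρ ε (fun q => φ (z q)) s := by
  unfold tau
  rw [← pf_map, Polynomial.coeff_map]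

lemma tg_map (g : (i : ι) → Matrix (Fin (n i + 1)) (Fin (n i + 1)) R) (s : Pc n) :
    φ (tg g ρ ε z s) = tg (fun i => (g i).map φ) ρ ε (fun q => φ (z q)) s := by
  unfold tg
  rw [map_sum]
  refine Finset.sum_congr rfl fun r _ => ?_
  rw [map_mul, tau_map]
  rfl

end nat

section main

variable {a b : ℕ} {ι : Type} [DecidableEq ι] {n : ι → ℕ} {k Ω : Type} [Field k]
  [Field Ω] [Algebra k Ω]

/-- the matrices over the big field -/
abbrev gO (Ω : Type) [Field Ω] [Algebra k Ω]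
    (g : (i : ι) → Matrix (Fin (n i + 1)) (Fin (n i + 1)) k) :
    (i : ι) → Matrix (Fin (n i + 1)) (Fin (n i + 1)) Ω :=
  fun i => (g i).map (algebraMap k Ω)

lemma pb_val (g : (i : ι) → Matrix (Fin (n i + 1)) (Fin (n i + 1)) k) (ρ : Bl a b → ι)
    (ε : ι → ℕ) (F : MvPolynomial (Pc n) k) (z : Sg a b → Ω) :
    aeval z (pb g ρ ε F) = aeval (tg (gO Ω g) ρ ε z) F := by
  unfold pb
  rw [← AlgHom.comp_apply, comp_aeval]
  congr 2
  funext s
  have h := tg_map ((aeval z : MvPolynomial (Sg a b) k →ₐ[k] Ω) : MvPolynomial (Sg a b) k →+* Ω)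
    ρ ε X (fun i => (g i).map C) s
  refine h.trans ?_
  have h1 : (fun i => ((g i).map C).map
      ((aeval z : MvPolynomial (Sg a b) k →ₐ[k] Ω) : MvPolynomial (Sg a b) k →+* Ω)) = gO Ω g := by
    funext i
    ext r r'
    simp [gO, Matrix.map_apply]
  have h2 : (fun q => ((aeval z : MvPolynomial (Sg a b) k →ₐ[k] Ω) :
      MvPolynomial (Sg a b) k →+* Ω) (X q)) = z := by
    funext q
    simp
  rw [h1, h2]

/-- the coordinates of the map as polynomials -/
noncomputable def AA {M : ℕ} (e' : Af a b ≃ Fin M)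
    (g : (i : ι) → Matrix (Fin (n i + 1)) (Fin (n i + 1)) k) (ρ : Bl a b → ι) (ε : ι → ℕ)
    (s : Pc n) : MvPolynomial (Fin M) k :=
  tg (fun i => (g i).map C) ρ ε (Dh.gg k e') s

lemma AA_val {M : ℕ} (e' : Af a b ≃ Fin M)
    (g : (i : ι) → Matrix (Fin (n i + 1)) (Fin (n i + 1)) k) (ρ : Bl a b → ι) (ε : ι → ℕ)
    (s : Pc n) (y : Fin M → Ω) :
    aeval y (AA e' g ρ ε s) = tg (gO Ω g) ρ ε (hpt e' y) s := by
  have h := tg_map ((aeval y : MvPolynomial (Fin M) k →ₐ[k] Ω) : MvPolynomial (Fin M) k →+* Ω)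
    ρ ε (Dh.gg k e') (fun i => (g i).map C) s
  refine h.trans ?_
  have h1 : (fun i => ((g i).map C).map
      ((aeval y : MvPolynomial (Fin M) k →ₐ[k] Ω) : MvPolynomial (Fin M) k →+* Ω)) = gO Ω g := by
    funext i
    ext r r'
    simp [gO, Matrix.map_apply]
  have h2 : (fun q => ((aeval y : MvPolynomial (Fin M) k →ₐ[k] Ω) :
      MvPolynomial (Fin M) k →+* Ω) (Dh.gg k e' q)) = hpt e' y := by
    funext q
    unfold Dh.gg hpt
    split_ifs with h
    · simp
    · simp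
  rw [h1, h2]

omit [DecidableEq ι] in
lemma pdeh_val {N : ℕ} (e : PAf n ≃ Fin N) (F : MvPolynomial (Pc n) k) (x : Fin N → Ω) :
    aeval x (pdeh e F) = aeval (phpt e x) F := by
  unfold pdeh
  rw [← AlgHom.comp_apply, comp_aeval]
  congr 2
  funext s
  unfold phpt
  split_ifs with h
  · rw [aeval_X]
  · rw [map_one]

lemma hom_ex {N M : ℕ} (R : Fin N → MvPolynomial (Fin M) k) (S : MvPolynomial (Fin M) k)
    (G : MvPolynomial (Fin N) k) : ∃ (D : ℕ) (H : MvPolynomial (Fin M) k), ∀ y : Fin M → Ω,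
      aeval y S ≠ 0 →
        aeval y H = aeval y S ^ D * aeval (fun l => aeval y (R l) / aeval y S) G := by
  induction G using MvPolynomial.induction_on with
  | C c => exact ⟨0, C c, fun y _ => by rw [pow_zero, one_mul, aeval_C, aeval_C]⟩
  | add p q hp hq =>
    obtain ⟨D, H, h⟩ := hp
    obtain ⟨D', H', h'⟩ := hq
    refine ⟨D + D', H * S ^ D' + H' * S ^ D, fun y hy => ?_⟩
    rw [map_add, map_mul, map_mul, map_pow, map_pow, h y hy, h' y hy, map_add]
    ring
  | mul_X p l hp =>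
    obtain ⟨D, H, h⟩ := hp
    refine ⟨D + 1, H * R l, fun y hy => ?_⟩
    rw [map_mul, h y hy, map_mul, aeval_X, pow_succ]
    field_simp

lemma mem_L {M : ℕ} (L : Subfield Ω) (hL : ∀ c : k, algebraMap k Ω c ∈ L) (y : Fin M → Ω)
    (hy : ∀ l, y l ∈ L) (P : MvPolynomial (Fin M) k) : aeval y P ∈ L := by
  induction P using MvPolynomial.induction_on with
  | C c => rw [aeval_C]; exact hL c
  | add p q hp hq => rw [map_add]; exact L.add_mem hp hq
  | mul_X p l hp => rw [map_mul, aeval_X]; exact L.mul_mem hp (hy l)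

omit [DecidableEq ι] in
lemma scale [Fintype ι] {d : ι → ℕ} {F : MvPolynomial (Pc n) k} (hF : PHom d F) (l : ι → Ω)
    (w : Pc n → Ω) :
    aeval (fun s => l s.1 * w s) F = (∏ i, l i ^ d i) * aeval w F := by
  rw [aeval_def, aeval_def, eval₂_eq', eval₂_eq', Finset.mul_sum]
  refine Finset.sum_congr rfl fun m hm => ?_
  have h : ∏ s : Pc n, (l s.1) ^ m s = ∏ i, l i ^ d i := by
    rw [Fintype.prod_sigma]
    refine Finset.prod_congr rfl fun i _ => ?_
    change ∏ r, l i ^ m ⟨i, r⟩ = _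
    rw [Finset.prod_pow_eq_pow_sum, hF m hm i]
  simp_rw [mul_pow]
  rw [Finset.prod_mul_distrib, h]
  ring

end main

theorem tr : StmLF → StmTR := by
  intro hLF a b ι _ _ n d ρ ε hdε hε hn hd hsum N M e e' k Ω _ _ _ _ F hF g hg L hL hy G hG hz
  -- the inverse matrices
  have hgi : ∀ i, g i * (g i)⁻¹ = 1 := fun i =>
    Matrix.mul_nonsing_inv _ (isUnit_iff_ne_zero.2 (hg i))
  have hig : ∀ i, (g i)⁻¹ * g i = 1 := fun i =>
    Matrix.nonsing_inv_mul _ (isUnit_iff_ne_zero.2 (hg i))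
  obtain ⟨z, hz1, hz2, hz3⟩ := hz (fun i r => algebraMap k Ω ((g i)⁻¹ 0 r)) (by
    intro i h
    have h1 : ∀ r, (g i)⁻¹ 0 r = 0 := fun r => by
      have := congrFun h r
      exact (map_eq_zero _).1 this
    have h2 := congrFun (congrFun (hig i) 0) 0
    rw [Matrix.mul_apply, Matrix.one_apply_eq] at h2
    simp [h1] at h2)
  set v0 : ι → Ω := fun i => ∑ r, algebraMap k Ω ((g i)⁻¹ 0 r) * phpt e z ⟨i, r⟩ with hv0
  have hv0ne : ∀ i, v0 i ≠ 0 := hz2
  set v : Pc n → Ω := fun s =>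
    (∑ r, algebraMap k Ω ((g s.1)⁻¹ s.2 r) * phpt e z ⟨s.1, r⟩) / v0 s.1 with hv
  obtain ⟨ζ, hζ1, hζ2⟩ := hLF a b ι n ρ ε hε hsum Ω v (fun i => div_self (hv0ne i))
  have htg : ∀ s : Pc n, tg (gO Ω g) ρ ε ζ s = (v0 s.1)⁻¹ * phpt e z s := by
    rintro ⟨i, r⟩
    have h1 : (g i).map (algebraMap k Ω) * ((g i)⁻¹).map (algebraMap k Ω) = 1 := by
      rw [← Matrix.map_mul, hgi i, Matrix.map_one _ (map_zero _) (map_one _)]
    have h2 := congrFun (congrArg (fun A => A.mulVec (fun r => phpt e z ⟨i, r⟩)) h1) r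
    simp only [Matrix.one_mulVec, ← Matrix.mulVec_mulVec] at h2
    unfold tg
    simp only [hζ2, hv]
    rw [← h2]
    simp only [Matrix.mulVec, dotProduct, Matrix.map_apply]
    rw [Finset.mul_sum]
    refine Finset.sum_congr rfl fun r' _ => ?_
    rw [div_eq_mul_inv]
    ring
  -- the polynomials
  set A : Pc n → MvPolynomial (Fin M) k := fun s => AA e' g ρ ε s with hA
  set S : MvPolynomial (Fin M) k := ∏ i, A ⟨i, 0⟩ with hS
  set R : Fin N → MvPolynomial (Fin M) k := fun l =>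
    A (e.symm l).1 * ∏ j ∈ Finset.univ.erase (e.symm l).1.1, A ⟨j, 0⟩ with hR
  have hne : ∀ y : Fin M → Ω, aeval y S ≠ 0 → ∀ i, aeval y (A ⟨i, 0⟩) ≠ 0 := by
    intro y h i h0
    apply h
    rw [hS, map_prod]
    exact Finset.prod_eq_zero (Finset.mem_univ i) h0
  have hRS : ∀ y : Fin M → Ω, aeval y S ≠ 0 → ∀ l, aeval y (R l) / aeval y S =
      aeval y (A (e.symm l).1) / aeval y (A ⟨(e.symm l).1.1, 0⟩) := by
    intro y h l
    have h1 : S = A ⟨(e.symm l).1.1, 0⟩ * ∏ j ∈ Finset.univ.erase (e.symm l).1.1, A ⟨j, 0⟩ :=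
      (Finset.mul_prod_erase Finset.univ (fun j => A ⟨j, 0⟩) (Finset.mem_univ _)).symm
    have h2 := h
    rw [h1, map_mul] at h2
    have h3 := right_ne_zero_of_mul h2
    rw [h1]
    simp only [hR, map_mul]
    exact mul_div_mul_right _ _ h3
  have hph : ∀ y : Fin M → Ω, aeval y S ≠ 0 →
      phpt e (fun l => aeval y (R l) / aeval y S) =
        fun s => (aeval y (A ⟨s.1, 0⟩))⁻¹ * aeval y (A s) := by
    intro y h
    funext s
    unfold phpt
    split_ifs with hs
    · change aeval y (R (e ⟨s, hs⟩)) / aeval y S = _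
      rw [hRS y h, Equiv.symm_apply_apply, div_eq_mul_inv, mul_comm]
    · obtain ⟨i, r⟩ := s
      have hr : r = 0 := not_not.1 hs
      subst hr
      exact (inv_mul_cancel₀ (hne y h i)).symm
  have hfval : ∀ y : Fin M → Ω, aeval y (deh e' (pb g ρ ε F)) =
      aeval (fun s => aeval y (A s)) F := by
    intro y
    rw [Dh.deh_val, pb_val]
    congr 2
    funext s
    exact (AA_val e' g ρ ε s y).symm
  obtain ⟨D, H, hH⟩ := hom_ex (Ω := Ω) R S G
  -- the point above `z`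
  set x' : Fin M → Ω := fun l => ζ (e'.symm l).1 with hx'
  have hx : hpt e' x' = ζ := by
    funext s
    unfold hpt
    split_ifs with h
    · simp only [hx', Equiv.symm_apply_apply]
    · rw [not_not.1 h]
      exact (hζ1 _).symm
  have hAx : ∀ s, aeval x' (A s) = (v0 s.1)⁻¹ * phpt e z s := by
    intro s
    rw [hA, AA_val, hx, htg]
  have hAx0 : ∀ i, aeval x' (A ⟨i, 0⟩) = (v0 i)⁻¹ := by
    intro i
    rw [hAx]
    unfold phpt
    rw [dif_neg (by simp), mul_one]
  have hSx : aeval x' S ≠ 0 := by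
    rw [hS, map_prod]
    refine Finset.prod_ne_zero_iff.2 fun i _ => ?_
    rw [hAx0]
    exact inv_ne_zero (hv0ne i)
  have hwx : (fun l => aeval x' (R l) / aeval x' S) = z := by
    funext l
    have h1 : phpt e z (e.symm l).1 = z l := by
      unfold phpt
      rw [dif_pos (e.symm l).2]
      simp
    rw [hRS x' hSx, hAx, hAx0, h1]
    exact mul_div_cancel_left₀ _ (inv_ne_zero (hv0ne _))
  have hfx : aeval x' (deh e' (pb g ρ ε F)) = 0 := by
    rw [hfval]
    have h1 : (fun s => aeval x' (A s)) = fun s : Pc n => (v0 s.1)⁻¹ * phpt e z s := by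
      funext s
      exact hAx s
    rw [h1, scale hF (fun i => (v0 i)⁻¹), ← pdeh_val, hz1, mul_zero]
  have hnd : ¬ deh e' (pb g ρ ε F) ∣ S * H := by
    rintro ⟨q, hq⟩
    have h1 := congrArg (aeval x') hq
    rw [map_mul, map_mul, hfx, zero_mul, hH x' hSx, hwx] at h1
    exact mul_ne_zero hSx (mul_ne_zero (pow_ne_zero _ hSx) hz3) h1
  obtain ⟨y, hyL, hy0, hyG⟩ := hy (S * H) hnd
  rw [map_mul] at hyG
  have hSy := left_ne_zero_of_mul hyG
  have hHy := right_ne_zero_of_mul hyG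
  refine ⟨fun l => aeval y (R l) / aeval y S, fun l => ?_, ?_, ?_⟩
  · exact L.div_mem (mem_L L hL y hyL _) (mem_L L hL y hyL _)
  · rw [pdeh_val, hph y hSy, scale hF (fun i => (aeval y (A ⟨i, 0⟩))⁻¹), ← hfval, hy0, mul_zero]
  · rw [hH y hSy] at hHy
    exact right_ne_zero_of_mul hHy

end Pool.Agent.Y200.CY.Tr
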