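import Pool.Agent.Y200.CY.Final
import Pool.Agent.Y200.CY.Ph
import Pool.Agent.Y200.CY.Gn
import Pool.Agent.Y200.CY.Sp
import Pool.Agent.Y200.CY.Nl
import Pool.Agent.Y200.CY.Lf
import Pool.Agent.Y200.CY.Tr

/-!
# Smooth hypersurfaces of low degree in products of projective spaces
-/

set_option autoImplicit false

open MvPolynomial AlgebraicGeometry CategoryTheory

namespace Pool.Agent.Y200.CY

open Pool.Agent.W572 Pool.Agent.W572.G

section

variable {a b : ℕ} {ι : Type} [DecidableEq ι] {n : ι → ℕ} {R S : Type*} [CommRing R] [CommRing S]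

lemma pb_map (φ : R →+* S) (g : (i : ι) → Matrix (Fin (n i + 1)) (Fin (n i + 1)) R)
    (ρ : Bl a b → ι) (ε : ι → ℕ) (F : MvPolynomial (Pc n) R) :
    MvPolynomial.map φ (pb g ρ ε F) = pb (fun i => (g i).map φ) ρ ε (MvPolynomial.map φ F) := by
  unfold pb
  induction F using MvPolynomial.induction_on with
  | C c => simp
  | add p q hp hq => simp only [map_add, hp, hq]
  | mul_X p s hp =>
    simp only [map_mul, hp, map_X, aeval_X]
    congr 1
    rw [Tr.tg_map]
    congr 1
    · funext i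
      ext r r'
      simp
    · funext s
      simp

end

section

variable {ι : Type} {n d : ι → ℕ} {k : Type} [Field k]

lemma PHom.map {E : Type} [Field E] {F : MvPolynomial (Pc n) k} (hF : PHom d F) (f : k →+* E) :
    PHom d (MvPolynomial.map f F) :=
  fun m hm i => hF m (support_map_subset f F hm) i

lemma pdeh_map {E : Type} [Field E] {N : ℕ} (e : PAf n ≃ Fin N) (F : MvPolynomial (Pc n) k)
    (f : k →+* E) : pdeh e (MvPolynomial.map f F) = MvPolynomial.map f (pdeh e F) := by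
  unfold pdeh
  induction F using MvPolynomial.induction_on with
  | C c => simp
  | add p q hp hq => simp only [map_add, hp, hq]
  | mul_X p i hp =>
    simp only [map_mul, hp, map_X, aeval_X]
    congr 1
    split_ifs with h
    · rw [map_X]
    · rw [map_one]

/-- Euler's formula: a singular point is a point of the hypersurface -/
lemma psm_of [Fintype ι] [DecidableEq ι] [Nonempty ι] [CharZero k] {F : MvPolynomial (Pc n) k}
    (hF : PHom d F) (hd : ∀ i, d i ≠ 0)
    (h : ∀ z : Pc n → AlgebraicClosure k, PNZ z → aeval z F = 0 →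
      ∃ s, aeval z (pderiv s F) ≠ 0) :
    PSm (MvPolynomial.map (algebraMap k (AlgebraicClosure k)) F) (AlgebraicClosure k) := by
  intro z hz
  have hchar : CharZero (AlgebraicClosure k) :=
    charZero_of_injective_algebraMap (algebraMap k (AlgebraicClosure k)).injective
  have e : ∀ G : MvPolynomial (Pc n) k,
      aeval z (MvPolynomial.map (algebraMap k (AlgebraicClosure k)) G) = aeval z G := by
    intro G
    rw [aeval_map_algebraMap]
  have key : ∃ s, aeval z (pderiv s F) ≠ 0 := by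
    by_cases h0 : aeval z F = 0
    · exact h z hz h0
    · by_contra hcon
      push Not at hcon
      obtain ⟨i⟩ := (inferInstance : Nonempty ι)
      have h1 := Nl.euler (hF.map (algebraMap k (AlgebraicClosure k))) z i
      rw [Finset.sum_eq_zero (fun r _ => ?_)] at h1
      · rw [← coe_aeval_eq_eval, RingHom.coe_coe, e] at h1
        exact mul_ne_zero (Nat.cast_ne_zero.2 (hd i)) h0 h1.symm
      · rw [pderiv_map, ← coe_aeval_eq_eval, RingHom.coe_coe, e, hcon, mul_zero]
  obtain ⟨s, hs⟩ := key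
  exact ⟨s, by rw [pderiv_map, e]; exact hs⟩

end

/-- a nonzero polynomial over a field extension is nonzero at some point of the small field -/
lemma exists_rational {T k Ω : Type} [Fintype T] [Field k] [Infinite k] [Field Ω] [Algebra k Ω]
    {q : MvPolynomial T Ω} (hq : q ≠ 0) : ∃ t : T → k, eval (fun i => algebraMap k Ω (t i)) q ≠ 0 := by
  by_contra hcon
  push Not at hcon
  apply hq
  refine funext_set (fun _ => Set.range (algebraMap k Ω))
    (fun _ => Set.infinite_range_of_injective (algebraMap k Ω).injective) fun x hx => ?_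
  have h1 : ∀ i, ∃ t, algebraMap k Ω t = x i := fun i => hx i (Set.mem_univ i)
  choose t ht using h1
  have h2 := hcon t
  rw [map_zero]
  have h3 : x = fun i => algebraMap k Ω (t i) := by
    funext i
    exact (ht i).symm
  rw [h3]
  exact h2

/-- **Smooth hypersurfaces of low degree in products of projective spaces** -/
theorem finalC_pts (k₀ : Type) [Field k₀] [CharZero k₀] (hk₀ : Y742.GG.FG k₀) {ι : Type}
    [Fintype ι] [DecidableEq ι] [Nonempty ι] (n d : ι → ℕ) (hn : ∀ i, n i ≠ 0) (hd : ∀ i, d i ≠ 0)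
    (hd3 : ∀ i, d i ≤ 3) (heven : ∀ i, d i = 3 → Even (n i)) (h2 : ∀ i : ι, ∃ j, j ≠ i)
    (hex : ¬ ∃ i, d i ≤ 2 ∧ n i = 1 ∧ ∀ j, j ≠ i → d j = 3) {N : ℕ} (e : PAf n ≃ Fin N)
    (F : MvPolynomial (Pc n) k₀) (hF : PHom d F)
    (hsm : ∀ z : Pc n → AlgebraicClosure k₀, PNZ z → aeval z F = 0 →
      ∃ s, aeval z (pderiv s F) ≠ 0) : Pts k₀ (pdeh e F) := by
  classical
  set Ω := AlgebraicClosure k₀ with hΩ
  have hchar : CharZero Ω := charZero_of_injective_algebraMap (algebraMap k₀ Ω).injective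
  set F' := MvPolynomial.map (algebraMap k₀ Ω) F with hF'
  have hM : PHom d F' := hF.map _
  have hS : PSm F' Ω := psm_of hF hd hsm
  obtain ⟨a, b, ρ, ε, ha, hab, hε, hdε, hsum⟩ := Ph.co ι n d hn hd hd3 heven hex inferInstance
  -- the generic linear map
  let T : Type := (i : ι) × (Fin (n i + 1) × Fin (n i + 1))
  let Q := FractionRing (MvPolynomial T Ω)
  let Λ := AlgebraicClosure Q
  let γ₀ : T → Λ := fun q => algebraMap Q Λ (algebraMap (MvPolynomial T Ω) Q (X q))
  have hγ₀ : AlgebraicIndependent Ω γ₀ := by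
    have h1 := (algebraicIndependent_X (σ := T) (R := Ω)).map'
      (f := (IsScalarTower.toAlgHom Ω Q Λ).comp (IsScalarTower.toAlgHom Ω (MvPolynomial T Ω) Q))
      (by
        rw [AlgHom.coe_comp]
        exact (algebraMap Q Λ).injective.comp (IsFractionRing.injective (MvPolynomial T Ω) Q))
    exact h1
  let γ : (i : ι) → Matrix (Fin (n i + 1)) (Fin (n i + 1)) Λ :=
    fun i => Matrix.of fun r r' => γ₀ ⟨i, (r, r')⟩
  let gX : (i : ι) → Matrix (Fin (n i + 1)) (Fin (n i + 1)) (MvPolynomial T Ω) :=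
    fun i => Matrix.of fun r r' => X ⟨i, (r, r')⟩
  have hγ : AlgebraicIndependent Ω (fun q : (i : ι) × (Fin (n i + 1) × Fin (n i + 1)) =>
      γ q.1 q.2.1 q.2.2) := hγ₀
  have hsmγ : Smo (pb γ ρ ε (MvPolynomial.map (algebraMap Ω Λ) F')) Λ :=
    Gn.gn Ph.ph a b ι n d ρ ε hdε hd hn hsum Ω Λ F' hM (Gn.pns ι n Ω F' hS Λ) γ hγ
  let G : MvPolynomial (Sg a b) (MvPolynomial T Ω) := pb gX ρ ε (MvPolynomial.map C F')
  have hGγ : MvPolynomial.map (aeval γ₀ : MvPolynomial T Ω →ₐ[Ω] Λ).toRingHom G =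
      pb γ ρ ε (MvPolynomial.map (algebraMap Ω Λ) F') := by
    rw [pb_map, map_map]
    have h1 : (aeval γ₀ : MvPolynomial T Ω →ₐ[Ω] Λ).toRingHom.comp C = algebraMap Ω Λ := by
      ext c
      simp
    rw [h1]
    congr 1
    funext i
    ext r r'
    simp [gX, γ]
  obtain ⟨q, hq0, hq⟩ := Sp.sp a b T Ω G Λ γ₀ hγ₀ (by rw [hGγ]; exact hsmγ)
  -- a linear map over the base field
  have hdet : ∀ i, (gX i).det ≠ 0 := by
    intro i h
    apply Gn.det_ne hγ i
    have h1 : γ i = (gX i).map (aeval γ₀ : MvPolynomial T Ω →ₐ[Ω] Λ).toRingHom := by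
      ext r r'
      simp [gX, γ]
    rw [h1, ← RingHom.mapMatrix_apply, ← RingHom.map_det, h, map_zero]
  obtain ⟨t, ht⟩ := exists_rational (k := k₀)
    (mul_ne_zero hq0 (Finset.prod_ne_zero_iff.2 fun i (_ : i ∈ Finset.univ) => hdet i))
  rw [map_mul, map_prod] at ht
  have ht1 := left_ne_zero_of_mul ht
  have ht2 := right_ne_zero_of_mul ht
  rw [Finset.prod_ne_zero_iff] at ht2
  let g : (i : ι) → Matrix (Fin (n i + 1)) (Fin (n i + 1)) k₀ :=
    fun i => Matrix.of fun r r' => t ⟨i, (r, r')⟩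
  have hgev : ∀ i, (g i).map (algebraMap k₀ Ω) =
      (gX i).map (eval fun j => algebraMap k₀ Ω (t j)) := by
    intro i
    ext r r'
    simp [gX, g]
  have hgdet : ∀ i, (g i).det ≠ 0 := by
    intro i h
    apply ht2 i (Finset.mem_univ i)
    rw [RingHom.map_det, RingHom.mapMatrix_apply, ← hgev, ← RingHom.mapMatrix_apply,
      ← RingHom.map_det, h, map_zero]
  have hmap : MvPolynomial.map (algebraMap k₀ Ω) (pb g ρ ε F) =
      MvPolynomial.map (eval fun j => algebraMap k₀ Ω (t j)) G := by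
    rw [pb_map, pb_map, map_map]
    congr 1
    · funext i
      exact hgev i
    · have h1 : (eval fun j => algebraMap k₀ Ω (t j)).comp C = RingHom.id Ω := by
        ext c
        simp
      rw [h1, MvPolynomial.map_id]
  have hsmF : Smo (MvPolynomial.map (algebraMap k₀ Ω) (pb g ρ ε F)) Ω := by
    rw [hmap]
    exact hq _ ht1
  -- the points on the cover
  let e' : Af a b ≃ Fin (Fintype.card (Af a b)) := Fintype.equivFin _
  obtain ⟨L', hL', hpts⟩ := final_pts k₀ hk₀ ha hab e' (pb g ρ ε F)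
    (Ph.ph a b ι n d ρ ε hdε k₀ g F hF) (by
      intro z hz _
      obtain ⟨s, hs⟩ := hsmF z hz
      rw [pderiv_map, aeval_map_algebraMap] at hs
      exact ⟨s, hs⟩)
  refine ⟨L', hL', fun G₀ hG₀ => ?_⟩
  refine Tr.tr Lf.lf a b ι n d ρ ε hdε hε hn hd hsum N _ e e' k₀ Ω F hF g hgdet L'.toSubfield
    (fun c => L'.algebraMap_mem c) hpts G₀ hG₀ fun c hc => ?_
  by_contra hcon
  push Not at hcon
  apply hG₀
  apply dvd_descent (S := Ω)
  rw [← pdeh_map]
  refine Nl.nl ι n d N e Ω F' hn hd h2 hM hS c hc _ fun z hz hz' => ?_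
  have hev : ∀ H : MvPolynomial (Fin N) k₀,
      eval z (MvPolynomial.map (algebraMap k₀ Ω) H) = aeval z H := by
    intro H
    rw [MvPolynomial.eval_map, ← aeval_def]
  rw [hev]
  rw [pdeh_map, hev] at hz
  exact hcon z hz hz'

theorem finalC (k₀ : Type) [Field k₀] [CharZero k₀] (hk₀ : Y742.GG.FG k₀) {ι : Type}
    [Fintype ι] [DecidableEq ι] [Nonempty ι] (n d : ι → ℕ) (hn : ∀ i, n i ≠ 0) (hd : ∀ i, d i ≠ 0)
    (hd3 : ∀ i, d i ≤ 3) (heven : ∀ i, d i = 3 → Even (n i)) (h2 : ∀ i : ι, ∃ j, j ≠ i)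
    (hex : ¬ ∃ i, d i ≤ 2 ∧ n i = 1 ∧ ∀ j, j ≠ i → d j = 3) {N : ℕ} (e : PAf n ≃ Fin N)
    (F : MvPolynomial (Pc n) k₀) (hF : PHom d F)
    (hsm : ∀ z : Pc n → AlgebraicClosure k₀, PNZ z → aeval z F = 0 →
      ∃ s, aeval z (pderiv s F) ≠ 0)
    {X : Scheme.{0}} (sX : X ⟶ Spec (.of k₀))
    (f : (hypersurface (pdeh e F)).PartialMap X) (hf : IsDominant f.hom)
    (hfk : f.hom ≫ sX = f.domain.ι ≫ hypersurfaceStr (pdeh e F)) : PotentiallyDense sX :=
  dens_of_pts k₀ (pdeh e F) (finalC_pts k₀ hk₀ n d hn hd hd3 heven h2 hex e F hF hsm) sX f hf hfk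

end Pool.Agent.Y200.CY
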