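import Pool.Agent.Y200.CY.Stm5
import Pool.Agent.Y200.CY.Tr

/-! Irreducibility of the equation with parameters (helper620, project CY). -/

set_option autoImplicit false

namespace Pool.Agent.Y200.CY.Iri

open MvPolynomial Pool.Agent.Y200.CY

section nat

variable {ι : Type} {n m : ι → ℕ} {R S : Type*} [CommRing R] [CommRing S]

lemma lam_map (φ : R →+* S) (h : Hv n m → R) (w : Pc m → R) (s : Pc n) :
    φ (lam h w s) = lam (fun q => φ (h q)) (fun q => φ (w q)) s := by
  unfold lam
  split_ifs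
  · rfl
  · rw [map_sum]
    exact Finset.sum_congr rfl fun r _ => map_mul _ _ _

lemma lam_scale (l : ι → R) (h : Hv n m → R) (w : Pc m → R) (s : Pc n) :
    lam h (fun s => l s.1 * w s) s = l s.1 * lam h w s := by
  unfold lam
  split_ifs
  · rfl
  · rw [Finset.mul_sum]
    exact Finset.sum_congr rfl fun r _ => by ring

end nat

section shift

variable {ι : Type} [DecidableEq ι] {n m : ι → ℕ} {R : Type*} [CommRing R]

/-- the direction in which the linear subspace keeps a given point -/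
def nu (i : ι) (c : Fin (n i - m i)) (r₀ r₁ : Fin (m i + 1)) (w : Pc m → R) (q : Hv n m) : R :=
  if q = ⟨i, (c, r₀)⟩ then w ⟨i, r₁⟩ else if q = ⟨i, (c, r₁)⟩ then -w ⟨i, r₀⟩ else 0

lemma nu_sum (i : ι) (c : Fin (n i - m i)) (r₀ r₁ : Fin (m i + 1)) (hr : r₁ ≠ r₀)
    (w : Pc m → R) (i' : ι) (c' : Fin (n i' - m i')) :
    ∑ r, nu i c r₀ r₁ w ⟨i', (c', r)⟩ * w ⟨i', r⟩ = 0 := by
  by_cases hi : i' = i
  · subst hi
    by_cases hc : c' = c
    · subst hc
      have h1 : ∀ r, nu i' c' r₀ r₁ w ⟨i', (c', r)⟩ * w ⟨i', r⟩ =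
          (if r = r₀ then w ⟨i', r₁⟩ * w ⟨i', r₀⟩ else 0) +
            (if r = r₁ then -w ⟨i', r₀⟩ * w ⟨i', r₁⟩ else 0) := by
        intro r
        unfold nu
        by_cases h0 : r = r₀
        · subst h0
          rw [if_pos rfl, if_pos rfl, if_neg (fun h => hr h.symm), add_zero]
        · have h2 : (⟨i', (c', r)⟩ : Hv n m) ≠ ⟨i', (c', r₀)⟩ := by
            intro h
            simp only [Sigma.mk.injEq, heq_eq_eq, Prod.mk.injEq, true_and] at h
            exact h0 h
          rw [if_neg h2, if_neg h0, zero_add]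
          by_cases h3 : r = r₁
          · subst h3
            rw [if_pos rfl, if_pos rfl]
          · have h4 : (⟨i', (c', r)⟩ : Hv n m) ≠ ⟨i', (c', r₁)⟩ := by
              intro h
              simp only [Sigma.mk.injEq, heq_eq_eq, Prod.mk.injEq, true_and] at h
              exact h3 h
            rw [if_neg h4, if_neg h3, zero_mul]
      rw [Finset.sum_congr rfl fun r _ => h1 r, Finset.sum_add_distrib, Finset.sum_ite_eq',
        Finset.sum_ite_eq']
      simp only [Finset.mem_univ, if_true]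
      ring
    · refine Finset.sum_eq_zero fun r _ => ?_
      have h2 : ∀ r', (⟨i', (c', r)⟩ : Hv n m) ≠ ⟨i', (c, r')⟩ := by
        intro r' h
        simp only [Sigma.mk.injEq, heq_eq_eq, Prod.mk.injEq, true_and] at h
        exact hc h.1
      unfold nu
      rw [if_neg (h2 _), if_neg (h2 _), zero_mul]
  · refine Finset.sum_eq_zero fun r _ => ?_
    have h2 : ∀ q : Fin (n i - m i) × Fin (m i + 1), (⟨i', (c', r)⟩ : Hv n m) ≠ ⟨i, q⟩ := by
      intro q h
      exact hi (congrArg Sigma.fst h)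
    unfold nu
    rw [if_neg (h2 _), if_neg (h2 _), zero_mul]

lemma lam_shift (i : ι) (c : Fin (n i - m i)) (r₀ r₁ : Fin (m i + 1)) (hr : r₁ ≠ r₀)
    (h : Hv n m → R) (w : Pc m → R) (t : R) (s : Pc n) :
    lam (fun q => h q + t * nu i c r₀ r₁ w q) w s = lam h w s := by
  unfold lam
  split_ifs with hs
  · rfl
  · have h1 := nu_sum i c r₀ r₁ hr w s.1
      (⟨(s.2 : ℕ) - (m s.1 + 1), by have := s.2.isLt; omega⟩ : Fin (n s.1 - m s.1))
    simp only [add_mul, Finset.sum_add_distrib]
    rw [add_eq_left]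
    simp only [mul_assoc]
    rw [← Finset.mul_sum, h1, mul_zero]

end shift

section hom

variable {ι : Type} {n m : ι → ℕ} {N M : ℕ} {k Λ : Type} [Field k] [Field Λ] [Algebra k Λ]

/-- the parameters as constants -/
noncomputable def th (eI : Hv n m ⊕ Fin N ≃ Fin M) :
    MvPolynomial (Fin M) k ≃ₐ[k] MvPolynomial (Fin N) (MvPolynomial (Hv n m) k) :=
  (renameEquiv k (eI.symm.trans (Equiv.sumComm _ _))).trans (sumAlgEquiv k (Fin N) (Hv n m))

lemma th_inl (eI : Hv n m ⊕ Fin N ≃ Fin M) (q : Hv n m) :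
    th (k := k) eI (X (eI (.inl q))) = C (X q) := by
  unfold th
  rw [AlgEquiv.trans_apply, renameEquiv_apply, rename_X]
  simp [sumAlgEquiv_X_inr]

lemma th_inr (eI : Hv n m ⊕ Fin N ≃ Fin M) (j : Fin N) :
    th (k := k) eI (X (eI (.inr j))) = X j := by
  unfold th
  rw [AlgEquiv.trans_apply, renameEquiv_apply, rename_X]
  simp [sumAlgEquiv_X_inl]

lemma th_C (eI : Hv n m ⊕ Fin N ≃ Fin M) (c : k) :
    th (k := k) eI (C c) = C (C c) := by
  unfold th
  rw [AlgEquiv.trans_apply, renameEquiv_apply, rename_C, sumAlgEquiv_C_inl]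

/-- the substitution of the parameters -/
noncomputable def ph (eI : Hv n m ⊕ Fin N ≃ Fin M) (h : Hv n m → Λ) :
    MvPolynomial (Fin M) k →+* MvPolynomial (Fin N) Λ :=
  (MvPolynomial.map ((aeval h : MvPolynomial (Hv n m) k →ₐ[k] Λ) :
    MvPolynomial (Hv n m) k →+* Λ)).comp
    ((th eI : MvPolynomial (Fin M) k ≃ₐ[k] _) : MvPolynomial (Fin M) k →+* _)

lemma ph_inl (eI : Hv n m ⊕ Fin N ≃ Fin M) (h : Hv n m → Λ) (q : Hv n m) :
    ph (k := k) eI h (X (eI (.inl q))) = C (h q) := by
  unfold ph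
  simp [th_inl]

lemma ph_inr (eI : Hv n m ⊕ Fin N ≃ Fin M) (h : Hv n m → Λ) (j : Fin N) :
    ph (k := k) eI h (X (eI (.inr j))) = X j := by
  unfold ph
  simp [th_inr]

lemma ph_C (eI : Hv n m ⊕ Fin N ≃ Fin M) (h : Hv n m → Λ) (c : k) :
    ph (k := k) eI h (C c) = C (algebraMap k Λ c) := by
  unfold ph
  simp [th_C]

lemma unit_ex (eI : Hv n m ⊕ Fin N ≃ Fin M) (h : Hv n m → Λ) (hh : AlgebraicIndependent k h)
    (u : MvPolynomial (Fin M) k) (hu : IsUnit (ph eI h u)) :
    ∃ u' : MvPolynomial (Hv n m) k, th eI u = C u' := by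
  obtain ⟨r, -, hr⟩ := isUnit_iff_eq_C_of_isReduced.1 hu
  set f : MvPolynomial (Hv n m) k →+* Λ := ((aeval h : MvPolynomial (Hv n m) k →ₐ[k] Λ) :
    MvPolynomial (Hv n m) k →+* Λ) with hf
  have hfi : Function.Injective f := hh
  have hr' : MvPolynomial.map f (th eI u) = C r := hr
  refine ⟨coeff 0 (th eI u), map_injective f hfi ?_⟩
  rw [hr', map_C]
  have h1 := congrArg (coeff 0) hr'
  rw [coeff_map, coeff_zero_C] at h1
  rw [h1]

lemma eval_ex (eI : Hv n m ⊕ Fin N ≃ Fin M) (u : MvPolynomial (Fin M) k)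
    (u' : MvPolynomial (Hv n m) k) (hu : th eI u = C u') (y : Fin M → k) :
    eval y u = eval (fun q => y (eI (.inl q))) u' := by
  have h1 : u = (th eI).symm (C u') := by rw [← hu, AlgEquiv.symm_apply_apply]
  have h2 : ((eval y).comp (((th (k := k) eI).symm : MvPolynomial (Fin N)
      (MvPolynomial (Hv n m) k) ≃ₐ[k] MvPolynomial (Fin M) k) : MvPolynomial (Fin N)
      (MvPolynomial (Hv n m) k) →+* MvPolynomial (Fin M) k)).comp C =
      (eval (fun q => y (eI (.inl q))) : MvPolynomial (Hv n m) k →+* k) := by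
    refine ringHom_ext (fun c => ?_) (fun q => ?_)
    · show eval y ((th (k := k) eI).symm (C (C c))) = eval _ (C c)
      rw [← th_C, AlgEquiv.symm_apply_apply, eval_C, eval_C]
    · show eval y ((th (k := k) eI).symm (C (X q))) = eval _ (X q)
      rw [← th_inl, AlgEquiv.symm_apply_apply, eval_X, eval_X]
  rw [h1]
  exact congrFun (congrArg DFunLike.coe h2) u'

end hom

section const

variable {σ k : Type} [Fintype σ] [DecidableEq σ] [Field k] [Infinite k]

lemma const_of (u : MvPolynomial σ k)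
    (hu : ∀ (h : σ → k) (q : σ) (x : k), eval (Function.update h q x) u = eval h u) :
    ∃ c, u = C c := by
  have h1 : ∀ s : Finset σ, ∀ h h' : σ → k, (∀ q, q ∉ s → h q = h' q) → eval h u = eval h' u := by
    intro s
    induction s using Finset.induction_on with
    | empty =>
      intro h h' hh
      have : h = h' := funext fun q => hh q (by simp)
      rw [this]
    | insert a s ha ih =>
      intro h h' hh
      rw [← hu h a (h' a)]
      refine ih _ _ fun q hq => ?_
      by_cases hqa : q = a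
      · subst hqa
        simp
      · rw [Function.update_of_ne hqa]
        exact hh q (by simp [hqa, hq])
  refine ⟨eval 0 u, MvPolynomial.funext fun h => ?_⟩
  rw [eval_C]
  exact h1 Finset.univ h 0 fun q hq => absurd (Finset.mem_univ q) hq

end const

section main

variable {a b : ℕ} {ι : Type} [DecidableEq ι] {n m : ι → ℕ} {N M : ℕ} {k Λ : Type} [Field k]
  [Field Λ] [Algebra k Λ]

omit [DecidableEq ι] in
lemma ph_zz (e : Af a b ≃ Fin N) (eI : Hv n m ⊕ Fin N ≃ Fin M) (h : Hv n m → Λ) (s : Sg a b) :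
    ph eI h (zz k e eI s) = Dh.gg Λ e s := by
  unfold zz Dh.gg
  split_ifs
  · rw [ph_inr]
  · rw [map_one]

lemma ph_big (e : Af a b ≃ Fin N) (eI : Hv n m ⊕ Fin N ≃ Fin M)
    (g : (i : ι) → Matrix (Fin (m i + 1)) (Fin (m i + 1)) k) (ρ : Bl a b → ι) (ε : ι → ℕ)
    (F : MvPolynomial (Pc n) k) (h : Hv n m → Λ) :
    ph eI h (big e eI g ρ ε F) = deh e (pb (fun i => (g i).map (algebraMap k Λ)) ρ ε
      (cut h (map (algebraMap k Λ) F))) := by
  unfold big
  have h1 : (ph eI h).comp ((aeval (lam (fun q => X (eI (.inl q)))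
      (tg (fun i => (g i).map C) ρ ε (zz k e eI))) : MvPolynomial (Pc n) k →ₐ[k]
        MvPolynomial (Fin M) k) : MvPolynomial (Pc n) k →+* MvPolynomial (Fin M) k) =
      (((aeval (Dh.gg Λ e) : MvPolynomial (Sg a b) Λ →ₐ[Λ] MvPolynomial (Fin N) Λ) :
        MvPolynomial (Sg a b) Λ →+* MvPolynomial (Fin N) Λ).comp
      (((aeval (tg (fun i => ((g i).map (algebraMap k Λ)).map C) ρ ε X) :
        MvPolynomial (Pc m) Λ →ₐ[Λ] MvPolynomial (Sg a b) Λ) :
        MvPolynomial (Pc m) Λ →+* MvPolynomial (Sg a b) Λ).comp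
      (((aeval (lam (fun q => C (h q)) X) : MvPolynomial (Pc n) Λ →ₐ[Λ] MvPolynomial (Pc m) Λ) :
        MvPolynomial (Pc n) Λ →+* MvPolynomial (Pc m) Λ).comp (map (algebraMap k Λ))))) := by
    refine ringHom_ext (fun c => ?_) (fun s => ?_)
    · simp [ph_C]
    · simp only [RingHom.comp_apply, RingHom.coe_coe, aeval_X, map_X]
      rw [lam_map (ph eI h)]
      have h2 := lam_map ((aeval (tg (fun i => ((g i).map (algebraMap k Λ)).map C) ρ ε X) :
        MvPolynomial (Pc m) Λ →ₐ[Λ] MvPolynomial (Sg a b) Λ) :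
        MvPolynomial (Pc m) Λ →+* MvPolynomial (Sg a b) Λ) (fun q => C (h q)) X s
      simp only [RingHom.coe_coe, aeval_X] at h2
      rw [h2]
      have h3 := lam_map ((aeval (Dh.gg Λ e) : MvPolynomial (Sg a b) Λ →ₐ[Λ]
        MvPolynomial (Fin N) Λ) : MvPolynomial (Sg a b) Λ →+* MvPolynomial (Fin N) Λ)
        (fun q => (aeval (tg (fun i => ((g i).map (algebraMap k Λ)).map C) ρ ε X) :
          MvPolynomial (Pc m) Λ →ₐ[Λ] MvPolynomial (Sg a b) Λ) (C (h q)))
        (fun q => tg (fun i => ((g i).map (algebraMap k Λ)).map C) ρ ε X q) s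
      simp only [RingHom.coe_coe] at h3
      rw [h3]
      congr 1
      · funext q
        rw [ph_inl]
        simp
      · funext q
        rw [Tr.tg_map (ph eI h)]
        have h4 := Tr.tg_map ((aeval (Dh.gg Λ e) : MvPolynomial (Sg a b) Λ →ₐ[Λ]
          MvPolynomial (Fin N) Λ) : MvPolynomial (Sg a b) Λ →+* MvPolynomial (Fin N) Λ)
          ρ ε X (fun i => ((g i).map (algebraMap k Λ)).map C) q
        simp only [RingHom.coe_coe, aeval_X] at h4
        rw [h4]
        congr 1
        · funext i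
          ext r r' : 2
          simp [Matrix.map_apply, ph_C]
        · funext q'
          exact ph_zz e eI h q'
  exact congrFun (congrArg DFunLike.coe h1) F

lemma eval_big (e : Af a b ≃ Fin N) (eI : Hv n m ⊕ Fin N ≃ Fin M)
    (g : (i : ι) → Matrix (Fin (m i + 1)) (Fin (m i + 1)) k) (ρ : Bl a b → ι) (ε : ι → ℕ)
    (F : MvPolynomial (Pc n) k) (h : Hv n m → k) (ζ : Sg a b → k) (hζ : ∀ β, ζ (o0 β) = 1) :
    eval (fun l => Sum.elim h (fun j => ζ (e.symm j).1) (eI.symm l)) (big e eI g ρ ε F) =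
      eval (lam h (tg g ρ ε ζ)) F := by
  set y : Fin M → k := fun l => Sum.elim h (fun j => ζ (e.symm j).1) (eI.symm l) with hy
  unfold big
  rw [← aeval_eq_eval, ← aeval_eq_eval]
  show aeval y (aeval _ F) = aeval _ F
  rw [← AlgHom.comp_apply, comp_aeval]
  congr 2
  funext s
  have h2 := lam_map ((aeval y : MvPolynomial (Fin M) k →ₐ[k] k) : MvPolynomial (Fin M) k →+* k)
    (fun q => X (eI (.inl q))) (tg (fun i => (g i).map C) ρ ε (zz k e eI)) s
  simp only [RingHom.coe_coe, aeval_X] at h2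
  rw [h2]
  congr 1
  · funext q
    rw [hy]
    simp
  · funext q
    have h4 := Tr.tg_map ((aeval y : MvPolynomial (Fin M) k →ₐ[k] k) :
      MvPolynomial (Fin M) k →+* k) ρ ε (zz k e eI) (fun i => (g i).map C) q
    simp only [RingHom.coe_coe] at h4
    rw [h4]
    congr 1
    · funext i
      ext r r'
      simp [Matrix.map_apply]
    · funext q'
      unfold zz
      split_ifs with h5
      · rw [aeval_X, hy]
        simp
      · rw [map_one, not_not.1 h5, hζ]

/-- the open condition -/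
noncomputable def v0 (g : (i : ι) → Matrix (Fin (m i + 1)) (Fin (m i + 1)) k) (w : Pc m → k)
    (i : ι) : k := ∑ r, (g i)⁻¹ 0 r * w ⟨i, r⟩

/-- the linear sections with parameters on the zero set of a factor are contained in the
hypersurface -/
lemma partA [Fintype ι] [IsAlgClosed k] (hLF : StmLF) {d : ι → ℕ} (ρ : Bl a b → ι) (ε : ι → ℕ)
    (hε : ∀ i, ε i ≠ 0) (hsum : ∀ i, ∑ β with ρ β = i, (dg β - 1) = m i)
    (e : Af a b ≃ Fin N) (eI : Hv n m ⊕ Fin N ≃ Fin M) (F : MvPolynomial (Pc n) k)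
    (hF : PHom d F) (g : (i : ι) → Matrix (Fin (m i + 1)) (Fin (m i + 1)) k)
    (hg : ∀ i, (g i).det ≠ 0) (h : Hv n m → k)
    (hz : ∀ y : Fin M → k, (∀ q, y (eI (.inl q)) = h q) → eval y (big e eI g ρ ε F) = 0)
    (w : Pc m → k) (hw : ∀ i, v0 g w i ≠ 0) : eval (lam h w) F = 0 := by
  have hgi : ∀ i, g i * (g i)⁻¹ = 1 := fun i =>
    Matrix.mul_nonsing_inv _ (isUnit_iff_ne_zero.2 (hg i))
  set v : Pc m → k := fun s => (∑ r, (g s.1)⁻¹ s.2 r * w ⟨s.1, r⟩) / v0 g w s.1 with hv
  obtain ⟨ζ, hζ1, hζ2⟩ := hLF a b ι m ρ ε hε hsum k v (fun i => div_self (hw i))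
  have htg : ∀ s : Pc m, tg g ρ ε ζ s = (v0 g w s.1)⁻¹ * w s := by
    rintro ⟨i, r⟩
    have h2 := congrFun (congrArg (fun A => A.mulVec (fun r => w ⟨i, r⟩)) (hgi i)) r
    simp only [Matrix.one_mulVec, ← Matrix.mulVec_mulVec] at h2
    unfold tg
    simp only [hζ2, hv]
    rw [← h2]
    simp only [Matrix.mulVec, dotProduct]
    rw [Finset.mul_sum]
    refine Finset.sum_congr rfl fun r' _ => ?_
    rw [div_eq_mul_inv]
    ring
  have h1 := eval_big e eI g ρ ε F h ζ hζ1
  rw [hz _ (fun q => by simp)] at h1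
  have h2 : lam h (tg g ρ ε ζ) = fun s => (v0 g w s.1)⁻¹ * lam h w s := by
    funext s
    rw [← lam_scale (fun i => (v0 g w i)⁻¹) h w s]
    congr 1
    funext s'
    exact htg s'
  have h3 := Tr.scale (Ω := k) hF (fun i => (v0 g w i)⁻¹) (lam h w)
  rw [aeval_eq_eval, ← h2] at h3
  have h4 : eval (lam h (tg g ρ ε ζ)) F = (∏ i, (v0 g w i)⁻¹ ^ d i) * eval (lam h w) F := by
    rw [← aeval_eq_eval]
    exact h3
  rw [h4] at h1
  refine (mul_eq_zero.1 h1.symm).resolve_left ?_
  exact Finset.prod_ne_zero_iff.2 fun i _ => pow_ne_zero _ (inv_ne_zero (hw i))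

/-- if the linear sections with parameters on the zero set of a nonconstant polynomial are
contained in the hypersurface, the equation is zero -/
lemma partB [Fintype ι] [IsAlgClosed k] (hm : ∀ i, m i ≠ 0)
    (e : Af a b ≃ Fin N) (eI : Hv n m ⊕ Fin N ≃ Fin M) (F : MvPolynomial (Pc n) k)
    (ρ : Bl a b → ι) (ε : ι → ℕ)
    (g : (i : ι) → Matrix (Fin (m i + 1)) (Fin (m i + 1)) k)
    (hg : ∀ i, (g i).det ≠ 0) (u : MvPolynomial (Hv n m) k) (hu : ∀ c, u ≠ C c)
    (hA : ∀ h : Hv n m → k, eval h u = 0 → ∀ w : Pc m → k, (∀ i, v0 g w i ≠ 0) →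
      eval (lam h w) F = 0) : big e eI g ρ ε F = 0 := by
  have hinf : Infinite k := IsAlgClosed.instInfinite
  have hex : ∃ (h : Hv n m → k) (q : Hv n m) (x : k),
      eval (Function.update h q x) u ≠ eval h u := by
    by_contra hcon
    push Not at hcon
    obtain ⟨c, hc⟩ := const_of u hcon
    exact hu c hc
  obtain ⟨hs, ⟨i, c, r₀⟩, xs, hne⟩ := hex
  have : Nontrivial (Fin (m i + 1)) := Fin.nontrivial_iff_two_le.2 (by have := hm i; omega)
  obtain ⟨r₁, hr⟩ := exists_ne r₀
  -- the polynomial in one variable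
  set ν' : Hv n m → MvPolynomial (Hv n m ⊕ Pc m) k :=
    nu i c r₀ r₁ (fun s => X (Sum.inr s)) with hν'
  set Q : Polynomial (MvPolynomial (Hv n m ⊕ Pc m) k) :=
    aeval (fun q => Polynomial.C (X (Sum.inl q)) + Polynomial.X * Polynomial.C (ν' q)) u with hQ
  have hνy : ∀ (y : Hv n m ⊕ Pc m → k) (q : Hv n m), eval y (ν' q) =
      nu i c r₀ r₁ (fun s => y (Sum.inr s)) q := by
    intro y q
    rw [hν']
    unfold nu
    split_ifs <;> simp
  have hQy : ∀ (y : Hv n m ⊕ Pc m → k) (t : k), (Q.map (eval y)).eval t =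
      eval (fun q => y (Sum.inl q) + t * nu i c r₀ r₁ (fun s => y (Sum.inr s)) q) u := by
    intro y t
    have h1 : ((Polynomial.evalRingHom t).comp (Polynomial.mapRingHom (eval y))).comp
        ((aeval (fun q => Polynomial.C (X (Sum.inl q)) + Polynomial.X * Polynomial.C (ν' q)) :
          MvPolynomial (Hv n m) k →ₐ[k] Polynomial (MvPolynomial (Hv n m ⊕ Pc m) k)) :
          MvPolynomial (Hv n m) k →+* Polynomial (MvPolynomial (Hv n m ⊕ Pc m) k)) =
        eval (fun q => y (Sum.inl q) + t * nu i c r₀ r₁ (fun s => y (Sum.inr s)) q) := by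
      refine ringHom_ext (fun x => ?_) (fun q => ?_)
      · simp only [RingHom.comp_apply, RingHom.coe_coe, aeval_C, eval_C]
        rw [IsScalarTower.algebraMap_apply k (MvPolynomial (Hv n m ⊕ Pc m) k)
          (Polynomial (MvPolynomial (Hv n m ⊕ Pc m) k)), algebraMap_eq]
        simp
      · simp only [RingHom.comp_apply, RingHom.coe_coe, aeval_X, eval_X]
        simp only [Polynomial.coe_mapRingHom, Polynomial.map_add, Polynomial.map_mul,
          Polynomial.map_C, Polynomial.map_X, Polynomial.coe_evalRingHom, Polynomial.eval_add,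
          Polynomial.eval_mul, Polynomial.eval_C, Polynomial.eval_X, eval_X, hνy]
    exact congrFun (congrArg DFunLike.coe h1) u
  -- it is not constant
  set ys : Hv n m ⊕ Pc m → k := Sum.elim hs (fun s => if s = ⟨i, r₁⟩ then 1 else 0) with hys
  have hdeg : (Q.map (eval ys)).natDegree ≠ 0 := by
    intro h0
    have h1 := Polynomial.eq_C_of_natDegree_eq_zero h0
    have h2 : ∀ t t' : k, (Q.map (eval ys)).eval t = (Q.map (eval ys)).eval t' := by
      intro t t'
      rw [h1, Polynomial.eval_C, Polynomial.eval_C]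
    have h3 := h2 (xs - hs ⟨i, (c, r₀)⟩) 0
    rw [hQy, hQy] at h3
    apply hne
    convert! h3 using 2
    · congr 1
      funext q
      have hr0 : (⟨i, r₀⟩ : Pc m) ≠ ⟨i, r₁⟩ := by
        intro h
        simp only [Sigma.mk.injEq, heq_eq_eq, true_and] at h
        exact hr h.symm
      by_cases hq : q = ⟨i, (c, r₀)⟩
      · subst hq
        rw [Function.update_self]
        simp only [hys, Sum.elim_inl, Sum.elim_inr]
        unfold nu
        rw [if_pos rfl]
        beta_reduce
        rw [if_pos rfl]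
        ring
      · rw [Function.update_of_ne hq]
        simp only [hys, Sum.elim_inl, Sum.elim_inr]
        unfold nu
        rw [if_neg hq]
        beta_reduce
        rw [if_neg hr0]
        split_ifs with h4
        · ring
        · ring
    · congr 1
      funext q
      simp [hys]
  set j := (Q.map (eval ys)).natDegree with hj
  have hQj : Q.coeff j ≠ 0 := by
    intro h0
    have h1 : (Q.map (eval ys)).coeff j = 0 := by rw [Polynomial.coeff_map, h0, map_zero]
    have h2 : (Q.map (eval ys)).leadingCoeff = 0 := h1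
    rw [Polynomial.leadingCoeff_eq_zero] at h2
    apply hdeg
    rw [hj, h2, Polynomial.natDegree_zero]
  -- the equation with all the parameters
  set G : MvPolynomial (Hv n m ⊕ Pc m) k :=
    aeval (lam (fun q => X (Sum.inl q)) (fun s => X (Sum.inr s))) F with hG
  have hGy : ∀ y : Hv n m ⊕ Pc m → k, eval y G =
      eval (lam (fun q => y (Sum.inl q)) (fun s => y (Sum.inr s))) F := by
    intro y
    rw [← aeval_eq_eval, ← aeval_eq_eval]
    show aeval y (aeval _ F) = aeval _ F
    rw [← AlgHom.comp_apply, comp_aeval]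
    congr 2
    funext s
    have h2 := lam_map ((aeval y : MvPolynomial (Hv n m ⊕ Pc m) k →ₐ[k] k) :
      MvPolynomial (Hv n m ⊕ Pc m) k →+* k) (fun q => X (Sum.inl q)) (fun s => X (Sum.inr s)) s
    simp only [RingHom.coe_coe, aeval_X] at h2
    exact h2
  set D : MvPolynomial (Hv n m ⊕ Pc m) k :=
    ∏ i, ∑ r, C ((g i)⁻¹ 0 r) * X (Sum.inr ⟨i, r⟩) with hD
  have hDy : ∀ y : Hv n m ⊕ Pc m → k, eval y D = ∏ i, v0 g (fun s => y (Sum.inr s)) i := by
    intro y
    rw [hD, map_prod]
    refine Finset.prod_congr rfl fun i _ => ?_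
    rw [map_sum]
    unfold v0
    exact Finset.sum_congr rfl fun r _ => by rw [map_mul, eval_C, eval_X]
  have hD0 : D ≠ 0 := by
    refine Finset.prod_ne_zero_iff.2 fun i' _ h0 => ?_
    have hig : (g i')⁻¹ * g i' = 1 :=
      Matrix.nonsing_inv_mul _ (isUnit_iff_ne_zero.2 (hg i'))
    have h1 : ∀ r, (g i')⁻¹ 0 r = 0 := by
      intro r
      have h2 := congrArg (eval (Pi.single (Sum.inr ⟨i', r⟩) 1 : Hv n m ⊕ Pc m → k)) h0
      rw [map_sum, map_zero, Finset.sum_eq_single r] at h2
      · simpa using h2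
      · intro r' _ hr'
        rw [map_mul, eval_X, Pi.single_eq_of_ne, mul_zero]
        intro h
        simp only [Sum.inr.injEq, Sigma.mk.injEq, heq_eq_eq, true_and] at h
        exact hr' h
      · intro h
        exact absurd (Finset.mem_univ _) h
    have h2 := congrFun (congrFun hig 0) 0
    rw [Matrix.mul_apply, Matrix.one_apply_eq] at h2
    simp [h1] at h2
  have hprod : Q.coeff j * D * G = 0 := by
    refine MvPolynomial.funext fun y => ?_
    rw [map_mul, map_mul, map_zero]
    by_cases h1 : eval y (Q.coeff j) = 0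
    · rw [h1, zero_mul, zero_mul]
    by_cases h2 : eval y D = 0
    · rw [h2, mul_zero, zero_mul]
    have h3 : (Q.map (eval y)).degree ≠ 0 := by
      intro h4
      have h5 : j ≤ (Q.map (eval y)).natDegree :=
        Polynomial.le_natDegree_of_ne_zero (by rwa [Polynomial.coeff_map])
      have h6 := Polynomial.natDegree_eq_of_degree_eq_some (n := 0) h4
      omega
    obtain ⟨t, ht⟩ := IsAlgClosed.exists_root _ h3
    have h4 : eval (fun q => y (Sum.inl q) + t * nu i c r₀ r₁ (fun s => y (Sum.inr s)) q) u = 0 := by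
      rw [← hQy]
      exact ht
    have h5 : ∀ i, v0 g (fun s => y (Sum.inr s)) i ≠ 0 := by
      rw [hDy] at h2
      intro i' hi'
      exact h2 (Finset.prod_eq_zero (Finset.mem_univ i') hi')
    have h6 := hA _ h4 _ h5
    have h7 : lam (fun q => y (Sum.inl q) + t * nu i c r₀ r₁ (fun s => y (Sum.inr s)) q)
        (fun s => y (Sum.inr s)) = lam (fun q => y (Sum.inl q)) (fun s => y (Sum.inr s)) := by
      funext s
      exact lam_shift i c r₀ r₁ hr _ _ t s
    rw [h7, ← hGy] at h6
    rw [h6, mul_zero]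
  have hG0 : G = 0 := (mul_eq_zero.1 hprod).resolve_left (mul_ne_zero hQj hD0)
  -- the specialisation
  have hB : big e eI g ρ ε F = aeval (Sum.elim (fun q => X (eI (.inl q)))
      (tg (fun i => (g i).map C) ρ ε (zz k e eI))) G := by
    rw [hG, ← AlgHom.comp_apply, comp_aeval]
    unfold big
    congr 2
    funext s
    have h2 := lam_map ((aeval (Sum.elim (fun q => X (eI (.inl q)))
      (tg (fun i => (g i).map C) ρ ε (zz k e eI))) : MvPolynomial (Hv n m ⊕ Pc m) k →ₐ[k]
        MvPolynomial (Fin M) k) : MvPolynomial (Hv n m ⊕ Pc m) k →+* MvPolynomial (Fin M) k)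
      (fun q => X (Sum.inl q)) (fun s => X (Sum.inr s)) s
    simp only [RingHom.coe_coe, aeval_X, Sum.elim_inl, Sum.elim_inr] at h2
    exact h2.symm
  rw [hB, hG0, map_zero]

end main

theorem iri : StmLF → StmIRI := by
  intro hLF a b ι _ _ n m d ρ ε hε hm hmn hsum N M e eI k _ _ _ F hF g hg Λ _ _ h hh hirr
  rw [← ph_big e eI g ρ ε F h] at hirr
  have hB0 : big e eI g ρ ε F ≠ 0 := by
    intro h0
    rw [h0, map_zero] at hirr
    exact hirr.ne_zero rfl
  have key : ∀ u v : MvPolynomial (Fin M) k, big e eI g ρ ε F = u * v →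
      IsUnit (ph eI h u) → IsUnit u := by
    intro u v huv hu
    obtain ⟨u', hu'⟩ := unit_ex eI h hh u hu
    have hev := eval_ex eI u u' hu'
    have hu0 : u ≠ 0 := by
      rintro rfl
      exact hB0 (by rw [huv, zero_mul])
    by_cases hc : ∃ c, u' = C c
    · obtain ⟨c, rfl⟩ := hc
      have h1 : u = C c := (th (k := k) eI).injective (by rw [hu', th_C])
      rw [h1]
      have h2 : c ≠ 0 := by
        rintro rfl
        exact hu0 (by rw [h1, C_0])
      exact (isUnit_iff_ne_zero.2 h2).map C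
    · exfalso
      push Not at hc
      refine hB0 (partB hm e eI F ρ ε g hg u' hc fun h' hh' w hw => ?_)
      refine partA hLF ρ ε hε hsum e eI F hF g hg h' (fun y hy => ?_) w hw
      rw [huv, map_mul, hev y]
      have : (fun q => y (eI (.inl q))) = h' := funext hy
      rw [this, hh', zero_mul]
  refine ⟨fun hunit => hirr.not_isUnit (hunit.map _), fun u v huv => ?_⟩
  have h1 := hirr.isUnit_or_isUnit (a := ph eI h u) (b := ph eI h v) (by rw [← map_mul, huv])
  rcases h1 with h1 | h1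
  · exact Or.inl (key u v huv h1)
  · exact Or.inr (key v u (by rw [huv, mul_comm]) h1)

end Pool.Agent.Y200.CY.Iri
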