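import Pool.Agent.Y200.CY.Stm5
import Pool.Agent.Y200.CY.Tr

/-! Transfer of density of points, with parameters (helper76, after Tr.lean of helper48,
project CY). -/

set_option autoImplicit false

namespace Pool.Agent.Y200.CY.Tri

open MvPolynomial Pool.Agent.Y200.CY
open Pool.Agent.Y200.CY.Tr (gO tg_map hom_ex mem_L scale pdeh_val)

section nat

variable {ι : Type} {n m : ι → ℕ} {R S : Type*} [CommRing R] [CommRing S]

lemma lam_map (φ : R →+* S) (h : Hv n m → R) (w : Pc m → R) (s : Pc n) :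
    φ (lam h w s) = lam (fun q => φ (h q)) (fun q => φ (w q)) s := by
  unfold lam
  split_ifs with hs
  · rfl
  · rw [map_sum]
    simp only [map_mul]

end nat

section main

variable {a b : ℕ} {ι : Type} [DecidableEq ι] {n m : ι → ℕ} {k Ω : Type} [Field k]
  [Field Ω] [Algebra k Ω]

/-- the coordinates of the map as polynomials -/
noncomputable def AA {N M : ℕ} (e : Af a b ≃ Fin N) (eI : Hv n m ⊕ Fin N ≃ Fin M)
    (g : (i : ι) → Matrix (Fin (m i + 1)) (Fin (m i + 1)) k) (ρ : Bl a b → ι) (ε : ι → ℕ)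
    (s : Pc n) : MvPolynomial (Fin M) k :=
  lam (fun q => X (eI (.inl q))) (tg (fun i => (g i).map C) ρ ε (zz k e eI)) s

lemma AA_val {N M : ℕ} (e : Af a b ≃ Fin N) (eI : Hv n m ⊕ Fin N ≃ Fin M)
    (g : (i : ι) → Matrix (Fin (m i + 1)) (Fin (m i + 1)) k) (ρ : Bl a b → ι) (ε : ι → ℕ)
    (s : Pc n) (y : Fin M → Ω) :
    aeval y (AA e eI g ρ ε s) = lam (fun q => y (eI (.inl q)))
      (tg (gO Ω g) ρ ε (hpt e (fun j => y (eI (.inr j))))) s := by
  have h0 := lam_map ((aeval y : MvPolynomial (Fin M) k →ₐ[k] Ω) : MvPolynomial (Fin M) k →+* Ω)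
    (fun q => X (eI (.inl q))) (tg (fun i => (g i).map C) ρ ε (zz k e eI)) s
  refine h0.trans ?_
  have h3 : (fun q : Hv n m => ((aeval y : MvPolynomial (Fin M) k →ₐ[k] Ω) :
      MvPolynomial (Fin M) k →+* Ω) (X (eI (.inl q)))) = fun q => y (eI (.inl q)) := by
    funext q
    simp
  have h4 : (fun q : Pc m => ((aeval y : MvPolynomial (Fin M) k →ₐ[k] Ω) :
      MvPolynomial (Fin M) k →+* Ω) (tg (fun i => (g i).map C) ρ ε (zz k e eI) q)) =
      tg (gO Ω g) ρ ε (hpt e (fun j => y (eI (.inr j)))) := by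
    funext q
    have h := tg_map ((aeval y : MvPolynomial (Fin M) k →ₐ[k] Ω) : MvPolynomial (Fin M) k →+* Ω)
      ρ ε (zz k e eI) (fun i => (g i).map C) q
    refine h.trans ?_
    have h1 : (fun i => ((g i).map C).map
        ((aeval y : MvPolynomial (Fin M) k →ₐ[k] Ω) : MvPolynomial (Fin M) k →+* Ω)) =
          gO Ω g := by
      funext i
      ext r r'
      simp [gO, Matrix.map_apply]
    have h2 : (fun q => ((aeval y : MvPolynomial (Fin M) k →ₐ[k] Ω) :
        MvPolynomial (Fin M) k →+* Ω) (zz k e eI q)) =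
          hpt e (fun j => y (eI (.inr j))) := by
      funext q
      unfold zz hpt
      split_ifs with h
      · simp
      · simp
    rw [h1, h2]
  rw [h3, h4]

end main

theorem tri : StmLF → StmTRI := by
  intro hLF a b ι _ _ n m d ρ ε hε hm hmn hsum N N' M e₀ e eI k Ω _ _ _ _ F hF g hg L hL hy G hG hz
  -- the inverse matrices
  have hgi : ∀ i, g i * (g i)⁻¹ = 1 := fun i =>
    Matrix.mul_nonsing_inv _ (isUnit_iff_ne_zero.2 (hg i))
  have hig : ∀ i, (g i)⁻¹ * g i = 1 := fun i =>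
    Matrix.nonsing_inv_mul _ (isUnit_iff_ne_zero.2 (hg i))
  let emb : (i : ι) → Fin (m i + 1) → Fin (n i + 1) := fun i =>
    Fin.castLE (Nat.succ_le_succ (hmn i))
  have hemb : ∀ i, Function.Injective (emb i) := fun i => Fin.castLE_injective _
  let c : (i : ι) → Fin (n i + 1) → Ω := fun i r =>
    if h : (r : ℕ) < m i + 1 then algebraMap k Ω ((g i)⁻¹ 0 ⟨r, h⟩) else 0
  have hcemb : ∀ i r, c i (emb i r) = algebraMap k Ω ((g i)⁻¹ 0 r) := by
    intro i r
    have h1 : ((emb i r : Fin (n i + 1)) : ℕ) < m i + 1 := r.isLt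
    change (if h : ((emb i r : Fin (n i + 1)) : ℕ) < m i + 1 then
      algebraMap k Ω ((g i)⁻¹ 0 ⟨(emb i r : Fin (n i + 1)), h⟩) else 0) = _
    rw [dif_pos h1]
    rfl
  obtain ⟨z, hz1, hz2, hz3⟩ := hz c (by
    intro i h
    have h1 : ∀ r, (g i)⁻¹ 0 r = 0 := fun r => by
      have := congrFun h (emb i r)
      rw [hcemb] at this
      exact (map_eq_zero _).1 this
    have h2 := congrFun (congrFun (hig i) 0) 0
    rw [Matrix.mul_apply, Matrix.one_apply_eq] at h2
    simp [h1] at h2)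
  set w0 : Pc m → Ω := fun s => phpt e₀ z ⟨s.1, emb s.1 s.2⟩ with hw0
  set v0 : ι → Ω := fun i => ∑ r, algebraMap k Ω ((g i)⁻¹ 0 r) * w0 ⟨i, r⟩ with hv0
  have hv0ne : ∀ i, v0 i ≠ 0 := by
    intro i
    have h1 : v0 i = ∑ r, c i r * phpt e₀ z ⟨i, r⟩ := by
      rw [hv0]
      refine Fintype.sum_of_injective (emb i) (hemb i) _ _ ?_ ?_
      · intro r hr
        have h2 : ¬ (r : ℕ) < m i + 1 := by
          intro h
          exact hr ⟨⟨r, h⟩, rfl⟩
        have h3 : c i r = 0 := dif_neg h2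
        rw [h3, zero_mul]
      · intro r
        rw [hcemb]
    rw [h1]
    exact hz2 i
  set v : Pc m → Ω := fun s =>
    (∑ r, algebraMap k Ω ((g s.1)⁻¹ s.2 r) * w0 ⟨s.1, r⟩) / v0 s.1 with hv
  obtain ⟨ζ, hζ1, hζ2⟩ := hLF a b ι m ρ ε hε hsum Ω v (fun i => div_self (hv0ne i))
  have htg : ∀ s : Pc m, tg (gO Ω g) ρ ε ζ s = (v0 s.1)⁻¹ * w0 s := by
    rintro ⟨i, r⟩
    have h1 : (g i).map (algebraMap k Ω) * ((g i)⁻¹).map (algebraMap k Ω) = 1 := by
      rw [← Matrix.map_mul, hgi i, Matrix.map_one _ (map_zero _) (map_one _)]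
    have h2 := congrFun (congrArg (fun A => A.mulVec (fun r => w0 ⟨i, r⟩)) h1) r
    simp only [Matrix.one_mulVec, ← Matrix.mulVec_mulVec] at h2
    unfold tg
    simp only [hζ2, hv]
    rw [← h2]
    simp only [Matrix.mulVec, dotProduct, Matrix.map_apply]
    rw [Finset.mul_sum]
    refine Finset.sum_congr rfl fun r' _ => ?_
    rw [div_eq_mul_inv]
    ring
  -- the parameters
  let h0 : Hv n m → Ω := fun q =>
    if q.2.2 = 0 then phpt e₀ z ⟨q.1, ⟨m q.1 + 1 + q.2.1, by have := q.2.1.isLt; omega⟩⟩ else 0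
  have hph0 : ∀ i, phpt e₀ z ⟨i, 0⟩ = 1 := by
    intro i
    unfold phpt
    rw [dif_neg (by simp)]
  have hlam : ∀ s : Pc n, lam h0 (tg (gO Ω g) ρ ε ζ) s = (v0 s.1)⁻¹ * phpt e₀ z s := by
    rintro ⟨i, r⟩
    unfold lam
    by_cases hs : (r : ℕ) < m i + 1
    · rw [dif_pos hs, htg]
      rfl
    · rw [dif_neg hs]
      rw [Finset.sum_eq_single (0 : Fin (m i + 1))]
      · rw [htg]
        have h1 : w0 ⟨i, 0⟩ = 1 := by
          have h2 : emb i 0 = 0 := rfl
          change phpt e₀ z ⟨i, emb i 0⟩ = 1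
          rw [h2]
          exact hph0 i
        have h3 : h0 ⟨i, (⟨(r : ℕ) - (m i + 1), by have := r.isLt; omega⟩, 0)⟩ =
            phpt e₀ z ⟨i, r⟩ := by
          change (if (0 : Fin (m i + 1)) = 0 then
            phpt e₀ z ⟨i, ⟨m i + 1 + ((r : ℕ) - (m i + 1)), _⟩⟩ else 0) = _
          rw [if_pos rfl]
          congr 2
          apply Fin.ext
          change m i + 1 + ((r : ℕ) - (m i + 1)) = (r : ℕ)
          omega
        rw [h1, h3]
        ring
      · intro r' _ hr'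
        have h3 : h0 ⟨i, (⟨(r : ℕ) - (m i + 1), by have := r.isLt; omega⟩, r')⟩ = 0 :=
          if_neg hr'
        rw [h3, zero_mul]
      · intro h
        exact absurd (Finset.mem_univ _) h
  -- the polynomials
  set A : Pc n → MvPolynomial (Fin M) k := fun s => AA e eI g ρ ε s with hA
  set S : MvPolynomial (Fin M) k := ∏ i, A ⟨i, 0⟩ with hS
  set R : Fin N' → MvPolynomial (Fin M) k := fun l =>
    A (e₀.symm l).1 * ∏ j ∈ Finset.univ.erase (e₀.symm l).1.1, A ⟨j, 0⟩ with hR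
  have hne : ∀ y : Fin M → Ω, aeval y S ≠ 0 → ∀ i, aeval y (A ⟨i, 0⟩) ≠ 0 := by
    intro y h i h0
    apply h
    rw [hS, map_prod]
    exact Finset.prod_eq_zero (Finset.mem_univ i) h0
  have hRS : ∀ y : Fin M → Ω, aeval y S ≠ 0 → ∀ l, aeval y (R l) / aeval y S =
      aeval y (A (e₀.symm l).1) / aeval y (A ⟨(e₀.symm l).1.1, 0⟩) := by
    intro y h l
    have h1 : S = A ⟨(e₀.symm l).1.1, 0⟩ * ∏ j ∈ Finset.univ.erase (e₀.symm l).1.1, A ⟨j, 0⟩ :=
      (Finset.mul_prod_erase Finset.univ (fun j => A ⟨j, 0⟩) (Finset.mem_univ _)).symm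
    have h2 := h
    rw [h1, map_mul] at h2
    have h3 := right_ne_zero_of_mul h2
    rw [h1]
    simp only [hR, map_mul]
    exact mul_div_mul_right _ _ h3
  have hph : ∀ y : Fin M → Ω, aeval y S ≠ 0 →
      phpt e₀ (fun l => aeval y (R l) / aeval y S) =
        fun s => (aeval y (A ⟨s.1, 0⟩))⁻¹ * aeval y (A s) := by
    intro y h
    funext s
    unfold phpt
    split_ifs with hs
    · change aeval y (R (e₀ ⟨s, hs⟩)) / aeval y S = _
      rw [hRS y h, Equiv.symm_apply_apply, div_eq_mul_inv, mul_comm]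
    · obtain ⟨i, r⟩ := s
      have hr : r = 0 := not_not.1 hs
      subst hr
      exact (inv_mul_cancel₀ (hne y h i)).symm
  have hfval : ∀ y : Fin M → Ω, aeval y (big e eI g ρ ε F) =
      aeval (fun s => aeval y (A s)) F := by
    intro y
    change aeval y (aeval A F) = _
    rw [← AlgHom.comp_apply, comp_aeval]
  obtain ⟨D, H, hH⟩ := hom_ex (Ω := Ω) R S G
  -- the point above `z`
  set x' : Fin M → Ω := fun l => Sum.elim h0 (fun j => ζ (e.symm j).1) (eI.symm l) with hx'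
  have hx1 : (fun q : Hv n m => x' (eI (.inl q))) = h0 := by
    funext q
    simp only [hx', Equiv.symm_apply_apply, Sum.elim_inl]
  have hx : hpt e (fun j => x' (eI (.inr j))) = ζ := by
    funext s
    unfold hpt
    split_ifs with h
    · simp only [hx', Equiv.symm_apply_apply, Sum.elim_inr]
    · rw [not_not.1 h]
      exact (hζ1 _).symm
  have hAx : ∀ s, aeval x' (A s) = (v0 s.1)⁻¹ * phpt e₀ z s := by
    intro s
    rw [hA, AA_val, hx, hx1, hlam]
  have hAx0 : ∀ i, aeval x' (A ⟨i, 0⟩) = (v0 i)⁻¹ := by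
    intro i
    rw [hAx, hph0, mul_one]
  have hSx : aeval x' S ≠ 0 := by
    rw [hS, map_prod]
    refine Finset.prod_ne_zero_iff.2 fun i _ => ?_
    rw [hAx0]
    exact inv_ne_zero (hv0ne i)
  have hwx : (fun l => aeval x' (R l) / aeval x' S) = z := by
    funext l
    have h1 : phpt e₀ z (e₀.symm l).1 = z l := by
      unfold phpt
      rw [dif_pos (e₀.symm l).2]
      simp
    rw [hRS x' hSx, hAx, hAx0, h1]
    exact mul_div_cancel_left₀ _ (inv_ne_zero (hv0ne _))
  have hfx : aeval x' (big e eI g ρ ε F) = 0 := by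
    rw [hfval]
    have h1 : (fun s => aeval x' (A s)) = fun s : Pc n => (v0 s.1)⁻¹ * phpt e₀ z s := by
      funext s
      exact hAx s
    rw [h1, scale hF (fun i => (v0 i)⁻¹), ← pdeh_val, hz1, mul_zero]
  have hnd : ¬ big e eI g ρ ε F ∣ S * H := by
    rintro ⟨q, hq⟩
    have h1 := congrArg (aeval x') hq
    rw [map_mul, map_mul, hfx, zero_mul, hH x' hSx, hwx] at h1
    exact mul_ne_zero hSx (mul_ne_zero (pow_ne_zero _ hSx) hz3) h1
  obtain ⟨y, hyL, hy0, hyG⟩ := hy (S * H) hnd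
  rw [map_mul] at hyG
  have hSy := left_ne_zero_of_mul hyG
  have hHy := right_ne_zero_of_mul hyG
  refine ⟨fun l => aeval y (R l) / aeval y S, fun l => ?_, ?_, ?_⟩
  · exact L.div_mem (mem_L L hL y hyL _) (mem_L L hL y hyL _)
  · rw [pdeh_val, hph y hSy, scale hF (fun i => (aeval y (A ⟨i, 0⟩))⁻¹), ← hfval, hy0, mul_zero]
  · rw [hH y hSy] at hHy
    exact right_ne_zero_of_mul hHy

end Pool.Agent.Y200.CY.Tri
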