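import Pool.Agent.Y200.CY.Dl
import Pool.Agent.Y200.CY.Gen
import Pool.Agent.Y200.CY.Ber
import Pool.Agent.Y200.CY.Iri
import Pool.Agent.Y200.CY.Rel
import Pool.Agent.Y200.CY.Tri
import Pool.Agent.Y200.CY.Dhv
import Pool.Agent.Y200.CY.Co2
import Pool.Agent.Y200.CY.Cyc

/-!
# Smooth hypersurfaces of degree at most three in products of projective spaces
-/

set_option autoImplicit false

open MvPolynomial AlgebraicGeometry CategoryTheory

namespace Pool.Agent.Y200.CY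

open Pool.Agent.W572 Pool.Agent.W572.G

/-- the points, from the fibrations on the linear sections -/
theorem asm_pts (k₀ : Type) [Field k₀] [CharZero k₀] (hk₀ : Y742.GG.FG k₀) {ι : Type}
    [Fintype ι] [DecidableEq ι] [Nonempty ι] (n m d : ι → ℕ) (hn : ∀ i, n i ≠ 0)
    (hd : ∀ i, d i ≠ 0) (hm3 : ∀ i, d i = 3 → m i = 2) (hm0 : ∀ i, m i ≠ 0)
    (hmn : ∀ i, m i ≤ n i) (hmd : ∀ i, m i < n i → d i = 3) (h2 : ∀ i : ι, ∃ j, j ≠ i)
    {a b : ℕ} (ρ : Bl a b → ι) (ε : ι → ℕ) (hε : ∀ i, ε i ≠ 0)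
    (hdε : ∀ β, d (ρ β) * ε (ρ β) = dg β) (hsum : ∀ i, ∑ β with ρ β = i, (dg β - 1) = m i)
    (hb : b = 0 → 2 ≤ a) {N' : ℕ} (e₀ : PAf n ≃ Fin N')
    (F : MvPolynomial (Pc n) k₀) (hF : PHom d F)
    (hsm : ∀ z : Pc n → AlgebraicClosure k₀, PNZ z → aeval z F = 0 →
      ∃ s, aeval z (pderiv s F) ≠ 0)
    (hcells : ∀ (k₁ K : Type) [Field k₁] [CharZero k₁] [Field K] [Algebra k₁ K]
      [Algebra (AlgebraicClosure k₀) k₁]
      (g : (i : ι) → Matrix (Fin (m i + 1)) (Fin (m i + 1)) (AlgebraicClosure k₀)),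
      (∀ i, (g i).det ≠ 0) → ∀ h : Hv n m → k₁, AlgebraicIndependent (AlgebraicClosure k₀) h →
      ∀ F₁ : MvPolynomial (Sg a b) k₁, F₁ = pb (fun i => (g i).map
        (algebraMap (AlgebraicClosure k₀) k₁)) ρ ε (cut h (MvPolynomial.map
          (algebraMap (AlgebraicClosure k₀) k₁)
          (MvPolynomial.map (algebraMap k₀ (AlgebraicClosure k₀)) F))) →
      MHom F₁ → (∀ (E : Type) [Field E] [Algebra k₁ E], Smo F₁ E) → ∀ (N : ℕ)
      (e' : Af a b ≃ Fin N) (x' : Fin N → K), GPt (deh e' F₁) x' → Cyc.Cells k₁ K) :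
    Pts k₀ (pdeh e₀ F) := by
  classical
  set Ω := AlgebraicClosure k₀ with hΩ
  have hchar : CharZero Ω := charZero_of_injective_algebraMap (algebraMap k₀ Ω).injective
  set F' := MvPolynomial.map (algebraMap k₀ Ω) F with hF'
  have hM : PHom d F' := hF.map _
  have hS : PSm F' Ω := psm_of hF hd hsm
  -- there are at least two factors
  have hab2 : 2 ≤ a + b := by
    have h1 : ∀ i, ∃ β : Bl a b, ρ β = i := by
      intro i
      by_contra hcon
      push Not at hcon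
      apply hm0 i
      rw [← hsum i, Finset.sum_eq_zero]
      intro β hβ
      exact absurd (Finset.mem_filter.1 hβ).2 (hcon β)
    have h3 : 2 ≤ Fintype.card ι := by
      obtain ⟨i⟩ := (inferInstance : Nonempty ι)
      obtain ⟨j, hj⟩ := h2 i
      exact Fintype.one_lt_card_iff.2 ⟨j, i, hj⟩
    have h4 := Fintype.card_le_of_surjective ρ h1
    rw [Fintype.card_sum, Fintype.card_fin, Fintype.card_fin] at h4
    omega
  -- numberings
  let H : Type := Hv n m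
  let N : ℕ := Fintype.card (Af a b)
  let e' : Af a b ≃ Fin N := Fintype.equivFin _
  let M : ℕ := Fintype.card (H ⊕ Fin N)
  let eI : H ⊕ Fin N ≃ Fin M := Fintype.equivFin _
  -- generic linear sections
  let A := MvPolynomial H Ω
  let Λ₀ := AlgebraicClosure (FractionRing A)
  let η : H → Λ₀ := fun q => algebraMap (FractionRing A) Λ₀ (algebraMap A (FractionRing A) (X q))
  have hη : AlgebraicIndependent Ω η := by
    have h1 := (algebraicIndependent_X (σ := H) (R := Ω)).map'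
      (f := (IsScalarTower.toAlgHom Ω (FractionRing A) Λ₀).comp
        (IsScalarTower.toAlgHom Ω A (FractionRing A)))
      (by
        rw [AlgHom.coe_comp]
        exact (algebraMap (FractionRing A) Λ₀).injective.comp
          (IsFractionRing.injective A (FractionRing A)))
    exact h1
  have hcΛ : CharZero Λ₀ := charZero_of_injective_algebraMap (algebraMap Ω Λ₀).injective
  obtain ⟨g, hgdet, hgS⟩ := Dl.exists_g ρ ε hdε hd hm0 hsum k₀ Λ₀
    (cut η (MvPolynomial.map (algebraMap Ω Λ₀) F'))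
    (Ber.cph ι n m d Λ₀ η _ (hM.map _))
    (Ber.ber ι n m d hmn hd Ω Λ₀ F' hM (Gn.pns ι n Ω F' hS Λ₀) η hη)
  let gΩ : (i : ι) → Matrix (Fin (m i + 1)) (Fin (m i + 1)) Ω :=
    fun i => (g i).map (algebraMap k₀ Ω)
  have hgΩ : ∀ i, (gΩ i).det ≠ 0 := by
    intro i h
    apply hgdet i
    apply (algebraMap k₀ Ω).injective
    rw [map_zero, RingHom.map_det, RingHom.mapMatrix_apply]
    exact h
  have hgΛ : (fun i => (g i).map (algebraMap k₀ Λ₀)) =
      fun i => (gΩ i).map (algebraMap Ω Λ₀) := by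
    funext i
    rw [Matrix.map_map, IsScalarTower.algebraMap_eq k₀ Ω Λ₀]
    rfl
  rw [hgΛ] at hgS
  -- the universal equation
  let G : MvPolynomial (Sg a b) A :=
    pb (fun i => (gΩ i).map C) ρ ε (cut (fun q => X q) (MvPolynomial.map C F'))
  have hG : ∀ (E : Type) [Field E] [Algebra Ω E] (h : H → E),
      MvPolynomial.map (aeval h : A →ₐ[Ω] E).toRingHom G =
        pb (fun i => (gΩ i).map (algebraMap Ω E)) ρ ε
          (cut h (MvPolynomial.map (algebraMap Ω E) F')) := by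
    intro E _ _ h
    have h1 : (aeval h : A →ₐ[Ω] E).toRingHom.comp C = algebraMap Ω E := by
      ext c
      simp
    rw [pb_map, Dl.cut_map, map_map, h1]
    congr 1
    · funext i
      ext r r'
      simp
    · congr 1
      funext q
      simp
  have hMΛ : MHom (pb (fun i => (gΩ i).map (algebraMap Ω Λ₀)) ρ ε
      (cut η (MvPolynomial.map (algebraMap Ω Λ₀) F'))) :=
    Ph.ph a b ι m d ρ ε hdε Λ₀ _ _ (Ber.cph ι n m d Λ₀ η _ (hM.map _))
  have hirrΛ : Irreducible (deh e' (pb (fun i => (gΩ i).map (algebraMap Ω Λ₀)) ρ ε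
      (cut η (MvPolynomial.map (algebraMap Ω Λ₀) F')))) := by
    by_cases hb0 : b = 0
    · exact Irl.irl a b N Λ₀ e' _ hMΛ hgS (hb hb0)
    · exact Irp.irp a b N Λ₀ e' _ hMΛ hgS hb0
  have hirr : Irreducible (big e' eI gΩ ρ ε F') :=
    Iri.iri Lf.lf a b ι n m d ρ ε hε hm0 hmn hsum N M e' eI Ω F' hM gΩ hgΩ Λ₀ η hη hirrΛ
  obtain ⟨K, _, _, x, hx⟩ := Sym.gp Ω M (big e' eI gΩ ρ ε F') hirr
  have hcK : CharZero K := charZero_of_injective_algebraMap (algebraMap Ω K).injective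
  obtain ⟨hD1, hD2, hD3⟩ := Dhv.dhv Lf.lf a b ι n m d ρ ε hε hm0 hmn hsum N M e' eI Ω F' hM hS
    (fun i h => by rw [hmd i h]; norm_num) gΩ hgΩ
  -- all the variables occur
  have hspec := Dl.big_spec e' eI gΩ ρ ε F' η
  have hdeg : ∀ l, (big e' eI gΩ ρ ε F').degreeOf l ≠ 0 := by
    intro l
    obtain ⟨l', rfl⟩ := eI.surjective l
    rcases l' with q | j
    · exact hD1 q
    · intro h0
      have h1 : pderiv (eI (.inr j)) (big e' eI gΩ ρ ε F') = 0 := by
        apply pderiv_eq_zero_of_notMem_vars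
        intro h3
        rw [mem_vars] at h3
        obtain ⟨u, hu, hu'⟩ := h3
        have h4 := (degreeOf_le_iff.1 h0.le) u hu
        rw [Finsupp.mem_support_iff] at hu'
        omega
      have h3 := Gn.chain ((pderiv j : Derivation Λ₀ (MvPolynomial (Fin N) Λ₀)
        (MvPolynomial (Fin N) Λ₀)).restrictScalars Ω)
        (fun l => Sum.elim (fun q => C (η q)) X (eI.symm l)) (big e' eI gΩ ρ ε F')
      rw [hspec, Finset.sum_eq_zero] at h3
      · exact Dh.pderiv_ne (Dh.dh a b N Λ₀ e' _ hMΛ hgS j).1 h3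
      · intro l _
        obtain ⟨l', rfl⟩ := eI.surjective l
        rw [Equiv.symm_apply_apply]
        rcases l' with q | j'
        · rw [Sum.elim_inl, Derivation.restrictScalars_apply, pderiv_C, mul_zero]
        · rw [Sum.elim_inr, Derivation.restrictScalars_apply]
          by_cases h4 : j' = j
          · rw [h4, h1, map_zero, zero_mul]
          · rw [pderiv_X_of_ne h4, mul_zero]
  -- the parameters are algebraically independent
  obtain ⟨s₀⟩ : Nonempty (Af a b) := by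
    rcases Nat.eq_zero_or_pos a with h1 | h1
    · exact ⟨⟨.inr (⟨0, by omega⟩, 1), by intro h; cases h⟩⟩
    · exact ⟨⟨.inl (⟨0, h1⟩, 1), by intro h; cases h⟩⟩
  have hind : AlgebraicIndependent Ω (fun q : H => x (eI (.inl q))) := by
    have h1 := Ker.ai Ω K M _ x hx (eI (.inr (e' s₀))) (hdeg _)
    exact h1.comp (fun q : H => ⟨eI (.inl q), fun h => by
      have h4 := eI.injective h
      cases h4⟩) (fun q q' h => by
        have h4 := eI.injective (congrArg Subtype.val h)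
        exact Sum.inl.inj h4)
  obtain ⟨k₁, hk₁⟩ : ∃ k₁ : IntermediateField Ω K,
    k₁ = IntermediateField.adjoin Ω (Set.range fun q => x (eI (.inl q))) := ⟨_, rfl⟩
  have hmem : ∀ q : H, x (eI (.inl q)) ∈ k₁ := by
    intro q
    rw [hk₁]
    exact IntermediateField.subset_adjoin _ _ ⟨q, rfl⟩
  have hind₁ : AlgebraicIndependent Ω (fun q : H => (⟨x (eI (.inl q)), hmem q⟩ : k₁)) :=
    AlgebraicIndependent.of_comp (IsScalarTower.toAlgHom Ω k₁ K) hind
  have hE : ∀ (E : Type) [Field E] [Algebra k₁ E],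
      Smo (pb (fun i => (gΩ i).map (algebraMap Ω k₁)) ρ ε
        (cut (fun q => (⟨x (eI (.inl q)), hmem q⟩ : k₁))
          (MvPolynomial.map (algebraMap Ω k₁) F'))) E := by
    intro E _ _
    rw [← hG k₁]
    refine Dl.smo_ext G (aeval η : A →ₐ[Ω] Λ₀).toRingHom _ hη hind₁ ?_
    rw [hG Λ₀]
    exact hgS
  obtain ⟨J, hJ, L, hL, hgen⟩ := Co2.co hab2 hdε hsum hm3 hmd e' eI F' hM gΩ hgΩ x hx hdeg hD2
    hD3 k₁ hmem hk₁ hE fun x' hx' => by
      have hck : CharZero k₁ := charZero_of_injective_algebraMap (algebraMap Ω k₁).injective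
      exact hcells k₁ K gΩ hgΩ _ hind₁ _ rfl (Ph.ph a b ι m d ρ ε hdε k₁ _ _
        (Ber.cph ι n m d k₁ _ _ (hM.map _))) hE N e' x' hx'
  -- the points on the hypersurface with parameters
  have hbig : MvPolynomial.map (algebraMap k₀ Ω) (big e' eI g ρ ε F) = big e' eI gΩ ρ ε F' :=
    Dl.big_map _ _ _ _ _ _ _
  let σ := Finite.equivFin J
  obtain ⟨L', hL', hpts⟩ := pts3 k₀ hk₀ (big e' eI g ρ ε F) (by rw [hbig]; exact hirr)
    (x := x) (by rw [hbig]; exact hx) (fun i => L (σ.symm i)) (fun i => hL _) (by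
      rw [eq_top_iff, ← hgen]
      refine LieSubalgebra.lieSpan_mono ?_
      rintro D ⟨i, hi⟩
      exact ⟨σ i, by rw [Equiv.symm_apply_apply]; exact hi⟩)
  -- the transfer to the hypersurface
  refine ⟨L', hL', fun G₀ hG₀ => ?_⟩
  refine Tri.tri Lf.lf a b ι n m d ρ ε hε hm0 hmn hsum N N' M e₀ e' eI k₀ Ω F hF g hgdet
    L'.toSubfield (fun c => L'.algebraMap_mem c) hpts G₀ hG₀ fun c hc => ?_
  by_contra hcon
  push Not at hcon
  apply hG₀
  apply dvd_descent (S := Ω)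
  rw [← pdeh_map]
  refine Nl.nl ι n d N' e₀ Ω F' hn hd h2 hM hS c hc _ fun z hz hz' => ?_
  have hev : ∀ H : MvPolynomial (Fin N') k₀,
      eval z (MvPolynomial.map (algebraMap k₀ Ω) H) = aeval z H := by
    intro H
    rw [MvPolynomial.eval_map, ← aeval_def]
  rw [hev]
  rw [pdeh_map, hev] at hz
  exact hcon z hz hz'

/-- **Smooth hypersurfaces of low degree in products of projective spaces** -/
theorem finalE_pts (hUPD : StmUPD) (hTT : StmTT) (hLG : StmLG1) (hLID : StmLID) (hSEC : StmSEC)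
    (hCO1 : StmCO1) (k₀ : Type) [Field k₀] [CharZero k₀] (hk₀ : Y742.GG.FG k₀) {ι : Type}
    [Fintype ι] [DecidableEq ι] [Nonempty ι] (n d : ι → ℕ) (hn : ∀ i, n i ≠ 0) (hd : ∀ i, d i ≠ 0)
    (hd3 : ∀ i, d i ≤ 3) (hn2 : ∀ i, d i = 3 → 2 ≤ n i) (h2 : ∀ i : ι, ∃ j, j ≠ i)
    {N' : ℕ} (e₀ : PAf n ≃ Fin N') (F : MvPolynomial (Pc n) k₀) (hF : PHom d F)
    (hex : ∀ i, d i ≤ 2 → n i = 1 → (∀ j, j ≠ i → d j = 3) → d i = 2 ∧
      LinearIndependent k₀ (dd (⟨i, 0⟩ : Pc n) ⟨i, Fin.last _⟩ F))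
    (hsm : ∀ z : Pc n → AlgebraicClosure k₀, PNZ z → aeval z F = 0 →
      ∃ s, aeval z (pderiv s F) ≠ 0) : Pts k₀ (pdeh e₀ F) := by
  classical
  obtain ⟨m, hm⟩ : ∃ m : ι → ℕ, m = fun i => if d i = 3 then 2 else n i := ⟨_, rfl⟩
  have hm3 : ∀ i, d i = 3 → m i = 2 := fun i h => by rw [hm]; exact if_pos h
  have hm' : ∀ i, d i ≠ 3 → m i = n i := fun i h => by rw [hm]; exact if_neg h
  have hm0 : ∀ i, m i ≠ 0 := by
    intro i
    by_cases h : d i = 3
    · rw [hm3 i h]; norm_num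
    · rw [hm' i h]; exact hn i
  have hmn : ∀ i, m i ≤ n i := by
    intro i
    by_cases h : d i = 3
    · rw [hm3 i h]; exact hn2 i h
    · rw [hm' i h]
  have hmd : ∀ i, m i < n i → d i = 3 := by
    intro i h
    by_contra hcon
    rw [hm' i hcon] at h
    exact lt_irrefl _ h
  by_cases hcase : ∃ i, d i ≤ 2 ∧ n i = 1 ∧ ∀ j, j ≠ i → d j = 3
  · obtain ⟨i₀, h1, h3, h4⟩ := hcase
    obtain ⟨h5, h6⟩ := hex i₀ h1 h3 h4
    obtain ⟨b, ρ, ε, hb, hε, hdε, hsum⟩ := hCO1 ι m d i₀ (by rw [hm' i₀ (by omega), h3]) h5 h4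
      (fun i hi => hm3 i (h4 i hi)) (h2 i₀)
    refine asm_pts k₀ hk₀ n m d hn hd hm3 hm0 hmn hmd h2 ρ ε hε hdε hsum (fun h => absurd h hb) e₀
      F hF hsm ?_
    intro k₁ K _ _ _ _ _ g hg h hh F₁ hF₁ hM₁ hE₁ N e' x' hx'
    have hchar : CharZero (AlgebraicClosure k₀) :=
      charZero_of_injective_algebraMap (algebraMap k₀ (AlgebraicClosure k₀)).injective
    refine Cyc.cyc1 hUPD hTT hLG F₁ hM₁ hE₁ hb ?_ e' x' hx'
    rw [hF₁]
    exact hSEC b ι n m d ρ ε hdε hm0 hmn hsum i₀ h3 h5 h4 (fun i hi => hm3 i (h4 i hi))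
      (AlgebraicClosure k₀) k₁ _ (hF.map _) (hLID _ k₀ (AlgebraicClosure k₀) _ _ F h6) g hg h hh
  · obtain ⟨a, b, ρ, ε, ha, hab, hε, hdε, hsum⟩ := Ph.co ι m d hm0 hd hd3
      (fun i h => by rw [hm3 i h]; exact even_two) (by
        rintro ⟨i, h, h', h''⟩
        exact hcase ⟨i, h, by rw [← hm' i (by omega)]; exact h', h''⟩) inferInstance
    refine asm_pts k₀ hk₀ n m d hn hd hm3 hm0 hmn hmd h2 ρ ε hε hdε hsum (fun h => by omega) e₀
      F hF hsm ?_
    intro k₁ K _ _ _ _ _ g hg h hh F₁ hF₁ hM₁ hE₁ N e' x' hx'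
    exact Cyc.cyc ha F₁ hM₁ hE₁ e' x' hx'

theorem finalE (hUPD : StmUPD) (hTT : StmTT) (hLG : StmLG1) (hLID : StmLID) (hSEC : StmSEC)
    (hCO1 : StmCO1) (k₀ : Type) [Field k₀] [CharZero k₀] (hk₀ : Y742.GG.FG k₀) {ι : Type}
    [Fintype ι] [DecidableEq ι] [Nonempty ι] (n d : ι → ℕ) (hn : ∀ i, n i ≠ 0) (hd : ∀ i, d i ≠ 0)
    (hd3 : ∀ i, d i ≤ 3) (hn2 : ∀ i, d i = 3 → 2 ≤ n i) (h2 : ∀ i : ι, ∃ j, j ≠ i)
    {N : ℕ} (e : PAf n ≃ Fin N) (F : MvPolynomial (Pc n) k₀) (hF : PHom d F)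
    (hex : ∀ i, d i ≤ 2 → n i = 1 → (∀ j, j ≠ i → d j = 3) → d i = 2 ∧
      LinearIndependent k₀ (dd (⟨i, 0⟩ : Pc n) ⟨i, Fin.last _⟩ F))
    (hsm : ∀ z : Pc n → AlgebraicClosure k₀, PNZ z → aeval z F = 0 →
      ∃ s, aeval z (pderiv s F) ≠ 0)
    {X : Scheme.{0}} (sX : X ⟶ Spec (.of k₀))
    (f : (hypersurface (pdeh e F)).PartialMap X) (hf : IsDominant f.hom)
    (hfk : f.hom ≫ sX = f.domain.ι ≫ hypersurfaceStr (pdeh e F)) : PotentiallyDense sX :=
  dens_of_pts k₀ (pdeh e F) (finalE_pts hUPD hTT hLG hLID hSEC hCO1 k₀ hk₀ n d hn hd hd3 hn2 h2 e F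
    hF hex hsm) sX f hf hfk

end Pool.Agent.Y200.CY
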