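import Pool.Agent.Y200.CY.Stm2

/-! Statements, fourth part (helper200, project CY): hypersurfaces without any smoothness. -/

set_option autoImplicit false

namespace Pool.Agent.Y200.CY

open MvPolynomial Pool.Agent.Y200.CB

/-- The Newton polygon of `f` in the variables `p`, `q` is contained in the Newton polygon of the
curves of bidegree `(2, 2)`, of the plane cubics or of the curves `p² = Q(q)` with `Q` of degree
four. -/
def Edge {σ k : Type*} [CommSemiring k] (f : MvPolynomial σ k) (p q : σ) : Prop :=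
  (∀ m ∈ f.support, m p ≤ 2 ∧ m q ≤ 2) ∨ (∀ m ∈ f.support, m p + m q ≤ 3) ∨
    (∀ m ∈ f.support, 2 * m p + m q ≤ 4)

/-- curves which are quadratic in one variable -/
def StmQD : Prop := ∀ (Ω K : Type) [Field Ω] [CharZero Ω] [Field K] [Algebra Ω K]
  (L : IntermediateField Ω K), (∀ a : K, IsAlgebraic L a → a ∈ L) → ∀ u v : K,
  IntermediateField.adjoin L {u, v} = ⊤ → ¬ (u ∈ L ∧ v ∈ L) →
  ∀ g : MvPolynomial (Fin 2) L, g ≠ 0 → aeval ![u, v] g = 0 →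
  ((∀ m ∈ g.support, m 0 ≤ 2 ∧ m 1 ≤ 2) ∨ (∀ m ∈ g.support, 2 * m 0 + m 1 ≤ 4) ∨
    (∀ m ∈ g.support, m 0 + m 1 ≤ 3 ∧ m 0 ≤ 2)) → DCL L

/-- plane cubics, possibly reducible -/
def StmCT : Prop := ∀ (Ω K : Type) [Field Ω] [CharZero Ω] [Field K] [Algebra Ω K]
  (L : IntermediateField Ω K), (∀ a : K, IsAlgebraic L a → a ∈ L) → ∀ u v : K,
  IntermediateField.adjoin L {u, v} = ⊤ → ¬ (u ∈ L ∧ v ∈ L) →
  ∀ g : MvPolynomial (Fin 2) L, g ≠ 0 → aeval ![u, v] g = 0 →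
  (∀ m ∈ g.support, m 0 + m 1 ≤ 3) → DCL L ∨ CubAt L

/-- the fibres in the planes of the variables `p`, `q` -/
def StmED : Prop := ∀ (Ω K : Type) [Field Ω] [CharZero Ω] [Field K] [Algebra Ω K] (N : ℕ)
  (f : MvPolynomial (Fin N) Ω) (x : Fin N → K), GPt f x → ∀ p q : Fin N, p ≠ q →
  f.degreeOf p ≠ 0 → f.degreeOf q ≠ 0 → Edge f p q →
  ∃ L : IntermediateField Ω K, (∀ D : Derivation Ω K K, (∀ l, l ≠ p → l ≠ q → D (x l) = 0) →
    ∀ a ∈ L, D a = 0) ∧ (DCL L ∨ CubAt L)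

end Pool.Agent.Y200.CY
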