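import Pool.Agent.Y200.CY.Main3
import Pool.Agent.Y200.CY.Stm4
import Pool.Agent.Y200.CY.Lie
import Pool.Agent.Y200.CY.Sym
import Pool.Agent.Y200.CY.Dh
import Pool.Agent.Y200.CY.Qd
import Pool.Agent.Y200.CY.Ct
import Pool.Agent.Y200.CY.Ed

/-!
# Hypersurfaces whose equation has low degree in pairs of variables
-/

set_option autoImplicit false

open MvPolynomial AlgebraicGeometry CategoryTheory

namespace Pool.Agent.Y200.CY

open Pool.Agent.W572 Pool.Agent.W572.G

/-- The numerator of the derivative of the quotient of the partial derivatives of `f` in the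
variables of `e'` along the tangent vector field in the plane of the variables of `e`. -/
noncomputable def mixed {σ k : Type*} [CommRing k] (f : MvPolynomial σ k) (e e' : σ × σ) :
    MvPolynomial σ k :=
  (pderiv e.1 (pderiv e'.1 f) * pderiv e.2 f - pderiv e.2 (pderiv e'.1 f) * pderiv e.1 f) *
      pderiv e'.2 f -
    pderiv e'.1 f * (pderiv e.1 (pderiv e'.2 f) * pderiv e.2 f -
      pderiv e.2 (pderiv e'.2 f) * pderiv e.1 f)

/-- Two pairs of variables are linked if they have a variable in common, or if `f` does not divide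
`mixed f e e'`. -/
def Linked {σ k : Type*} [CommRing k] (f : MvPolynomial σ k) (e e' : σ × σ) : Prop :=
  (e.1 = e'.1 ∨ e.1 = e'.2 ∨ e.2 = e'.1 ∨ e.2 = e'.2) ∨ ¬ f ∣ mixed f e e'

section

variable {σ k E : Type*} [Field k] [Field E]

lemma Edge.map {f : MvPolynomial σ k} {p q : σ} (h : Edge f p q) (φ : k →+* E) :
    Edge (MvPolynomial.map φ f) p q := by
  rcases h with h | h | h
  · exact Or.inl fun m hm => h m (support_map_subset φ f hm)
  · exact Or.inr (Or.inl fun m hm => h m (support_map_subset φ f hm))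
  · exact Or.inr (Or.inr fun m hm => h m (support_map_subset φ f hm))

lemma mixed_map (f : MvPolynomial σ k) (e e' : σ × σ) (φ : k →+* E) :
    mixed (MvPolynomial.map φ f) e e' = MvPolynomial.map φ (mixed f e e') := by
  unfold mixed
  simp only [pderiv_map, map_mul, map_sub]

end

section

variable {Ω K : Type} [Field Ω] [Field K] [Algebra Ω K] {N : ℕ}
  {f : MvPolynomial (Fin N) Ω} {x : Fin N → K}

/-- the meaning of `mixed` -/
lemma mixed_ne (hx : GPt f x) (e e' : Fin N × Fin N) (he : e.1 ≠ e.2)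
    (h2 : aeval x (pderiv e'.2 f) ≠ 0) {T : Derivation Ω K K}
    (h3 : T (x e.1) = aeval x (pderiv e.2 f)) (h4 : T (x e.2) = - aeval x (pderiv e.1 f))
    (h5 : ∀ l, l ≠ e.1 → l ≠ e.2 → T (x l) = 0) (hm : ¬ f ∣ mixed f e e') :
    T (aeval x (pderiv e'.1 f) / aeval x (pderiv e'.2 f)) ≠ 0 := by
  have hT : ∀ g : MvPolynomial (Fin N) Ω, T (aeval x g) =
      aeval x (pderiv e.1 g) * aeval x (pderiv e.2 f) -
        aeval x (pderiv e.2 g) * aeval x (pderiv e.1 f) := by
    intro g
    rw [Lie.chain x T g]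
    rw [Finset.sum_eq_add e.1 e.2 he]
    · rw [h3, h4]; ring
    · rintro l _ ⟨hl1, hl2⟩
      rw [h5 l hl1 hl2, mul_zero]
    · intro h; exact absurd (Finset.mem_univ _) h
    · intro h; exact absurd (Finset.mem_univ _) h
  intro h0
  apply hm
  rw [← hx.zero_iff]
  have e1 : aeval x (pderiv e'.1 f) =
      aeval x (pderiv e'.1 f) / aeval x (pderiv e'.2 f) * aeval x (pderiv e'.2 f) := by
    rw [div_mul_cancel₀ _ h2]
  have e2 := congrArg T e1
  rw [T.leibniz, h0, smul_zero, add_zero, smul_eq_mul] at e2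
  have e3 : T (aeval x (pderiv e'.1 f)) * aeval x (pderiv e'.2 f) =
      aeval x (pderiv e'.1 f) * T (aeval x (pderiv e'.2 f)) := by
    rw [e2, div_mul_eq_mul_div, div_mul_cancel₀ _ h2]
  rw [hT, hT] at e3
  unfold mixed
  simp only [map_sub, map_mul]
  linear_combination e3

end

/-- **Hypersurfaces of low degree in pairs of variables** -/
theorem finalF_pts (k₀ : Type) [Field k₀] [CharZero k₀] (hk₀ : Y742.GG.FG k₀) {N : ℕ}
    (f : MvPolynomial (Fin N) k₀)
    (hf : Irreducible (MvPolynomial.map (algebraMap k₀ (AlgebraicClosure k₀)) f))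
    (hvar : ∀ l, f.degreeOf l ≠ 0) (S : Set (Fin N × Fin N))
    (hS : ∀ e ∈ S, e.1 ≠ e.2 ∧ Edge f e.1 e.2) (hcov : ∀ l, ∃ e ∈ S, l = e.1 ∨ l = e.2)
    (hconn : ∀ e e' : S, Relation.ReflTransGen (fun e e' : S => Linked f e.1 e'.1) e e') :
    Pts k₀ f := by
  classical
  set Ω := AlgebraicClosure k₀ with hΩ
  have hchar : CharZero Ω := charZero_of_injective_algebraMap (algebraMap k₀ Ω).injective
  set f' := MvPolynomial.map (algebraMap k₀ Ω) f with hf'
  obtain ⟨K, _, _, x, hx⟩ := Sym.gp Ω N f' hf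
  have hvar' : ∀ l, f'.degreeOf l ≠ 0 := by
    intro l
    rw [hf', degreeOf_eq_sup, support_map_of_injective _ (algebraMap k₀ Ω).injective,
      ← degreeOf_eq_sup]
    exact hvar l
  have hne : ∀ l, aeval x (pderiv l f') ≠ 0 := by
    intro l h
    rw [hx.zero_iff] at h
    exact Dh.not_dvd_pderiv (Dh.pderiv_ne (hvar' l)) h
  -- the vector fields
  choose T hT1 hT2 hT3 using fun e : S =>
    Sym.tv Ω K N f' x hx e.1.1 e.1.2 (hS e.1 e.2).1
  choose L hL1 hL2 using fun e : S =>
    Ed.ed Qd.qd (Ct.ct Qd.qd) Ω K N f' x hx e.1.1 e.1.2 (hS e.1 e.2).1 (hvar' _) (hvar' _) ((hS e.1 e.2).2.map _)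
  have hfin : Finite S := Subtype.finite
  let g := Finite.equivFin S
  refine pts3 k₀ hk₀ f hf hx (fun i => L (g.symm i)) (fun i => hL2 _) ?_
  rw [eq_top_iff, ← Lie.lie Ω K N f' x hx hne S (fun e => e.1.1) (fun e => e.1.2)
    (fun e => (hS e.1 e.2).1) T hT1 hT2 hT3 (fun l => ?_) (fun e e' => ?_)]
  · refine LieSubalgebra.lieSpan_mono ?_
    rintro D ⟨e, c, rfl⟩
    refine ⟨g e, fun a ha => ?_⟩
    rw [Equiv.symm_apply_apply] at ha
    rw [Derivation.smul_apply, hL1 e (T e) (fun l h1 h2 => hT3 e l h1 h2) a ha, smul_zero]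
  · obtain ⟨e, he, h⟩ := hcov l
    exact ⟨⟨e, he⟩, h⟩
  · refine Relation.ReflTransGen.mono (fun c d hcd => ?_) e e' (hconn e e')
    rcases hcd with h | h
    · exact Or.inl h
    · right
      refine mixed_ne hx c.1 d.1 (hS c.1 c.2).1 (hne _) (hT1 c) (hT2 c) (hT3 c) ?_
      intro h'
      apply h
      rw [hf', mixed_map] at h'
      exact dvd_descent (S := Ω) _ _ h'

end Pool.Agent.Y200.CY
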