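import Pool.Agent.Y200.CY.FinalC

/-! Hypersurfaces which are linear in the coordinates of a line (helper200, project CY). -/

set_option autoImplicit false

open MvPolynomial

namespace Pool.Agent.Y200.CY.Lin

open Pool.Agent.W572 Pool.Agent.W572.G

section

variable {ι : Type} {n : ι → ℕ} {k : Type} [Field k] {i₀ : ι}

/-- polynomials without the coordinates of the factor `i₀` -/
def Free (i₀ : ι) (P : MvPolynomial (Pc n) k) : Prop := ∀ m ∈ P.support, ∀ r, m ⟨i₀, r⟩ = 0

lemma free_pderiv {P : MvPolynomial (Pc n) k} (h : Free i₀ P) (s : Pc n) :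
    Free i₀ (pderiv s P) := by
  intro m hm r
  rw [mem_support_iff, coeff_pderiv] at hm
  have h1 := h _ (mem_support_iff.2 (left_ne_zero_of_mul hm)) r
  rw [Finsupp.add_apply] at h1
  omega

lemma free_eval [Fintype ι] {P : MvPolynomial (Pc n) k} (h : Free i₀ P) {z z' : Pc n → k}
    (hz : ∀ s : Pc n, s.1 ≠ i₀ → z s = z' s) : eval z P = eval z' P := by
  rw [eval_eq', eval_eq']
  refine Finset.sum_congr rfl fun m hm => ?_
  congr 1
  refine Finset.prod_congr rfl fun s _ => ?_
  by_cases hs : s.1 = i₀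
  · obtain ⟨i, r⟩ := s
    subst hs
    rw [h m hm r, pow_zero, pow_zero]
  · rw [hz s hs]

lemma free_coef {d : ι → ℕ} {F : MvPolynomial (Pc n) k} (hF : PHom d F) (hd : d i₀ = 1)
    (r : Fin (n i₀ + 1)) : Free i₀ (pderiv (⟨i₀, r⟩ : Pc n) F) := by
  classical
  intro m hm r'
  rw [mem_support_iff, coeff_pderiv] at hm
  have h1 := hF _ (mem_support_iff.2 (left_ne_zero_of_mul hm)) i₀
  rw [hd] at h1
  simp only [Finsupp.add_apply, Finset.sum_add_distrib] at h1
  have h2 : 1 ≤ ∑ x : Fin (n i₀ + 1),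
      (Finsupp.single (⟨i₀, r⟩ : Pc n) 1 : Pc n →₀ ℕ) ⟨i₀, x⟩ := by
    refine le_trans ?_ (Finset.single_le_sum (fun _ _ => Nat.zero_le _) (Finset.mem_univ r))
    rw [Finsupp.single_eq_same]
  have h3 : m ⟨i₀, r'⟩ ≤ ∑ x : Fin (n i₀ + 1), m ⟨i₀, x⟩ :=
    Finset.single_le_sum (f := fun x : Fin (n i₀ + 1) => m ⟨i₀, x⟩) (fun _ _ => Nat.zero_le _)
      (Finset.mem_univ r')
  omega

lemma exists_orth {l : ℕ} (hl : l ≠ 0) (v : Fin (l + 1) → k) :
    ∃ T : Fin (l + 1) → k, (∃ r, T r ≠ 0) ∧ ∑ r, T r * v r = 0 := by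
  classical
  have h0 : (0 : Fin (l + 1)) ≠ Fin.last l := by
    intro h
    have := congrArg Fin.val h
    rw [Fin.val_zero, Fin.val_last] at this
    exact hl this.symm
  by_cases h : v (Fin.last l) = 0
  · refine ⟨Pi.single (Fin.last l) 1, ⟨Fin.last l, by rw [Pi.single_eq_same]; exact one_ne_zero⟩, ?_⟩
    rw [Finset.sum_eq_single (Fin.last l)]
    · rw [h, mul_zero]
    · intro r _ hr
      rw [Pi.single_eq_of_ne hr, zero_mul]
    · intro h; exact absurd (Finset.mem_univ _) h
  · obtain ⟨T, hT⟩ : ∃ T : Fin (l + 1) → k,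
      T = fun r => if r = 0 then 1 else if r = Fin.last l then - (v 0 / v (Fin.last l)) else 0 :=
      ⟨_, rfl⟩
    have hT0 : T 0 = 1 := by rw [hT]; exact if_pos rfl
    have hT1 : T (Fin.last l) = - (v 0 / v (Fin.last l)) := by
      rw [hT]
      exact (if_neg h0.symm).trans (if_pos rfl)
    have hT2 : ∀ r, r ≠ 0 → r ≠ Fin.last l → T r = 0 := by
      intro r h1 h2
      rw [hT]
      exact (if_neg h1).trans (if_neg h2)
    refine ⟨T, ⟨0, by rw [hT0]; exact one_ne_zero⟩, ?_⟩
    rw [Finset.sum_eq_add (0 : Fin (l + 1)) (Fin.last l) h0]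
    · rw [hT0, hT1, one_mul, neg_mul, div_mul_cancel₀ _ h, add_neg_cancel]
    · rintro r _ ⟨h1, h2⟩
      rw [hT2 r h1 h2, zero_mul]
    · intro h; exact absurd (Finset.mem_univ _) h
    · intro h; exact absurd (Finset.mem_univ _) h

variable [Fintype ι] [DecidableEq ι] [CharZero k]

omit [DecidableEq ι] in
/-- Euler's formula for polynomials -/
lemma euler_poly {d : ι → ℕ} {F : MvPolynomial (Pc n) k} (hF : PHom d F) (hd : d i₀ = 1) :
    F = ∑ r, X (⟨i₀, r⟩ : Pc n) * pderiv (⟨i₀, r⟩ : Pc n) F := by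
  apply MvPolynomial.funext
  intro z
  rw [map_sum]
  have h := Nl.euler hF z i₀
  rw [hd, Nat.cast_one, one_mul] at h
  rw [← h]
  refine Finset.sum_congr rfl fun r _ => ?_
  rw [map_mul, eval_X]

/-- the coefficients have no common factor -/
lemma no_common [IsAlgClosed k] {N : ℕ} (e : PAf n ≃ Fin N) {d : ι → ℕ}
    {F : MvPolynomial (Pc n) k} (hF : PHom d F) (hs : PSm F k) (hd : d i₀ = 1) (hn : n i₀ ≠ 0)
    (c : MvPolynomial (Fin N) k) (hc : ∀ r, c ∣ pdeh e (pderiv (⟨i₀, r⟩ : Pc n) F)) :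
    IsUnit c := by
  by_contra hu
  obtain ⟨y, hy⟩ := Nl.exists_zero c hu
  choose q hq using hc
  obtain ⟨T, ⟨r₁, hr₁⟩, hT⟩ := exists_orth hn fun r => eval y (q r)
  let z : Pc n → k := fun s => if h : s.1 = i₀ then T (h ▸ s.2) else phpt e y s
  have hz0 : ∀ r, z ⟨i₀, r⟩ = T r := fun r => dif_pos rfl
  have hz1 : ∀ s : Pc n, s.1 ≠ i₀ → z s = phpt e y s := fun s h => dif_neg h
  have hval : ∀ P : MvPolynomial (Pc n) k, Free i₀ P → eval z P = eval y (pdeh e P) := by
    intro P hP
    rw [Nl.pdeh_val]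
    exact free_eval hP hz1
  have hA : ∀ r, eval z (pderiv (⟨i₀, r⟩ : Pc n) F) = 0 := by
    intro r
    rw [hval _ (free_coef hF hd r), hq r, map_mul, hy, zero_mul]
  have hF0 : eval z F = 0 := by
    rw [euler_poly hF hd (i₀ := i₀), map_sum]
    refine Finset.sum_eq_zero fun r _ => ?_
    rw [map_mul, hA, mul_zero]
  have hB : ∀ s : Pc n, s.1 ≠ i₀ → s.2 ≠ 0 → eval z (pderiv s F) = 0 := by
    intro s hs1 hs2
    have h1 : pderiv s F = ∑ r, X (⟨i₀, r⟩ : Pc n) * pderiv s (pderiv (⟨i₀, r⟩ : Pc n) F) := by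
      conv_lhs => rw [euler_poly hF hd (i₀ := i₀)]
      rw [map_sum]
      refine Finset.sum_congr rfl fun r _ => ?_
      rw [Derivation.leibniz, pderiv_X_of_ne (fun h => hs1 (by rw [← h])), smul_zero, add_zero,
        smul_eq_mul]
    have h2 : ∀ r, eval z (pderiv s (pderiv (⟨i₀, r⟩ : Pc n) F)) =
        eval y (pderiv (e ⟨s, hs2⟩) c) * eval y (q r) := by
      intro r
      have h3 := Nl.pderiv_pdeh e (pderiv (⟨i₀, r⟩ : Pc n) F) (e ⟨s, hs2⟩)
      rw [Equiv.symm_apply_apply] at h3
      rw [hval _ (free_pderiv (free_coef hF hd r) s), ← h3, hq r, Derivation.leibniz, map_add,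
        smul_eq_mul, smul_eq_mul, map_mul, map_mul, hy, zero_mul, zero_add, mul_comm]
    rw [h1, map_sum]
    have h4 : ∀ r, eval z (X (⟨i₀, r⟩ : Pc n) * pderiv s (pderiv (⟨i₀, r⟩ : Pc n) F)) =
        eval y (pderiv (e ⟨s, hs2⟩) c) * (T r * eval y (q r)) := by
      intro r
      rw [map_mul, eval_X, hz0, h2]
      ring
    rw [Finset.sum_congr rfl fun r _ => h4 r, ← Finset.mul_sum, hT, mul_zero]
  obtain ⟨s, hs'⟩ := hs z (fun i => by
    by_cases h : i = i₀
    · subst h
      exact ⟨r₁, by rw [hz0]; exact hr₁⟩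
    · exact ⟨0, by rw [hz1 _ h, Nl.phpt_zero]; exact one_ne_zero⟩)
  apply hs'
  rw [← RingHom.coe_coe, coe_aeval_eq_eval]
  by_cases h : s.1 = i₀
  · obtain ⟨i, r⟩ := s
    subst h
    exact hA r
  · by_cases h2 : s.2 = 0
    · obtain ⟨i, r⟩ := s
      have h3 := Nl.euler hF z i
      have h2' : r = 0 := h2
      subst h2'
      rw [hF0, mul_zero, Finset.sum_eq_single 0, hz1 _ h, Nl.phpt_zero, one_mul] at h3
      · exact h3
      · intro r' _ hr'
        rw [hB ⟨i, r'⟩ h hr', mul_zero]
      · intro h; exact absurd (Finset.mem_univ _) h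
    · exact hB s h h2

end

/-- **Hypersurfaces which are linear in the coordinates of a line** -/
theorem lin (k₀ : Type) [Field k₀] [CharZero k₀] {ι : Type} [Fintype ι] [DecidableEq ι]
    [Nonempty ι] (n d : ι → ℕ) (hn : ∀ i, n i ≠ 0) (hd : ∀ i, d i ≠ 0)
    (h2 : ∀ i : ι, ∃ j, j ≠ i) (i₀ : ι) (hn₀ : n i₀ = 1) (hd₀ : d i₀ = 1)
    {N : ℕ} (e : PAf n ≃ Fin N) (F : MvPolynomial (Pc n) k₀) (hF : PHom d F)
    (hsm : ∀ z : Pc n → AlgebraicClosure k₀, PNZ z → aeval z F = 0 →
      ∃ s, aeval z (pderiv s F) ≠ 0) : Pts k₀ (pdeh e F) := by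
  classical
  set Ω := AlgebraicClosure k₀ with hΩ
  have hchar : CharZero Ω := charZero_of_injective_algebraMap (algebraMap k₀ Ω).injective
  set F' := MvPolynomial.map (algebraMap k₀ Ω) F with hF'
  have hM : PHom d F' := hF.map _
  have hS : PSm F' Ω := psm_of hF hd hsm
  have hlast : ∀ r : Fin (n i₀ + 1), r = 0 ∨ r = Fin.last _ := by
    intro r
    have h1 := r.isLt
    by_cases h : r = 0
    · exact Or.inl h
    · right
      apply Fin.ext
      have h3 : (r : ℕ) ≠ 0 := fun h' => h (Fin.ext h')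
      rw [Fin.val_last]
      omega
  have hl0 : (Fin.last (n i₀)) ≠ 0 := by
    intro h
    have := congrArg Fin.val h
    rw [Fin.val_zero, Fin.val_last] at this
    exact hn i₀ this
  let l₁ : Fin N := e ⟨⟨i₀, Fin.last _⟩, hl0⟩
  let A : MvPolynomial (Fin N) k₀ := pdeh e (pderiv (⟨i₀, 0⟩ : Pc n) F)
  let B : MvPolynomial (Fin N) k₀ := pdeh e (pderiv (⟨i₀, Fin.last _⟩ : Pc n) F)
  have hA' : MvPolynomial.map (algebraMap k₀ Ω) A = pdeh e (pderiv (⟨i₀, 0⟩ : Pc n) F') := by
    rw [← pdeh_map, ← pderiv_map]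
  have hB' : MvPolynomial.map (algebraMap k₀ Ω) B =
      pdeh e (pderiv (⟨i₀, Fin.last _⟩ : Pc n) F') := by
    rw [← pdeh_map, ← pderiv_map]
  -- the affine equation
  have hf : pdeh e F' = MvPolynomial.map (algebraMap k₀ Ω) A +
      X l₁ * MvPolynomial.map (algebraMap k₀ Ω) B := by
    apply MvPolynomial.funext
    intro y
    rw [Nl.pdeh_val, hA', hB', map_add, map_mul, eval_X, Nl.pdeh_val, Nl.pdeh_val]
    have h := Nl.euler hM (phpt e y) i₀
    rw [hd₀, Nat.cast_one, one_mul, Finset.sum_eq_add (0 : Fin (n i₀ + 1)) (Fin.last _) hl0.symm]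
      at h
    · rw [← h, Nl.phpt_zero, one_mul]
      congr 2
      unfold phpt
      rw [dif_pos (show (⟨i₀, Fin.last _⟩ : Pc n).2 ≠ 0 from hl0)]
    · rintro r _ ⟨h1, h3⟩
      rcases hlast r with h4 | h4
      · exact absurd h4 h1
      · exact absurd h4 h3
    · intro h; exact absurd (Finset.mem_univ _) h
    · intro h; exact absurd (Finset.mem_univ _) h
  -- the coefficients do not contain the coordinate of the line
  have hupd : ∀ (y : Fin N → Ω) (τ : Ω) (r : Fin (n i₀ + 1)),
      eval (Function.update y l₁ τ) (pdeh e (pderiv (⟨i₀, r⟩ : Pc n) F')) =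
        eval y (pdeh e (pderiv (⟨i₀, r⟩ : Pc n) F')) := by
    intro y τ r
    rw [Nl.pdeh_val, Nl.pdeh_val]
    refine free_eval (free_coef hM hd₀ r) fun s hs => ?_
    unfold phpt
    split_ifs with h
    · rw [Function.update_of_ne]
      intro h3
      have h4 := e.injective h3
      apply hs
      exact congrArg (fun s : PAf n => s.1.1) h4
    · rfl
  have hrel : IsRelPrime (pdeh e F') (MvPolynomial.map (algebraMap k₀ Ω) B) := by
    intro c hc1 hc2
    refine no_common e hM hS hd₀ (hn i₀) c fun r => ?_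
    rcases hlast r with h | h
    · rw [h, ← hA']
      rw [hf] at hc1
      exact (dvd_add_left (hc2.mul_left _)).1 hc1
    · rw [h, ← hB']
      exact hc2
  refine ⟨⊥, inferInstance, fun G hG => ?_⟩
  by_contra hcon
  push Not at hcon
  apply hG
  apply dvd_descent (S := Ω)
  rw [← pdeh_map]
  -- the substitution
  obtain ⟨D, H, hH⟩ := Tr.hom_ex (Ω := Ω) (fun l => if l = l₁ then -A else X l * B) B G
  have hev : ∀ (y : Fin N → Ω) (P : MvPolynomial (Fin N) k₀),
      eval y (MvPolynomial.map (algebraMap k₀ Ω) P) = aeval y P := by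
    intro y P
    rw [MvPolynomial.eval_map, ← aeval_def]
  have hsub : ∀ y : Fin N → Ω, aeval y B ≠ 0 →
      (fun l => aeval y (if l = l₁ then -A else X l * B) / aeval y B) =
        Function.update y l₁ (-(aeval y A) / aeval y B) := by
    intro y hy
    funext l
    by_cases h : l = l₁
    · rw [if_pos h, h, Function.update_self, map_neg]
    · rw [if_neg h, Function.update_of_ne h, map_mul, aeval_X, mul_div_cancel_right₀ _ hy]
  have hzero : ∀ y : Fin N → Ω, aeval y B ≠ 0 →
      aeval (Function.update y l₁ (-(aeval y A) / aeval y B)) (pdeh e F) = 0 := by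
    intro y hy
    rw [← hev, ← pdeh_map, hf, map_add, map_mul, eval_X, Function.update_self, hA', hB', hupd,
      hupd, ← hA', ← hB', hev, hev, div_mul_cancel₀ _ hy, add_neg_cancel]
  have hH0 : H * B = 0 := by
    apply MvPolynomial.funext
    intro y
    rw [map_mul, map_zero]
    by_cases hy : eval y B = 0
    · rw [hy, mul_zero]
    · have hval : ∀ P : MvPolynomial (Fin N) k₀,
          aeval (fun l => algebraMap k₀ Ω (y l)) P = algebraMap k₀ Ω (eval y P) := by
        intro P
        have h1 : eval y P = aeval y P := by rw [← coe_aeval_eq_eval, RingHom.coe_coe]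
        rw [h1]
        exact aeval_algebraMap_apply (B := Ω) y P
      have hy' : aeval (fun l => algebraMap k₀ Ω (y l)) B ≠ 0 := by
        rw [hval]
        exact fun h => hy ((algebraMap k₀ Ω).injective (h.trans (map_zero _).symm))
      have h3 := hH _ hy'
      rw [hsub _ hy'] at h3
      have h4 : aeval (Function.update (fun l => algebraMap k₀ Ω (y l)) l₁
          (-(aeval (fun l => algebraMap k₀ Ω (y l)) A) /
            aeval (fun l => algebraMap k₀ Ω (y l)) B)) G = 0 := by
        refine hcon _ (fun l => ?_) (hzero _ hy')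
        by_cases h : l = l₁
        · rw [h, Function.update_self, hval, hval, ← map_neg, ← map_div₀]
          exact IntermediateField.algebraMap_mem _ _
        · rw [Function.update_of_ne h]
          exact IntermediateField.algebraMap_mem _ _
      rw [h4, mul_zero, hval] at h3
      rw [(algebraMap k₀ Ω).injective (h3.trans (map_zero _).symm), zero_mul]
  rcases mul_eq_zero.1 hH0 with hH1 | hB0
  · -- the numerator vanishes
    have h3 : pdeh e F' ∣ MvPolynomial.map (algebraMap k₀ Ω) G *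
        MvPolynomial.map (algebraMap k₀ Ω) B := by
      refine Nl.nl ι n d N e Ω F' hn hd h2 hM hS (fun i r => if r = 0 then 1 else 0) (fun i h => ?_)
        _ fun z hz _ => ?_
      · have := congrFun h 0
        simp at this
      · rw [map_mul]
        by_cases hz0 : aeval z B = 0
        · rw [hev z B, hz0, mul_zero]
        · have h4 : Function.update z l₁ (-(aeval z A) / aeval z B) = z := by
            rw [Function.update_eq_self_iff, div_eq_iff hz0]
            rw [hf, map_add, map_mul, eval_X, hev z A, hev z B] at hz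
            linear_combination -hz
          have h5 := hH z hz0
          rw [hsub z hz0, h4, hH1, map_zero] at h5
          rw [hev z G]
          rcases mul_eq_zero.1 h5.symm with h6 | h6
          · exact absurd h6 (pow_ne_zero _ hz0)
          · rw [h6, zero_mul]
    exact hrel.dvd_of_dvd_mul_right h3
  · -- the second coefficient vanishes
    have h3 : IsUnit (pdeh e F') := hrel dvd_rfl (by rw [hB0, map_zero]; exact dvd_zero _)
    exact h3.dvd

end Pool.Agent.Y200.CY.Lin
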