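import Pool.Agent.Y200.CY.Stm6
import Pool.Agent.Y200.CY.Gn
import Pool.Agent.Y200.CY.Tr
import Pool.Agent.Y200.CB.Conv

/-! Generic linear sections keep the linear independence of the second derivatives (project CY;
written by helper455). -/

set_option autoImplicit false

open MvPolynomial

namespace Pool.Agent.Y200.CY.Sec

/-! ### Points -/

/-- linearly independent polynomials at suitable points -/
theorem exists_pts {σ k : Type} [Field k] [Infinite k] (V : Fin 3 → MvPolynomial σ k)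
    (hV : LinearIndependent k V) :
    ∃ p : Fin 3 → σ → k, (Matrix.of fun l j => eval (p l) (V j)).det ≠ 0 := by
  classical
  let φ : (σ → k) → (Fin 3 → k) := fun p j => eval p (V j)
  have hspan : Submodule.span k (Set.range φ) = ⊤ := by
    by_contra hne
    obtain ⟨f, hf0, hf⟩ := Submodule.exists_le_ker_of_lt_top _ (lt_top_iff_ne_top.2 hne)
    apply hf0
    have h1 : ∀ v : Fin 3 → k, f v = ∑ j, v j * f (fun l => if j = l then 1 else 0) := by
      intro v
      conv_lhs => rw [LinearMap.pi_apply_eq_sum_univ f v]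
      simp [smul_eq_mul]
    have h2 : ∑ j, f (fun l => if j = l then 1 else 0) • V j = 0 := by
      refine MvPolynomial.funext fun p => ?_
      rw [map_sum, map_zero]
      have h3 := hf (Submodule.subset_span ⟨p, rfl⟩)
      rw [LinearMap.mem_ker, h1] at h3
      refine Eq.trans (Finset.sum_congr rfl fun j _ => ?_) h3
      rw [smul_eval, mul_comm]
    have h3 := Fintype.linearIndependent_iff.1 hV _ h2
    refine LinearMap.ext fun v => ?_
    rw [h1]
    simp only [h3, mul_zero, Finset.sum_const_zero, LinearMap.zero_apply]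
  obtain ⟨b, hb, hbs, hli⟩ := exists_linearIndependent k (Set.range φ)
  have hbt : ⊤ ≤ Submodule.span k (Set.range ((↑) : b → Fin 3 → k)) := by
    rw [Subtype.range_coe, hbs, hspan]
  let B := Module.Basis.mk hli hbt
  have hfin : Finite b := Module.Finite.finite_basis B
  have hfb : Fintype b := Fintype.ofFinite b
  have hcard : Fintype.card b = 3 := by
    rw [← Module.finrank_eq_card_basis B]
    simp
  let e : Fin 3 ≃ b := (Fintype.equivFinOfCardEq hcard).symm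
  choose p hp using fun l => hb (e l).2
  refine ⟨p, ?_⟩
  have h5 : LinearIndependent k (Matrix.of fun l j => eval (p l) (V j)).row := by
    have h6 := hli.comp e e.injective
    have h7 : (Matrix.of fun l j => eval (p l) (V j)).row = (↑) ∘ e := by
      funext l
      exact hp l
    rw [h7]
    exact h6
  exact ((Matrix.isUnit_iff_isUnit_det _).1
    (Matrix.linearIndependent_rows_iff_isUnit.1 h5)).ne_zero

/-- the second derivatives in the variables of a factor of degree two do not contain these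
variables -/
theorem blk {ι : Type} {n d : ι → ℕ} {k A : Type} [Field k] [CommRing A] [Algebra k A]
    {F : MvPolynomial (Pc n) k} (hF : PHom d F) {i₀ : ι} (hd : d i₀ = 2) (s s' : Fin (n i₀ + 1))
    {x y : Pc n → A} (hxy : ∀ s, s.1 ≠ i₀ → x s = y s) :
    aeval x (pderiv ⟨i₀, s⟩ (pderiv ⟨i₀, s'⟩ F)) =
      aeval y (pderiv ⟨i₀, s⟩ (pderiv ⟨i₀, s'⟩ F)) := by
  classical
  rw [aeval_def, aeval_def]
  refine eval₂_congr _ _ _ fun {q} {c} hq hc => hxy q fun h => ?_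
  rw [coeff_pderiv, coeff_pderiv] at hc
  have h1 := left_ne_zero_of_mul (left_ne_zero_of_mul hc)
  have h2 := hF _ (mem_support_iff.2 h1) i₀
  have h3 : ∀ t : Fin (n i₀ + 1), ∑ r, (Finsupp.single (⟨i₀, t⟩ : Pc n) 1 : Pc n →₀ ℕ) ⟨i₀, r⟩ = 1 := by
    intro t
    rw [Finset.sum_eq_single t]
    · simp
    · intro r _ hr
      rw [Finsupp.single_apply, if_neg]
      intro h'
      apply hr
      simpa using h'.symm
    · intro h'
      exact absurd (Finset.mem_univ _) h'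
  simp only [Finsupp.add_apply, Finset.sum_add_distrib, h3, hd] at h2
  have h4 : ∑ r, c ⟨i₀, r⟩ = 0 := by omega
  rw [Finset.sum_eq_zero_iff] at h4
  obtain ⟨i, r⟩ := q
  change i = i₀ at h
  subst h
  exact (Finsupp.mem_support_iff.1 hq) (h4 r (Finset.mem_univ _))

section data

variable {b : ℕ} {ι : Type} [DecidableEq ι] {m d : ι → ℕ} {ρ : Bl 1 b → ι} {ε : ι → ℕ}

/-- a factor `ℙ²` is covered by itself -/
theorem uniq3 (hdε : ∀ β, d (ρ β) * ε (ρ β) = dg β)
    (hsum : ∀ i, ∑ β with ρ β = i, (dg β - 1) = m i) {i : ι} (hd : d i = 3) (hm : m i = 2) :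
    ε i = 1 ∧ ∃ j : Fin b, (Finset.univ.filter fun β => ρ β = i) = {Sum.inr j} := by
  have h1 : ∀ β, ρ β = i → (∃ j, β = Sum.inr j) ∧ ε i = 1 := by
    intro β hβ
    have h := hdε β
    rw [hβ, hd] at h
    rcases β with i' | j
    · simp only [dg] at h
      omega
    · simp only [dg] at h
      exact ⟨⟨j, rfl⟩, by omega⟩
  have h2 : ∑ β with ρ β = i, (dg β - 1) = (Finset.univ.filter fun β => ρ β = i).card * 2 := by
    rw [Finset.sum_congr rfl (g := fun _ => 2), Finset.sum_const, smul_eq_mul]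
    intro β hβ
    obtain ⟨⟨j, rfl⟩, -⟩ := h1 β (Finset.mem_filter.1 hβ).2
    rfl
  have h3 := hsum i
  rw [h2, hm] at h3
  obtain ⟨β, hβ⟩ := Finset.card_eq_one.1 (show (Finset.univ.filter fun β => ρ β = i).card = 1 by
    omega)
  have h4 : ρ β = i := by
    have : β ∈ Finset.univ.filter fun β => ρ β = i := by rw [hβ]; exact Finset.mem_singleton_self _
    exact (Finset.mem_filter.1 this).2
  obtain ⟨⟨j, rfl⟩, h5⟩ := h1 β h4
  exact ⟨h5, j, hβ⟩

/-- the factor `ℙ¹` is covered by the line -/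
theorem uniq2 (hdε : ∀ β, d (ρ β) * ε (ρ β) = dg β)
    (hsum : ∀ i, ∑ β with ρ β = i, (dg β - 1) = m i) {i : ι} (hd : d i = 2) (hm : m i = 1) :
    ε i = 1 ∧ (Finset.univ.filter fun β => ρ β = i) = {Sum.inl 0} := by
  have h1 : ∀ β, ρ β = i → β = Sum.inl 0 ∧ ε i = 1 := by
    intro β hβ
    have h := hdε β
    rw [hβ, hd] at h
    rcases β with i' | j
    · simp only [dg] at h
      exact ⟨by rw [Subsingleton.elim i' 0], by omega⟩
    · simp only [dg] at h
      omega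
  have h3 := hsum i
  have hne : (Finset.univ.filter fun β => ρ β = i).Nonempty := by
    rw [Finset.nonempty_iff_ne_empty]
    intro h
    rw [h, Finset.sum_empty, hm] at h3
    omega
  obtain ⟨β, hβ⟩ := hne
  refine ⟨(h1 β (Finset.mem_filter.1 hβ).2).2, ?_⟩
  refine Finset.eq_singleton_iff_unique_mem.2 ⟨?_, fun β' hβ' => (h1 β' (Finset.mem_filter.1 hβ').2).1⟩
  rw [← (h1 β (Finset.mem_filter.1 hβ).2).1]
  exact hβ

variable {R : Type*} [CommRing R]

/-- the coefficients of the polynomials of the factors -/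
theorem fm_co (e : ℕ) (z : Sg 1 b → R) (s : Sg 1 b) : (fm e z (bl s)).coeff (ix s) = z s ^ e := by
  unfold fm
  rw [Polynomial.finsetSum_coeff, Finset.sum_eq_single s]
  · rw [Polynomial.coeff_C_mul_X_pow, if_pos rfl]
  · intro s' hs' hne
    rw [Polynomial.coeff_C_mul_X_pow, if_neg]
    intro h
    exact hne (Gn.ix_inj (Finset.mem_filter.1 hs').2 h.symm)
  · intro h
    exact (h (Finset.mem_filter.2 ⟨Finset.mem_univ _, rfl⟩)).elim

/-- the map to a factor with one covering factor -/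
theorem tau_co {i : ι} (hε : ε i = 1) (s : Sg 1 b)
    (hj : (Finset.univ.filter fun β => ρ β = i) = {bl s}) (z : Sg 1 b → R) (r : Fin (m i + 1))
    (hr : (r : ℕ) = ix s) : tau ρ ε z ⟨i, r⟩ = z s := by
  unfold tau pf
  simp only [hj, Finset.prod_singleton]
  rw [hr, fm_co, hε, pow_one]

end data

section solve

/-- solving the equations for a point -/
theorem solA {k : Type} [Field k] (m : ℕ) (hm : m = 2) (g : Matrix (Fin (m + 1)) (Fin (m + 1)) k)
    (hg : g.det ≠ 0) (v : Fin (m + 1) → k) :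
    ∃ ζ : Fin 3 → k, ∀ r : Fin (m + 1), ∑ r', g r r' * ζ (Fin.ofNat 3 r') = v r := by
  subst hm
  have hu : IsUnit g.det := isUnit_iff_ne_zero.2 hg
  refine ⟨(g⁻¹).mulVec v, fun r => ?_⟩
  have h2 : g.mulVec ((g⁻¹).mulVec v) = v := by
    rw [Matrix.mulVec_mulVec, Matrix.mul_nonsing_inv _ hu, Matrix.one_mulVec]
  have h3 := congrFun h2 r
  rw [Matrix.mulVec, dotProduct] at h3
  rw [← h3]
  refine Finset.sum_congr rfl fun r' _ => ?_
  have e : Fin.ofNat 3 (r' : ℕ) = r' := by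
    apply Fin.ext
    rw [Fin.val_ofNat]
    exact Nat.mod_eq_of_lt r'.isLt
  rw [e]

/-- solving the equations for a linear subspace -/
theorem solB {k : Type} [Field k] (m n : ℕ) (hm : m = 2) (hmn : m ≤ n) (p : Fin 3 → Fin (n + 1) → k)
    (hp : (Matrix.of fun l r : Fin 3 => p l (Fin.ofNat (n + 1) r)).det ≠ 0) (v : Fin 3 → k) :
    ∃ η : Fin (m + 1) → k, ∀ l : Fin 3,
      ∑ r, η r * p l (Fin.castLE (Nat.succ_le_succ hmn) r) = v l := by
  subst hm
  have hu := isUnit_iff_ne_zero.2 hp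
  refine ⟨((Matrix.of fun l r : Fin 3 => p l (Fin.ofNat (n + 1) r))⁻¹).mulVec v, fun l => ?_⟩
  have h2 := Matrix.mulVec_mulVec v (Matrix.of fun l r : Fin 3 => p l (Fin.ofNat (n + 1) r))
    (Matrix.of fun l r : Fin 3 => p l (Fin.ofNat (n + 1) r))⁻¹
  rw [Matrix.mul_nonsing_inv _ hu, Matrix.one_mulVec] at h2
  have h3 := congrFun h2 l
  rw [Matrix.mulVec, dotProduct] at h3
  rw [← h3]
  refine Finset.sum_congr rfl fun r _ => ?_
  have e : Fin.castLE (Nat.succ_le_succ hmn) r = Fin.ofNat (n + 1) (r : ℕ) := by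
    apply Fin.ext
    rw [Fin.val_ofNat, Fin.val_castLE]
    exact (Nat.mod_eq_of_lt (by have := r.isLt; omega)).symm
  rw [e, mul_comm, Matrix.of_apply]

variable {b : ℕ} {ι : Type} [DecidableEq ι] {n m d : ι → ℕ} {ρ : Bl 1 b → ι} {ε : ι → ℕ}

/-- three points in general position are on a linear section -/
theorem solve (hdε : ∀ β, d (ρ β) * ε (ρ β) = dg β) (hmn : ∀ i, m i ≤ n i)
    (hsum : ∀ i, ∑ β with ρ β = i, (dg β - 1) = m i) {i₀ : ι}
    (hd3 : ∀ i, i ≠ i₀ → d i = 3) (hm2 : ∀ i, i ≠ i₀ → m i = 2) {k : Type} [Field k]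
    (g : (i : ι) → Matrix (Fin (m i + 1)) (Fin (m i + 1)) k) (hg : ∀ i, (g i).det ≠ 0)
    (p : Fin 3 → Pc n → k)
    (hp : ∀ i, i ≠ i₀ →
      (Matrix.of fun l r : Fin 3 => p l ⟨i, Fin.ofNat (n i + 1) r⟩).det ≠ 0) :
    ∃ (h : Hv n m → k) (z : Fin 3 → Sg 1 b → k), ∀ l (s : Pc n), s.1 ≠ i₀ →
      lam h (fun s => tg g ρ ε (z l) s) s = p l s := by
  classical
  -- the points
  have h1 : ∀ l : Fin 3, ∀ i, i ≠ i₀ → ∃ ζ : Fin 3 → k, ∀ r : Fin (m i + 1),
      ∑ r', g i r r' * ζ (Fin.ofNat 3 r') =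
        p l ⟨i, Fin.castLE (Nat.succ_le_succ (hmn i)) r⟩ := fun l i hi =>
    solA (m i) (hm2 i hi) (g i) (hg i) fun r => p l ⟨i, Fin.castLE (Nat.succ_le_succ (hmn i)) r⟩
  choose! ζ hζ using h1
  -- the parameters
  have h2 : ∀ i, i ≠ i₀ → ∀ c : Fin (n i - m i), ∃ η : Fin (m i + 1) → k, ∀ l : Fin 3,
      ∑ r, η r * p l ⟨i, Fin.castLE (Nat.succ_le_succ (hmn i)) r⟩ =
        p l ⟨i, ⟨m i + 1 + c, by have := c.isLt; omega⟩⟩ := fun i hi c =>
    solB (m i) (n i) (hm2 i hi) (hmn i) (fun l r => p l ⟨i, r⟩) (hp i hi) fun l =>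
      p l ⟨i, ⟨m i + 1 + c, by have := c.isLt; omega⟩⟩
  choose! η hη using h2
  obtain ⟨z, hz0⟩ : ∃ z : Fin 3 → Sg 1 b → k, ∀ l j t, z l (.inr (j, t)) = ζ l (ρ (.inr j)) t :=
    ⟨fun l => Sum.elim (fun _ => 0) fun s => ζ l (ρ (.inr s.1)) s.2, fun l j t => rfl⟩
  have hz : ∀ l i, i ≠ i₀ → ∀ r : Fin (m i + 1), tg g ρ ε (z l) ⟨i, r⟩ =
      p l ⟨i, Fin.castLE (Nat.succ_le_succ (hmn i)) r⟩ := by
    intro l i hi r
    rw [← hζ l i hi r]
    obtain ⟨hε, j, hj⟩ := uniq3 hdε hsum (hd3 i hi) (hm2 i hi)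
    have hρ : ρ (.inr j) = i := by
      have : Sum.inr j ∈ Finset.univ.filter fun β => ρ β = i := by
        rw [hj]
        exact Finset.mem_singleton_self _
      exact (Finset.mem_filter.1 this).2
    unfold tg
    refine Finset.sum_congr rfl fun (r' : Fin (m i + 1)) _ => ?_
    have h4 := hm2 i hi
    have h5 : (r' : ℕ) < m i + 1 := r'.isLt
    have h6 : (r' : ℕ) = ix (.inr (j, Fin.ofNat 3 (r' : ℕ)) : Sg 1 b) := by
      show (r' : ℕ) = ((Fin.ofNat 3 (r' : ℕ) : Fin 3) : ℕ)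
      rw [Fin.val_ofNat]
      exact (Nat.mod_eq_of_lt (by omega)).symm
    have h7 := tau_co (R := k) hε (.inr (j, Fin.ofNat 3 (r' : ℕ))) hj (z l) r' h6
    rw [hz0, hρ] at h7
    exact congrArg (fun y => g i r r' * y) h7
  refine ⟨fun q => η q.1 q.2.1 q.2.2, z, ?_⟩
  rintro l ⟨i, t⟩ hi
  change i ≠ i₀ at hi
  by_cases hs : (t : ℕ) < m i + 1
  · have h3 : lam (fun q : Hv n m => η q.1 q.2.1 q.2.2) (fun s => tg g ρ ε (z l) s) ⟨i, t⟩ =
        tg g ρ ε (z l) ⟨i, ⟨t, hs⟩⟩ := by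
      unfold lam
      rw [dif_pos hs]
    rw [h3, hz l i hi]
    rfl
  · have h8 : (t : ℕ) < n i + 1 := t.isLt
    have h9 := hmn i
    have h10 : (t : ℕ) - (m i + 1) < n i - m i := by omega
    have h3 : lam (fun q : Hv n m => η q.1 q.2.1 q.2.2) (fun s => tg g ρ ε (z l) s) ⟨i, t⟩ =
        ∑ r, η i ⟨(t : ℕ) - (m i + 1), h10⟩ r * tg g ρ ε (z l) ⟨i, r⟩ := by
      unfold lam
      rw [dif_neg hs]
    have h4 := hη i hi ⟨(t : ℕ) - (m i + 1), h10⟩ l
    rw [h3]
    simp only [hz l i hi]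
    rw [h4]
    have h5 : (⟨m i + 1 + ((t : ℕ) - (m i + 1)), by omega⟩ : Fin (n i + 1)) = t := by
      apply Fin.ext
      show m i + 1 + ((t : ℕ) - (m i + 1)) = t
      omega
    exact congrArg (fun y => p l ⟨i, y⟩) h5

end solve

/-- linear maps and homomorphisms -/
theorem lam_map' {ι : Type} {n m : ι → ℕ} {R R' : Type*} [CommRing R] [CommRing R'] (φ : R →+* R')
    (h : Hv n m → R) (w : Pc m → R) (s : Pc n) :
    φ (lam h w s) = lam (fun q => φ (h q)) (fun s => φ (w s)) s := by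
  unfold lam
  split_ifs with hs
  · rfl
  · rw [map_sum]
    exact Finset.sum_congr rfl fun r _ => map_mul _ _ _

section core

variable {b : ℕ} {ι : Type} [Fintype ι] [DecidableEq ι] {n m d : ι → ℕ} {ρ : Bl 1 b → ι}
  {ε : ι → ℕ}

/-- points in general position -/
theorem pts {k : Type} [Field k] [Infinite k] (i₀ : ι) (hn2 : ∀ i, i ≠ i₀ → 2 ≤ n i)
    (V : Fin 3 → MvPolynomial (Pc n) k) (hV : LinearIndependent k V) :
    ∃ p : Fin 3 → Pc n → k, (Matrix.of fun l j => eval (p l) (V j)).det ≠ 0 ∧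
      ∀ i, i ≠ i₀ →
        (Matrix.of fun l r : Fin 3 => p l ⟨i, Fin.ofNat (n i + 1) r⟩).det ≠ 0 := by
  classical
  let A : Matrix (Fin 3) (Fin 3) (MvPolynomial (Fin 3 × Pc n) k) :=
    Matrix.of fun l j => rename (fun s => (l, s)) (V j)
  let B : ι → Matrix (Fin 3) (Fin 3) (MvPolynomial (Fin 3 × Pc n) k) :=
    fun i => Matrix.of fun l r => X (l, ⟨i, Fin.ofNat (n i + 1) r⟩)
  have hAe : ∀ x : Fin 3 × Pc n → k, (eval x).mapMatrix A =
      Matrix.of fun l j => eval (fun s => x (l, s)) (V j) := by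
    intro x
    ext l j
    show eval x (rename (fun s => (l, s)) (V j)) = eval (fun s => x (l, s)) (V j)
    rw [eval_rename]
    rfl
  have hBe : ∀ (x : Fin 3 × Pc n → k) (i : ι), (eval x).mapMatrix (B i) =
      Matrix.of fun l r : Fin 3 => x (l, ⟨i, Fin.ofNat (n i + 1) r⟩) := by
    intro x i
    ext l j
    exact eval_X _
  have hA : A.det ≠ 0 := by
    obtain ⟨p, hp⟩ := exists_pts V hV
    intro h
    apply hp
    have h1 := hAe fun s => p s.1 s.2
    rw [← h1, ← RingHom.map_det, h, map_zero]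
  have hB : ∀ i, i ≠ i₀ → (B i).det ≠ 0 := by
    intro i hi h
    have h1 := hBe (fun s => if (s.2.2 : ℕ) = s.1 then (1 : k) else 0) i
    have h2 : (Matrix.of fun l r : Fin 3 =>
        if ((Fin.ofNat (n i + 1) (r : ℕ) : Fin (n i + 1)) : ℕ) = l then (1 : k) else 0) = 1 := by
      ext l r
      rw [Matrix.of_apply, Matrix.one_apply, Fin.val_ofNat,
        Nat.mod_eq_of_lt (by have := hn2 i hi; have := r.isLt; omega)]
      by_cases h3 : l = r
      · rw [if_pos h3, if_pos (by rw [h3])]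
      · rw [if_neg h3, if_neg (fun h4 => h3 (Fin.ext h4.symm))]
    have h3 := h1.trans h2
    have h4 := congrArg Matrix.det h3
    rw [← RingHom.map_det, h, map_zero, Matrix.det_one] at h4
    exact zero_ne_one h4
  have hprod : A.det * ∏ i ∈ Finset.univ.filter (fun i => i ≠ i₀), (B i).det ≠ 0 :=
    mul_ne_zero hA (Finset.prod_ne_zero_iff.2 fun i hi => hB i (Finset.mem_filter.1 hi).2)
  obtain ⟨x, hx⟩ : ∃ x : Fin 3 × Pc n → k,
      eval x (A.det * ∏ i ∈ Finset.univ.filter (fun i => i ≠ i₀), (B i).det) ≠ 0 := by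
    by_contra hcon
    push Not at hcon
    exact hprod (MvPolynomial.funext fun x => by rw [hcon x, map_zero])
  rw [map_mul, map_prod] at hx
  refine ⟨fun l s => x (l, s), ?_, fun i hi => ?_⟩
  · have h1 := left_ne_zero_of_mul hx
    rw [RingHom.map_det, hAe] at h1
    exact h1
  · have h1 := Finset.prod_ne_zero_iff.1 (right_ne_zero_of_mul hx) i
      (Finset.mem_filter.2 ⟨Finset.mem_univ _, hi⟩)
    rw [RingHom.map_det, hBe] at h1
    exact h1

/-- linear independence of the restrictions to a generic linear section -/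
theorem core (hdε : ∀ β, d (ρ β) * ε (ρ β) = dg β) (hmn : ∀ i, m i ≤ n i)
    (hsum : ∀ i, ∑ β with ρ β = i, (dg β - 1) = m i) {i₀ : ι} (hd2 : d i₀ = 2)
    (hd3 : ∀ i, i ≠ i₀ → d i = 3) (hm2 : ∀ i, i ≠ i₀ → m i = 2) {k E : Type} [Field k]
    [Infinite k] [Field E] [Algebra k E] {F : MvPolynomial (Pc n) k} (hF : PHom d F)
    (s₀ s₁ : Fin (n i₀ + 1)) (hV : LinearIndependent k (dd (⟨i₀, s₀⟩ : Pc n) ⟨i₀, s₁⟩ F))
    (g : (i : ι) → Matrix (Fin (m i + 1)) (Fin (m i + 1)) k) (hg : ∀ i, (g i).det ≠ 0)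
    (h : Hv n m → E) (hh : AlgebraicIndependent k h) (c : Fin 3 → E)
    (hc : ∀ z : Sg 1 b → k, ∑ j, aeval (lam h (fun s => algebraMap k E (tg g ρ ε z s)))
      (dd (⟨i₀, s₀⟩ : Pc n) ⟨i₀, s₁⟩ F j) * c j = 0) : c = 0 := by
  classical
  by_contra hc0
  set V := dd (⟨i₀, s₀⟩ : Pc n) ⟨i₀, s₁⟩ F with hVdef
  have hblk : ∀ j {x y : Pc n → k}, (∀ s, s.1 ≠ i₀ → x s = y s) →
      aeval x (V j) = aeval y (V j) := by
    intro j x y hxy
    rw [hVdef]
    fin_cases j
    · exact blk hF hd2 _ _ hxy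
    · exact blk hF hd2 _ _ hxy
    · exact blk hF hd2 _ _ hxy
  obtain ⟨p, hp1, hp2⟩ := pts i₀ (fun i hi => by have := hmn i; rw [hm2 i hi] at this; exact this)
    V hV
  obtain ⟨h', z, hz⟩ := solve hdε hmn hsum hd3 hm2 g hg p hp2
  let A : Matrix (Fin 3) (Fin 3) (MvPolynomial (Hv n m) k) :=
    Matrix.of fun l j => aeval (lam X (fun s => C (tg g ρ ε (z l) s))) (V j)
  have hsp : ∀ (S : Type) [CommRing S] [Algebra k S] (x : Hv n m → S) (l j : Fin 3),
      (aeval x : MvPolynomial (Hv n m) k →ₐ[k] S) (A l j) =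
        aeval (lam x (fun s => algebraMap k S (tg g ρ ε (z l) s))) (V j) := by
    intro S _ _ x l j
    refine (comp_aeval_apply (aeval x : MvPolynomial (Hv n m) k →ₐ[k] S)
      (f := lam X (fun s => C (tg g ρ ε (z l) s))) (V j)).trans ?_
    congr 2
    funext s
    refine (lam_map' ((aeval x : MvPolynomial (Hv n m) k →ₐ[k] S) :
      MvPolynomial (Hv n m) k →+* S) _ _ s).trans ?_
    congr 1
    · funext q
      exact aeval_X x q
    · funext s
      exact aeval_C x _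
  have h1 : (aeval h : MvPolynomial (Hv n m) k →ₐ[k] E) A.det = 0 := by
    rw [AlgHom.map_det]
    refine Matrix.exists_mulVec_eq_zero_iff.1 ⟨c, hc0, ?_⟩
    funext l
    show ∑ j, (aeval h : MvPolynomial (Hv n m) k →ₐ[k] E) (A l j) * c j = 0
    rw [← hc (z l)]
    refine Finset.sum_congr rfl fun j _ => ?_
    rw [hsp E h l j]
  have h2 : A.det = 0 := by
    have h3 : Function.Injective (aeval h : MvPolynomial (Hv n m) k →ₐ[k] E) := hh
    exact h3 (h1.trans (map_zero _).symm)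
  have h3 : (aeval h' : MvPolynomial (Hv n m) k →ₐ[k] k) A.det = 0 := by rw [h2, map_zero]
  rw [AlgHom.map_det] at h3
  apply hp1
  rw [← h3]
  congr 1
  ext l j
  rw [Matrix.of_apply]
  refine Eq.trans ?_ (hsp k h' l j).symm
  rw [← coe_aeval_eq_eval]
  exact hblk j fun s hs => (hz l s hs).symm

end core

/-! ### The theorem -/

theorem sum2 {A : Type*} [AddCommMonoid A] (n : ℕ) (hn : n = 1) (f : Fin (n + 1) → A) :
    ∑ r, f r = f 0 + f (Fin.last n) := by
  subst hn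
  exact Fin.sum_univ_two f

theorem det2 {A : Type*} [CommRing A] (n : ℕ) (hn : n = 1) (M : Matrix (Fin (n + 1)) (Fin (n + 1)) A) :
    M.det = M 0 0 * M (Fin.last n) (Fin.last n) - M 0 (Fin.last n) * M (Fin.last n) 0 := by
  subst hn
  exact Matrix.det_fin_two M

/-- the map to the line -/
theorem tgl {b : ℕ} {ι : Type} [DecidableEq ι] {m : ι → ℕ} {ρ : Bl 1 b → ι} {ε : ι → ℕ}
    {R : Type*} [CommRing R] {i₀ : ι} (hε : ε i₀ = 1)
    (hj : (Finset.univ.filter fun β => ρ β = i₀) = {Sum.inl 0}) (hm : m i₀ = 1)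
    (G : (i : ι) → Matrix (Fin (m i + 1)) (Fin (m i + 1)) R) (z : Sg 1 b → R)
    (r : Fin (m i₀ + 1)) :
    tg G ρ ε z ⟨i₀, r⟩ = G i₀ r 0 * z (.inl (0, 0)) + G i₀ r (Fin.last _) * z (.inl (0, 1)) := by
  unfold tg
  refine (sum2 (m i₀) hm _).trans ?_
  have h0 : tau ρ ε z (⟨i₀, 0⟩ : Pc m) = z (.inl (0, 0)) := tau_co hε (.inl (0, 0)) hj z 0 rfl
  have h1 : tau ρ ε z (⟨i₀, Fin.last _⟩ : Pc m) = z (.inl (0, 1)) :=
    tau_co hε (.inl (0, 1)) hj z (Fin.last _) (by
      rw [Fin.val_last, hm]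
      rfl)
  exact congrArg₂ (fun x y => G i₀ r 0 * x + G i₀ r (Fin.last _) * y) h0 h1

theorem sec : StmSEC := by
  intro b ι _ _ n m d ρ ε hdε hm0 hmn hsum i₀ hn1 hd2 hd3 hm2 k E _ _ _ _ F hF hV g hg h hh
  classical
  have hm1 : m i₀ = 1 := by
    have h1 := hm0 i₀
    have h2 := hmn i₀
    omega
  obtain ⟨hε0, hj0⟩ := uniq2 hdε hsum hd2 hm1
  set T : Pc m → MvPolynomial (Sg 1 b) E :=
    fun s => tg (fun i => ((g i).map (algebraMap k E)).map C) ρ ε X s with hT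
  set Φ : Pc n → MvPolynomial (Sg 1 b) E := lam (fun q => C (h q)) T with hΦ
  have hF1 : pb (fun i => (g i).map (algebraMap k E)) ρ ε (cut h (map (algebraMap k E) F)) =
      aeval Φ F := by
    unfold pb cut
    rw [aeval_map_algebraMap]
    refine (comp_aeval_apply ((aeval (R := E) T :
      MvPolynomial (Pc m) E →ₐ[E] MvPolynomial (Sg 1 b) E).restrictScalars k)
      (f := lam (fun q => C (h q)) X) F).trans ?_
    congr 2
    funext s
    refine (lam_map' ((aeval (R := E) T : MvPolynomial (Pc m) E →ₐ[E] MvPolynomial (Sg 1 b) E) :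
      MvPolynomial (Pc m) E →+* MvPolynomial (Sg 1 b) E) _ _ s).trans ?_
    rw [hΦ]
    congr 1
    · funext q
      exact aeval_C T _
    · funext s
      exact aeval_X T s
  -- the line
  set u₀ : Sg 1 b := .inl (0, 0) with hu₀
  set u₁ : Sg 1 b := .inl (0, 1) with hu₁
  have hu : u₀ ≠ u₁ := by
    rw [hu₀, hu₁]
    intro h'
    simp at h'
  have hΦ0 : Φ ⟨i₀, 0⟩ = T ⟨i₀, 0⟩ := by
    rw [hΦ]
    unfold lam
    rw [dif_pos (show ((0 : Fin (n i₀ + 1)) : ℕ) < m i₀ + 1 by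
      rw [Fin.val_zero]
      omega)]
    rfl
  have hΦ1 : Φ ⟨i₀, Fin.last _⟩ = T ⟨i₀, Fin.last _⟩ := by
    rw [hΦ]
    unfold lam
    rw [dif_pos (show ((Fin.last (n i₀) : Fin (n i₀ + 1)) : ℕ) < m i₀ + 1 by
      rw [Fin.val_last]
      omega)]
    congr 1
    have h5 : (⟨((Fin.last (n i₀) : Fin (n i₀ + 1)) : ℕ), by rw [Fin.val_last]; omega⟩ :
        Fin (m i₀ + 1)) = Fin.last _ := by
      apply Fin.ext
      show n i₀ = m i₀
      omega
    exact congrArg (fun y => (⟨i₀, y⟩ : Pc m)) h5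
  have hTl : ∀ r : Fin (m i₀ + 1), T ⟨i₀, r⟩ = C (algebraMap k E (g i₀ r 0)) * X u₀ +
      C (algebraMap k E (g i₀ r (Fin.last _))) * X u₁ := fun r =>
    tgl hε0 hj0 hm1 (fun i => ((g i).map (algebraMap k E)).map C) X r
  have hd00 : ∀ r : Fin (m i₀ + 1), pderiv u₀ (T ⟨i₀, r⟩) = C (algebraMap k E (g i₀ r 0)) := by
    intro r
    rw [hTl, map_add, pderiv_C_mul, pderiv_C_mul, pderiv_X_self, pderiv_X_of_ne hu.symm, mul_one,
      mul_zero, add_zero]
  have hd01 : ∀ r : Fin (m i₀ + 1), pderiv u₁ (T ⟨i₀, r⟩) =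
      C (algebraMap k E (g i₀ r (Fin.last _))) := by
    intro r
    rw [hTl, map_add, pderiv_C_mul, pderiv_C_mul, pderiv_X_self, pderiv_X_of_ne hu, mul_one,
      mul_zero, zero_add]
  -- the planes
  have hTi : ∀ (a : Fin 2) (i : ι), i ≠ i₀ → ∀ r : Fin (m i + 1),
      pderiv (.inl (0, a) : Sg 1 b) (T ⟨i, r⟩) = 0 := by
    intro a i hi r
    obtain ⟨hε, j, hj⟩ := uniq3 hdε hsum (hd3 i hi) (hm2 i hi)
    rw [hT]
    unfold tg
    rw [map_sum]
    refine Finset.sum_eq_zero fun (r' : Fin (m i + 1)) _ => ?_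
    have h4 := hm2 i hi
    have h5 : (r' : ℕ) < m i + 1 := r'.isLt
    have h6 : (r' : ℕ) = ix (.inr (j, Fin.ofNat 3 (r' : ℕ)) : Sg 1 b) := by
      show (r' : ℕ) = ((Fin.ofNat 3 (r' : ℕ) : Fin 3) : ℕ)
      rw [Fin.val_ofNat]
      exact (Nat.mod_eq_of_lt (by omega)).symm
    have h7 := tau_co (R := MvPolynomial (Sg 1 b) E) hε (.inr (j, Fin.ofNat 3 (r' : ℕ))) hj X r' h6
    have h8 : pderiv (.inl (0, a) : Sg 1 b) (C (algebraMap k E (g i r r')) *
        tau ρ ε (X : Sg 1 b → MvPolynomial (Sg 1 b) E) ⟨i, r'⟩) = 0 := by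
      rw [h7, pderiv_C_mul, pderiv_X_of_ne (by simp), mul_zero]
    exact h8
  have hΦi : ∀ (a : Fin 2) (i : ι), i ≠ i₀ → ∀ t : Fin (n i + 1),
      pderiv (.inl (0, a) : Sg 1 b) (Φ ⟨i, t⟩) = 0 := by
    intro a i hi t
    rw [hΦ]
    unfold lam
    by_cases hs : (t : ℕ) < m i + 1
    · rw [dif_pos hs]
      exact hTi a i hi _
    · rw [dif_neg hs, map_sum]
      refine Finset.sum_eq_zero fun r _ => ?_
      rw [pderiv_C_mul]
      have h3 := hTi a i hi r
      rw [h3, mul_zero]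
  -- the chain rule
  have hch : ∀ (a : Fin 2) (P : MvPolynomial (Pc n) k),
      pderiv (.inl (0, a) : Sg 1 b) (aeval Φ P) =
        aeval Φ (pderiv ⟨i₀, 0⟩ P) * pderiv (.inl (0, a) : Sg 1 b) (T ⟨i₀, 0⟩) +
        aeval Φ (pderiv ⟨i₀, Fin.last _⟩ P) *
          pderiv (.inl (0, a) : Sg 1 b) (T ⟨i₀, Fin.last _⟩) := by
    intro a P
    have h1 := Gn.chain ((pderiv (.inl (0, a) : Sg 1 b) : Derivation E (MvPolynomial (Sg 1 b) E)
      (MvPolynomial (Sg 1 b) E)).restrictScalars k) Φ P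
    change pderiv (.inl (0, a) : Sg 1 b) (aeval Φ P) =
      ∑ s, aeval Φ (pderiv s P) * pderiv (.inl (0, a) : Sg 1 b) (Φ s) at h1
    rw [h1, Fintype.sum_sigma, Finset.sum_eq_single i₀]
    · refine (sum2 (n i₀) hn1 _).trans ?_
      rw [hΦ0, hΦ1]
    · intro i _ hi
      refine Finset.sum_eq_zero fun t _ => ?_
      rw [hΦi a i hi t, mul_zero]
    · intro h'
      exact absurd (Finset.mem_univ _) h'
  have hch0 : ∀ P : MvPolynomial (Pc n) k, pderiv u₀ (aeval Φ P) =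
      aeval Φ (pderiv ⟨i₀, 0⟩ P) * C (algebraMap k E (g i₀ 0 0)) +
      aeval Φ (pderiv ⟨i₀, Fin.last _⟩ P) * C (algebraMap k E (g i₀ (Fin.last _) 0)) := by
    intro P
    have h1 := hch 0 P
    rw [← hu₀, hd00, hd00] at h1
    exact h1
  have hch1 : ∀ P : MvPolynomial (Pc n) k, pderiv u₁ (aeval Φ P) =
      aeval Φ (pderiv ⟨i₀, 0⟩ P) * C (algebraMap k E (g i₀ 0 (Fin.last _))) +
      aeval Φ (pderiv ⟨i₀, Fin.last _⟩ P) *
        C (algebraMap k E (g i₀ (Fin.last _) (Fin.last _))) := by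
    intro P
    have h1 := hch 1 P
    rw [← hu₁, hd01, hd01] at h1
    exact h1
  have hm : ∀ (u : Sg 1 b) (x : E) (P : MvPolynomial (Sg 1 b) E),
      pderiv u (P * C x) = pderiv u P * C x := by
    intro u x P
    rw [mul_comm, pderiv_C_mul, mul_comm]
  have hpc : pderiv (⟨i₀, Fin.last _⟩ : Pc n) (pderiv ⟨i₀, 0⟩ F) =
      pderiv ⟨i₀, 0⟩ (pderiv ⟨i₀, Fin.last _⟩ F) := Pool.Agent.Y200.CB.pderiv_comm' _ _ F
  set γ00 : E := algebraMap k E (g i₀ 0 0) with hγ00
  set γ01 : E := algebraMap k E (g i₀ 0 (Fin.last _)) with hγ01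
  set γ10 : E := algebraMap k E (g i₀ (Fin.last _) 0) with hγ10
  set γ11 : E := algebraMap k E (g i₀ (Fin.last _) (Fin.last _)) with hγ11
  set W00 := aeval Φ (pderiv (⟨i₀, 0⟩ : Pc n) (pderiv ⟨i₀, 0⟩ F)) with hW00
  set W01 := aeval Φ (pderiv (⟨i₀, 0⟩ : Pc n) (pderiv ⟨i₀, Fin.last _⟩ F)) with hW01
  set W11 := aeval Φ (pderiv (⟨i₀, Fin.last _⟩ : Pc n) (pderiv ⟨i₀, Fin.last _⟩ F)) with hW11
  have h00 : pderiv u₀ (pderiv u₀ (aeval Φ F)) = (W00 * C γ00 + W01 * C γ10) * C γ00 +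
      (W01 * C γ00 + W11 * C γ10) * C γ10 := by
    rw [hch0, map_add, hm, hm, hch0, hch0, hpc]
  have h01 : pderiv u₀ (pderiv u₁ (aeval Φ F)) = (W00 * C γ00 + W01 * C γ10) * C γ01 +
      (W01 * C γ00 + W11 * C γ10) * C γ11 := by
    rw [hch1, map_add, hm, hm, hch0, hch0, hpc]
  have h11 : pderiv u₁ (pderiv u₁ (aeval Φ F)) = (W00 * C γ01 + W01 * C γ11) * C γ01 +
      (W01 * C γ01 + W11 * C γ11) * C γ11 := by
    rw [hch1, map_add, hm, hm, hch1, hch1, hpc]
  rw [hF1, Fintype.linearIndependent_iff]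
  intro c hc
  have hc1 : C (c 0) * pderiv u₀ (pderiv u₀ (aeval Φ F)) +
      C (c 1) * pderiv u₀ (pderiv u₁ (aeval Φ F)) +
      C (c 2) * pderiv u₁ (pderiv u₁ (aeval Φ F)) = 0 := by
    rw [Fin.sum_univ_three] at hc
    simp only [smul_eq_C_mul] at hc
    exact hc
  rw [h00, h01, h11] at hc1
  have hW : C (c 0 * γ00 ^ 2 + c 1 * γ00 * γ01 + c 2 * γ01 ^ 2) * W00 +
      C (2 * c 0 * γ00 * γ10 + c 1 * (γ00 * γ11 + γ10 * γ01) + 2 * c 2 * γ01 * γ11) * W01 +
      C (c 0 * γ10 ^ 2 + c 1 * γ10 * γ11 + c 2 * γ11 ^ 2) * W11 = 0 := by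
    have h2 : (C (2 : E) : MvPolynomial (Sg 1 b) E) = 2 := map_ofNat C 2
    simp only [map_add, map_mul, map_pow, h2]
    linear_combination hc1
  have hinf : Infinite k := CharZero.infinite k
  have key := core hdε hmn hsum hd2 hd3 hm2 hF 0 (Fin.last _) hV g hg h hh
    ![c 0 * γ00 ^ 2 + c 1 * γ00 * γ01 + c 2 * γ01 ^ 2,
      2 * c 0 * γ00 * γ10 + c 1 * (γ00 * γ11 + γ10 * γ01) + 2 * c 2 * γ01 * γ11,
      c 0 * γ10 ^ 2 + c 1 * γ10 * γ11 + c 2 * γ11 ^ 2] (by
    intro z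
    have hψ : ∀ P : MvPolynomial (Pc n) k,
        (aeval (fun s => algebraMap k E (z s)) : MvPolynomial (Sg 1 b) E →ₐ[E] E) (aeval Φ P) =
          aeval (lam h (fun s => algebraMap k E (tg g ρ ε z s))) P := by
      intro P
      refine (comp_aeval_apply ((aeval (fun s => algebraMap k E (z s)) :
        MvPolynomial (Sg 1 b) E →ₐ[E] E).restrictScalars k) (f := Φ) P).trans ?_
      congr 2
      funext s
      refine (lam_map' ((aeval (fun s => algebraMap k E (z s)) :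
        MvPolynomial (Sg 1 b) E →ₐ[E] E) : MvPolynomial (Sg 1 b) E →+* E) _ _ s).trans ?_
      congr 1
      · funext q
        exact aeval_C _ _
      · funext s
        refine (Tr.tg_map ((aeval (fun s => algebraMap k E (z s)) :
          MvPolynomial (Sg 1 b) E →ₐ[E] E) : MvPolynomial (Sg 1 b) E →+* E) ρ ε _ _ s).trans ?_
        refine Eq.trans ?_ (Tr.tg_map (algebraMap k E) ρ ε z g s).symm
        congr 1
        · funext i
          ext r r'
          exact aeval_C _ _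
        · funext q
          exact aeval_X _ _
    have h2 := congrArg (aeval (fun s => algebraMap k E (z s)) :
      MvPolynomial (Sg 1 b) E →ₐ[E] E) hW
    simp only [map_add, map_mul, map_zero, aeval_C, Algebra.algebraMap_self, RingHom.id_apply] at h2
    rw [hψ, hψ, hψ] at h2
    rw [Fin.sum_univ_three]
    simp only [dd, Matrix.cons_val_zero, Matrix.cons_val_one, Matrix.cons_val]
    linear_combination h2)
  have k0 := congrFun key 0
  have k1 := congrFun key 1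
  have k2 := congrFun key 2
  simp only [Matrix.cons_val_zero, Matrix.cons_val_one, Matrix.cons_val, Pi.zero_apply] at k0 k1 k2
  have hD : γ00 * γ11 - γ01 * γ10 ≠ 0 := by
    have h1 := hg i₀
    rw [det2 (m i₀) hm1 (g i₀)] at h1
    rw [hγ00, hγ01, hγ10, hγ11, ← map_mul, ← map_mul, ← map_sub]
    exact fun h2 => h1 ((map_eq_zero (algebraMap k E)).1 h2)
  have hD2 : (γ00 * γ11 - γ01 * γ10) ^ 2 ≠ 0 := pow_ne_zero 2 hD
  have e0 : (γ00 * γ11 - γ01 * γ10) ^ 2 * c 0 = 0 := by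
    linear_combination γ11 ^ 2 * k0 - γ11 * γ01 * k1 + γ01 ^ 2 * k2
  have e1 : (γ00 * γ11 - γ01 * γ10) ^ 2 * c 1 = 0 := by
    linear_combination (-2 * γ11 * γ10) * k0 + (γ11 * γ00 + γ01 * γ10) * k1 - 2 * γ01 * γ00 * k2
  have e2 : (γ00 * γ11 - γ01 * γ10) ^ 2 * c 2 = 0 := by
    linear_combination γ10 ^ 2 * k0 - γ10 * γ00 * k1 + γ00 ^ 2 * k2
  intro j
  fin_cases j
  · exact (mul_eq_zero.1 e0).resolve_left hD2
  · exact (mul_eq_zero.1 e1).resolve_left hD2
  · exact (mul_eq_zero.1 e2).resolve_left hD2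

end Pool.Agent.Y200.CY.Sec
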