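import Pool.Agent.Y200.CY.FinalE
import Pool.Agent.Y200.CY.Lgx
import Pool.Agent.Y200.CY.Tt
import Pool.Agent.Y200.CY.Upd
import Pool.Agent.Y200.CY.Sec
import Pool.Agent.Y200.CY.Lin

/-!
# Smooth hypersurfaces of degree at most three in products of projective spaces
-/

set_option autoImplicit false

open MvPolynomial AlgebraicGeometry CategoryTheory

namespace Pool.Agent.Y200.CY

open Pool.Agent.W572 Pool.Agent.W572.G

/-- **Smooth hypersurfaces of low degree in products of projective spaces** -/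
theorem finalG (k₀ : Type) [Field k₀] [CharZero k₀] (hk₀ : Y742.GG.FG k₀) {ι : Type}
    [Fintype ι] [DecidableEq ι] [Nonempty ι] (n d : ι → ℕ) (hn : ∀ i, n i ≠ 0) (hd : ∀ i, d i ≠ 0)
    (hd3 : ∀ i, d i ≤ 3) (hn2 : ∀ i, d i = 3 → 2 ≤ n i) (h2 : ∀ i : ι, ∃ j, j ≠ i)
    {N : ℕ} (e : PAf n ≃ Fin N) (F : MvPolynomial (Pc n) k₀) (hF : PHom d F)
    (hex : ∀ i, d i = 2 → n i = 1 → (∀ j, j ≠ i → d j = 3) →
      LinearIndependent k₀ (dd (⟨i, 0⟩ : Pc n) ⟨i, Fin.last _⟩ F))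
    (hsm : ∀ z : Pc n → AlgebraicClosure k₀, PNZ z → aeval z F = 0 →
      ∃ s, aeval z (pderiv s F) ≠ 0)
    {X : Scheme.{0}} (sX : X ⟶ Spec (.of k₀))
    (f : (hypersurface (pdeh e F)).PartialMap X) (hf : IsDominant f.hom)
    (hfk : f.hom ≫ sX = f.domain.ι ≫ hypersurfaceStr (pdeh e F)) : PotentiallyDense sX := by
  refine dens_of_pts k₀ (pdeh e F) ?_ sX f hf hfk
  by_cases h : ∃ i, n i = 1 ∧ d i = 1
  · obtain ⟨i₀, h1, h3⟩ := h
    exact Lin.lin k₀ n d hn hd h2 i₀ h1 h3 e F hF hsm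
  · push Not at h
    refine finalE_pts Upd.upd Tt.tt Lgx.lg1 Tt.lid Sec.sec Upd.co1 k₀ hk₀ n d hn hd hd3 hn2 h2 e F
      hF (fun i h1 h3 h4 => ?_) hsm
    have h5 := hd i
    have h6 := h i h3
    have h7 : d i = 2 := by omega
    exact ⟨h7, hex i h7 h3 h4⟩

end Pool.Agent.Y200.CY
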