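import Pool.Agent.Y200.CY.Cyc

/-!
# Smooth Calabi-Yau hypersurfaces in products of lines and planes, the case of one line included
-/

set_option autoImplicit false

open MvPolynomial AlgebraicGeometry CategoryTheory

namespace Pool.Agent.Y200.CY

open Pool.Agent.W572 Pool.Agent.W572.G

theorem final1_pts (hUPD : StmUPD) (hTT : StmTT) (hLG : StmLG1) (hLID : StmLID) (k₀ : Type)
    [Field k₀] [CharZero k₀] (hk₀ : Y742.GG.FG k₀) {b N : ℕ} (hb : b ≠ 0) (e : Af 1 b ≃ Fin N)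
    (F : MvPolynomial (Sg 1 b) k₀) (hF : MHom F)
    (hli : LinearIndependent k₀ (dd (.inl (0, 0)) (.inl (0, 1)) F))
    (hsm : ∀ z : Sg 1 b → AlgebraicClosure k₀, NZ z → aeval z F = 0 →
      ∃ s, aeval z (pderiv s F) ≠ 0) : Pts k₀ (deh e F) := by
  classical
  set Ω := AlgebraicClosure k₀ with hΩ
  have hchar : CharZero Ω := charZero_of_injective_algebraMap (algebraMap k₀ Ω).injective
  set F' := MvPolynomial.map (algebraMap k₀ Ω) F with hF'
  have hM : MHom F' := hF.map _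
  have hS : Smo F' Ω := smo_of hF (by omega) hsm
  have hE : ∀ (E : Type) [Field E] [Algebra Ω E], Smo F' E := fun E _ _ => Gs.ns 1 b Ω F' hS E
  have hirr : Irreducible (deh e F') := Irp.irp 1 b N Ω e F' hM hS hb
  obtain ⟨K, _, _, x, hx⟩ := Sym.gp Ω N (deh e F') hirr
  obtain ⟨J, hJ, L, hL, hgen⟩ := Cyc.cyc1 hUPD hTT hLG F' hM hE hb (hLID _ k₀ Ω _ _ F hli) e x hx
  let g := Finite.equivFin J
  have hd : deh e F' = MvPolynomial.map (algebraMap k₀ Ω) (deh e F) := deh_map e F _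
  have hx' : GPt (MvPolynomial.map (algebraMap k₀ Ω) (deh e F)) x := by rw [← hd]; exact hx
  refine pts3 k₀ hk₀ (deh e F) (by rw [← hd]; exact hirr) hx' (fun i => L (g.symm i))
    (fun i => hL _) ?_
  rw [eq_top_iff, ← hgen]
  refine LieSubalgebra.lieSpan_mono ?_
  rintro D ⟨i, hi⟩
  exact ⟨g i, by rw [Equiv.symm_apply_apply]; exact hi⟩

/-- **Smooth Calabi-Yau hypersurfaces in products of lines and planes** -/
theorem finalY_pts (hUPD : StmUPD) (hTT : StmTT) (hLG : StmLG1) (hLID : StmLID) (k₀ : Type)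
    [Field k₀] [CharZero k₀] (hk₀ : Y742.GG.FG k₀) {a b N : ℕ} (hab : a + b ≠ 0)
    (e : Af a b ≃ Fin N) (F : MvPolynomial (Sg a b) k₀) (hF : MHom F)
    (ha : a ≠ 1 ∨ (b ≠ 0 ∧ ∃ i : Fin a, LinearIndependent k₀ (dd (.inl (i, 0)) (.inl (i, 1)) F)))
    (hsm : ∀ z : Sg a b → AlgebraicClosure k₀, NZ z → aeval z F = 0 →
      ∃ s, aeval z (pderiv s F) ≠ 0) : Pts k₀ (deh e F) := by
  by_cases h : a = 1
  · subst h
    rcases ha with h | ⟨hb, i, hi⟩
    · exact absurd rfl h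
    · have h0 : i = 0 := Subsingleton.elim _ _
      rw [h0] at hi
      exact final1_pts hUPD hTT hLG hLID k₀ hk₀ hb e F hF hi hsm
  · exact final_pts k₀ hk₀ h hab e F hF hsm

end Pool.Agent.Y200.CY
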