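import Pool.Agent.Y742.GG.Flow

/-!
# The difference of two points of a plane cubic
-/

set_option autoImplicit false

open WeierstrassCurve Pool.Agent.Y720.MZ Pool.Agent.Y742.GG

namespace Pool.Agent.Y200.CY

variable {K : Type*} [Field K] [CharZero K] [DecidableEq K] {R : Type*} [CommRing R] [Algebra R K]

/-- the difference of the two points of the quartic over `0` has infinite order -/
theorem inf_of_cubic (D : Derivation R K K) {α w b1 b2 g0 g1 g2 g3 : K} (hw : w ≠ 0)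
    (hα : D α = α * b1) (h0 : D w = 3 * α * g0 - 2 * w * b1)
    (h1 : D b1 = 2 * α * g1 - 4 * w * b2) (h2 : D b2 = α * g2) (e0 : D g0 = -2 * w * g1)
    (e1 : D g1 = -4 * w * g2) (e2 : D g2 = -6 * w * g3) (e3 : D g3 = 0)
    {q₁ q₂ q₃ q₄ : K} (hq₁ : q₁ = 2 * w * b1 - 4 * α * g0)
    (hq₂ : q₂ = b1 ^ 2 + 2 * w * b2 - 4 * α * g1) (hq₃ : q₃ = 2 * b1 * b2 - 4 * α * g2)
    (hq₄ : q₄ = b2 ^ 2 - 4 * α * g3) (hdc : dc (w ^ 2) q₁ q₂ q₃ q₄ ≠ 0) :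
    ∀ h, ∀ n : ℕ, n ≠ 0 → n • (.some (xs w q₁ q₂) (ys w q₁ q₂ q₃) h :
      Pt q₂ (rb w q₁ q₃ q₄) (rc w q₁ q₂ q₃ q₄)) ≠ 0 := by
  intro h
  obtain ⟨r, hr⟩ : ∃ r, g0 = r * w := ⟨g0 / w, by field_simp⟩
  have hnum : ∀ n : ℕ, D (n : K) = 0 := fun n => D.map_natCast n
  have n2 : D (2 : K) = 0 := by exact_mod_cast hnum 2
  have n3 : D (3 : K) = 0 := by exact_mod_cast hnum 3
  have n4 : D (4 : K) = 0 := by exact_mod_cast hnum 4
  have n3' : D ((3 : K)⁻¹) = 0 := by rw [Derivation.leibniz_inv, n3, smul_zero]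
  have hDw : D w = w * (3 * α * r - 2 * b1) := by rw [h0, hr]; ring
  have hDr : D r = -2 * g1 - 3 * α * r ^ 2 + 2 * b1 * r := by
    have h5 := e0
    rw [hr, Derivation.leibniz, smul_eq_mul, smul_eq_mul, hDw] at h5
    apply mul_left_cancel₀ hw
    linear_combination h5
  have ex : xs w q₁ q₂ = 4 * α * α * r * r - 4 * α * b1 * r - 2 * w * b2 + 4 * α * g1 := by
    rw [xs, hq₁, hq₂, hr]
    field_simp
    ring
  have ey : ys w q₁ q₂ q₃ = (b1 - 2 * α * r) * (4 * α * α * r * r - 4 * α * b1 * r - 2 * w * b2 +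
      4 * α * g1) + w * (2 * b1 * b2 - 4 * α * g2) := by
    rw [ys, ex, hq₁, hq₃, hr]
    field_simp
    ring
  have hq₁' : q₁ = 2 * w * b1 - 4 * α * (r * w) := by rw [hq₁, hr]
  have hq₂' : q₂ = b1 * b1 + 2 * w * b2 - 4 * α * g1 := by rw [hq₂]; ring
  have hq₄' : q₄ = b2 * b2 - 4 * α * g3 := by rw [hq₄]; ring
  have hI : D (rb w q₁ q₃ q₄ - q₂ ^ 2 / 3) = 0 := by
    have e : rb w q₁ q₃ q₄ - q₂ ^ 2 / 3 = q₁ * q₃ - 4 * (w * w) * q₄ - q₂ * q₂ * 3⁻¹ := by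
      rw [rb]; ring
    rw [e, hq₁', hq₂', hq₃, hq₄']
    simp only [map_sub, map_add, Derivation.leibniz, smul_eq_mul, hα, hDw, h1, h2, hDr, e1, e2, e3,
      n2, n3', n4]
    ring
  have hX : D (xs w q₁ q₂ + q₂ / 3) = 3 * ys w q₁ q₂ q₃ := by
    have e : xs w q₁ q₂ + q₂ / 3 = 4 * α * α * r * r - 4 * α * b1 * r - 2 * w * b2 + 4 * α * g1 +
        q₂ * 3⁻¹ := by rw [ex]; ring
    rw [e, ey, hq₂']
    simp only [map_sub, map_add, Derivation.leibniz, smul_eq_mul, hα, hDw, h1, h2, hDr, e1, e2, e3,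
      n2, n3', n4]
    ring
  have hY : D (ys w q₁ q₂ q₃) = 3 * (3 * (xs w q₁ q₂ + q₂ / 3) ^ 2 +
      (rb w q₁ q₃ q₄ - q₂ ^ 2 / 3)) / 2 := by
    rw [ey, ex, rb, hq₁', hq₂', hq₃, hq₄']
    simp only [map_sub, map_add, Derivation.leibniz, smul_eq_mul, hα, hDw, h1, h2, hDr, e1, e2, e3,
      n2, n3', n4]
    ring
  have hκ : (3 : K) ≠ 0 := three_ne_zero
  have hy : ys w q₁ q₂ q₃ ≠ 0 := by
    intro h0
    rw [h0, map_zero] at hY
    have h5 : 3 * (xs w q₁ q₂ + q₂ / 3) ^ 2 + (rb w q₁ q₃ q₄ - q₂ ^ 2 / 3) = 0 := by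
      have := hY.symm
      rw [div_eq_zero_iff, or_iff_left two_ne_zero, mul_eq_zero] at this
      exact this.resolve_left hκ
    have h6 := s_eqn (q₁ := q₁) (q₂ := q₂) (q₃ := q₃) (q₄ := q₄) hw
    rw [h0] at h6
    apply hdc
    rw [← dq_eq, dq]
    exact dsc_root (x := xs w q₁ q₂) (by rw [← h6]; ring) (by linear_combination h5)
  exact inf_of_deriv D hI h hκ hy hX hY

end Pool.Agent.Y200.CY
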