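import Pool.Agent.Y200.CY.Rg
import Pool.Agent.Y200.CY.Flow3
import Pool.Agent.Y200.CY.Ders
import Pool.Agent.Y200.CB.Irr

/-!
# Moving a point along a plane cubic
-/

set_option autoImplicit false
set_option linter.unusedSectionVars false

open Polynomial Pool.Agent.Y720.MZ Pool.Agent.Y742.GG

namespace Pool.Agent.Y200.CY

section lin

variable {K : Type*} [Field K]

/-- the ring homomorphism given by a derivation -/
noncomputable def phi {R : Type*} [CommRing R] [Algebra R K] (D : Derivation R K K) :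
    K →+* DualNumber K where
  toFun f := TrivSqZeroExt.inl f + TrivSqZeroExt.inr (D f)
  map_one' := by
    rw [D.map_one_eq_zero]; simp
  map_zero' := by simp
  map_add' f g := by
    ext <;> simp
  map_mul' f g := by
    ext
    · simp
    · simp [mul_comm]

lemma phi_fst {R : Type*} [CommRing R] [Algebra R K] (D : Derivation R K K) (f : K) :
    (phi D f).fst = f := by
  show (TrivSqZeroExt.inl f + TrivSqZeroExt.inr (D f) : DualNumber K).fst = f
  simp

lemma phi_snd {R : Type*} [CommRing R] [Algebra R K] (D : Derivation R K K) (f : K) :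
    (phi D f).snd = D f := by
  show (TrivSqZeroExt.inl f + TrivSqZeroExt.inr (D f) : DualNumber K).snd = D f
  simp

lemma phi_const {R : Type*} [CommRing R] [Algebra R K] (D : Derivation R K K) {f : K}
    (h : D f = 0) : phi D f = TrivSqZeroExt.inl f := by
  ext
  · rw [phi_fst]; simp
  · rw [phi_snd, h]; simp

end lin

section cub

lemma map_ev {R S : Type*} [CommRing R] [CommRing S] (f : R →+* S) (c : Cub R) (p q r : R) :
    f (c.ev p q r) = (c.map f).ev (f p) (f q) (f r) := by
  simp only [Cub.ev, Cub.map, map_add, map_mul, map_pow]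

lemma map_map' {R S T : Type*} [CommRing R] [CommRing S] [CommRing T] (f : R →+* S) (g : S →+* T)
    (c : Cub R) : (c.map f).map g = c.map (g.comp f) := rfl

lemma eval₂_aff {R S : Type*} [CommRing R] [CommRing S] (f : R →+* S) (c : Cub R)
    (z : Fin 2 → S) : MvPolynomial.eval₂ f z c.aff = (c.map f).ev 1 (z 0) (z 1) := by
  simp [Cub.aff, Cub.ev, Cub.map]

/-- the expansion of a cubic at a point -/
lemma ev_expand {S : Type*} [CommRing S] (c : Cub S) (u v s μ : S) :
    c.ev 1 (u + s) (v + s * μ) = c.ev 1 u v + s * (c.d1 1 u v + c.d2 1 u v * μ) +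
      s ^ 2 * (c.b11 u v + c.b12 u v * μ + c.b22 u v * μ ^ 2) +
      s ^ 3 * (c.c30 + c.c21 * μ + c.c12 * μ ^ 2 + c.c03 * μ ^ 3) := by
  simp only [Cub.ev, Cub.d1, Cub.d2, Cub.b11, Cub.b12, Cub.b22]
  ring

end cub

section move

variable {K : Type*} [Field K] [CharZero K]

/-- the polynomial `b` -/
noncomputable def bp (w b1 b2 : K) : K[X] := C w + C b1 * X + C b2 * X ^ 2

/-- the polynomial `c` -/
noncomputable def cp (g0 g1 g2 g3 : K) : K[X] := C g0 + C g1 * X + C g2 * X ^ 2 + C g3 * X ^ 3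

/-- the quartic polynomial -/
noncomputable def Dsc (α w b1 b2 g0 g1 g2 g3 : K) : K[X] :=
  qpol (w ^ 2) (2 * w * b1 - 4 * α * g0) (b1 ^ 2 + 2 * w * b2 - 4 * α * g1)
    (2 * b1 * b2 - 4 * α * g2) (b2 ^ 2 - 4 * α * g3)

lemma Dsc_eq (α w b1 b2 g0 g1 g2 g3 : K) : Dsc α w b1 b2 g0 g1 g2 g3 =
    bp w b1 b2 ^ 2 - 4 * (C α * X) * cp g0 g1 g2 g3 := by
  simp only [Dsc, qpol, bp, cp, map_sub, map_add, map_mul, map_pow, map_ofNat]
  ring

lemma qpol_coeff_zero (p q r s t : K) : (qpol p q r s t).coeff 0 = p := by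
  simp [qpol]

lemma qpol_coeff_one (p q r s t : K) : (qpol p q r s t).coeff 1 = q := by
  simp [qpol, coeff_C, coeff_X, coeff_X_pow]

lemma Dsc_coeff_zero (α w b1 b2 g0 g1 g2 g3 : K) :
    w ^ 2 = (Dsc α w b1 b2 g0 g1 g2 g3).coeff 0 := by
  rw [Dsc, qpol_coeff_zero]

lemma Dsc_coeff_one (α w b1 b2 g0 g1 g2 g3 : K) :
    (Dsc α w b1 b2 g0 g1 g2 g3).coeff 1 = 2 * w * b1 - 4 * α * g0 := by
  rw [Dsc, qpol_coeff_one]

/-- the first order expansion of `Y` at `Y = w` -/
noncomputable def WW (α w b1 g0 : K) : DualNumber K :=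
  TrivSqZeroExt.inl w + TrivSqZeroExt.inr ((2 * w * b1 - 4 * α * g0) / (2 * w))

lemma WW_fst (α w b1 g0 : K) : (WW α w b1 g0).fst = w := by simp [WW]

lemma WW_snd (α w b1 g0 : K) : (WW α w b1 g0).snd = (2 * w * b1 - 4 * α * g0) / (2 * w) := by
  simp [WW]

lemma WW_sq (α w b1 b2 g0 g1 g2 g3 : K) (hw : w ≠ 0) :
    WW α w b1 g0 ^ 2 = TT (Dsc α w b1 b2 g0 g1 g2 g3) := by
  ext
  · rw [TT_fst, ← Dsc_coeff_zero, pow_two, TrivSqZeroExt.fst_mul, WW_fst, pow_two]
  · rw [TT_snd, Dsc_coeff_one, pow_two, TrivSqZeroExt.snd_mul, WW_fst, WW_snd]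
    simp only [smul_eq_mul, MulOpposite.smul_eq_mul_unop, MulOpposite.unop_op]
    field_simp
    ring

/-- the function `s` -/
lemma exists_s {α w b1 b2 g0 g1 g2 g3 : K} {Q : K[X]} (hw : w ≠ 0) (hg : g0 ≠ 0) :
    ∃ s : BB Q,
      io Q (2 * cp g0 g1 g2 g3) * s = yy Q - io Q (bp w b1 b2) ∧
      Gd Q w (WW α w b1 g0) s (TrivSqZeroExt.inr (-(α / w))) (-(w / g0)) := by
  have hc0 : (2 * cp g0 g1 g2 g3).coeff 0 = 2 * g0 := by
    simp [cp, mul_coeff_zero]
  have hb0 : (bp w b1 b2).coeff 0 = w := by simp [bp]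
  have hb1 : (bp w b1 b2).coeff 1 = b1 := by simp [bp, coeff_C, coeff_X]
  have hne : (2 * cp g0 g1 g2 g3).coeff 0 ≠ 0 := by
    rw [hc0]; exact mul_ne_zero two_ne_zero hg
  obtain ⟨i, hi⟩ := (io_unit' Q hne).exists_right_inv
  refine ⟨(yy Q - io Q (bp w b1 b2)) * i, ?_, ?_⟩
  · linear_combination (yy Q - io Q (bp w b1 b2)) * hi
  · refine ⟨-bp w b1 b2, 1, 2 * cp g0 g1 g2 g3, hne, ?_, ?_, ?_⟩
    · rw [map_neg, map_one]
      linear_combination (yy Q - io Q (bp w b1 b2)) * hi
    · ext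
      · rw [TrivSqZeroExt.fst_add, TrivSqZeroExt.fst_mul, TrivSqZeroExt.fst_mul, TT_fst, TT_fst,
          TT_fst, WW_fst, coeff_neg, hb0]
        simp
      · rw [TrivSqZeroExt.snd_add, TrivSqZeroExt.snd_mul, TrivSqZeroExt.snd_mul, TT_fst, TT_fst,
          TT_snd, TT_snd, TT_snd, WW_fst, WW_snd, coeff_neg, hb1, hc0]
        simp only [smul_eq_mul, MulOpposite.smul_eq_mul_unop, MulOpposite.unop_op,
          TrivSqZeroExt.fst_inr, TrivSqZeroExt.snd_inr, coeff_one]
        simp
        field_simp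
        ring
    · rw [coeff_neg, hb0, hc0]
      simp
      field_simp
      ring

end move

section rep

variable {Ω K : Type*} [Field Ω] [Field K] [CharZero K] [Algebra Ω K] {L : IntermediateField Ω K}

/-- the constants -/
noncomputable def jj (L : IntermediateField Ω K) (Q : K[X]) : L →+* BB Q :=
  ((io Q).comp (C : K →+* K[X])).comp (algebraMap L K)

variable {c : Cub L} {u v α m w b1 b2 g0 g1 g2 g3 : K}

/-- the point of the cubic over the function field of the double cover -/
theorem rep3 (h : TC (c.map (algebraMap L K)) u v α m w b1 b2 g0 g1 g2 g3)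
    {Q : K[X]} (hQ : Q = Dsc α w b1 b2 g0 g1 g2 g3)
    (hw : w ≠ 0) (hg : g0 ≠ 0) (hev : (c.map (algebraMap L K)).ev 1 u v = 0)
    (D : Derivation Ω K K) (hD : ∀ a ∈ L, D a = 0) (hu : D u = α) (hv : D v = α * m) :
    ∃ z : Fin 2 → BB Q, MvPolynomial.eval₂ (jj L Q) z c.aff = 0 ∧
      ∀ P : MvPolynomial (Fin 2) L, Gd Q w (WW α w b1 g0) (MvPolynomial.eval₂ (jj L Q) z P)
        (phi (-(w⁻¹) • D) (MvPolynomial.aeval ![u, v] P))
        (MvPolynomial.aeval ![u - w / g0, v - w / g0 * m] P) := by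
  obtain ⟨s, hs1, hs2⟩ := exists_s (α := α) (b1 := b1) (b2 := b2) (g1 := g1) (g2 := g2) (g3 := g3)
    (Q := Q) hw hg
  have hWsq : WW α w b1 g0 ^ 2 = TT Q := by
    rw [hQ]; exact WW_sq α w b1 b2 g0 g1 g2 g3 hw
  have hQ0 : w ^ 2 = Q.coeff 0 := by
    rw [hQ]; exact Dsc_coeff_zero α w b1 b2 g0 g1 g2 g3
  refine ⟨![io Q (C u) + s, io Q (C v) + s * io Q (C m + X)], ?_, ?_⟩
  · rw [eval₂_aff]
    show (c.map (jj L Q)).ev 1 (io Q (C u) + s) (io Q (C v) + s * io Q (C m + X)) = 0
    rw [ev_expand]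
    have hc : c.map (jj L Q) = (c.map (algebraMap L K)).map ((io Q).comp C) := rfl
    rw [hc]
    set cK := c.map (algebraMap L K) with hcK
    have k0 : (cK.map ((io Q).comp C)).ev 1 (io Q (C u)) (io Q (C v)) = 0 := by
      have := map_ev ((io Q).comp C) cK 1 u v
      rw [map_one, hev, map_zero] at this
      exact this.symm
    have k1 : (cK.map ((io Q).comp C)).d1 1 (io Q (C u)) (io Q (C v)) = io Q (C (cK.d1 1 u v)) := by
      simp only [Cub.d1, Cub.map, map_add, map_mul, map_pow, map_one, map_ofNat,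
        RingHom.comp_apply]
    have k2 : (cK.map ((io Q).comp C)).d2 1 (io Q (C u)) (io Q (C v)) = io Q (C (cK.d2 1 u v)) := by
      simp only [Cub.d2, Cub.map, map_add, map_mul, map_pow, map_one, map_ofNat,
        RingHom.comp_apply]
    have k3 : (cK.map ((io Q).comp C)).b11 (io Q (C u)) (io Q (C v)) = io Q (C (cK.b11 u v)) := by
      simp only [Cub.b11, Cub.map, map_add, map_mul, map_ofNat, RingHom.comp_apply]
    have k4 : (cK.map ((io Q).comp C)).b12 (io Q (C u)) (io Q (C v)) = io Q (C (cK.b12 u v)) := by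
      simp only [Cub.b12, Cub.map, map_add, map_mul, map_ofNat, RingHom.comp_apply]
    have k5 : (cK.map ((io Q).comp C)).b22 (io Q (C u)) (io Q (C v)) = io Q (C (cK.b22 u v)) := by
      simp only [Cub.b22, Cub.map, map_add, map_mul, map_ofNat, RingHom.comp_apply]
    rw [k0, k1, k2, k3, k4, k5, h.ha, h.hm]
    have l1 : io Q (C (-(α * m))) + io Q (C α) * io Q (C m + X) = io Q (C α * X) := by
      simp only [map_neg, map_mul, map_add]
      ring
    have l2 : io Q (C (cK.b11 u v)) + io Q (C (cK.b12 u v)) * io Q (C m + X) +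
        io Q (C (cK.b22 u v)) * io Q (C m + X) ^ 2 = io Q (bp w b1 b2) := by
      rw [bp, h.hw, h.hb1, h.hb2]
      simp only [map_mul, map_add, map_pow, map_ofNat]
      ring
    have l3 : (cK.map ((io Q).comp C)).c30 + (cK.map ((io Q).comp C)).c21 * io Q (C m + X) +
        (cK.map ((io Q).comp C)).c12 * io Q (C m + X) ^ 2 +
        (cK.map ((io Q).comp C)).c03 * io Q (C m + X) ^ 3 = io Q (cp g0 g1 g2 g3) := by
      rw [cp, h.hg0, h.hg1, h.hg2, h.hg3]
      simp only [Cub.map, map_mul, map_add, map_pow, map_ofNat, RingHom.comp_apply]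
      ring
    rw [l1, l2, l3]
    have hT : io Q (C α * X) + s * io Q (bp w b1 b2) + s ^ 2 * io Q (cp g0 g1 g2 g3) = 0 := by
      have hu4 : IsUnit (io Q (4 * cp g0 g1 g2 g3)) := by
        apply io_unit'
        rw [mul_coeff_zero]
        simp [cp, hg]
      apply hu4.mul_left_cancel
      rw [mul_zero]
      have e1 : io Q Q = io Q (bp w b1 b2) ^ 2 - 4 * io Q (C α * X) * io Q (cp g0 g1 g2 g3) := by
        have e0 := congrArg (io Q) (hQ.trans (Dsc_eq α w b1 b2 g0 g1 g2 g3))
        simp only [map_sub, map_mul, map_pow, map_ofNat] at e0 ⊢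
        exact e0
      have e2 := yy_sq Q
      simp only [map_mul, map_ofNat] at hs1 ⊢
      rw [e1] at e2
      simp only [map_mul] at e2
      have e3 : yy Q = 2 * io Q (cp g0 g1 g2 g3) * s + io Q (bp w b1 b2) := by
        rw [hs1]; ring
      rw [e3] at e2
      linear_combination e2
    linear_combination s * hT
  · intro P
    obtain ⟨y, hy⟩ : ∃ y : BB Q, y = io Q (C v) + s * io Q (C m + X) := ⟨_, rfl⟩
    have h1 : Gd Q w (WW α w b1 g0) (io Q (C u) + s) (phi (-(w⁻¹) • D) u) (u - w / g0) := by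
      have := (Gd.of (Q := Q) (w := w) (W := WW α w b1 g0) (C u)).add hs2
      convert this using 1
      · ext
        · rw [phi_fst, TT_C]; simp
        · rw [phi_snd, TT_C, Derivation.smul_apply, hu]
          simp
          ring
      · simp; ring
    have h2 : Gd Q w (WW α w b1 g0) (io Q (C v) + s * io Q (C m + X)) (phi (-(w⁻¹) • D) v)
        (v - w / g0 * m) := by
      have := (Gd.of (Q := Q) (w := w) (W := WW α w b1 g0) (C v)).add
        (hs2.mul hWsq hQ0 (Gd.of (C m + X)))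
      convert this using 1
      · ext
        · rw [phi_fst, TT_C, map_add, TT_C, TT_X]; simp
        · rw [phi_snd, TT_C, map_add, TT_C, TT_X, Derivation.smul_apply, hv]
          simp
          ring
      · simp; ring
    rw [← hy] at h2 ⊢
    induction P using MvPolynomial.induction_on with
    | C a =>
      rw [MvPolynomial.eval₂_C, MvPolynomial.aeval_C, MvPolynomial.aeval_C]
      have h3 : phi (-(w⁻¹) • D) (algebraMap L K a) = TT (C (algebraMap L K a)) := by
        rw [phi_const, TT_C]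
        have h9 : D (algebraMap L K a) = 0 := hD _ a.2
        rw [Derivation.smul_apply, h9, smul_zero]
      rw [h3]
      have := Gd.of (Q := Q) (w := w) (W := WW α w b1 g0) (C (algebraMap L K a))
      rw [coeff_C_zero] at this
      exact this
    | add p q hp hq =>
      rw [MvPolynomial.eval₂_add, map_add, map_add, map_add]
      exact hp.add hq
    | mul_X p i hp =>
      rw [MvPolynomial.eval₂_mul, map_mul, map_mul, map_mul, MvPolynomial.eval₂_X,
        MvPolynomial.aeval_X, MvPolynomial.aeval_X]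
      refine hp.mul hWsq hQ0 ?_
      fin_cases i
      · exact h1
      · exact h2

end rep

end Pool.Agent.Y200.CY
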