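import Pool.Agent.Y200.CY.Inst3
import Pool.Agent.Y200.CY.A

/-!
# Fibrations in plane cubics give moves
-/

set_option autoImplicit false
set_option linter.unusedSectionVars false

open Polynomial Pool.Agent.Y720.MZ Pool.Agent.Y742.GG Pool.Agent.Y200.CB

namespace Pool.Agent.Y200.CY

section res

variable {Ω K : Type} [Field Ω] [Field K] [CharZero K] [CharZero Ω] [Algebra Ω K]
  {L : IntermediateField Ω K} {c : Cub L} {u v : K}

lemma cub_irr (h3 : c.Deg3) (hker : ∀ P : MvPolynomial (Fin 2) L,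
    MvPolynomial.aeval ![u, v] P = 0 → c.aff ∣ P)
    (hev : (c.map (algebraMap L K)).ev 1 u v = 0) : Irreducible c.aff := by
  have hne : c.aff ≠ 0 := by
    intro h0
    have := A.totalDegree_aff c h3
    rw [h0, MvPolynomial.totalDegree_zero] at this
    omega
  have h1 : Ideal.span {c.aff} =
      RingHom.ker ((MvPolynomial.aeval ![u, v] : MvPolynomial (Fin 2) L →ₐ[L] K) :
        MvPolynomial (Fin 2) L →+* K) := by
    apply le_antisymm
    · rw [Ideal.span_le]
      rintro _ rfl
      show MvPolynomial.aeval ![u, v] c.aff = 0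
      rw [A.aeval_aff, hev]
    · intro P hP
      rw [Ideal.mem_span_singleton]
      exact hker P hP
  have h2 : (Ideal.span {c.aff}).IsPrime := by
    rw [h1]
    exact RingHom.ker_isPrime _
  exact ((Ideal.span_singleton_prime hne).1 h2).irreducible

lemma indep_one {t : K} (ht : Transcendental L t) :
    AlgebraicIndependent L (fun _ : Fin 1 => t) := by
  rw [algebraicIndependent_unique_type_iff]
  exact ht

/-- two coprime curves meet in algebraic points -/
lemma res_alg (h3 : c.Deg3) (hker : ∀ P : MvPolynomial (Fin 2) L,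
    MvPolynomial.aeval ![u, v] P = 0 → c.aff ∣ P)
    (hev : (c.map (algebraMap L K)).ev 1 u v = 0) {u' v' : K}
    (hev' : (c.map (algebraMap L K)).ev 1 u' v' = 0) {S : MvPolynomial (Fin 2) L}
    (hS : MvPolynomial.aeval ![u, v] S ≠ 0) (hS' : MvPolynomial.aeval ![u', v'] S = 0) :
    IsAlgebraic L u' ∧ IsAlgebraic L v' := by
  have hirr := cub_irr h3 hker hev
  have hnd : ¬ c.aff ∣ S := by
    rintro ⟨q, rfl⟩
    apply hS
    rw [map_mul, A.aeval_aff, hev, zero_mul]
  have hz : MvPolynomial.aeval ![u', v'] c.aff = 0 := by rw [A.aeval_aff, hev']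
  constructor
  · by_contra ht
    apply hnd
    let e : Fin 2 ≃ Option (Fin 1) := ⟨![some 0, none], fun o => o.elim 1 (fun _ => 0), by
      intro i; fin_cases i <;> rfl, by
      intro o
      rcases o with _ | i
      · rfl
      · fin_cases i; rfl⟩
    refine ker_eq e c.aff hirr ![u', v'] hz ?_ S hS'
    have : (fun i : Fin 1 => (![u', v'] : Fin 2 → K) (e.symm (some i))) = fun _ => u' := by
      funext i
      fin_cases i
      rfl
    rw [this]
    exact indep_one ht
  · by_contra ht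
    apply hnd
    let e : Fin 2 ≃ Option (Fin 1) := ⟨![none, some 0], fun o => o.elim 0 (fun _ => 1), by
      intro i; fin_cases i <;> rfl, by
      intro o
      rcases o with _ | i
      · rfl
      · fin_cases i; rfl⟩
    refine ker_eq e c.aff hirr ![u', v'] hz ?_ S hS'
    have : (fun i : Fin 1 => (![u', v'] : Fin 2 → K) (e.symm (some i))) = fun _ => v' := by
      funext i
      fin_cases i
      rfl
    rw [this]
    exact indep_one ht

variable {α m w b1 b2 g0 g1 g2 g3 : K}

/-- the residual point of the tangent line is generic -/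
lemma res_ne (h : TC (c.map (algebraMap L K)) u v α m w b1 b2 g0 g1 g2 g3) (hα : α ≠ 0)
    (hw : w ≠ 0) (hg : g0 ≠ 0) (h3 : c.Deg3) (hker : ∀ P : MvPolynomial (Fin 2) L,
    MvPolynomial.aeval ![u, v] P = 0 → c.aff ∣ P)
    (hev : (c.map (algebraMap L K)).ev 1 u v = 0) (D : Derivation Ω K K)
    (hD : ∀ a ∈ L, D a = 0) (hu : D u = α) (hv : D v = α * m) {S : MvPolynomial (Fin 2) L}
    (hS : MvPolynomial.aeval ![u, v] S ≠ 0) :
    MvPolynomial.aeval ![u - w / g0, v - w / g0 * m] S ≠ 0 := by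
  intro hS'
  have hev' : (c.map (algebraMap L K)).ev 1 (u - w / g0) (v - w / g0 * m) = 0 := by
    have h1 := ev_expand (c.map (algebraMap L K)) u v (-(w / g0)) m
    have e1 : u - w / g0 = u + -(w / g0) := by ring
    have e2 : v - w / g0 * m = v + -(w / g0) * m := by ring
    rw [e1, e2, h1, hev, h.hm, h.ha, ← h.hw, ← h.hg0]
    field_simp
    ring
  obtain ⟨k1, k2⟩ := res_alg h3 hker hev hev' hS hS'
  have hLD : L ≤ consts D := fun a ha => hD a ha
  have d1 : D (u - w / g0) = 0 := der_alg D _ (isAlgebraic_of_le hLD k1)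
  have d2 : D (v - w / g0 * m) = 0 := der_alg D _ (isAlgebraic_of_le hLD k2)
  have hc : ∀ i, D ((c.map (algebraMap L K)).co i) = 0 := by
    intro i
    fin_cases i <;> exact hD _ (SetLike.coe_mem _)
  obtain ⟨-, dm, -⟩ := h.der hα D hc hu hv
  rw [map_sub, hu] at d1
  rw [map_sub, hv, D.leibniz, dm, smul_eq_mul, smul_eq_mul] at d2
  have h5 : w / g0 * (-2 * w) = 0 := by linear_combination m * d1 - d2
  have h6 : w / g0 ≠ 0 := div_ne_zero hw hg
  have h7 : -2 * w ≠ 0 := mul_ne_zero (by norm_num) hw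
  exact mul_ne_zero h6 h7 h5

end res

section inst

variable {Ω K : Type} [Field Ω] [Field K] [CharZero K] [CharZero Ω] [Algebra Ω K]
  {L : IntermediateField Ω K}

lemma frac2 {u v : K} (hgen : IntermediateField.adjoin L {u, v} = ⊤) (f : K) :
    ∃ R S : MvPolynomial (Fin 2) L, MvPolynomial.aeval ![u, v] S ≠ 0 ∧
      f * MvPolynomial.aeval ![u, v] S = MvPolynomial.aeval ![u, v] R := by
  have hf : f ∈ IntermediateField.adjoin L (Set.range ![u, v]) := by
    have : Set.range ![u, v] = {u, v} := by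
      simp only [Matrix.range_cons, Matrix.range_empty, Set.union_empty]
      rfl
    rw [this, hgen]
    trivial
  rw [IntermediateField.mem_adjoin_range_iff] at hf
  obtain ⟨r, s, hrs⟩ := hf
  by_cases hs : MvPolynomial.aeval ![u, v] s = 0
  · rw [hs, div_zero] at hrs
    exact ⟨0, 1, by simp, by simp [hrs]⟩
  · exact ⟨r, s, hs, by rw [hrs, div_mul_cancel₀ _ hs]⟩

/-- **A fibration in plane cubics gives a move.** -/
theorem inst3 [DecidableEq K] {N : ℕ} (x : Fin N → K) {c : Cub L} {u v : K}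
    (hker : ∀ P : MvPolynomial (Fin 2) L, MvPolynomial.aeval ![u, v] P = 0 → c.aff ∣ P)
    (hev : (c.map (algebraMap L K)).ev 1 u v = 0)
    (h2 : (c.map (algebraMap L K)).d2 1 u v ≠ 0)
    (hfl : (c.map (algebraMap L K)).flex u v ≠ 0) (h3 : c.Deg3)
    (hgen : IntermediateField.adjoin L {u, v} = ⊤) (D : Derivation Ω K K)
    (hD : ∀ a ∈ L, D a = 0) (hDu : D u = (c.map (algebraMap L K)).d2 1 u v)
    (hDv : D v = - (c.map (algebraMap L K)).d1 1 u v) :
    ∃ (μ : Mv K N) (e : K), e ≠ 0 ∧ (∀ l, μ.d l = e * D (x l)) ∧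
      (∀ (k : Type) [Field k] (c : k →+* Ω) (F : MvPolynomial (Fin N) k),
        MvPolynomial.eval₂ ((algebraMap Ω K).comp c) x F = 0 →
          μ.Ok ((algebraMap Ω K).comp c) F x) ∧
      (dc (μ.w ^ 2) μ.q₁ μ.q₂ μ.q₃ μ.q₄ ≠ 0 → ∀ h, ∀ n : ℕ, n ≠ 0 →
        n • (.some (xs μ.w μ.q₁ μ.q₂) (ys μ.w μ.q₁ μ.q₂ μ.q₃) h :
          Pt μ.q₂ (rb μ.w μ.q₁ μ.q₃ μ.q₄) (rc μ.w μ.q₁ μ.q₂ μ.q₃ μ.q₄)) ≠ 0) := by
  classical
  obtain ⟨α, m, w, b1, b2, g0, g1, g2, g3, h⟩ := exists_tc (c.map (algebraMap L K)) u v h2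
  have hα : α ≠ 0 := by rw [← h.ha]; exact h2
  have hw : w ≠ 0 := by
    rintro rfl
    apply hfl
    rw [h.flex, mul_zero]
  have hu : D u = α := by rw [hDu, h.ha]
  have hv : D v = α * m := by rw [hDv, h.hm, neg_neg]
  have hc : ∀ i, D ((c.map (algebraMap L K)).co i) = 0 := by
    intro i
    fin_cases i <;> exact hD _ (SetLike.coe_mem _)
  have h3' : (c.map (algebraMap L K)).Deg3 := by
    rintro ⟨k1, k2, k3, k4⟩
    have hinj := (algebraMap L K).injective
    exact h3 ⟨hinj (k1.trans (map_zero _).symm), hinj (k2.trans (map_zero _).symm),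
      hinj (k3.trans (map_zero _).symm), hinj (k4.trans (map_zero _).symm)⟩
  have hg : g0 ≠ 0 := h.g0_ne hα hw D hc hu hv h3'
  obtain ⟨dα, dm, dw, db1, db2, dg0, dg1, dg2, dg3⟩ := h.der hα D hc hu hv
  obtain ⟨Q, hQ⟩ : ∃ Q, Q = Dsc α w b1 b2 g0 g1 g2 g3 := ⟨_, rfl⟩
  have hWsq : WW α w b1 g0 ^ 2 = TT Q := by
    rw [hQ]; exact WW_sq α w b1 b2 g0 g1 g2 g3 hw
  have hQ0 : w ^ 2 = Q.coeff 0 := by
    rw [hQ]; exact Dsc_coeff_zero α w b1 b2 g0 g1 g2 g3
  obtain ⟨z, hz, hrep⟩ := rep3 h hQ hw hg hev D hD hu hv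
  -- a common denominator
  choose R S hS hRS using fun l => frac2 hgen (x l)
  set S₀ : MvPolynomial (Fin 2) L := ∏ l, S l with hS₀
  set R₀ : Fin N → MvPolynomial (Fin 2) L := fun l => R l * ∏ j ∈ Finset.univ.erase l, S j with hR₀
  have hS₀' : MvPolynomial.aeval ![u, v] S₀ ≠ 0 := by
    rw [hS₀, map_prod]
    exact Finset.prod_ne_zero_iff.2 fun l _ => hS l
  have hRS₀ : ∀ l, MvPolynomial.aeval ![u, v] (R₀ l) = x l * MvPolynomial.aeval ![u, v] S₀ := by
    intro l
    rw [hS₀, ← Finset.mul_prod_erase _ _ (Finset.mem_univ l), hR₀]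
    simp only [map_mul]
    rw [← hRS]
    ring
  have hS₁ := res_ne h hα hw hg h3 hker hev D hD hu hv hS₀'
  have gS := hrep S₀
  have uS := gS.unit hQ0 (WW_fst _ _ _ _) (by rw [phi_fst]; exact hS₀') hS₁
  -- the functions
  have hX : ∀ l, ∃ q : BB Q, q * MvPolynomial.eval₂ (jj L Q) z S₀ =
      MvPolynomial.eval₂ (jj L Q) z (R₀ l) ∧
      ∃ z', Gd Q w (WW α w b1 g0) q (phi (-(w⁻¹) • D) (x l)) z' := by
    intro l
    have gR := hrep (R₀ l)
    rw [hRS₀, map_mul] at gR
    exact gR.div hWsq hQ0 (WW_fst _ _ _ _) gS (by rw [phi_fst]; exact hS₀') hS₁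
  choose q hq z' hgq using hX
  choose a a' b hb hab hT _ using hgq
  set B : K[X] := ∏ l, b l with hB
  have hB0 : B.coeff 0 ≠ 0 := by
    rw [hB, coeff_zero_prod]
    exact Finset.prod_ne_zero_iff.2 fun l _ => hb l
  set A : Fin N → K[X] := fun l => a l * ∏ j ∈ Finset.univ.erase l, b j with hA
  set A' : Fin N → K[X] := fun l => a' l * ∏ j ∈ Finset.univ.erase l, b j with hA'
  have hio : ∀ l, io Q (A l) + io Q (A' l) * yy Q = q l * io Q B := by
    intro l
    rw [hB, ← Finset.mul_prod_erase _ _ (Finset.mem_univ l), hA, hA']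
    simp only [map_mul]
    linear_combination (-io Q (∏ j ∈ Finset.univ.erase l, b j)) * hab l
  have hTT : ∀ l, TT (A l) + TT (A' l) * WW α w b1 g0 = phi (-(w⁻¹) • D) (x l) * TT B := by
    intro l
    rw [hB, ← Finset.mul_prod_erase _ _ (Finset.mem_univ l), hA, hA']
    simp only [map_mul]
    linear_combination (TT (∏ j ∈ Finset.univ.erase l, b j)) * hT l
  refine ⟨⟨w, 2 * w * b1 - 4 * α * g0, b1 ^ 2 + 2 * w * b2 - 4 * α * g1,
    2 * b1 * b2 - 4 * α * g2, b2 ^ 2 - 4 * α * g3, A, A', B, 0, fun l => -(w⁻¹) * D (x l)⟩,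
    -(w⁻¹), neg_ne_zero.2 (inv_ne_zero hw), fun l => rfl, ?_, ?_⟩
  · intro k _ ck F hF
    refine ⟨hw, ?_, ?_, ?_, ?_⟩
    · show B.coeff 0 + (0 : K[X]).coeff 0 * w ≠ 0
      rw [coeff_zero, zero_mul, add_zero]; exact hB0
    · intro l
      show (A l).coeff 0 + (A' l).coeff 0 * w = x l * (B.coeff 0 + (0 : K[X]).coeff 0 * w)
      rw [coeff_zero, zero_mul, add_zero]
      have := congrArg TrivSqZeroExt.fst (hTT l)
      rw [TrivSqZeroExt.fst_add, TrivSqZeroExt.fst_mul, TrivSqZeroExt.fst_mul, TT_fst, TT_fst,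
        TT_fst, WW_fst, phi_fst] at this
      exact this
    · show (X ^ 2 - C (Dsc α w b1 b2 g0 g1 g2 g3)) ∣ hm _ F (fun l => C (A l) + C (A' l) * X)
        (C B + C 0 * X)
      rw [← hQ, C_0, zero_mul, add_zero]
      apply dvd_of_io
      have h1 := hm_map (eval₂RingHom (io Q) (yy Q))
        ((C : K[X] →+* K[X][X]).comp ((C : K →+* K[X]).comp ((algebraMap Ω K).comp ck))) F
        (fun l => C (A l) + C (A' l) * X) (C B)
      rw [coe_eval₂RingHom] at h1
      rw [h1, hm_eq (y := q)]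
      · -- `F` vanishes at the point `q`
        have hcomp : (eval₂RingHom (io Q) (yy Q)).comp
            ((C : K[X] →+* K[X][X]).comp ((C : K →+* K[X]).comp ((algebraMap Ω K).comp ck))) =
            (jj L Q).comp ((algebraMap Ω L).comp ck) := by
          ext t
          simp only [RingHom.comp_apply, coe_eval₂RingHom, eval₂_C, jj]
          rfl
        rw [hcomp]
        set H : MvPolynomial (Fin 2) L :=
          hm ((MvPolynomial.C : L →+* MvPolynomial (Fin 2) L).comp ((algebraMap Ω L).comp ck)) F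
            R₀ S₀ with hH
        have e1 : MvPolynomial.aeval ![u, v] H = 0 := by
          have h5 := hm_map ((MvPolynomial.aeval ![u, v] : MvPolynomial (Fin 2) L →ₐ[L] K) :
            MvPolynomial (Fin 2) L →+* K)
            ((MvPolynomial.C : L →+* MvPolynomial (Fin 2) L).comp ((algebraMap Ω L).comp ck)) F
            R₀ S₀
          rw [RingHom.coe_coe] at h5
          rw [hH, h5, hm_eq (y := x)]
          · have h6 : ((MvPolynomial.aeval ![u, v] : MvPolynomial (Fin 2) L →ₐ[L] K) :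
              MvPolynomial (Fin 2) L →+* K).comp
              ((MvPolynomial.C : L →+* MvPolynomial (Fin 2) L).comp ((algebraMap Ω L).comp ck)) =
              (algebraMap Ω K).comp ck := by
              ext t
              simp only [RingHom.comp_apply, RingHom.coe_coe, MvPolynomial.aeval_C]
              rfl
            rw [h6, hF, mul_zero]
          · exact hRS₀
        have e2 : MvPolynomial.eval₂ (jj L Q) z H = 0 := by
          obtain ⟨H', hH'⟩ := hker H e1
          rw [hH', MvPolynomial.eval₂_mul, hz, zero_mul]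
        have h5 := hm_map (MvPolynomial.eval₂Hom (jj L Q) z)
            ((MvPolynomial.C : L →+* MvPolynomial (Fin 2) L).comp ((algebraMap Ω L).comp ck)) F
            R₀ S₀
        rw [MvPolynomial.coe_eval₂Hom, ← hH, e2, hm_eq (y := q)] at h5
        · have h6 : (MvPolynomial.eval₂Hom (jj L Q) z).comp
              ((MvPolynomial.C : L →+* MvPolynomial (Fin 2) L).comp ((algebraMap Ω L).comp ck)) =
              (jj L Q).comp ((algebraMap Ω L).comp ck) := by
            ext t
            simp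
          rw [h6] at h5
          have h7 := (uS.pow F.totalDegree).mul_left_cancel
            (h5.symm.trans (mul_zero (MvPolynomial.eval₂ (jj L Q) z S₀ ^ F.totalDegree)).symm)
          rw [h7, mul_zero]
        · intro l
          exact (hq l).symm
      · intro l
        simp only [eval₂_add, eval₂_mul, eval₂_C, eval₂_X]
        exact hio l
    · intro l
      have := congrArg TrivSqZeroExt.snd (hTT l)
      rw [TrivSqZeroExt.snd_add, TrivSqZeroExt.snd_mul, TrivSqZeroExt.snd_mul, TT_fst, TT_fst,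
        TT_snd, TT_snd, TT_snd, WW_fst, WW_snd, phi_fst, phi_snd, Derivation.smul_apply] at this
      simp only [smul_eq_mul, MulOpposite.smul_eq_mul_unop, MulOpposite.unop_op] at this
      show 2 * w * ((B.coeff 0 + (0 : K[X]).coeff 0 * w) * (-(w⁻¹) * D (x l))) = 2 * w *
        ((A l).coeff 1 + (A' l).coeff 1 * w - x l * (B.coeff 1 + (0 : K[X]).coeff 1 * w)) +
        ((A' l).coeff 0 - x l * (0 : K[X]).coeff 0) * (2 * w * b1 - 4 * α * g0)
      simp only [coeff_zero, zero_mul, add_zero, mul_zero, sub_zero]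
      have e5 : (2 * w * b1 - 4 * α * g0) / (2 * w) * (2 * w) = 2 * w * b1 - 4 * α * g0 :=
        div_mul_cancel₀ _ (mul_ne_zero two_ne_zero hw)
      linear_combination (-2 * w) * this + (A' l).coeff 0 * e5
  · intro hdc
    exact inf_of_cubic D hw dα dw db1 db2 dg0 dg1 dg2 dg3 rfl rfl rfl rfl hdc

end inst

end Pool.Agent.Y200.CY
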