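import Pool.Agent.Y200.CY.Stm

/-! Statements, second part (helper200, project CY). -/

set_option autoImplicit false

namespace Pool.Agent.Y200.CY

open MvPolynomial Pool.Agent.Y200.CB

/-- the affine coordinates -/
abbrev Af (a b : ℕ) := {s : Sg a b // s ≠ o0 (bl s)}

/-- the function field of a plane cubic, with a condition at the generic point -/
def CubAt {Ω K : Type} [Field Ω] [Field K] [Algebra Ω K] (L : IntermediateField Ω K) : Prop :=
  ∃ (c : Cub L) (u v : K), (∀ P : MvPolynomial (Fin 2) L, aeval ![u, v] P = 0 → c.aff ∣ P) ∧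
    (c.map (algebraMap L K)).ev 1 u v = 0 ∧ (c.map (algebraMap L K)).d2 1 u v ≠ 0 ∧
    (c.map (algebraMap L K)).flex u v ≠ 0 ∧ c.Deg3 ∧ IntermediateField.adjoin L {u, v} = ⊤

/-- the field generated by all coordinates but two -/
def Lps (Ω : Type) {K : Type} [Field Ω] [Field K] [Algebra Ω K] {N : ℕ} (x : Fin N → K)
    (p s : Fin N) : IntermediateField Ω K :=
  IntermediateField.adjoin Ω (x '' {l | l ≠ p ∧ l ≠ s})

/-- the fibres in the planes -/
def StmPC : Prop := ∀ (a b N : ℕ) (Ω K : Type) [Field Ω] [CharZero Ω] [Field K] [Algebra Ω K]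
  (F : MvPolynomial (Sg a b) Ω), MHom F → (∀ (E : Type) [Field E] [Algebra Ω E], Smo F E) →
  ∀ (e : Af a b ≃ Fin N) (x : Fin N → K), GPt (deh e F) x → ∀ (j : Fin b) (p s : Af a b),
  p.1 = .inr (j, 1) → s.1 = .inr (j, 2) → CubAt (Lps Ω x (e p) (e s))

/-- the fibres in the products of two lines -/
def StmLC : Prop := ∀ (a b N : ℕ) (Ω K : Type) [Field Ω] [CharZero Ω] [Field K] [Algebra Ω K]
  (F : MvPolynomial (Sg a b) Ω), MHom F → (∀ (E : Type) [Field E] [Algebra Ω E], Smo F E) →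
  ∀ (e : Af a b ≃ Fin N) (x : Fin N → K), GPt (deh e F) x → ∀ (i i' : Fin a) (p s : Af a b),
  i ≠ i' → p.1 = .inl (i, 1) → s.1 = .inl (i', 1) → DCL (Lps Ω x (e p) (e s))

/-- mixed second derivatives on the function field -/
def StmHC : Prop := ∀ (a b N : ℕ) (Ω K : Type) [Field Ω] [CharZero Ω] [Field K] [Algebra Ω K]
  (F : MvPolynomial (Sg a b) Ω), MHom F → (∀ (E : Type) [Field E] [Algebra Ω E], Smo F E) →
  ∀ (e : Af a b ≃ Fin N) (x : Fin N → K), GPt (deh e F) x → ∀ (j : Fin b) (p s q r : Af a b),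
  p.1 = .inr (j, 1) → s.1 = .inr (j, 2) → Cell q.1 r.1 → bl q.1 ≠ .inr j → bl r.1 ≠ .inr j →
  ∀ T : Derivation Ω K K, T (x (e p)) = aeval x (pderiv (e s) (deh e F)) →
  T (x (e s)) = - aeval x (pderiv (e p) (deh e F)) →
  (∀ l, l ≠ e p → l ≠ e s → T (x l) = 0) →
  T (aeval x (pderiv (e q) (deh e F)) / aeval x (pderiv (e r) (deh e F))) ≠ 0

/-- symmetry of the mixed second derivatives -/
def StmSYM : Prop := ∀ (Ω K : Type) [Field Ω] [CharZero Ω] [Field K] [Algebra Ω K] (N : ℕ)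
  (f : MvPolynomial (Fin N) Ω) (x : Fin N → K) (p s q r : Fin N), p ≠ s → q ≠ r → p ≠ q → p ≠ r →
  s ≠ q → s ≠ r → aeval x (pderiv s f) ≠ 0 → aeval x (pderiv r f) ≠ 0 →
  ∀ T T' : Derivation Ω K K, T (x p) = aeval x (pderiv s f) → T (x s) = - aeval x (pderiv p f) →
  (∀ l, l ≠ p → l ≠ s → T (x l) = 0) →
  T' (x q) = aeval x (pderiv r f) → T' (x r) = - aeval x (pderiv q f) →
  (∀ l, l ≠ q → l ≠ r → T' (x l) = 0) →
  T (aeval x (pderiv q f) / aeval x (pderiv r f)) ≠ 0 →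
  T' (aeval x (pderiv p f) / aeval x (pderiv s f)) ≠ 0

/-- the tangent vector fields -/
def StmTV : Prop := ∀ (Ω K : Type) [Field Ω] [CharZero Ω] [Field K] [Algebra Ω K] (N : ℕ)
  (f : MvPolynomial (Fin N) Ω) (x : Fin N → K), GPt f x → ∀ p s : Fin N, p ≠ s →
  ∃ T : Derivation Ω K K, T (x p) = aeval x (pderiv s f) ∧ T (x s) = - aeval x (pderiv p f) ∧
    ∀ l, l ≠ p → l ≠ s → T (x l) = 0

/-- generation of the Lie algebra of vector fields -/
def StmLG : Prop := ∀ (a b N : ℕ) (Ω K : Type) [Field Ω] [CharZero Ω] [Field K] [Algebra Ω K]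
  (F : MvPolynomial (Sg a b) Ω), MHom F → (∀ (E : Type) [Field E] [Algebra Ω E], Smo F E) →
  a ≠ 1 → ∀ (e : Af a b ≃ Fin N) (x : Fin N → K), GPt (deh e F) x →
  LieSubalgebra.lieSpan Ω (Derivation Ω K K)
    {D | ∃ p s : Af a b, Cell p.1 s.1 ∧ ∀ y ∈ Lps Ω x (e p) (e s), D y = 0} = ⊤

/-- smooth hypersurfaces are irreducible, if there is a plane -/
def StmIRP : Prop := ∀ (a b N : ℕ) (k : Type) [Field k] [IsAlgClosed k] [CharZero k]
  (e : Af a b ≃ Fin N) (F : MvPolynomial (Sg a b) k), MHom F → Smo F k → b ≠ 0 →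
  Irreducible (deh e F)

/-- smooth hypersurfaces are irreducible, if there are two lines -/
def StmIRL : Prop := ∀ (a b N : ℕ) (k : Type) [Field k] [IsAlgClosed k] [CharZero k]
  (e : Af a b ≃ Fin N) (F : MvPolynomial (Sg a b) k), MHom F → Smo F k → 2 ≤ a →
  Irreducible (deh e F)

/-- existence of the generic point -/
def StmGP : Prop := ∀ (Ω : Type) [Field Ω] (N : ℕ) (f : MvPolynomial (Fin N) Ω),
  Irreducible f → ∃ (K : Type) (_ : Field K) (_ : Algebra Ω K) (x : Fin N → K), GPt f x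

end Pool.Agent.Y200.CY
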