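import Pool.Agent.Y742.GG.Main
import Pool.Agent.Y200.CY.Inst4
import Pool.Agent.Y200.CY.Stm2

/-!
# Varieties with fibrations in double covers of the line and plane cubics
-/

set_option autoImplicit false
set_option linter.unusedSectionVars false

open Pool.Agent.Y720.MZ MvPolynomial AlgebraicGeometry CategoryTheory Pool.Agent.Y742.GG

namespace Pool.Agent.Y200.CY

open Pool.Agent.W572 Pool.Agent.W572.G

section

variable {Ω K : Type} [Field Ω] [Field K] [Algebra Ω K] {L : IntermediateField Ω K}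

/-- derivations which kill the generators are zero -/
lemma der_gen {S : Set K} (hgen : IntermediateField.adjoin L S = ⊤) (E : Derivation Ω K K)
    (hE : ∀ a ∈ L, E a = 0) (hS : ∀ a ∈ S, E a = 0) : E = 0 := by
  ext f
  have hf : f ∈ IntermediateField.adjoin L S := by rw [hgen]; trivial
  induction hf using IntermediateField.adjoin_induction with
  | mem z hz => exact hS z hz
  | algebraMap c => exact hE _ c.2
  | add y z _ _ hy hz => rw [map_add, hy, hz]; simp
  | inv y _ hy => rw [Derivation.leibniz_inv, hy]; simp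
  | mul y z _ _ hy hz => rw [Derivation.leibniz, hy, hz]; simp

lemma der_ev (D : Derivation Ω K K) {c : Cub L} {u v : K} (hD : ∀ a ∈ L, D a = 0) :
    D ((c.map (algebraMap L K)).ev 1 u v) = (c.map (algebraMap L K)).d1 1 u v * D u +
      (c.map (algebraMap L K)).d2 1 u v * D v := by
  set C := c.map (algebraMap L K) with hC
  have e00 : D C.c00 = 0 := hD _ (SetLike.coe_mem _)
  have e10 : D C.c10 = 0 := hD _ (SetLike.coe_mem _)
  have e01 : D C.c01 = 0 := hD _ (SetLike.coe_mem _)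
  have e20 : D C.c20 = 0 := hD _ (SetLike.coe_mem _)
  have e11 : D C.c11 = 0 := hD _ (SetLike.coe_mem _)
  have e02 : D C.c02 = 0 := hD _ (SetLike.coe_mem _)
  have e30 : D C.c30 = 0 := hD _ (SetLike.coe_mem _)
  have e21 : D C.c21 = 0 := hD _ (SetLike.coe_mem _)
  have e12 : D C.c12 = 0 := hD _ (SetLike.coe_mem _)
  have e03 : D C.c03 = 0 := hD _ (SetLike.coe_mem _)
  have e : C.ev 1 u v = C.c00 + (C.c10 * u + C.c01 * v) +
      (C.c20 * (u * u) + C.c11 * u * v + C.c02 * (v * v)) +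
      (C.c30 * (u * u * u) + C.c21 * (u * u) * v + C.c12 * u * (v * v) + C.c03 * (v * v * v)) := by
    rw [Cub.ev]; ring
  rw [e, Cub.d1, Cub.d2]
  simp only [map_add, Derivation.leibniz, smul_eq_mul, e00, e10, e01, e20, e11, e02, e30, e21, e12,
    e03]
  ring

/-- a nonzero derivation which kills the smaller field, normalised -/
lemma exists_norm3 {c : Cub L} {u v : K} (hev : (c.map (algebraMap L K)).ev 1 u v = 0)
    (h2 : (c.map (algebraMap L K)).d2 1 u v ≠ 0)
    (hgen : IntermediateField.adjoin L {u, v} = ⊤) {E : Derivation Ω K K} (hE : E ≠ 0)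
    (hEL : ∀ a ∈ L, E a = 0) : ∃ D : Derivation Ω K K, (∀ a ∈ L, D a = 0) ∧
      D u = (c.map (algebraMap L K)).d2 1 u v ∧ D v = - (c.map (algebraMap L K)).d1 1 u v ∧
      ∀ E' : Derivation Ω K K, (∀ a ∈ L, E' a = 0) → ∃ e : K, E' = e • D := by
  have hrel : ∀ E' : Derivation Ω K K, (∀ a ∈ L, E' a = 0) →
      E' v = -((c.map (algebraMap L K)).d1 1 u v / (c.map (algebraMap L K)).d2 1 u v) * E' u := by
    intro E' hE'
    have h1 := der_ev E' (c := c) (u := u) (v := v) hE'
    rw [hev, map_zero] at h1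
    field_simp
    linear_combination -h1
  have hEu : E u ≠ 0 := by
    intro h0
    apply hE
    apply der_gen hgen E hEL
    rintro a (rfl | rfl)
    · exact h0
    · rw [hrel E hEL, h0, mul_zero]
  set D : Derivation Ω K K := ((c.map (algebraMap L K)).d2 1 u v / E u) • E with hDdef
  have hDL : ∀ a ∈ L, D a = 0 := fun a ha => by
    rw [hDdef, Derivation.smul_apply, hEL a ha, smul_zero]
  have hDu : D u = (c.map (algebraMap L K)).d2 1 u v := by
    rw [hDdef, Derivation.smul_apply, smul_eq_mul, div_mul_cancel₀ _ hEu]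
  refine ⟨D, hDL, hDu, ?_, ?_⟩
  · rw [hrel D hDL, hDu]
    field_simp
  · intro E' hE'
    refine ⟨E' u / (c.map (algebraMap L K)).d2 1 u v, ?_⟩
    rw [← sub_eq_zero]
    have hk : ∀ a ∈ L, (E' - (E' u / (c.map (algebraMap L K)).d2 1 u v) • D) a = 0 := by
      intro a ha
      rw [Derivation.sub_apply, Derivation.smul_apply, hE' a ha, hDL a ha, smul_zero, sub_zero]
    have hk1 : (E' - (E' u / (c.map (algebraMap L K)).d2 1 u v) • D) u = 0 := by
      rw [Derivation.sub_apply, Derivation.smul_apply, hDu, smul_eq_mul, div_mul_cancel₀ _ h2,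
        sub_self]
    apply der_gen hgen _ hk
    rintro a (rfl | rfl)
    · exact hk1
    · rw [hrel _ hk, hk1, mul_zero]

end

/-- the points over a finite extension which are dense -/
def Pts (k₀ : Type) [Field k₀] {N : ℕ} (F : MvPolynomial (Fin N) k₀) : Prop :=
  ∃ L' : IntermediateField k₀ (AlgebraicClosure k₀), FiniteDimensional k₀ L' ∧
    ∀ G : MvPolynomial (Fin N) k₀, ¬ F ∣ G → ∃ y : Fin N → AlgebraicClosure k₀,
      (∀ l, y l ∈ L') ∧ aeval y F = 0 ∧ aeval y G ≠ 0

/-- **Main theorem**, for points -/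
theorem pts3 (k₀ : Type) [Field k₀] [CharZero k₀] (hk₀ : FG k₀) {N m : ℕ} (F : MvPolynomial (Fin N) k₀)
    (hF : Irreducible (map (algebraMap k₀ (AlgebraicClosure k₀)) F))
    {K : Type} [Field K] [Algebra (AlgebraicClosure k₀) K] {x : Fin N → K}
    (hx : GPt (map (algebraMap k₀ (AlgebraicClosure k₀)) F) x)
    (L : Fin m → IntermediateField (AlgebraicClosure k₀) K)
    (hL : ∀ i, DCL (L i) ∨ CubAt (L i))
    (hgen : LieSubalgebra.lieSpan (AlgebraicClosure k₀) (Derivation (AlgebraicClosure k₀) K K)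
      {D | ∃ i, ∀ a ∈ L i, D a = 0} = ⊤) :
    Pts k₀ F := by
  classical
  have hcK : CharZero K := charZero_of_injective_algebraMap
    (algebraMap (AlgebraicClosure k₀) K).injective
  -- the fibrations with a derivation
  let J : Type := {i : Fin m // ∃ E : Derivation (AlgebraicClosure k₀) K K,
    E ≠ 0 ∧ ∀ a ∈ L i, E a = 0}
  have hJ : Finite J := Subtype.finite
  have hinst : ∀ i : J, ∃ (D : Derivation (AlgebraicClosure k₀) K K) (μ : Mv K N),
      (∀ E' : Derivation (AlgebraicClosure k₀) K K, (∀ a ∈ L i.1, E' a = 0) →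
        ∃ c : K, E' = c • D) ∧ (∀ l, μ.d l = D (x l)) ∧
      (∀ (k : Type) [Field k] (c : k →+* AlgebraicClosure k₀)
      (G : MvPolynomial (Fin N) k), eval₂ ((algebraMap (AlgebraicClosure k₀) K).comp c) x G = 0 →
        μ.Ok ((algebraMap (AlgebraicClosure k₀) K).comp c) G x) ∧
      (dc (μ.w ^ 2) μ.q₁ μ.q₂ μ.q₃ μ.q₄ ≠ 0 → ∀ h, ∀ n : ℕ, n ≠ 0 →
        n • (.some (xs μ.w μ.q₁ μ.q₂) (ys μ.w μ.q₁ μ.q₂ μ.q₃) h :
          Pt μ.q₂ (rb μ.w μ.q₁ μ.q₃ μ.q₄) (rc μ.w μ.q₁ μ.q₂ μ.q₃ μ.q₄)) ≠ 0) := by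
    rintro ⟨i, E, hE, hEL⟩
    rcases hL i with h | h
    · obtain ⟨t, w, Q, ht, hw, hdeg, hQ, hg⟩ := h
      obtain ⟨D, hD, hDt, hall⟩ := exists_norm ht hw hQ hg hE hEL
      obtain ⟨μ, h1, h2, h3⟩ := inst x ht hw hdeg hQ hg D hD hDt
      exact ⟨D, μ, hall, h1, h2, h3⟩
    · obtain ⟨c, u, v, hker, hev, h2, hfl, h3, hg⟩ := h
      obtain ⟨D, hD, hDu, hDv, hall⟩ := exists_norm3 hev h2 hg hE hEL
      obtain ⟨μ, e, he, k1, k2, k3⟩ := inst3 x hker hev h2 hfl h3 hg D hD hDu hDv
      refine ⟨e • D, μ, ?_, ?_, k2, k3⟩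
      · intro E' hE'
        obtain ⟨r, hr⟩ := hall E' hE'
        refine ⟨r * e⁻¹, ?_⟩
        rw [hr, smul_smul, mul_assoc, inv_mul_cancel₀ he, mul_one]
      · intro l
        rw [k1, Derivation.smul_apply, smul_eq_mul]
  choose D μ hall hd hOk hinf using hinst
  let e := Finite.equivFin J
  have hgen' : LieSubalgebra.lieSpan (AlgebraicClosure k₀)
      (Derivation (AlgebraicClosure k₀) K K)
      {E | ∃ i : Fin (Nat.card J), ∃ c : K, E = c • D (e.symm i)} = ⊤ := by
    rw [eq_top_iff, ← hgen]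
    refine LieSubalgebra.lieSpan_le.2 ?_
    rintro E ⟨i, hi⟩
    by_cases hE : E = 0
    · rw [hE]
      exact LieSubalgebra.zero_mem _
    · let i' : J := ⟨i, E, hE, hi⟩
      obtain ⟨c, hc⟩ := hall i' E hi
      exact LieSubalgebra.subset_lieSpan ⟨e i', c, by rw [Equiv.symm_apply_apply]; exact hc⟩
  obtain ⟨L', hL', hLd⟩ := asm k₀ hk₀ F hF hx.zero_iff hx.generates (fun i => D (e.symm i))
    (fun i => μ (e.symm i)) (fun i => hd _) (fun i => hOk _) (fun i => hinf _) hgen'
  refine ⟨L', hL', fun G hFG => ?_⟩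
  have hev : ∀ (y : Fin N → AlgebraicClosure k₀) (H : MvPolynomial (Fin N) k₀),
      eval y (map (algebraMap k₀ (AlgebraicClosure k₀)) H) = aeval y H := by
    intro y H
    rw [MvPolynomial.eval_map, ← aeval_def]
  by_contra hcon
  push Not at hcon
  refine hFG (dvd_descent F G (hLd _ fun y hy1 hy2 => ?_))
  rw [hev] at hy2 ⊢
  exact hcon y hy1 hy2

/-- potential density from the points -/
theorem dens_of_pts (k₀ : Type) [Field k₀] {N : ℕ} (F : MvPolynomial (Fin N) k₀) (h : Pts k₀ F)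
    {X : Scheme.{0}} (sX : X ⟶ Spec (.of k₀))
    (f : (hypersurface F).PartialMap X) (hf : IsDominant f.hom)
    (hfk : f.hom ≫ sX = f.domain.ι ≫ hypersurfaceStr F) : PotentiallyDense sX := by
  classical
  obtain ⟨L', hL', hpt⟩ := h
  let f' : (Spec (.of (MvPolynomial (Fin N) k₀ ⧸ Ideal.span {F}))).PartialMap X := f
  have hf' : IsDominant f'.hom := hf
  refine potentiallyDense_of_partialMap (MvPolynomial (Fin N) k₀ ⧸ Ideal.span {F}) L' ?_ sX f' hfk
  intro G₀ hG₀
  obtain ⟨G, rfl⟩ := Ideal.Quotient.mk_surjective G₀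
  have hFG : ¬ F ∣ G := by
    intro h
    exact hG₀ (Ideal.Quotient.eq_zero_iff_mem.mpr (Ideal.mem_span_singleton.mpr h))
  obtain ⟨y, hy1, hy2, hy3⟩ := hpt G hFG
  let y' : Fin N → L' := fun l => ⟨y l, hy1 l⟩
  have hev : ∀ H : MvPolynomial (Fin N) k₀, algebraMap L' (AlgebraicClosure k₀) (aeval y' H) =
      aeval y H := by
    intro H
    rw [← aeval_algebraMap_apply]
    rfl
  have hF0 : ∀ a ∈ Ideal.span {F}, aeval y' a = 0 := by
    intro a ha
    obtain ⟨b, rfl⟩ := Ideal.mem_span_singleton.mp ha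
    have h1 : aeval y' F = 0 := by
      apply (algebraMap L' (AlgebraicClosure k₀)).injective
      rw [hev, hy2, map_zero]
    rw [map_mul, h1, zero_mul]
  refine ⟨Ideal.Quotient.liftₐ _ (aeval y') hF0, ?_⟩
  rw [Ideal.Quotient.liftₐ_apply]
  change aeval y' G ≠ 0
  intro h
  apply hy3
  rw [← hev, h, map_zero]

end Pool.Agent.Y200.CY
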