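import Pool.Agent.Y742.GG.Inst

/-!
# Functions on a double cover of the line which are regular over the origin
-/

set_option autoImplicit false

open Polynomial Pool.Agent.Y720.MZ Pool.Agent.Y742.GG

namespace Pool.Agent.Y200.CY

section

variable {K : Type*} [Field K]

/-- the functions on the double cover `Y² = Q` -/
abbrev BB (Q : K[X]) :=
  AdjoinRoot (X ^ 2 - C (algebraMap K[X] (FractionRing K[X]) Q) : (FractionRing K[X])[X])

variable (Q : K[X])

/-- the functions on the line -/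
noncomputable def io : K[X] →+* BB Q :=
  (AdjoinRoot.of _).comp (algebraMap K[X] (FractionRing K[X]))

/-- the coordinate `Y` -/
noncomputable def yy : BB Q := AdjoinRoot.root _

lemma yy_sq : yy Q ^ 2 = io Q Q := by
  have h : AdjoinRoot.mk (X ^ 2 - C (algebraMap K[X] (FractionRing K[X]) Q) :
    (FractionRing K[X])[X]) (X ^ 2 - C (algebraMap K[X] (FractionRing K[X]) Q)) = 0 :=
    AdjoinRoot.mk_self
  rw [map_sub, map_pow, AdjoinRoot.mk_X, AdjoinRoot.mk_C, sub_eq_zero] at h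
  exact h

lemma io_unit {p : K[X]} (hp : p ≠ 0) : IsUnit (io Q p) := by
  have h : algebraMap K[X] (FractionRing K[X]) p ≠ 0 := by
    rw [Ne, FaithfulSMul.algebraMap_eq_zero_iff]
    exact hp
  exact (IsUnit.mk0 _ h).map (AdjoinRoot.of _)

lemma io_unit' {p : K[X]} (hp : p.coeff 0 ≠ 0) : IsUnit (io Q p) := by
  apply io_unit
  intro h
  rw [h, coeff_zero] at hp
  exact hp rfl

/-- the relations -/
lemma dvd_of_io {P : K[X][X]} (h : P.eval₂ (io Q) (yy Q) = 0) : (X ^ 2 - C Q) ∣ P := by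
  have h1 : AdjoinRoot.mk (X ^ 2 - C (algebraMap K[X] (FractionRing K[X]) Q) :
    (FractionRing K[X])[X]) (P.map (algebraMap K[X] (FractionRing K[X]))) = 0 := by
    rw [← h, io, yy, ← AdjoinRoot.aeval_eq, aeval_def, eval₂_map, AdjoinRoot.algebraMap_eq]
  rw [AdjoinRoot.mk_eq_zero] at h1
  have h2 : (X ^ 2 - C (algebraMap K[X] (FractionRing K[X]) Q) : (FractionRing K[X])[X]) =
      (X ^ 2 - C Q).map (algebraMap K[X] (FractionRing K[X])) := by simp
  rw [h2] at h1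
  exact (Polynomial.map_dvd_map _ (IsFractionRing.injective _ _)
    (monic_X_pow_sub_C _ two_ne_zero)).1 h1

/-- the first order expansion at the origin -/
noncomputable def TT : K[X] →+* DualNumber K :=
  ((aeval (DualNumber.eps : DualNumber K) : K[X] →ₐ[K] DualNumber K) : K[X] →+* DualNumber K)

lemma TT_C (a : K) : TT (C a) = TrivSqZeroExt.inl a := by
  simp [TT, TrivSqZeroExt.algebraMap_eq_inl]

lemma TT_X : TT (X : K[X]) = DualNumber.eps := by
  simp [TT]

lemma TT_fst (p : K[X]) : (TT p).fst = p.coeff 0 := by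
  conv_lhs => rw [← divX_mul_X_add p]
  rw [map_add, map_mul, TT_X, TT_C]
  simp

lemma TT_snd (p : K[X]) : (TT p).snd = p.coeff 1 := by
  conv_lhs => rw [← divX_mul_X_add p]
  rw [map_add, map_mul, TT_X, TT_C]
  simp [TT_fst, coeff_divX]

variable {Q}

/-- a function with given first order expansion at the point `Y = w`, and value at `Y = -w` -/
def Gd (Q : K[X]) (w : K) (W : DualNumber K) (f : BB Q) (ζ : DualNumber K) (z : K) : Prop :=
  ∃ α β γ : K[X], γ.coeff 0 ≠ 0 ∧ io Q γ * f = io Q α + io Q β * yy Q ∧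
    TT α + TT β * W = ζ * TT γ ∧ α.coeff 0 - β.coeff 0 * w = z * γ.coeff 0

variable {w : K} {W : DualNumber K} {f g : BB Q} {ζ ξ : DualNumber K} {z y : K}

lemma Gd.const (a : K) : Gd Q w W (io Q (C a)) (TrivSqZeroExt.inl a) a := by
  refine ⟨C a, 0, 1, by simp, by simp, ?_, by simp⟩
  rw [TT_C]
  simp

lemma Gd.add (h1 : Gd Q w W f ζ z) (h2 : Gd Q w W g ξ y) : Gd Q w W (f + g) (ζ + ξ) (z + y) := by
  obtain ⟨α, β, γ, h3, h4, h5, h6⟩ := h1
  obtain ⟨α', β', γ', h3', h4', h5', h6'⟩ := h2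
  refine ⟨α * γ' + α' * γ, β * γ' + β' * γ, γ * γ', ?_, ?_, ?_, ?_⟩
  · rw [mul_coeff_zero]; exact mul_ne_zero h3 h3'
  · simp only [map_mul, map_add]
    linear_combination io Q γ' * h4 + io Q γ * h4'
  · simp only [map_mul, map_add]
    linear_combination TT γ' * h5 + TT γ * h5'
  · simp only [coeff_add, mul_coeff_zero]
    linear_combination γ'.coeff 0 * h6 + γ.coeff 0 * h6'

lemma Gd.mul (hW : W ^ 2 = TT Q) (hw : w ^ 2 = Q.coeff 0) (h1 : Gd Q w W f ζ z)
    (h2 : Gd Q w W g ξ y) : Gd Q w W (f * g) (ζ * ξ) (z * y) := by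
  obtain ⟨α, β, γ, h3, h4, h5, h6⟩ := h1
  obtain ⟨α', β', γ', h3', h4', h5', h6'⟩ := h2
  refine ⟨α * α' + β * β' * Q, α * β' + α' * β, γ * γ', ?_, ?_, ?_, ?_⟩
  · rw [mul_coeff_zero]; exact mul_ne_zero h3 h3'
  · simp only [map_mul, map_add]
    linear_combination io Q γ' * g * h4 + (io Q α + io Q β * yy Q) * h4' +
      (io Q β * io Q β') * yy_sq Q
  · simp only [map_mul, map_add]
    linear_combination ξ * TT γ' * h5 + (TT α + TT β * W) * h5' - (TT β * TT β') * hW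
  · simp only [coeff_add, mul_coeff_zero]
    linear_combination (y * γ'.coeff 0) * h6 + (α.coeff 0 - β.coeff 0 * w) * h6' -
      (β.coeff 0 * β'.coeff 0) * hw

lemma Gd.of (p : K[X]) : Gd Q w W (io Q p) (TT p) (p.coeff 0) := by
  refine ⟨p, 0, 1, by simp, by simp, ?_, by simp⟩
  simp

lemma Gd.unit (hw : w ^ 2 = Q.coeff 0) (hWw : W.fst = w) (h2 : Gd Q w W g ξ y)
    (hξ : ξ.fst ≠ 0) (hy : y ≠ 0) : IsUnit g := by
  obtain ⟨α', β', γ', h3', h4', h5', h6'⟩ := h2
  have e1 : α'.coeff 0 + β'.coeff 0 * w = ξ.fst * γ'.coeff 0 := by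
    have := congrArg TrivSqZeroExt.fst h5'
    simpa [TT_fst, hWw] using this
  have hN : (α' ^ 2 - β' ^ 2 * Q).coeff 0 ≠ 0 := by
    have e2 : (α' ^ 2 - β' ^ 2 * Q).coeff 0 = (α'.coeff 0 + β'.coeff 0 * w) *
        (α'.coeff 0 - β'.coeff 0 * w) := by
      simp only [coeff_sub, mul_coeff_zero, pow_two]
      linear_combination (β'.coeff 0) ^ 2 * hw
    rw [e2, e1, h6']
    exact mul_ne_zero (mul_ne_zero hξ h3') (mul_ne_zero hy h3')
  obtain ⟨N', hN'⟩ := (io_unit' Q hN).exists_right_inv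
  apply IsUnit.of_mul_eq_one (io Q γ' * (io Q α' - io Q β' * yy Q) * N')
  simp only [map_sub, map_mul, map_pow] at hN'
  linear_combination (N' * (io Q α' - io Q β' * yy Q)) * h4' + hN' -
      (N' * io Q β' ^ 2) * yy_sq Q

lemma Gd.div (hW : W ^ 2 = TT Q) (hw : w ^ 2 = Q.coeff 0) (hWw : W.fst = w)
    (h1 : Gd Q w W f (ζ * ξ) z) (h2 : Gd Q w W g ξ y) (hξ : ξ.fst ≠ 0) (hy : y ≠ 0) :
    ∃ q, q * g = f ∧ ∃ z', Gd Q w W q ζ z' := by
  obtain ⟨α, β, γ, h3, h4, h5, h6⟩ := h1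
  obtain ⟨α', β', γ', h3', h4', h5', h6'⟩ := h2
  have e1 : α'.coeff 0 + β'.coeff 0 * w = ξ.fst * γ'.coeff 0 := by
    have := congrArg TrivSqZeroExt.fst h5'
    simpa [TT_fst, hWw] using this
  have hN : (α' ^ 2 - β' ^ 2 * Q).coeff 0 ≠ 0 := by
    have e2 : (α' ^ 2 - β' ^ 2 * Q).coeff 0 = (α'.coeff 0 + β'.coeff 0 * w) *
        (α'.coeff 0 - β'.coeff 0 * w) := by
      simp only [coeff_sub, mul_coeff_zero, pow_two]
      linear_combination (β'.coeff 0) ^ 2 * hw
    rw [e2, e1, h6']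
    exact mul_ne_zero (mul_ne_zero hξ h3') (mul_ne_zero hy h3')
  obtain ⟨N', hN'⟩ := (io_unit' Q hN).exists_right_inv
  obtain ⟨γi, hγi⟩ := (io_unit' Q h3').exists_right_inv
  refine ⟨f * io Q γ' * (io Q α' - io Q β' * yy Q) * N', ?_, z / y, ?_⟩
  · simp only [map_sub, map_mul, map_pow] at hN'
    linear_combination (f * N' * (io Q α' - io Q β' * yy Q)) * h4' + f * hN' -
      (f * N' * io Q β' ^ 2) * yy_sq Q
  · refine ⟨γ' * (α * α' - β * β' * Q), γ' * (β * α' - α * β'), (α' ^ 2 - β' ^ 2 * Q) * γ, ?_, ?_,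
      ?_, ?_⟩
    · rw [mul_coeff_zero]; exact mul_ne_zero hN h3
    · simp only [map_sub, map_mul, map_pow] at hN' ⊢
      linear_combination (io Q γ' * (io Q α' - io Q β' * yy Q)) * h4 +
        (io Q γ * f * io Q γ' * (io Q α' - io Q β' * yy Q)) * hN' -
        (io Q γ' * io Q β * io Q β') * yy_sq Q
    · simp only [map_sub, map_mul, map_pow]
      linear_combination (TT γ' * (TT α' - TT β' * W)) * h5 -
        (ζ * TT γ * (TT α' - TT β' * W)) * h5' + (TT γ' * TT β * TT β' - ζ * TT γ * TT β' ^ 2) * hW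
    · simp only [coeff_sub, mul_coeff_zero, pow_two]
      have e3 : z / y * y = z := div_mul_cancel₀ _ hy
      linear_combination (γ'.coeff 0 * (α'.coeff 0 + β'.coeff 0 * w)) * h6 +
        (γ'.coeff 0 * β.coeff 0 * β'.coeff 0) * hw -
        (z / y * γ.coeff 0 * (α'.coeff 0 + β'.coeff 0 * w)) * h6' -
        (z / y * γ.coeff 0 * β'.coeff 0 ^ 2) * hw -
        (γ.coeff 0 * γ'.coeff 0 * (α'.coeff 0 + β'.coeff 0 * w)) * e3

end

end Pool.Agent.Y200.CY
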