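import Pool.Agent.Y200.CY.Defs

/-! Statements (helper200, project CY). -/

set_option autoImplicit false

namespace Pool.Agent.Y200.CY

open MvPolynomial Pool.Agent.Y200.CB

/-- smoothness and extensions of fields -/
def StmNS : Prop := ∀ (a b : ℕ) (k : Type) [Field k] [IsAlgClosed k]
  (F : MvPolynomial (Sg a b) k), Smo F k → ∀ (E : Type) [Field E] [Algebra k E], Smo F E

/-- generic smoothness -/
def StmGS : Prop := ∀ (a b : ℕ) (k E : Type) [Field k] [CharZero k] [Field E] [Algebra k E]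
  (F : MvPolynomial (Sg a b) k), MHom F → Smo F E →
  ∀ (P : Bl a b → Prop) (β₀ : Bl a b), P β₀ → ∀ z : Sg a b → E, NZ z →
  (∀ β, ¬ P β → z (o0 β) = 1) →
  AlgebraicIndependent k (fun s : {s : Sg a b // ¬ P (bl s) ∧ s ≠ o0 (bl s)} => z s) →
  (∀ s, P (bl s) → aeval z (pderiv s F) = 0) → False

/-- the coefficients relative to a plane -/
def StmDEC : Prop := ∀ (a b : ℕ) (k : Type) [Field k] (F : MvPolynomial (Sg a b) k), MHom F →
  ∀ j : Fin b, ∃ M : Cub (MvPolynomial (Sg a b) k),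
    (∀ α, M.co α ∈ supported k {s : Sg a b | bl s ≠ .inr j}) ∧
    (∀ α, ∀ d ∈ (M.co α).support, ∀ β : Bl a b, β ≠ .inr j → ∑ s with bl s = β, d s = dg β) ∧
    F = M.ev (X (.inr (j, 0))) (X (.inr (j, 1))) (X (.inr (j, 2))) ∧
    pderiv (.inr (j, 0)) F = M.d0 (X (.inr (j, 0))) (X (.inr (j, 1))) (X (.inr (j, 2))) ∧
    pderiv (.inr (j, 1)) F = M.d1 (X (.inr (j, 0))) (X (.inr (j, 1))) (X (.inr (j, 2))) ∧
    pderiv (.inr (j, 2)) F = M.d2 (X (.inr (j, 0))) (X (.inr (j, 1))) (X (.inr (j, 2)))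

/-- the coefficients relative to two lines -/
def StmDEC2 : Prop := ∀ (a b : ℕ) (k : Type) [Field k] (F : MvPolynomial (Sg a b) k), MHom F →
  ∀ i i' : Fin a, i ≠ i' → ∃ M : Bq (MvPolynomial (Sg a b) k),
    (∀ α, M.co α ∈ supported k {s : Sg a b | bl s ≠ .inl i ∧ bl s ≠ .inl i'}) ∧
    F = M.ev (X (.inl (i, 0))) (X (.inl (i, 1))) (X (.inl (i', 0))) (X (.inl (i', 1))) ∧
    pderiv (.inl (i, 0)) F =
      M.dp0 (X (.inl (i, 0))) (X (.inl (i, 1))) (X (.inl (i', 0))) (X (.inl (i', 1))) ∧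
    pderiv (.inl (i, 1)) F =
      M.dp1 (X (.inl (i, 0))) (X (.inl (i, 1))) (X (.inl (i', 0))) (X (.inl (i', 1))) ∧
    pderiv (.inl (i', 0)) F =
      M.dq0 (X (.inl (i, 0))) (X (.inl (i, 1))) (X (.inl (i', 0))) (X (.inl (i', 1))) ∧
    pderiv (.inl (i', 1)) F =
      M.dq1 (X (.inl (i, 0))) (X (.inl (i, 1))) (X (.inl (i', 0))) (X (.inl (i', 1)))

/-- no base points -/
def StmBF : Prop := ∀ (a b : ℕ) (k κ : Type) [Field k] [CharZero k] [Field κ] [Algebra k κ]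
  [IsAlgClosed κ] (F : MvPolynomial (Sg a b) k), MHom F → Smo F κ →
  ∀ (j : Fin b) (M : Cub (MvPolynomial (Sg a b) k)),
    (∀ α, M.co α ∈ supported k {s : Sg a b | bl s ≠ .inr j}) →
    F = M.ev (X (.inr (j, 0))) (X (.inr (j, 1))) (X (.inr (j, 2))) →
    pderiv (.inr (j, 0)) F = M.d0 (X (.inr (j, 0))) (X (.inr (j, 1))) (X (.inr (j, 2))) →
    pderiv (.inr (j, 1)) F = M.d1 (X (.inr (j, 0))) (X (.inr (j, 1))) (X (.inr (j, 2))) →
    pderiv (.inr (j, 2)) F = M.d2 (X (.inr (j, 0))) (X (.inr (j, 1))) (X (.inr (j, 2))) →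
  ∀ p s : Sg a b, Cell p s → bl p ≠ .inr j → bl s ≠ .inr j → ∀ w : Sg a b → κ,
  (∀ β : Bl a b, β = bl p ∨ β = bl s → ∃ q, bl q = β ∧ w q ≠ 0) →
  (∀ β : Bl a b, β ≠ bl p → β ≠ bl s → β ≠ .inr j → w (o0 β) = 1) →
  AlgebraicIndependent k (fun q : {q : Sg a b // (bl q ≠ bl p ∧ bl q ≠ bl s ∧ bl q ≠ .inr j) ∧
    q ≠ o0 (bl q)} => w q) →
  ∃ α, aeval w (M.co α) ≠ 0

/-- a smooth plane cubic is irreducible of degree three -/
def StmSM : Prop := ∀ (E : Type) [Field E] [IsAlgClosed E] [CharZero E] (c : Cub E), c.Smo →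
  Irreducible c.aff ∧ c.Deg3

/-- the cubics through a generic point of an irreducible cubic -/
def StmA : Prop := ∀ (E Λ : Type) [Field E] [IsAlgClosed E] [CharZero E] [Field Λ] [Algebra E Λ]
  (c : Cub E), Irreducible c.aff → c.Deg3 → ∀ u v : Λ,
  (c.map (algebraMap E Λ)).ev 1 u v = 0 → (∀ u₀ v₀ : E, u = algebraMap E Λ u₀ →
    v = algebraMap E Λ v₀ → False) →
  ∀ P : Cub E, (P.map (algebraMap E Λ)).ev 1 u v = 0 → ∃ l : E, ∀ α, P.co α = l * c.co α

/-- the generic point of an irreducible cubic is smooth and not a flex -/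
def StmB : Prop := ∀ (E Λ : Type) [Field E] [IsAlgClosed E] [CharZero E] [Field Λ] [Algebra E Λ]
  (c : Cub E), Irreducible c.aff → c.Deg3 → ∀ u v : Λ,
  (c.map (algebraMap E Λ)).ev 1 u v = 0 → (∀ u₀ v₀ : E, u = algebraMap E Λ u₀ →
    v = algebraMap E Λ v₀ → False) →
  (c.map (algebraMap E Λ)).d1 1 u v ≠ 0 ∧ (c.map (algebraMap E Λ)).d2 1 u v ≠ 0 ∧
    (c.map (algebraMap E Λ)).flex u v ≠ 0

/-- finiteness -/
def StmFIN : Prop := ∀ (a b : ℕ) (k Λ : Type) [Field k] [CharZero k] [Field Λ] [Algebra k Λ]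
  (D : Derivation k Λ Λ) (P : Bl a b → Prop) (A : Type) (m : A → MvPolynomial (Sg a b) k),
  (∀ α, ∀ d ∈ (m α).support, ∀ β, P β → ∑ s with bl s = β, d s = dg β) →
  ∀ z : Sg a b → Λ, (∀ β, P β → z (o0 β) = 1) → ∀ h0 : ∀ s, ¬ P (bl s) → D (z s) = 0,
  ∀ μ : Λ, (∀ α, D (aeval z (m α)) = μ * aeval z (m α)) →
  (∀ (κ : Type) [Field κ] [Algebra (consts D) κ] (w : Sg a b → κ),
    (∀ s (hs : ¬ P (bl s)), w s = algebraMap (consts D) κ ⟨z s, h0 s hs⟩) →
    (∀ β, P β → ∃ s, bl s = β ∧ w s ≠ 0) →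
    ∃ α, eval₂ ((algebraMap (consts D) κ).comp (algebraMap k (consts D))) w (m α) ≠ 0) →
  ∀ s, D (z s) = 0

/-- mixed second derivatives at the generic point -/
def StmMH : Prop := ∀ (a b : ℕ) (k Λ : Type) [Field k] [CharZero k] [Field Λ] [IsAlgClosed Λ]
  [Algebra k Λ] (F : MvPolynomial (Sg a b) k), MHom F →
  (∀ (E : Type) [Field E] [Algebra k E], Smo F E) → ∀ (j : Fin b) (z : Sg a b → Λ),
  (∀ β, z (o0 β) = 1) → aeval z F = 0 →
  AlgebraicIndependent k (fun s : {s : Sg a b // bl s ≠ .inr j ∧ s ≠ o0 (bl s)} => z s) →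
  ∀ D : Derivation k Λ Λ, (∀ s, bl s ≠ .inr j → D (z s) = 0) →
  D (z (.inr (j, 1))) ≠ 0 → D (z (.inr (j, 2))) ≠ 0 →
  ∀ p s : Sg a b, Cell p s → bl p ≠ .inr j → bl s ≠ .inr j → aeval z (pderiv s F) ≠ 0 →
    D (aeval z (pderiv p F) / aeval z (pderiv s F)) ≠ 0

/-- curves of bidegree `(2, 2)` are double covers of the line -/
def StmDC : Prop := ∀ (Ω K : Type) [Field Ω] [CharZero Ω] [Field K] [Algebra Ω K]
  (L : IntermediateField Ω K) (m : Bq L),
  (m.map (algebraMap L (AlgebraicClosure L))).Smo → ∀ t y : K, Transcendental L t →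
  (m.map (algebraMap L K)).ev 1 t 1 y = 0 → IntermediateField.adjoin L {t, y} = ⊤ → DCL L

/-- the equation of the generic fibre generates the ideal of the generic point -/
def StmKER : Prop := ∀ (Ω K : Type) [Field Ω] [Field K] [Algebra Ω K] (N : ℕ)
  (f : MvPolynomial (Fin N) Ω) (x : Fin N → K), GPt f x → ∀ p s : Fin N, p ≠ s →
  ∀ (L : IntermediateField Ω K), L = IntermediateField.adjoin Ω (x '' {l | l ≠ p ∧ l ≠ s}) →
  ∀ (hm : ∀ l, l ≠ p → l ≠ s → x l ∈ L) (P : MvPolynomial (Fin 2) L), aeval ![x p, x s] P = 0 →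
  (aeval (fun l => if h1 : l = p then X 0 else if h2 : l = s then X 1 else
    C ⟨x l, hm l h1 h2⟩) f : MvPolynomial (Fin 2) L) ∣ P

/-- all coordinates but one are independent -/
def StmAI : Prop := ∀ (Ω K : Type) [Field Ω] [Field K] [Algebra Ω K] (N : ℕ)
  (f : MvPolynomial (Fin N) Ω) (x : Fin N → K), GPt f x → ∀ s : Fin N, f.degreeOf s ≠ 0 →
  AlgebraicIndependent Ω (fun l : {l : Fin N // l ≠ s} => x l)

/-- generation of the Lie algebra of vector fields -/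
def StmLIE : Prop := ∀ (Ω K : Type) [Field Ω] [CharZero Ω] [Field K] [Algebra Ω K] (N : ℕ)
  (f : MvPolynomial (Fin N) Ω) (x : Fin N → K), GPt f x →
  (∀ l, aeval x (pderiv l f) ≠ 0) → ∀ (ι : Type) [Finite ι] (p s : ι → Fin N),
  (∀ c, p c ≠ s c) → ∀ T : ι → Derivation Ω K K,
  (∀ c, T c (x (p c)) = aeval x (pderiv (s c) f)) →
  (∀ c, T c (x (s c)) = - aeval x (pderiv (p c) f)) →
  (∀ c l, l ≠ p c → l ≠ s c → T c (x l) = 0) →
  (∀ l, ∃ c, l = p c ∨ l = s c) →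
  (∀ c d, Relation.ReflTransGen (fun c d => (p c = p d ∨ p c = s d ∨ s c = p d ∨ s c = s d) ∨
    T c (aeval x (pderiv (p d) f) / aeval x (pderiv (s d) f)) ≠ 0) c d) →
  LieSubalgebra.lieSpan Ω (Derivation Ω K K) {D | ∃ c, ∃ e : K, D = e • T c} = ⊤

/-- dehomogenisation -/
noncomputable def deh {k : Type} [Field k] {a b N : ℕ}
    (e : {s : Sg a b // s ≠ o0 (bl s)} ≃ Fin N) (F : MvPolynomial (Sg a b) k) :
    MvPolynomial (Fin N) k :=
  aeval (fun s => if h : s ≠ o0 (bl s) then X (e ⟨s, h⟩) else 1) F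

/-- homogeneous coordinates of an affine point -/
noncomputable def hpt {K : Type} [Field K] {a b N : ℕ}
    (e : {s : Sg a b // s ≠ o0 (bl s)} ≃ Fin N) (x : Fin N → K) : Sg a b → K :=
  fun s => if h : s ≠ o0 (bl s) then x (e ⟨s, h⟩) else 1

/-- values of the affine equation and of its derivatives -/
def StmEV : Prop := ∀ (a b N : ℕ) (k K : Type) [Field k] [Field K] [Algebra k K]
  (e : {s : Sg a b // s ≠ o0 (bl s)} ≃ Fin N) (F : MvPolynomial (Sg a b) k) (x : Fin N → K),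
  aeval x (deh e F) = aeval (hpt e x) F ∧
    ∀ l, aeval x (pderiv l (deh e F)) = aeval (hpt e x) (pderiv ((e.symm l).1) F)

/-- the affine equation contains all the variables -/
def StmDH : Prop := ∀ (a b N : ℕ) (k : Type) [Field k] [CharZero k]
  (e : {s : Sg a b // s ≠ o0 (bl s)} ≃ Fin N) (F : MvPolynomial (Sg a b) k), MHom F → Smo F k →
  ∀ l, (deh e F).degreeOf l ≠ 0 ∧ ¬ deh e F ∣ pderiv l (deh e F)

end Pool.Agent.Y200.CY
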