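import Pool.Agent.Y200.CY.Stm2

/-! Statements, third part (helper200, project CY): products of projective spaces. -/

set_option autoImplicit false

namespace Pool.Agent.Y200.CY

open MvPolynomial Pool.Agent.Y200.CB

/-- homogeneous coordinates of a product of projective spaces of the dimensions `n i` -/
abbrev Pc {ι : Type} (n : ι → ℕ) := (i : ι) × Fin (n i + 1)

/-- the affine coordinates -/
abbrev PAf {ι : Type} (n : ι → ℕ) := {s : Pc n // s.2 ≠ 0}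

section

variable {ι : Type} {n : ι → ℕ}

/-- multihomogeneous polynomials of multidegree `d` -/
def PHom (d : ι → ℕ) {k : Type*} [CommSemiring k] (F : MvPolynomial (Pc n) k) : Prop :=
  ∀ m ∈ F.support, ∀ i, ∑ r, m ⟨i, r⟩ = d i

/-- homogeneous coordinates of a point -/
def PNZ {E : Type*} [Zero E] (z : Pc n → E) : Prop := ∀ i, ∃ r, z ⟨i, r⟩ ≠ 0

/-- no singular points over `E` -/
def PSm {k : Type*} [Field k] (F : MvPolynomial (Pc n) k) (E : Type*) [Field E] [Algebra k E] :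
    Prop := ∀ z : Pc n → E, PNZ z → ∃ s, aeval z (pderiv s F) ≠ 0

/-- dehomogenisation -/
noncomputable def pdeh {k : Type} [Field k] {N : ℕ} (e : PAf n ≃ Fin N)
    (F : MvPolynomial (Pc n) k) : MvPolynomial (Fin N) k :=
  aeval (fun s => if h : s.2 ≠ 0 then X (e ⟨s, h⟩) else 1) F

/-- homogeneous coordinates of an affine point -/
noncomputable def phpt {K : Type} [Field K] {N : ℕ} (e : PAf n ≃ Fin N) (x : Fin N → K) :
    Pc n → K :=
  fun s => if h : s.2 ≠ 0 then x (e ⟨s, h⟩) else 1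

end

section

variable {a b : ℕ} {R : Type*} [CommRing R]

/-- the index of a coordinate in its factor -/
def ix : Sg a b → ℕ
  | .inl s => s.2
  | .inr s => s.2

/-- a point of a factor as a polynomial of degree at most one or two -/
noncomputable def fm (m : ℕ) (z : Sg a b → R) (β : Bl a b) : Polynomial R :=
  ∑ s with bl s = β, Polynomial.C (z s ^ m) * Polynomial.X ^ ix s

variable {ι : Type} [DecidableEq ι] {n : ι → ℕ}

/-- the product of the polynomials of the factors which belong to `i` -/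
noncomputable def pf (ρ : Bl a b → ι) (ε : ι → ℕ) (z : Sg a b → R) (i : ι) : Polynomial R :=
  ∏ β with ρ β = i, fm (ε i) z β

/-- the map to the product of projective spaces -/
noncomputable def tau (ρ : Bl a b → ι) (ε : ι → ℕ) (z : Sg a b → R) (s : Pc n) : R :=
  (pf ρ ε z s.1).coeff s.2

/-- the map to the product of projective spaces, followed by linear maps -/
noncomputable def tg (g : (i : ι) → Matrix (Fin (n i + 1)) (Fin (n i + 1)) R) (ρ : Bl a b → ι)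
    (ε : ι → ℕ) (z : Sg a b → R) (s : Pc n) : R :=
  ∑ r, g s.1 s.2 r * tau ρ ε z ⟨s.1, r⟩

/-- the composition of a polynomial with this map -/
noncomputable def pb (g : (i : ι) → Matrix (Fin (n i + 1)) (Fin (n i + 1)) R) (ρ : Bl a b → ι)
    (ε : ι → ℕ) (F : MvPolynomial (Pc n) R) : MvPolynomial (Sg a b) R :=
  aeval (tg (fun i => (g i).map C) ρ ε X) F

end

/-- the degrees of the composition -/
def StmPH : Prop := ∀ (a b : ℕ) (ι : Type) [Fintype ι] [DecidableEq ι] (n d : ι → ℕ)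
  (ρ : Bl a b → ι) (ε : ι → ℕ), (∀ β, d (ρ β) * ε (ρ β) = dg β) → ∀ (k : Type) [Field k]
  (g : (i : ι) → Matrix (Fin (n i + 1)) (Fin (n i + 1)) k) (F : MvPolynomial (Pc n) k),
  PHom d F → MHom (pb g ρ ε F)

/-- smoothness and extensions of fields -/
def StmPNS : Prop := ∀ (ι : Type) [Fintype ι] (n : ι → ℕ) (k : Type) [Field k] [IsAlgClosed k]
  (F : MvPolynomial (Pc n) k), PSm F k → ∀ (E : Type) [Field E] [Algebra k E], PSm F E

/-- the composition with a generic linear map is smooth -/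
def StmGN : Prop := ∀ (a b : ℕ) (ι : Type) [Fintype ι] [DecidableEq ι] (n d : ι → ℕ)
  (ρ : Bl a b → ι) (ε : ι → ℕ), (∀ β, d (ρ β) * ε (ρ β) = dg β) →
  (∀ i, d i ≠ 0) → (∀ i, n i ≠ 0) → (∀ i, ∑ β with ρ β = i, (dg β - 1) = n i) →
  ∀ (k Λ : Type) [Field k] [CharZero k] [Field Λ] [Algebra k Λ]
  (F : MvPolynomial (Pc n) k), PHom d F → PSm F Λ →
  ∀ γ : (i : ι) → Matrix (Fin (n i + 1)) (Fin (n i + 1)) Λ,
  AlgebraicIndependent k (fun q : (i : ι) × (Fin (n i + 1) × Fin (n i + 1)) =>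
    γ q.1 q.2.1 q.2.2) →
  Smo (pb γ ρ ε (map (algebraMap k Λ) F)) Λ

/-- smoothness at the generic point of the space of parameters implies smoothness for general
parameters -/
def StmSP : Prop := ∀ (a b : ℕ) (T : Type) [Fintype T] (k : Type) [Field k] [CharZero k]
  [IsAlgClosed k] (G : MvPolynomial (Sg a b) (MvPolynomial T k)) (Λ : Type) [Field Λ]
  [IsAlgClosed Λ] [Algebra k Λ] (γ : T → Λ), AlgebraicIndependent k γ →
  Smo (map (aeval γ : MvPolynomial T k →ₐ[k] Λ).toRingHom G) Λ →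
  ∃ q : MvPolynomial T k, q ≠ 0 ∧ ∀ t : T → k, eval t q ≠ 0 →
    Smo (map (eval t) G) k

/-- a smooth hypersurface contains no fixed hyperplane, and its equation is reduced -/
def StmNL : Prop := ∀ (ι : Type) [Fintype ι] [DecidableEq ι] (n d : ι → ℕ) (N : ℕ)
  (e : PAf n ≃ Fin N) (k : Type) [Field k] [CharZero k] [IsAlgClosed k]
  (F : MvPolynomial (Pc n) k), (∀ i, n i ≠ 0) → (∀ i, d i ≠ 0) → (∀ i : ι, ∃ j, j ≠ i) →
  PHom d F → PSm F k → ∀ c : (i : ι) → Fin (n i + 1) → k, (∀ i, c i ≠ 0) →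
  ∀ G : MvPolynomial (Fin N) k, (∀ z : Fin N → k, eval z (pdeh e F) = 0 →
    (∀ i, ∑ r, c i r * phpt e z ⟨i, r⟩ ≠ 0) → eval z G = 0) → pdeh e F ∣ G

/-- surjectivity of the map `tau` on affine charts -/
def StmLF : Prop := ∀ (a b : ℕ) (ι : Type) [Fintype ι] [DecidableEq ι] (n : ι → ℕ)
  (ρ : Bl a b → ι) (ε : ι → ℕ), (∀ i, ε i ≠ 0) → (∀ i, ∑ β with ρ β = i, (dg β - 1) = n i) →
  ∀ (k : Type) [Field k] [IsAlgClosed k] (v : Pc n → k), (∀ i, v ⟨i, 0⟩ = 1) →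
  ∃ z : Sg a b → k, (∀ β, z (o0 β) = 1) ∧ ∀ s : Pc n, tau ρ ε z s = v s

/-- transfer of density of points -/
def StmTR : Prop := ∀ (a b : ℕ) (ι : Type) [Fintype ι] [DecidableEq ι] (n d : ι → ℕ)
  (ρ : Bl a b → ι) (ε : ι → ℕ), (∀ β, d (ρ β) * ε (ρ β) = dg β) → (∀ i, ε i ≠ 0) →
  (∀ i, n i ≠ 0) → (∀ i, d i ≠ 0) → (∀ i, ∑ β with ρ β = i, (dg β - 1) = n i) →
  ∀ (N M : ℕ) (e : PAf n ≃ Fin N) (e' : Af a b ≃ Fin M) (k Ω : Type) [Field k] [Field Ω]
  [Algebra k Ω] [IsAlgClosed Ω] (F : MvPolynomial (Pc n) k), PHom d F →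
  ∀ g : (i : ι) → Matrix (Fin (n i + 1)) (Fin (n i + 1)) k, (∀ i, (g i).det ≠ 0) →
  ∀ L : Subfield Ω, (∀ c : k, algebraMap k Ω c ∈ L) →
  (∀ G : MvPolynomial (Fin M) k, ¬ deh e' (pb g ρ ε F) ∣ G →
    ∃ y : Fin M → Ω, (∀ l, y l ∈ L) ∧ aeval y (deh e' (pb g ρ ε F)) = 0 ∧ aeval y G ≠ 0) →
  ∀ G : MvPolynomial (Fin N) k, ¬ pdeh e F ∣ G →
  -- the conclusion of `StmNL`
  (∀ c : (i : ι) → Fin (n i + 1) → Ω, (∀ i, c i ≠ 0) →
    ∃ z : Fin N → Ω, aeval z (pdeh e F) = 0 ∧ (∀ i, ∑ r, c i r * phpt e z ⟨i, r⟩ ≠ 0) ∧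
      aeval z G ≠ 0) →
  ∃ y : Fin N → Ω, (∀ l, y l ∈ L) ∧ aeval y (pdeh e F) = 0 ∧ aeval y G ≠ 0

/-- the combinatorial data -/
def StmCO : Prop := ∀ (ι : Type) [Fintype ι] [DecidableEq ι] (n d : ι → ℕ),
  (∀ i, n i ≠ 0) → (∀ i, d i ≠ 0) → (∀ i, d i ≤ 3) → (∀ i, d i = 3 → Even (n i)) →
  ¬ (∃ i, d i ≤ 2 ∧ n i = 1 ∧ ∀ j, j ≠ i → d j = 3) → Nonempty ι →
  ∃ (a b : ℕ) (ρ : Bl a b → ι) (ε : ι → ℕ), a ≠ 1 ∧ a + b ≠ 0 ∧ (∀ i, ε i ≠ 0) ∧
    (∀ β, d (ρ β) * ε (ρ β) = dg β) ∧ ∀ i, ∑ β with ρ β = i, (dg β - 1) = n i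

end Pool.Agent.Y200.CY
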