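import Pool.Agent.Y200.CY.Stm5

/-! Statements, sixth part (helper200, project CY): products of one line and planes. -/

set_option autoImplicit false

namespace Pool.Agent.Y200.CY

open MvPolynomial Pool.Agent.Y200.CB

/-- the affine coordinate of the line -/
def tl (b : ℕ) : Af 1 b := ⟨.inl (0, 1), by simp [bl, o0]⟩

/-- the second derivatives in two variables -/
noncomputable def dd {σ : Type*} {k : Type*} [CommRing k] (s₀ s₁ : σ) (F : MvPolynomial σ k) :
    Fin 3 → MvPolynomial σ k :=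
  ![pderiv s₀ (pderiv s₀ F), pderiv s₀ (pderiv s₁ F), pderiv s₁ (pderiv s₁ F)]

/-- extension of the field -/
def StmLID : Prop := ∀ (σ k E : Type) [Field k] [Field E] [Algebra k E] (s₀ s₁ : σ)
  (F : MvPolynomial σ k), LinearIndependent k (dd s₀ s₁ F) →
  LinearIndependent E (dd s₀ s₁ (map (algebraMap k E) F))

/-- another generic point -/
def StmUPD : Prop := ∀ (k K : Type) [Field k] [Field K] [Algebra k K] (N : ℕ)
  (f : MvPolynomial (Fin N) k) (x : Fin N → K), GPt f x → ∀ (s : Fin N), f.degreeOf s ≠ 0 →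
  ∀ t' : K, aeval (Function.update x s t') f = 0 →
  IntermediateField.adjoin k (Set.range (Function.update x s t')) = ⊤ →
  GPt f (Function.update x s t')

/-- the other point over the same point of the product of the planes -/
def StmTT : Prop := ∀ (b N : ℕ) (k K : Type) [Field k] [CharZero k] [Field K] [Algebra k K]
  (F : MvPolynomial (Sg 1 b) k), MHom F → (∀ (E : Type) [Field E] [Algebra k E], Smo F E) →
  b ≠ 0 → LinearIndependent k (dd (.inl (0, 0)) (.inl (0, 1)) F) →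
  ∀ (e : Af 1 b ≃ Fin N) (x : Fin N → K), GPt (deh e F) x →
  ∃ t' : K, aeval (Function.update x (e (tl b)) t') (deh e F) = 0 ∧
    IntermediateField.adjoin k (Set.range (Function.update x (e (tl b)) t')) = ⊤ ∧
    ∃ D : Derivation k K K, D (x (e (tl b))) = 0 ∧ D t' ≠ 0

/-- generation of the Lie algebra of the vector fields tangent to the fibration over the line -/
def StmLG1 : Prop := ∀ (b N : ℕ) (k K : Type) [Field k] [CharZero k] [Field K] [Algebra k K]
  (F : MvPolynomial (Sg 1 b) k), MHom F → (∀ (E : Type) [Field E] [Algebra k E], Smo F E) →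
  ∀ (e : Af 1 b ≃ Fin N) (x : Fin N → K), GPt (deh e F) x →
  ∀ D : Derivation k K K, D (x (e (tl b))) = 0 →
  D ∈ LieSubalgebra.lieSpan k (Derivation k K K)
    {D | ∃ (j : Fin b) (p s : Af 1 b), p.1 = .inr (j, 1) ∧ s.1 = .inr (j, 2) ∧
      ∀ y ∈ Lps k x (e p) (e s), D y = 0}

/-- linear independence of the second derivatives of the linear sections -/
def StmSEC : Prop := ∀ (b : ℕ) (ι : Type) [Fintype ι] [DecidableEq ι] (n m d : ι → ℕ)
  (ρ : Bl 1 b → ι) (ε : ι → ℕ), (∀ β, d (ρ β) * ε (ρ β) = dg β) → (∀ i, m i ≠ 0) →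
  (∀ i, m i ≤ n i) → (∀ i, ∑ β with ρ β = i, (dg β - 1) = m i) → ∀ (i₀ : ι), n i₀ = 1 →
  d i₀ = 2 → (∀ i, i ≠ i₀ → d i = 3) → (∀ i, i ≠ i₀ → m i = 2) →
  ∀ (k E : Type) [Field k] [CharZero k] [Field E]
  [Algebra k E] (F : MvPolynomial (Pc n) k), PHom d F →
  LinearIndependent k (dd (⟨i₀, 0⟩ : Pc n) ⟨i₀, Fin.last _⟩ F) →
  ∀ g : (i : ι) → Matrix (Fin (m i + 1)) (Fin (m i + 1)) k, (∀ i, (g i).det ≠ 0) →
  ∀ h : Hv n m → E, AlgebraicIndependent k h →
  LinearIndependent E (dd (.inl (0, 0)) (.inl (0, 1))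
    (pb (fun i => (g i).map (algebraMap k E)) ρ ε (cut h (map (algebraMap k E) F))))

/-- the combinatorial data, in the case of one line -/
def StmCO1 : Prop := ∀ (ι : Type) [Fintype ι] [DecidableEq ι] (m d : ι → ℕ) (i₀ : ι), m i₀ = 1 →
  d i₀ = 2 → (∀ i, i ≠ i₀ → d i = 3) → (∀ i, i ≠ i₀ → m i = 2) → (∃ i, i ≠ i₀) →
  ∃ (b : ℕ) (ρ : Bl 1 b → ι) (ε : ι → ℕ), b ≠ 0 ∧ (∀ i, ε i ≠ 0) ∧
    (∀ β, d (ρ β) * ε (ρ β) = dg β) ∧ ∀ i, ∑ β with ρ β = i, (dg β - 1) = m i

end Pool.Agent.Y200.CY
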