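import Pool.Agent.Y200.CY.Stm6
import Pool.Agent.Y200.CY.Irp
import Pool.Agent.Y200.CY.Ker
import Pool.Agent.Y200.CY.Gs
import Pool.Agent.Y200.CY.Dh

/-! The other root is transcendental (helper569, project CY). -/

set_option autoImplicit false

namespace Pool.Agent.Y200.CY.Tta

open MvPolynomial Pool.Agent.Y200.CY Pool.Agent.Y200.CB

/-- linear independence and extension of the field -/
theorem li_map {σ k E ι : Type} [Fintype ι] [Field k] [Field E] [Algebra k E]
    (P : ι → MvPolynomial σ k) (h : LinearIndependent k P) :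
    LinearIndependent E (fun i => map (algebraMap k E) (P i)) := by
  rw [Fintype.linearIndependent_iff] at h ⊢
  intro c hc i
  by_contra hne
  obtain ⟨φ, hφ⟩ : ∃ φ : Module.Dual k E, φ (c i) ≠ 0 := by
    by_contra hcon
    push Not at hcon
    exact hne ((Module.forall_dual_apply_eq_zero_iff k _).1 hcon)
  apply hφ
  apply h (fun i => φ (c i)) _ i
  ext d
  have h1 := congrArg (fun Q => φ (coeff d Q)) hc
  simp only [coeff_sum, coeff_smul, coeff_map, smul_eq_mul, coeff_zero, map_zero, map_sum] at h1 ⊢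
  rw [← h1]
  apply Finset.sum_congr rfl
  intro j _
  rw [mul_comm (c j), ← Algebra.smul_def, map_smul, smul_eq_mul, mul_comm]

theorem lid : StmLID := by
  intro σ k E _ _ _ s₀ s₁ F h
  have h1 := li_map (E := E) _ h
  have h2 : dd s₀ s₁ (map (algebraMap k E) F) =
      fun i => map (algebraMap k E) (dd s₀ s₁ F i) := by
    funext i
    fin_cases i <;> simp [dd, pderiv_map]
  rw [h2]
  exact h1

/-! ### decomposition relative to the line -/

section dec

variable {b : ℕ}

/-- the embedding of the coordinates -/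
def em : Sg 0 b → Sg 1 b
  | .inl s => s.1.elim0
  | .inr s => .inr s

theorem em_inj : Function.Injective (em (b := b)) := by
  rintro (⟨i, _⟩ | s) (⟨j, _⟩ | s') h
  · exact i.elim0
  · exact i.elim0
  · exact j.elim0
  · exact congrArg _ (Sum.inr.inj h)

variable {k : Type} [Field k]

/-- the parts -/
noncomputable def qq (F : MvPolynomial (Sg 1 b) k) (i : ℕ) : MvPolynomial (Sg 0 b) k :=
  ∑ d ∈ F.support with d (.inl (0, 1)) = i,
    monomial (d.comapDomain em em_inj.injOn) (coeff d F)

theorem decomp_aux (d : Sg 1 b →₀ ℕ) (h : d (.inl (0, 0)) + d (.inl (0, 1)) = 2) (s : Sg 1 b) :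
    (Finsupp.single (.inl (0, 0)) (2 - d (.inl (0, 1))) : Sg 1 b →₀ ℕ) s +
      (Finsupp.single (.inl (0, 1)) (d (.inl (0, 1))) : Sg 1 b →₀ ℕ) s +
      (Finsupp.mapDomain em (d.comapDomain em em_inj.injOn)) s = d s := by
  rcases s with ⟨i, j⟩ | s
  · have hi : i = 0 := Subsingleton.elim _ _
    subst hi
    have h0 : (Finsupp.mapDomain em (d.comapDomain em em_inj.injOn)) (.inl (0, j)) = 0 := by
      apply Finsupp.mapDomain_of_notMem_range
      rintro ⟨(⟨i, _⟩ | s), hs⟩
      · exact i.elim0
      · exact absurd hs Sum.inr_ne_inl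
    rw [h0, add_zero]
    fin_cases j
    · simp
      omega
    · simp
  · have h0 : (Finsupp.mapDomain em (d.comapDomain em em_inj.injOn)) (.inr s) = d (.inr s) := by
      have h1 : (.inr s : Sg 1 b) = em (.inr s) := rfl
      rw [h1, Finsupp.mapDomain_apply em_inj]
      rfl
    rw [h0]
    simp

theorem decomp_mon (d : Sg 1 b →₀ ℕ) (h : d (.inl (0, 0)) + d (.inl (0, 1)) = 2) (c : k) :
    (X (.inl (0, 0)) : MvPolynomial (Sg 1 b) k) ^ (2 - d (.inl (0, 1))) *
      X (.inl (0, 1)) ^ (d (.inl (0, 1))) *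
      rename em (monomial (d.comapDomain em em_inj.injOn) c) = monomial d c := by
  have hmain : (Finsupp.single (.inl (0, 0)) (2 - d (.inl (0, 1))) : Sg 1 b →₀ ℕ) +
      Finsupp.single (.inl (0, 1)) (d (.inl (0, 1))) +
      Finsupp.mapDomain em (d.comapDomain em em_inj.injOn) = d := by
    ext s
    rw [Finsupp.add_apply, Finsupp.add_apply]
    exact decomp_aux d h s
  rw [rename_monomial, X_pow_eq_monomial, X_pow_eq_monomial, monomial_mul, monomial_mul, one_mul,
    one_mul, hmain]

theorem decomp (F : MvPolynomial (Sg 1 b) k) (hF : MHom F) :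
    F = X (.inl (0, 0)) ^ 2 * rename em (qq F 0) +
      X (.inl (0, 0)) * X (.inl (0, 1)) * rename em (qq F 1) +
      X (.inl (0, 1)) ^ 2 * rename em (qq F 2) := by
  have hd : ∀ d ∈ F.support, d (.inl (0, 0)) + d (.inl (0, 1)) = 2 := by
    intro d hd
    have h := hF d hd (.inl 0)
    rw [Finset.sum_filter, Fintype.sum_sum_type, Fintype.sum_prod_type] at h
    simpa [bl, dg, Fin.sum_univ_two] using h
  have h1 : F = ∑ i ∈ Finset.range 3, X (.inl (0, 0)) ^ (2 - i) * X (.inl (0, 1)) ^ i *
      rename em (qq F i) := by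
    have h2 : ∀ i ∈ Finset.range 3, (X (.inl (0, 0)) : MvPolynomial (Sg 1 b) k) ^ (2 - i) *
        X (.inl (0, 1)) ^ i * rename em (qq F i) =
        ∑ d ∈ F.support with d (.inl (0, 1)) = i, monomial d (coeff d F) := by
      intro i _
      rw [qq, map_sum, Finset.mul_sum]
      apply Finset.sum_congr rfl
      intro d hdd
      rw [Finset.mem_filter] at hdd
      have h3 := decomp_mon d (hd d hdd.1) (coeff d F)
      rw [hdd.2] at h3
      exact h3
    rw [Finset.sum_congr rfl h2, Finset.sum_fiberwise_of_maps_to]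
    · exact F.as_sum
    · intro d hdd
      have := hd d hdd
      rw [Finset.mem_range]
      omega
  conv_lhs => rw [h1]
  simp [Finset.sum_range_succ]

theorem mhom_qq (F : MvPolynomial (Sg 1 b) k) (hF : MHom F) (i : ℕ) : MHom (qq F i) := by
  intro d' hd' β
  rcases β with ⟨i, hi⟩ | j
  · exact absurd hi (by omega)
  · have h1 : ∃ d ∈ F.support, d' = d.comapDomain em em_inj.injOn := by
      by_contra hcon
      push Not at hcon
      rw [mem_support_iff] at hd'
      apply hd'
      rw [qq, coeff_sum]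
      apply Finset.sum_eq_zero
      intro d hd
      rw [coeff_monomial, if_neg]
      exact fun h => hcon d (Finset.mem_filter.1 hd).1 h.symm
    obtain ⟨d, hd, rfl⟩ := h1
    have h := hF d hd (.inr j)
    rw [Finset.sum_filter, Fintype.sum_sum_type] at h ⊢
    simpa [bl, em, dg] using h

theorem pd_ren (Q : MvPolynomial (Sg 0 b) k) (j : Fin 2) :
    pderiv (.inl (0, j)) (rename em Q) = 0 := by
  classical
  apply pderiv_eq_zero_of_notMem_vars
  intro h
  have h1 := vars_rename em Q h
  rw [Finset.mem_image] at h1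
  obtain ⟨(⟨i, _⟩ | s), _, hs⟩ := h1
  · exact i.elim0
  · exact absurd hs Sum.inr_ne_inl

theorem dd_eq (F : MvPolynomial (Sg 1 b) k) (hF : MHom F) :
    dd (.inl (0, 0)) (.inl (0, 1)) F =
      ![2 * rename em (qq F 0), rename em (qq F 1), 2 * rename em (qq F 2)] := by
  have h01 : (.inl (0, 1) : Sg 1 b) ≠ .inl (0, 0) := by
    intro h
    exact absurd (congrArg Prod.snd (Sum.inl.inj h)) (by decide)
  have hd0 : pderiv (.inl (0, 0)) F = 2 * X (.inl (0, 0)) * rename em (qq F 0) +
      X (.inl (0, 1)) * rename em (qq F 1) := by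
    conv_lhs => rw [decomp F hF]
    simp only [map_add, pderiv_mul, pderiv_pow, pderiv_X_self, pderiv_X_of_ne h01, pd_ren]
    ring
  have hd1 : pderiv (.inl (0, 1)) F = X (.inl (0, 0)) * rename em (qq F 1) +
      2 * X (.inl (0, 1)) * rename em (qq F 2) := by
    conv_lhs => rw [decomp F hF]
    simp only [map_add, pderiv_mul, pderiv_pow, pderiv_X_self, pderiv_X_of_ne h01.symm, pd_ren]
    ring
  have h2 : (2 : MvPolynomial (Sg 1 b) k) = C 2 := (map_ofNat C 2).symm
  funext i
  fin_cases i
  · simp only [dd, hd0, h2, map_add, pderiv_mul, pderiv_X_self, pderiv_X_of_ne h01, pd_ren,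
      pderiv_C]
    simp
  · simp only [dd, hd1, h2, map_add, pderiv_mul, pderiv_X_self, pderiv_X_of_ne h01, pd_ren,
      pderiv_C]
    simp
  · simp only [dd, hd1, h2, map_add, pderiv_mul, pderiv_X_self, pderiv_X_of_ne h01.symm, pd_ren,
      pderiv_C]
    simp

theorem li_qq [CharZero k] (F : MvPolynomial (Sg 1 b) k) (hF : MHom F)
    (h : LinearIndependent k (dd (.inl (0, 0)) (.inl (0, 1)) F)) (c0 c1 c2 : k)
    (hc : C c0 * qq F 0 + C c1 * qq F 1 + C c2 * qq F 2 = 0) : c0 = 0 ∧ c1 = 0 ∧ c2 = 0 := by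
  rw [dd_eq F hF, Fintype.linearIndependent_iff] at h
  have h2 : (2 : MvPolynomial (Sg 1 b) k) = C 2 := (map_ofNat C 2).symm
  have h3 := h ![c0 / 2, c1, c2 / 2] (by
    have h4 := congrArg (rename em) hc
    simp only [map_add, map_mul, rename_C, map_zero] at h4
    rw [Fin.sum_univ_three, ← h4, h2]
    simp only [Matrix.cons_val_zero, Matrix.cons_val_one, Matrix.cons_val, smul_eq_C_mul]
    have e0 : (C c0 : MvPolynomial (Sg 1 b) k) = C (c0 / 2) * C 2 := by
      rw [← C_mul, div_mul_cancel₀ _ two_ne_zero]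
    have e2 : (C c2 : MvPolynomial (Sg 1 b) k) = C (c2 / 2) * C 2 := by
      rw [← C_mul, div_mul_cancel₀ _ two_ne_zero]
    rw [e0, e2]
    ring)
  refine ⟨?_, h3 1, ?_⟩
  · have := h3 0
    simpa using this
  · have := h3 2
    simpa using this

end dec

end Pool.Agent.Y200.CY.Tta
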