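import Pool.Agent.Y200.CY.Tta

/-! The fibre over the generic point of the line (helper569, project CY). -/

set_option autoImplicit false

namespace Pool.Agent.Y200.CY.Ttb

open MvPolynomial Pool.Agent.Y200.CY Pool.Agent.Y200.CB Pool.Agent.Y200.CY.Tta

section mh

variable {a b : ℕ} {k : Type*} [Field k]

theorem mhom_add {P Q : MvPolynomial (Sg a b) k} (hP : MHom P) (hQ : MHom Q) :
    MHom (P + Q) := by
  classical
  intro d hd
  rcases Finset.mem_union.1 (support_add hd) with h | h
  · exact hP d h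
  · exact hQ d h

theorem mhom_C_mul {P : MvPolynomial (Sg a b) k} (hP : MHom P) (c : k) : MHom (C c * P) := by
  intro d hd
  apply hP d
  rw [mem_support_iff, coeff_C_mul] at hd
  rw [mem_support_iff]
  exact right_ne_zero_of_mul hd

theorem mhom_map {E : Type*} [Field E] {P : MvPolynomial (Sg a b) k} (hP : MHom P)
    (f : k →+* E) : MHom (map f P) := by
  intro d hd
  exact hP d (support_map_subset f P hd)

end mh

theorem deh_inj {k : Type} [Field k] {a b N : ℕ} (e : Af a b ≃ Fin N)
    {R : MvPolynomial (Sg a b) k} (hR : MHom R) (h : deh e R = 0) : R = 0 := by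
  by_contra hne
  obtain ⟨d, hd⟩ := support_nonempty.2 hne
  have h1 := Dh.coeff_deh e hR hd
  rw [h, coeff_zero] at h1
  exact (mem_support_iff.1 hd) h1.symm

theorem tr3 {k Ω : Type} [Field k] [Field Ω] [Algebra k Ω] {t : Ω} (ht : Transcendental k t)
    (a b c : k) (h : algebraMap k Ω a + t * algebraMap k Ω b + t ^ 2 * algebraMap k Ω c = 0) :
    a = 0 ∧ b = 0 ∧ c = 0 := by
  rw [transcendental_iff] at ht
  have h1 := ht (Polynomial.C a + Polynomial.C b * Polynomial.X + Polynomial.C c *
    Polynomial.X ^ 2) (by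
      simp only [map_add, map_mul, Polynomial.aeval_C, Polynomial.aeval_X, map_pow]
      linear_combination h)
  have c0 := congrArg (fun p => Polynomial.coeff p 0) h1
  have c1 := congrArg (fun p => Polynomial.coeff p 1) h1
  have c2 := congrArg (fun p => Polynomial.coeff p 2) h1
  simp [Polynomial.coeff_X, Polynomial.coeff_C, Polynomial.coeff_X_pow] at c0 c1 c2
  exact ⟨c0, c1, c2⟩

section fib

variable {b N N' : ℕ} {k Ω : Type} [Field k] [Field Ω] [Algebra k Ω] (e : Af 1 b ≃ Fin N)
  (e' : Af 0 b ≃ Fin N') (t : Ω)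

/-- specialization of the coordinates -/
noncomputable def hh : Sg 1 b → MvPolynomial (Fin N') Ω
  | .inl s => if s.2 = 0 then 1 else C t
  | .inr s => Dh.gg Ω e' (.inr s)

/-- specialization of the affine coordinates -/
noncomputable def th : MvPolynomial (Fin N) k →ₐ[k] MvPolynomial (Fin N') Ω :=
  aeval (fun l => hh e' t (e.symm l).1)

theorem th_deh (P : MvPolynomial (Sg 1 b) k) : th e e' t (deh e P) = aeval (hh e' t) P := by
  rw [Dh.deh_eq, th, ← AlgHom.comp_apply, comp_aeval]
  congr 2
  funext s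
  unfold Dh.gg
  split_ifs with h
  · rw [aeval_X, Equiv.symm_apply_apply]
  · rw [map_one]
    rw [not_not] at h
    rcases s with ⟨i, j⟩ | ⟨i, j⟩
    · have hj : j = 0 := congrArg Prod.snd (Sum.inl.inj h)
      simp [hh, hj]
    · have hj : j = 0 := congrArg Prod.snd (Sum.inr.inj h)
      subst hj
      simp only [hh]
      unfold Dh.gg
      rw [dif_neg]
      rw [not_not]
      rfl

theorem hh_em (Q : MvPolynomial (Sg 0 b) k) :
    aeval (hh e' t) (rename em Q) = deh e' (map (algebraMap k Ω) Q) := by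
  rw [aeval_rename, Dh.deh_eq, aeval_map_algebraMap]
  congr 2
  funext s
  rcases s with ⟨i, _⟩ | s
  · exact i.elim0
  · rfl

/-- the equation of the fibre -/
noncomputable def fib (F : MvPolynomial (Sg 1 b) k) : MvPolynomial (Sg 0 b) Ω :=
  map (algebraMap k Ω) (qq F 0) + C t * map (algebraMap k Ω) (qq F 1) +
    C (t ^ 2) * map (algebraMap k Ω) (qq F 2)

theorem deh_fib (F : MvPolynomial (Sg 1 b) k) : deh e' (fib t F) =
    deh e' (map (algebraMap k Ω) (qq F 0)) + C t * deh e' (map (algebraMap k Ω) (qq F 1)) +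
      C (t ^ 2) * deh e' (map (algebraMap k Ω) (qq F 2)) := by
  rw [Dh.deh_eq, Dh.deh_eq, Dh.deh_eq, Dh.deh_eq, fib, map_add, map_add, map_mul, map_mul, aeval_C,
    aeval_C]
  rfl

theorem th_F (F : MvPolynomial (Sg 1 b) k) (hF : MHom F) :
    th e e' t (deh e F) = deh e' (fib t F) := by
  rw [th_deh, deh_fib]
  conv_lhs => rw [decomp F hF]
  simp only [map_add, map_mul, map_pow, aeval_X, hh_em]
  simp [hh]

theorem deh_map (Q : MvPolynomial (Sg 0 b) k) :
    deh e' (map (algebraMap k Ω) Q) = map (algebraMap k Ω) (deh e' Q) := by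
  rw [Dh.deh_eq, Dh.deh_eq]
  induction Q using MvPolynomial.induction_on with
  | C c =>
    rw [map_C, aeval_C, aeval_C]
    exact (map_C _ _).symm
  | add p q hp hq => simp only [map_add, hp, hq]
  | mul_X p s hp =>
    simp only [map_mul, hp, map_X, aeval_X]
    congr 1
    unfold Dh.gg
    split_ifs
    · rw [map_X]
    · rw [map_one]

theorem mhom_fib (F : MvPolynomial (Sg 1 b) k) (hF : MHom F) : MHom (fib t F) :=
  mhom_add (mhom_add (mhom_map (mhom_qq F hF 0) _) (mhom_C_mul (mhom_map (mhom_qq F hF 1) _) _))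
    (mhom_C_mul (mhom_map (mhom_qq F hF 2) _) _)

variable [CharZero k]

theorem li_deh (F : MvPolynomial (Sg 1 b) k) (hF : MHom F)
    (h : LinearIndependent k (dd (.inl (0, 0)) (.inl (0, 1)) F)) (c0 c1 c2 : Ω)
    (hc : C c0 * deh e' (map (algebraMap k Ω) (qq F 0)) +
      C c1 * deh e' (map (algebraMap k Ω) (qq F 1)) +
      C c2 * deh e' (map (algebraMap k Ω) (qq F 2)) = 0) : c0 = 0 ∧ c1 = 0 ∧ c2 = 0 := by
  have h0 : LinearIndependent k (![qq F 0, qq F 1, qq F 2] : Fin 3 → MvPolynomial (Sg 0 b) k) := by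
    rw [Fintype.linearIndependent_iff]
    intro c hc
    rw [Fin.sum_univ_three] at hc
    simp only [Matrix.cons_val_zero, Matrix.cons_val_one, Matrix.cons_val, smul_eq_C_mul] at hc
    obtain ⟨h1, h2, h3⟩ := li_qq F hF h _ _ _ hc
    intro i
    fin_cases i
    · exact h1
    · exact h2
    · exact h3
  have h1 := li_map (E := Ω) _ h0
  rw [Fintype.linearIndependent_iff] at h1
  have h2 : C c0 * map (algebraMap k Ω) (qq F 0) + C c1 * map (algebraMap k Ω) (qq F 1) +
      C c2 * map (algebraMap k Ω) (qq F 2) = 0 := by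
    apply deh_inj e'
    · exact mhom_add (mhom_add (mhom_C_mul (mhom_map (mhom_qq F hF 0) _) _)
        (mhom_C_mul (mhom_map (mhom_qq F hF 1) _) _)) (mhom_C_mul (mhom_map (mhom_qq F hF 2) _) _)
    · rw [← hc, Dh.deh_eq, Dh.deh_eq, Dh.deh_eq, Dh.deh_eq, map_add, map_add, map_mul, map_mul,
        map_mul, aeval_C, aeval_C, aeval_C]
      rfl
  have h3 := h1 ![c0, c1, c2] (by
    rw [Fin.sum_univ_three]
    simp only [Matrix.cons_val_zero, Matrix.cons_val_one, Matrix.cons_val, smul_eq_C_mul]
    exact h2)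
  exact ⟨h3 0, h3 1, h3 2⟩

theorem key (F : MvPolynomial (Sg 1 b) k) (hF : MHom F)
    (h : LinearIndependent k (dd (.inl (0, 0)) (.inl (0, 1)) F)) (ht : Transcendental k t)
    (β γ : Ω) (hdvd : deh e' (fib t F) ∣ C β * deh e' (map (algebraMap k Ω) (qq F 1)) +
      C γ * deh e' (map (algebraMap k Ω) (qq F 2))) : β = 0 ∧ γ = 0 := by
  obtain ⟨G, hG⟩ := hdvd
  by_cases h0 : C β * deh e' (map (algebraMap k Ω) (qq F 1)) +
      C γ * deh e' (map (algebraMap k Ω) (qq F 2)) = 0
  · have h1 := li_deh e' F hF h 0 β γ (by rw [C_0, zero_mul, zero_add, h0])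
    exact h1.2
  · have hg0 : deh e' (fib t F) ≠ 0 := by
      intro h2
      rw [h2, zero_mul] at hG
      exact h0 hG
    have hG0 : G ≠ 0 := by
      intro h2
      rw [h2, mul_zero] at hG
      exact h0 hG
    have hsupp : (C β * deh e' (map (algebraMap k Ω) (qq F 1)) +
        C γ * deh e' (map (algebraMap k Ω) (qq F 2))).support ⊆ (deh e' (fib t F)).support := by
      intro m hm
      rw [mem_support_iff] at hm ⊢
      intro h2
      apply hm
      rw [deh_fib, deh_map, deh_map, deh_map, coeff_add, coeff_add, coeff_C_mul, coeff_C_mul,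
        coeff_map, coeff_map, coeff_map] at h2
      obtain ⟨_, h4, h5⟩ := tr3 ht _ _ _ h2
      rw [deh_map, deh_map, coeff_add, coeff_C_mul, coeff_C_mul, coeff_map, coeff_map, h4, h5,
        map_zero, mul_zero, mul_zero, add_zero]
    have h3 := totalDegree_mul_of_isDomain hg0 hG0
    have h4 : (C β * deh e' (map (algebraMap k Ω) (qq F 1)) +
        C γ * deh e' (map (algebraMap k Ω) (qq F 2))).totalDegree ≤
        (deh e' (fib t F)).totalDegree := Finset.sup_mono hsupp
    rw [hG, h3] at h4
    have h5 : G.totalDegree = 0 := by omega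
    obtain ⟨l, hl⟩ : ∃ l, G = C l := ⟨_, totalDegree_eq_zero_iff_eq_C.1 h5⟩
    rw [hl, deh_fib] at hG
    have h6 := li_deh e' F hF h l (l * t - β) (l * t ^ 2 - γ) (by
      rw [C_sub, C_sub, C_mul, C_mul]
      linear_combination -hG)
    obtain ⟨e0, e1, e2⟩ := h6
    rw [e0] at e1 e2
    constructor
    · linear_combination -e1
    · linear_combination -e2

theorem smo_fib (F : MvPolynomial (Sg 1 b) k) (hF : MHom F) (hs : Smo F Ω) (hb : b ≠ 0)
    (ht : Transcendental k t) : Smo (fib t F) Ω := by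
  intro z hz
  by_contra hcon
  push Not at hcon
  set z' : Sg 1 b → Ω := fun s => match s with
    | .inl s => if s.2 = 0 then 1 else t
    | .inr s => z (.inr s) with hz'
  have hem : z' ∘ em = z := by
    funext s
    rcases s with ⟨i, _⟩ | s
    · exact i.elim0
    · rfl
  refine Gs.gs 1 b k Ω F hF hs (fun β => ∃ j, β = .inr j)
    (.inr ⟨0, Nat.pos_of_ne_zero hb⟩) ⟨_, rfl⟩ z' ?_ ?_ ?_ ?_
  · intro β
    rcases β with i | j
    · exact ⟨.inl (i, 0), rfl, by simp [hz']⟩
    · obtain ⟨s, hs1, hs2⟩ := hz (.inr j)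
      rcases s with ⟨i, _⟩ | s
      · exact i.elim0
      · refine ⟨.inr s, ?_, hs2⟩
        have h1 : s.1 = j := Sum.inr.inj hs1
        simp [bl, h1]
  · intro β hβ
    rcases β with i | j
    · simp [hz', o0]
    · exact absurd ⟨j, rfl⟩ hβ
  · have ht' : AlgebraicIndependent k (fun _ : Unit => t) := by
      rw [algebraicIndependent_unique_type_iff]
      exact ht
    have hx : ∀ s : {s : Sg 1 b // (¬ ∃ j, bl s = .inr j) ∧ s ≠ o0 (bl s)},
        s.1 = .inl (0, 1) := by
      rintro ⟨⟨i, j⟩ | s, h1, h2⟩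
      · have hi : i = 0 := Subsingleton.elim _ _
        subst hi
        have hj : j = 1 := by
          fin_cases j
          · exact absurd rfl h2
          · rfl
        subst hj
        rfl
      · exact absurd ⟨_, rfl⟩ h1
    have h3 := ht'.comp (fun _ : {s : Sg 1 b // (¬ ∃ j, bl s = .inr j) ∧ s ≠ o0 (bl s)} => ())
      (fun s s' _ => Subtype.ext ((hx s).trans (hx s').symm))
    convert h3 using 1
    funext s
    rw [hx s]
    simp [hz']
  · intro s hs1
    rcases s with s | s
    · obtain ⟨j, hj⟩ := hs1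
      exact absurd hj Sum.inl_ne_inr
    · have h1 := hcon (.inr s)
      have hp : ∀ Q : MvPolynomial (Sg 0 b) k, pderiv (.inr s) (rename em Q) =
          rename em (pderiv (.inr s) Q) := fun Q => by
        have := pderiv_rename em_inj (.inr s) Q
        exact this
      have hX : ∀ j, pderiv (.inr s) (X (.inl (0, j)) : MvPolynomial (Sg 1 b) k) = 0 := fun j =>
        pderiv_X_of_ne Sum.inl_ne_inr
      have he : ∀ Q : MvPolynomial (Sg 0 b) k, aeval z' (rename em Q) = aeval z Q := fun Q => by
        rw [aeval_rename, hem]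
      have hl : aeval z' (pderiv (.inr s) F) = aeval z (pderiv (.inr s) (qq F 0)) +
          t * aeval z (pderiv (.inr s) (qq F 1)) + t ^ 2 * aeval z (pderiv (.inr s) (qq F 2)) := by
        conv_lhs => rw [decomp F hF]
        simp only [map_add, pderiv_mul, pderiv_pow, hX, hp, map_mul, map_pow, aeval_X, he,
          mul_zero, zero_mul, zero_add, add_zero]
        simp [hz']
      rw [hl, ← h1, fib]
      simp only [map_add, pderiv_C_mul, pderiv_map, aeval_map_algebraMap, map_mul, aeval_C]
      rfl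

end fib

end Pool.Agent.Y200.CY.Ttb
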